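import Pool.Agent.H.MP_0f3f77_al.StarDefs

/-!
The integral over `(u_2, u_3)` for fixed `u_1`.

`star_fub`, proof.  Fix `u_1`.  Insert `Jt` (`isum_app` after `isum_map` for `actL (un u)`, or
evaluate `act (un u) (Jt ...)` directly): the left side is
`∫_{(u_2,u_3)} ∫_η ex u η * b η * (act (un u) (sact ν η (D8 g))) (pt l w) a b i dη`.
Insert `star_point` and `star_exp` (for `η ∈ tsupport b`).  Interchange the integrals (Fubini,
`MeasureTheory.integral_integral_swap`): the integrand is continuous and bounded by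
`C 1_{tsupport b}(η) (1 + |u_1|)^2 (1 + ‖(Y, Z)‖)^(-9)` (`D8_decay`, `|τ|` bounded), and for `η` in
the compact set `tsupport b` the affine map `(u_2, u_3) ↦ (Y, Z)` satisfies
`1 + ‖(u_2,u_3)‖ ≤ C' (1 + |u_1|) (1 + ‖(Y, Z)‖)`, so the integrand is dominated by
`C'' 1_{tsupport b}(η) (1 + ‖(u_2,u_3)‖)^(-3)`.
Inner integral for fixed `η`: the affine substitution `(u_2, u_3) ↦ (Y, Z)` with
`Y = w_1 - u_2`, `Z = (η_2 Y + η_3 (w_2 - u_3 + l u_1)) / ν` has Jacobian `|η_3 / ν|`; first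
substitute `u_3` for fixed `u_2`, then `u_2` (`integral_comp_...`), giving
`|ν/η_3| e^{-iτ u_1} e^{-i(η_2 w_1 + η_3 w_2)} ∑_k S_{ik}(η) shear u_1 (Fh ν g · · k (τ/ν)) a b`.
Finally write the integral over `η = (η_1, η_2, η_3)` as the iterated integral over `η_1` inside,
substitute `η_1 = τ - l η_3` and move the integral over `τ` outside (Fubini again; everything is
continuous with compact support in `η`).
-/

open scoped Topology ContDiff
open MeasureTheory

noncomputable section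

namespace SoCo

/-- The integral of a smooth function with compact support over some of the variables. -/
theorem acsmooth_param (B : ℝ → ℝ × ℝ → ℂ) (hB : ContDiff ℝ ∞ (fun q : ℝ × (ℝ × ℝ) => B q.1 q.2))
    (K : Set (ℝ × (ℝ × ℝ))) (hK : IsCompact K) (h0 : ∀ q : ℝ × (ℝ × ℝ), q ∉ K → B q.1 q.2 = 0) :
    ContDiff ℝ ∞ (fun τ : ℝ => ∫ ζ : ℝ × ℝ, B τ ζ) ∧
      HasCompactSupport (fun τ : ℝ => ∫ ζ : ℝ × ℝ, B τ ζ) := by
  constructor
  · set k : Set (ℝ × ℝ) := (fun z : ℝ × (ℝ × ℝ) => -z.2) '' K with hk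
    have hkc : IsCompact k := hK.image (by fun_prop)
    have hgs : ∀ (τ : ℝ) (x : ℝ × ℝ), τ ∈ (Set.univ : Set ℝ) → x ∉ k →
        (fun (τ : ℝ) (x : ℝ × ℝ) => B τ (-x)) τ x = 0 := by
      intro τ x _ hx
      refine h0 (τ, -x) fun hmem => hx ?_
      exact ⟨(τ, -x), hmem, by simp⟩
    have hg : ContDiffOn ℝ ∞ (Function.uncurry (fun (τ : ℝ) (x : ℝ × ℝ) => B τ (-x)))
        (Set.univ ×ˢ Set.univ) := by
      have h1 : ContDiff ℝ ∞ (fun q : ℝ × (ℝ × ℝ) => (q.1, -q.2)) := by fun_prop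
      exact (hB.comp h1).contDiffOn
    have h1 := contDiffOn_convolution_right_with_param (𝕜 := ℝ) (μ := (volume : Measure (ℝ × ℝ)))
      (f := fun _ : ℝ × ℝ => (1 : ℂ)) (n := ⊤) (ContinuousLinearMap.mul ℝ ℂ)
      (g := fun (τ : ℝ) (x : ℝ × ℝ) => B τ (-x)) isOpen_univ hkc hgs
      (continuous_const.locallyIntegrable) hg
    rw [Set.univ_prod_univ, contDiffOn_univ] at h1
    have h2 : ContDiff ℝ ∞ (fun τ : ℝ => (τ, (0 : ℝ × ℝ))) := by fun_prop
    have h3 := h1.comp h2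
    have h4 : (fun τ : ℝ => ∫ ζ : ℝ × ℝ, B τ ζ) =
        ((fun q : ℝ × (ℝ × ℝ) => MeasureTheory.convolution (fun _ : ℝ × ℝ => (1 : ℂ))
          (fun x : ℝ × ℝ => B q.1 (-x)) (ContinuousLinearMap.mul ℝ ℂ) volume q.2) ∘
          fun τ : ℝ => (τ, (0 : ℝ × ℝ))) := by
      funext τ
      simp [MeasureTheory.convolution]
    rw [h4]
    exact h3
  · refine HasCompactSupport.intro (hK.image continuous_fst) fun τ hτ => ?_
    have h1 : (fun ζ : ℝ × ℝ => B τ ζ) = fun _ => 0 := by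
      funext ζ
      exact h0 (τ, ζ) fun hmem => hτ ⟨(τ, ζ), hmem, rfl⟩
    simp only [h1, integral_zero]

/-- The coefficient functions are smooth with compact support.  Proof: the integrand is a smooth
function of `(τ, ζ)` with compact support: `b ∘ (shear)` times functions smooth on `ζ.2 ≠ 0`
(`ζ.2 / ν > 0` on the support, so `|ν/ζ.2| = ν/ζ.2`); write it as `B (τ, ζ)` with
`ContDiff ℝ ∞ B`, `HasCompactSupport B`.  Then `τ ↦ ∫ B (τ, ζ) dζ` is `C^∞`: e.g.
`hasDerivAt_integral_of_dominated_loc_of_deriv_le` iterated (the derivative `∂_τ B` is of the same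
kind), with an induction via `contDiff_succ_iff_deriv`. -/
theorem Ac_smooth (ν : ℝ) (hν : ν ≠ 0) (b : R3 → ℂ) (hb : CB ν b) (l : ℝ) (w : ℝ × ℝ)
    (i k : Fin 4) : ContDiff ℝ ∞ (Ac ν b l w i k) ∧ HasCompactSupport (Ac ν b l w i k) := by
  set K : Set (ℝ × (ℝ × ℝ)) :=
    (fun η : R3 => ((η.1 + l * η.2.2, (η.2.1, η.2.2)) : ℝ × (ℝ × ℝ))) '' tsupport b with hKdef
  have hK : IsCompact K := hb.cs.image (by fun_prop)
  have hnot : ∀ q : ℝ × (ℝ × ℝ), q ∉ K → (q.1 - l * q.2.2, q.2.1, q.2.2) ∉ tsupport b := by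
    intro q hq hmem
    exact hq ⟨_, hmem, by simp⟩
  refine acsmooth_param (fun (τ : ℝ) (ζ : ℝ × ℝ) => b (τ - l * ζ.2, ζ.1, ζ.2) *
    ((|ν / ζ.2| * Sc2 ν i k (0, ζ.1, ζ.2) : ℝ) : ℂ) *
    Complex.exp (-(Complex.I * (ζ.1 * w.1 + ζ.2 * w.2)))) ?_ K hK ?_
  · have hsh : ContDiff ℝ ∞
        (fun q : ℝ × (ℝ × ℝ) => ((q.1 - l * q.2.2, q.2.1, q.2.2) : R3)) := by fun_prop
    rw [contDiff_iff_contDiffAt]
    intro q
    by_cases hq : ((q.1 - l * q.2.2, q.2.1, q.2.2) : R3) ∈ tsupport b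
    · have hU : ((q.1 - l * q.2.2, q.2.1, q.2.2) : R3) ∈ UU ν := hb.sub hq
      have hpos : 0 < q.2.2 / ν := hU
      have hne : q.2.2 ≠ 0 := (UU_ne hU).2
      have hS : ContDiffAt ℝ ∞ (fun q : ℝ × (ℝ × ℝ) => Sc2 ν i k (0, q.2.1, q.2.2)) q := by
        unfold Sc2
        split_ifs <;> fun_prop
      have hquot : ContDiffAt ℝ ∞ (fun q : ℝ × (ℝ × ℝ) => ν / q.2.2) q :=
        contDiffAt_const.div (by fun_prop) hne
      have hev : ∀ᶠ q' : ℝ × (ℝ × ℝ) in 𝓝 q, |ν / q'.2.2| = ν / q'.2.2 := by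
        have hc : ContinuousAt (fun q' : ℝ × (ℝ × ℝ) => q'.2.2 / ν) q := by fun_prop
        filter_upwards [hc.eventually (lt_mem_nhds hpos)] with q' hq'
        refine abs_of_pos ?_
        have h3 := inv_pos.mpr hq'
        rwa [inv_div] at h3
      have hmain : ContDiffAt ℝ ∞ (fun q : ℝ × (ℝ × ℝ) =>
          b (q.1 - l * q.2.2, q.2.1, q.2.2) *
          ((ν / q.2.2 * Sc2 ν i k (0, q.2.1, q.2.2) : ℝ) : ℂ) *
          Complex.exp (-(Complex.I * (q.2.1 * w.1 + q.2.2 * w.2)))) q := by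
        refine ((hb.smooth.comp hsh).contDiffAt.mul ?_).mul ?_
        · exact (Complex.ofRealCLM.contDiff.contDiffAt).comp q (hquot.mul hS)
        · refine ContDiff.contDiffAt ?_
          refine ContDiff.cexp ?_
          have e1 : ContDiff ℝ ∞ (fun q : ℝ × (ℝ × ℝ) => ((q.2.1 : ℝ) : ℂ)) :=
            Complex.ofRealCLM.contDiff.comp (by fun_prop)
          have e2 : ContDiff ℝ ∞ (fun q : ℝ × (ℝ × ℝ) => ((q.2.2 : ℝ) : ℂ)) :=
            Complex.ofRealCLM.contDiff.comp (by fun_prop)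
          exact (contDiff_const.mul ((e1.mul contDiff_const).add (e2.mul contDiff_const))).neg
      refine hmain.congr_of_eventuallyEq ?_
      filter_upwards [hev] with q' hq'
      rw [hq']
    · have hopen : ∀ᶠ q' : ℝ × (ℝ × ℝ) in 𝓝 q,
          ((q'.1 - l * q'.2.2, q'.2.1, q'.2.2) : R3) ∉ tsupport b := by
        have h3 : IsOpen (tsupport b)ᶜ := (isClosed_tsupport b).isOpen_compl
        exact hsh.continuous.continuousAt.eventually (h3.mem_nhds hq)
      refine (contDiffAt_const (c := (0 : ℂ))).congr_of_eventuallyEq ?_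
      filter_upwards [hopen] with q' hq'
      rw [image_eq_zero_of_notMem_tsupport hq', zero_mul, zero_mul]
  · intro q hq
    rw [image_eq_zero_of_notMem_tsupport (hnot q hq), zero_mul, zero_mul]

end SoCo
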