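import Pool.Agent.H.MP_0f3f77_al.TopI

/-!
Moderate growth of the action.

Proof.  Let `m = g⁻¹` (matrix).  On `Om`, `act g f = R ∘ f ∘ M` with `M y = lmul m y` and
`R v = (fun a b i => ∑ k, m k i * v a b k)`, real-linear maps; `‖M‖ ≤ 4 gs g`, `‖R‖ ≤ 4 gs g`
(each entry of `m` is at most `gs g` in absolute value, four terms).  As in `deriv_bound`, for
`x ∈ Sc` and `j ≤ n`, `‖iteratedFDeriv ℝ j (act g f) x‖ ≤ ‖R‖ ‖M‖^j ‖iteratedFDeriv ℝ j f (M x)‖`
and `M x ∈ Om`; by `deriv_bound` this is at most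
`(4 gs g)^(j+1) * 32 * (sz (M x))^8 * (2 sz (M x))^j * pn j f`.
Now `‖M x‖ ≤ 4 gs g ‖x‖ ≤ 4 gs g`, and `1 = gram x = gram (lmul g (M x)) ≤ K (gs g)^4 gram (M x)`
for a constant `K` (e.g. by `gram_eq`: every minor of `lmul g y` is the sum of the minors of `y`
with coefficients the `2 x 2` minors of `g`, bounded by `2 (gs g)^2`; 16 or 36 terms and
Cauchy-Schwarz), so `(gram (M x))⁻¹ ≤ K (gs g)^4` and
`sz (M x) ≤ 4 (1 + 4 gs g) (1 + K (gs g)^4) ≤ K' (gs g)^5` (as `gs g ≥ 1`).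
-/

open scoped Topology ContDiff
open MeasureTheory

noncomputable section

namespace SoCo

theorem gs_ge_one (g : GL (Fin 4) ℝ) : 1 ≤ gs g := by
  unfold gs
  have h1 : 0 ≤ ∑ i, ∑ j, |(g : Mat) i j| :=
    Finset.sum_nonneg fun i _ => Finset.sum_nonneg fun j _ => abs_nonneg _
  have h2 : 0 ≤ ∑ i, ∑ j, |((g⁻¹ : GL (Fin 4) ℝ) : Mat) i j| :=
    Finset.sum_nonneg fun i _ => Finset.sum_nonneg fun j _ => abs_nonneg _
  linarith

/-- The minors of the pair. -/
def actbound_mn (y : E) (k l : Fin 4) : ℝ := y 0 k * y 1 l - y 0 l * y 1 k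

theorem actbound_mn_sq (y : E) (k l : Fin 4) : actbound_mn y k l ^ 2 ≤ gram y := by
  rw [gram_eq]
  unfold actbound_mn
  fin_cases k <;> fin_cases l <;> simp only [Fin.zero_eta, Fin.mk_one, Fin.reduceFinMk] <;>
    nlinarith [sq_nonneg (y 0 0 * y 1 1 - y 0 1 * y 1 0), sq_nonneg (y 0 0 * y 1 2 - y 0 2 * y 1 0),
      sq_nonneg (y 0 0 * y 1 3 - y 0 3 * y 1 0), sq_nonneg (y 0 1 * y 1 2 - y 0 2 * y 1 1),
      sq_nonneg (y 0 1 * y 1 3 - y 0 3 * y 1 1), sq_nonneg (y 0 2 * y 1 3 - y 0 3 * y 1 2)]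

theorem actbound_mn_abs (y : E) (k l : Fin 4) : |actbound_mn y k l| ≤ Real.sqrt (gram y) :=
  Real.abs_le_sqrt (actbound_mn_sq y k l)

theorem actbound_mn_lmul (g : Mat) (y : E) (i j : Fin 4) :
    actbound_mn (lmul g y) i j = ∑ k, ∑ l, g i k * g j l * actbound_mn y k l := by
  have h1 : ∑ k, ∑ l, g i k * g j l * (y 0 k * y 1 l) = lmul g y 0 i * lmul g y 1 j := by
    simp only [lmul, Finset.sum_mul_sum]
    refine Finset.sum_congr rfl fun k _ => Finset.sum_congr rfl fun l _ => ?_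
    ring
  have h2 : ∑ k, ∑ l, g i k * g j l * (y 0 l * y 1 k) = lmul g y 0 j * lmul g y 1 i := by
    rw [mul_comm (lmul g y 0 j)]
    simp only [lmul, Finset.sum_mul_sum]
    refine Finset.sum_congr rfl fun k _ => Finset.sum_congr rfl fun l _ => ?_
    ring
  unfold actbound_mn
  rw [← h1, ← h2, ← Finset.sum_sub_distrib]
  refine Finset.sum_congr rfl fun k _ => ?_
  rw [← Finset.sum_sub_distrib]
  refine Finset.sum_congr rfl fun l _ => ?_
  ring

theorem actbound_row (g : Mat) {s : ℝ} (hs : ∑ i, ∑ j, |g i j| ≤ s) (i : Fin 4) :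
    ∑ j, |g i j| ≤ s :=
  (Finset.single_le_sum (f := fun i => ∑ j, |g i j|)
    (fun _ _ => Finset.sum_nonneg fun _ _ => abs_nonneg _) (Finset.mem_univ i)).trans hs

theorem actbound_col (g : Mat) {s : ℝ} (hs : ∑ i, ∑ j, |g i j| ≤ s) (i : Fin 4) :
    ∑ k, |g k i| ≤ s := by
  refine (Finset.sum_le_sum fun k _ => ?_).trans hs
  exact Finset.single_le_sum (f := fun j => |g k j|) (fun _ _ => abs_nonneg _)
    (Finset.mem_univ i)

theorem actbound_mn_le (g : Mat) {s : ℝ} (hs : ∑ i, ∑ j, |g i j| ≤ s) (y : E) (i j : Fin 4) :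
    actbound_mn (lmul g y) i j ^ 2 ≤ s ^ 4 * gram y := by
  have hi := actbound_row g hs i
  have hj := actbound_row g hs j
  have hi0 : 0 ≤ ∑ k, |g i k| := Finset.sum_nonneg fun _ _ => abs_nonneg _
  have hj0 : 0 ≤ ∑ k, |g j k| := Finset.sum_nonneg fun _ _ => abs_nonneg _
  have h1 : |actbound_mn (lmul g y) i j| ≤ s ^ 2 * Real.sqrt (gram y) := by
    rw [actbound_mn_lmul]
    calc |∑ k, ∑ l, g i k * g j l * actbound_mn y k l|
        ≤ ∑ k, |∑ l, g i k * g j l * actbound_mn y k l| := Finset.abs_sum_le_sum_abs _ _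
      _ ≤ ∑ k, ∑ l, |g i k * g j l * actbound_mn y k l| :=
          Finset.sum_le_sum fun k _ => Finset.abs_sum_le_sum_abs _ _
      _ ≤ ∑ k, ∑ l, |g i k| * |g j l| * Real.sqrt (gram y) := by
          refine Finset.sum_le_sum fun k _ => Finset.sum_le_sum fun l _ => ?_
          rw [abs_mul, abs_mul]
          exact mul_le_mul_of_nonneg_left (actbound_mn_abs y k l) (by positivity)
      _ = (∑ k, |g i k|) * (∑ l, |g j l|) * Real.sqrt (gram y) := by
          rw [Finset.sum_mul_sum, Finset.sum_mul]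
          refine Finset.sum_congr rfl fun k _ => ?_
          rw [Finset.sum_mul]
      _ ≤ s ^ 2 * Real.sqrt (gram y) := by
          refine mul_le_mul_of_nonneg_right ?_ (Real.sqrt_nonneg _)
          rw [pow_two]
          exact mul_le_mul hi hj hj0 (hi0.trans hi)
  have h2 : actbound_mn (lmul g y) i j ^ 2 ≤ (s ^ 2 * Real.sqrt (gram y)) ^ 2 := by
    rw [← sq_abs]
    exact pow_le_pow_left₀ (abs_nonneg _) h1 2
  refine h2.trans (le_of_eq ?_)
  rw [mul_pow, Real.sq_sqrt (gram_nonneg y)]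
  ring

theorem actbound_gram (g : Mat) {s : ℝ} (hs : ∑ i, ∑ j, |g i j| ≤ s) (y : E) :
    gram (lmul g y) ≤ 6 * s ^ 4 * gram y := by
  have h := actbound_mn_le g hs y
  have e : gram (lmul g y) = actbound_mn (lmul g y) 0 1 ^ 2 + actbound_mn (lmul g y) 0 2 ^ 2 +
      actbound_mn (lmul g y) 0 3 ^ 2 + actbound_mn (lmul g y) 1 2 ^ 2 +
      actbound_mn (lmul g y) 1 3 ^ 2 + actbound_mn (lmul g y) 2 3 ^ 2 := gram_eq _
  rw [e]
  linarith [h 0 1, h 0 2, h 0 3, h 1 2, h 1 3, h 2 3]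

/-- Left multiplication as a continuous linear map. -/
def actbound_M (m : Mat) : E →L[ℝ] E :=
  LinearMap.toContinuousLinearMap
    { toFun := lmul m
      map_add' := by
        intro x y
        funext a i
        simp only [lmul, Pi.add_apply, mul_add, Finset.sum_add_distrib]
      map_smul' := by
        intro c x
        funext a i
        simp only [lmul, Pi.smul_apply, smul_eq_mul, RingHom.id_apply, Finset.mul_sum]
        refine Finset.sum_congr rfl fun j _ => ?_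
        ring }

theorem actbound_M_app (m : Mat) (x : E) : actbound_M m x = lmul m x := rfl

/-- The action on the values as a continuous linear map. -/
def actbound_R (m : Mat) : Fv →L[ℝ] Fv :=
  LinearMap.toContinuousLinearMap
    { toFun := fun v a b i => ∑ k, (m k i : ℂ) * v a b k
      map_add' := by
        intro x y
        funext a b i
        simp only [Pi.add_apply, mul_add, Finset.sum_add_distrib]
      map_smul' := by
        intro c x
        funext a b i
        simp only [Pi.smul_apply, RingHom.id_apply, Finset.smul_sum, mul_smul_comm] }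

theorem actbound_R_app (m : Mat) (v : Fv) (a b : Fin 2) (i : Fin 4) :
    actbound_R m v a b i = ∑ k, (m k i : ℂ) * v a b k := rfl

theorem actbound_M_norm (m : Mat) {s : ℝ} (hs : ∑ i, ∑ j, |m i j| ≤ s) (hs0 : 0 ≤ s) :
    ‖actbound_M m‖ ≤ s := by
  refine ContinuousLinearMap.opNorm_le_bound _ hs0 fun x => ?_
  rw [actbound_M_app, pi_norm_le_iff_of_nonneg (by positivity)]
  intro a
  rw [pi_norm_le_iff_of_nonneg (by positivity)]
  intro i
  rw [lmul_app, Real.norm_eq_abs]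
  have h1 : ∀ j, |x a j| ≤ ‖x‖ := fun j =>
    (norm_le_pi_norm (x a) j).trans (norm_le_pi_norm x a)
  calc |∑ j, m i j * x a j| ≤ ∑ j, |m i j * x a j| := Finset.abs_sum_le_sum_abs _ _
    _ ≤ ∑ j, |m i j| * ‖x‖ := by
        refine Finset.sum_le_sum fun j _ => ?_
        rw [abs_mul]
        exact mul_le_mul_of_nonneg_left (h1 j) (abs_nonneg _)
    _ = (∑ j, |m i j|) * ‖x‖ := by rw [Finset.sum_mul]
    _ ≤ s * ‖x‖ := mul_le_mul_of_nonneg_right (actbound_row m hs i) (norm_nonneg _)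

theorem actbound_R_norm (m : Mat) {s : ℝ} (hs : ∑ i, ∑ j, |m i j| ≤ s) (hs0 : 0 ≤ s) :
    ‖actbound_R m‖ ≤ s := by
  refine ContinuousLinearMap.opNorm_le_bound _ hs0 fun v => ?_
  rw [pi_norm_le_iff_of_nonneg (by positivity)]
  intro a
  rw [pi_norm_le_iff_of_nonneg (by positivity)]
  intro b
  rw [pi_norm_le_iff_of_nonneg (by positivity)]
  intro i
  rw [actbound_R_app]
  have h1 : ∀ k, ‖v a b k‖ ≤ ‖v‖ := fun k =>
    (norm_le_pi_norm (v a b) k).trans ((norm_le_pi_norm (v a) b).trans (norm_le_pi_norm v a))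
  calc ‖∑ k, (m k i : ℂ) * v a b k‖ ≤ ∑ k, ‖(m k i : ℂ) * v a b k‖ := norm_sum_le _ _
    _ ≤ ∑ k, |m k i| * ‖v‖ := by
        refine Finset.sum_le_sum fun k _ => ?_
        rw [norm_mul, Complex.norm_real, Real.norm_eq_abs]
        exact mul_le_mul_of_nonneg_left (h1 k) (abs_nonneg _)
    _ = (∑ k, |m k i|) * ‖v‖ := by rw [Finset.sum_mul]
    _ ≤ s * ‖v‖ := mul_le_mul_of_nonneg_right (actbound_col m hs i) (norm_nonneg _)

/-- The derivatives of the transformed function. -/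
theorem actbound_deriv (m : Mat) (hm : IsUnit m.det) (f : Isp) (j : ℕ) (x : E) (hx : x ∈ Om) :
    ‖iteratedFDeriv ℝ j (fun y => actbound_R m ((f : E → Fv) (actbound_M m y))) x‖ ≤
      ‖actbound_R m‖ * (‖iteratedFDeriv ℝ j (f : E → Fv) (lmul m x)‖ *
        ‖actbound_M m‖ ^ j) := by
  have hMx : actbound_M m x ∈ Om := (lmul_mem_Om m hm x).2 hx
  have hpre : IsOpen (actbound_M m ⁻¹' Om) := isOpen_Om.preimage (actbound_M m).continuous
  have h1 : iteratedFDeriv ℝ j ((f : E → Fv) ∘ actbound_M m) x =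
      (iteratedFDeriv ℝ j (f : E → Fv) (lmul m x)).compContinuousLinearMap
        fun _ => actbound_M m := by
    have h2 := (actbound_M m).iteratedFDerivWithin_comp_right (isI f).smooth
      isOpen_Om.uniqueDiffOn hpre.uniqueDiffOn hMx (i := j) (by exact_mod_cast le_top)
    rw [iteratedFDerivWithin_of_isOpen j hpre hMx, iteratedFDerivWithin_of_isOpen j isOpen_Om hMx]
      at h2
    exact h2
  have hc : ContDiffAt ℝ ∞ ((f : E → Fv) ∘ actbound_M m) x :=
    (f.contDiffAt _ hMx).comp x (actbound_M m).contDiff.contDiffAt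
  have h3 : iteratedFDeriv ℝ j (actbound_R m ∘ ((f : E → Fv) ∘ actbound_M m)) x =
      (actbound_R m).compContinuousMultilinearMap
        (iteratedFDeriv ℝ j ((f : E → Fv) ∘ actbound_M m) x) :=
    (actbound_R m).iteratedFDeriv_comp_left hc (by exact_mod_cast le_top)
  have h4 : (fun y => actbound_R m ((f : E → Fv) (actbound_M m y))) =
      actbound_R m ∘ ((f : E → Fv) ∘ actbound_M m) := rfl
  rw [h4, h3, h1]
  refine (ContinuousLinearMap.norm_compContinuousMultilinearMap_le _ _).trans ?_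
  refine mul_le_mul_of_nonneg_left ?_ (norm_nonneg _)
  refine (ContinuousMultilinearMap.norm_compContinuousLinearMap_le _ _).trans (le_of_eq ?_)
  simp

theorem act_bound (n : ℕ) : ∃ (C : ℝ) (N : ℕ), 0 ≤ C ∧
    ∀ (g : GL (Fin 4) ℝ) (f : Isp), pn n (act g f) ≤ C * gs g ^ N * pn n f := by
  refine ⟨32 * 56 ^ 8 * 112 ^ n, 41 + 6 * n, by positivity, ?_⟩
  intro g f
  have hs1 : 1 ≤ gs g := gs_ge_one g
  have hs0 : 0 ≤ gs g := by linarith
  have hg1 : ∑ i, ∑ j, |(g : Mat) i j| ≤ gs g := by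
    have h2 : 0 ≤ ∑ i, ∑ j, |((g⁻¹ : GL (Fin 4) ℝ) : Mat) i j| :=
      Finset.sum_nonneg fun i _ => Finset.sum_nonneg fun j _ => abs_nonneg _
    unfold gs
    linarith
  have hg2 : ∑ i, ∑ j, |((g⁻¹ : GL (Fin 4) ℝ) : Mat) i j| ≤ gs g := by
    have h2 : 0 ≤ ∑ i, ∑ j, |(g : Mat) i j| :=
      Finset.sum_nonneg fun i _ => Finset.sum_nonneg fun j _ => abs_nonneg _
    unfold gs
    linarith
  set s := gs g with hs
  set m : Mat := ((g⁻¹ : GL (Fin 4) ℝ) : Mat) with hm
  have hR := actbound_R_norm m hg2 hs0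
  have hM := actbound_M_norm m hg2 hs0
  have hp0 : 0 ≤ pn n f := apply_nonneg _ _
  refine pn_le _ n _ (by positivity) ?_
  intro x hx j hj
  have hxO : x ∈ Om := Sc_subset_Om hx
  have hdet : IsUnit m.det := isUnit_det_GL g⁻¹
  have hy : lmul m x ∈ Om := (lmul_mem_Om m hdet x).2 hxO
  have e1 : (act g f : E → Fv) = fun y => actbound_R m ((f : E → Fv) (actbound_M m y)) := rfl
  have h1 := actbound_deriv m hdet f j x hxO
  have h2 := deriv_bound f j (lmul m x) hy
  -- the gauge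
  have hgx : gram x = 1 := by
    obtain ⟨a0, a1, a2⟩ := hx
    simp [gram, a0, a1, a2]
  have hback : lmul (g : Mat) (lmul m x) = x := by
    rw [← lmul_mul, hm, ← Units.val_mul, mul_inv_cancel, Units.val_one, lmul_one]
  have hgram : 1 ≤ 6 * s ^ 4 * gram (lmul m x) := by
    have := actbound_gram (g : Mat) hg1 (lmul m x)
    rwa [hback, hgx] at this
  have hpos : 0 < gram (lmul m x) := gram_pos _ hy
  have hinv : (gram (lmul m x))⁻¹ ≤ 6 * s ^ 4 := by
    rw [inv_le_iff_one_le_mul₀ hpos]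
    exact hgram
  have hnorm : ‖lmul m x‖ ≤ s := by
    have h3 := (actbound_M m).le_opNorm x
    have h4 := Sc_bound x hx
    calc ‖lmul m x‖ ≤ ‖actbound_M m‖ * ‖x‖ := h3
      _ ≤ s * 1 := mul_le_mul hM h4 (norm_nonneg _) hs0
      _ = s := mul_one s
  have hsz : sz (lmul m x) ≤ 56 * s ^ 5 := by
    have h5 : 1 + (gram (lmul m x))⁻¹ ≤ 7 * s ^ 4 := by
      have : 1 ≤ s ^ 4 := one_le_pow₀ hs1
      linarith
    have h6 : 4 * (1 + ‖lmul m x‖) ≤ 8 * s := by linarith
    have h7 : 0 ≤ 1 + (gram (lmul m x))⁻¹ := by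
      have := inv_nonneg.mpr hpos.le
      linarith
    unfold sz
    calc 4 * (1 + ‖lmul m x‖) * (1 + (gram (lmul m x))⁻¹)
        ≤ (8 * s) * (7 * s ^ 4) := mul_le_mul h6 h5 h7 (by positivity)
      _ = 56 * s ^ 5 := by ring
  have hsz0 : 0 ≤ sz (lmul m x) := le_trans zero_le_one (sz_ge_one _)
  have hpj : pn j f ≤ pn n f := pn_mono hj f
  have hpj0 : 0 ≤ pn j f := apply_nonneg _ _
  have h8 : ‖iteratedFDeriv ℝ j (f : E → Fv) (lmul m x)‖ ≤
      32 * (56 * s ^ 5) ^ 8 * (2 * (56 * s ^ 5)) ^ j * pn n f := by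
    refine h2.trans ?_
    refine mul_le_mul ?_ hpj hpj0 (by positivity)
    refine mul_le_mul ?_ ?_ (by positivity) (by positivity)
    · exact mul_le_mul_of_nonneg_left (pow_le_pow_left₀ hsz0 hsz 8) (by norm_num)
    · exact pow_le_pow_left₀ (by positivity) (by linarith) j
  rw [e1]
  refine h1.trans ?_
  calc ‖actbound_R m‖ * (‖iteratedFDeriv ℝ j (f : E → Fv) (lmul m x)‖ * ‖actbound_M m‖ ^ j)
      ≤ s * ((32 * (56 * s ^ 5) ^ 8 * (2 * (56 * s ^ 5)) ^ j * pn n f) * s ^ j) := by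
        refine mul_le_mul hR ?_ (by positivity) hs0
        exact mul_le_mul h8 (pow_le_pow_left₀ (norm_nonneg _) hM j) (by positivity)
          (by positivity)
    _ = 32 * 56 ^ 8 * 112 ^ j * s ^ (41 + 6 * j) * pn n f := by
        have : (2 * (56 * s ^ 5)) ^ j = 112 ^ j * (s ^ 5) ^ j := by
          rw [← mul_pow]
          congr 1
          ring
        rw [this]
        ring
    _ ≤ 32 * 56 ^ 8 * 112 ^ n * s ^ (41 + 6 * n) * pn n f := by
        refine mul_le_mul_of_nonneg_right ?_ hp0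
        refine mul_le_mul ?_ ?_ (by positivity) (by positivity)
        · exact mul_le_mul_of_nonneg_left (pow_le_pow_right₀ (by norm_num) hj) (by norm_num)
        · exact pow_le_pow_right₀ hs1 (by omega)

/-- The action by continuous operators. -/
def actL (g : GL (Fin 4) ℝ) : Isp →L[ℂ] Isp :=
  ⟨act g, cont_of_bounds (act g) fun n => by
    obtain ⟨C, N, -, h⟩ := act_bound n
    exact ⟨n, C * gs g ^ N, h g⟩⟩

@[simp] theorem actL_app (g : GL (Fin 4) ℝ) (f : Isp) : actL g f = act g f := rfl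

end SoCo
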