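import Pool.Agent.H.MP_0f3f77_al.ActBound

/-!
The action map is jointly continuous.

Proof.  (1) For fixed `f`, the map `g ↦ act g f` is continuous.  By `tendsto_iff` one has to
show, for every `n`, that `pn n (act g f - act g0 f) → 0` as `g → g0`, i.e. (by `pn_le`) that the
derivatives of order `j ≤ n` of `act g f` converge uniformly on `Sc`.  As in `act_bound`,
`iteratedFDeriv ℝ j (act g f) x = R_m ∘ (iteratedFDeriv ℝ j f (M_m x)) ∘ (M_m, ..., M_m)` with
`m = g⁻¹`, `M_m y = lmul m y`, `R_m v = (∑ k, m k i * v a b k)`; this is a continuous function of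
`(m, x)` on the open set `{(m, x) | lmul m x ∈ Om}` (composition of continuous multilinear maps is
jointly continuous, e.g. `ContinuousMultilinearMap.compContinuousLinearMapL`, or evaluate and use
that multilinear maps on finite-dimensional spaces are determined by finitely many coordinates).
Since `Sc` is compact, continuity in `(m, x)` gives uniform convergence in `x ∈ Sc` as `m → m0`
(`IsCompact`, `ContinuousMap.curry`, or `tendstoUniformlyOn` from
`ContinuousOn.tendstoUniformlyOn`/`IsCompact.uniformContinuousOn...`).  The inverse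
`g ↦ g⁻¹` is continuous on `GL`.
(2) Joint continuity: `act g f - act g0 f0 = act g (f - f0) + (act g f0 - act g0 f0)`;
`pn n (act g (f - f0)) ≤ C (gs g)^N pn n (f - f0)` by `act_bound`, and `gs` is continuous.
-/

open scoped Topology ContDiff
open MeasureTheory

noncomputable section

namespace SoCo

theorem actcont_val (i j : Fin 4) : Continuous fun g : GL (Fin 4) ℝ => (g : Mat) i j :=
  Continuous.matrix_elem Units.continuous_val i j

theorem actcont_inv (i j : Fin 4) :
    Continuous fun g : GL (Fin 4) ℝ => ((g⁻¹ : GL (Fin 4) ℝ) : Mat) i j :=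
  (actcont_val i j).comp continuous_inv

theorem continuous_gs : Continuous gs := by
  unfold gs
  refine (continuous_const.add ?_).add ?_
  · exact continuous_finsetSum _ fun i _ => continuous_finsetSum _ fun j _ =>
      (actcont_val i j).abs
  · exact continuous_finsetSum _ fun i _ => continuous_finsetSum _ fun j _ =>
      (actcont_inv i j).abs

/-- The parameters. -/
abbrev ActContP : Type := (Fin 4 → Fin 4 → ℝ) × E

/-- The pull-back as a function of the matrix and the point. -/
def actcontF (f : E → Fv) (p : ActContP) : Fv := pull (Matrix.of p.1) f p.2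

/-- The open set. -/
def actcontU : Set ActContP := {p | lmul (Matrix.of p.1) p.2 ∈ Om}

theorem actcont_lmul : ContDiff ℝ ∞ fun p : ActContP => lmul (Matrix.of p.1) p.2 := by
  have h : (fun p : ActContP => lmul (Matrix.of p.1) p.2) =
      fun p : ActContP => (fun a i => ∑ j, p.1 i j * p.2 a j : E) := rfl
  rw [h]
  fun_prop

theorem actcont_open : IsOpen actcontU := isOpen_Om.preimage actcont_lmul.continuous

theorem actcont_smooth (f : E → Fv) (h : ContDiffOn ℝ ∞ f Om) :
    ContDiffOn ℝ ∞ (actcontF f) actcontU := by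
  have h2 : ContDiffOn ℝ ∞ (fun p : ActContP => f (lmul (Matrix.of p.1) p.2)) actcontU :=
    h.comp actcont_lmul.contDiffOn fun p hp => hp
  have h3 : ContDiff ℝ ∞ (fun q : (Fin 4 → Fin 4 → ℝ) × Fv =>
      (fun a b i => ∑ k, (q.1 k i : ℂ) * q.2 a b k : Fv)) := by
    have h4 : ∀ k i, ContDiff ℝ ∞ (fun q : (Fin 4 → Fin 4 → ℝ) × Fv => (q.1 k i : ℂ)) := by
      intro k i
      exact Complex.ofRealCLM.contDiff.comp (by fun_prop)
    rw [contDiff_pi]
    intro a
    rw [contDiff_pi]
    intro b
    rw [contDiff_pi]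
    intro i
    exact ContDiff.sum fun k _ => (h4 k i).mul (by fun_prop)
  exact h3.comp_contDiffOn (contDiffOn_fst.prodMk h2)

/-- Iterated derivatives of the composition with an affine map on an open set. -/
theorem actcont_aff {P Q F : Type} [NormedAddCommGroup P] [NormedSpace ℝ P]
    [NormedAddCommGroup Q] [NormedSpace ℝ Q] [NormedAddCommGroup F] [NormedSpace ℝ F]
    (L : Q →L[ℝ] P) (c : P) (G : P → F) (U : Set P) (hU : IsOpen U) (hG : ContDiffOn ℝ ∞ G U)
    (j : ℕ) (y : Q) (hy : L y + c ∈ U) :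
    iteratedFDeriv ℝ j (fun z => G (L z + c)) y =
      (iteratedFDeriv ℝ j G (L y + c)).compContinuousLinearMap fun _ => L := by
  let s : Set P := {q | q + c ∈ U}
  have hs : IsOpen s := hU.preimage (continuous_id.add continuous_const)
  have h5 : L y ∈ s := hy
  have h2 : ContDiffOn ℝ ∞ (fun q => G (q + c)) s :=
    hG.comp (contDiff_id.add contDiff_const).contDiffOn fun q hq => hq
  have hs' : IsOpen (L ⁻¹' s) := hs.preimage L.continuous
  have h6 := L.iteratedFDerivWithin_comp_right h2 hs.uniqueDiffOn hs'.uniqueDiffOn (x := y) h5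
    (i := j) (by exact_mod_cast le_top)
  rw [iteratedFDerivWithin_of_isOpen j hs h5, iteratedFDerivWithin_of_isOpen j hs' h5,
    iteratedFDeriv_comp_add_right] at h6
  exact h6

/-- The partial derivatives of the pull-back in the point. -/
theorem actcont_deriv (f : E → Fv) (h : ContDiffOn ℝ ∞ f Om) (j : ℕ) (p : ActContP)
    (hp : p ∈ actcontU) :
    iteratedFDeriv ℝ j (pull (Matrix.of p.1) f) p.2 =
      (iteratedFDeriv ℝ j (actcontF f) p).compContinuousLinearMap
        fun _ => ContinuousLinearMap.inr ℝ (Fin 4 → Fin 4 → ℝ) E := by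
  have h0 : ∀ x : E, ContinuousLinearMap.inr ℝ (Fin 4 → Fin 4 → ℝ) E x +
      ((p.1, 0) : ActContP) = (p.1, x) := by
    intro x
    rw [ContinuousLinearMap.inr_apply, Prod.mk_add_mk, zero_add, add_zero]
  have h4 := h0 p.2
  rw [Prod.mk.eta] at h4
  have h1 : pull (Matrix.of p.1) f =
      fun x => actcontF f (ContinuousLinearMap.inr ℝ (Fin 4 → Fin 4 → ℝ) E x + (p.1, 0)) := by
    funext x
    rw [h0]
    rfl
  have h6 := actcont_aff (ContinuousLinearMap.inr ℝ (Fin 4 → Fin 4 → ℝ) E) (p.1, 0) (actcontF f)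
    actcontU actcont_open (actcont_smooth f h) j p.2 (by rw [h4]; exact hp)
  rw [h4] at h6
  rw [h1]
  exact h6

/-- The partial derivatives as a function of both variables. -/
def actcontG (f : E → Fv) (j : ℕ) (p : ActContP) : E [×j]→L[ℝ] Fv :=
  iteratedFDeriv ℝ j (pull (Matrix.of p.1) f) p.2

theorem actcont_contG (f : E → Fv) (h : ContDiffOn ℝ ∞ f Om) (j : ℕ) :
    ContinuousOn (actcontG f j) actcontU := by
  have h1 : ContinuousOn (fun p => iteratedFDeriv ℝ j (actcontF f) p) actcontU := by
    have h2 := (actcont_smooth f h).continuousOn_iteratedFDerivWithin (m := j)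
      (by exact_mod_cast le_top) actcont_open.uniqueDiffOn
    exact h2.congr fun x hx => (iteratedFDerivWithin_of_isOpen j actcont_open hx).symm
  have h2 := (map_continuous (ContinuousMultilinearMap.compContinuousLinearMapL (𝕜 := ℝ)
    (F := Fv) (fun _ : Fin j => ContinuousLinearMap.inr ℝ (Fin 4 → Fin 4 → ℝ) E))).comp_continuousOn
    h1
  exact h2.congr fun p hp => actcont_deriv f h j p hp

theorem actcont_unif (f : E → Fv) (h : ContDiffOn ℝ ∞ f Om) (j : ℕ) (m0 : Fin 4 → Fin 4 → ℝ)
    (hm0 : IsUnit (Matrix.of m0).det) {ε : ℝ} (hε : 0 < ε) :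
    ∀ᶠ m in 𝓝 m0, ∀ x ∈ Sc, ‖actcontG f j (m, x) - actcontG f j (m0, x)‖ < ε := by
  refine isCompact_Sc.eventually_forall_of_forall_eventually
    (P := fun m x => ‖actcontG f j (m, x) - actcontG f j (m0, x)‖ < ε) fun y hy => ?_
  have hU : (m0, y) ∈ actcontU := (lmul_mem_Om _ hm0 y).2 (Sc_subset_Om hy)
  have h1 : ContinuousAt (actcontG f j) (m0, y) :=
    (actcont_contG f h j).continuousAt (actcont_open.mem_nhds hU)
  have h2 : ContinuousAt (fun p : ActContP => actcontG f j (m0, p.2)) (m0, y) :=
    ContinuousAt.comp (f := fun p : ActContP => (m0, p.2)) (x := (m0, y)) (g := actcontG f j) h1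
      (by fun_prop)
  have h3 : ContinuousAt (fun p : ActContP => ‖actcontG f j p - actcontG f j (m0, p.2)‖)
      (m0, y) := (h1.sub h2).norm
  have h4 : ‖actcontG f j (m0, y) - actcontG f j (m0, y)‖ < ε := by
    rw [sub_self, norm_zero]; exact hε
  exact h3.eventually (isOpen_Iio.mem_nhds h4)

theorem act_cont_orbit (f : Isp) : Continuous fun g : GL (Fin 4) ℝ => act g f := by
  rw [continuous_iff_continuousAt]
  intro g0
  rw [ContinuousAt, tendsto_iff]
  intro n
  rw [Metric.tendsto_nhds]
  intro ε hε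
  let M : GL (Fin 4) ℝ → (Fin 4 → Fin 4 → ℝ) := fun g i j => ((g⁻¹ : GL (Fin 4) ℝ) : Mat) i j
  have hM : Continuous M := continuous_pi fun i => continuous_pi fun j => actcont_inv i j
  have h1 : ∀ᶠ g in 𝓝 g0, ∀ j ∈ Finset.range (n + 1), ∀ x ∈ Sc,
      ‖actcontG f j (M g, x) - actcontG f j (M g0, x)‖ < ε / 2 := by
    rw [Filter.eventually_all_finset]
    intro j _
    exact hM.continuousAt.eventually
      (actcont_unif f (isI f).smooth j (M g0) (isUnit_det_GL g0⁻¹) (half_pos hε))
  filter_upwards [h1] with g hg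
  have h3 : pn n (act g f - act g0 f) ≤ ε / 2 := by
    refine pn_le _ n _ (half_pos hε).le fun x hx j hj => ?_
    have h4 : iteratedFDeriv ℝ j ((act g f - act g0 f : Isp) : E → Fv) x =
        actcontG f j (M g, x) - actcontG f j (M g0, x) := by
      have h5 : jet j (act g f - act g0 f) = jet j (act g f) - jet j (act g0 f) := map_sub _ _ _
      exact congrArg (fun u : C(Sc, E [×j]→L[ℝ] Fv) => u ⟨x, hx⟩) h5
    rw [h4]
    exact (hg j (Finset.mem_range.mpr (Nat.lt_succ_of_le hj)) x hx).le
  rw [Real.dist_eq, sub_zero, abs_of_nonneg (apply_nonneg _ _)]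
  linarith

theorem act_cont : Continuous fun p : GL (Fin 4) ℝ × Isp => act p.1 p.2 := by
  rw [continuous_iff_continuousAt]
  rintro ⟨g0, f0⟩
  rw [ContinuousAt, tendsto_iff]
  intro n
  obtain ⟨C, N, hC, hCb⟩ := act_bound n
  have h1 : Filter.Tendsto (fun p : GL (Fin 4) ℝ × Isp => pn n (act p.1 f0 - act g0 f0))
      (𝓝 (g0, f0)) (𝓝 0) := by
    have h3 := (tendsto_iff _ _).1 ((act_cont_orbit f0).continuousAt (x := g0)) n
    exact h3.comp continuousAt_fst
  have h2 : Filter.Tendsto (fun p : GL (Fin 4) ℝ × Isp => C * gs p.1 ^ N * pn n (p.2 - f0))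
      (𝓝 (g0, f0)) (𝓝 0) := by
    have h3 : Continuous (fun p : GL (Fin 4) ℝ × Isp => C * gs p.1 ^ N * pn n (p.2 - f0)) :=
      (continuous_const.mul ((continuous_gs.comp continuous_fst).pow N)).mul
        ((continuous_pn n).comp (continuous_snd.sub continuous_const))
    have h4 := h3.tendsto (g0, f0)
    have h5 : C * gs g0 ^ N * pn n (f0 - f0) = 0 := by rw [sub_self, map_zero, mul_zero]
    have h6 : C * gs ((g0, f0) : GL (Fin 4) ℝ × Isp).1 ^ N *
      pn n (((g0, f0) : GL (Fin 4) ℝ × Isp).2 - f0) = 0 := h5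
    rw [h6] at h4
    exact h4
  have h5 := h2.add h1
  rw [add_zero] at h5
  refine squeeze_zero (fun _ => apply_nonneg _ _) (fun p => ?_) h5
  have h6 : act p.1 p.2 - act g0 f0 = act p.1 (p.2 - f0) + (act p.1 f0 - act g0 f0) := by
    rw [map_sub]; abel
  show pn n (act p.1 p.2 - act g0 f0) ≤ _
  rw [h6]
  exact (map_add_le_add _ _ _).trans (add_le_add (hCb _ _) le_rfl)

end SoCo
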