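import Pool.Agent.H.MP_0f3f77_al.DopBound
import Pool.Agent.H.MP_0f3f77_al.ActBound

/-!
Commutation rules.

`act_dop`: for `x ∈ Om` and `m = g⁻¹`, `act g (dop X f) x a b i = ∑ k, m k i *
[-(fderiv f (m x) (lmul X (m x))) a b k - ∑ l, X l k * f (m x) a b l]`, while
`dop Y (act g f) x a b i = -(fderiv (act g f) x (lmul Y x)) a b i - ∑ k, Y k i * act g f x a b k`
with `fderiv (act g f) x h = ∑ k, m k i * (fderiv f (m x) (lmul m h)) a b k`
(chain rule; `act g f = R ∘ f ∘ M` with linear `R, M`); for `Y = g X m` one has `m Y = X m`, so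
`lmul m (lmul Y x) = lmul X (lmul m x)`, and `∑ k, Y k i ∑ l, m l k f_l = ∑ l, (m Y) l i f_l =
∑ l, (X m) l i f_l = ∑ k, m k i ∑ l, X l k f_l`.

`dop_bracket`: on `Om` write `f' = fderiv ℝ f`.  `dop Y f = -f'(x)(Yx) - Y^T f(x)`, where
`(Y^T v) a b i = ∑ k, Y k i * v a b k`.  Differentiating,
`(dop Y f)'(x)(h) = -f''(x)(h)(Yx) - f'(x)(Yh) - Y^T f'(x)(h)`, so
`dop X (dop Y f) x = f''(x)(Xx)(Yx) + f'(x)(YXx) + Y^T f'(x)(Xx) + X^T f'(x)(Yx) + X^T Y^T f(x)`.
Antisymmetrize in `X, Y`: `f''` is symmetric (`ContDiffAt.isSymmSndFDerivAt`), the middle terms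
cancel, and `f'(x)((YX - XY)x) + (X^T Y^T - Y^T X^T) f = -f'(x)([X,Y]x) - [X,Y]^T f`.
-/

open scoped Topology ContDiff
open MeasureTheory

noncomputable section

namespace SoCo

theorem actdop_pull (m : Mat) (f : E → Fv) :
    pull m f = fun x => dopbound_R m (f (dopbound_L m x)) := rfl

theorem actdop_fderiv (m : Mat) (f : Isp) (x : E) (hx : lmul m x ∈ Om) (h : E) :
    fderiv ℝ (pull m (f : E → Fv)) x h =
      dopbound_R m (fderiv ℝ (f : E → Fv) (lmul m x) (lmul m h)) := by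
  have h1 : HasFDerivAt (f : E → Fv) (fderiv ℝ (f : E → Fv) (dopbound_L m x))
      (dopbound_L m x) := (f.diffAt _ hx).hasFDerivAt
  have h2 : HasFDerivAt (fun x => dopbound_L m x) (dopbound_L m) x :=
    (dopbound_L m).hasFDerivAt
  have h3 := ((dopbound_R m).hasFDerivAt (x := f (dopbound_L m x))).comp x (h1.comp x h2)
  have h4 : HasFDerivAt (pull m (f : E → Fv)) ((dopbound_R m).comp
      ((fderiv ℝ (f : E → Fv) (dopbound_L m x)).comp (dopbound_L m))) x := h3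
  rw [h4.fderiv]
  rfl

theorem act_dop (g : GL (Fin 4) ℝ) (X : Mat) (f : Isp) :
    act g (dop X f) = dop ((g : Mat) * X * ((g⁻¹ : GL (Fin 4) ℝ) : Mat)) (act g f) := by
  refine dopbound_ext fun x hx a b i => ?_
  have hmx : lmul ((g⁻¹ : GL (Fin 4) ℝ) : Mat) x ∈ Om :=
    (lmul_mem_Om _ (isUnit_det_GL g⁻¹) x).mpr hx
  have hfd : ∀ h : E, fderiv ℝ (act g f : E → Fv) x h =
      dopbound_R ((g⁻¹ : GL (Fin 4) ℝ) : Mat)
        (fderiv ℝ (f : E → Fv) (lmul ((g⁻¹ : GL (Fin 4) ℝ) : Mat) x)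
          (lmul ((g⁻¹ : GL (Fin 4) ℝ) : Mat) h)) := by
    intro h
    rw [act_coe]
    exact actdop_fderiv _ f x hmx h
  rw [act_app, dop_app _ _ x hx, hfd]
  simp only [act_app, dopbound_R_app, dop_app _ _ _ hmx]
  have hmg : ((g⁻¹ : GL (Fin 4) ℝ) : Mat) * (g : Mat) = 1 := by
    rw [← Units.val_mul, inv_mul_cancel, Units.val_one]
  generalize ((g⁻¹ : GL (Fin 4) ℝ) : Mat) = m at hmx hmg ⊢
  have hY : m * ((g : Mat) * X * m) = X * m := by
    rw [← Matrix.mul_assoc, ← Matrix.mul_assoc, hmg, Matrix.one_mul]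
  generalize (g : Mat) * X * m = Y at hY ⊢
  have e1 : lmul m (lmul Y x) = lmul X (lmul m x) := by rw [← lmul_mul, hY, lmul_mul]
  rw [e1]
  generalize (fderiv ℝ (f : E → Fv) (lmul m x)) (lmul X (lmul m x)) = P
  generalize (f : E → Fv) (lmul m x) = F
  have h1 : ∑ k, (Y k i : ℂ) * ∑ l, (m l k : ℂ) * F a b l =
      ∑ l, ((m * Y) l i : ℂ) * F a b l := by
    simp only [Matrix.mul_apply, Complex.ofReal_sum, Complex.ofReal_mul, Finset.mul_sum,
      Finset.sum_mul]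
    rw [Finset.sum_comm]
    refine Finset.sum_congr rfl fun l _ => Finset.sum_congr rfl fun k _ => ?_
    ring
  have h2 : ∑ l, ((X * m) l i : ℂ) * F a b l =
      ∑ k, (m k i : ℂ) * ∑ l, (X l k : ℂ) * F a b l := by
    simp only [Matrix.mul_apply, Complex.ofReal_sum, Complex.ofReal_mul, Finset.mul_sum,
      Finset.sum_mul]
    rw [Finset.sum_comm]
    refine Finset.sum_congr rfl fun l _ => Finset.sum_congr rfl fun k _ => ?_
    ring
  rw [h1, hY, h2]
  simp only [mul_sub, mul_neg, Finset.sum_sub_distrib, Finset.sum_neg_distrib]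

end SoCo
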