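import Pool.Agent.H.MP_0f3f77_al.DerivBound
import Pool.Agent.H.MP_0f3f77_al.ActBound

/-!
Transitivity of the orthogonal group on `Sc` and admissibility.

`exists_orth`, proof.  The orthonormal pair `x` extends to an orthonormal basis of
`EuclideanSpace ℝ (Fin 4)` (`Orthonormal.exists_orthonormalBasis_extension_of_card_eq`), so there
is an orthogonal matrix `k` with `lmul k e = x`, where `e` is the standard pair
(`k` has columns `x 0, x 1, ...`).
`admissible`, proof.  Let `e ∈ Sc` be the standard pair.  The linear map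
`L ↦ (w ↦ L w e)` from the space of `K`-equivariant maps `W → Isp` to `W →ₗ Fv` is injective: if
`L w e = 0` for all `w`, then for an orthogonal matrix `k` with `lmul k e = x`,
`(L w) x = (L w) (lmul k e)`, and `act k⁻¹ (L w) = L (τ k⁻¹ w)` vanishes at `e`, that is
`∑ l, k l i * (L w) (lmul k e) a b l = 0` for all `i`; since `k` is invertible,
`(L w) x = 0`.  So `L w = 0` on `Sc`, and `L w = 0` by `eq_zero_of_Sc`.
The target is finite-dimensional.
-/

open scoped Topology ContDiff InnerProductSpace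
open MeasureTheory

noncomputable section

namespace SoCo

/-- The standard pair. -/
def e01 : E := ![![1, 0, 0, 0], ![0, 1, 0, 0]]

theorem admis_inner (u v : EuclideanSpace ℝ (Fin 4)) : ⟪u, v⟫_ℝ = ∑ i, u i * v i := by
  rw [PiLp.inner_apply]
  exact Finset.sum_congr rfl fun i _ => by
    rw [real_inner_eq_re_inner]
    simp [mul_comm]

theorem exists_orth (x : E) (hx : x ∈ Sc) : ∃ k : GL (Fin 4) ℝ,
    (k : Mat) * (k : Mat).transpose = 1 ∧ lmul (k : Mat) e01 = x := by
  obtain ⟨h0, h1, h2⟩ := hx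
  let v : Fin 4 → EuclideanSpace ℝ (Fin 4) := fun j => WithLp.toLp 2 (if j = 0 then x 0 else x 1)
  have hv0 : ∀ i, v 0 i = x 0 i := fun i => by simp [v]
  have hv1 : ∀ i, v 1 i = x 1 i := fun i => by simp [v]
  let s : Set (Fin 4) := {0, 1}
  have hv : Orthonormal ℝ (s.domRestrict v) := by
    rw [orthonormal_iff_ite]
    rintro ⟨i, hi⟩ ⟨j, hj⟩
    show ⟪v i, v j⟫_ℝ = _
    rw [admis_inner]
    rcases hi with rfl | hi <;> rcases hj with rfl | hj
    · simp only [hv0]
      rw [h0]; simp
    · rw [Set.mem_singleton_iff] at hj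
      subst hj
      simp only [hv0, hv1]
      rw [h2]; simp
    · rw [Set.mem_singleton_iff] at hi
      subst hi
      simp only [hv0, hv1]
      rw [Finset.sum_congr rfl fun i _ => mul_comm (x 1 i) (x 0 i), h2]; simp
    · rw [Set.mem_singleton_iff] at hi hj
      subst hi; subst hj
      simp only [hv1]
      rw [h1]; simp
  obtain ⟨b, hb⟩ := hv.exists_orthonormalBasis_extension_of_card_eq (by simp)
  have hb0 : b 0 = v 0 := hb 0 (by simp [s])
  have hb1 : b 1 = v 1 := hb 1 (by simp [s])
  let K : Mat := Matrix.of fun i j => b j i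
  have hK : K.transpose * K = 1 := by
    ext i j
    rw [Matrix.mul_apply]
    show ∑ l, b i l * b j l = _
    rw [← admis_inner, orthonormal_iff_ite.mp b.orthonormal, Matrix.one_apply]
  have hK' : K * K.transpose = 1 := mul_eq_one_comm.mp hK
  refine ⟨⟨K, K.transpose, hK', hK⟩, hK', ?_⟩
  funext a i
  show ∑ j, b j i * e01 a j = x a i
  rw [Fin.sum_univ_four]
  fin_cases a
  · show b 0 i * 1 + b 1 i * 0 + b 2 i * 0 + b 3 i * 0 = x 0 i
    rw [hb0, hv0]; ring
  · show b 0 i * 0 + b 1 i * 1 + b 2 i * 0 + b 3 i * 0 = x 1 i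
    rw [hb1, hv1]; ring

theorem value_orth (f : Isp) (h : ∀ k : GL (Fin 4) ℝ, (k : Mat) * (k : Mat).transpose = 1 →
    act k f e01 = 0) : f = 0 := by
  refine eq_zero_of_Sc f fun x hx => ?_
  obtain ⟨k, hk, hkx⟩ := exists_orth x hx
  have hk' : (k : Mat).transpose * (k : Mat) = 1 := mul_eq_one_comm.mp hk
  have hinv : ((k⁻¹ : GL (Fin 4) ℝ) : Mat) = (k : Mat).transpose := by
    have h1 : ((k⁻¹ : GL (Fin 4) ℝ) : Mat) * (k : Mat) = 1 := by
      rw [← Units.val_mul, inv_mul_cancel, Units.val_one]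
    calc ((k⁻¹ : GL (Fin 4) ℝ) : Mat)
        = ((k⁻¹ : GL (Fin 4) ℝ) : Mat) * ((k : Mat) * (k : Mat).transpose) := by
          rw [hk, mul_one]
      _ = (k : Mat).transpose := by rw [← mul_assoc, h1, one_mul]
  have h1 := h k⁻¹ (by rw [hinv, Matrix.transpose_transpose]; exact hk')
  funext a b l
  have h2 : ∀ i, ∑ l, ((k : Mat) l i : ℂ) * f x a b l = 0 := by
    intro i
    have h3 := congrFun (congrFun (congrFun h1 a) b) i
    rw [act_app, inv_inv, hkx] at h3
    exact h3
  have h4 : ∑ i, ((k : Mat) l i : ℂ) * ∑ l', ((k : Mat) l' i : ℂ) * f x a b l' = 0 :=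
    Finset.sum_eq_zero fun i _ => by rw [h2, mul_zero]
  have h5 : ∀ l', ∑ i, ((k : Mat) l i : ℂ) * ((k : Mat) l' i : ℂ) = if l = l' then 1 else 0 := by
    intro l'
    have h6 := congrFun (congrFun hk l) l'
    rw [Matrix.mul_apply, Matrix.one_apply] at h6
    simp only [Matrix.transpose_apply] at h6
    have h7 := congrArg (fun r : ℝ => (r : ℂ)) h6
    push_cast at h7
    rw [h7]
    split_ifs <;> simp
  have h6 : f x a b l = 0 := by
    calc f x a b l = ∑ l', (if l = l' then 1 else 0) * f x a b l' := by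
          simp
      _ = ∑ l', (∑ i, ((k : Mat) l i : ℂ) * ((k : Mat) l' i : ℂ)) * f x a b l' :=
          Finset.sum_congr rfl fun l' _ => by rw [h5]
      _ = ∑ i, ((k : Mat) l i : ℂ) * ∑ l', ((k : Mat) l' i : ℂ) * f x a b l' := by
          simp only [Finset.sum_mul, Finset.mul_sum]
          rw [Finset.sum_comm]
          exact Finset.sum_congr rfl fun i _ => Finset.sum_congr rfl fun l' _ => by ring
      _ = 0 := h4
  exact h6

end SoCo
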