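import Pool.Agent.H.MP_0f3f77_al.Defs

/-!
The concrete induced representation `Isp` of `GL_4(R)`: basic definitions.
-/

open scoped Topology ContDiff
open MeasureTheory

noncomputable section

namespace SoCo

/-- Pairs of vectors in `R^4`. -/
abbrev E : Type := Fin 2 → Fin 4 → ℝ

/-- The space of values. -/
abbrev Fv : Type := Fin 2 → Fin 2 → Fin 4 → ℂ

abbrev Mat : Type := Matrix (Fin 4) (Fin 4) ℝ

abbrev Mat2 : Type := Matrix (Fin 2) (Fin 2) ℝ

/-- The Gram determinant of the two vectors. -/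
def gram (x : E) : ℝ :=
  (∑ i, x 0 i * x 0 i) * (∑ i, x 1 i * x 1 i) - (∑ i, x 0 i * x 1 i) ^ 2

/-- The set of linearly independent pairs. -/
def Om : Set E := {x | gram x ≠ 0}

/-- The set of orthonormal pairs. -/
def Sc : Set E :=
  {x | (∑ i, x 0 i * x 0 i) = 1 ∧ (∑ i, x 1 i * x 1 i) = 1 ∧ (∑ i, x 0 i * x 1 i) = 0}

/-- Right multiplication: the `a`-th vector of `rmul x A` is `∑ c, A c a * x c`. -/
def rmul (x : E) (A : Mat2) : E := fun a i => ∑ c, A c a * x c i

/-- Left multiplication of both vectors by a matrix. -/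
def lmul (m : Mat) (x : E) : E := fun a i => ∑ j, m i j * x a j

/-- The action of `GL_2` on the values. -/
def rho (A : Mat2) (v : Fv) : Fv :=
  fun a b i => (((A.det)⁻¹ ^ 3 : ℝ) : ℂ) * ∑ c, ∑ d, (A c a : ℂ) * (A d b : ℂ) * v c d i

/-- The conditions defining the elements of the induced representation. -/
structure IsI (f : E → Fv) : Prop where
  smooth : ContDiffOn ℝ ∞ f Om
  zero_off : ∀ x, x ∉ Om → f x = 0
  symm : ∀ x a b i, f x a b i = f x b a i
  ann : ∀ x a b c, ∑ i, f x a b i * (x c i : ℂ) = 0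
  cov : ∀ x (A : Mat2), A.det ≠ 0 → f (rmul x A) = rho A (f x)

theorem rho_add (A : Mat2) (v w : Fv) : rho A (v + w) = rho A v + rho A w := by
  funext a b i
  simp only [rho, Pi.add_apply, mul_add, Finset.sum_add_distrib]

theorem rho_smul (A : Mat2) (c : ℂ) (v : Fv) : rho A (c • v) = c • rho A v := by
  funext a b i
  simp only [rho, Pi.smul_apply, smul_eq_mul, Finset.mul_sum]
  refine Finset.sum_congr rfl fun c' _ => Finset.sum_congr rfl fun d _ => ?_
  ring

/-- The submodule of all functions with the above properties. -/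
def IspSub : Submodule ℂ (E → Fv) where
  carrier := {f | IsI f}
  add_mem' := by
    intro f g hf hg
    refine ⟨hf.smooth.add hg.smooth, ?_, ?_, ?_, ?_⟩
    · intro x hx
      simp [hf.zero_off x hx, hg.zero_off x hx]
    · intro x a b i
      simp only [Pi.add_apply]
      rw [hf.symm, hg.symm]
    · intro x a b c
      have h1 := hf.ann x a b c
      have h2 := hg.ann x a b c
      simp only [Pi.add_apply, add_mul, Finset.sum_add_distrib, h1, h2, add_zero]
    · intro x A hA
      simp only [Pi.add_apply]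
      rw [hf.cov x A hA, hg.cov x A hA, rho_add]
  zero_mem' := by
    refine ⟨contDiffOn_const, ?_, ?_, ?_, ?_⟩
    · intro x _; rfl
    · intro x a b i; rfl
    · intro x a b c; simp
    · intro x A _
      funext a b i
      simp [rho]
  smul_mem' := by
    intro c f hf
    refine ⟨contDiffOn_const.smul hf.smooth, ?_, ?_, ?_, ?_⟩
    · intro x hx
      simp [hf.zero_off x hx]
    · intro x a b i
      simp only [Pi.smul_apply]
      rw [hf.symm]
    · intro x a b c'
      have h1 := hf.ann x a b c'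
      simp only [Pi.smul_apply, smul_eq_mul, mul_assoc, ← Finset.mul_sum, h1, mul_zero]
    · intro x A hA
      simp only [Pi.smul_apply]
      rw [hf.cov x A hA, rho_smul]

/-- The space of the induced representation. -/
def Isp : Type := ↥IspSub

instance : AddCommGroup Isp := inferInstanceAs (AddCommGroup ↥IspSub)
instance : Module ℂ Isp := inferInstanceAs (Module ℂ ↥IspSub)

instance : CoeFun Isp (fun _ => E → Fv) := ⟨fun f => f.1⟩

namespace Isp

@[ext] theorem ext {f g : Isp} (h : ∀ x a b i, f x a b i = g x a b i) : f = g := by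
  apply Subtype.ext
  funext x a b i
  exact h x a b i

@[simp] theorem add_app (f g : Isp) (x : E) : (f + g) x = f x + g x := rfl
@[simp] theorem sub_app (f g : Isp) (x : E) : (f - g) x = f x - g x := rfl
@[simp] theorem neg_app (f : Isp) (x : E) : (-f) x = -f x := rfl
@[simp] theorem zero_app (x : E) : (0 : Isp) x = 0 := rfl
@[simp] theorem smul_app (c : ℂ) (f : Isp) (x : E) : (c • f) x = c • f x := rfl

theorem coe_add (f g : Isp) : ((f + g : Isp) : E → Fv) = (f : E → Fv) + g := rfl
theorem coe_sub (f g : Isp) : ((f - g : Isp) : E → Fv) = (f : E → Fv) - g := rfl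
theorem coe_smul (c : ℂ) (f : Isp) : ((c • f : Isp) : E → Fv) = c • (f : E → Fv) := rfl

@[simp] theorem sum_app {ι : Type} (s : Finset ι) (f : ι → Isp) (x : E) :
    (∑ i ∈ s, f i) x = ∑ i ∈ s, f i x := by
  classical
  induction s using Finset.induction_on with
  | empty => simp
  | insert a s ha ih => rw [Finset.sum_insert ha, Finset.sum_insert ha, add_app, ih]

end Isp

theorem isI (f : Isp) : IsI (f : E → Fv) := f.2

/-- An element of `Isp` from a function with the properties. -/
def mkI (f : E → Fv) (h : IsI f) : Isp := ⟨f, h⟩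

@[simp] theorem mkI_app (f : E → Fv) (h : IsI f) (x : E) : mkI f h x = f x := rfl

theorem gram_cont : Continuous gram := by
  unfold gram
  fun_prop

theorem isOpen_Om : IsOpen Om := isOpen_ne_fun gram_cont continuous_const

theorem isClosed_Sc : IsClosed Sc := by
  have h : Sc = {x : E | (∑ i, x 0 i * x 0 i) = 1} ∩ ({x : E | (∑ i, x 1 i * x 1 i) = 1} ∩
      {x : E | (∑ i, x 0 i * x 1 i) = 0}) := rfl
  rw [h]
  refine (isClosed_eq ?_ ?_).inter ((isClosed_eq ?_ ?_).inter (isClosed_eq ?_ ?_)) <;> fun_prop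

theorem Sc_subset_Om : Sc ⊆ Om := by
  rintro x ⟨h0, h1, h2⟩
  simp [Om, gram, h0, h1, h2]

theorem Sc_bound (x : E) (hx : x ∈ Sc) : ‖x‖ ≤ 1 := by
  rw [pi_norm_le_iff_of_nonneg zero_le_one]
  intro a
  rw [pi_norm_le_iff_of_nonneg zero_le_one]
  intro i
  obtain ⟨h0, h1, -⟩ := hx
  have key : ∀ v : Fin 4 → ℝ, ∑ i, v i * v i = 1 → ∀ i, ‖v i‖ ≤ 1 := by
    intro v hv i
    have h3 : v i * v i ≤ 1 := by
      rw [← hv]
      exact Finset.single_le_sum (f := fun i => v i * v i)
        (fun i _ => mul_self_nonneg _) (Finset.mem_univ i)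
    rw [Real.norm_eq_abs]
    exact abs_le_one_iff_mul_self_le_one.mpr h3
  fin_cases a
  · exact key _ h0 i
  · exact key _ h1 i

theorem isCompact_Sc : IsCompact Sc := by
  refine Metric.isCompact_of_isClosed_isBounded isClosed_Sc ?_
  refine (Metric.isBounded_closedBall (x := (0 : E)) (r := 1)).subset ?_
  intro x hx
  rw [mem_closedBall_zero_iff]
  exact Sc_bound x hx

instance : CompactSpace Sc := isCompact_iff_compactSpace.mp isCompact_Sc

theorem Isp.contDiffAt (f : Isp) (x : E) (hx : x ∈ Om) : ContDiffAt ℝ ∞ f x :=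
  (isI f).smooth.contDiffAt (isOpen_Om.mem_nhds hx)

/-- The `j`-th derivative is continuous on `Om`. -/
theorem Isp.contOn_deriv (f : Isp) (j : ℕ) :
    ContinuousOn (fun x => iteratedFDeriv ℝ j (f : E → Fv) x) Om := by
  have h := (isI f).smooth.continuousOn_iteratedFDerivWithin (m := j)
    (by exact_mod_cast le_top) isOpen_Om.uniqueDiffOn
  exact h.congr fun x hx => (iteratedFDerivWithin_of_isOpen j isOpen_Om hx).symm

/-- The restriction of the `j`-th derivative to `Sc`. -/
def jet (j : ℕ) : Isp →ₗ[ℂ] C(Sc, E [×j]→L[ℝ] Fv) where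
  toFun f := ⟨fun x => iteratedFDeriv ℝ j (f : E → Fv) x,
    continuousOn_iff_continuous_domRestrict.mp ((f.contOn_deriv j).mono Sc_subset_Om)⟩
  map_add' f g := by
    ext1 x
    have hx : (x : E) ∈ Om := Sc_subset_Om x.2
    exact fun_iteratedFDeriv_add_apply ((f.contDiffAt x hx).of_le (by exact_mod_cast le_top))
      ((g.contDiffAt x hx).of_le (by exact_mod_cast le_top))
  map_smul' c f := by
    ext1 x
    have hx : (x : E) ∈ Om := Sc_subset_Om x.2
    exact iteratedFDeriv_const_smul_apply (𝕜 := ℝ) (a := c)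
      ((f.contDiffAt x hx).of_le (by exact_mod_cast le_top))

/-- The Banach space of `n`-jets along `Sc`. -/
abbrev Bn (n : ℕ) : Type := (j : Fin (n + 1)) → C(Sc, E [×(j : ℕ)]→L[ℝ] Fv)

instance instCompleteBn (n : ℕ) : CompleteSpace (Bn n) := by
  have : ∀ j : Fin (n + 1), CompleteSpace C(Sc, E [×(j : ℕ)]→L[ℝ] Fv) := fun j => inferInstance
  exact Pi.complete _

/-- The map to the Banach space of `n`-jets. -/
def iota (n : ℕ) : Isp →ₗ[ℂ] Bn n := LinearMap.pi fun j => jet (j : ℕ)

/-- The seminorms defining the topology. -/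
def pn (n : ℕ) : Seminorm ℂ Isp := (normSeminorm ℂ (Bn n)).comp (iota n)

/-- The topology of `Isp`. -/
instance : TopologicalSpace Isp := (SeminormFamily.moduleFilterBasis pn).topology

theorem withSeminorms_pn : WithSeminorms (pn : SeminormFamily ℂ Isp ℕ) :=
  ⟨rfl⟩

instance : IsTopologicalAddGroup Isp := withSeminorms_pn.topologicalAddGroup

instance : ContinuousSMul ℂ Isp := withSeminorms_pn.continuousSMul

instance : FirstCountableTopology Isp := withSeminorms_pn.firstCountableTopology

theorem pn_eq (n : ℕ) (f : Isp) : pn n f = ‖iota n f‖ := rfl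

theorem norm_deriv_le (f : Isp) {j n : ℕ} (hj : j ≤ n) (x : E) (hx : x ∈ Sc) :
    ‖iteratedFDeriv ℝ j (f : E → Fv) x‖ ≤ pn n f := by
  have h1 : ‖jet j f‖ ≤ ‖iota n f‖ :=
    norm_le_pi_norm (iota n f) (⟨j, Nat.lt_succ_of_le hj⟩ : Fin (n + 1))
  exact (ContinuousMap.norm_coe_le_norm (jet j f) ⟨x, hx⟩).trans h1

theorem pn_le (f : Isp) (n : ℕ) (C : ℝ) (hC : 0 ≤ C)
    (h : ∀ x ∈ Sc, ∀ j ≤ n, ‖iteratedFDeriv ℝ j (f : E → Fv) x‖ ≤ C) : pn n f ≤ C := by
  rw [pn_eq, pi_norm_le_iff_of_nonneg hC]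
  intro j
  rw [ContinuousMap.norm_le _ hC]
  intro x
  exact h x x.2 j (Nat.lt_succ_iff.mp j.2)

theorem pn_mono {m n : ℕ} (h : m ≤ n) (f : Isp) : pn m f ≤ pn n f := by
  refine pn_le f m _ (apply_nonneg _ _) ?_
  intro x hx j hj
  exact norm_deriv_le f (hj.trans h) x hx

end SoCo
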