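import Pool.Agent.H.MP_0f3f77_al.DopBound

/-!
Commutation rules.

`act_dop`: for `x ∈ Om` and `m = g⁻¹`, `act g (dop X f) x a b i = ∑ k, m k i *
[-(fderiv f (m x) (lmul X (m x))) a b k - ∑ l, X l k * f (m x) a b l]`, while
`dop Y (act g f) x a b i = -(fderiv (act g f) x (lmul Y x)) a b i - ∑ k, Y k i * act g f x a b k`
with `fderiv (act g f) x h = ∑ k, m k i * (fderiv f (m x) (lmul m h)) a b k`
(chain rule; `act g f = R ∘ f ∘ M` with linear `R, M`); for `Y = g X m` one has `m Y = X m`, so
`lmul m (lmul Y x) = lmul X (lmul m x)`, and `∑ k, Y k i ∑ l, m l k f_l = ∑ l, (m Y) l i f_l =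
∑ l, (X m) l i f_l = ∑ k, m k i ∑ l, X l k f_l`.

`dop_bracket`: on `Om` write `f' = fderiv ℝ f`.  `dop Y f = -f'(x)(Yx) - Y^T f(x)`, where
`(Y^T v) a b i = ∑ k, Y k i * v a b k`.  Differentiating,
`(dop Y f)'(x)(h) = -f''(x)(h)(Yx) - f'(x)(Yh) - Y^T f'(x)(h)`, so
`dop X (dop Y f) x = f''(x)(Xx)(Yx) + f'(x)(YXx) + Y^T f'(x)(Xx) + X^T f'(x)(Yx) + X^T Y^T f(x)`.
Antisymmetrize in `X, Y`: `f''` is symmetric (`ContDiffAt.isSymmSndFDerivAt`), the middle terms
cancel, and `f'(x)((YX - XY)x) + (X^T Y^T - Y^T X^T) f = -f'(x)([X,Y]x) - [X,Y]^T f`.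
-/

open scoped Topology ContDiff
open MeasureTheory

noncomputable section

namespace SoCo

/-- Left multiplication as a continuous linear map. -/
def bracket_L (Y : Mat) : E →L[ℝ] E := LinearMap.toContinuousLinearMap
  { toFun := lmul Y
    map_add' := fun x y => by
      funext a i
      simp only [lmul, Pi.add_apply, mul_add, Finset.sum_add_distrib]
    map_smul' := fun c x => by
      funext a i
      simp only [lmul, Pi.smul_apply, smul_eq_mul, Finset.mul_sum, RingHom.id_apply]
      refine Finset.sum_congr rfl fun j _ => ?_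
      ring }

@[simp] theorem bracket_L_app (Y : Mat) (x : E) : bracket_L Y x = lmul Y x := rfl

/-- The action of the transpose on the values, as a continuous linear map. -/
def bracket_V (Y : Mat) : Fv →L[ℝ] Fv := LinearMap.toContinuousLinearMap
  { toFun := fun v a b i => ∑ k, (Y k i : ℂ) * v a b k
    map_add' := fun x y => by
      funext a b i
      simp only [Pi.add_apply, mul_add, Finset.sum_add_distrib]
    map_smul' := fun c x => by
      funext a b i
      simp only [Pi.smul_apply, Complex.real_smul, Finset.mul_sum, RingHom.id_apply]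
      refine Finset.sum_congr rfl fun j _ => ?_
      ring }

theorem bracket_V_app (Y : Mat) (v : Fv) (a b : Fin 2) (i : Fin 4) :
    bracket_V Y v a b i = ∑ k, (Y k i : ℂ) * v a b k := rfl

theorem bracket_V_mul (X Y : Mat) (v : Fv) :
    bracket_V (X * Y) v = bracket_V Y (bracket_V X v) := by
  funext a b i
  simp only [bracket_V_app, Matrix.mul_apply, Complex.ofReal_sum, Complex.ofReal_mul,
    Finset.mul_sum, Finset.sum_mul]
  rw [Finset.sum_comm]
  refine Finset.sum_congr rfl fun j _ => Finset.sum_congr rfl fun k _ => ?_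
  ring

theorem bracket_V_sub (X Y : Mat) (v : Fv) :
    bracket_V (X - Y) v = bracket_V X v - bracket_V Y v := by
  funext a b i
  simp only [bracket_V_app, Matrix.sub_apply, Complex.ofReal_sub, Pi.sub_apply, sub_mul,
    Finset.sum_sub_distrib]

theorem bracket_lmul_sub (X Y : Mat) (x : E) : lmul (X - Y) x = lmul X x - lmul Y x := by
  funext a i
  simp only [lmul, Matrix.sub_apply, Pi.sub_apply, sub_mul, Finset.sum_sub_distrib]

/-- The Lie algebra action as an identity of vectors. -/
theorem bracket_dop (Y : Mat) (f : Isp) (x : E) (hx : x ∈ Om) :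
    dop Y f x = -(fderiv ℝ (f : E → Fv) x (lmul Y x)) - bracket_V Y (f x) := by
  funext a b i
  rw [dop_app Y f x hx]
  rfl

/-- The derivative of `dop Y f`. -/
theorem bracket_fderiv (Y : Mat) (f : Isp) (x : E) (hx : x ∈ Om) (h : E) :
    fderiv ℝ (dop Y f : E → Fv) x h =
      -(fderiv ℝ (fderiv ℝ (f : E → Fv)) x h (lmul Y x) +
        fderiv ℝ (f : E → Fv) x (lmul Y h)) - bracket_V Y (fderiv ℝ (f : E → Fv) x h) := by
  have hf := f.contDiffAt x hx
  have h1 : HasFDerivAt (fderiv ℝ (f : E → Fv)) (fderiv ℝ (fderiv ℝ (f : E → Fv)) x) x := by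
    have h2 : ContDiffAt ℝ 1 (fderiv ℝ (f : E → Fv)) x :=
      hf.fderiv_right (m := 1) (WithTop.coe_le_coe.2 (le_top : (1 + 1 : ℕ∞) ≤ ⊤))
    exact (h2.differentiableAt (by simp)).hasFDerivAt
  have h2 : HasFDerivAt (fun y => bracket_L Y y) (bracket_L Y) x := (bracket_L Y).hasFDerivAt
  have h3 := h1.clm_apply h2
  have h4 : HasFDerivAt (fun y => bracket_V Y ((f : E → Fv) y))
      ((bracket_V Y).comp (fderiv ℝ (f : E → Fv) x)) x :=
    (bracket_V Y).hasFDerivAt.comp x (f.diffAt x hx).hasFDerivAt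
  have h5 := h3.neg.sub h4
  have h6 : (dop Y f : E → Fv) =ᶠ[𝓝 x]
      fun y => -((fderiv ℝ (f : E → Fv) y) (bracket_L Y y)) - bracket_V Y ((f : E → Fv) y) := by
    filter_upwards [isOpen_Om.mem_nhds hx] with y hy
    exact bracket_dop Y f y hy
  have h7 := h5.congr_of_eventuallyEq h6
  rw [h7.fderiv]
  simp only [ContinuousLinearMap.sub_apply, ContinuousLinearMap.neg_apply,
    ContinuousLinearMap.add_apply, ContinuousLinearMap.comp_apply,
    ContinuousLinearMap.flip_apply, bracket_L_app]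
  rw [add_comm]

/-- Two applications of the Lie algebra action. -/
theorem bracket_dop_dop (X Y : Mat) (f : Isp) (x : E) (hx : x ∈ Om) :
    dop X (dop Y f) x = fderiv ℝ (fderiv ℝ (f : E → Fv)) x (lmul X x) (lmul Y x) +
      fderiv ℝ (f : E → Fv) x (lmul Y (lmul X x)) +
      bracket_V Y (fderiv ℝ (f : E → Fv) x (lmul X x)) +
      bracket_V X (fderiv ℝ (f : E → Fv) x (lmul Y x)) + bracket_V X (bracket_V Y (f x)) := by
  rw [bracket_dop X (dop Y f) x hx, bracket_fderiv Y f x hx, bracket_dop Y f x hx, map_sub, map_neg]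
  abel

theorem dop_bracket (X Y : Mat) (f : Isp) :
    dop X (dop Y f) = dop Y (dop X f) + dop (X * Y - Y * X) f := by
  apply Subtype.ext
  funext x
  show dop X (dop Y f) x = (dop Y (dop X f) + dop (X * Y - Y * X) f) x
  rw [Isp.add_app]
  by_cases hx : x ∈ Om
  · have hsymm : fderiv ℝ (fderiv ℝ (f : E → Fv)) x (lmul X x) (lmul Y x) =
        fderiv ℝ (fderiv ℝ (f : E → Fv)) x (lmul Y x) (lmul X x) := by
      have h1 : IsSymmSndFDerivAt ℝ (f : E → Fv) x :=
        (f.contDiffAt x hx).isSymmSndFDerivAt (by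
          rw [minSmoothness_of_isRCLikeNormedField]
          exact WithTop.coe_le_coe.2 (le_top : (2 : ℕ∞) ≤ ⊤))
      exact h1 _ _
    rw [bracket_dop_dop X Y f x hx, bracket_dop_dop Y X f x hx, bracket_dop _ f x hx, hsymm,
      bracket_lmul_sub, bracket_V_sub, bracket_V_mul, bracket_V_mul, lmul_mul, lmul_mul, map_sub]
    abel
  · rw [(isI (dop X (dop Y f))).zero_off x hx, (isI (dop Y (dop X f))).zero_off x hx,
      (isI (dop (X * Y - Y * X) f)).zero_off x hx, add_zero]

end SoCo
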