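import Pool.Agent.H.MP_0f3f77_al.SEta

/-!
`Gt ν b f` is congruent to `(2π)^3 b(ξ0) f` modulo the span of all `α v - ψ(α) v`.

Proof of `gt_cong`.  Let `ξ0 = (0, 0, ν)`.  Let `E τ u = e^{i (1-τ) ν u_3}`,
`D u = u_1 D03 + u_2 D13 + u_3 D23`.  Put
`Y_k = isum (over (τ, u) ∈ [0,1] × R3) (u_k E τ u • act (un (τ • u)) (Jt ν b f u))`, `k = 1, 2, 3`
(measure `(volume.restrict (Set.Icc 0 1)).prod volume` on `ℝ × R3`; continuity of the integrand by
`act_cont, cont_un, Jt_cont`; integrability as in `ig_Gt`).  `Y_k ∈ W` by `isum_mem`.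
By `isum_map` for the continuous operators `D03`, `D13`, `D23 - iν`, the right side
`D03 Y_1 + D13 Y_2 + (D23 Y_3 - iν Y_3)` is the integral of
`E τ u • (D u - iν u_3) (act (un (τ • u)) (Jt ν b f u))`, whose value at `x, a, b, i` is the
`τ`-derivative of `E τ u * (act (un (τ • u)) (Jt ν b f u)) x a b i` (`opg_point` for
`opg_un u`; `act (un (τ u))` commutes with `D u` by `act_dop`).  So (`isum_app`, Fubini,
fundamental theorem of calculus) the value of the right side at `x, a, b, i` is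
`∫_u (act (un u) (Jt ν b f u)) x a b i - ∫_u e^{iν u_3} (Jt ν b f u) x a b i`.
The first integral is `Gt ν b f x a b i`; the second one is `(2π)^3 b(ξ0) f x a b i` by `four3`
applied to `φ η = b η * sact ν η f x a b i` (continuous with compact support; its transform
`u ↦ Jt ν b f u x a b i` is integrable by `Jt_decay` with `M = 4` and `value_bound`),
because `sact ν ξ0 f = f`.
-/

open scoped Topology ContDiff
open MeasureTheory

noncomputable section

namespace SoCo

theorem bump_mem (ν : ℝ) (hν : ν ≠ 0) : ((0, 0, ν) : R3) ∈ UU ν := by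
  change 0 < ν / ν
  rw [div_self hν]
  exact one_pos

theorem sact_xi (ν : ℝ) (hν : ν ≠ 0) (f : Isp) : sact ν (0, 0, ν) f = f := by
  rw [sact_eq (bump_mem ν hν)]
  have h1 : sG ν (UU_ne (bump_mem ν hν)).1 (0, 0, ν) (UU_ne (bump_mem ν hν)).2 = 1 := by
    apply Units.ext
    change sMi ν (0, 0, ν) = 1
    ext i j
    fin_cases i <;> fin_cases j <;> simp [sMi, hν]
  rw [h1, act_one]

theorem bump_open (ν : ℝ) : IsOpen (UU ν) := by
  have h : Continuous fun η : R3 => η.2.2 / ν := by fun_prop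
  exact isOpen_lt continuous_const h

/-- A test function with value 1 at `ξ0`. -/
theorem exists_bump (ν : ℝ) (hν : ν ≠ 0) : ∃ b : R3 → ℂ, CB ν b ∧ b (0, 0, ν) = 1 := by
  obtain ⟨f, h1, h2, h3, -, h5⟩ := exists_contDiff_tsupport_subset (n := (⊤ : ℕ∞))
    ((bump_open ν).mem_nhds (bump_mem ν hν))
  refine ⟨fun η => (f η : ℂ), ⟨?_, ?_, ?_⟩, ?_⟩
  · exact Complex.ofRealCLM.contDiff.comp h3
  · exact h2.comp_left Complex.ofReal_zero
  · exact (tsupport_comp_subset Complex.ofReal_zero f).trans h1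
  · change ((f (0, 0, ν) : ℝ) : ℂ) = 1
    rw [h5, Complex.ofReal_one]

end SoCo
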