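import Pool.Agent.H.MP_0f3f77_al.TopI

/-!
`Isp` is complete (sequentially; it is first countable).

Proof.  Let `u` be a Cauchy sequence for all seminorms.  By `deriv_bound` (applied to
`u k - u l`), for every `j` the functions `iteratedFDeriv ℝ j (u k)` are uniformly Cauchy on every
compact subset of `Om` (on such a set `sz` is bounded, being continuous on `Om`), hence converge
locally uniformly on `Om` to functions `g j : E → E [×j]→L[ℝ] Fv`.
Let `F x = lim u k x` (for `x ∉ Om` the value is `0`).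
By `hasFDerivAt_of_tendstoLocallyUniformlyOn` (on the open set `Om`), applied to
`iteratedFDeriv ℝ j (u k)`, whose derivative is `iteratedFDeriv ℝ (j + 1) (u k)` curried
(`hasFTaylorSeriesUpToOn` of a smooth function on an open set), the sequence `g` is a Taylor
series of `F` on `Om` up to order `∞`: `HasFTaylorSeriesUpToOn ∞ F (fun x j => g j x) Om`, so `F`
is smooth on `Om` and `iteratedFDeriv ℝ j F x = g j x` on `Om`
(`HasFTaylorSeriesUpToOn.eq_iteratedFDerivWithin_of_uniqueDiffOn`, `iteratedFDerivWithin_of_isOpen`).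
The algebraic conditions `zero_off, symm, ann, cov` pass to the pointwise limit.  So `F` defines
`f : Isp`, and `pn n (u k - f) → 0` because the derivatives up to order `n` converge uniformly on
the compact set `Sc`.
(Alternative for the smoothness: induction on `j` with `fderiv`.)
-/

open scoped Topology ContDiff
open MeasureTheory

noncomputable section

namespace SoCo

theorem complete_sz_cont : ContinuousOn sz Om := by
  have h1 : ContinuousOn (fun x : E => (gram x)⁻¹) Om :=
    gram_cont.continuousOn.inv₀ (fun x hx => hx)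
  unfold sz
  fun_prop

theorem complete_jet_sub (f g : Isp) (j : ℕ) {x : E} (hx : x ∈ Om) :
    iteratedFDeriv ℝ j ((f - g : Isp) : E → Fv) x =
      iteratedFDeriv ℝ j (f : E → Fv) x - iteratedFDeriv ℝ j (g : E → Fv) x :=
  iteratedFDeriv_sub_apply ((f.contDiffAt x hx).of_le (by exact_mod_cast le_top))
    ((g.contDiffAt x hx).of_le (by exact_mod_cast le_top))

theorem complete_unif (u : ℕ → Isp)
    (h : ∀ n, ∀ ε : ℝ, 0 < ε → ∃ N, ∀ k l, N ≤ k → N ≤ l → pn n (u k - u l) < ε)
    (j : ℕ) (M : ℝ) {ε : ℝ} (hε : 0 < ε) :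
    ∃ N, ∀ k l, N ≤ k → N ≤ l → ∀ x ∈ Om, sz x ≤ M →
      ‖iteratedFDeriv ℝ j (u k : E → Fv) x - iteratedFDeriv ℝ j (u l : E → Fv) x‖ < ε := by
  set C : ℝ := 32 * |M| ^ 8 * (2 * |M|) ^ j + 1 with hC
  have hC0 : 0 < C := by positivity
  obtain ⟨N, hN⟩ := h j (ε / C) (by positivity)
  refine ⟨N, fun k l hk hl x hx hM => ?_⟩
  rw [← complete_jet_sub (u k) (u l) j hx]
  have h1 := sz_ge_one x
  have h2 : sz x ≤ |M| := hM.trans (le_abs_self M)
  have h0 : 0 ≤ pn j (u k - u l) := apply_nonneg _ _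
  have h3 : 32 * (sz x) ^ 8 * (2 * sz x) ^ j ≤ 32 * |M| ^ 8 * (2 * |M|) ^ j := by
    gcongr
  calc ‖iteratedFDeriv ℝ j ((u k - u l : Isp) : E → Fv) x‖
      ≤ 32 * (sz x) ^ 8 * (2 * sz x) ^ j * pn j (u k - u l) := deriv_bound _ _ _ hx
    _ ≤ C * pn j (u k - u l) := by
        refine mul_le_mul_of_nonneg_right ?_ h0
        linarith
    _ < C * (ε / C) := mul_lt_mul_of_pos_left (hN k l hk hl) hC0
    _ = ε := by field_simp

theorem complete_lim (u : ℕ → Isp)
    (h : ∀ n, ∀ ε : ℝ, 0 < ε → ∃ N, ∀ k l, N ≤ k → N ≤ l → pn n (u k - u l) < ε)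
    (j : ℕ) (x : E) (hx : x ∈ Om) :
    ∃ L, Filter.Tendsto (fun k => iteratedFDeriv ℝ j (u k : E → Fv) x) Filter.atTop (𝓝 L) := by
  refine cauchySeq_tendsto_of_complete (Metric.cauchySeq_iff.mpr ?_)
  intro ε hε
  obtain ⟨N, hN⟩ := complete_unif u h j (sz x) hε
  exact ⟨N, fun m hm n hn => by rw [dist_eq_norm]; exact hN m n hm hn x hx le_rfl⟩

theorem complete_hasFDerivAt (f : Isp) (m : ℕ) (x : E) (hx : x ∈ Om) :
    HasFDerivAt (iteratedFDeriv ℝ m (f : E → Fv))
      ((iteratedFDeriv ℝ (m + 1) (f : E → Fv) x).curryLeft) x := by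
  have hd : DifferentiableAt ℝ (iteratedFDeriv ℝ m (f : E → Fv)) x :=
    (ContDiffAt.iteratedFDeriv_right (m := 1) (i := m) (f.contDiffAt x hx)
      (by exact_mod_cast le_top)).differentiableAt (by norm_num)
  have h1 := hd.hasFDerivAt
  rw [fderiv_iteratedFDeriv] at h1
  exact h1

theorem complete_tlu (u : ℕ → Isp)
    (h : ∀ n, ∀ ε : ℝ, 0 < ε → ∃ N, ∀ k l, N ≤ k → N ≤ l → pn n (u k - u l) < ε)
    (j : ℕ) (g : E → E [×j]→L[ℝ] Fv)
    (hg : ∀ x ∈ Om, Filter.Tendsto (fun k => iteratedFDeriv ℝ j (u k : E → Fv) x)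
      Filter.atTop (𝓝 (g x))) :
    TendstoLocallyUniformlyOn (fun k => iteratedFDeriv ℝ j (u k : E → Fv)) g Filter.atTop Om := by
  rw [Metric.tendstoLocallyUniformlyOn_iff]
  intro ε hε x hx
  obtain ⟨N, hN⟩ := complete_unif u h j (sz x + 1) (half_pos hε)
  have hcont : ContinuousWithinAt sz Om x := complete_sz_cont x hx
  have hmem : sz ⁻¹' Set.Iio (sz x + 1) ∈ 𝓝[Om] x :=
    hcont (Iio_mem_nhds (by linarith))
  refine ⟨_, Filter.inter_mem hmem self_mem_nhdsWithin, ?_⟩
  filter_upwards [Filter.eventually_ge_atTop N] with k hk y hy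
  have hyOm : y ∈ Om := hy.2
  have hysz : sz y ≤ sz x + 1 := le_of_lt hy.1
  have h1 : Filter.Tendsto (fun l => dist (iteratedFDeriv ℝ j (u l : E → Fv) y)
      (iteratedFDeriv ℝ j (u k : E → Fv) y)) Filter.atTop
      (𝓝 (dist (g y) (iteratedFDeriv ℝ j (u k : E → Fv) y))) :=
    (hg y hyOm).dist tendsto_const_nhds
  have h2 : dist (g y) (iteratedFDeriv ℝ j (u k : E → Fv) y) ≤ ε / 2 := by
    refine le_of_tendsto h1 ?_
    filter_upwards [Filter.eventually_ge_atTop N] with l hl
    rw [dist_eq_norm]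
    exact (hN l k hl hk y hyOm hysz).le
  linarith

theorem complete_Isp (u : ℕ → Isp)
    (h : ∀ n, ∀ ε : ℝ, 0 < ε → ∃ N, ∀ k l, N ≤ k → N ≤ l → pn n (u k - u l) < ε) :
    ∃ f : Isp, ∀ n, Filter.Tendsto (fun k => pn n (u k - f)) Filter.atTop (𝓝 0) := by
  classical
  have hex : ∀ (x : E) (j : ℕ), ∃ L, x ∈ Om →
      Filter.Tendsto (fun k => iteratedFDeriv ℝ j (u k : E → Fv) x) Filter.atTop (𝓝 L) := by
    intro x j
    by_cases hx : x ∈ Om
    · obtain ⟨L, hL⟩ := complete_lim u h j x hx
      exact ⟨L, fun _ => hL⟩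
    · exact ⟨0, fun hx' => absurd hx' hx⟩
  choose p hp using hex
  let F : E → Fv := fun x => if x ∈ Om then (p x 0).curry0 else 0
  have hF : ∀ x, Filter.Tendsto (fun k => u k x) Filter.atTop (𝓝 (F x)) := by
    intro x
    by_cases hx : x ∈ Om
    · have h1 := hp x 0 hx
      have h2 := ((continuousMultilinearCurryFin0 ℝ E Fv).continuous.tendsto (p x 0)).comp h1
      have h3 : F x = continuousMultilinearCurryFin0 ℝ E Fv (p x 0) := by
        simp only [F, if_pos hx]
        rfl
      rw [h3]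
      exact h2
    · have h3 : F x = 0 := by simp only [F, if_neg hx]
      rw [h3]
      have h4 : (fun k => u k x) = fun _ => 0 := by
        funext k
        exact (isI (u k)).zero_off x hx
      rw [h4]
      exact tendsto_const_nhds
  have hFc : ∀ x a b i, Filter.Tendsto (fun k => u k x a b i) Filter.atTop (𝓝 (F x a b i)) :=
    fun x a b i => tendsto_pi_nhds.mp (tendsto_pi_nhds.mp (tendsto_pi_nhds.mp (hF x) a) b) i
  have htl : ∀ j, TendstoLocallyUniformlyOn (fun k => iteratedFDeriv ℝ j (u k : E → Fv))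
      (fun x => p x j) Filter.atTop Om :=
    fun j => complete_tlu u h j (fun x => p x j) (fun x hx => hp x j hx)
  have hT : HasFTaylorSeriesUpToOn (∞ : WithTop ℕ∞) F p Om := by
    refine ⟨?_, ?_, ?_⟩
    · intro x hx
      simp only [F, if_pos hx]
    · intro m _ x hx
      refine HasFDerivAt.hasFDerivWithinAt ?_
      have h1 : TendstoLocallyUniformlyOn
          (fun k x => (iteratedFDeriv ℝ (m + 1) (u k : E → Fv) x).curryLeft)
          (fun x => (p x (m + 1)).curryLeft) Filter.atTop Om := by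
        have h2 := (continuousMultilinearCurryLeftEquiv ℝ
          (fun _ : Fin (m + 1) => E) Fv).isometry.uniformContinuous.comp_tendstoLocallyUniformlyOn
          (htl (m + 1))
        exact h2
      exact hasFDerivAt_of_tendstoLocallyUniformlyOn isOpen_Om h1
        (fun k y hy => complete_hasFDerivAt (u k) m y hy) (fun y hy => hp y m hy) hx
    · intro m _
      exact (htl m).continuousOn (Filter.Frequently.of_forall fun k => (u k).contOn_deriv m)
  have hI : IsI F := by
    refine ⟨hT.contDiffOn, ?_, ?_, ?_, ?_⟩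
    · intro x hx
      simp only [F, if_neg hx]
    · intro x a b i
      refine tendsto_nhds_unique (hFc x a b i) ?_
      refine (hFc x b a i).congr fun k => ?_
      exact ((isI (u k)).symm x a b i).symm
    · intro x a b c
      have h1 : Filter.Tendsto (fun k => ∑ i, u k x a b i * (x c i : ℂ)) Filter.atTop
          (𝓝 (∑ i, F x a b i * (x c i : ℂ))) :=
        tendsto_finsetSum _ fun i _ => (hFc x a b i).mul_const _
      refine tendsto_nhds_unique h1 ?_
      have h2 : (fun k => ∑ i, u k x a b i * (x c i : ℂ)) = fun _ => 0 := by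
        funext k
        exact (isI (u k)).ann x a b c
      rw [h2]
      exact tendsto_const_nhds
    · intro x A hA
      funext a b i
      refine tendsto_nhds_unique (hFc (rmul x A) a b i) ?_
      have h2 : (fun k => u k (rmul x A) a b i) = fun k => rho A (u k x) a b i := by
        funext k
        rw [(isI (u k)).cov x A hA]
      rw [h2]
      unfold rho
      refine Filter.Tendsto.const_mul _ (tendsto_finsetSum _ fun c _ =>
        tendsto_finsetSum _ fun d _ => Filter.Tendsto.const_mul _ (hFc x c d i))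
  refine ⟨mkI F hI, fun n => ?_⟩
  have hder : ∀ j, ∀ x ∈ Om, p x j = iteratedFDeriv ℝ j F x := by
    intro j x hx
    rw [hT.eq_iteratedFDerivWithin_of_uniqueDiffOn (by exact_mod_cast le_top)
      isOpen_Om.uniqueDiffOn hx]
    exact iteratedFDerivWithin_of_isOpen j isOpen_Om hx
  rw [Metric.tendsto_atTop]
  intro ε hε
  obtain ⟨N, hN⟩ := h n (ε / 2) (half_pos hε)
  refine ⟨N, fun k hk => ?_⟩
  rw [dist_zero_right, Real.norm_of_nonneg (apply_nonneg _ _)]
  refine lt_of_le_of_lt (pn_le _ n (ε / 2) (half_pos hε).le ?_) (half_lt_self hε)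
  intro x hxS j hj
  have hx : x ∈ Om := Sc_subset_Om hxS
  rw [complete_jet_sub (u k) (mkI F hI) j hx]
  have h1 : Filter.Tendsto (fun l => ‖iteratedFDeriv ℝ j (u k : E → Fv) x -
      iteratedFDeriv ℝ j (u l : E → Fv) x‖) Filter.atTop
      (𝓝 ‖iteratedFDeriv ℝ j (u k : E → Fv) x - p x j‖) :=
    (tendsto_const_nhds.sub (hp x j hx)).norm
  rw [hder j x hx] at h1
  refine le_of_tendsto h1 ?_
  filter_upwards [Filter.eventually_ge_atTop N] with l hl
  rw [← complete_jet_sub (u k) (u l) j hx]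
  exact (norm_deriv_le _ hj x hxS).trans (hN k l hk hl).le

end SoCo
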