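import Pool.Agent.H.MP_0f3f77_al.Opg

/-!
One-parameter groups.

`opg_point`, proof.  Let `m t = (γ t)⁻¹` (matrix), `m' = -m γ' m = -m (γ X) m = -(X * m)`
(derivative of the inverse: from `γ t * m t = 1`, or `HasDerivAt.ringInverse`/`hasFDerivAt_ringInverse`,
or use `m t = γ (-t)` together with `γ (-t) * X = X * γ (-t)`).
For `x ∈ Om`, `act (γ t) f x a b i = ∑ k, (m t) k i * f (lmul (m t) x) a b k`; by the product rule
and the chain rule its derivative is
`-∑ k, (X * m) k i * f (m x) a b k - ∑ k, m k i * (fderiv f (m x) (lmul X (lmul m x))) a b k`,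
and this is `act (γ t) (dop X f) x a b i` (`dop_app` at `lmul m x ∈ Om`, because
`∑ k, m k i * ∑ l, X l k * f_l = ∑ l, (X * m) l i * f_l`).
For `x ∉ Om` everything is `0`.

`opg_top`, proof.  Put `c s = act (γ s) (dop X f)`, a continuous function of `s`
(`act_cont_orbit`, `h.cont`).  For `t > 0`, `act (γ t) f - f = isum (volume.restrict (Set.Ioc 0 t)) c`
(evaluate at every `x`: `isum_app`, `opg_point` and the fundamental theorem of calculus
`intervalIntegral.integral_eq_sub_of_hasDerivAt`).  Hence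
`t⁻¹ • (act (γ t) f - f) - dop X f = isum (volume.restrict (Set.Ioc 0 t)) (t⁻¹ • (c s - c 0))`,
so by `pn_isum_le` its `pn n` is at most `sup_{0 < s ≤ t} pn n (c s - c 0) → 0`.
Same for `t < 0` with `Set.Ioc t 0` (or apply the case `t > 0` to the group `γ (-t)` and `-X`).

`opg_clm`: `T (act (γ (t + s)) f) - T (act (γ t) f) = (T ∘ act (γ t)) (act (γ s) f - f)` and
`opg_top`.
-/

open scoped Topology ContDiff
open MeasureTheory

noncomputable section

namespace SoCo

set_option backward.isDefEq.respectTransparency false in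
theorem opgexp_deriv (X : Mat) (t : ℝ) (i j : Fin 4) :
    HasDerivAt (fun t : ℝ => (NormedSpace.exp (t • X) : Mat) i j)
      ((NormedSpace.exp (t • X) * X : Mat) i j) t := by
  have h : HasDerivAt (fun u : ℝ => (NormedSpace.exp (u • X) : Mat))
      (NormedSpace.exp (t • X) * X) t :=
    open scoped Matrix.Norms.Operator in hasDerivAt_exp_smul_const X t
  have h1 := (hasDerivAt_pi.1 h) i
  exact (hasDerivAt_pi.1 h1) j

set_option backward.isDefEq.respectTransparency false in
theorem opgexp_cont (X : Mat) : Continuous (fun t : ℝ => (NormedSpace.exp (t • X) : Mat)) := by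
  refine continuous_pi fun i => continuous_pi fun j => ?_
  rw [continuous_iff_continuousAt]
  exact fun t => (opgexp_deriv X t i j).continuousAt

theorem opgexp_add (X : Mat) (s t : ℝ) : (NormedSpace.exp ((s + t) • X) : Mat) =
    NormedSpace.exp (s • X) * NormedSpace.exp (t • X) := by
  rw [add_smul]
  exact Matrix.exp_add_of_commute _ _ (((Commute.refl X).smul_left s).smul_right t)

/-- The one-parameter group of a matrix. -/
theorem opg_of_exp (X : Mat) (γ : ℝ → GL (Fin 4) ℝ)
    (h : ∀ t, ((γ t : GL (Fin 4) ℝ) : Mat) = NormedSpace.exp (t • X)) : Opg γ X := by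
  have hadd : ∀ s t, γ (s + t) = γ s * γ t := by
    intro s t
    apply Units.ext
    rw [Units.val_mul, h, h, h, opgexp_add]
  have h0 : γ 0 = 1 := by
    have := hadd 0 0
    rw [add_zero] at this
    exact mul_left_cancel (a := γ 0) (by rw [mul_one]; exact this.symm)
  have hinv : ∀ t, (γ t)⁻¹ = γ (-t) := by
    intro t
    rw [inv_eq_iff_mul_eq_one, ← hadd, add_neg_cancel, h0]
  refine ⟨?_, hadd, ?_⟩
  · rw [Units.continuous_iff]
    constructor
    · show Continuous fun t => ((γ t : GL (Fin 4) ℝ) : Mat)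
      simp only [h]
      exact opgexp_cont X
    · show Continuous fun t => (((γ t)⁻¹ : GL (Fin 4) ℝ) : Mat)
      simp only [hinv, h]
      exact (opgexp_cont X).comp continuous_neg
  · intro t i j
    simp only [h]
    exact opgexp_deriv X t i j

theorem exists_opg (X : Mat) : ∃ γ : ℝ → GL (Fin 4) ℝ, Opg γ X ∧
    ∀ t, ((γ t : GL (Fin 4) ℝ) : Mat) = NormedSpace.exp (t • X) := by
  obtain ⟨γ, hγ⟩ : ∃ γ : ℝ → GL (Fin 4) ℝ,
      ∀ t, ((γ t : GL (Fin 4) ℝ) : Mat) = NormedSpace.exp (t • X) :=
    ⟨fun t => (Matrix.isUnit_exp (t • X)).unit, fun t => rfl⟩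
  exact ⟨γ, opg_of_exp X γ hγ, hγ⟩

end SoCo
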