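import Pool.Agent.H.MP_0f3f77_al.Isum

/-!
Rules for the integral `isum`.

`isum_clm`, proof.  By `bound_of_cont`, `‖T f‖ ≤ C * pn m f`.  The function `T ∘ Φ` is
continuous and its norm is dominated by `C * pn m (Φ u)`, so it is integrable.
Let `R` be the range of `iota m`, a subspace of the Banach space `Bn m`, and define
`T' : R → Y` by `T' (iota m f) = T f` (well defined because `iota m f = 0` gives `pn m f = 0`,
so `T f = 0`); it is bounded by `C`.  Extend it to a continuous linear map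
`T'' : closure R → Y` (`LinearMap.extendOfNorm`/`ContinuousLinearMap.extend`), or
simply argue by duality: for a continuous functional `y'` on `Y`, `y' ∘ T'` extends to a
continuous functional `L` on `Bn m` by Hahn-Banach (`exists_extension_norm_eq`), and
`y' (T (isum μ Φ)) = L (iota m (isum μ Φ)) = L (∫ iota m (Φ u)) = ∫ L (iota m (Φ u)) =
∫ y' (T (Φ u)) = y' (∫ T (Φ u))`; functionals separate points
(`NormedSpace.eq_iff_forall_dual_eq` or similar).
`isum_map`: apply `isum_clm` to `iota n ∘ T`, and `iota_inj`.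
`isum_app`: `isum_clm` for `evL x a b i`.
`pn_isum_le`: `norm_integral_le_integral_norm`.
-/

open scoped Topology ContDiff
open MeasureTheory

noncomputable section

namespace SoCo

variable {P : Type} [TopologicalSpace P] [SecondCountableTopology P] [MeasurableSpace P]
  [BorelSpace P]

/-- A functional bounded by `‖J f‖` factors through `J`. -/
theorem isumapi_factor {Z : Type} [NormedAddCommGroup Z] [NormedSpace ℂ Z] (J : Isp →ₗ[ℂ] Z)
    (T : Isp →ₗ[ℂ] ℂ) (C : ℝ) (h : ∀ f, ‖T f‖ ≤ C * ‖J f‖) :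
    ∃ L : Z →L[ℂ] ℂ, ∀ f, L (J f) = T f := by
  have hker : ∀ f g : Isp, J f = J g → T f = T g := by
    intro f g hfg
    have h1 := h (f - g)
    rw [map_sub, map_sub, hfg, sub_self, norm_zero, mul_zero] at h1
    exact sub_eq_zero.1 (norm_le_zero_iff.1 h1)
  have hex : ∀ y : LinearMap.range J, ∃ f : Isp, J f = (y : Z) := fun y => y.2
  choose s hs using hex
  let g : LinearMap.range J →ₗ[ℂ] ℂ :=
    { toFun := fun y => T (s y)
      map_add' := fun y y' => by
        rw [← map_add]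
        apply hker
        rw [map_add, hs, hs, hs]
        rfl
      map_smul' := fun c y => by
        rw [RingHom.id_apply, ← map_smul]
        apply hker
        rw [map_smul, hs, hs]
        rfl }
  have hg : ∀ y : LinearMap.range J, ‖g y‖ ≤ C * ‖y‖ := by
    intro y
    have h1 := h (s y)
    rw [hs] at h1
    exact h1
  obtain ⟨L, hL, _⟩ := exists_extension_norm_eq (LinearMap.range J) (g.mkContinuous C hg)
  refine ⟨L, fun f => ?_⟩
  have h1 := hL ⟨J f, f, rfl⟩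
  have h2 : (g.mkContinuous C hg) ⟨J f, f, rfl⟩ = T (s ⟨J f, f, rfl⟩) := rfl
  rw [h2] at h1
  rw [h1]
  exact hker _ _ (hs _)

theorem Ig.clm_int {Y : Type} [NormedAddCommGroup Y] [NormedSpace ℂ Y] {μ : Measure P}
    {Φ : P → Isp} (h : Ig μ Φ) (T : Isp →L[ℂ] Y) : Integrable (fun u => T (Φ u)) μ := by
  obtain ⟨m, C, _, hC⟩ := bound_of_cont T
  refine Integrable.mono' ((h.int m).const_mul C) ?_ (Filter.Eventually.of_forall fun u => hC _)
  exact (T.continuous.comp h.cont).aestronglyMeasurable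

theorem isumapi_dual {Z : Type} [NormedAddCommGroup Z] [NormedSpace ℂ Z] [CompleteSpace Z]
    {μ : Measure P} {Φ : P → Isp} (h : Ig μ Φ) (J : Isp →L[ℂ] Z) (T : Isp →L[ℂ] ℂ) (C : ℝ)
    (hC : ∀ f, ‖T f‖ ≤ C * ‖J f‖) (F : Isp) (hF : J F = ∫ u, J (Φ u) ∂μ) :
    T F = ∫ u, T (Φ u) ∂μ := by
  obtain ⟨L, hL⟩ := isumapi_factor (J : Isp →ₗ[ℂ] Z) (T : Isp →ₗ[ℂ] ℂ) C hC
  have hL' : ∀ f, L (J f) = T f := hL
  calc T F = L (J F) := (hL' F).symm
    _ = L (∫ u, J (Φ u) ∂μ) := by rw [hF]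
    _ = ∫ u, L (J (Φ u)) ∂μ := (ContinuousLinearMap.integral_comp_comm L (h.clm_int J)).symm
    _ = ∫ u, T (Φ u) ∂μ := by
        congr 1
        funext u
        exact hL' _

theorem isumapi_add {Z : Type} [NormedAddCommGroup Z] [NormedSpace ℂ Z]
    {μ : Measure P} {Φ Ψ : P → Isp} (h : Ig μ Φ) (h' : Ig μ Ψ) (J : Isp →L[ℂ] Z) :
    ∫ u, J (Φ u + Ψ u) ∂μ = ∫ u, J (Φ u) ∂μ + ∫ u, J (Ψ u) ∂μ := by
  rw [← integral_add (h.clm_int J) (h'.clm_int J)]
  congr 1
  funext u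
  exact map_add J _ _

theorem isumapi_smul {Z : Type} [NormedAddCommGroup Z] [NormedSpace ℂ Z]
    {μ : Measure P} {Φ : P → Isp} (c : ℂ) (J : Isp →L[ℂ] Z) :
    ∫ u, J (c • Φ u) ∂μ = c • ∫ u, J (Φ u) ∂μ := by
  rw [← integral_smul]
  congr 1
  funext u
  exact map_smul J _ _

theorem isum_clm {Y : Type} [NormedAddCommGroup Y] [NormedSpace ℂ Y] [CompleteSpace Y]
    {μ : Measure P} {Φ : P → Isp} (h : Ig μ Φ) (T : Isp →L[ℂ] Y) :
    T (isum μ Φ) = ∫ u, T (Φ u) ∂μ := by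
  have hint := h.clm_int T
  rw [SeparatingDual.eq_iff_forall_dual_eq (R := ℂ)]
  intro ψ
  obtain ⟨m, C, _, hC⟩ := bound_of_cont (ψ.comp T)
  have h1 := isumapi_dual (Z := Bn m) h ⟨iota m, continuous_iota m⟩ (ψ.comp T) C hC (isum μ Φ)
    (iota_isum μ Φ h m)
  calc ψ (T (isum μ Φ)) = ∫ u, ψ (T (Φ u)) ∂μ := h1
    _ = ψ (∫ u, T (Φ u) ∂μ) := ContinuousLinearMap.integral_comp_comm ψ hint

theorem Ig.map {μ : Measure P} {Φ : P → Isp} (h : Ig μ Φ) (T : Isp →L[ℂ] Isp) :
    Ig μ (fun u => T (Φ u)) := by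
  refine ⟨T.continuous.comp h.cont, fun n => ?_⟩
  obtain ⟨m, C, _, hC⟩ := bounds_of_cont T n
  refine Integrable.mono' ((h.int m).const_mul C) ?_ (Filter.Eventually.of_forall fun u => ?_)
  · exact ((continuous_pn n).comp (T.continuous.comp h.cont)).aestronglyMeasurable
  · rw [Real.norm_eq_abs, abs_of_nonneg (apply_nonneg _ _)]
    exact hC _

theorem isum_map {μ : Measure P} {Φ : P → Isp} (h : Ig μ Φ) (T : Isp →L[ℂ] Isp) :
    T (isum μ Φ) = isum μ (fun u => T (Φ u)) := by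
  apply iota_inj
  intro n
  rw [iota_isum μ _ (h.map T)]
  have hc : Continuous ((iota n).comp (T : Isp →ₗ[ℂ] Isp)) :=
    (continuous_iota n).comp T.continuous
  exact isum_clm (Y := Bn n) h ⟨(iota n).comp (T : Isp →ₗ[ℂ] Isp), hc⟩

theorem isum_app {μ : Measure P} {Φ : P → Isp} (h : Ig μ Φ) (x : E) (a b : Fin 2) (i : Fin 4) :
    isum μ Φ x a b i = ∫ u, Φ u x a b i ∂μ :=
  isum_clm h (evL x a b i)

theorem Ig.app_int {μ : Measure P} {Φ : P → Isp} (h : Ig μ Φ) (x : E) (a b : Fin 2)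
    (i : Fin 4) : Integrable (fun u => Φ u x a b i) μ :=
  h.clm_int (evL x a b i)

theorem pn_isum_le {μ : Measure P} {Φ : P → Isp} (h : Ig μ Φ) (n : ℕ) :
    pn n (isum μ Φ) ≤ ∫ u, pn n (Φ u) ∂μ := by
  rw [pn_eq, iota_isum μ Φ h]
  exact norm_integral_le_integral_norm _

theorem Ig.add {μ : Measure P} {Φ Ψ : P → Isp} (h : Ig μ Φ) (h' : Ig μ Ψ) :
    Ig μ (fun u => Φ u + Ψ u) := by
  refine ⟨h.cont.add h'.cont, fun n => ?_⟩
  refine Integrable.mono' ((h.int n).add (h'.int n)) ?_ (Filter.Eventually.of_forall fun u => ?_)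
  · exact ((continuous_pn n).comp (h.cont.add h'.cont)).aestronglyMeasurable
  · rw [Real.norm_eq_abs, abs_of_nonneg (apply_nonneg _ _)]
    exact map_add_le_add (pn n) _ _

theorem Ig.smul {μ : Measure P} {Φ : P → Isp} (h : Ig μ Φ) (c : ℂ) :
    Ig μ (fun u => c • Φ u) := by
  refine ⟨h.cont.const_smul c, fun n => ?_⟩
  have h1 : (fun u => pn n (c • Φ u)) = fun u => ‖c‖ * pn n (Φ u) := by
    funext u
    exact map_smul_eq_mul (pn n) c (Φ u)
  rw [h1]
  exact (h.int n).const_mul _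

theorem isum_add {μ : Measure P} {Φ Ψ : P → Isp} (h : Ig μ Φ) (h' : Ig μ Ψ) :
    isum μ (fun u => Φ u + Ψ u) = isum μ Φ + isum μ Ψ := by
  apply iota_inj
  intro n
  rw [iota_isum μ _ (h.add h'), map_add, iota_isum μ _ h, iota_isum μ _ h']
  exact isumapi_add (Z := Bn n) h h' ⟨iota n, continuous_iota n⟩

theorem isum_smul {μ : Measure P} {Φ : P → Isp} (h : Ig μ Φ) (c : ℂ) :
    isum μ (fun u => c • Φ u) = c • isum μ Φ := by
  apply iota_inj
  intro n
  rw [iota_isum μ _ (h.smul c), map_smul, iota_isum μ _ h]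
  exact isumapi_smul (P := P) (μ := μ) (Φ := Φ) (Z := Bn n) c ⟨iota n, continuous_iota n⟩

end SoCo
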