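import Pool.Agent.H.MP_0f3f77_al.OpgPoint
import Pool.Agent.H.MP_0f3f77_al.IsumApi

/-!
One-parameter groups.

`opg_point`, proof.  Let `m t = (γ t)⁻¹` (matrix), `m' = -m γ' m = -m (γ X) m = -(X * m)`
(derivative of the inverse: from `γ t * m t = 1`, or `HasDerivAt.ringInverse`/`hasFDerivAt_ringInverse`,
or use `m t = γ (-t)` together with `γ (-t) * X = X * γ (-t)`).
For `x ∈ Om`, `act (γ t) f x a b i = ∑ k, (m t) k i * f (lmul (m t) x) a b k`; by the product rule
and the chain rule its derivative is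
`-∑ k, (X * m) k i * f (m x) a b k - ∑ k, m k i * (fderiv f (m x) (lmul X (lmul m x))) a b k`,
and this is `act (γ t) (dop X f) x a b i` (`dop_app` at `lmul m x ∈ Om`, because
`∑ k, m k i * ∑ l, X l k * f_l = ∑ l, (X * m) l i * f_l`).
For `x ∉ Om` everything is `0`.

`opg_top`, proof.  Put `c s = act (γ s) (dop X f)`, a continuous function of `s`
(`act_cont_orbit`, `h.cont`).  For `t > 0`, `act (γ t) f - f = isum (volume.restrict (Set.Ioc 0 t)) c`
(evaluate at every `x`: `isum_app`, `opg_point` and the fundamental theorem of calculus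
`intervalIntegral.integral_eq_sub_of_hasDerivAt`).  Hence
`t⁻¹ • (act (γ t) f - f) - dop X f = isum (volume.restrict (Set.Ioc 0 t)) (t⁻¹ • (c s - c 0))`,
so by `pn_isum_le` its `pn n` is at most `sup_{0 < s ≤ t} pn n (c s - c 0) → 0`.
Same for `t < 0` with `Set.Ioc t 0` (or apply the case `t > 0` to the group `γ (-t)` and `-X`).

`opg_clm`: `T (act (γ (t + s)) f) - T (act (γ t) f) = (T ∘ act (γ t)) (act (γ s) f - f)` and
`opg_top`.
-/

open scoped Topology ContDiff
open MeasureTheory

noncomputable section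

namespace SoCo

theorem opgtop_cont {γ : ℝ → GL (Fin 4) ℝ} {X : Mat} (h : Opg γ X) (g : Isp) :
    Continuous fun s => act (γ s) g :=
  (act_cont_orbit g).comp h.cont

theorem opgtop_ig (c : ℝ → Isp) (hc : Continuous c) (a b : ℝ) :
    Ig (volume.restrict (Set.Ioc a b)) c := by
  refine ⟨hc, fun n => ?_⟩
  have h1 : Continuous fun u => pn n (c u) := (continuous_pn n).comp hc
  exact h1.integrableOn_Ioc

theorem opgtop_ineq {γ : ℝ → GL (Fin 4) ℝ} {X : Mat} (h : Opg γ X) (f w : Isp) {a b : ℝ}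
    (hab : a ≤ b) (n : ℕ) {ε : ℝ}
    (hε : ∀ s, a ≤ s → s ≤ b → pn n (act (γ s) (dop X f) - w) ≤ ε) :
    pn n (act (γ b) f - act (γ a) f - ((b - a : ℝ) : ℂ) • w) ≤ (b - a) * ε := by
  have hc : Continuous fun s => act (γ s) (dop X f) - w :=
    (opgtop_cont h (dop X f)).sub continuous_const
  have hI := opgtop_ig _ hc a b
  have key : act (γ b) f - act (γ a) f - ((b - a : ℝ) : ℂ) • w =
      isum (volume.restrict (Set.Ioc a b)) (fun s => act (γ s) (dop X f) - w) := by
    ext x p q i
    rw [isum_app hI x p q i, ← intervalIntegral.integral_of_le hab]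
    have hd : ∀ s : ℝ, HasDerivAt (fun s : ℝ => act (γ s) f x p q i - (s : ℂ) * w x p q i)
        ((act (γ s) (dop X f) - w) x p q i) s := by
      intro s
      have h1 := opg_point h f x p q i s
      have h2 : HasDerivAt (fun s : ℝ => (s : ℂ) * w x p q i) (1 * w x p q i) s :=
        (HasDerivAt.ofReal_comp (hasDerivAt_id s)).mul_const (w x p q i)
      have h3 := h1.sub h2
      rw [one_mul] at h3
      exact h3
    have hcont : Continuous fun s => (act (γ s) (dop X f) - w) x p q i :=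
      (evL x p q i).continuous.comp hc
    rw [intervalIntegral.integral_eq_sub_of_hasDerivAt (fun s _ => hd s)
      (hcont.intervalIntegrable a b)]
    simp only [Isp.sub_app, Isp.smul_app, Pi.sub_apply, Pi.smul_apply, smul_eq_mul,
      Complex.ofReal_sub]
    ring
  rw [key]
  refine (pn_isum_le hI n).trans ?_
  have h1 : ∫ u, pn n (act (γ u) (dop X f) - w) ∂(volume.restrict (Set.Ioc a b)) ≤
      ∫ _, ε ∂(volume.restrict (Set.Ioc a b)) := by
    refine setIntegral_mono_on (hI.int n) (integrableOn_const (by simp)) measurableSet_Ioc ?_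
    intro s hs
    exact hε s hs.1.le hs.2
  refine h1.trans (le_of_eq ?_)
  rw [integral_const, smul_eq_mul]
  congr 1
  rw [measureReal_restrict_apply_univ, Real.volume_real_Ioc_of_le hab]

theorem opg_top {γ : ℝ → GL (Fin 4) ℝ} {X : Mat} (h : Opg γ X) (f : Isp) :
    DerZero (fun t => act (γ t) f) (dop X f) := by
  unfold DerZero
  rw [tendsto_iff]
  intro n
  rw [Metric.tendsto_nhdsWithin_nhds]
  intro ε hε
  have hc : Continuous fun s => pn n (act (γ s) (dop X f) - dop X f) :=
    (continuous_pn n).comp ((opgtop_cont h (dop X f)).sub continuous_const)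
  have h0 : pn n (act (γ 0) (dop X f) - dop X f) = 0 := by
    rw [h.zero, act_one, sub_self, map_zero]
  obtain ⟨δ, hδ, hδ2⟩ := Metric.continuous_iff.1 hc 0 (ε / 2) (by linarith)
  refine ⟨δ, hδ, ?_⟩
  intro t ht htd
  have ht0 : t ≠ 0 := ht
  have htc : (t : ℂ) ≠ 0 := by exact_mod_cast ht0
  have htd' : |t| < δ := by simpa [Real.dist_eq] using htd
  have hb : ∀ s, |s| ≤ |t| → pn n (act (γ s) (dop X f) - dop X f) ≤ ε / 2 := by
    intro s hs
    have h1 := hδ2 s (by rw [Real.dist_eq, sub_zero]; exact lt_of_le_of_lt hs htd')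
    rw [h0, Real.dist_eq, sub_zero] at h1
    exact (le_abs_self _).trans h1.le
  have hmain : pn n (act (γ t) f - act (γ 0) f - ((t : ℝ) : ℂ) • dop X f) ≤ |t| * (ε / 2) := by
    rcases lt_or_gt_of_ne ht0 with htn | htp
    · have h1 := opgtop_ineq h f (dop X f) htn.le n (ε := ε / 2) (by
        intro s hs1 hs2
        apply hb
        rw [abs_of_nonpos hs2, abs_of_neg htn]
        linarith)
      have h2 : act (γ 0) f - act (γ t) f - ((0 - t : ℝ) : ℂ) • dop X f =
          -(act (γ t) f - act (γ 0) f - ((t : ℝ) : ℂ) • dop X f) := by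
        rw [zero_sub, Complex.ofReal_neg, neg_smul]
        abel
      rw [h2, map_neg_eq_map] at h1
      rw [abs_of_neg htn]
      linarith
    · have h1 := opgtop_ineq h f (dop X f) htp.le n (ε := ε / 2) (by
        intro s hs1 hs2
        apply hb
        rw [abs_of_nonneg hs1, abs_of_pos htp]
        exact hs2)
      rw [sub_zero] at h1
      rw [abs_of_pos htp]
      exact h1
  have heq : ((t⁻¹ : ℝ) : ℂ) • (act (γ t) f - act (γ 0) f) - dop X f =
      ((t⁻¹ : ℝ) : ℂ) • (act (γ t) f - act (γ 0) f - ((t : ℝ) : ℂ) • dop X f) := by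
    rw [smul_sub (((t⁻¹ : ℝ) : ℂ)) (act (γ t) f - act (γ 0) f), smul_smul, Complex.ofReal_inv,
      inv_mul_cancel₀ htc, one_smul]
  have hn : ‖((t⁻¹ : ℝ) : ℂ)‖ = |t|⁻¹ := by
    rw [Complex.norm_real, Real.norm_eq_abs, abs_inv]
  have htpos : 0 < |t| := abs_pos.2 ht0
  have hval : pn n (((t⁻¹ : ℝ) : ℂ) • (act (γ t) f - act (γ 0) f) - dop X f) ≤ ε / 2 := by
    rw [heq, map_smul_eq_mul, hn]
    calc |t|⁻¹ * pn n (act (γ t) f - act (γ 0) f - ((t : ℝ) : ℂ) • dop X f)
        ≤ |t|⁻¹ * (|t| * (ε / 2)) := mul_le_mul_of_nonneg_left hmain (inv_nonneg.2 htpos.le)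
      _ = ε / 2 := by rw [← mul_assoc, inv_mul_cancel₀ htpos.ne', one_mul]
  rw [Real.dist_eq, sub_zero, abs_of_nonneg (apply_nonneg (pn n) _)]
  linarith

theorem opg_clm {γ : ℝ → GL (Fin 4) ℝ} {X : Mat} (h : Opg γ X) (f : Isp) (T : Isp →L[ℂ] ℂ)
    (t : ℝ) : HasDerivAt (fun t => T (act (γ t) f)) (T (act (γ t) (dop X f))) t := by
  rw [hasDerivAt_iff_tendsto_slope_zero]
  have h1 := (opg_top h f).map (T.comp (actL (γ t)))
  unfold DerZero at h1
  refine h1.congr fun s => ?_
  simp only [ContinuousLinearMap.comp_apply, actL_app]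
  rw [h.zero, act_one, h.add, act_mul, Complex.real_smul, smul_eq_mul]

/-- A closed subspace invariant under a one-parameter group is invariant under its generator. -/
theorem opg_mem {γ : ℝ → GL (Fin 4) ℝ} {X : Mat} (h : Opg γ X) (S : Submodule ℂ Isp)
    (hS : IsClosed (S : Set Isp)) (hinv : ∀ t, ∀ f ∈ S, act (γ t) f ∈ S) :
    ∀ f ∈ S, dop X f ∈ S := by
  intro f hf
  have h1 := opg_top h f
  unfold DerZero at h1
  refine hS.mem_of_tendsto h1 (Filter.Eventually.of_forall fun t => ?_)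
  exact S.smul_mem _ (S.sub_mem (hinv t f hf) (hinv 0 f hf))

end SoCo
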