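import Pool.Agent.H.MP_0f3f77_al.IrredPi
import Pool.Agent.H.MP_0f3f77_al.Admis
import Pool.Agent.H.MP_0f3f77_al.Complete
import Pool.Agent.H.MP_0f3f77_al.ActCont
import Pool.Agent.H.MP_0f3f77_al.OpgExp
import Pool.Agent.H.MP_0f3f77_al.OpgTop

/-!
`piR` is a Casselman-Wallach representation.

`toI : piR.V → Isp` is an embedding with closed range `PiS` (`isClosed_PiS`).
* `t2`, `fc`, `lc`: inherited by the subspace (`Topology.IsEmbedding.t2Space`,
  `IsInducing.firstCountableTopology`, `LocallyConvexSpace` of a submodule: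
  `piR.V` is definitionally `↥PiS`; or use the seminorms `pn n` composed with `toI`,
  `WithSeminorms` on the induced topology, `LinearMap.withSeminorms_induced`).
* `complete`: a Cauchy sequence in `piR.V` is Cauchy in `Isp` for all seminorms `pn n` (the sets
  `{v | pn n (toI v) < ε}` are neighbourhoods of `0`, `continuous_pn`); `complete_Isp` gives a limit,
  which is in the closed subspace `PiS`; `tendsto_iff` and `toI_emb`.
* `cont`: `act_cont` and `toI_emb`.
* `smooth`: `w = dop X v` (`PiS` is invariant under `dop X`: `opg_mem` with `exists_opg`); for `γ` as in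
  the statement `opg_of_exp` and `opg_top`; `DerZero` passes to the subspace (`toI_emb`,
  `IsInducing.tendsto_nhds_iff`).
* `growth`: a continuous seminorm `p` on `piR.V` satisfies `p v ≤ C * pn n (toI v)`
  (`Seminorm.bound_of_continuous` for the induced `WithSeminorms`, or directly: there is `n, δ` with
  `pn n (toI v) < δ → p v < 1`, the sets `{pn n < δ}` being a neighbourhood basis since
  `pn_mono`); `q v = C' * pn n (toI v)` (a seminorm: `C' • (pn n).comp toI` with `C' : NNReal`) by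
  `act_bound` (`gs g` is the same expression).
* `admissible`: the linear map `E → (W →ₗ[ℂ] Fv)`, `T ↦ (w ↦ toI (T w) e01)`, is injective: if
  `toI (T w) e01 = 0` for all `w`, then for `k` orthogonal
  `act k (toI (T w)) e01 = toI (T (τ k w)) e01 = 0`, so `toI (T w) = 0` by `value_orth`.
* `finlen`: `HasLen piR ⊥ ⊤ 1` from `isIrred_piR`.
-/

open scoped Topology ContDiff
open MeasureTheory

noncomputable section

namespace SoCo

/-- The seminorms of `piR.V`. -/
def cwpi_q (n : ℕ) : Seminorm ℂ piR.V := (pn n).comp toI.toLinearMap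

theorem cwpi_q_app (n : ℕ) (v : piR.V) : cwpi_q n v = pn n (toI v) := rfl

theorem cwpi_ind : Topology.IsInducing (toI : piR.V → Isp) := toI_emb.isInducing

theorem cwpi_ws : WithSeminorms (cwpi_q : SeminormFamily ℂ piR.V ℕ) := by
  have h : Topology.IsInducing (toI.toLinearMap : piR.V → Isp) := cwpi_ind
  exact h.withSeminorms withSeminorms_pn

theorem cwpi_cont (n : ℕ) : Continuous (cwpi_q n) :=
  (continuous_pn n).comp toI.continuous

theorem cwpi_bound (p : Seminorm ℂ piR.V) (hp : Continuous p) :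
    ∃ (n : ℕ) (C : ℝ), 0 ≤ C ∧ ∀ v, p v ≤ C * cwpi_q n v := by
  obtain ⟨s, C, -, h⟩ := Seminorm.bound_of_continuous cwpi_ws p hp
  refine ⟨s.sup id, C, C.2, fun v => ?_⟩
  have h1 := h v
  have h2 : (C • s.sup cwpi_q) v = C * (s.sup cwpi_q) v := rfl
  rw [h2] at h1
  refine h1.trans (mul_le_mul_of_nonneg_left ?_ C.2)
  refine Seminorm.finset_sup_apply_le (apply_nonneg _ _) fun i hi => ?_
  have h3 : i ≤ s.sup id := Finset.le_sup (f := id) hi
  exact pn_mono h3 (toI v)

theorem cwpi_complete (u : ℕ → piR.V)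
    (hu : ∀ U ∈ 𝓝 (0 : piR.V), ∃ N, ∀ k l, N ≤ k → N ≤ l → u k - u l ∈ U) :
    ∃ v, Filter.Tendsto u Filter.atTop (𝓝 v) := by
  have h1 : ∀ n, ∀ ε : ℝ, 0 < ε → ∃ N, ∀ k l, N ≤ k → N ≤ l →
      pn n (toI (u k) - toI (u l)) < ε := by
    intro n ε hε
    have h2 : {v : piR.V | cwpi_q n v < ε} ∈ 𝓝 (0 : piR.V) := by
      apply (isOpen_lt (cwpi_cont n) continuous_const).mem_nhds
      show cwpi_q n 0 < ε
      rw [map_zero]
      exact hε
    obtain ⟨N, hN⟩ := hu _ h2
    refine ⟨N, fun k l hk hl => ?_⟩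
    have h3 : cwpi_q n (u k - u l) < ε := hN k l hk hl
    rw [cwpi_q_app, map_sub] at h3
    exact h3
  obtain ⟨f, hf⟩ := complete_Isp (fun k => toI (u k)) h1
  have hlim : Filter.Tendsto (fun k => toI (u k)) Filter.atTop (𝓝 f) :=
    (tendsto_iff _ f).2 hf
  have hmem : f ∈ PiS := isClosed_PiS.mem_of_tendsto hlim
    (Filter.Eventually.of_forall fun k => toI_mem (u k))
  obtain ⟨v, hv⟩ := toI_surj f hmem
  refine ⟨v, ?_⟩
  rw [cwpi_ind.tendsto_nhds_iff, hv]
  exact hlim

theorem cwpi_smooth (X : Mat) (v : piR.V) : ∃ w, ∀ γ : ℝ → GL (Fin 4) ℝ,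
    (∀ t, (γ t : Mat) = NormedSpace.exp (t • X)) →
      DerZero (fun t => piR.act (γ t) v) w := by
  obtain ⟨γ0, h0, -⟩ := exists_opg X
  have hm : dop X (toI v) ∈ PiS :=
    opg_mem h0 PiS isClosed_PiS (fun t f hf => ginv_PiS (γ0 t) f hf) _ (toI_mem v)
  obtain ⟨w, hw⟩ := toI_surj _ hm
  refine ⟨w, fun γ hγ => ?_⟩
  have h1 := opg_top (opg_of_exp X γ hγ) (toI v)
  unfold DerZero at h1 ⊢
  rw [cwpi_ind.tendsto_nhds_iff, hw]
  refine h1.congr fun t => ?_
  simp only [Function.comp_apply, map_smul, map_sub, toI_act]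

theorem cwpi_growth (p : Seminorm ℂ piR.V) (hp : Continuous p) :
    ∃ (q : Seminorm ℂ piR.V) (N : ℕ), Continuous q ∧
      ∀ (g : GL (Fin 4) ℝ) (v : piR.V), p (piR.act g v) ≤
        (1 + ∑ i, ∑ j, |(g : Mat) i j| +
          ∑ i, ∑ j, |((g⁻¹ : GL (Fin 4) ℝ) : Mat) i j|) ^ N * q v := by
  obtain ⟨n, C, hC, h1⟩ := cwpi_bound p hp
  obtain ⟨C', N, hC', h2⟩ := act_bound n
  obtain ⟨D, hD⟩ : ∃ D : NNReal, (D : ℝ) = C * C' := ⟨⟨C * C', mul_nonneg hC hC'⟩, rfl⟩
  refine ⟨D • cwpi_q n, N, ?_, fun g v => ?_⟩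
  · exact (cwpi_cont n).const_smul D
  · have h3 : p (piR.act g v) ≤ C * pn n (act g (toI v)) := h1 _
    have h4 := h2 g (toI v)
    have h5 : (D • cwpi_q n) v = (C * C') * pn n (toI v) := by
      rw [← hD]
      rfl
    rw [h5]
    calc p (piR.act g v) ≤ C * pn n (act g (toI v)) := h3
      _ ≤ C * (C' * gs g ^ N * pn n (toI v)) := mul_le_mul_of_nonneg_left h4 hC
      _ = gs g ^ N * (C * C' * pn n (toI v)) := by ring

/-- The value at the standard pair. -/
def cwpi_ev : piR.V →ₗ[ℂ] Fv where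
  toFun v := toI v e01
  map_add' v w := by rw [map_add, Isp.add_app]
  map_smul' c v := by rw [map_smul, Isp.smul_app]; rfl

theorem cwpi_ev_app (v : piR.V) : cwpi_ev v = toI v e01 := rfl

theorem cwpi_adm (W : Type) [AddCommGroup W] [Module ℂ W] [FiniteDimensional ℂ W]
    (τ : GL (Fin 4) ℝ → W →ₗ[ℂ] W) (E : Submodule ℂ (W →ₗ[ℂ] piR.V))
    (hE : ∀ T ∈ E, ∀ k : GL (Fin 4) ℝ, (k : Mat) * (k : Mat).transpose = 1 →
      ∀ w, piR.act k (T w) = T (τ k w)) : FiniteDimensional ℂ E := by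
  let L : (W →ₗ[ℂ] piR.V) →ₗ[ℂ] (W →ₗ[ℂ] Fv) := LinearMap.compRight ℂ cwpi_ev
  refine FiniteDimensional.of_injective (L.comp E.subtype) ?_
  rw [← LinearMap.ker_eq_bot, LinearMap.ker_eq_bot']
  intro T hT
  apply Subtype.ext
  apply LinearMap.ext
  intro w
  have h0 : ∀ w, toI (T.1 w) e01 = 0 := fun w => by
    have := congrArg (fun F => F w) hT
    exact this
  have h1 : toI (T.1 w) = 0 := by
    apply value_orth
    intro k hk
    rw [← toI_act, hE T.1 T.2 k hk w]
    exact h0 _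
  apply toI_inj
  rw [h1]
  exact (map_zero toI).symm

theorem isCW_piR : IsCW piR where
  t2 := toI_emb.t2Space
  fc := cwpi_ind.firstCountableTopology
  lc := cwpi_ws.toLocallyConvexSpace
  complete := cwpi_complete
  cont := by
    rw [toI_emb.continuous_iff]
    exact act_cont.comp (continuous_fst.prodMk (toI.continuous.comp continuous_snd))
  smooth := cwpi_smooth
  growth := cwpi_growth
  admissible := cwpi_adm
  finlen := by
    refine ⟨1, fun i => if i = 0 then ⊥ else ⊤, by simp, by simp, ?_⟩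
    intro i hi
    have h : i = 0 := by omega
    subst h
    have h2 : IsIrred piR := isIrred_piR
    unfold IsIrred at h2
    simpa using h2

end SoCo
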