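import Pool.Agent.H.MP_0f3f77_al.FamOf

/-!
Classification of the closed `M_3`-invariant subspaces between `Sp 0 ⊓ W` and `W`.

`fam_of`, proof.  `S` is closed and invariant under `rot θ`, `dg 2 2`, and under the operators
`D 0 0, D 1 1, D 0 1, D 0 2, D 1 2, dop Jm` (`opg_mem`).
For `f` of weight `κ`, `E± f = (D00 - D11) f ± i (dop Jm f + 2 D01 f)` has weight `κ ∓ 2` and
`V± f = D02 f ± i D12 f` has weight `κ ∓ 1`: `act (rot θ) (dop X f) = dop (R X R⁻¹) (act (rot θ) f)`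
and `R (H ± i (E_01 + E_10)) R⁻¹ = e^{∓ 2 i θ} (...)`, `R (E_02 ± i E_12) R⁻¹ = e^{∓ i θ} (...)`
(`R E_02 R⁻¹ = cos θ E_02 + sin θ E_12`, `R E_12 R⁻¹ = -sin θ E_02 + cos θ E_12`,
`R H R⁻¹ = cos 2θ H + sin 2θ S`, `R S R⁻¹ = -sin 2θ H + cos 2θ S`, `S = E_01 + E_10 = Jm + 2 E_01`).
The effect on `qv` is `epv, emv, vpv, vmv` by `q_D00, q_D11, q_D01, q_D02, q_D12` and
`dop Jm f = i κ f` (`J_wt`); parity: `q_parity`; `dlv`: `q_dg0`, `q_dg1` with `s = t = 2`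
(`dg 2 2 = dg 2 1 * dg 1 2`; it commutes with `rot θ`).

`mem_of_fam`: if `f ∈ W` and `qv (pk κ f) ∈ Qf S κ` for all `κ`: choose `s ∈ S` of weight `κ` with
the same `qv`; `g = pk κ f - s` has weight `κ` and `qv g = 0`, so `g ∈ Sp 0` (all
`qv (act (rot θ) g) = 0`), `g ∈ W`, hence `g ∈ S`, `pk κ f ∈ S` for all `κ` and `f ∈ S`
(`pk_dense`).

`classify`: `fam_class` for `Qf S` gives `i`; `S = W ⊓ Sp i` by `mem_Sp_iff`, `mem_of_fam`, and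
`q_parity` (`pk_wt`), `pk_mem`.
`realize`: `fam_top` for `Qf W`: the vector `qv (pk κ f)` with `cc ν 1 (pk κ f) ≠ 0` exists
by `ker_iff` because `cc ν 1 f ≠ 0`.  The `f ∈ W` of weight `κ` with `qv f = v` is in `Sp i` by
`mem_Sp_iff`, `pk_id`, `pk_ne` (`Cond i l 0` holds).
-/

open scoped Topology ContDiff
open MeasureTheory

noncomputable section

namespace SoCo

theorem mem_of_fam (ν : ℝ) (W S : Submodule ℂ Isp) (hW : IsClosed (W : Set Isp)) (hWg : Ginv W)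
    (hS : IsClosed (S : Set Isp)) (_hi : M3inv S) (h0 : Sp ν 0 ⊓ W ≤ S) (h1 : S ≤ W) (f : Isp)
    (hf : f ∈ W) (h : ∀ κ, (fun m => qv ν m (pk κ f)) ∈ Qf ν S κ) : f ∈ S := by
  refine pk_dense S hS f fun κ => ?_
  obtain ⟨s, hs, hsw, hsq⟩ := h κ
  have hp : pk κ f ∈ W := pk_mem κ W hW (fun θ g hg => hWg _ g hg) f hf
  have hg : pk κ f - s ∈ Sp ν 0 := by
    have key : ∀ m : Fin 6, pk κ f - s ∈ KK (qv ν m) := by
      intro m
      rw [mem_KK]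
      intro θ
      rw [map_sub, pk_wt κ f θ, hsw θ, ← smul_sub, map_smul, map_sub, hsq m, sub_self, smul_zero]
    exact ⟨⟨⟨⟨⟨key 0, key 1⟩, key 2⟩, key 3⟩, key 4⟩, key 5⟩
  have h2 : pk κ f - s ∈ S := h0 ⟨hg, W.sub_mem hp (h1 hs)⟩
  have h3 := S.add_mem h2 hs
  rwa [sub_add_cancel] at h3

theorem classify (ν : ℝ) (W S : Submodule ℂ Isp) (hW : IsClosed (W : Set Isp)) (hWg : Ginv W)
    (hS : IsClosed (S : Set Isp)) (hi : M3inv S) (h0 : Sp ν 0 ⊓ W ≤ S) (h1 : S ≤ W) :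
    ∃ i : Fin 9, S = W ⊓ Sp ν i := by
  obtain ⟨i, hcl⟩ := fam_class (fam_of ν S hS hi)
  refine ⟨i, le_antisymm ?_ ?_⟩
  · intro f hf
    refine ⟨h1 hf, (mem_Sp_iff ν i f).mpr fun κ => ?_⟩
    exact ((hcl κ _).mp ⟨pk κ f, pk_mem κ S hS (fun θ g hg => hi _ (isM3_rot θ) g hg) f hf,
      pk_wt κ f, fun m => rfl⟩).2
  · rintro f ⟨hfW, hfS⟩
    refine mem_of_fam ν W S hW hWg hS hi h0 h1 f hfW fun κ => ?_
    exact (hcl κ _).mpr ⟨q_parity ν κ (pk κ f) (pk_wt κ f), (mem_Sp_iff ν i f).mp hfS κ⟩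

end SoCo
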