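import Pool.Agent.H.MP_0f3f77_al.Slice

/-!
The Lie algebra action on slices.

Let `x = pt 0 p`.  (i) Tangential directions: by the chain rule
`(fderiv ℝ f x (0, (0, h, 0, 0))) a b i = h * dy (sl f a b i) p` and
`(fderiv ℝ f x (0, (0, 0, h, 0))) a b i = h * dz (sl f a b i) p`.
(ii) `cov_deriv`: differentiate `f (rmul x (1 + s B)) = rho (1 + s B) (f x)` at `s = 0`:
`(fderiv ℝ f x (rmul x B)) a b i = -3 (tr B) f x a b i + ∑ c, B c a * f x c b i +
∑ d, B d b * f x a d i`  (`d/ds det (1 + s B) = tr B`).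
Then use `dop_app`: `dop X f x a b i = -(fderiv f x (lmul X x)) a b i - ∑ k, X k i f x a b k`,
with `X = Eij j k`: `lmul X x = (x_a(k) e_j)_a` and the last sum is `f x a b j` if `i = k`, else `0`.
At `x = pt 0 p = (e_0, (0, y, z, 1))`:
`D 0 1`: `lmul X x = (0, y e_0) = y • (0, x 0) = y • rmul x B`, `B = E_{01}` (`B 0 1 = 1`);
`D 0 2`: `z • (0, x 0)`; `D 0 3`: `(0, x 0)`; `D 1 2`: `(0, z e_1)`; `D 1 3`: `(0, e_1)`;
`D 2 3`: `(0, e_2)`; `D 2 1`: `(0, y e_2)`; `D 0 0`: `(x 0, 0) = rmul x E_{00}`;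
`D 1 1`: `(0, y e_1)`; `D 2 2`: `(0, z e_2)`.
`sl f a b 0 = 0` by the annihilation property with `x 0 = e_0`.
For `pt t p`: `D 2 3`: `lmul X x = (0, e_2)`, `D 2 0`: `(e_2, 0)`.
-/

open scoped Topology ContDiff
open MeasureTheory

noncomputable section

namespace SoCo

theorem covderiv_curve (f : Isp) (x v : E) (hx : x ∈ Om) (a b : Fin 2) (i : Fin 4) :
    HasDerivAt (fun s : ℝ => f (x + s • v) a b i) ((fderiv ℝ (f : E → Fv) x v) a b i) 0 := by
  have h := (f.diffAt x hx).hasFDerivAt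
  have h2 : HasDerivAt (fun s : ℝ => x + s • v) v 0 := by
    simpa using ((hasDerivAt_id (0 : ℝ)).smul_const v).const_add x
  have h3 : HasDerivAt (fun s : ℝ => (f : E → Fv) (x + s • v)) (fderiv ℝ (f : E → Fv) x v) 0 := by
    have h5 : HasFDerivAt (f : E → Fv) (fderiv ℝ (f : E → Fv) x) (x + (0 : ℝ) • v) := by
      simpa using h
    exact h5.comp_hasDerivAt 0 h2
  exact hasDerivAt_pi.mp (hasDerivAt_pi.mp (hasDerivAt_pi.mp h3 a) b) i

theorem covderiv_det (B : Mat2) :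
    HasDerivAt (fun s : ℝ => (((1 + s • B : Mat2).det)⁻¹ ^ 3 : ℝ)) (-3 * (B 0 0 + B 1 1)) 0 := by
  have h1 : ∀ s : ℝ, (1 + s • B : Mat2).det =
      (1 + s * B 0 0) * (1 + s * B 1 1) - s * B 0 1 * (s * B 1 0) := by
    intro s
    simp [Matrix.det_fin_two]
  simp only [h1]
  have h2 : HasDerivAt (fun s : ℝ =>
      (1 + s * B 0 0) * (1 + s * B 1 1) - s * B 0 1 * (s * B 1 0)) (B 0 0 + B 1 1) 0 := by
    have e0 : HasDerivAt (fun s : ℝ => 1 + s * B 0 0) (B 0 0) 0 := by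
      simpa using ((hasDerivAt_id (0 : ℝ)).mul_const (B 0 0)).const_add 1
    have e1 : HasDerivAt (fun s : ℝ => 1 + s * B 1 1) (B 1 1) 0 := by
      simpa using ((hasDerivAt_id (0 : ℝ)).mul_const (B 1 1)).const_add 1
    have e2 : HasDerivAt (fun s : ℝ => s * B 0 1) (B 0 1) 0 := by
      simpa using (hasDerivAt_id (0 : ℝ)).mul_const (B 0 1)
    have e3 : HasDerivAt (fun s : ℝ => s * B 1 0) (B 1 0) 0 := by
      simpa using (hasDerivAt_id (0 : ℝ)).mul_const (B 1 0)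
    have := (e0.fun_mul e1).fun_sub (e2.fun_mul e3)
    simpa using this
  have h3 := (h2.inv (by simp)).pow 3
  have h4 : (-3 : ℝ) * (B 0 0 + B 1 1) = ((3 : ℕ) : ℝ) *
      ((1 + (0 : ℝ) * B 0 0) * (1 + 0 * B 1 1) - 0 * B 0 1 * (0 * B 1 0))⁻¹ ^ (3 - 1) *
      (-(B 0 0 + B 1 1) / ((1 + (0 : ℝ) * B 0 0) * (1 + 0 * B 1 1) -
        0 * B 0 1 * (0 * B 1 0)) ^ 2) := by
    norm_num
    ring
  rw [h4]
  exact h3

theorem covderiv_entry (B : Mat2) (c a : Fin 2) :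
    HasDerivAt (fun s : ℝ => (((1 + s • B : Mat2) c a : ℝ) : ℂ)) (B c a : ℂ) 0 := by
  have h : HasDerivAt (fun s : ℝ => (1 + s • B : Mat2) c a) (B c a) 0 := by
    have : HasDerivAt (fun s : ℝ => (1 : Mat2) c a + s * B c a) (B c a) 0 := by
      simpa using ((hasDerivAt_id (0 : ℝ)).mul_const (B c a)).const_add ((1 : Mat2) c a)
    exact this
  exact h.ofReal_comp

theorem cov_deriv (f : Isp) (x : E) (hx : x ∈ Om) (B : Mat2) (a b : Fin 2) (i : Fin 4) :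
    (fderiv ℝ (f : E → Fv) x (rmul x B)) a b i =
      -3 * ((B 0 0 + B 1 1 : ℝ) : ℂ) * f x a b i + ∑ c, (B c a : ℂ) * f x c b i +
        ∑ d, (B d b : ℂ) * f x a d i := by
  have h1 := covderiv_curve f x (rmul x B) hx a b i
  have hr : ∀ s : ℝ, x + s • rmul x B = rmul x (1 + s • B) := by
    intro s
    funext a' i'
    fin_cases a' <;> simp [rmul_app] <;> ring
  have hdet : ∀ᶠ s : ℝ in 𝓝 0, (1 + s • B : Mat2).det ≠ 0 := by
    have hc : Continuous fun s : ℝ => (1 + s • B : Mat2).det := by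
      have h1 : ∀ s : ℝ, (1 + s • B : Mat2).det =
          (1 + s * B 0 0) * (1 + s * B 1 1) - s * B 0 1 * (s * B 1 0) := by
        intro s
        simp [Matrix.det_fin_two]
      simp only [h1]
      fun_prop
    exact hc.continuousAt.eventually_ne (by simp)
  have he : (fun s : ℝ => f (x + s • rmul x B) a b i) =ᶠ[𝓝 0]
      fun s : ℝ => ((((1 + s • B : Mat2).det)⁻¹ ^ 3 : ℝ) : ℂ) *
        ∑ c, ∑ d, (((1 + s • B : Mat2) c a : ℝ) : ℂ) * (((1 + s • B : Mat2) d b : ℝ) : ℂ) *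
          f x c d i := by
    filter_upwards [hdet] with s hs
    rw [hr s, (isI f).cov x _ hs]
    rfl
  have h2 : HasDerivAt (fun s : ℝ => ((((1 + s • B : Mat2).det)⁻¹ ^ 3 : ℝ) : ℂ) *
        ∑ c, ∑ d, (((1 + s • B : Mat2) c a : ℝ) : ℂ) * (((1 + s • B : Mat2) d b : ℝ) : ℂ) *
          f x c d i)
      (((-3 * (B 0 0 + B 1 1) : ℝ) : ℂ) *
        (∑ c, ∑ d, (((1 + (0 : ℝ) • B : Mat2) c a : ℝ) : ℂ) *
          (((1 + (0 : ℝ) • B : Mat2) d b : ℝ) : ℂ) * f x c d i) +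
        ((((1 + (0 : ℝ) • B : Mat2).det)⁻¹ ^ 3 : ℝ) : ℂ) *
        (∑ c, ∑ d, (((B c a : ℝ) : ℂ) * (((1 + (0 : ℝ) • B : Mat2) d b : ℝ) : ℂ) +
          (((1 + (0 : ℝ) • B : Mat2) c a : ℝ) : ℂ) * ((B d b : ℝ) : ℂ)) * f x c d i)) 0 := by
    refine (covderiv_det B).ofReal_comp.mul ?_
    refine HasDerivAt.fun_sum fun c _ => HasDerivAt.fun_sum fun d _ => ?_
    exact ((covderiv_entry B c a).mul (covderiv_entry B d b)).mul_const _
  have h3 := (h1.congr_of_eventuallyEq he.symm).unique h2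
  rw [h3]
  simp only [zero_smul, add_zero, Matrix.det_one, inv_one, one_pow, Complex.ofReal_one, one_mul,
    Fin.sum_univ_two]
  have ha : a = 0 ∨ a = 1 := by omega
  have hb : b = 0 ∨ b = 1 := by omega
  rcases ha with rfl | rfl <;> rcases hb with rfl | rfl <;>
    simp <;> ring

end SoCo
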