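import Pool.Agent.H.MP_0f3f77_al.QfDef

/-!
A closed `GL_4`-invariant subspace on which `cc ν 1` vanishes is zero.

`curl_int`, proof.  Let `B = !![ξ.2/ν, -ξ.1/ν; ξ.1/ν, ξ.2/ν]` (rows), `det B = (ξ.1^2+ξ.2^2)/ν^2`,
and `g = diag(1, B, 1)` (block in the coordinates 1, 2).  For `k = 1, 2`,
`sl (act g f) 0 0 1 p = ∑_{k=1,2} (B⁻¹)_{k1} sl f 0 0 k (B⁻¹ p)` (first index row; the entries
`(B⁻¹)_{11} = (ξ.2/ν)/det B`, `(B⁻¹)_{21} = -(ξ.1/ν)/det B`).
`cc ν 1 (act g f) = ∫ sl (act g f) 0 0 1 p e^{iν p.2} dp` (`Lf_eq`, `sl_sy`), and the substitution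
`p = B w` gives `|det B| ∫ ∑_k (B⁻¹)_{k1} sl f 0 0 k w e^{i ξ·w} dw` because `ν (B w).2 = ξ·w`.

`curl_zero`, proof.  `φ = dz (sl f 0 0 1) - dy (sl f 0 0 2)` is in `Sy (-4)`, continuous and
integrable; integrating by parts, `∫ φ e^{iξ·p} = -i ξ.2 ∫ sl_1 e + i ξ.1 ∫ sl_2 e = 0` for
`ξ ≠ 0`, so `φ = 0` by `four_inj2`.

`value_zero`, proof.  At `x = pt 0 0 = (e_0, e_3)`, `curl_zero` reads
`(D 2 3 f) x 0 0 1 = (D 1 3 f) x 0 0 2` for all `f ∈ σ` (`sl_D23`, `sl_D13`).  Apply it to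
`D 3 1 f ∈ σ` (`opg_mem` with `exists_opg`).  `D23 D31 = D31 D23 + D21`,
`D13 D31 = D31 D13 + D11 - D33`
(`dop_bracket`).  By `dop_app` at `x`: `lmul (Eij 3 1) x = 0`, `(D31 g) x a b i = -(g x a b 3)` if
`i = 1` and `0` otherwise, and `g x a b 3 = 0` (annihilation, `x 1 = e_3`); `lmul (Eij 2 1) x = 0`,
`(D21 f) x 0 0 1 = -f x 0 0 2`; `(D11 f) x 0 0 2 = 0`; `lmul (Eij 3 3) x = (0, x 1)`, so by
`cov_deriv` with `B = E_11` (2 x 2), `(D33 f) x 0 0 2 = 3 f x 0 0 2`.  So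
`-f x 0 0 2 = -3 f x 0 0 2`.

`sigma_zero`, proof.  For every `g`, `act g⁻¹ f ∈ σ`, so
`∑ k, g k 2 * f (lmul g x) 0 0 k = 0`.  Given `y ∈ Om` and `w` not in the span of `y 0, y 1`,
there is `g ∈ GL_4` with columns `g e_0 = y 0`, `g e_2 = w`, `g e_3 = y 1`; so
`∑ k, w k * f y 0 0 k = 0`.  For `w` in the span this holds by the annihilation property.  So
`f y 0 0 = 0` for all `y ∈ Om`.  Then `cov` for `A = !![1, 0; s, 1]` (first column `(1, s)`):
`0 = f (rmul y A) 0 0 = f y 0 0 + 2 s f y 0 1 + s^2 f y 1 1` for all `s`, so all components vanish.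
-/

open scoped Topology ContDiff
open MeasureTheory

noncomputable section

namespace SoCo

/-- The matrix with the given columns. -/
def sigmazero_M (a b c d : Fin 4 → ℝ) : Mat :=
  !![a 0, b 0, c 0, d 0; a 1, b 1, c 1, d 1; a 2, b 2, c 2, d 2; a 3, b 3, c 3, d 3]

theorem sigmazero_gl {σ : Submodule ℂ Isp} (hg : Ginv σ)
    (h : ∀ f ∈ σ, f (pt 0 0) 0 0 2 = 0) {f : Isp} (hf : f ∈ σ) (g : GL (Fin 4) ℝ) :
    ∑ k, ((g : Mat) k 2 : ℂ) * f (lmul (g : Mat) (pt 0 0)) 0 0 k = 0 := by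
  have h1 := h (act g⁻¹ f) (hg g⁻¹ f hf)
  rw [act_app, inv_inv] at h1
  exact h1

theorem sigmazero_mat {σ : Submodule ℂ Isp} (hg : Ginv σ)
    (h : ∀ f ∈ σ, f (pt 0 0) 0 0 2 = 0) {f : Isp} (hf : f ∈ σ) (y : E) (u w : Fin 4 → ℝ)
    (hd : (sigmazero_M (y 0) u w (y 1)).det ≠ 0) :
    ∑ k, (w k : ℂ) * f y 0 0 k = 0 := by
  have hu : IsUnit (sigmazero_M (y 0) u w (y 1)).det := isUnit_iff_ne_zero.2 hd
  have h1 := sigmazero_gl hg h hf (Matrix.GeneralLinearGroup.mk'' _ hu)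
  have h2 : ((Matrix.GeneralLinearGroup.mk'' _ hu : GL (Fin 4) ℝ) : Mat) =
      sigmazero_M (y 0) u w (y 1) := rfl
  rw [h2] at h1
  have h3 : lmul (sigmazero_M (y 0) u w (y 1)) (pt 0 0) = y := by
    funext a i
    rw [lmul_app, Fin.sum_univ_four]
    fin_cases a <;> fin_cases i <;> simp [sigmazero_M, pt]
  rw [h3] at h1
  rw [← h1]
  refine Finset.sum_congr rfl fun k _ => ?_
  fin_cases k <;> simp [sigmazero_M]

theorem sigmazero_det (a b c d : Fin 4 → ℝ) : (sigmazero_M a b c d).det =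
    a 0 * (b 1 * (c 2 * d 3 - c 3 * d 2) - c 1 * (b 2 * d 3 - b 3 * d 2) +
      d 1 * (b 2 * c 3 - b 3 * c 2)) -
    b 0 * (a 1 * (c 2 * d 3 - c 3 * d 2) - c 1 * (a 2 * d 3 - a 3 * d 2) +
      d 1 * (a 2 * c 3 - a 3 * c 2)) +
    c 0 * (a 1 * (b 2 * d 3 - b 3 * d 2) - b 1 * (a 2 * d 3 - a 3 * d 2) +
      d 1 * (a 2 * b 3 - a 3 * b 2)) -
    d 0 * (a 1 * (b 2 * c 3 - b 3 * c 2) - b 1 * (a 2 * c 3 - a 3 * c 2) +
      c 1 * (a 2 * b 3 - a 3 * b 2)) := by
  rw [Matrix.det_succ_row_zero]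
  simp only [sigmazero_M, Fin.sum_univ_four, Matrix.det_fin_three, Matrix.submatrix_apply]
  simp [Fin.succAbove, Fin.succ]
  ring

theorem sigmazero_coord {σ : Submodule ℂ Isp} (hg : Ginv σ)
    (h : ∀ f ∈ σ, f (pt 0 0) 0 0 2 = 0) {f : Isp} (hf : f ∈ σ) (y : E) (k l : Fin 4)
    (hd : (sigmazero_M (y 0) (Pi.single l 1) (Pi.single k 1) (y 1)).det ≠ 0) :
    f y 0 0 k = 0 := by
  have h1 := sigmazero_mat hg h hf y _ _ hd
  rw [Finset.sum_eq_single k] at h1
  · simpa using h1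
  · intro b _ hb
    simp [Pi.single_eq_of_ne hb]
  · intro hk
    exact absurd (Finset.mem_univ k) hk

theorem sigmazero_two {a b c d : ℝ} {z w : ℂ} (h1 : z * a + w * b = 0) (h2 : z * c + w * d = 0)
    (h : a * d - b * c ≠ 0) : z = 0 ∧ w = 0 := by
  have h' : ((a : ℂ) * d - b * c) ≠ 0 := by exact_mod_cast h
  constructor
  · have h3 : z * ((a : ℂ) * d - b * c) = 0 := by linear_combination (d : ℂ) * h1 - (b : ℂ) * h2
    exact (mul_eq_zero.1 h3).resolve_right h'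
  · have h3 : w * ((a : ℂ) * d - b * c) = 0 := by
      linear_combination (a : ℂ) * h2 - (c : ℂ) * h1
    exact (mul_eq_zero.1 h3).resolve_right h'

theorem sigmazero_zz {σ : Submodule ℂ Isp} (hg : Ginv σ)
    (h : ∀ f ∈ σ, f (pt 0 0) 0 0 2 = 0) {f : Isp} (hf : f ∈ σ) (y : E) (hy : y ∈ Om) :
    ∀ k, f y 0 0 k = 0 := by
  have a0 := (isI f).ann y 0 0 0
  have a1 := (isI f).ann y 0 0 1
  rw [Fin.sum_univ_four] at a0 a1
  have key : ∀ k l : Fin 4,
      (sigmazero_M (y 0) (Pi.single l 1) (Pi.single k 1) (y 1)).det ≠ 0 → f y 0 0 k = 0 :=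
    fun k l hd => sigmazero_coord hg h hf y k l hd
  by_cases m01 : y 0 0 * y 1 1 - y 0 1 * y 1 0 = 0
  swap
  · have k2 : f y 0 0 2 = 0 := key 2 3 (by
      rw [sigmazero_det]; simp; contrapose! m01; linarith)
    have k3 : f y 0 0 3 = 0 := key 3 2 (by
      rw [sigmazero_det]; simp; contrapose! m01; linarith)
    simp only [k2, k3, zero_mul, add_zero] at a0 a1
    obtain ⟨k0, k1⟩ := sigmazero_two a0 a1 m01
    intro k; fin_cases k
    · exact k0
    · exact k1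
    · exact k2
    · exact k3
  by_cases m02 : y 0 0 * y 1 2 - y 0 2 * y 1 0 = 0
  swap
  · have k1 : f y 0 0 1 = 0 := key 1 3 (by
      rw [sigmazero_det]; simp; contrapose! m02; linarith)
    have k3 : f y 0 0 3 = 0 := key 3 1 (by
      rw [sigmazero_det]; simp; contrapose! m02; linarith)
    simp only [k1, k3, zero_mul, add_zero] at a0 a1
    obtain ⟨k0, k2⟩ := sigmazero_two a0 a1 m02
    intro k; fin_cases k
    · exact k0
    · exact k1
    · exact k2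
    · exact k3
  by_cases m03 : y 0 0 * y 1 3 - y 0 3 * y 1 0 = 0
  swap
  · have k1 : f y 0 0 1 = 0 := key 1 2 (by
      rw [sigmazero_det]; simp; contrapose! m03; linarith)
    have k2 : f y 0 0 2 = 0 := key 2 1 (by
      rw [sigmazero_det]; simp; contrapose! m03; linarith)
    simp only [k1, k2, zero_mul, add_zero] at a0 a1
    obtain ⟨k0, k3⟩ := sigmazero_two a0 a1 m03
    intro k; fin_cases k
    · exact k0
    · exact k1
    · exact k2
    · exact k3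
  by_cases m12 : y 0 1 * y 1 2 - y 0 2 * y 1 1 = 0
  swap
  · have k0 : f y 0 0 0 = 0 := key 0 3 (by
      rw [sigmazero_det]; simp; contrapose! m12; linarith)
    have k3 : f y 0 0 3 = 0 := key 3 0 (by
      rw [sigmazero_det]; simp; contrapose! m12; linarith)
    simp only [k0, k3, zero_mul, add_zero, zero_add] at a0 a1
    obtain ⟨k1, k2⟩ := sigmazero_two a0 a1 m12
    intro k; fin_cases k
    · exact k0
    · exact k1
    · exact k2
    · exact k3
  by_cases m13 : y 0 1 * y 1 3 - y 0 3 * y 1 1 = 0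
  swap
  · have k0 : f y 0 0 0 = 0 := key 0 2 (by
      rw [sigmazero_det]; simp; contrapose! m13; linarith)
    have k2 : f y 0 0 2 = 0 := key 2 0 (by
      rw [sigmazero_det]; simp; contrapose! m13; linarith)
    simp only [k0, k2, zero_mul, add_zero, zero_add] at a0 a1
    obtain ⟨k1, k3⟩ := sigmazero_two a0 a1 m13
    intro k; fin_cases k
    · exact k0
    · exact k1
    · exact k2
    · exact k3
  by_cases m23 : y 0 2 * y 1 3 - y 0 3 * y 1 2 = 0
  swap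
  · have k0 : f y 0 0 0 = 0 := key 0 1 (by
      rw [sigmazero_det]; simp; contrapose! m23; linarith)
    have k1 : f y 0 0 1 = 0 := key 1 0 (by
      rw [sigmazero_det]; simp; contrapose! m23; linarith)
    simp only [k0, k1, zero_mul, add_zero, zero_add] at a0 a1
    obtain ⟨k2, k3⟩ := sigmazero_two a0 a1 m23
    intro k; fin_cases k
    · exact k0
    · exact k1
    · exact k2
    · exact k3
  exact absurd (show gram y = 0 by rw [gram_eq, m01, m02, m03, m12, m13, m23]; ring) hy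

theorem sigmazero_cov (f : Isp) (h : ∀ y ∈ Om, ∀ k, f y 0 0 k = 0) (y : E) (hy : y ∈ Om)
    (a b : Fin 2) (i : Fin 4) : f y a b i = 0 := by
  have key : ∀ s : ℝ, s * f y 0 1 i + s * f y 1 0 i + s * s * f y 1 1 i = 0 := by
    intro s
    have hA : (!![1, 0; s, 1] : Mat2).det ≠ 0 := by simp [Matrix.det_fin_two]
    have h1 := h (rmul y !![1, 0; s, 1]) ((rmul_mem_Om y _ hA).2 hy) i
    rw [(isI f).cov y _ hA] at h1
    simp only [rho, Fin.sum_univ_two, Matrix.det_fin_two] at h1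
    simp [h y hy i] at h1
    linear_combination h1
  have h1 := key 1
  have h2 := key (-1)
  have h3 := (isI f).symm y 0 1 i
  push_cast at h1 h2
  have h11 : f y 1 1 i = 0 := by linear_combination (1 / 2 : ℂ) * h1 + (1 / 2 : ℂ) * h2
  have h01 : f y 0 1 i = 0 := by
    linear_combination (1 / 4 : ℂ) * h1 - (1 / 4 : ℂ) * h2 + (1 / 2 : ℂ) * h3
  have h10 : f y 1 0 i = 0 := by rw [← h3]; exact h01
  have h00 := h y hy i
  fin_cases a <;> fin_cases b
  · exact h00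
  · exact h01
  · exact h10
  · exact h11

theorem sigma_zero (σ : Submodule ℂ Isp) (hg : Ginv σ) (h : ∀ f ∈ σ, f (pt 0 0) 0 0 2 = 0) :
    σ = ⊥ := by
  rw [Submodule.eq_bot_iff]
  intro f hf
  ext x a b i
  by_cases hx : x ∈ Om
  · exact sigmazero_cov f (fun y hy k => sigmazero_zz hg h hf y hy k) x hx a b i
  · rw [(isI f).zero_off x hx]
    rfl

end SoCo
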