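import Pool.Agent.H.MP_0f3f77_al.ValueZero
import Pool.Agent.H.MP_0f3f77_al.SigmaZero

/-!
A closed `GL_4`-invariant subspace on which `cc ν 1` vanishes is zero.

`curl_int`, proof.  Let `B = !![ξ.2/ν, -ξ.1/ν; ξ.1/ν, ξ.2/ν]` (rows), `det B = (ξ.1^2+ξ.2^2)/ν^2`,
and `g = diag(1, B, 1)` (block in the coordinates 1, 2).  For `k = 1, 2`,
`sl (act g f) 0 0 1 p = ∑_{k=1,2} (B⁻¹)_{k1} sl f 0 0 k (B⁻¹ p)` (first index row; the entries
`(B⁻¹)_{11} = (ξ.2/ν)/det B`, `(B⁻¹)_{21} = -(ξ.1/ν)/det B`).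
`cc ν 1 (act g f) = ∫ sl (act g f) 0 0 1 p e^{iν p.2} dp` (`Lf_eq`, `sl_sy`), and the substitution
`p = B w` gives `|det B| ∫ ∑_k (B⁻¹)_{k1} sl f 0 0 k w e^{i ξ·w} dw` because `ν (B w).2 = ξ·w`.

`curl_zero`, proof.  `φ = dz (sl f 0 0 1) - dy (sl f 0 0 2)` is in `Sy (-4)`, continuous and
integrable; integrating by parts, `∫ φ e^{iξ·p} = -i ξ.2 ∫ sl_1 e + i ξ.1 ∫ sl_2 e = 0` for
`ξ ≠ 0`, so `φ = 0` by `four_inj2`.

`value_zero`, proof.  At `x = pt 0 0 = (e_0, e_3)`, `curl_zero` reads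
`(D 2 3 f) x 0 0 1 = (D 1 3 f) x 0 0 2` for all `f ∈ σ` (`sl_D23`, `sl_D13`).  Apply it to
`D 3 1 f ∈ σ` (`opg_mem` with `exists_opg`).  `D23 D31 = D31 D23 + D21`,
`D13 D31 = D31 D13 + D11 - D33`
(`dop_bracket`).  By `dop_app` at `x`: `lmul (Eij 3 1) x = 0`, `(D31 g) x a b i = -(g x a b 3)` if
`i = 1` and `0` otherwise, and `g x a b 3 = 0` (annihilation, `x 1 = e_3`); `lmul (Eij 2 1) x = 0`,
`(D21 f) x 0 0 1 = -f x 0 0 2`; `(D11 f) x 0 0 2 = 0`; `lmul (Eij 3 3) x = (0, x 1)`, so by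
`cov_deriv` with `B = E_11` (2 x 2), `(D33 f) x 0 0 2 = 3 f x 0 0 2`.  So
`-f x 0 0 2 = -3 f x 0 0 2`.

`sigma_zero`, proof.  For every `g`, `act g⁻¹ f ∈ σ`, so
`∑ k, g k 2 * f (lmul g x) 0 0 k = 0`.  Given `y ∈ Om` and `w` not in the span of `y 0, y 1`,
there is `g ∈ GL_4` with columns `g e_0 = y 0`, `g e_2 = w`, `g e_3 = y 1`; so
`∑ k, w k * f y 0 0 k = 0`.  For `w` in the span this holds by the annihilation property.  So
`f y 0 0 = 0` for all `y ∈ Om`.  Then `cov` for `A = !![1, 0; s, 1]` (first column `(1, s)`):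
`0 = f (rmul y A) 0 0 = f y 0 0 + 2 s f y 0 1 + s^2 f y 1 1` for all `s`, so all components vanish.
-/

open scoped Topology ContDiff
open MeasureTheory

noncomputable section

namespace SoCo

theorem cc_ne (ν : ℝ) (hν : ν ≠ 0) (σ : Submodule ℂ Isp) (hc : IsClosed (σ : Set Isp))
    (hg : Ginv σ) (h : σ ≠ ⊥) : ∃ f ∈ σ, cc ν 1 f ≠ 0 := by
  by_contra hcon
  push_neg at hcon
  exact h (sigma_zero σ hg (value_zero ν hν σ hc hg hcon))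

end SoCo
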