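import Pool.Agent.H.MP_0f3f77_al.Qdef

/-!
A closed `GL_4`-invariant subspace on which `cc ν 1` vanishes is zero.

`curl_int`, proof.  Let `B = !![ξ.2/ν, -ξ.1/ν; ξ.1/ν, ξ.2/ν]` (rows), `det B = (ξ.1^2+ξ.2^2)/ν^2`,
and `g = diag(1, B, 1)` (block in the coordinates 1, 2).  For `k = 1, 2`,
`sl (act g f) 0 0 1 p = ∑_{k=1,2} (B⁻¹)_{k1} sl f 0 0 k (B⁻¹ p)` (first index row; the entries
`(B⁻¹)_{11} = (ξ.2/ν)/det B`, `(B⁻¹)_{21} = -(ξ.1/ν)/det B`).
`cc ν 1 (act g f) = ∫ sl (act g f) 0 0 1 p e^{iν p.2} dp` (`Lf_eq`, `sl_sy`), and the substitution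
`p = B w` gives `|det B| ∫ ∑_k (B⁻¹)_{k1} sl f 0 0 k w e^{i ξ·w} dw` because `ν (B w).2 = ξ·w`.

`curl_zero`, proof.  `φ = dz (sl f 0 0 1) - dy (sl f 0 0 2)` is in `Sy (-4)`, continuous and
integrable; integrating by parts, `∫ φ e^{iξ·p} = -i ξ.2 ∫ sl_1 e + i ξ.1 ∫ sl_2 e = 0` for
`ξ ≠ 0`, so `φ = 0` by `four_inj2`.

`value_zero`, proof.  At `x = pt 0 0 = (e_0, e_3)`, `curl_zero` reads
`(D 2 3 f) x 0 0 1 = (D 1 3 f) x 0 0 2` for all `f ∈ σ` (`sl_D23`, `sl_D13`).  Apply it to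
`D 3 1 f ∈ σ` (`opg_mem` with `exists_opg`).  `D23 D31 = D31 D23 + D21`,
`D13 D31 = D31 D13 + D11 - D33`
(`dop_bracket`).  By `dop_app` at `x`: `lmul (Eij 3 1) x = 0`, `(D31 g) x a b i = -(g x a b 3)` if
`i = 1` and `0` otherwise, and `g x a b 3 = 0` (annihilation, `x 1 = e_3`); `lmul (Eij 2 1) x = 0`,
`(D21 f) x 0 0 1 = -f x 0 0 2`; `(D11 f) x 0 0 2 = 0`; `lmul (Eij 3 3) x = (0, x 1)`, so by
`cov_deriv` with `B = E_11` (2 x 2), `(D33 f) x 0 0 2 = 3 f x 0 0 2`.  So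
`-f x 0 0 2 = -3 f x 0 0 2`.

`sigma_zero`, proof.  For every `g`, `act g⁻¹ f ∈ σ`, so
`∑ k, g k 2 * f (lmul g x) 0 0 k = 0`.  Given `y ∈ Om` and `w` not in the span of `y 0, y 1`,
there is `g ∈ GL_4` with columns `g e_0 = y 0`, `g e_2 = w`, `g e_3 = y 1`; so
`∑ k, w k * f y 0 0 k = 0`.  For `w` in the span this holds by the annihilation property.  So
`f y 0 0 = 0` for all `y ∈ Om`.  Then `cov` for `A = !![1, 0; s, 1]` (first column `(1, s)`):
`0 = f (rmul y A) 0 0 = f y 0 0 + 2 s f y 0 1 + s^2 f y 1 1` for all `s`, so all components vanish.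
-/

open scoped Topology ContDiff
open MeasureTheory

noncomputable section

namespace SoCo

/-- The linear map of the plane with matrix `a * !![u.2, u.1; -u.1, u.2]`. -/
def curlint_lin (a : ℝ) (u : ℝ × ℝ) : ℝ × ℝ →ₗ[ℝ] ℝ × ℝ where
  toFun p := (a * (u.2 * p.1 + u.1 * p.2), a * (-u.1 * p.1 + u.2 * p.2))
  map_add' p q := by
    ext <;> simp <;> ring
  map_smul' c p := by
    ext <;> simp <;> ring

theorem curlint_lin_app (a : ℝ) (u p : ℝ × ℝ) : curlint_lin a u p =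
    (a * (u.2 * p.1 + u.1 * p.2), a * (-u.1 * p.1 + u.2 * p.2)) := rfl

theorem curlint_det (a : ℝ) (u : ℝ × ℝ) (ha : a ≠ 0) (hu : u.1 ^ 2 + u.2 ^ 2 ≠ 0) :
    LinearMap.det (curlint_lin a u) ≠ 0 := by
  have h1 : curlint_lin (a⁻¹ * (u.1 ^ 2 + u.2 ^ 2)⁻¹) (-u.1, u.2) ∘ₗ curlint_lin a u =
      LinearMap.id := by
    apply LinearMap.ext
    intro p
    rw [LinearMap.comp_apply, curlint_lin_app, curlint_lin_app]
    ext
    · simp only [LinearMap.id_coe, id_eq]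
      field_simp
      ring
    · simp only [LinearMap.id_coe, id_eq]
      field_simp
      ring
  intro h0
  have h2 := congrArg LinearMap.det h1
  rw [LinearMap.det_comp, h0, mul_zero, LinearMap.det_id] at h2
  exact zero_ne_one h2

theorem curlint_subst (a : ℝ) (u : ℝ × ℝ) (ha : a ≠ 0) (hu : u.1 ^ 2 + u.2 ^ 2 ≠ 0)
    (F : ℝ × ℝ → ℂ) (hF : Continuous F)
    (h : ∫ p : ℝ × ℝ, F (curlint_lin a u p) = 0) : ∫ p : ℝ × ℝ, F p = 0 := by
  have hd := curlint_det a u ha hu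
  have hc : Continuous (curlint_lin a u) := LinearMap.continuous_of_finiteDimensional _
  have h1 := MeasureTheory.integral_map (μ := (volume : Measure (ℝ × ℝ)))
    (φ := curlint_lin a u) hc.measurable.aemeasurable (f := F)
    hF.aestronglyMeasurable
  rw [h, Measure.map_linearMap_addHaar_eq_smul_addHaar _ hd, integral_smul_measure] at h1
  have h2 : (ENNReal.ofReal |(LinearMap.det (curlint_lin a u))⁻¹|).toReal ≠ 0 := by
    rw [ENNReal.toReal_ofReal (abs_nonneg _)]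
    exact abs_ne_zero.mpr (inv_ne_zero hd)
  exact (smul_eq_zero.mp h1).resolve_left h2

/-- The matrix `diag(1, a * !![u.2, u.1; -u.1, u.2], 1)`. -/
def curlint_mat (a : ℝ) (u : ℝ × ℝ) : Mat :=
  !![1, 0, 0, 0; 0, a * u.2, a * u.1, 0; 0, a * (-u.1), a * u.2, 0; 0, 0, 0, 1]

theorem curlint_mat_unit (a : ℝ) (u : ℝ × ℝ) (ha : a ≠ 0) (hu : u.1 ^ 2 + u.2 ^ 2 ≠ 0) :
    ∃ g : GL (Fin 4) ℝ, ((g⁻¹ : GL (Fin 4) ℝ) : Mat) = curlint_mat a u := by
  have h1 : curlint_mat a u * curlint_mat (a⁻¹ * (u.1 ^ 2 + u.2 ^ 2)⁻¹) (-u.1, u.2) = 1 := by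
    ext i j
    fin_cases i <;> fin_cases j <;>
      simp [curlint_mat, Matrix.mul_apply, Fin.sum_univ_four] <;> field_simp <;> ring
  refine ⟨(Matrix.GeneralLinearGroup.mkOfDetNeZero (curlint_mat a u) ?_)⁻¹, ?_⟩
  · intro h0
    have h2 := congrArg Matrix.det h1
    rw [Matrix.det_mul, h0, zero_mul, Matrix.det_one] at h2
    exact zero_ne_one h2
  · rw [inv_inv]
    rfl

theorem curlint_lmul (a : ℝ) (u p : ℝ × ℝ) :
    lmul (curlint_mat a u) (pt 0 p) = pt 0 (curlint_lin a u p) := by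
  funext c i
  rw [lmul_app, Fin.sum_univ_four, curlint_lin_app]
  fin_cases c <;> fin_cases i <;> simp [curlint_mat, pt] <;> ring

theorem curlint_act (a : ℝ) (u : ℝ × ℝ) (g : GL (Fin 4) ℝ)
    (hg : ((g⁻¹ : GL (Fin 4) ℝ) : Mat) = curlint_mat a u) (f : Isp) (p : ℝ × ℝ) :
    sl (act g f) 0 0 1 p = (a : ℂ) * ((u.2 : ℂ) * sl f 0 0 1 (curlint_lin a u p) -
      (u.1 : ℂ) * sl f 0 0 2 (curlint_lin a u p)) := by
  have h : sl (act g f) 0 0 1 p = act g f (pt 0 p) 0 0 1 := rfl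
  rw [h, act_app, hg, curlint_lmul, Fin.sum_univ_four]
  simp only [sl]
  simp [curlint_mat]
  ring

theorem curlint_sl (f : Isp) (k : Fin 4) : Sy (-3) (sl f 0 0 k) := by
  have h := sl_sy f 0 0 k
  simpa using h

theorem curlint_econt (u : ℝ × ℝ) :
    Continuous (fun p : ℝ × ℝ => Complex.exp (Complex.I * (u.1 * p.1 + u.2 * p.2))) := by
  fun_prop

theorem curlint_enorm (u p : ℝ × ℝ) :
    ‖Complex.exp (Complex.I * (u.1 * p.1 + u.2 * p.2))‖ = 1 := by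
  have h : Complex.I * (u.1 * p.1 + u.2 * p.2) = ((u.1 * p.1 + u.2 * p.2 : ℝ) : ℂ) * Complex.I := by
    push_cast
    ring
  rw [h, Complex.norm_exp_ofReal_mul_I]

theorem curlint_integrable (f : Isp) (k : Fin 4) (u : ℝ × ℝ) :
    Integrable (fun p : ℝ × ℝ => sl f 0 0 k p *
      Complex.exp (Complex.I * (u.1 * p.1 + u.2 * p.2))) := by
  refine (curlint_sl f k).integrable.mul_bdd (c := 1)
    (curlint_econt u).aestronglyMeasurable ?_
  exact Filter.Eventually.of_forall fun p => (curlint_enorm u p).le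

theorem curlint_cc (ν : ℝ) (hν : ν ≠ 0) (f : Isp) :
    cc ν 1 f = ∫ p : ℝ × ℝ, sl f 0 0 1 p * Complex.exp (Complex.I * ν * p.2) := by
  rw [cc_eq, La_eq, Lf_eq ν hν (curlint_sl f 1)]

theorem curl_int (ν : ℝ) (hν : ν ≠ 0) (f : Isp) (h : ∀ g, cc ν 1 (act g f) = 0) (ξ : ℝ × ℝ)
    (hξ : ξ ≠ 0) :
    (ξ.2 : ℂ) * (∫ p : ℝ × ℝ, sl f 0 0 1 p *
      Complex.exp (Complex.I * (ξ.1 * p.1 + ξ.2 * p.2))) =
    (ξ.1 : ℂ) * (∫ p : ℝ × ℝ, sl f 0 0 2 p *
      Complex.exp (Complex.I * (ξ.1 * p.1 + ξ.2 * p.2))) := by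
  have hu : ξ.1 ^ 2 + ξ.2 ^ 2 ≠ 0 := by
    intro h0
    apply hξ
    have h1 : ξ.1 = 0 := by nlinarith [sq_nonneg ξ.1, sq_nonneg ξ.2]
    have h2 : ξ.2 = 0 := by nlinarith [sq_nonneg ξ.1, sq_nonneg ξ.2]
    exact Prod.ext h1 h2
  set a : ℝ := ν / (ξ.1 ^ 2 + ξ.2 ^ 2) with ha
  have ha0 : a ≠ 0 := div_ne_zero hν hu
  have haν : a * (ξ.1 ^ 2 + ξ.2 ^ 2) = ν := by rw [ha]; field_simp
  obtain ⟨g, hg⟩ := curlint_mat_unit a ξ ha0 hu
  set F : ℝ × ℝ → ℂ := fun p => (ξ.2 : ℂ) * (sl f 0 0 1 p *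
      Complex.exp (Complex.I * (ξ.1 * p.1 + ξ.2 * p.2))) -
    (ξ.1 : ℂ) * (sl f 0 0 2 p *
      Complex.exp (Complex.I * (ξ.1 * p.1 + ξ.2 * p.2))) with hFdef
  have hFc : Continuous F := by
    have e := curlint_econt ξ
    have s1 := (curlint_sl f 1).smooth.continuous
    have s2 := (curlint_sl f 2).smooth.continuous
    exact (continuous_const.mul (s1.mul e)).sub (continuous_const.mul (s2.mul e))
  have hF0 : ∫ p : ℝ × ℝ, F (curlint_lin a ξ p) = 0 := by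
    have h1 := h g
    rw [curlint_cc ν hν] at h1
    have h2 : (fun p : ℝ × ℝ => sl (act g f) 0 0 1 p * Complex.exp (Complex.I * ν * p.2)) =
        fun p => (a : ℂ) * F (curlint_lin a ξ p) := by
      funext p
      rw [curlint_act a ξ g hg f p]
      have h3 : Complex.I * (ξ.1 * (curlint_lin a ξ p).1 + ξ.2 * (curlint_lin a ξ p).2) =
          Complex.I * ν * p.2 := by
        rw [curlint_lin_app, ← haν]
        push_cast
        ring
      simp only [hFdef]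
      rw [h3]
      ring
    rw [h2, integral_const_mul] at h1
    have h4 : (a : ℂ) ≠ 0 := by exact_mod_cast ha0
    exact (mul_eq_zero.mp h1).resolve_left h4
  have hF := curlint_subst a ξ ha0 hu F hFc hF0
  simp only [hFdef] at hF
  rw [integral_sub ((curlint_integrable f 1 ξ).const_mul _)
    ((curlint_integrable f 2 ξ).const_mul _), integral_const_mul, integral_const_mul] at hF
  exact sub_eq_zero.mp hF

end SoCo
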