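import Mathlib

/-!
Fourier inversion on the line, the plane and `ℝ × ℝ × ℝ`, with the normalization `e^{i ξ·u}`.

Proofs.  Transfer to `EuclideanSpace ℝ (Fin n)` by the volume preserving equivalence
(`EuclideanSpace.volume_preserving_measurableEquiv` / `EuclideanSpace.volume_preserving_symm...`
and `MeasurableEquiv.finTwoArrow` etc., `volume_preserving_finTwoArrow`), and use
`MeasureTheory.Integrable.fourierInv_fourier_eq` (or `Continuous.fourierInv_fourier_eq`) after the
substitution `ξ → 2π ξ`; or iterate the one-dimensional statement.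
`four1`: `∫_u e^{-iτu} ... `: directly from Fourier inversion on `ℝ`.
`four_inj2`: the Fourier transform of `φ` vanishes outside `0`, hence everywhere (it is
continuous, or: almost everywhere), so it is integrable and inversion gives `φ = 0`.
-/

open scoped Topology ContDiff
open MeasureTheory

noncomputable section

namespace SoCo

open scoped FourierTransform RealInnerProductSpace in
/-- inversion on a Euclidean space -/
theorem four2_gen {V : Type*} [NormedAddCommGroup V] [InnerProductSpace ℝ V] [MeasurableSpace V]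
    [BorelSpace V] [FiniteDimensional ℝ V] (φ : V → ℂ) (hc : Continuous φ) (hi : Integrable φ)
    (hk : Integrable (fun u : V => ∫ η : V, Complex.exp (-(Complex.I * ((⟪η, u⟫ : ℝ) : ℂ))) * φ η))
    (ξ : V) :
    ∫ u : V, Complex.exp (Complex.I * ((⟪ξ, u⟫ : ℝ) : ℂ)) *
      (∫ η : V, Complex.exp (-(Complex.I * ((⟪η, u⟫ : ℝ) : ℂ))) * φ η) =
      (2 * Real.pi) ^ (Module.finrank ℝ V) * φ ξ := by
  have hpi : (2 * Real.pi : ℝ) ≠ 0 := by positivity
  have h1 : ∀ w : V, 𝓕 φ w =
      ∫ η : V, Complex.exp (-(Complex.I * ((⟪η, (2 * Real.pi) • w⟫ : ℝ) : ℂ))) * φ η := by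
    intro w
    rw [Real.fourier_eq']
    refine integral_congr_ae (Filter.Eventually.of_forall fun v => ?_)
    show Complex.exp ((((-2 * Real.pi * ⟪v, w⟫ : ℝ)) : ℂ) * Complex.I) • φ v =
      Complex.exp (-(Complex.I * ((⟪v, (2 * Real.pi) • w⟫ : ℝ) : ℂ))) * φ v
    rw [smul_eq_mul, real_inner_smul_right]
    congr 2
    push_cast
    ring
  have h2 : Integrable (𝓕 φ) := by
    have h3 := (integrable_comp_smul_iff volume
      (fun u : V => ∫ η : V, Complex.exp (-(Complex.I * ((⟪η, u⟫ : ℝ) : ℂ))) * φ η) hpi).2 hk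
    refine h3.congr (Filter.Eventually.of_forall fun w => ?_)
    exact (h1 w).symm
  have h4 := congrFun (hc.fourierInv_fourier_eq hi h2) ξ
  rw [Real.fourierInv_eq'] at h4
  have h5 : ∫ w : V, Complex.exp ((((2 * Real.pi * ⟪w, ξ⟫ : ℝ)) : ℂ) * Complex.I) • 𝓕 φ w =
      ∫ w : V, (fun u : V => Complex.exp (Complex.I * ((⟪ξ, u⟫ : ℝ) : ℂ)) *
        (∫ η : V, Complex.exp (-(Complex.I * ((⟪η, u⟫ : ℝ) : ℂ))) * φ η)) ((2 * Real.pi) • w) := by
    refine integral_congr_ae (Filter.Eventually.of_forall fun w => ?_)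
    show Complex.exp ((((2 * Real.pi * ⟪w, ξ⟫ : ℝ)) : ℂ) * Complex.I) • 𝓕 φ w =
      Complex.exp (Complex.I * ((⟪ξ, (2 * Real.pi) • w⟫ : ℝ) : ℂ)) *
        (∫ η : V, Complex.exp (-(Complex.I * ((⟪η, (2 * Real.pi) • w⟫ : ℝ) : ℂ))) * φ η)
    rw [h1 w, smul_eq_mul]
    congr 2
    rw [real_inner_smul_right, real_inner_comm]
    push_cast
    ring
  rw [h5, Measure.integral_comp_smul volume (fun u : V => Complex.exp (Complex.I * ((⟪ξ, u⟫ : ℝ) : ℂ)) *
        (∫ η : V, Complex.exp (-(Complex.I * ((⟪η, u⟫ : ℝ) : ℂ))) * φ η)) (2 * Real.pi)] at h4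
  have h6 : |((2 * Real.pi : ℝ) ^ Module.finrank ℝ V)⁻¹| = ((2 * Real.pi : ℝ) ^ Module.finrank ℝ V)⁻¹ :=
    abs_of_nonneg (by positivity)
  rw [h6] at h4
  rw [← h4, Complex.real_smul]
  have h7 : ((2 : ℂ) * (Real.pi : ℂ)) ^ Module.finrank ℝ V ≠ 0 := by
    apply pow_ne_zero
    exact_mod_cast hpi
  push_cast
  field_simp

theorem four1 (φ : ℝ → ℂ) (hc : Continuous φ) (hi : Integrable φ)
    (hk : Integrable (fun u : ℝ => ∫ τ : ℝ, Complex.exp (-(Complex.I * τ * u)) * φ τ)) :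
    ∫ u : ℝ, (∫ τ : ℝ, Complex.exp (-(Complex.I * τ * u)) * φ τ) = 2 * Real.pi * φ 0 := by
  have hin : ∀ x y : ℝ, ((inner ℝ x y : ℝ) : ℂ) = (x : ℂ) * (y : ℂ) := by
    intro x y
    show ((y * x : ℝ) : ℂ) = _
    push_cast
    ring
  have e1 : ∀ u : ℝ, (∫ τ : ℝ, Complex.exp (-(Complex.I * ((inner ℝ τ u : ℝ) : ℂ))) * φ τ) =
      ∫ τ : ℝ, Complex.exp (-(Complex.I * τ * u)) * φ τ := by
    intro u
    refine integral_congr_ae (Filter.Eventually.of_forall fun τ => ?_)
    show Complex.exp (-(Complex.I * ((inner ℝ τ u : ℝ) : ℂ))) * φ τ =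
      Complex.exp (-(Complex.I * τ * u)) * φ τ
    rw [hin, mul_assoc]
  have h := four2_gen φ hc hi (hk.congr (Filter.Eventually.of_forall fun u => (e1 u).symm)) 0
  rw [Module.finrank_self, pow_one] at h
  rw [← h]
  refine integral_congr_ae (Filter.Eventually.of_forall fun u => ?_)
  show (∫ τ : ℝ, Complex.exp (-(Complex.I * τ * u)) * φ τ) =
    Complex.exp (Complex.I * ((inner ℝ (0 : ℝ) u : ℝ) : ℂ)) *
      (∫ τ : ℝ, Complex.exp (-(Complex.I * ((inner ℝ τ u : ℝ) : ℂ))) * φ τ)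
  rw [e1, inner_zero_left]
  simp

/-- coordinates on the Euclidean plane -/
def four2_e : WithLp 2 (ℝ × ℝ) → ℝ × ℝ := fun x => (x.fst, x.snd)

def four2_h : WithLp 2 (ℝ × ℝ) ≃ₜ ℝ × ℝ where
  toFun := four2_e
  invFun := fun p => WithLp.toLp 2 p
  left_inv := fun _ => rfl
  right_inv := fun _ => rfl
  continuous_toFun := by
    unfold four2_e
    fun_prop
  continuous_invFun := by
    fun_prop

theorem four2_mp : MeasurePreserving four2_e := WithLp.volume_preserving_ofLp ℝ ℝ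

open scoped FourierTransform in
theorem four_inj2 (φ : ℝ × ℝ → ℂ) (hc : Continuous φ) (hi : Integrable φ)
    (h : ∀ ξ : ℝ × ℝ, ξ ≠ 0 →
      ∫ p : ℝ × ℝ, φ p * Complex.exp (Complex.I * (ξ.1 * p.1 + ξ.2 * p.2)) = 0) : φ = 0 := by
  have hemb : MeasurableEmbedding four2_e := four2_h.measurableEmbedding
  have hpi : (2 * Real.pi : ℝ) ≠ 0 := by positivity
  have hc' : Continuous (φ ∘ four2_e) := hc.comp four2_h.continuous
  have hi' : Integrable (φ ∘ four2_e) := (four2_mp.integrable_comp_emb hemb).2 hi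
  have h0 : ∀ w : WithLp 2 (ℝ × ℝ), w ≠ 0 → 𝓕 (φ ∘ four2_e) w = 0 := by
    intro w hw
    have hξ : ((-(2 * Real.pi) * w.fst, -(2 * Real.pi) * w.snd) : ℝ × ℝ) ≠ 0 := by
      intro hz
      apply hw
      have h1 : -(2 * Real.pi) * w.fst = 0 := congrArg Prod.fst hz
      have h2 : -(2 * Real.pi) * w.snd = 0 := congrArg Prod.snd hz
      have h3 : w.fst = 0 := by
        rcases mul_eq_zero.1 h1 with h4 | h4
        · exact absurd (neg_eq_zero.1 h4) hpi
        · exact h4
      have h5 : w.snd = 0 := by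
        rcases mul_eq_zero.1 h2 with h4 | h4
        · exact absurd (neg_eq_zero.1 h4) hpi
        · exact h4
      have h6 : four2_e w = four2_e 0 := Prod.ext h3 h5
      exact four2_h.injective h6
    have h1 := h _ hξ
    rw [← four2_mp.integral_comp hemb] at h1
    rw [Real.fourier_eq', ← h1]
    refine integral_congr_ae (Filter.Eventually.of_forall fun v => ?_)
    show Complex.exp ((((-2 * Real.pi * inner ℝ v w : ℝ)) : ℂ) * Complex.I) • φ (four2_e v) =
      φ (four2_e v) * Complex.exp (Complex.I * (((-(2 * Real.pi) * w.fst : ℝ) : ℂ) * ((v.fst : ℝ) : ℂ)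
        + ((-(2 * Real.pi) * w.snd : ℝ) : ℂ) * ((v.snd : ℝ) : ℂ)))
    rw [smul_eq_mul, mul_comm, WithLp.prod_inner_apply]
    congr 2
    show (((-2 * Real.pi * (w.fst * v.fst + w.snd * v.snd) : ℝ)) : ℂ) * Complex.I = _
    push_cast
    ring
  have hae : 𝓕 (φ ∘ four2_e) =ᵐ[volume] fun _ => (0 : ℂ) := by
    have : ({0}ᶜ : Set (WithLp 2 (ℝ × ℝ))) ∈ ae (volume : Measure (WithLp 2 (ℝ × ℝ))) := by
      rw [compl_mem_ae_iff]
      exact measure_singleton 0
    filter_upwards [this] with w hw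
    exact h0 w hw
  have hint : Integrable (𝓕 (φ ∘ four2_e)) := (integrable_zero _ _ _).congr hae.symm
  have hinv := hc'.fourierInv_fourier_eq hi' hint
  have hz : φ ∘ four2_e = 0 := by
    rw [← hinv]
    funext v
    rw [Real.fourierInv_eq']
    have h2 : ∫ w : WithLp 2 (ℝ × ℝ), Complex.exp ((((2 * Real.pi * inner ℝ w v : ℝ)) : ℂ) *
        Complex.I) • 𝓕 (φ ∘ four2_e) w = ∫ w : WithLp 2 (ℝ × ℝ), (0 : ℂ) := by
      refine integral_congr_ae ?_
      filter_upwards [hae] with w hw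
      rw [hw, smul_zero]
    rw [h2, integral_zero]
    rfl
  funext p
  have h3 := congrFun hz (four2_h.symm p)
  have h4 : four2_e (four2_h.symm p) = p := four2_h.apply_symm_apply p
  show φ p = 0
  rw [← h4]
  exact h3

end SoCo
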