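import Pool.Agent.H.MP_0f3f77_al.CurlInt
import Pool.Agent.H.MP_0f3f77_al.Four2

/-!
A closed `GL_4`-invariant subspace on which `cc ν 1` vanishes is zero.

`curl_int`, proof.  Let `B = !![ξ.2/ν, -ξ.1/ν; ξ.1/ν, ξ.2/ν]` (rows), `det B = (ξ.1^2+ξ.2^2)/ν^2`,
and `g = diag(1, B, 1)` (block in the coordinates 1, 2).  For `k = 1, 2`,
`sl (act g f) 0 0 1 p = ∑_{k=1,2} (B⁻¹)_{k1} sl f 0 0 k (B⁻¹ p)` (first index row; the entries
`(B⁻¹)_{11} = (ξ.2/ν)/det B`, `(B⁻¹)_{21} = -(ξ.1/ν)/det B`).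
`cc ν 1 (act g f) = ∫ sl (act g f) 0 0 1 p e^{iν p.2} dp` (`Lf_eq`, `sl_sy`), and the substitution
`p = B w` gives `|det B| ∫ ∑_k (B⁻¹)_{k1} sl f 0 0 k w e^{i ξ·w} dw` because `ν (B w).2 = ξ·w`.

`curl_zero`, proof.  `φ = dz (sl f 0 0 1) - dy (sl f 0 0 2)` is in `Sy (-4)`, continuous and
integrable; integrating by parts, `∫ φ e^{iξ·p} = -i ξ.2 ∫ sl_1 e + i ξ.1 ∫ sl_2 e = 0` for
`ξ ≠ 0`, so `φ = 0` by `four_inj2`.

`value_zero`, proof.  At `x = pt 0 0 = (e_0, e_3)`, `curl_zero` reads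
`(D 2 3 f) x 0 0 1 = (D 1 3 f) x 0 0 2` for all `f ∈ σ` (`sl_D23`, `sl_D13`).  Apply it to
`D 3 1 f ∈ σ` (`opg_mem` with `exists_opg`).  `D23 D31 = D31 D23 + D21`,
`D13 D31 = D31 D13 + D11 - D33`
(`dop_bracket`).  By `dop_app` at `x`: `lmul (Eij 3 1) x = 0`, `(D31 g) x a b i = -(g x a b 3)` if
`i = 1` and `0` otherwise, and `g x a b 3 = 0` (annihilation, `x 1 = e_3`); `lmul (Eij 2 1) x = 0`,
`(D21 f) x 0 0 1 = -f x 0 0 2`; `(D11 f) x 0 0 2 = 0`; `lmul (Eij 3 3) x = (0, x 1)`, so by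
`cov_deriv` with `B = E_11` (2 x 2), `(D33 f) x 0 0 2 = 3 f x 0 0 2`.  So
`-f x 0 0 2 = -3 f x 0 0 2`.

`sigma_zero`, proof.  For every `g`, `act g⁻¹ f ∈ σ`, so
`∑ k, g k 2 * f (lmul g x) 0 0 k = 0`.  Given `y ∈ Om` and `w` not in the span of `y 0, y 1`,
there is `g ∈ GL_4` with columns `g e_0 = y 0`, `g e_2 = w`, `g e_3 = y 1`; so
`∑ k, w k * f y 0 0 k = 0`.  For `w` in the span this holds by the annihilation property.  So
`f y 0 0 = 0` for all `y ∈ Om`.  Then `cov` for `A = !![1, 0; s, 1]` (first column `(1, s)`):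
`0 = f (rmul y A) 0 0 = f y 0 0 + 2 s f y 0 1 + s^2 f y 1 1` for all `s`, so all components vanish.
-/

open scoped Topology ContDiff
open MeasureTheory

noncomputable section

namespace SoCo

/-- The phase. -/
def curlzero_e (ξ : ℝ × ℝ) : ℝ × ℝ → ℂ := fun p =>
  Complex.exp (Complex.I * (ξ.1 * p.1 + ξ.2 * p.2))

theorem curlzero_norm_e (ξ p : ℝ × ℝ) : ‖curlzero_e ξ p‖ = 1 := by
  unfold curlzero_e
  have : Complex.I * (ξ.1 * p.1 + ξ.2 * p.2) = ((ξ.1 * p.1 + ξ.2 * p.2 : ℝ) : ℂ) * Complex.I := by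
    push_cast; ring
  rw [this, Complex.norm_exp_ofReal_mul_I]

theorem curlzero_hasFDerivAt_e (ξ p : ℝ × ℝ) :
    HasFDerivAt (curlzero_e ξ) (curlzero_e ξ p • (Complex.I •
      ((ξ.1 : ℂ) • (Complex.ofRealCLM.comp (ContinuousLinearMap.fst ℝ ℝ ℝ)) +
       (ξ.2 : ℂ) • (Complex.ofRealCLM.comp (ContinuousLinearMap.snd ℝ ℝ ℝ))))) p := by
  have h1 : HasFDerivAt (fun p : ℝ × ℝ => ((p.1 : ℝ) : ℂ))
      (Complex.ofRealCLM.comp (ContinuousLinearMap.fst ℝ ℝ ℝ)) p :=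
    (Complex.ofRealCLM.comp (ContinuousLinearMap.fst ℝ ℝ ℝ)).hasFDerivAt
  have h2 : HasFDerivAt (fun p : ℝ × ℝ => ((p.2 : ℝ) : ℂ))
      (Complex.ofRealCLM.comp (ContinuousLinearMap.snd ℝ ℝ ℝ)) p :=
    (Complex.ofRealCLM.comp (ContinuousLinearMap.snd ℝ ℝ ℝ)).hasFDerivAt
  exact (((h1.const_mul (ξ.1 : ℂ)).add (h2.const_mul (ξ.2 : ℂ))).const_mul Complex.I).cexp

theorem curlzero_fderiv_e (ξ p v : ℝ × ℝ) :
    fderiv ℝ (curlzero_e ξ) p v = Complex.I * (ξ.1 * v.1 + ξ.2 * v.2) * curlzero_e ξ p := by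
  rw [(curlzero_hasFDerivAt_e ξ p).fderiv]
  simp
  ring

theorem curlzero_continuous_e (ξ : ℝ × ℝ) : Continuous (curlzero_e ξ) := by
  unfold curlzero_e
  fun_prop

theorem curlzero_integrable_e (ξ : ℝ × ℝ) {φ : ℝ × ℝ → ℂ} (h : Integrable φ) :
    Integrable (fun p => curlzero_e ξ p * φ p) := by
  refine h.bdd_mul (c := 1) (curlzero_continuous_e ξ).aestronglyMeasurable ?_
  exact Filter.Eventually.of_forall fun p => (curlzero_norm_e ξ p).le

/-- Integration by parts in the direction `v`. -/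
theorem curlzero_parts (ξ v : ℝ × ℝ) {ψ : ℝ × ℝ → ℂ} (h : Sy (-3) ψ)
    (hi' : Integrable (fun p => fderiv ℝ ψ p v)) :
    ∫ p : ℝ × ℝ, curlzero_e ξ p * fderiv ℝ ψ p v
      = -(Complex.I * (ξ.1 * v.1 + ξ.2 * v.2)) * ∫ p : ℝ × ℝ, ψ p * curlzero_e ξ p := by
  have hi := h.integrable
  have key := integral_mul_fderiv_eq_neg_fderiv_mul_of_integrable (μ := (volume : Measure (ℝ × ℝ)))
    (f := curlzero_e ξ) (g := ψ) (v := v)
    (by
      simp only [curlzero_fderiv_e]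
      have := (curlzero_integrable_e ξ hi).const_mul (Complex.I * (ξ.1 * v.1 + ξ.2 * v.2))
      simpa only [mul_assoc] using this)
    (curlzero_integrable_e ξ hi') (curlzero_integrable_e ξ hi)
    (fun x _ => (curlzero_hasFDerivAt_e ξ x).differentiableAt)
    (fun x _ => (h.smooth.differentiable (by simp)) x)
  have e2 : ∀ p : ℝ × ℝ, fderiv ℝ (curlzero_e ξ) p v * ψ p
      = (Complex.I * (ξ.1 * v.1 + ξ.2 * v.2)) * (ψ p * curlzero_e ξ p) := by
    intro p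
    rw [curlzero_fderiv_e]
    ring
  rw [key]
  simp only [e2]
  rw [integral_const_mul]
  ring

theorem curl_zero (ν : ℝ) (hν : ν ≠ 0) (f : Isp) (h : ∀ g, cc ν 1 (act g f) = 0) :
    dz (sl f 0 0 1) = dy (sl f 0 0 2) := by
  have h1 : Sy (-3) (sl f 0 0 1) := by
    have := sl_sy f 0 0 1
    simpa using this
  have h2 : Sy (-3) (sl f 0 0 2) := by
    have := sl_sy f 0 0 2
    simpa using this
  have hz : Sy (-3) (dz (sl f 0 0 1)) := h1.der_z.mono (by norm_num)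
  have hy : Sy (-3) (dy (sl f 0 0 2)) := h2.der_y.mono (by norm_num)
  have hφ : (fun p => dz (sl f 0 0 1) p - dy (sl f 0 0 2) p) = 0 := by
    refine four_inj2 _ (hz.smooth.continuous.sub hy.smooth.continuous)
      (hz.integrable.sub hy.integrable) ?_
    intro ξ hξ
    have hc := curl_int ν hν f h ξ hξ
    have p1 := curlzero_parts ξ (0, 1) h1 hz.integrable
    have p2 := curlzero_parts ξ (1, 0) h2 hy.integrable
    have e1 : (∫ p : ℝ × ℝ, sl f 0 0 1 p * curlzero_e ξ p) = ∫ p : ℝ × ℝ, sl f 0 0 1 p *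
      Complex.exp (Complex.I * (ξ.1 * p.1 + ξ.2 * p.2)) := rfl
    have e2 : (∫ p : ℝ × ℝ, sl f 0 0 2 p * curlzero_e ξ p) = ∫ p : ℝ × ℝ, sl f 0 0 2 p *
      Complex.exp (Complex.I * (ξ.1 * p.1 + ξ.2 * p.2)) := rfl
    rw [← e1, ← e2] at hc
    have e3 : ∀ p : ℝ × ℝ, (dz (sl f 0 0 1) p - dy (sl f 0 0 2) p) *
        Complex.exp (Complex.I * (ξ.1 * p.1 + ξ.2 * p.2)) =
        curlzero_e ξ p * fderiv ℝ (sl f 0 0 1) p (0, 1) -
          curlzero_e ξ p * fderiv ℝ (sl f 0 0 2) p (1, 0) := by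
      intro p
      simp only [dz, dy, curlzero_e]
      ring
    simp only [e3]
    have i1 : Integrable (fun p => curlzero_e ξ p * fderiv ℝ (sl f 0 0 1) p (0, 1)) :=
      curlzero_integrable_e ξ hz.integrable
    have i2 : Integrable (fun p => curlzero_e ξ p * fderiv ℝ (sl f 0 0 2) p (1, 0)) :=
      curlzero_integrable_e ξ hy.integrable
    rw [integral_sub i1 i2, p1, p2]
    simp only [Complex.ofReal_zero, Complex.ofReal_one, mul_zero, mul_one, zero_add, add_zero]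
    linear_combination (-Complex.I) * hc
  funext p
  have := congrFun hφ p
  simp only [Pi.zero_apply] at this
  exact sub_eq_zero.1 this

end SoCo
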