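import Mathlib

/-!
General definitions for MP_0f3f77: representations of `GL_n(R)` and of its mirabolic
subgroups on topological vector spaces, the functors Psi and Phi, derivatives,
Casselman-Wallach representations, socle and co-socle filtrations.
-/

open scoped Topology
open Filter

noncomputable section

namespace SoCo

/-- A representation of the group `G` by continuous linear operators on a complex
topological vector space `V`. -/
structure TRep (G : Type) [Group G] where
  V : Type
  [grp : AddCommGroup V]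
  [mod : Module ℂ V]
  [top : TopologicalSpace V]
  [tag : IsTopologicalAddGroup V]
  [csm : ContinuousSMul ℂ V]
  act : G →* (V →L[ℂ] V)

attribute [instance] TRep.grp TRep.mod TRep.top TRep.tag TRep.csm

/-- `w` is the derivative at `0` of the curve `c`. -/
def DerZero {V : Type} [AddCommGroup V] [Module ℂ V] [TopologicalSpace V]
    (c : ℝ → V) (w : V) : Prop :=
  Tendsto (fun t : ℝ => ((t⁻¹ : ℝ) : ℂ) • (c t - c 0)) (𝓝[≠] 0) (𝓝 w)

/-- The mirabolic subgroup of `GL_{m+1}(R)`: last row `(0,...,0,1)`. -/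
def Mir (m : ℕ) : Subgroup (GL (Fin (m + 1)) ℝ) where
  carrier := {g | ∀ j, (g : Matrix (Fin (m + 1)) (Fin (m + 1)) ℝ) (Fin.last m) j =
    (1 : Matrix (Fin (m + 1)) (Fin (m + 1)) ℝ) (Fin.last m) j}
  mul_mem' := by
    intro a b ha hb j
    simp only [Set.mem_ofPred_eq] at ha hb ⊢
    rw [Units.val_mul, Matrix.mul_apply]
    simp only [ha, Matrix.one_apply]
    simp [hb, Matrix.one_apply]
  one_mem' := by intro j; rfl
  inv_mem' := by
    intro a ha j
    simp only [Set.mem_ofPred_eq] at ha ⊢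
    have h : ((a : Matrix (Fin (m + 1)) (Fin (m + 1)) ℝ) *
        ((a⁻¹ : GL (Fin (m + 1)) ℝ) : Matrix (Fin (m + 1)) (Fin (m + 1)) ℝ)) (Fin.last m) j =
        (1 : Matrix (Fin (m + 1)) (Fin (m + 1)) ℝ) (Fin.last m) j := by
      rw [← Units.val_mul, mul_inv_cancel, Units.val_one]
    rw [Matrix.mul_apply] at h
    simpa [ha, Matrix.one_apply] using h

/-- The matrix `diag(h, 1)`. -/
def diagOne {m : ℕ} (h : Matrix (Fin m) (Fin m) ℝ) : Matrix (Fin (m + 1)) (Fin (m + 1)) ℝ :=
  fun i j => Fin.lastCases (motive := fun _ => ℝ)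
    (Fin.lastCases (motive := fun _ => ℝ) 1 (fun _ => 0) j)
    (fun i' => Fin.lastCases (motive := fun _ => ℝ) 0 (fun j' => h i' j') j) i

@[simp] theorem diagOne_cc {m : ℕ} (h : Matrix (Fin m) (Fin m) ℝ) (i j : Fin m) :
    diagOne h i.castSucc j.castSucc = h i j := by simp [diagOne]
@[simp] theorem diagOne_cl {m : ℕ} (h : Matrix (Fin m) (Fin m) ℝ) (i : Fin m) :
    diagOne h i.castSucc (Fin.last m) = 0 := by simp [diagOne]
@[simp] theorem diagOne_lc {m : ℕ} (h : Matrix (Fin m) (Fin m) ℝ) (j : Fin m) :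
    diagOne h (Fin.last m) j.castSucc = 0 := by simp [diagOne]
@[simp] theorem diagOne_ll {m : ℕ} (h : Matrix (Fin m) (Fin m) ℝ) :
    diagOne h (Fin.last m) (Fin.last m) = 1 := by simp [diagOne]

theorem diagOne_mul {m : ℕ} (g h : Matrix (Fin m) (Fin m) ℝ) :
    diagOne (g * h) = diagOne g * diagOne h := by
  ext i j
  rw [Matrix.mul_apply, Fin.sum_univ_castSucc]
  refine Fin.lastCases ?_ (fun i => ?_) i <;> refine Fin.lastCases ?_ (fun j => ?_) j <;>
    simp [Matrix.mul_apply]

theorem diagOne_one {m : ℕ} : diagOne (1 : Matrix (Fin m) (Fin m) ℝ) = 1 := by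
  ext i j
  refine Fin.lastCases ?_ (fun i => ?_) i <;> refine Fin.lastCases ?_ (fun j => ?_) j <;>
    simp [Matrix.one_apply, Fin.ext_iff, Fin.val_last]
  all_goals omega

/-- The embedding of `GL_m` in the mirabolic subgroup of `GL_{m+1}`, `h ↦ diag(h,1)`. -/
def emb (m : ℕ) : GL (Fin m) ℝ →* Mir m where
  toFun h := ⟨⟨diagOne h, diagOne (h⁻¹ : GL (Fin m) ℝ),
      by rw [← diagOne_mul, ← Units.val_mul, mul_inv_cancel, Units.val_one, diagOne_one],
      by rw [← diagOne_mul, ← Units.val_mul, inv_mul_cancel, Units.val_one, diagOne_one]⟩, by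
    intro j
    refine Fin.lastCases ?_ (fun j => ?_) j
    · simp
    · simp [Matrix.one_apply, Fin.ext_iff, (Fin.is_lt j).ne']⟩
  map_one' := by
    apply Subtype.ext; apply Units.ext
    exact diagOne_one
  map_mul' g h := by
    apply Subtype.ext; apply Units.ext
    exact diagOne_mul _ _

/-- The matrix with last column `(v, 1)` and the identity elsewhere. -/
def unipM {m : ℕ} (v : Fin m → ℝ) : Matrix (Fin (m + 1)) (Fin (m + 1)) ℝ :=
  fun i j => (1 : Matrix (Fin (m + 1)) (Fin (m + 1)) ℝ) i j +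
    Fin.lastCases (motive := fun _ => ℝ)
      (Fin.lastCases (motive := fun _ => ℝ) 0 (fun i' => v i') i) (fun _ => 0) j

@[simp] theorem unipM_c {m : ℕ} (v : Fin m → ℝ) (i : Fin (m + 1)) (j : Fin m) :
    unipM v i j.castSucc = (1 : Matrix (Fin (m + 1)) (Fin (m + 1)) ℝ) i j.castSucc := by
  simp [unipM]
@[simp] theorem unipM_cl {m : ℕ} (v : Fin m → ℝ) (i : Fin m) :
    unipM v i.castSucc (Fin.last m) = v i := by
  simp [unipM, Matrix.one_apply, Fin.ext_iff, (Fin.is_lt i).ne]
@[simp] theorem unipM_ll {m : ℕ} (v : Fin m → ℝ) :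
    unipM v (Fin.last m) (Fin.last m) = 1 := by simp [unipM]

theorem unipM_add {m : ℕ} (v w : Fin m → ℝ) : unipM (v + w) = unipM v * unipM w := by
  ext i j
  rw [Matrix.mul_apply, Fin.sum_univ_castSucc]
  refine Fin.lastCases ?_ (fun i => ?_) i <;> refine Fin.lastCases ?_ (fun j => ?_) j
  · simp [Matrix.one_apply, Fin.ext_iff, Fin.val_last, (Fin.is_lt _).ne']
  · simp [Matrix.one_apply, Fin.ext_iff, Fin.val_last, (Fin.is_lt _).ne']
  · simp [Matrix.one_apply, Fin.ext_iff, (Fin.is_lt _).ne']
    rw [Finset.sum_eq_single i]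
    · simp [add_comm]
    · intro b _ hb
      have : ¬ ((i : ℕ) = b) := fun h => hb (Fin.ext h.symm)
      simp [this]
    · simp
  · simp [Matrix.one_apply, Fin.ext_iff, (Fin.is_lt _).ne, (Fin.is_lt _).ne']
    rw [Finset.sum_eq_single i]
    · simp
    · intro b _ hb
      have : ¬ ((i : ℕ) = b) := fun h => hb (Fin.ext h.symm)
      simp [this]
    · simp

theorem unipM_zero {m : ℕ} : unipM (0 : Fin m → ℝ) = 1 := by
  ext i j
  refine Fin.lastCases ?_ (fun i => ?_) i <;> refine Fin.lastCases ?_ (fun j => ?_) j <;>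
    simp [Matrix.one_apply, Fin.ext_iff, (Fin.is_lt _).ne]

/-- The element of the unipotent radical `V_{m+1}` with last column `(v, 1)`. -/
def unip {m : ℕ} (v : Fin m → ℝ) : Mir m :=
  ⟨⟨unipM v, unipM (-v), by rw [← unipM_add, add_neg_cancel, unipM_zero],
    by rw [← unipM_add, neg_add_cancel, unipM_zero]⟩, by
    intro j
    refine Fin.lastCases ?_ (fun j => ?_) j
    · simp
    · simp⟩

/-- The operator induced by `T` on the quotient by an invariant subspace. -/
def quotOp {V : Type} [AddCommGroup V] [Module ℂ V] [TopologicalSpace V] (S : Submodule ℂ V)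
    (T : V →L[ℂ] V) (h : ∀ v ∈ S, T v ∈ S) : (V ⧸ S) →L[ℂ] (V ⧸ S) :=
  S.liftQL (S.mkQL.comp T) (by
    intro v hv
    rw [LinearMap.mem_ker]
    change S.mkQ (T v) = 0
    rw [Submodule.mkQ_apply, Submodule.Quotient.mk_eq_zero]
    exact h v hv)

@[simp] theorem quotOp_mk {V : Type} [AddCommGroup V] [Module ℂ V] [TopologicalSpace V]
    (S : Submodule ℂ V) (T : V →L[ℂ] V) (h : ∀ v ∈ S, T v ∈ S) (v : V) :
    quotOp S T h (Submodule.Quotient.mk v) = Submodule.Quotient.mk (T v) := rfl

/-- The quotient of `σ` by an invariant subspace `S`, as a representation of `H` through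
`φ : H → G`, twisted by the character `χ`. -/
def TRep.quot {G H : Type} [Group G] [Group H] (σ : TRep G) (φ : H →* G) (χ : H →* ℂ)
    (S : Submodule ℂ σ.V) (hS : ∀ h, ∀ v ∈ S, σ.act (φ h) v ∈ S) : TRep H where
  V := σ.V ⧸ S
  act :=
    { toFun := fun h => χ h • quotOp S (σ.act (φ h)) (hS h)
      map_one' := by
        apply ContinuousLinearMap.ext
        intro v
        refine Submodule.Quotient.induction_on _ v (fun v => ?_)
        simp
      map_mul' := by
        intro g h
        apply ContinuousLinearMap.ext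
        intro v
        refine Submodule.Quotient.induction_on _ v (fun v => ?_)
        change χ (g * h) • quotOp S (σ.act (φ (g * h))) (hS (g * h)) (Submodule.Quotient.mk v) =
          χ g • quotOp S (σ.act (φ g)) (hS g)
            (χ h • quotOp S (σ.act (φ h)) (hS h) (Submodule.Quotient.mk v))
        rw [map_smul, smul_smul, quotOp_mk, quotOp_mk, quotOp_mk, map_mul, map_mul, map_mul]
        rfl }

/-- The span of all `α v - ψ(α) v`, with `α` in the Lie algebra of the unipotent radical. -/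
def psiSpan (ν : ℝ) {m : ℕ} (σ : TRep (Mir (m + 1))) : Submodule ℂ σ.V :=
  Submodule.span ℂ {y | ∃ (α : Fin (m + 1) → ℝ) (v w : σ.V),
    DerZero (fun t : ℝ => σ.act (unip (t • α)) v) w ∧
      y = w - (((ν * α (Fin.last m) : ℝ) : ℂ) * Complex.I) • v}

theorem emb_unip {m : ℕ} (h : GL (Fin m) ℝ) (α : Fin m → ℝ) :
    emb m h * unip α = unip ((h : Matrix (Fin m) (Fin m) ℝ).mulVec α) * emb m h := by
  apply Subtype.ext; apply Units.ext
  change diagOne (h : Matrix (Fin m) (Fin m) ℝ) * unipM α =
    unipM ((h : Matrix (Fin m) (Fin m) ℝ).mulVec α) * diagOne (h : Matrix (Fin m) (Fin m) ℝ)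
  ext i j
  rw [Matrix.mul_apply, Matrix.mul_apply, Fin.sum_univ_castSucc, Fin.sum_univ_castSucc]
  refine Fin.lastCases ?_ (fun i => ?_) i <;> refine Fin.lastCases ?_ (fun j => ?_) j
  · simp
  · simp [Matrix.one_apply, Fin.ext_iff, (Fin.is_lt _).ne']
  · simp [Matrix.mulVec, dotProduct]
  · simp [Matrix.one_apply, (Fin.is_lt _).ne']

theorem DerZero.map {V W : Type} [AddCommGroup V] [Module ℂ V] [TopologicalSpace V]
    [AddCommGroup W] [Module ℂ W] [TopologicalSpace W] {c : ℝ → V} {w : V} (h : DerZero c w)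
    (T : V →L[ℂ] W) : DerZero (fun t => T (c t)) (T w) := by
  have := (T.continuous.tendsto w).comp h
  refine this.congr (fun t => ?_)
  simp

theorem psiSpan_inv (ν : ℝ) {m : ℕ} (σ : TRep (Mir (m + 1))) (h : Mir m) :
    ∀ v ∈ psiSpan ν σ, σ.act (emb (m + 1) h) v ∈ psiSpan ν σ := by
  intro y hy
  refine Submodule.span_induction (p := fun y _ => σ.act (emb (m + 1) h) y ∈ psiSpan ν σ)
    ?_ ?_ ?_ ?_ hy
  · rintro y ⟨α, v, w, hw, rfl⟩
    refine Submodule.subset_span ⟨((h : GL (Fin (m + 1)) ℝ) :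
      Matrix (Fin (m + 1)) (Fin (m + 1)) ℝ).mulVec α, σ.act (emb (m + 1) h) v,
      σ.act (emb (m + 1) h) w, ?_, ?_⟩
    · refine (hw.map (σ.act (emb (m + 1) (h : GL (Fin (m + 1)) ℝ)))).congr (fun t => ?_)
      have key : ∀ t : ℝ, σ.act (emb (m + 1) (h : GL (Fin (m + 1)) ℝ)) (σ.act (unip (t • α)) v) =
          σ.act (unip (t • ((h : GL (Fin (m + 1)) ℝ) :
            Matrix (Fin (m + 1)) (Fin (m + 1)) ℝ).mulVec α))
            (σ.act (emb (m + 1) (h : GL (Fin (m + 1)) ℝ)) v) := by
        intro t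
        have := congrArg (fun g => σ.act g v) (emb_unip (h : GL (Fin (m + 1)) ℝ) (t • α))
        simp only [map_mul] at this
        rw [Matrix.mulVec_smul] at this
        exact this
      simp only [key]
    · have hl : ((h : GL (Fin (m + 1)) ℝ) : Matrix (Fin (m + 1)) (Fin (m + 1)) ℝ).mulVec α
          (Fin.last m) = α (Fin.last m) := by
        have h2 := h.2
        simp only [Mir, Subgroup.mem_mk, Submonoid.mem_mk, Subsemigroup.mem_mk,
          Set.mem_ofPred_eq] at h2
        simp only [Matrix.mulVec, dotProduct, h2]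
        simp [Matrix.one_apply]
      rw [map_sub, map_smul, hl]
  · simp
  · intro x y _ _ hx hy
    rw [map_add]; exact add_mem hx hy
  · intro c x _ hx
    rw [map_smul]; exact Submodule.smul_mem _ _ hx

/-- The character `|det|^{-1/2}` of the mirabolic subgroup. -/
def detChar (m : ℕ) : Mir m →* ℂ where
  toFun h := ((|Matrix.det ((h : GL (Fin (m + 1)) ℝ) : Matrix (Fin (m + 1)) (Fin (m + 1)) ℝ)|
    ^ (-(1 / 2) : ℝ) : ℝ) : ℂ)
  map_one' := by simp
  map_mul' g h := by
    rw [← Complex.ofReal_mul]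
    congr 1
    rw [← Real.mul_rpow (abs_nonneg _) (abs_nonneg _), ← abs_mul]
    congr 2
    simp [Matrix.det_mul]

/-- The functor `Ψ`, for the unitary character `x ↦ exp(iνx)`. -/
def Psi (ν : ℝ) {m : ℕ} (σ : TRep (Mir (m + 1))) : TRep (Mir m) :=
  σ.quot ((emb (m + 1)).comp (Mir m).subtype) (detChar m) (psiSpan ν σ)
    (fun h => psiSpan_inv ν σ h)

/-- The span of all `κ v`, with `κ` in the `l`-th tensor power of the Lie algebra of the
unipotent radical. -/
def radSpan {m : ℕ} (σ : TRep (Mir m)) : ℕ → Submodule ℂ σ.V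
  | 0 => ⊤
  | l + 1 => Submodule.span ℂ {w | ∃ (α : Fin m → ℝ) (v : σ.V), v ∈ radSpan σ l ∧
      DerZero (fun t : ℝ => σ.act (unip (t • α)) v) w}

theorem radSpan_succ_le {m : ℕ} (σ : TRep (Mir m)) (l : ℕ) :
    radSpan σ (l + 1) ≤ radSpan σ l := by
  induction l with
  | zero => exact le_top
  | succ l ih =>
    rw [radSpan, radSpan]
    refine Submodule.span_mono ?_
    rintro w ⟨α, v, hv, hw⟩
    exact ⟨α, v, ih hv, hw⟩

theorem conj_unip {m : ℕ} (h : Mir m) (α : Fin m → ℝ) :
    ∃ β : Fin m → ℝ, ∀ t : ℝ, h * unip (t • α) = unip (t • β) * h := by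
  refine ⟨fun i => ∑ j : Fin m, ((h : GL (Fin (m + 1)) ℝ) :
    Matrix (Fin (m + 1)) (Fin (m + 1)) ℝ) i.castSucc j.castSucc * α j, fun t => ?_⟩
  have h2 := h.2
  simp only [Mir, Subgroup.mem_mk, Submonoid.mem_mk, Subsemigroup.mem_mk,
    Set.mem_ofPred_eq] at h2
  apply Subtype.ext; apply Units.ext
  change ((h : GL (Fin (m + 1)) ℝ) : Matrix (Fin (m + 1)) (Fin (m + 1)) ℝ) * unipM (t • α) =
    unipM (t • _) * ((h : GL (Fin (m + 1)) ℝ) : Matrix (Fin (m + 1)) (Fin (m + 1)) ℝ)
  revert h2
  generalize ((h : GL (Fin (m + 1)) ℝ) : Matrix (Fin (m + 1)) (Fin (m + 1)) ℝ) = H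
  intro h2
  ext i j
  rw [Matrix.mul_apply, Matrix.mul_apply, Fin.sum_univ_castSucc, Fin.sum_univ_castSucc]
  refine Fin.lastCases ?_ (fun i => ?_) i <;> refine Fin.lastCases ?_ (fun j => ?_) j
  · have hz : ∀ x : Fin m, ¬ (m = (x : ℕ)) := fun x => (Fin.is_lt x).ne'
    simp [h2, Matrix.one_apply, Fin.ext_iff, hz]
  · simp [h2, Matrix.one_apply, Fin.ext_iff, (Fin.is_lt _).ne']
  · simp [h2, Matrix.one_apply, Fin.ext_iff]
    simp only [Fin.val_inj]
    simp [Finset.mul_sum, add_comm, mul_left_comm]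
  · simp [h2, Fin.ext_iff, (Fin.is_lt _).ne', Matrix.one_apply]
    simp only [Fin.val_inj]
    simp

theorem radSpan_inv {m : ℕ} (σ : TRep (Mir m)) (l : ℕ) (h : Mir m) :
    ∀ v ∈ radSpan σ l, σ.act h v ∈ radSpan σ l := by
  induction l with
  | zero => intro v _; exact Submodule.mem_top
  | succ l ih =>
    intro y hy
    refine Submodule.span_induction (p := fun y _ => σ.act h y ∈ radSpan σ (l + 1))
      ?_ ?_ ?_ ?_ hy
    · rintro y ⟨α, v, hv, hw⟩
      obtain ⟨β, hβ⟩ := conj_unip h α
      refine Submodule.subset_span ⟨β, σ.act h v, ih v hv, ?_⟩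
      refine (hw.map (σ.act h)).congr (fun t => ?_)
      have key : ∀ t : ℝ, σ.act h (σ.act (unip (t • α)) v) =
          σ.act (unip (t • β)) (σ.act h v) := by
        intro t
        have := congrArg (fun g => σ.act g v) (hβ t)
        simp only [map_mul] at this
        exact this
      simp only [key]
    · simp
    · intro x y _ _ hx hy
      rw [map_add]; exact add_mem hx hy
    · intro c x _ hx
      rw [map_smul]; exact Submodule.smul_mem _ _ hx

/-- The compatible sequences in the quotients by `radSpan`. -/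
def limSub {m : ℕ} (σ : TRep (Mir m)) : Submodule ℂ ((l : ℕ) → σ.V ⧸ radSpan σ l) where
  carrier := {y | ∀ l, Submodule.factor (radSpan_succ_le σ l) (y (l + 1)) = y l}
  add_mem' := by intro a b ha hb l; simp [ha l, hb l]
  zero_mem' := by intro l; simp
  smul_mem' := by intro c a ha l; simp [ha l]

theorem limSub_map {m : ℕ} (σ : TRep (Mir m)) (h : Mir m) (y : (l : ℕ) → σ.V ⧸ radSpan σ l)
    (hy : y ∈ limSub σ) :
    (fun l => quotOp (radSpan σ l) (σ.act h) (radSpan_inv σ l h) (y l)) ∈ limSub σ := by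
  intro l
  have h1 := hy l
  change Submodule.factor (radSpan_succ_le σ l)
      (quotOp (radSpan σ (l + 1)) (σ.act h) (radSpan_inv σ (l + 1) h) (y (l + 1))) =
    quotOp (radSpan σ l) (σ.act h) (radSpan_inv σ l h) (y l)
  rw [← h1]
  generalize y (l + 1) = b
  refine Submodule.Quotient.induction_on _ b (fun b => ?_)
  rfl

/-- The functor `Φ`: the inverse limit of the quotients by `radSpan`. -/
def Phi {m : ℕ} (σ : TRep (Mir m)) : TRep (Mir m) where
  V := limSub σ
  act :=
    { toFun := fun h =>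
        { toFun := fun y => ⟨fun l => quotOp (radSpan σ l) (σ.act h) (radSpan_inv σ l h) (y.1 l),
            limSub_map σ h y.1 y.2⟩
          map_add' := by
            intro a b; apply Subtype.ext; funext l; simp
          map_smul' := by
            intro c a; apply Subtype.ext; funext l; simp
          cont := by
            refine Continuous.subtype_mk (continuous_pi fun l => ?_) _
            exact (quotOp (radSpan σ l) (σ.act h) (radSpan_inv σ l h)).continuous.comp
              ((continuous_apply l).comp continuous_subtype_val) }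
      map_one' := by
        apply ContinuousLinearMap.ext
        intro y
        apply Subtype.ext; funext l
        change quotOp (radSpan σ l) (σ.act 1) (radSpan_inv σ l 1) (y.1 l) = y.1 l
        refine Submodule.Quotient.induction_on _ (y.1 l) (fun v => ?_)
        simp
      map_mul' := by
        intro g h
        apply ContinuousLinearMap.ext
        intro y
        apply Subtype.ext; funext l
        change quotOp (radSpan σ l) (σ.act (g * h)) (radSpan_inv σ l (g * h)) (y.1 l) =
          quotOp (radSpan σ l) (σ.act g) (radSpan_inv σ l g)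
            (quotOp (radSpan σ l) (σ.act h) (radSpan_inv σ l h) (y.1 l))
        refine Submodule.Quotient.induction_on _ (y.1 l) (fun v => ?_)
        simp }

/-- The iterates of `Ψ`. -/
def PsiN (ν : ℝ) (m : ℕ) : (k : ℕ) → TRep (Mir (m + k)) → TRep (Mir m)
  | 0, σ => σ
  | k + 1, σ => PsiN ν m k (Psi ν σ)

/-- The restriction of a representation to a subgroup. -/
def TRep.res {G : Type} [Group G] (σ : TRep G) (H : Subgroup G) : TRep H where
  V := σ.V
  act := σ.act.comp H.subtype

/-- The derivative `D^{k+1}(π)` of a representation of `GL_{m+k+1}(R)`, a representation of the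
mirabolic subgroup `Mir m` of `GL_{m+1}(R)`. -/
def Der (ν : ℝ) (m k : ℕ) (π : TRep (GL (Fin (m + k + 1)) ℝ)) : TRep (Mir m) :=
  Phi (PsiN ν m k (π.res (Mir (m + k))))

end SoCo
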