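import Pool.Agent.H.MP_0f3f77_al.Defs

/-!
Closed invariant subspaces, lengths, socle and co-socle filtrations, Casselman-Wallach
representations.
-/

open scoped Topology
open Filter

noncomputable section

namespace SoCo

/-- `W` is a closed invariant subspace. -/
def IsSub {G : Type} [Group G] (σ : TRep G) (W : Submodule ℂ σ.V) : Prop :=
  IsClosed (W : Set σ.V) ∧ ∀ g, ∀ v ∈ W, σ.act g v ∈ W

/-- `W ⊂ U` are closed invariant subspaces with irreducible quotient `U / W`. -/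
def Covers {G : Type} [Group G] (σ : TRep G) (W U : Submodule ℂ σ.V) : Prop :=
  IsSub σ W ∧ IsSub σ U ∧ W < U ∧ ∀ X, IsSub σ X → W ≤ X → X ≤ U → X = W ∨ X = U

/-- `U / W` has length `n`. -/
def HasLen {G : Type} [Group G] (σ : TRep G) (W U : Submodule ℂ σ.V) (n : ℕ) : Prop :=
  ∃ c : ℕ → Submodule ℂ σ.V, c 0 = W ∧ c n = U ∧ ∀ i < n, Covers σ (c i) (c (i + 1))

/-- `U / W` is semisimple: `U` is a finite sum of subspaces covering `W` (or `U = W`). -/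
def SemiOver {G : Type} [Group G] (σ : TRep G) (W U : Submodule ℂ σ.V) : Prop :=
  IsSub σ W ∧ IsSub σ U ∧ ∃ S : Finset (Submodule ℂ σ.V), (∀ X ∈ S, Covers σ W X) ∧
    U = W ⊔ S.sup id

/-- `0 = F 0 < F 1 < ... < F p = σ` is the socle filtration: `F (k+1) / F k` is the maximal
semisimple subrepresentation of `σ / F k`. -/
def SocleFilt {G : Type} [Group G] (σ : TRep G) (p : ℕ) (F : ℕ → Submodule ℂ σ.V) : Prop :=
  F 0 = ⊥ ∧ F p = ⊤ ∧ ∀ k < p, F k < F (k + 1) ∧ SemiOver σ (F k) (F (k + 1)) ∧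
    ∀ U, SemiOver σ (F k) U → U ≤ F (k + 1)

/-- `σ = G 0 > G 1 > ... > G q = 0` is the co-socle filtration: `G k / G (k+1)` is the maximal
semisimple quotient of `G k`. -/
def CosocleFilt {G : Type} [Group G] (σ : TRep G) (q : ℕ) (F : ℕ → Submodule ℂ σ.V) : Prop :=
  F 0 = ⊤ ∧ F q = ⊥ ∧ ∀ k < q, F (k + 1) < F k ∧ SemiOver σ (F (k + 1)) (F k) ∧
    ∀ W, SemiOver σ W (F k) → F (k + 1) ≤ W

/-- Irreducible representations. -/
def IsIrred {G : Type} [Group G] (σ : TRep G) : Prop := Covers σ ⊥ ⊤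

/-- Casselman-Wallach representations of `GL_n(R)`: smooth admissible Frechet representations of
moderate growth and of finite length. -/
structure IsCW {n : ℕ} (π : TRep (GL (Fin n) ℝ)) : Prop where
  t2 : T2Space π.V
  fc : FirstCountableTopology π.V
  lc : LocallyConvexSpace ℝ π.V
  complete : ∀ u : ℕ → π.V, (∀ U ∈ 𝓝 (0 : π.V), ∃ N, ∀ k l, N ≤ k → N ≤ l → u k - u l ∈ U) →
    ∃ v, Tendsto u atTop (𝓝 v)
  cont : Continuous fun p : GL (Fin n) ℝ × π.V => π.act p.1 p.2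
  smooth : ∀ (X : Matrix (Fin n) (Fin n) ℝ) (v : π.V), ∃ w, ∀ γ : ℝ → GL (Fin n) ℝ,
    (∀ t, (γ t : Matrix (Fin n) (Fin n) ℝ) = NormedSpace.exp (t • X)) →
      DerZero (fun t => π.act (γ t) v) w
  growth : ∀ p : Seminorm ℂ π.V, Continuous p → ∃ (q : Seminorm ℂ π.V) (N : ℕ), Continuous q ∧
    ∀ (g : GL (Fin n) ℝ) (v : π.V), p (π.act g v) ≤
      (1 + ∑ i, ∑ j, |(g : Matrix (Fin n) (Fin n) ℝ) i j| +
        ∑ i, ∑ j, |((g⁻¹ : GL (Fin n) ℝ) : Matrix (Fin n) (Fin n) ℝ) i j|) ^ N * q v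
  admissible : ∀ (W : Type) [AddCommGroup W] [Module ℂ W] [FiniteDimensional ℂ W]
    (τ : GL (Fin n) ℝ → W →ₗ[ℂ] W) (E : Submodule ℂ (W →ₗ[ℂ] π.V)),
    (∀ T ∈ E, ∀ k : GL (Fin n) ℝ,
      (k : Matrix (Fin n) (Fin n) ℝ) * (k : Matrix (Fin n) (Fin n) ℝ).transpose = 1 →
      ∀ w, π.act k (T w) = T (τ k w)) → FiniteDimensional ℂ E
  finlen : ∃ l, HasLen π ⊥ ⊤ l

end SoCo
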