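import Mathlib

/-!
Representations of `GL_n(R)` and of its mirabolic subgroups on topological vector spaces,
derivatives, Casselman-Wallach representations, socle and co-socle filtrations.

A representation of a subgroup `S` of `GL_n(R)` on `V` is given by a map
`σ : GL (Fin n) ℝ → V → V`, of which only the values on `S` are used.
-/

open scoped Topology
open Filter

noncomputable section

namespace DerGL

variable {n m : ℕ} {V W : Type} [AddCommGroup V] [Module ℂ V] [TopologicalSpace V]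
  [AddCommGroup W] [Module ℂ W] [TopologicalSpace W]

/-- `w` is the derivative at `0` of the curve `c`. -/
def DerZero (c : ℝ → V) (w : V) : Prop :=
  Tendsto (fun t : ℝ => ((t⁻¹ : ℝ) : ℂ) • (c t - c 0)) (𝓝[≠] 0) (𝓝 w)

/-- `w = X v`, for the matrix `X` in the Lie algebra. -/
def LieAct (σ : GL (Fin n) ℝ → V → V) (X : Matrix (Fin n) (Fin n) ℝ) (v w : V) : Prop :=
  ∀ γ : ℝ → GL (Fin n) ℝ,
    (∀ t, (γ t : Matrix (Fin n) (Fin n) ℝ) = NormedSpace.exp (t • X)) →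
      DerZero (fun t => σ (γ t) v) w

/-- The mirabolic subgroup of `GL_{m+1}(R)`: last row `(0,...,0,1)`. -/
def Mir (m : ℕ) : Set (GL (Fin (m + 1)) ℝ) :=
  {g | ∀ j, (g : Matrix (Fin (m + 1)) (Fin (m + 1)) ℝ) (Fin.last m) j =
    (1 : Matrix (Fin (m + 1)) (Fin (m + 1)) ℝ) (Fin.last m) j}

/-- `X` is in the Lie algebra of the unipotent radical of the mirabolic subgroup of
`GL_{m+1}(R)`. -/
def InRad (X : Matrix (Fin (m + 1)) (Fin (m + 1)) ℝ) : Prop :=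
  ∀ i j, X i j ≠ 0 → i ≠ Fin.last m ∧ j = Fin.last m

/-- The matrix `diag(h, 1)`. -/
def diagOne (h : Matrix (Fin m) (Fin m) ℝ) : Matrix (Fin (m + 1)) (Fin (m + 1)) ℝ :=
  fun i j => Fin.lastCases (motive := fun _ => ℝ)
    (Fin.lastCases (motive := fun _ => ℝ) 1 (fun _ => 0) j)
    (fun i' => Fin.lastCases (motive := fun _ => ℝ) 0 (fun j' => h i' j') j) i

/-- The span of all `X v - ψ(X) v`, with `X` in the Lie algebra of the unipotent radical of the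
mirabolic subgroup of `GL_{m+2}(R)`. -/
def psiSpan (ν : ℝ) (σ : GL (Fin (m + 2)) ℝ → V → V) : Submodule ℂ V :=
  Submodule.span ℂ {y | ∃ (X : Matrix (Fin (m + 2)) (Fin (m + 2)) ℝ) (v w : V),
    InRad X ∧ LieAct σ X v w ∧
      y = w - (((ν * X (Fin.last m).castSucc (Fin.last (m + 1)) : ℝ) : ℂ) * Complex.I) • v}

/-- `τ` is `Ψ(σ)`, for the unitary character `x ↦ exp(iνx)`. -/
def IsPsi (ν : ℝ) (σ : GL (Fin (m + 2)) ℝ → V → V) (τ : GL (Fin (m + 1)) ℝ → W → W) : Prop :=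
  ∃ q : V →L[ℂ] W, Topology.IsQuotientMap q ∧ (∀ v, q v = 0 ↔ v ∈ psiSpan ν σ) ∧
    ∀ h ∈ Mir m, ∀ g : GL (Fin (m + 2)) ℝ,
      (g : Matrix (Fin (m + 2)) (Fin (m + 2)) ℝ) =
        diagOne (h : Matrix (Fin (m + 1)) (Fin (m + 1)) ℝ) → ∀ v,
      τ h (q v) = ((|Matrix.det (h : Matrix (Fin (m + 1)) (Fin (m + 1)) ℝ)| ^
        (-(1 / 2) : ℝ) : ℝ) : ℂ) • q (σ g v)

/-- The span of all `κ v`, with `κ` in the `l`-th tensor power of the Lie algebra of the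
unipotent radical. -/
def radSpan (σ : GL (Fin (m + 1)) ℝ → V → V) (l : ℕ) : Submodule ℂ V :=
  Nat.rec (motive := fun _ => Submodule ℂ V) ⊤
    (fun _ R => Submodule.span ℂ {w | ∃ (X : Matrix (Fin (m + 1)) (Fin (m + 1)) ℝ) (v : V),
      InRad X ∧ v ∈ R ∧ LieAct σ X v w}) l

/-- `τ` is the inverse limit of the quotients of `σ` by `R l`, as a representation of `S`. -/
def IsLim {G : Type} (S : Set G) (R : ℕ → Submodule ℂ V) (σ : G → V → V) (τ : G → W → W) : Prop :=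
  ∃ p : (l : ℕ) → W →L[ℂ] V ⧸ R l,
    (∀ x l v, p (l + 1) x = (R (l + 1)).mkQ v → p l x = (R l).mkQ v) ∧
    (∀ y : (l : ℕ) → V ⧸ R l, (∀ l v, y (l + 1) = (R (l + 1)).mkQ v → y l = (R l).mkQ v) →
      ∃! x, ∀ l, p l x = y l) ∧
    Topology.IsInducing (fun x l => p l x) ∧
    ∀ g ∈ S, ∀ x l v, p l x = (R l).mkQ v → p l (τ g x) = (R l).mkQ (σ g v)

/-- `τ` is `Φ(σ)`. -/
def IsPhi (σ : GL (Fin (m + 1)) ℝ → V → V) (τ : GL (Fin (m + 1)) ℝ → W → W) : Prop :=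
  IsLim (Mir m) (radSpan σ) σ τ

/-- `τ` is `Ψ^k(σ)`. -/
def IsPsiN (ν : ℝ) (m k : ℕ) : (V : TopModuleCat.{0} ℂ) →
    (GL (Fin (m + k + 1)) ℝ → V → V) → (W : TopModuleCat.{0} ℂ) →
    (GL (Fin (m + 1)) ℝ → W → W) → Prop :=
  Nat.rec (motive := fun k => (V : TopModuleCat.{0} ℂ) →
    (GL (Fin (m + k + 1)) ℝ → V → V) → (W : TopModuleCat.{0} ℂ) →
    (GL (Fin (m + 1)) ℝ → W → W) → Prop)
    (fun V σ W τ => ∃ f : V ≃L[ℂ] W, ∀ g ∈ Mir m, ∀ v, f (σ g v) = τ g (f v))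
    (fun k ih _ σ W τ => ∃ (U : TopModuleCat.{0} ℂ) (υ : GL (Fin (m + k + 1)) ℝ → U → U),
      IsPsi (m := m + k) ν σ υ ∧ ih U υ W τ) k

/-- `δ` is the derivative `D^{k+1}(π)` of the representation `π` of `GL_{m+k+1}(R)`, a
representation of the mirabolic subgroup of `GL_{m+1}(R)`. -/
def IsDer (ν : ℝ) (m k : ℕ) {V D : TopModuleCat.{0} ℂ} (π : GL (Fin (m + k + 1)) ℝ → V → V)
    (δ : GL (Fin (m + 1)) ℝ → D → D) : Prop :=
  ∃ (W : TopModuleCat.{0} ℂ) (τ : GL (Fin (m + 1)) ℝ → W → W),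
    IsPsiN ν m k V π W τ ∧ IsPhi τ δ

/-- `U` is a closed subrepresentation. -/
def IsSub {G : Type} (S : Set G) (σ : G → V → V) (U : Submodule ℂ V) : Prop :=
  IsClosed (U : Set V) ∧ ∀ g ∈ S, ∀ v ∈ U, σ g v ∈ U

/-- `T ⊂ U` are closed subrepresentations with irreducible quotient `U / T`. -/
def Covers {G : Type} (S : Set G) (σ : G → V → V) (T U : Submodule ℂ V) : Prop :=
  IsSub S σ T ∧ IsSub S σ U ∧ T < U ∧ ∀ X, IsSub S σ X → T ≤ X → X ≤ U → X = T ∨ X = U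

/-- `U / T` has length `n`. -/
def HasLen {G : Type} (S : Set G) (σ : G → V → V) (T U : Submodule ℂ V) (n : ℕ) : Prop :=
  ∃ c : ℕ → Submodule ℂ V, c 0 = T ∧ c n = U ∧ ∀ i < n, Covers S σ (c i) (c (i + 1))

/-- `U / T` is semisimple: `U` is a finite sum of subspaces covering `T` (or `U = T`). -/
def SemiOver {G : Type} (S : Set G) (σ : G → V → V) (T U : Submodule ℂ V) : Prop :=
  IsSub S σ T ∧ IsSub S σ U ∧ ∃ C : Finset (Submodule ℂ V), (∀ X ∈ C, Covers S σ T X) ∧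
    U = T ⊔ C.sup id

/-- `0 = F 0 < F 1 < ... < F p = V` is the socle filtration: `F (k+1) / F k` is the maximal
semisimple subrepresentation of `V / F k`. -/
def SocleFilt {G : Type} (S : Set G) (σ : G → V → V) (p : ℕ) (F : ℕ → Submodule ℂ V) : Prop :=
  F 0 = ⊥ ∧ F p = ⊤ ∧ ∀ k < p, F k < F (k + 1) ∧ SemiOver S σ (F k) (F (k + 1)) ∧
    ∀ U, SemiOver S σ (F k) U → U ≤ F (k + 1)

/-- `V = F 0 > F 1 > ... > F q = 0` is the co-socle filtration: `F k / F (k+1)` is the maximal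
semisimple quotient of `F k`. -/
def CosocleFilt {G : Type} (S : Set G) (σ : G → V → V) (q : ℕ) (F : ℕ → Submodule ℂ V) : Prop :=
  F 0 = ⊤ ∧ F q = ⊥ ∧ ∀ k < q, F (k + 1) < F k ∧ SemiOver S σ (F (k + 1)) (F k) ∧
    ∀ U, SemiOver S σ U (F k) → F (k + 1) ≤ U

/-- Irreducible representations. -/
def IsIrred {G : Type} (S : Set G) (σ : G → V → V) : Prop := Covers S σ ⊥ ⊤

/-- `π` is a representation by linear operators. -/
def IsRep {G : Type} [Group G] (π : G → V → V) : Prop :=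
  (∀ g v w, π g (v + w) = π g v + π g w) ∧ (∀ g (c : ℂ) v, π g (c • v) = c • π g v) ∧
    (∀ v, π 1 v = v) ∧ ∀ g h v, π (g * h) v = π g (π h v)

/-- Frechet spaces. -/
def IsFrechet (V : Type) [AddCommGroup V] [Module ℂ V] [TopologicalSpace V] : Prop :=
  IsTopologicalAddGroup V ∧ ContinuousSMul ℂ V ∧ T2Space V ∧ FirstCountableTopology V ∧
    LocallyConvexSpace ℝ V ∧
    ∀ u : ℕ → V, (∀ U ∈ 𝓝 (0 : V), ∃ N, ∀ k l, N ≤ k → N ≤ l → u k - u l ∈ U) →
      ∃ v, Tendsto u atTop (𝓝 v)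

/-- Smooth representations: continuous, and every vector is differentiable along all
one-parameter groups. -/
def IsSmooth (π : GL (Fin n) ℝ → V → V) : Prop :=
  (Continuous fun p : GL (Fin n) ℝ × V => π p.1 p.2) ∧ ∀ X v, ∃ w, LieAct π X v w

/-- Moderate growth. -/
def IsModerate (π : GL (Fin n) ℝ → V → V) : Prop :=
  ∀ p : Seminorm ℂ V, Continuous p → ∃ (q : Seminorm ℂ V) (N : ℕ), Continuous q ∧
    ∀ (g : GL (Fin n) ℝ) (v : V), p (π g v) ≤
      (1 + ∑ i, ∑ j, |(g : Matrix (Fin n) (Fin n) ℝ) i j| +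
        ∑ i, ∑ j, |((g⁻¹ : GL (Fin n) ℝ) : Matrix (Fin n) (Fin n) ℝ) i j|) ^ N * q v

/-- Admissible representations: every matrix representation of `O(n)` has finite
multiplicity. -/
def IsAdmissible (π : GL (Fin n) ℝ → V → V) : Prop :=
  ∀ (d : ℕ) (τ : GL (Fin n) ℝ → Matrix (Fin d) (Fin d) ℂ) (E : Submodule ℂ (Fin d → V)),
    (∀ T ∈ E, ∀ k : GL (Fin n) ℝ,
      (k : Matrix (Fin n) (Fin n) ℝ) * (k : Matrix (Fin n) (Fin n) ℝ).transpose = 1 →
      ∀ j, π k (T j) = ∑ i, τ k i j • T i) → FiniteDimensional ℂ E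

/-- Casselman-Wallach representations of `GL_n(R)`: smooth admissible Frechet representations of
moderate growth and of finite length. -/
def IsCW (π : GL (Fin n) ℝ → V → V) : Prop :=
  IsRep π ∧ IsFrechet V ∧ IsSmooth π ∧ IsModerate π ∧ IsAdmissible π ∧
    ∃ l, HasLen Set.univ π ⊥ ⊤ l

end DerGL
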