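import Pool.Agent.H.MP_0f3f77_al.QR

/-!
The derivatives of an element of `Isp` at any point of `Om` are bounded by the seminorms.

Proof of `deriv_bound`.  Take `A`, `B` from `exists_qr x`.  For every `y : E`,
`f y = rho B (f (rmul y A))` (from `rmul_mul`, `rmul_one` and the covariance, `B.det ≠ 0`), that
is, `f = R ∘ f ∘ M` with the continuous real-linear maps `R v = rho B v` on `Fv` and
`M y = rmul y A` on `E`.  By `ContinuousLinearMap.iteratedFDeriv_comp_left` and
`ContinuousLinearMap.iteratedFDeriv_comp_right` (the function is smooth at `M x ∈ Sc ⊆ Om`),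
the `j`-th derivative of `f` at `x` is
`R ∘ (iteratedFDeriv ℝ j f (M x)) ∘ (M, ..., M)`, so its norm is at most
`‖R‖ * ‖M‖ ^ j * ‖iteratedFDeriv ℝ j f (M x)‖ ≤ ‖R‖ ‖M‖^j (pn j f)`.
`‖M‖ ≤ 2 sz x` (two terms), `‖R‖ ≤ |det B⁻¹|^3 * 4 (sz x)^2`, `det B⁻¹ = det A`,
`|det A| ≤ 2 (sz x)^2`, so `‖R‖ ≤ 8 (sz x)^6 * 4 (sz x)^2 = 32 (sz x)^8`.
(`ContinuousLinearMap.opNorm_le_bound`; build `R` and `M` with `LinearMap.toContinuousLinearMap`.)
-/

open scoped Topology ContDiff
open MeasureTheory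

noncomputable section

namespace SoCo

/-- Right multiplication as a continuous linear map. -/
def derivbound_M (A : Mat2) {C : ℝ} (hC : ∀ c a, |A c a| ≤ C) : E →L[ℝ] E :=
  LinearMap.mkContinuous
    { toFun := fun y => rmul y A
      map_add' := fun y z => by
        funext a i
        simp only [rmul_app, Pi.add_apply]
        ring
      map_smul' := fun r y => by
        funext a i
        simp only [rmul_app, Pi.smul_apply, smul_eq_mul, RingHom.id_apply]
        ring } (2 * C) (by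
      intro y
      have hC0 : 0 ≤ C := (abs_nonneg _).trans (hC 0 0)
      have h1 : 0 ≤ 2 * C * ‖y‖ := by positivity
      refine (pi_norm_le_iff_of_nonneg h1).2 fun a => (pi_norm_le_iff_of_nonneg h1).2 fun i => ?_
      show ‖rmul y A a i‖ ≤ _
      rw [rmul_app, Real.norm_eq_abs]
      have h2 : ∀ c, |y c i| ≤ ‖y‖ := fun c => (norm_le_pi_norm (y c) i).trans (norm_le_pi_norm y c)
      have h3 : ∀ c, |A c a * y c i| ≤ C * ‖y‖ := fun c => by
        rw [abs_mul]
        exact mul_le_mul (hC c a) (h2 c) (abs_nonneg _) hC0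
      have h4 := abs_add_le (A 0 a * y 0 i) (A 1 a * y 1 i)
      have h5 := h3 0
      have h6 := h3 1
      linarith)

theorem derivbound_M_norm (A : Mat2) {C : ℝ} (hC : ∀ c a, |A c a| ≤ C) :
    ‖derivbound_M A hC‖ ≤ 2 * C := by
  have hC0 : 0 ≤ C := (abs_nonneg _).trans (hC 0 0)
  exact LinearMap.mkContinuous_norm_le _ (by positivity) _

theorem derivbound_det {A : Mat2} {C : ℝ} (hC : ∀ c a, |A c a| ≤ C) : |A.det| ≤ 2 * C ^ 2 := by
  have hC0 : 0 ≤ C := (abs_nonneg _).trans (hC 0 0)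
  rw [Matrix.det_fin_two]
  have h1 : |A 0 0 * A 1 1| ≤ C ^ 2 := by
    rw [abs_mul, pow_two]
    exact mul_le_mul (hC _ _) (hC _ _) (abs_nonneg _) hC0
  have h2 : |A 0 1 * A 1 0| ≤ C ^ 2 := by
    rw [abs_mul, pow_two]
    exact mul_le_mul (hC _ _) (hC _ _) (abs_nonneg _) hC0
  have h3 := abs_sub (A 0 0 * A 1 1) (A 0 1 * A 1 0)
  linarith

/-- The representation as a continuous real linear map. -/
def derivbound_R (B : Mat2) {C D : ℝ} (hC : ∀ c a, |B c a| ≤ C) (hD : |(B.det)⁻¹| ≤ D) :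
    Fv →L[ℝ] Fv :=
  LinearMap.mkContinuous
    { toFun := fun v => rho B v
      map_add' := rho_add B
      map_smul' := fun r v => by
        have h := rho_smul B (r : ℂ) v
        have h1 : ∀ w : Fv, (r : ℂ) • w = r • w := fun w => by
          funext a b i
          simp
        rw [h1, h1] at h
        exact h } (D ^ 3 * (4 * C ^ 2)) (by
      intro v
      have hC0 : 0 ≤ C := (abs_nonneg _).trans (hC 0 0)
      have hD0 : 0 ≤ D := (abs_nonneg _).trans hD
      have h1 : 0 ≤ D ^ 3 * (4 * C ^ 2) * ‖v‖ := by positivity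
      refine (pi_norm_le_iff_of_nonneg h1).2 fun a => (pi_norm_le_iff_of_nonneg h1).2 fun b =>
        (pi_norm_le_iff_of_nonneg h1).2 fun i => ?_
      show ‖rho B v a b i‖ ≤ _
      unfold rho
      have h2 : ∀ c d, ‖v c d i‖ ≤ ‖v‖ := fun c d =>
        (norm_le_pi_norm (v c d) i).trans ((norm_le_pi_norm (v c) d).trans (norm_le_pi_norm v c))
      have h3 : ∀ c d, ‖(B c a : ℂ) * (B d b : ℂ) * v c d i‖ ≤ C * C * ‖v‖ := fun c d => by
        rw [norm_mul, norm_mul, Complex.norm_real, Complex.norm_real, Real.norm_eq_abs,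
          Real.norm_eq_abs]
        exact mul_le_mul (mul_le_mul (hC _ _) (hC _ _) (abs_nonneg _) hC0) (h2 c d)
          (norm_nonneg _) (by positivity)
      have h4 : ‖∑ c, ∑ d, (B c a : ℂ) * (B d b : ℂ) * v c d i‖ ≤ 4 * C ^ 2 * ‖v‖ := by
        simp only [Fin.sum_univ_two]
        have k1 := h3 0 0
        have k2 := h3 0 1
        have k3 := h3 1 0
        have k4 := h3 1 1
        refine (norm_add_le _ _).trans ?_
        have k5 := norm_add_le ((B 0 a : ℂ) * (B 0 b : ℂ) * v 0 0 i)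
          ((B 0 a : ℂ) * (B 1 b : ℂ) * v 0 1 i)
        have k6 := norm_add_le ((B 1 a : ℂ) * (B 0 b : ℂ) * v 1 0 i)
          ((B 1 a : ℂ) * (B 1 b : ℂ) * v 1 1 i)
        have k7 : C * C * ‖v‖ = C ^ 2 * ‖v‖ := by ring
        rw [k7] at k1 k2 k3 k4
        linarith
      rw [norm_mul, Complex.norm_real, norm_pow, Real.norm_eq_abs]
      have h5 : |(B.det)⁻¹| ^ 3 ≤ D ^ 3 := pow_le_pow_left₀ (abs_nonneg _) hD 3
      calc |(B.det)⁻¹| ^ 3 * ‖∑ c, ∑ d, (B c a : ℂ) * (B d b : ℂ) * v c d i‖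
          ≤ D ^ 3 * (4 * C ^ 2 * ‖v‖) := mul_le_mul h5 h4 (norm_nonneg _) (by positivity)
        _ = D ^ 3 * (4 * C ^ 2) * ‖v‖ := by ring)

theorem derivbound_R_norm (B : Mat2) {C D : ℝ} (hC : ∀ c a, |B c a| ≤ C)
    (hD : |(B.det)⁻¹| ≤ D) : ‖derivbound_R B hC hD‖ ≤ D ^ 3 * (4 * C ^ 2) := by
  have hC0 : 0 ≤ C := (abs_nonneg _).trans (hC 0 0)
  have hD0 : 0 ≤ D := (abs_nonneg _).trans hD
  exact LinearMap.mkContinuous_norm_le _ (by positivity) _

theorem derivbound_dets {A B : Mat2} (hAB : A * B = 1) : A.det * B.det = 1 := by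
  rw [← Matrix.det_mul, hAB, Matrix.det_one]

theorem derivbound_eq (f : Isp) {A B : Mat2} (hAB : A * B = 1) (y : E) :
    f y = rho B (f (rmul y A)) := by
  have h1 := derivbound_dets hAB
  have h2 : B.det ≠ 0 := right_ne_zero_of_mul (by rw [h1]; exact one_ne_zero)
  rw [← (isI f).cov (rmul y A) B h2, ← rmul_mul, hAB, rmul_one]

theorem deriv_bound (f : Isp) (j : ℕ) (x : E) (hx : x ∈ Om) :
    ‖iteratedFDeriv ℝ j (f : E → Fv) x‖ ≤ 32 * (sz x) ^ 8 * (2 * sz x) ^ j * pn j f := by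
  obtain ⟨A, B, hAB, hBA, hSc, hA, hB⟩ := exists_qr x hx
  have hsz := sz_ge_one x
  have hsz0 : 0 ≤ sz x := by linarith
  have hdet : (B.det)⁻¹ = A.det := by
    have h1 := derivbound_dets hAB
    exact inv_eq_of_mul_eq_one_left h1
  have hD : |(B.det)⁻¹| ≤ 2 * sz x ^ 2 := by
    rw [hdet]
    exact derivbound_det hA
  obtain ⟨M, hM⟩ : ∃ M, M = derivbound_M A hA := ⟨_, rfl⟩
  obtain ⟨R, hR⟩ : ∃ R, R = derivbound_R B hB hD := ⟨_, rfl⟩
  have hMn : ‖M‖ ≤ 2 * sz x := by
    rw [hM]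
    exact derivbound_M_norm A hA
  have hRn : ‖R‖ ≤ 32 * sz x ^ 8 := by
    rw [hR]
    refine (derivbound_R_norm B hB hD).trans (le_of_eq ?_)
    ring
  have hMx : ∀ y, M y = rmul y A := fun y => by
    rw [hM]
    rfl
  have hRx : ∀ v, R v = rho B v := fun v => by
    rw [hR]
    rfl
  have hf : (f : E → Fv) = R ∘ ((f : E → Fv) ∘ M) := by
    funext y
    show f y = R (f (M y))
    rw [hMx, hRx]
    exact derivbound_eq f hAB y
  have hMOm : M x ∈ Om := by
    rw [hMx]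
    exact Sc_subset_Om hSc
  have hopen : IsOpen (M ⁻¹' Om) := isOpen_Om.preimage M.continuous
  have hcomp : iteratedFDeriv ℝ j ((f : E → Fv) ∘ M) x =
      (iteratedFDeriv ℝ j (f : E → Fv) (M x)).compContinuousLinearMap fun _ => M := by
    have h1 := M.iteratedFDerivWithin_comp_right (isI f).smooth isOpen_Om.uniqueDiffOn
      hopen.uniqueDiffOn (x := x) hMOm (i := j) (by exact_mod_cast le_top)
    rw [iteratedFDerivWithin_of_isOpen j hopen hMOm,
      iteratedFDerivWithin_of_isOpen j isOpen_Om hMOm] at h1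
    exact h1
  have hsm : ContDiffAt ℝ ∞ ((f : E → Fv) ∘ M) x :=
    (f.contDiffAt (M x) hMOm).comp x M.contDiff.contDiffAt
  have h2 : ‖iteratedFDeriv ℝ j (f : E → Fv) x‖ ≤
      ‖R‖ * ‖iteratedFDeriv ℝ j ((f : E → Fv) ∘ M) x‖ := by
    conv_lhs => rw [hf]
    exact R.norm_iteratedFDeriv_comp_left hsm (by exact_mod_cast le_top)
  have h3 : ‖iteratedFDeriv ℝ j ((f : E → Fv) ∘ M) x‖ ≤ pn j f * (2 * sz x) ^ j := by
    rw [hcomp]
    refine (ContinuousMultilinearMap.norm_compContinuousLinearMap_le _ _).trans ?_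
    rw [Finset.prod_const, Finset.card_univ, Fintype.card_fin]
    have h4 : ‖iteratedFDeriv ℝ j (f : E → Fv) (M x)‖ ≤ pn j f :=
      norm_deriv_le f le_rfl (M x) (by rw [hMx]; exact hSc)
    exact mul_le_mul h4 (pow_le_pow_left₀ (norm_nonneg _) hMn j) (by positivity)
      (apply_nonneg _ _)
  calc ‖iteratedFDeriv ℝ j (f : E → Fv) x‖
      ≤ ‖R‖ * ‖iteratedFDeriv ℝ j ((f : E → Fv) ∘ M) x‖ := h2
    _ ≤ (32 * sz x ^ 8) * (pn j f * (2 * sz x) ^ j) :=
        mul_le_mul hRn h3 (norm_nonneg _) (by positivity)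
    _ = 32 * (sz x) ^ 8 * (2 * sz x) ^ j * pn j f := by ring

/-- In particular the values are bounded. -/
theorem value_bound (f : Isp) (x : E) (hx : x ∈ Om) : ‖f x‖ ≤ 32 * (sz x) ^ 8 * pn 0 f := by
  have h := deriv_bound f 0 x hx
  rw [norm_iteratedFDeriv_zero] at h
  simpa using h

/-- An element of `Isp` that vanishes on `Sc` is zero. -/
theorem eq_zero_of_Sc (f : Isp) (h : ∀ x ∈ Sc, f x = 0) : f = 0 := by
  have h0 : ∀ x, f x = 0 := by
    intro x
    by_cases hx : x ∈ Om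
    · obtain ⟨A, B, hAB, hBA, hSc, hA, hB⟩ := exists_qr x hx
      rw [derivbound_eq f hAB x, h _ hSc]
      funext a b i
      simp [rho]
    · exact (isI f).zero_off x hx
  apply Isp.ext
  intro x a b i
  rw [h0 x]
  rfl

end SoCo
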