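import Pool.Agent.H.MP_0f3f77_al.TopI

/-!
Continuity of the Lie algebra action.

Proof.  Near a point `x ∈ Sc`, `dop X f = - B (fderiv ℝ f) (L) - R ∘ f` with `L y = lmul X y`
(real-linear, `‖L‖ ≤ s`, `s = ∑ ∑ |X i j|`), `B : (E →L Fv) × E → Fv` the evaluation (bilinear of
norm ≤ 1) and `R v = fun a b i => ∑ k, X k i * v a b k`, `‖R‖ ≤ s`.
By `ContinuousLinearMap.norm_iteratedFDeriv_le_of_bilinear` (in the version with
`ContDiffAt`/`ContDiffOn`, or `norm_iteratedFDerivWithin_le_...` on the open set `Om`),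
`‖iteratedFDeriv ℝ j (dop X f) x‖ ≤ ∑_{i ≤ j} (j choose i) ‖iteratedFDeriv ℝ i (fderiv ℝ f) x‖
  ‖iteratedFDeriv ℝ (j - i) L x‖ + s ‖iteratedFDeriv ℝ j f x‖`;
`‖iteratedFDeriv ℝ i (fderiv ℝ f) x‖ = ‖iteratedFDeriv ℝ (i + 1) f x‖ ≤ pn (n + 1) f`,
`‖iteratedFDeriv ℝ 0 L x‖ = ‖L x‖ ≤ s`, `‖iteratedFDeriv ℝ 1 L x‖ = ‖L‖ ≤ s`, higher ones are 0.
So the bound holds with `C = 2 ^ n + 1`.  (Use `Filter.EventuallyEq.iteratedFDeriv_eq` to replace
`dop X f` by the formula near `x`.)
-/

open scoped Topology ContDiff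
open MeasureTheory

noncomputable section

namespace SoCo

/-- Left multiplication as a continuous linear map. -/
def dopbound_L (X : Mat) : E →L[ℝ] E :=
  LinearMap.toContinuousLinearMap
    { toFun := lmul X
      map_add' := fun x y => by
        funext a i
        simp only [lmul, Pi.add_apply, mul_add, Finset.sum_add_distrib]
      map_smul' := fun c x => by
        funext a i
        simp only [lmul, Pi.smul_apply, smul_eq_mul, RingHom.id_apply, Finset.mul_sum]
        refine Finset.sum_congr rfl fun k _ => ?_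
        ring }

/-- The action on the values as a continuous linear map. -/
def dopbound_R (X : Mat) : Fv →L[ℝ] Fv :=
  LinearMap.toContinuousLinearMap
    { toFun := fun v a b i => ∑ k, (X k i : ℂ) * v a b k
      map_add' := fun x y => by
        funext a b i
        simp only [Pi.add_apply, mul_add, Finset.sum_add_distrib]
      map_smul' := fun c x => by
        funext a b i
        simp only [Pi.smul_apply, Complex.real_smul, RingHom.id_apply, Finset.mul_sum]
        refine Finset.sum_congr rfl fun k _ => ?_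
        ring }

theorem dopbound_L_app (X : Mat) (x : E) : dopbound_L X x = lmul X x := rfl

theorem dopbound_R_app (X : Mat) (v : Fv) (a b : Fin 2) (i : Fin 4) :
    dopbound_R X v a b i = ∑ k, (X k i : ℂ) * v a b k := rfl

theorem dopbound_s_nonneg (X : Mat) : 0 ≤ ∑ i, ∑ j, |X i j| :=
  Finset.sum_nonneg fun _ _ => Finset.sum_nonneg fun _ _ => abs_nonneg _

theorem dopbound_L_norm (X : Mat) : ‖dopbound_L X‖ ≤ ∑ i, ∑ j, |X i j| := by
  refine ContinuousLinearMap.opNorm_le_bound _ (dopbound_s_nonneg X) fun x => ?_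
  have h0 : 0 ≤ (∑ i, ∑ j, |X i j|) * ‖x‖ := mul_nonneg (dopbound_s_nonneg X) (norm_nonneg _)
  rw [pi_norm_le_iff_of_nonneg h0]
  intro a
  rw [pi_norm_le_iff_of_nonneg h0]
  intro i
  rw [dopbound_L_app, lmul]
  calc ‖∑ j, X i j * x a j‖ ≤ ∑ j, ‖X i j * x a j‖ := norm_sum_le _ _
    _ ≤ ∑ j, |X i j| * ‖x‖ := by
        refine Finset.sum_le_sum fun j _ => ?_
        rw [norm_mul, Real.norm_eq_abs (X i j)]
        exact mul_le_mul_of_nonneg_left ((norm_le_pi_norm (x a) j).trans (norm_le_pi_norm x a))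
          (abs_nonneg _)
    _ = (∑ j, |X i j|) * ‖x‖ := by rw [Finset.sum_mul]
    _ ≤ (∑ i, ∑ j, |X i j|) * ‖x‖ := by
        refine mul_le_mul_of_nonneg_right ?_ (norm_nonneg _)
        exact Finset.single_le_sum (f := fun i => ∑ j, |X i j|)
          (fun i _ => Finset.sum_nonneg fun _ _ => abs_nonneg _) (Finset.mem_univ i)

theorem dopbound_R_norm (X : Mat) : ‖dopbound_R X‖ ≤ ∑ i, ∑ j, |X i j| := by
  refine ContinuousLinearMap.opNorm_le_bound _ (dopbound_s_nonneg X) fun v => ?_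
  have h0 : 0 ≤ (∑ i, ∑ j, |X i j|) * ‖v‖ := mul_nonneg (dopbound_s_nonneg X) (norm_nonneg _)
  rw [pi_norm_le_iff_of_nonneg h0]
  intro a
  rw [pi_norm_le_iff_of_nonneg h0]
  intro b
  rw [pi_norm_le_iff_of_nonneg h0]
  intro i
  rw [dopbound_R_app]
  calc ‖∑ k, (X k i : ℂ) * v a b k‖ ≤ ∑ k, ‖(X k i : ℂ) * v a b k‖ := norm_sum_le _ _
    _ ≤ ∑ k, |X k i| * ‖v‖ := by
        refine Finset.sum_le_sum fun k _ => ?_
        rw [norm_mul, Complex.norm_real, Real.norm_eq_abs]
        exact mul_le_mul_of_nonneg_left (((norm_le_pi_norm (v a b) k).trans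
          (norm_le_pi_norm (v a) b)).trans (norm_le_pi_norm v a)) (abs_nonneg _)
    _ = (∑ k, |X k i|) * ‖v‖ := by rw [Finset.sum_mul]
    _ ≤ (∑ i, ∑ j, |X i j|) * ‖v‖ := by
        refine mul_le_mul_of_nonneg_right ?_ (norm_nonneg _)
        refine Finset.sum_le_sum fun k _ => ?_
        exact Finset.single_le_sum (f := fun i => |X k i|)
          (fun i _ => abs_nonneg _) (Finset.mem_univ i)

/-- The derivatives of a linear map. -/
theorem dopbound_lin (L : E →L[ℝ] E) (x : E) (hx : ‖x‖ ≤ 1) (j : ℕ) :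
    ‖iteratedFDeriv ℝ j L x‖ ≤ ‖L‖ := by
  rcases j with _ | _ | j
  · rw [norm_iteratedFDeriv_zero]
    exact (L.le_opNorm x).trans (mul_le_of_le_one_right (norm_nonneg _) hx)
  · rw [zero_add, norm_iteratedFDeriv_one, L.fderiv]
  · rw [← norm_iteratedFDeriv_fderiv]
    have h : fderiv ℝ (L : E → E) = fun _ => L := by
      funext y
      exact L.fderiv
    rw [h, iteratedFDeriv_const_of_ne (by omega)]
    simp

theorem dopbound_eq (X : Mat) (f : Isp) : Set.EqOn (dop X f : E → Fv)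
    (-((fun y => (fderiv ℝ (f : E → Fv) y) (dopbound_L X y)) + (dopbound_R X) ∘ (f : E → Fv)))
    Om := by
  intro y hy
  funext a b i
  rw [dop_app X f y hy]
  simp only [Pi.neg_apply, Pi.add_apply, Function.comp_apply, dopbound_R_app, dopbound_L_app]
  ring

theorem dopbound_pt (X : Mat) (f : Isp) (j : ℕ) (x : E) (hx : x ∈ Sc) :
    ‖iteratedFDeriv ℝ j (dop X f : E → Fv) x‖ ≤
      (2 ^ j + 1) * (∑ i, ∑ j, |X i j|) * pn (j + 1) f := by
  have hxO : x ∈ Om := Sc_subset_Om hx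
  have hu : UniqueDiffOn ℝ Om := isOpen_Om.uniqueDiffOn
  have hf : ContDiffOn ℝ ∞ (f : E → Fv) Om := (isI f).smooth
  have hf' : ContDiffOn ℝ ∞ (fderiv ℝ (f : E → Fv)) Om :=
    hf.fderiv_of_isOpen isOpen_Om (by simp)
  have hL : ContDiffOn ℝ ∞ (dopbound_L X : E → E) Om := (dopbound_L X).contDiff.contDiffOn
  have hs := dopbound_s_nonneg X
  have hp : 0 ≤ pn (j + 1) f := apply_nonneg _ _
  have hA : ContDiffOn ℝ ∞ (fun y => (fderiv ℝ (f : E → Fv) y) (dopbound_L X y)) Om :=
    hf'.clm_apply hL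
  have hB : ContDiffOn ℝ ∞ ((dopbound_R X) ∘ (f : E → Fv)) Om :=
    (dopbound_R X).contDiff.comp_contDiffOn hf
  have h1 : iteratedFDeriv ℝ j (dop X f : E → Fv) x =
      -(iteratedFDerivWithin ℝ j (fun y => (fderiv ℝ (f : E → Fv) y) (dopbound_L X y)) Om x +
        iteratedFDerivWithin ℝ j ((dopbound_R X) ∘ (f : E → Fv)) Om x) := by
    rw [← iteratedFDerivWithin_of_isOpen j isOpen_Om hxO,
      iteratedFDerivWithin_congr (dopbound_eq X f) hxO, iteratedFDerivWithin_neg_apply hu hxO,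
      iteratedFDerivWithin_add_apply ((hA x hxO).of_le (by exact_mod_cast le_top))
        ((hB x hxO).of_le (by exact_mod_cast le_top)) hu hxO]
  have h2 : ‖iteratedFDerivWithin ℝ j
      (fun y => (fderiv ℝ (f : E → Fv) y) (dopbound_L X y)) Om x‖ ≤
      2 ^ j * (∑ i, ∑ j, |X i j|) * pn (j + 1) f := by
    refine (norm_iteratedFDerivWithin_clm_apply hf' hL hu hxO
      (by exact_mod_cast le_top : ((j : ℕ) : WithTop ℕ∞) ≤ ∞)).trans ?_
    have h3 : ∀ i ∈ Finset.range (j + 1),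
        (j.choose i : ℝ) * ‖iteratedFDerivWithin ℝ i (fderiv ℝ (f : E → Fv)) Om x‖ *
          ‖iteratedFDerivWithin ℝ (j - i) (dopbound_L X : E → E) Om x‖ ≤
        (j.choose i : ℝ) * (pn (j + 1) f * (∑ i, ∑ j, |X i j|)) := by
      intro i hi
      rw [Finset.mem_range] at hi
      rw [iteratedFDerivWithin_of_isOpen i isOpen_Om hxO,
        iteratedFDerivWithin_of_isOpen (j - i) isOpen_Om hxO, norm_iteratedFDeriv_fderiv, mul_assoc]
      refine mul_le_mul_of_nonneg_left ?_ (Nat.cast_nonneg _)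
      refine mul_le_mul (norm_deriv_le f (by omega) x hx) ?_ (norm_nonneg _) hp
      exact (dopbound_lin _ x (Sc_bound x hx) _).trans (dopbound_L_norm X)
    refine (Finset.sum_le_sum h3).trans (le_of_eq ?_)
    rw [← Finset.sum_mul]
    have h4 : ∑ i ∈ Finset.range (j + 1), (j.choose i : ℝ) = 2 ^ j := by
      exact_mod_cast Nat.sum_range_choose j
    rw [h4]
    ring
  have h5 : ‖iteratedFDerivWithin ℝ j ((dopbound_R X) ∘ (f : E → Fv)) Om x‖ ≤
      (∑ i, ∑ j, |X i j|) * pn (j + 1) f := by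
    refine ((dopbound_R X).norm_iteratedFDerivWithin_comp_left (hf x hxO) hu hxO
      (by exact_mod_cast le_top : ((j : ℕ) : WithTop ℕ∞) ≤ ∞)).trans ?_
    rw [iteratedFDerivWithin_of_isOpen j isOpen_Om hxO]
    exact mul_le_mul (dopbound_R_norm X) (norm_deriv_le f (by omega) x hx) (norm_nonneg _) hs
  rw [h1, norm_neg]
  refine (norm_add_le _ _).trans ((add_le_add h2 h5).trans (le_of_eq ?_))
  ring

theorem dop_bound (n : ℕ) : ∃ C : ℝ, 0 ≤ C ∧ ∀ (X : Mat) (f : Isp),
    pn n (dop X f) ≤ C * (∑ i, ∑ j, |X i j|) * pn (n + 1) f := by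
  refine ⟨2 ^ n + 1, by positivity, fun X f => ?_⟩
  have hs := dopbound_s_nonneg X
  have hp : 0 ≤ pn (n + 1) f := apply_nonneg _ _
  refine pn_le _ n _ (by positivity) fun x hx j hj => (dopbound_pt X f j x hx).trans ?_
  have h1 : (2 : ℝ) ^ j ≤ 2 ^ n := pow_le_pow_right₀ (by norm_num) hj
  have h2 : pn (j + 1) f ≤ pn (n + 1) f := pn_mono (by omega) f
  refine mul_le_mul ?_ h2 (apply_nonneg _ _) (by positivity)
  exact mul_le_mul_of_nonneg_right (by linarith) hs

/-- The Lie algebra acts by continuous operators. -/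
def dopL (X : Mat) : Isp →L[ℂ] Isp :=
  ⟨dop X, cont_of_bounds (dop X) fun n => by
    obtain ⟨C, -, h⟩ := dop_bound n
    exact ⟨n + 1, C * (∑ i, ∑ j, |X i j|), h X⟩⟩

@[simp] theorem dopL_app (X : Mat) (f : Isp) : dopL X f = dop X f := rfl

theorem dopbound_ext {f g : Isp} (h : ∀ x ∈ Om, ∀ a b i, f x a b i = g x a b i) : f = g := by
  ext x a b i
  by_cases hx : x ∈ Om
  · exact h x hx a b i
  · rw [(isI f).zero_off x hx, (isI g).zero_off x hx]

theorem dop_add (X Y : Mat) (f : Isp) : dop (X + Y) f = dop X f + dop Y f := by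
  refine dopbound_ext fun x hx a b i => ?_
  rw [Isp.add_app, Pi.add_apply, Pi.add_apply, Pi.add_apply, dop_app _ f x hx, dop_app _ f x hx,
    dop_app _ f x hx]
  have h1 : lmul (X + Y) x = lmul X x + lmul Y x := by
    funext a i
    simp only [lmul, Pi.add_apply, Matrix.add_apply, add_mul, Finset.sum_add_distrib]
  rw [h1, map_add]
  simp only [Pi.add_apply, Matrix.add_apply, Complex.ofReal_add, add_mul, Finset.sum_add_distrib]
  ring

theorem dop_smul (c : ℝ) (X : Mat) (f : Isp) : dop (c • X) f = (c : ℂ) • dop X f := by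
  refine dopbound_ext fun x hx a b i => ?_
  rw [Isp.smul_app, Pi.smul_apply, Pi.smul_apply, Pi.smul_apply, dop_app _ f x hx,
    dop_app _ f x hx]
  have h1 : lmul (c • X) x = c • lmul X x := by
    funext a i
    simp only [lmul, Pi.smul_apply, Matrix.smul_apply, smul_eq_mul, Finset.mul_sum, mul_assoc]
  rw [h1, map_smul]
  simp only [Pi.smul_apply, Matrix.smul_apply, Complex.real_smul, smul_eq_mul,
    Complex.ofReal_mul, mul_sub, Finset.mul_sum, mul_neg, mul_assoc]

theorem dop_sub (X Y : Mat) (f : Isp) : dop (X - Y) f = dop X f - dop Y f := by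
  have h := dop_add (X - Y) Y f
  rw [sub_add_cancel] at h
  rw [h, add_sub_cancel_right]

end SoCo
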