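import Pool.Agent.H.MP_0f3f77_al.OpgTop
import Pool.Agent.H.MP_0f3f77_al.OpgExp
import Pool.Agent.H.MP_0f3f77_al.ActDop
import Pool.Agent.H.MP_0f3f77_al.Bracket

/-!
The group elements used later, and their one-parameter groups.
-/

open scoped Topology ContDiff
open MeasureTheory

noncomputable section

namespace SoCo

abbrev R3 : Type := ℝ × ℝ × ℝ

/-- Rotations of the first two coordinates. -/
def rotM (θ : ℝ) : Mat :=
  !![Real.cos θ, -Real.sin θ, 0, 0; Real.sin θ, Real.cos θ, 0, 0; 0, 0, 1, 0; 0, 0, 0, 1]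

theorem rotM_mul (s t : ℝ) : rotM s * rotM t = rotM (s + t) := by
  ext i j
  fin_cases i <;> fin_cases j <;>
    simp [rotM, Matrix.mul_apply, Fin.sum_univ_four, Real.cos_add, Real.sin_add] <;> ring

theorem rotM_zero : rotM 0 = 1 := by
  ext i j
  fin_cases i <;> fin_cases j <;> simp [rotM]

def rot (θ : ℝ) : GL (Fin 4) ℝ :=
  ⟨rotM θ, rotM (-θ), by rw [rotM_mul, add_neg_cancel, rotM_zero],
    by rw [rotM_mul, neg_add_cancel, rotM_zero]⟩

theorem rot_add (s t : ℝ) : rot (s + t) = rot s * rot t :=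
  Units.ext (rotM_mul s t).symm

theorem rot_zero : rot 0 = 1 := Units.ext rotM_zero

/-- The group `V_4`. -/
def unM (u : R3) : Mat := !![1, 0, 0, u.1; 0, 1, 0, u.2.1; 0, 0, 1, u.2.2; 0, 0, 0, 1]

theorem unM_mul (s t : R3) : unM s * unM t = unM (s + t) := by
  ext i j
  fin_cases i <;> fin_cases j <;>
    simp [unM, Matrix.mul_apply, Fin.sum_univ_four] <;> ring

theorem unM_zero : unM 0 = 1 := by
  ext i j
  fin_cases i <;> fin_cases j <;> simp [unM]

def un (u : R3) : GL (Fin 4) ℝ :=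
  ⟨unM u, unM (-u), by rw [unM_mul, add_neg_cancel, unM_zero],
    by rw [unM_mul, neg_add_cancel, unM_zero]⟩

theorem un_add (s t : R3) : un (s + t) = un s * un t :=
  Units.ext (unM_mul s t).symm

theorem un_zero : un 0 = 1 := Units.ext unM_zero

/-- The group `V_3`. -/
def vnM (p : ℝ × ℝ) : Mat := !![1, 0, p.1, 0; 0, 1, p.2, 0; 0, 0, 1, 0; 0, 0, 0, 1]

theorem vnM_mul (s t : ℝ × ℝ) : vnM s * vnM t = vnM (s + t) := by
  ext i j
  fin_cases i <;> fin_cases j <;>
    simp [vnM, Matrix.mul_apply, Fin.sum_univ_four] <;> ring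

theorem vnM_zero : vnM 0 = 1 := by
  ext i j
  fin_cases i <;> fin_cases j <;> simp [vnM]

def vn (p : ℝ × ℝ) : GL (Fin 4) ℝ :=
  ⟨vnM p, vnM (-p), by rw [vnM_mul, add_neg_cancel, vnM_zero],
    by rw [vnM_mul, neg_add_cancel, vnM_zero]⟩

theorem vn_add (s t : ℝ × ℝ) : vn (s + t) = vn s * vn t :=
  Units.ext (vnM_mul s t).symm

theorem vn_zero : vn 0 = 1 := Units.ext vnM_zero

/-- Diagonal matrices `diag(s, t, 1, 1)`. -/
def dgM (s t : ℝ) : Mat := !![s, 0, 0, 0; 0, t, 0, 0; 0, 0, 1, 0; 0, 0, 0, 1]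

theorem dgM_mul (s t s' t' : ℝ) : dgM s t * dgM s' t' = dgM (s * s') (t * t') := by
  ext i j
  fin_cases i <;> fin_cases j <;>
    simp [dgM, Matrix.mul_apply, Fin.sum_univ_four]

theorem dgM_one : dgM 1 1 = 1 := by
  ext i j
  fin_cases i <;> fin_cases j <;> simp [dgM]

def dg (s t : ℝ) (hs : s ≠ 0) (ht : t ≠ 0) : GL (Fin 4) ℝ :=
  ⟨dgM s t, dgM s⁻¹ t⁻¹, by rw [dgM_mul, mul_inv_cancel₀ hs, mul_inv_cancel₀ ht, dgM_one],
    by rw [dgM_mul, inv_mul_cancel₀ hs, inv_mul_cancel₀ ht, dgM_one]⟩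

/-- The matrices `1 + r E_12`. -/
def upM (r : ℝ) : Mat := !![1, r, 0, 0; 0, 1, 0, 0; 0, 0, 1, 0; 0, 0, 0, 1]

theorem upM_mul (s t : ℝ) : upM s * upM t = upM (s + t) := by
  ext i j
  fin_cases i <;> fin_cases j <;>
    simp [upM, Matrix.mul_apply, Fin.sum_univ_four] <;> ring

theorem upM_zero : upM 0 = 1 := by
  ext i j
  fin_cases i <;> fin_cases j <;> simp [upM]

def up (r : ℝ) : GL (Fin 4) ℝ :=
  ⟨upM r, upM (-r), by rw [upM_mul, add_neg_cancel, upM_zero],
    by rw [upM_mul, neg_add_cancel, upM_zero]⟩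

/-- The generator of the rotations. -/
def Jm : Mat := Eij 1 0 - Eij 0 1

/-- `E_11 - E_22`. -/
def Hm : Mat := Eij 0 0 - Eij 1 1

theorem elts_opg {γ : ℝ → GL (Fin 4) ℝ} {X : Mat} (hadd : ∀ s t, γ (s + t) = γ s * γ t)
    (h0 : γ 0 = 1) (hd : ∀ t i j, HasDerivAt (fun t => ((γ t : GL (Fin 4) ℝ) : Mat) i j)
      ((((γ t : GL (Fin 4) ℝ) : Mat) * X) i j) t) : Opg γ X := by
  have hinv : ∀ t, (γ t)⁻¹ = γ (-t) := by
    intro t
    apply inv_eq_of_mul_eq_one_right
    rw [← hadd, add_neg_cancel, h0]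
  have hval : Continuous (fun t => ((γ t : GL (Fin 4) ℝ) : Mat)) :=
    continuous_matrix fun i j => continuous_iff_continuousAt.2 fun t => (hd t i j).continuousAt
  refine ⟨Units.continuous_iff.2 ⟨hval, ?_⟩, hadd, hd⟩
  have h1 : (fun t => (((γ t)⁻¹ : GL (Fin 4) ℝ) : Mat)) =
      fun t => ((γ (-t) : GL (Fin 4) ℝ) : Mat) := by
    funext t
    rw [hinv]
  rw [h1]
  exact hval.comp continuous_neg

theorem elts_rot (t : ℝ) : rotM t * Jm =
    !![-Real.sin t, -Real.cos t, 0, 0; Real.cos t, -Real.sin t, 0, 0; 0, 0, 0, 0; 0, 0, 0, 0] := by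
  ext i j
  fin_cases i <;> fin_cases j <;>
    simp [rotM, Jm, Eij, Matrix.mul_apply, Fin.sum_univ_four, Matrix.single_apply]

theorem opg_rot : Opg rot Jm := by
  refine elts_opg rot_add rot_zero fun t i j => ?_
  have h : (((rot t : GL (Fin 4) ℝ) : Mat) * Jm) i j = (!![-Real.sin t, -Real.cos t, 0, 0;
      Real.cos t, -Real.sin t, 0, 0; 0, 0, 0, 0; 0, 0, 0, 0] : Mat) i j :=
    congrFun (congrFun (elts_rot t) i) j
  rw [h]
  fin_cases i <;> fin_cases j <;>
    first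
    | exact Real.hasDerivAt_cos t
    | exact (Real.hasDerivAt_sin t).neg
    | exact Real.hasDerivAt_sin t
    | exact hasDerivAt_const t _

theorem elts_un (u v : R3) : unM u * (v.1 • Eij 0 3 + v.2.1 • Eij 1 3 + v.2.2 • Eij 2 3) =
    !![0, 0, 0, v.1; 0, 0, 0, v.2.1; 0, 0, 0, v.2.2; 0, 0, 0, 0] := by
  ext i j
  fin_cases i <;> fin_cases j <;>
    simp [unM, Eij, Matrix.mul_apply, Fin.sum_univ_four, Matrix.single_apply]

theorem elts_lin (a t : ℝ) : HasDerivAt (fun t : ℝ => t * a) a t := by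
  have h := (hasDerivAt_id t).mul_const a
  rw [one_mul] at h
  exact h

theorem opg_un (u : R3) : Opg (fun t => un (t • u))
    (u.1 • Eij 0 3 + u.2.1 • Eij 1 3 + u.2.2 • Eij 2 3) := by
  refine elts_opg (fun s t => ?_) ?_ fun t i j => ?_
  · rw [add_smul, un_add]
  · rw [zero_smul, un_zero]
  · have h : (((un (t • u) : GL (Fin 4) ℝ) : Mat) *
        (u.1 • Eij 0 3 + u.2.1 • Eij 1 3 + u.2.2 • Eij 2 3)) i j =
        (!![0, 0, 0, u.1; 0, 0, 0, u.2.1; 0, 0, 0, u.2.2; 0, 0, 0, 0] : Mat) i j :=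
      congrFun (congrFun (elts_un (t • u) u) i) j
    rw [h]
    fin_cases i <;> fin_cases j <;>
      first
      | exact elts_lin u.1 t
      | exact elts_lin u.2.1 t
      | exact elts_lin u.2.2 t
      | exact hasDerivAt_const t _

theorem elts_vn (p q : ℝ × ℝ) : vnM p * (q.1 • Eij 0 2 + q.2 • Eij 1 2) =
    !![0, 0, q.1, 0; 0, 0, q.2, 0; 0, 0, 0, 0; 0, 0, 0, 0] := by
  ext i j
  fin_cases i <;> fin_cases j <;>
    simp [vnM, Eij, Matrix.mul_apply, Fin.sum_univ_four, Matrix.single_apply]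

theorem opg_vn (p : ℝ × ℝ) : Opg (fun t => vn (t • p)) (p.1 • Eij 0 2 + p.2 • Eij 1 2) := by
  refine elts_opg (fun s t => ?_) ?_ fun t i j => ?_
  · rw [add_smul, vn_add]
  · rw [zero_smul, vn_zero]
  · have h : (((vn (t • p) : GL (Fin 4) ℝ) : Mat) * (p.1 • Eij 0 2 + p.2 • Eij 1 2)) i j =
        (!![0, 0, p.1, 0; 0, 0, p.2, 0; 0, 0, 0, 0; 0, 0, 0, 0] : Mat) i j :=
      congrFun (congrFun (elts_vn (t • p) p) i) j
    rw [h]
    fin_cases i <;> fin_cases j <;>
      first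
      | exact elts_lin p.1 t
      | exact elts_lin p.2 t
      | exact hasDerivAt_const t _

theorem elts_up (r : ℝ) : upM r * Eij 0 1 =
    !![0, 1, 0, 0; 0, 0, 0, 0; 0, 0, 0, 0; 0, 0, 0, 0] := by
  ext i j
  fin_cases i <;> fin_cases j <;>
    simp [upM, Eij, Matrix.mul_apply, Fin.sum_univ_four, Matrix.single_apply]

theorem opg_up : Opg up (Eij 0 1) := by
  refine elts_opg (fun s t => ?_) ?_ fun t i j => ?_
  · exact Units.ext (upM_mul s t).symm
  · exact Units.ext upM_zero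
  · have h : (((up t : GL (Fin 4) ℝ) : Mat) * Eij 0 1) i j =
        (!![0, 1, 0, 0; 0, 0, 0, 0; 0, 0, 0, 0; 0, 0, 0, 0] : Mat) i j :=
      congrFun (congrFun (elts_up t) i) j
    rw [h]
    fin_cases i <;> fin_cases j <;>
      first
      | exact hasDerivAt_id t
      | exact hasDerivAt_const t _

theorem elts_dg0 (s t : ℝ) : dgM s t * Eij 0 0 =
    !![s, 0, 0, 0; 0, 0, 0, 0; 0, 0, 0, 0; 0, 0, 0, 0] := by
  ext i j
  fin_cases i <;> fin_cases j <;>
    simp [dgM, Eij, Matrix.mul_apply, Fin.sum_univ_four, Matrix.single_apply]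

theorem elts_dg1 (s t : ℝ) : dgM s t * Eij 1 1 =
    !![0, 0, 0, 0; 0, t, 0, 0; 0, 0, 0, 0; 0, 0, 0, 0] := by
  ext i j
  fin_cases i <;> fin_cases j <;>
    simp [dgM, Eij, Matrix.mul_apply, Fin.sum_univ_four, Matrix.single_apply]

theorem opg_dg0 : Opg (fun s => dg (Real.exp s) 1 (Real.exp_ne_zero s) one_ne_zero)
    (Eij 0 0) := by
  refine elts_opg (fun s t => ?_) ?_ fun t i j => ?_
  · apply Units.ext
    show dgM (Real.exp (s + t)) 1 = dgM (Real.exp s) 1 * dgM (Real.exp t) 1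
    rw [dgM_mul, Real.exp_add, one_mul]
  · apply Units.ext
    show dgM (Real.exp 0) 1 = 1
    rw [Real.exp_zero, dgM_one]
  · have h : (dgM (Real.exp t) 1 * Eij 0 0) i j =
        (!![Real.exp t, 0, 0, 0; 0, 0, 0, 0; 0, 0, 0, 0; 0, 0, 0, 0] : Mat) i j :=
      congrFun (congrFun (elts_dg0 (Real.exp t) 1) i) j
    show HasDerivAt (fun t => dgM (Real.exp t) 1 i j) ((dgM (Real.exp t) 1 * Eij 0 0) i j) t
    rw [h]
    fin_cases i <;> fin_cases j <;>
      first
      | exact Real.hasDerivAt_exp t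
      | exact hasDerivAt_const t _

theorem opg_dg1 : Opg (fun s => dg 1 (Real.exp s) one_ne_zero (Real.exp_ne_zero s))
    (Eij 1 1) := by
  refine elts_opg (fun s t => ?_) ?_ fun t i j => ?_
  · apply Units.ext
    show dgM 1 (Real.exp (s + t)) = dgM 1 (Real.exp s) * dgM 1 (Real.exp t)
    rw [dgM_mul, Real.exp_add, one_mul]
  · apply Units.ext
    show dgM 1 (Real.exp 0) = 1
    rw [Real.exp_zero, dgM_one]
  · have h : (dgM 1 (Real.exp t) * Eij 1 1) i j =
        (!![0, 0, 0, 0; 0, Real.exp t, 0, 0; 0, 0, 0, 0; 0, 0, 0, 0] : Mat) i j :=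
      congrFun (congrFun (elts_dg1 1 (Real.exp t)) i) j
    show HasDerivAt (fun t => dgM 1 (Real.exp t) i j) ((dgM 1 (Real.exp t) * Eij 1 1) i j) t
    rw [h]
    fin_cases i <;> fin_cases j <;>
      first
      | exact Real.hasDerivAt_exp t
      | exact hasDerivAt_const t _

theorem elts_cont_unM : Continuous unM := by
  apply continuous_matrix
  intro i j
  fin_cases i <;> fin_cases j <;>
    first
    | exact continuous_const
    | exact continuous_fst
    | exact continuous_fst.comp continuous_snd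
    | exact continuous_snd.comp continuous_snd

theorem elts_cont_rotM : Continuous rotM := by
  apply continuous_matrix
  intro i j
  fin_cases i <;> fin_cases j <;>
    first
    | exact continuous_const
    | exact Real.continuous_cos
    | exact Real.continuous_sin
    | exact Real.continuous_sin.neg

theorem cont_un : Continuous un :=
  Units.continuous_iff.2 ⟨elts_cont_unM, elts_cont_unM.comp continuous_neg⟩

theorem cont_rot : Continuous rot :=
  Units.continuous_iff.2 ⟨elts_cont_rotM, elts_cont_rotM.comp continuous_neg⟩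

end SoCo
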