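import Mathlib

/-!
Linear algebra of the weight data: families of subspaces of `ℂ^6`.
Coordinates `(c0, c1, d0, d1, e0, e1)`.
-/

noncomputable section

namespace SoCo

abbrev V6 : Type := Fin 6 → ℂ

/-- The effect of `H + i (J + 2 X)` on a vector of weight `κ`; the new weight is `κ - 2`. -/
def epv (κ : ℤ) (v : V6) : V6 :=
  ![(1 - κ) * v 0, -κ * v 1, (2 - κ) * v 2 + 2 * Complex.I * v 1, (1 - κ) * v 3,
    (3 - κ) * v 4 + 2 * Complex.I * v 3, (2 - κ) * v 5]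

/-- The effect of `H - i (J + 2 X)`; the new weight is `κ + 2`. -/
def emv (κ : ℤ) (v : V6) : V6 :=
  ![(1 + κ) * v 0, κ * v 1, (2 + κ) * v 2 - 2 * Complex.I * v 1, (1 + κ) * v 3,
    (3 + κ) * v 4 - 2 * Complex.I * v 3, (2 + κ) * v 5]

/-- The effect of `v1 + i v2`; the new weight is `κ - 1`. -/
def vpv (κ : ℤ) (v : V6) : V6 :=
  ![0, -Complex.I * v 0, -κ * v 0, (1 - κ) * v 1 - Complex.I * v 2,
    (1 - κ) * v 2 + Complex.I * v 1, (2 - κ) * v 3 - Complex.I * v 4]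

/-- The effect of `v1 - i v2`; the new weight is `κ + 1`. -/
def vmv (κ : ℤ) (v : V6) : V6 :=
  ![0, Complex.I * v 0, κ * v 0, (1 + κ) * v 1 + Complex.I * v 2,
    (1 + κ) * v 2 - Complex.I * v 1, (2 + κ) * v 3 + Complex.I * v 4]

/-- The effect of `diag(2, 2, 1, 1)`. -/
def dlv (v : V6) : V6 := ![2 * v 0, 4 * v 1, 4 * v 2, 8 * v 3, 8 * v 4, 16 * v 5]

/-- The parity condition. -/
def ParC (κ : ℤ) (v : V6) : Prop :=
  (Odd κ → v 0 = 0 ∧ v 3 = 0 ∧ v 4 = 0) ∧ (Even κ → v 1 = 0 ∧ v 2 = 0 ∧ v 5 = 0)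

/-- A family of subspaces stable under all operations. -/
structure Fam (Q : ℤ → Submodule ℂ V6) : Prop where
  par : ∀ κ, ∀ v ∈ Q κ, ParC κ v
  dl : ∀ κ, ∀ v ∈ Q κ, dlv v ∈ Q κ
  ep : ∀ κ, ∀ v ∈ Q κ, epv κ v ∈ Q (κ - 2)
  em : ∀ κ, ∀ v ∈ Q κ, emv κ v ∈ Q (κ + 2)
  vp : ∀ κ, ∀ v ∈ Q κ, vpv κ v ∈ Q (κ - 1)
  vm : ∀ κ, ∀ v ∈ Q κ, vmv κ v ∈ Q (κ + 1)

/-- The nine types of conditions. -/
def Cond : Fin 9 → ℤ → V6 → Prop
  | 0, _, v => v 0 = 0 ∧ v 1 = 0 ∧ v 2 = 0 ∧ v 3 = 0 ∧ v 4 = 0 ∧ v 5 = 0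
  | 1, _, v => v 0 = 0 ∧ v 1 = 0 ∧ v 2 = 0 ∧ v 3 = 0 ∧ v 4 = 0
  | 2, _, v => v 0 = 0 ∧ v 1 = 0 ∧ v 2 = 0 ∧ v 3 = 0
  | 3, κ, v => v 0 = 0 ∧ v 1 = 0 ∧ v 2 = 0 ∧ v 4 + κ * Complex.I * v 3 = 0
  | 4, _, v => v 0 = 0 ∧ v 1 = 0 ∧ v 2 = 0
  | 5, κ, v => v 0 = 0 ∧ v 1 = 0 ∧ v 4 + κ * Complex.I * v 3 = 0
  | 6, _, v => v 0 = 0 ∧ v 1 = 0
  | 7, _, v => v 0 = 0
  | 8, _, _ => True

/-- Standard basis vectors. -/
def ev (m : Fin 6) : V6 := Pi.single m 1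

/-- The vector spanning the type `D` in degree 2. -/
def dv (κ : ℤ) : V6 := ev 3 - (κ * Complex.I) • ev 4

variable {Q : ℤ → Submodule ℂ V6}

theorem fam_ext {v w : V6} (h0 : v 0 = w 0) (h1 : v 1 = w 1) (h2 : v 2 = w 2) (h3 : v 3 = w 3)
    (h4 : v 4 = w 4) (h5 : v 5 = w 5) : v = w := by
  funext m
  fin_cases m
  · exact h0
  · exact h1
  · exact h2
  · exact h3
  · exact h4
  · exact h5

theorem fam_ev (i j : Fin 6) : ev i j = if j = i then 1 else 0 := Pi.single_apply i 1 j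

theorem fam_dvj (κ : ℤ) (j : Fin 6) :
    dv κ j = (if j = 3 then 1 else 0) - κ * Complex.I * (if j = 4 then 1 else 0) := by
  rw [← fam_ev, ← fam_ev]
  rfl

theorem fam_dlv0 (v : V6) : dlv v 0 = 2 * v 0 := rfl
theorem fam_dlv1 (v : V6) : dlv v 1 = 4 * v 1 := rfl
theorem fam_dlv2 (v : V6) : dlv v 2 = 4 * v 2 := rfl
theorem fam_dlv3 (v : V6) : dlv v 3 = 8 * v 3 := rfl
theorem fam_dlv4 (v : V6) : dlv v 4 = 8 * v 4 := rfl
theorem fam_dlv5 (v : V6) : dlv v 5 = 16 * v 5 := rfl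
theorem fam_epv0 (κ : ℤ) (v : V6) : epv κ v 0 = (1 - κ) * v 0 := rfl
theorem fam_epv1 (κ : ℤ) (v : V6) : epv κ v 1 = -κ * v 1 := rfl
theorem fam_epv2 (κ : ℤ) (v : V6) : epv κ v 2 = (2 - κ) * v 2 + 2 * Complex.I * v 1 := rfl
theorem fam_epv3 (κ : ℤ) (v : V6) : epv κ v 3 = (1 - κ) * v 3 := rfl
theorem fam_epv4 (κ : ℤ) (v : V6) : epv κ v 4 = (3 - κ) * v 4 + 2 * Complex.I * v 3 := rfl
theorem fam_epv5 (κ : ℤ) (v : V6) : epv κ v 5 = (2 - κ) * v 5 := rfl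
theorem fam_emv0 (κ : ℤ) (v : V6) : emv κ v 0 = (1 + κ) * v 0 := rfl
theorem fam_emv1 (κ : ℤ) (v : V6) : emv κ v 1 = κ * v 1 := rfl
theorem fam_emv2 (κ : ℤ) (v : V6) : emv κ v 2 = (2 + κ) * v 2 - 2 * Complex.I * v 1 := rfl
theorem fam_emv3 (κ : ℤ) (v : V6) : emv κ v 3 = (1 + κ) * v 3 := rfl
theorem fam_emv4 (κ : ℤ) (v : V6) : emv κ v 4 = (3 + κ) * v 4 - 2 * Complex.I * v 3 := rfl
theorem fam_emv5 (κ : ℤ) (v : V6) : emv κ v 5 = (2 + κ) * v 5 := rfl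
theorem fam_vpv0 (κ : ℤ) (v : V6) : vpv κ v 0 = 0 := rfl
theorem fam_vpv1 (κ : ℤ) (v : V6) : vpv κ v 1 = -Complex.I * v 0 := rfl
theorem fam_vpv2 (κ : ℤ) (v : V6) : vpv κ v 2 = -κ * v 0 := rfl
theorem fam_vpv3 (κ : ℤ) (v : V6) : vpv κ v 3 = (1 - κ) * v 1 - Complex.I * v 2 := rfl
theorem fam_vpv4 (κ : ℤ) (v : V6) : vpv κ v 4 = (1 - κ) * v 2 + Complex.I * v 1 := rfl
theorem fam_vpv5 (κ : ℤ) (v : V6) : vpv κ v 5 = (2 - κ) * v 3 - Complex.I * v 4 := rfl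
theorem fam_vmv0 (κ : ℤ) (v : V6) : vmv κ v 0 = 0 := rfl
theorem fam_vmv1 (κ : ℤ) (v : V6) : vmv κ v 1 = Complex.I * v 0 := rfl
theorem fam_vmv2 (κ : ℤ) (v : V6) : vmv κ v 2 = κ * v 0 := rfl
theorem fam_vmv3 (κ : ℤ) (v : V6) : vmv κ v 3 = (1 + κ) * v 1 + Complex.I * v 2 := rfl
theorem fam_vmv4 (κ : ℤ) (v : V6) : vmv κ v 4 = (1 + κ) * v 2 - Complex.I * v 1 := rfl
theorem fam_vmv5 (κ : ℤ) (v : V6) : vmv κ v 5 = (2 + κ) * v 3 + Complex.I * v 4 := rfl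

theorem fam_unscale {κ : ℤ} {c : ℂ} {w : V6} (hc : c ≠ 0) (h : c • w ∈ Q κ) : w ∈ Q κ := by
  have h4 := Submodule.smul_mem _ c⁻¹ h
  rwa [smul_smul, inv_mul_cancel₀ hc, one_smul] at h4

theorem fam_of_eq {κ : ℤ} {v w : V6} (h : v ∈ Q κ) (hw : v = w) : w ∈ Q κ := hw ▸ h

/-- Induction in steps of two. -/
theorem fam_step {P : ℤ → Prop} {κ : ℤ} (h0 : P κ) (hp : ∀ l, Even (l - κ) → P l → P (l - 2))
    (hm : ∀ l, Even (l - κ) → P l → P (l + 2)) : ∀ l, Even (l - κ) → P l := by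
  have key : ∀ n : ℤ, P (κ + 2 * n) := by
    intro n
    induction n using Int.induction_on with
    | zero => simpa using h0
    | succ n ih =>
      have h1 := hm (κ + 2 * n) ⟨n, by ring⟩ ih
      have h2 : κ + 2 * (n : ℤ) + 2 = κ + 2 * ((n : ℤ) + 1) := by ring
      rwa [h2] at h1
    | pred n ih =>
      have h1 := hp (κ + 2 * (-n)) ⟨-n, by ring⟩ ih
      have h2 : κ + 2 * (-(n : ℤ)) - 2 = κ + 2 * (-(n : ℤ) - 1) := by ring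
      rwa [h2] at h1
  intro l hl
  obtain ⟨n, hn⟩ := hl
  have h1 : l = κ + 2 * n := by linarith
  rw [h1]
  exact key n

theorem fam_odd_ne {l : ℤ} (hl : Odd l) (a : ℤ) (ha : Even a) : ((a : ℂ) + l ≠ 0) ∧ ((a : ℂ) - l ≠ 0) := by
  have h1 : a + l ≠ 0 := fun h => by
    have h2 := ha.add_odd hl
    rw [h] at h2
    exact absurd h2 (by decide)
  have h2 : a - l ≠ 0 := fun h => by
    have h3 := ha.sub_odd hl
    rw [h] at h3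
    exact absurd h3 (by decide)
  exact ⟨by exact_mod_cast h1, by exact_mod_cast h2⟩

theorem fam_even_ne {l : ℤ} (hl : Even l) (a : ℤ) (ha : Odd a) : ((a : ℂ) + l ≠ 0) ∧ ((a : ℂ) - l ≠ 0) := by
  have h1 : a + l ≠ 0 := fun h => by
    have h2 := ha.add_even hl
    rw [h] at h2
    exact absurd h2 (by decide)
  have h2 : a - l ≠ 0 := fun h => by
    have h3 := ha.sub_even hl
    rw [h] at h3
    exact absurd h3 (by decide)
  exact ⟨by exact_mod_cast h1, by exact_mod_cast h2⟩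

/-- Graded components.  Proof: combine the parity condition with
`(dl - 8) v = -6 v_0 e_0` for `κ` even (`v = v_0 e_0 + v_3 e_3 + v_4 e_4`) and
`(dl - 16) v = -12 (v_1 e_1 + v_2 e_2)` for `κ` odd (`v = v_1 e_1 + v_2 e_2 + v_5 e_5`). -/
theorem Fam.comp (h : Fam Q) {κ : ℤ} {v : V6} (hv : v ∈ Q κ) :
    v 0 • ev 0 ∈ Q κ ∧ v 1 • ev 1 + v 2 • ev 2 ∈ Q κ ∧ v 3 • ev 3 + v 4 • ev 4 ∈ Q κ ∧
      v 5 • ev 5 ∈ Q κ := by
  have hd := h.dl κ v hv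
  rcases Int.even_or_odd κ with hκ | hκ
  · obtain ⟨h1, h2, h5⟩ := (h.par κ v hv).2 hκ
    have e0 : v 0 • ev 0 ∈ Q κ := by
      refine fam_of_eq (Submodule.smul_mem _ (-(1 / 6 : ℂ))
        (sub_mem hd (Submodule.smul_mem _ (8 : ℂ) hv))) ?_
      apply fam_ext <;>
        simp [-Matrix.smul_cons, fam_ev, fam_dlv0, fam_dlv1, fam_dlv2, fam_dlv3, fam_dlv4,
          fam_dlv5, h1, h2, h5]
      ring
    refine ⟨e0, ?_, ?_, ?_⟩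
    · rw [h1, h2, zero_smul, zero_smul, add_zero]
      exact zero_mem _
    · refine fam_of_eq (sub_mem hv e0) ?_
      apply fam_ext <;> simp [fam_ev, h1, h2, h5]
    · rw [h5, zero_smul]
      exact zero_mem _
  · obtain ⟨h0, h3, h4⟩ := (h.par κ v hv).1 hκ
    have e12 : v 1 • ev 1 + v 2 • ev 2 ∈ Q κ := by
      refine fam_of_eq (Submodule.smul_mem _ (-(1 / 12 : ℂ))
        (sub_mem hd (Submodule.smul_mem _ (16 : ℂ) hv))) ?_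
      apply fam_ext <;>
        simp [fam_ev, fam_dlv0, fam_dlv1, fam_dlv2, fam_dlv3, fam_dlv4,
          fam_dlv5, h0, h3, h4] <;> ring
    refine ⟨?_, e12, ?_, ?_⟩
    · rw [h0, zero_smul]
      exact zero_mem _
    · rw [h3, h4, zero_smul, zero_smul, add_zero]
      exact zero_mem _
    · refine fam_of_eq (sub_mem hv e12) ?_
      apply fam_ext <;> simp [fam_ev, h0, h3, h4]

end SoCo
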