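import Pool.Agent.H.MP_0f3f77_al.Fam

/-!
Generation lemmas for stable families.  All weights `κ` in the hypotheses have the right parity
automatically (by `Fam.par` if the vector is nonzero); the transitions `κ → κ ± 2` have nonzero
coefficients for the relevant parity:
* `ev 0` (κ even): `epv κ (ev 0) = (1 - κ) ev 0`, `emv κ (ev 0) = (1 + κ) ev 0`;
* `ev 2` (κ odd): `(2 - κ) ev 2`, `(2 + κ) ev 2`;
* `ev 4` (κ even): `(3 - κ) ev 4`, `(3 + κ) ev 4`;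
* `dv κ` (κ even): `epv κ (dv κ) = (1 - κ) dv (κ - 2)`, `emv κ (dv κ) = (1 + κ) dv (κ + 2)`;
* `ev 5` (κ odd): `(2 - κ) ev 5`, `(2 + κ) ev 5`.
A statement for all even (odd) `κ'` follows by an induction in steps of `2` in both directions
(write `κ' = κ + 2 n`, `Int.induction_on` for `n`).
* `e12_of_e0`: `vpv (κ + 1) (ev 0) = -i ev 1 - (κ + 1) ev 2`,
  `vmv (κ - 1) (ev 0) = i ev 1 + (κ - 1) ev 2`; the sum is `-2 ev 2`.
* `e12_of_e1`: if `v ∈ Q κ`, `v 1 ≠ 0` (κ odd), then by `comp` we may take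
  `v = v_1 ev 1 + v_2 ev 2`; `emv (κ-2) (epv κ v) + κ (κ - 2) v = 4 i κ v_1 ev 2`, so
  `ev 2 ∈ Q κ` and `ev 1 ∈ Q κ`; `epv κ (ev 1) = -κ ev 1 + 2 i ev 2`, so the same at `κ ± 2`.
* `e34_of_e12`: `vpv (κ + 1) (ev 1) = -κ ev 3 + i ev 4`, `vpv (κ + 1) (ev 2) = -i ev 3 - κ ev 4`,
  determinant `κ^2 - 1 ≠ 0` for `κ` even.
* `dv_of_e2`: `vpv (κ + 1) (ev 2) = -i ev 3 - κ ev 4 = -i dv κ`.
* `cas`: for `κ` even and `v = v_3 ev 3 + v_4 ev 4 ∈ Q κ`:
  `epv (κ + 2) (emv κ v) + (1 + κ)^2 v = 4 (v_4 + i κ v_3) ev 4`, and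
  `v - (v_4 + i κ v_3) ev 4 = v_3 dv κ`.
* `e5_of_e4`: `vpv κ (ev 4) = -i ev 5`;  `e5_of_dv`: `vpv κ (dv κ) = (2 - 2 κ) ev 5`
  (`(2 - κ) - i (-i κ) = 2 - 2κ`), nonzero for `κ` even.
-/

noncomputable section

namespace SoCo

variable {Q : ℤ → Submodule ℂ V6}

theorem Fam.e34_of_e12 (h : Fam Q) (h0 : ∀ l : ℤ, Odd l → ev 1 ∈ Q l ∧ ev 2 ∈ Q l) :
    ∀ l : ℤ, Even l → ev 3 ∈ Q l ∧ ev 4 ∈ Q l := by
  intro l hl
  obtain ⟨g1, g2⟩ := h0 (l + 1) hl.add_one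
  have h1 : vpv (l + 1) (ev 1) ∈ Q l := by simpa using h.vp (l + 1) _ g1
  have h2 : vpv (l + 1) (ev 2) ∈ Q l := by simpa using h.vp (l + 1) _ g2
  have hne1 := (fam_even_ne hl 1 (by decide)).1
  have hne2 := (fam_even_ne hl 1 (by decide)).2
  push_cast at hne1 hne2
  have hne : ((l : ℂ) ^ 2 - 1) ≠ 0 := by
    have h3 : ((l : ℂ) ^ 2 - 1) = -((1 + (l : ℂ)) * (1 - l)) := by ring
    rw [h3]
    exact neg_ne_zero.mpr (mul_ne_zero hne1 hne2)
  have hI : Complex.I * Complex.I = -1 := Complex.I_mul_I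
  constructor
  · refine fam_unscale hne (fam_of_eq (sub_mem (Submodule.smul_mem _ (-(l : ℂ)) h1)
      (Submodule.smul_mem _ Complex.I h2)) ?_)
    apply fam_ext <;> simp [-Matrix.smul_cons, fam_ev, fam_vpv0, fam_vpv1, fam_vpv2, fam_vpv3, fam_vpv4, fam_vpv5] <;> ring
  · refine fam_unscale hne (fam_of_eq (sub_mem (Submodule.smul_mem _ Complex.I h1)
      (Submodule.smul_mem _ (l : ℂ) h2)) ?_)
    apply fam_ext <;> simp [-Matrix.smul_cons, fam_ev, fam_vpv0, fam_vpv1, fam_vpv2, fam_vpv3, fam_vpv4, fam_vpv5] <;> ring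

theorem Fam.dv_of_e2 (h : Fam Q) (h0 : ∀ l : ℤ, Odd l → ev 2 ∈ Q l) :
    ∀ l : ℤ, Even l → dv l ∈ Q l := by
  intro l hl
  have h2 : vpv (l + 1) (ev 2) ∈ Q l := by simpa using h.vp (l + 1) _ (h0 (l + 1) hl.add_one)
  refine fam_of_eq (Submodule.smul_mem _ Complex.I h2) ?_
  apply fam_ext <;> simp [-Matrix.smul_cons, fam_ev, fam_dvj, fam_vpv0, fam_vpv1, fam_vpv2, fam_vpv3, fam_vpv4, fam_vpv5] <;> ring

theorem Fam.cas (h : Fam Q) {κ : ℤ} {v : V6} (hv : v ∈ Q κ) :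
    (v 4 + κ * Complex.I * v 3) • ev 4 ∈ Q κ ∧ v 3 • dv κ ∈ Q κ := by
  rcases Int.even_or_odd κ with hκ | hκ
  · have hw := (h.comp hv).2.2.1
    have h2 : epv (κ + 2) (emv κ (v 3 • ev 3 + v 4 • ev 4)) ∈ Q κ := by
      simpa using h.ep (κ + 2) _ (h.em κ _ hw)
    have e4 : (v 4 + κ * Complex.I * v 3) • ev 4 ∈ Q κ := by
      refine fam_unscale (c := 4) (by norm_num) (fam_of_eq (add_mem h2
        (Submodule.smul_mem _ ((1 + (κ : ℂ)) ^ 2) hw)) ?_)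
      apply fam_ext <;> simp [-Matrix.smul_cons, fam_ev, fam_epv0, fam_epv1, fam_epv2, fam_epv3, fam_epv4, fam_epv5, fam_emv0, fam_emv1, fam_emv2, fam_emv3, fam_emv4, fam_emv5] <;> ring
    refine ⟨e4, fam_of_eq (sub_mem hw e4) ?_⟩
    apply fam_ext <;> simp [-Matrix.smul_cons, fam_ev, fam_dvj] <;> ring
  · obtain ⟨_, h3, h4⟩ := (h.par κ v hv).1 hκ
    rw [h3, h4, mul_zero, add_zero, zero_smul, zero_smul]
    exact ⟨zero_mem _, zero_mem _⟩

theorem Fam.e4_all (h : Fam Q) {κ : ℤ} (hv : ev 4 ∈ Q κ) : ∀ l : ℤ, Even l → ev 4 ∈ Q l := by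
  have hκ : Even κ := by
    rcases Int.even_or_odd κ with hκ | hκ
    · exact hκ
    · have h1 := ((h.par κ _ hv).1 hκ).2.2
      simp [fam_ev] at h1
  have key := fam_step (P := fun l => ev 4 ∈ Q l) (κ := κ) hv (fun l hl hP => ?_)
    (fun l hl hP => ?_)
  · intro l hl
    exact key l (hl.sub hκ)
  · have hl2 : Even l := by simpa using hl.add hκ
    have hne := (fam_even_ne hl2 3 (by decide)).2
    push_cast at hne
    refine fam_unscale hne (fam_of_eq (h.ep l _ hP) ?_)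
    apply fam_ext <;> simp [-Matrix.smul_cons, fam_ev, fam_epv0, fam_epv1, fam_epv2, fam_epv3, fam_epv4, fam_epv5]
  · have hl2 : Even l := by simpa using hl.add hκ
    have hne := (fam_even_ne hl2 3 (by decide)).1
    push_cast at hne
    refine fam_unscale hne (fam_of_eq (h.em l _ hP) ?_)
    apply fam_ext <;> simp [-Matrix.smul_cons, fam_ev, fam_emv0, fam_emv1, fam_emv2, fam_emv3, fam_emv4, fam_emv5]

theorem Fam.dv_all (h : Fam Q) {κ : ℤ} (hv : dv κ ∈ Q κ) : ∀ l : ℤ, Even l → dv l ∈ Q l := by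
  have hκ : Even κ := by
    rcases Int.even_or_odd κ with hκ | hκ
    · exact hκ
    · have h1 := ((h.par κ _ hv).1 hκ).2.1
      simp [fam_dvj] at h1
  have key := fam_step (P := fun l => dv l ∈ Q l) (κ := κ) hv (fun l hl hP => ?_)
    (fun l hl hP => ?_)
  · intro l hl
    exact key l (hl.sub hκ)
  · have hl2 : Even l := by simpa using hl.add hκ
    have hne := (fam_even_ne hl2 1 (by decide)).2
    push_cast at hne
    refine fam_unscale hne (fam_of_eq (h.ep l _ hP) ?_)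
    apply fam_ext <;> simp [-Matrix.smul_cons, fam_ev, fam_dvj, fam_epv0, fam_epv1, fam_epv2, fam_epv3, fam_epv4, fam_epv5] <;> ring
  · have hl2 : Even l := by simpa using hl.add hκ
    have hne := (fam_even_ne hl2 1 (by decide)).1
    push_cast at hne
    refine fam_unscale hne (fam_of_eq (h.em l _ hP) ?_)
    apply fam_ext <;> simp [-Matrix.smul_cons, fam_ev, fam_dvj, fam_emv0, fam_emv1, fam_emv2, fam_emv3, fam_emv4, fam_emv5] <;> ring

end SoCo
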