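import Pool.Agent.H.MP_0f3f77_al.Fam

/-!
Generation lemmas for stable families.  All weights `κ` in the hypotheses have the right parity
automatically (by `Fam.par` if the vector is nonzero); the transitions `κ → κ ± 2` have nonzero
coefficients for the relevant parity:
* `ev 0` (κ even): `epv κ (ev 0) = (1 - κ) ev 0`, `emv κ (ev 0) = (1 + κ) ev 0`;
* `ev 2` (κ odd): `(2 - κ) ev 2`, `(2 + κ) ev 2`;
* `ev 4` (κ even): `(3 - κ) ev 4`, `(3 + κ) ev 4`;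
* `dv κ` (κ even): `epv κ (dv κ) = (1 - κ) dv (κ - 2)`, `emv κ (dv κ) = (1 + κ) dv (κ + 2)`;
* `ev 5` (κ odd): `(2 - κ) ev 5`, `(2 + κ) ev 5`.
A statement for all even (odd) `κ'` follows by an induction in steps of `2` in both directions
(write `κ' = κ + 2 n`, `Int.induction_on` for `n`).
* `e12_of_e0`: `vpv (κ + 1) (ev 0) = -i ev 1 - (κ + 1) ev 2`,
  `vmv (κ - 1) (ev 0) = i ev 1 + (κ - 1) ev 2`; the sum is `-2 ev 2`.
* `e12_of_e1`: if `v ∈ Q κ`, `v 1 ≠ 0` (κ odd), then by `comp` we may take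
  `v = v_1 ev 1 + v_2 ev 2`; `emv (κ-2) (epv κ v) + κ (κ - 2) v = 4 i κ v_1 ev 2`, so
  `ev 2 ∈ Q κ` and `ev 1 ∈ Q κ`; `epv κ (ev 1) = -κ ev 1 + 2 i ev 2`, so the same at `κ ± 2`.
* `e34_of_e12`: `vpv (κ + 1) (ev 1) = -κ ev 3 + i ev 4`, `vpv (κ + 1) (ev 2) = -i ev 3 - κ ev 4`,
  determinant `κ^2 - 1 ≠ 0` for `κ` even.
* `dv_of_e2`: `vpv (κ + 1) (ev 2) = -i ev 3 - κ ev 4 = -i dv κ`.
* `cas`: for `κ` even and `v = v_3 ev 3 + v_4 ev 4 ∈ Q κ`:
  `epv (κ + 2) (emv κ v) + (1 + κ)^2 v = 4 (v_4 + i κ v_3) ev 4`, and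
  `v - (v_4 + i κ v_3) ev 4 = v_3 dv κ`.
* `e5_of_e4`: `vpv κ (ev 4) = -i ev 5`;  `e5_of_dv`: `vpv κ (dv κ) = (2 - 2 κ) ev 5`
  (`(2 - κ) - i (-i κ) = 2 - 2κ`), nonzero for `κ` even.
-/

noncomputable section

namespace SoCo

variable {Q : ℤ → Submodule ℂ V6}

theorem famgenc_step (h : Fam Q) {κ : ℤ} (hv : ev 5 ∈ Q κ) : ∀ l : ℤ, Odd l → ev 5 ∈ Q l := by
  have hκ : Odd κ := by
    rcases Int.even_or_odd κ with hκ | hκ
    · have h1 := ((h.par κ _ hv).2 hκ).2.2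
      simp [fam_ev] at h1
    · exact hκ
  have key := fam_step (P := fun l => ev 5 ∈ Q l) (κ := κ) hv (fun l hl hP => ?_)
    (fun l hl hP => ?_)
  · intro l hl
    exact key l (hl.sub_odd hκ)
  · have hl2 : Odd l := by simpa using hl.add_odd hκ
    have hne := (fam_odd_ne hl2 2 (by decide)).2
    push_cast at hne
    refine fam_unscale hne (fam_of_eq (h.ep l _ hP) ?_)
    apply fam_ext <;> simp [-Matrix.smul_cons, fam_ev, fam_epv0, fam_epv1, fam_epv2, fam_epv3, fam_epv4, fam_epv5]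
  · have hl2 : Odd l := by simpa using hl.add_odd hκ
    have hne := (fam_odd_ne hl2 2 (by decide)).1
    push_cast at hne
    refine fam_unscale hne (fam_of_eq (h.em l _ hP) ?_)
    apply fam_ext <;> simp [-Matrix.smul_cons, fam_ev, fam_emv0, fam_emv1, fam_emv2, fam_emv3, fam_emv4, fam_emv5]

theorem Fam.e5_of_e4 (h : Fam Q) {κ : ℤ} (hv : ev 4 ∈ Q κ) : ∀ l : ℤ, Odd l → ev 5 ∈ Q l := by
  have h1 : ev 5 ∈ Q (κ - 1) := by
    refine fam_unscale (c := -Complex.I) (neg_ne_zero.mpr Complex.I_ne_zero)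
      (fam_of_eq (h.vp κ _ hv) ?_)
    apply fam_ext <;> simp [-Matrix.smul_cons, fam_ev, fam_vpv0, fam_vpv1, fam_vpv2, fam_vpv3, fam_vpv4, fam_vpv5]
  exact famgenc_step h h1

theorem Fam.e5_of_dv (h : Fam Q) {κ : ℤ} (hv : dv κ ∈ Q κ) : ∀ l : ℤ, Odd l → ev 5 ∈ Q l := by
  have hκ : Even κ := by
    rcases Int.even_or_odd κ with hκ | hκ
    · exact hκ
    · have h1 := ((h.par κ _ hv).1 hκ).2.1
      simp [fam_dvj] at h1
  have hne := (fam_even_ne hκ 1 (by decide)).2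
  push_cast at hne
  have h1 : ev 5 ∈ Q (κ - 1) := by
    refine fam_unscale (c := 2 * (1 - κ)) (mul_ne_zero (by norm_num) hne)
      (fam_of_eq (h.vp κ _ hv) ?_)
    have hI : Complex.I * (κ * Complex.I) = -κ := by
      rw [mul_left_comm, Complex.I_mul_I]
      ring
    apply fam_ext <;> simp [-Matrix.smul_cons, fam_ev, fam_dvj, fam_vpv0, fam_vpv1, fam_vpv2, fam_vpv3, fam_vpv4, fam_vpv5, hI] <;> ring
  exact famgenc_step h h1

theorem Fam.e5_all (h : Fam Q) {κ : ℤ} {v : V6} (hv : v ∈ Q κ) (h5 : v 5 ≠ 0) :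
    ∀ l : ℤ, Odd l → ev 5 ∈ Q l :=
  famgenc_step h (fam_unscale h5 (h.comp hv).2.2.2)

end SoCo
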