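import Pool.Agent.H.MP_0f3f77_al.FamGenA
import Pool.Agent.H.MP_0f3f77_al.FamGenB
import Pool.Agent.H.MP_0f3f77_al.FamGenC

/-!
The classification of stable families.

Proof of `fam_class`.  Case distinction.
* Some `v ∈ Q κ` has `v 0 ≠ 0`: `e0_all`, `e12_of_e0`, `e34_of_e12`, `e5_of_e4` give all basis
  vectors allowed by parity: type 8.
* Otherwise all `v 0 = 0`.  Some `v 1 ≠ 0`: `e12_of_e1`, `e34_of_e12`, `e5_of_e4`: type 7.
* Otherwise `v 0 = v 1 = 0` always.  Some `v 2 ≠ 0`: `e2_all`, `dv_of_e2`, `e5_of_dv`.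
  If moreover some `v ∈ Q κ` has `v 4 + κ i v 3 ≠ 0` (then `κ` is even), `cas` and `e4_all` give
  `ev 4` in all even weights, with `dv l` also `ev 3`: type 6.  Otherwise: type 5.
* Otherwise `v 0 = v 1 = v 2 = 0` always.  Let (C): some `v` with `v 4 + κ i v 3 ≠ 0`, (D): some
  `v` with `v 3 ≠ 0`.  (C) gives `ev 4` everywhere (even weights) and `ev 5`; (D) gives `dv l`
  everywhere (even weights) and `ev 5`.
  (C) and (D): type 4; only (C): type 2; only (D): type 3; neither: then `v 3 = v 4 = 0` always, and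
  it is type 1 or 0 according to whether some `v 5 ≠ 0` (`e5_all`).
In each case the vectors satisfying `ParC` and `Cond` are combinations of the basis vectors found.
-/

noncomputable section

namespace SoCo

variable {Q : ℤ → Submodule ℂ V6}

/-- Membership from the pieces. -/
theorem famclass_build {κ : ℤ} {v : V6} (hp : ParC κ v)
    (he : Even κ → v 0 • ev 0 ∈ Q κ ∧ v 3 • dv κ ∈ Q κ ∧
      (v 4 + κ * Complex.I * v 3) • ev 4 ∈ Q κ)
    (ho : Odd κ → v 1 • ev 1 ∈ Q κ ∧ v 2 • ev 2 ∈ Q κ ∧ v 5 • ev 5 ∈ Q κ) : v ∈ Q κ := by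
  rcases Int.even_or_odd κ with hκ | hκ
  · obtain ⟨h1, h2, h3⟩ := he hκ
    obtain ⟨h4, h5, h6⟩ := hp.2 hκ
    have h7 : v = v 0 • ev 0 + v 3 • dv κ + (v 4 + κ * Complex.I * v 3) • ev 4 := by
      funext m
      fin_cases m
      · simp [ev, dv]
      · simp [ev, dv, h4]
      · simp [ev, dv, h5]
      · simp [ev, dv]
      · simp [ev, dv]
        ring
      · simp [ev, dv, h6]
    rw [h7]
    exact add_mem (add_mem h1 h2) h3
  · obtain ⟨h1, h2, h3⟩ := ho hκ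
    obtain ⟨h4, h5, h6⟩ := hp.1 hκ
    have h7 : v = v 1 • ev 1 + v 2 • ev 2 + v 5 • ev 5 := by
      funext m
      fin_cases m
      · simp [ev, h4]
      · simp [ev]
      · simp [ev]
      · simp [ev, h5]
      · simp [ev, h6]
      · simp [ev]
    rw [h7]
    exact add_mem (add_mem h1 h2) h3

theorem famclass_zero {κ : ℤ} {c : ℂ} {w : V6} (hc : c = 0) : c • w ∈ Q κ := by
  rw [hc, zero_smul]
  exact zero_mem _

theorem famclass_dv {κ : ℤ} (h3 : ev 3 ∈ Q κ) (h4 : ev 4 ∈ Q κ) : dv κ ∈ Q κ :=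
  sub_mem h3 (Submodule.smul_mem _ _ h4)

/-- With a vector of degree 0 the family is everything. -/
theorem fam_top (h : Fam Q) {κ : ℤ} {v : V6} (hv : v ∈ Q κ) (h0 : v 0 ≠ 0) :
    ∀ l w, w ∈ Q l ↔ ParC l w := by
  have e0 := h.e0_all hv h0
  have e12 := h.e12_of_e0 e0
  have e34 := h.e34_of_e12 e12
  have e5 := h.e5_of_e4 (e34 0 (by simp)).2
  intro l w
  refine ⟨fun hw => h.par l w hw, fun hw => famclass_build hw (fun hl => ?_) (fun hl => ?_)⟩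
  · exact ⟨Submodule.smul_mem _ _ (e0 l hl),
      Submodule.smul_mem _ _ (famclass_dv (e34 l hl).1 (e34 l hl).2),
      Submodule.smul_mem _ _ (e34 l hl).2⟩
  · exact ⟨Submodule.smul_mem _ _ (e12 l hl).1, Submodule.smul_mem _ _ (e12 l hl).2,
      Submodule.smul_mem _ _ (e5 l hl)⟩

theorem fam_class (h : Fam Q) : ∃ i : Fin 9, ∀ κ v, v ∈ Q κ ↔ (ParC κ v ∧ Cond i κ v) := by
  by_cases c0 : ∃ κ, ∃ v ∈ Q κ, v 0 ≠ 0
  · obtain ⟨κ, v, hv, h0⟩ := c0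
    refine ⟨8, fun l w => ?_⟩
    rw [fam_top h hv h0]
    exact ⟨fun hw => ⟨hw, trivial⟩, fun hw => hw.1⟩
  push Not at c0
  by_cases c1 : ∃ κ, ∃ v ∈ Q κ, v 1 ≠ 0
  · obtain ⟨κ, v, hv, h1⟩ := c1
    have e12 := h.e12_of_e1 hv h1
    have e34 := h.e34_of_e12 e12
    have e5 := h.e5_of_e4 (e34 0 (by simp)).2
    refine ⟨7, fun l w => ⟨fun hw => ⟨h.par l w hw, c0 l w hw⟩, fun hw => ?_⟩⟩
    have hw0 : w 0 = 0 := hw.2
    refine famclass_build hw.1 (fun hl => ?_) (fun hl => ?_)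
    · exact ⟨famclass_zero hw0,
        Submodule.smul_mem _ _ (famclass_dv (e34 l hl).1 (e34 l hl).2),
        Submodule.smul_mem _ _ (e34 l hl).2⟩
    · exact ⟨Submodule.smul_mem _ _ (e12 l hl).1, Submodule.smul_mem _ _ (e12 l hl).2,
        Submodule.smul_mem _ _ (e5 l hl)⟩
  push Not at c1
  -- consequences of condition (C)
  have hC : (∃ κ : ℤ, ∃ v ∈ Q κ, v 4 + κ * Complex.I * v 3 ≠ 0) →
      (∀ l : ℤ, Even l → ev 4 ∈ Q l) ∧ (∀ l : ℤ, Odd l → ev 5 ∈ Q l) := by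
    rintro ⟨κ, v, hv, h1⟩
    have h2 := (h.cas hv).1
    have h3 : ev 4 ∈ Q κ := by
      have h4 := Submodule.smul_mem _ (v 4 + κ * Complex.I * v 3)⁻¹ h2
      rwa [smul_smul, inv_mul_cancel₀ h1, one_smul] at h4
    exact ⟨h.e4_all h3, h.e5_of_e4 h3⟩
  by_cases c2 : ∃ κ, ∃ v ∈ Q κ, v 2 ≠ 0
  · obtain ⟨κ, v, hv, h2⟩ := c2
    have e2 := h.e2_all hv (c1 κ v hv) h2
    have ed := h.dv_of_e2 e2
    have e5 := h.e5_of_dv (ed 0 (by simp))
    by_cases cC : ∃ κ : ℤ, ∃ v ∈ Q κ, v 4 + κ * Complex.I * v 3 ≠ 0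
    · have e4 := (hC cC).1
      refine ⟨6, fun l w => ⟨fun hw => ⟨h.par l w hw, c0 l w hw, c1 l w hw⟩, fun hw => ?_⟩⟩
      have hw0 : w 0 = 0 := hw.2.1
      have hw1 : w 1 = 0 := hw.2.2
      refine famclass_build hw.1 (fun hl => ?_) (fun hl => ?_)
      · exact ⟨famclass_zero hw0, Submodule.smul_mem _ _ (ed l hl),
          Submodule.smul_mem _ _ (e4 l hl)⟩
      · exact ⟨famclass_zero hw1, Submodule.smul_mem _ _ (e2 l hl),
          Submodule.smul_mem _ _ (e5 l hl)⟩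
    · push Not at cC
      refine ⟨5, fun l w => ⟨fun hw => ⟨h.par l w hw, c0 l w hw, c1 l w hw, cC l w hw⟩,
        fun hw => ?_⟩⟩
      have hw0 : w 0 = 0 := hw.2.1
      have hw1 : w 1 = 0 := hw.2.2.1
      have hwC : w 4 + l * Complex.I * w 3 = 0 := hw.2.2.2
      refine famclass_build hw.1 (fun hl => ?_) (fun hl => ?_)
      · exact ⟨famclass_zero hw0, Submodule.smul_mem _ _ (ed l hl), famclass_zero hwC⟩
      · exact ⟨famclass_zero hw1, Submodule.smul_mem _ _ (e2 l hl),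
          Submodule.smul_mem _ _ (e5 l hl)⟩
  push Not at c2
  -- consequences of condition (D)
  have hD : (∃ κ : ℤ, ∃ v ∈ Q κ, v 3 ≠ 0) →
      (∀ l : ℤ, Even l → dv l ∈ Q l) ∧ (∀ l : ℤ, Odd l → ev 5 ∈ Q l) := by
    rintro ⟨κ, v, hv, h1⟩
    have h2 := (h.cas hv).2
    have h3 : dv κ ∈ Q κ := by
      have h4 := Submodule.smul_mem _ (v 3)⁻¹ h2
      rwa [smul_smul, inv_mul_cancel₀ h1, one_smul] at h4
    exact ⟨h.dv_all h3, h.e5_of_dv h3⟩
  by_cases cC : ∃ κ : ℤ, ∃ v ∈ Q κ, v 4 + κ * Complex.I * v 3 ≠ 0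
  · obtain ⟨e4, e5⟩ := hC cC
    by_cases cD : ∃ κ : ℤ, ∃ v ∈ Q κ, v 3 ≠ 0
    · obtain ⟨ed, _⟩ := hD cD
      refine ⟨4, fun l w => ⟨fun hw => ⟨h.par l w hw, c0 l w hw, c1 l w hw, c2 l w hw⟩,
        fun hw => ?_⟩⟩
      have hw0 : w 0 = 0 := hw.2.1
      have hw1 : w 1 = 0 := hw.2.2.1
      have hw2 : w 2 = 0 := hw.2.2.2
      refine famclass_build hw.1 (fun hl => ?_) (fun hl => ?_)
      · exact ⟨famclass_zero hw0, Submodule.smul_mem _ _ (ed l hl),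
          Submodule.smul_mem _ _ (e4 l hl)⟩
      · exact ⟨famclass_zero hw1, famclass_zero hw2, Submodule.smul_mem _ _ (e5 l hl)⟩
    · push Not at cD
      refine ⟨2, fun l w => ⟨fun hw => ⟨h.par l w hw, c0 l w hw, c1 l w hw, c2 l w hw,
        cD l w hw⟩, fun hw => ?_⟩⟩
      have hw0 : w 0 = 0 := hw.2.1
      have hw1 : w 1 = 0 := hw.2.2.1
      have hw2 : w 2 = 0 := hw.2.2.2.1
      have hw3 : w 3 = 0 := hw.2.2.2.2
      refine famclass_build hw.1 (fun hl => ?_) (fun hl => ?_)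
      · exact ⟨famclass_zero hw0, famclass_zero hw3, Submodule.smul_mem _ _ (e4 l hl)⟩
      · exact ⟨famclass_zero hw1, famclass_zero hw2, Submodule.smul_mem _ _ (e5 l hl)⟩
  push Not at cC
  by_cases cD : ∃ κ : ℤ, ∃ v ∈ Q κ, v 3 ≠ 0
  · obtain ⟨ed, e5⟩ := hD cD
    refine ⟨3, fun l w => ⟨fun hw => ⟨h.par l w hw, c0 l w hw, c1 l w hw, c2 l w hw,
      cC l w hw⟩, fun hw => ?_⟩⟩
    have hw0 : w 0 = 0 := hw.2.1
    have hw1 : w 1 = 0 := hw.2.2.1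
    have hw2 : w 2 = 0 := hw.2.2.2.1
    have hwC : w 4 + l * Complex.I * w 3 = 0 := hw.2.2.2.2
    refine famclass_build hw.1 (fun hl => ?_) (fun hl => ?_)
    · exact ⟨famclass_zero hw0, Submodule.smul_mem _ _ (ed l hl), famclass_zero hwC⟩
    · exact ⟨famclass_zero hw1, famclass_zero hw2, Submodule.smul_mem _ _ (e5 l hl)⟩
  push Not at cD
  have c4 : ∀ κ, ∀ v ∈ Q κ, v 4 = 0 := by
    intro κ v hv
    have h1 := cC κ v hv
    rwa [cD κ v hv, mul_zero, add_zero] at h1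
  by_cases c5 : ∃ κ, ∃ v ∈ Q κ, v 5 ≠ 0
  · obtain ⟨κ, v, hv, h5⟩ := c5
    have e5 := h.e5_all hv h5
    refine ⟨1, fun l w => ⟨fun hw => ⟨h.par l w hw, c0 l w hw, c1 l w hw, c2 l w hw,
      cD l w hw, c4 l w hw⟩, fun hw => ?_⟩⟩
    obtain ⟨hw0, hw1, hw2, hw3, hw4⟩ :
      w 0 = 0 ∧ w 1 = 0 ∧ w 2 = 0 ∧ w 3 = 0 ∧ w 4 = 0 := hw.2
    refine famclass_build hw.1 (fun hl => ?_) (fun hl => ?_)
    · exact ⟨famclass_zero hw0, famclass_zero hw3,
        famclass_zero (by rw [hw3, hw4, mul_zero, add_zero])⟩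
    · exact ⟨famclass_zero hw1, famclass_zero hw2, Submodule.smul_mem _ _ (e5 l hl)⟩
  push Not at c5
  refine ⟨0, fun l w => ⟨fun hw => ⟨h.par l w hw, c0 l w hw, c1 l w hw, c2 l w hw,
    cD l w hw, c4 l w hw, c5 l w hw⟩, fun hw => ?_⟩⟩
  obtain ⟨hw0, hw1, hw2, hw3, hw4, hw5⟩ :
    w 0 = 0 ∧ w 1 = 0 ∧ w 2 = 0 ∧ w 3 = 0 ∧ w 4 = 0 ∧ w 5 = 0 := hw.2
  refine famclass_build hw.1 (fun hl => ?_) (fun hl => ?_)
  · exact ⟨famclass_zero hw0, famclass_zero hw3,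
      famclass_zero (by rw [hw3, hw4, mul_zero, add_zero])⟩
  · exact ⟨famclass_zero hw1, famclass_zero hw2, famclass_zero hw5⟩

end SoCo
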