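import Pool.Agent.H.MP_0f3f77_al.Fam

/-!
Generation lemmas for stable families.  All weights `κ` in the hypotheses have the right parity
automatically (by `Fam.par` if the vector is nonzero); the transitions `κ → κ ± 2` have nonzero
coefficients for the relevant parity:
* `ev 0` (κ even): `epv κ (ev 0) = (1 - κ) ev 0`, `emv κ (ev 0) = (1 + κ) ev 0`;
* `ev 2` (κ odd): `(2 - κ) ev 2`, `(2 + κ) ev 2`;
* `ev 4` (κ even): `(3 - κ) ev 4`, `(3 + κ) ev 4`;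
* `dv κ` (κ even): `epv κ (dv κ) = (1 - κ) dv (κ - 2)`, `emv κ (dv κ) = (1 + κ) dv (κ + 2)`;
* `ev 5` (κ odd): `(2 - κ) ev 5`, `(2 + κ) ev 5`.
A statement for all even (odd) `κ'` follows by an induction in steps of `2` in both directions
(write `κ' = κ + 2 n`, `Int.induction_on` for `n`).
* `e12_of_e0`: `vpv (κ + 1) (ev 0) = -i ev 1 - (κ + 1) ev 2`,
  `vmv (κ - 1) (ev 0) = i ev 1 + (κ - 1) ev 2`; the sum is `-2 ev 2`.
* `e12_of_e1`: if `v ∈ Q κ`, `v 1 ≠ 0` (κ odd), then by `comp` we may take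
  `v = v_1 ev 1 + v_2 ev 2`; `emv (κ-2) (epv κ v) + κ (κ - 2) v = 4 i κ v_1 ev 2`, so
  `ev 2 ∈ Q κ` and `ev 1 ∈ Q κ`; `epv κ (ev 1) = -κ ev 1 + 2 i ev 2`, so the same at `κ ± 2`.
* `e34_of_e12`: `vpv (κ + 1) (ev 1) = -κ ev 3 + i ev 4`, `vpv (κ + 1) (ev 2) = -i ev 3 - κ ev 4`,
  determinant `κ^2 - 1 ≠ 0` for `κ` even.
* `dv_of_e2`: `vpv (κ + 1) (ev 2) = -i ev 3 - κ ev 4 = -i dv κ`.
* `cas`: for `κ` even and `v = v_3 ev 3 + v_4 ev 4 ∈ Q κ`:
  `epv (κ + 2) (emv κ v) + (1 + κ)^2 v = 4 (v_4 + i κ v_3) ev 4`, and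
  `v - (v_4 + i κ v_3) ev 4 = v_3 dv κ`.
* `e5_of_e4`: `vpv κ (ev 4) = -i ev 5`;  `e5_of_dv`: `vpv κ (dv κ) = (2 - 2 κ) ev 5`
  (`(2 - κ) - i (-i κ) = 2 - 2κ`), nonzero for `κ` even.
-/

noncomputable section

namespace SoCo

variable {Q : ℤ → Submodule ℂ V6}

theorem famgena_e0_step (h : Fam Q) {κ : ℤ} (h0 : ev 0 ∈ Q κ) (hκ : Even κ) :
    ∀ l : ℤ, Even l → ev 0 ∈ Q l := by
  have key := fam_step (P := fun l => ev 0 ∈ Q l) (κ := κ) h0 (fun l hl hP => ?_)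
    (fun l hl hP => ?_)
  · intro l hl
    exact key l (hl.sub hκ)
  · have hl2 : Even l := by simpa using hl.add hκ
    have hne := (fam_even_ne hl2 1 (by decide)).2
    push_cast at hne
    refine fam_unscale hne (fam_of_eq (h.ep l _ hP) ?_)
    apply fam_ext <;> simp [-Matrix.smul_cons, fam_ev, fam_epv0, fam_epv1, fam_epv2, fam_epv3, fam_epv4, fam_epv5]
  · have hl2 : Even l := by simpa using hl.add hκ
    have hne := (fam_even_ne hl2 1 (by decide)).1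
    push_cast at hne
    refine fam_unscale hne (fam_of_eq (h.em l _ hP) ?_)
    apply fam_ext <;> simp [-Matrix.smul_cons, fam_ev, fam_emv0, fam_emv1, fam_emv2, fam_emv3, fam_emv4, fam_emv5]

theorem Fam.e0_all (h : Fam Q) {κ : ℤ} {v : V6} (hv : v ∈ Q κ) (h0 : v 0 ≠ 0) :
    ∀ l : ℤ, Even l → ev 0 ∈ Q l := by
  have hκ : Even κ := by
    rcases Int.even_or_odd κ with hκ | hκ
    · exact hκ
    · exact absurd ((h.par κ v hv).1 hκ).1 h0
  exact famgena_e0_step h (fam_unscale h0 (h.comp hv).1) hκ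

theorem Fam.e12_of_e0 (h : Fam Q) (h0 : ∀ l : ℤ, Even l → ev 0 ∈ Q l) :
    ∀ l : ℤ, Odd l → ev 1 ∈ Q l ∧ ev 2 ∈ Q l := by
  intro l hl
  have h1 : vpv (l + 1) (ev 0) ∈ Q l := by
    simpa using h.vp (l + 1) _ (h0 (l + 1) hl.add_one)
  have h2 : vmv (l - 1) (ev 0) ∈ Q l := by
    simpa using h.vm (l - 1) _ (h0 (l - 1) (hl.sub_odd odd_one))
  have e2 : ev 2 ∈ Q l := by
    refine fam_unscale (c := -2) (by norm_num) (fam_of_eq (add_mem h1 h2) ?_)
    apply fam_ext <;> simp [-Matrix.smul_cons, fam_ev, fam_vpv0, fam_vpv1, fam_vpv2, fam_vpv3, fam_vpv4, fam_vpv5, fam_vmv0, fam_vmv1, fam_vmv2, fam_vmv3, fam_vmv4, fam_vmv5]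
    ring
  refine ⟨?_, e2⟩
  refine fam_unscale (c := Complex.I) Complex.I_ne_zero
    (fam_of_eq (sub_mem h2 (Submodule.smul_mem _ ((l : ℂ) - 1) e2)) ?_)
  apply fam_ext <;> simp [-Matrix.smul_cons, fam_ev, fam_vmv0, fam_vmv1, fam_vmv2, fam_vmv3, fam_vmv4, fam_vmv5]

theorem famgena_e12_step (h : Fam Q) {κ : ℤ} (h0 : ev 1 ∈ Q κ ∧ ev 2 ∈ Q κ) (hκ : Odd κ) :
    ∀ l : ℤ, Odd l → ev 1 ∈ Q l ∧ ev 2 ∈ Q l := by
  have key := fam_step (P := fun l => ev 1 ∈ Q l ∧ ev 2 ∈ Q l) (κ := κ) h0 (fun l hl hP => ?_)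
    (fun l hl hP => ?_)
  · intro l hl
    exact key l (hl.sub_odd hκ)
  · have hl2 : Odd l := by simpa using hl.add_odd hκ
    have hne := (fam_odd_ne hl2 2 (by decide)).2
    have hne0 := (fam_odd_ne hl2 0 (by decide)).2
    push_cast at hne hne0
    have e2 : ev 2 ∈ Q (l - 2) := by
      refine fam_unscale hne (fam_of_eq (h.ep l _ hP.2) ?_)
      apply fam_ext <;> simp [-Matrix.smul_cons, fam_ev, fam_epv0, fam_epv1, fam_epv2, fam_epv3, fam_epv4, fam_epv5]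
    refine ⟨?_, e2⟩
    refine fam_unscale hne0 (fam_of_eq (sub_mem (h.ep l _ hP.1)
      (Submodule.smul_mem _ (2 * Complex.I) e2)) ?_)
    apply fam_ext <;> simp [-Matrix.smul_cons, fam_ev, fam_epv0, fam_epv1, fam_epv2, fam_epv3, fam_epv4, fam_epv5]
  · have hl2 : Odd l := by simpa using hl.add_odd hκ
    have hne := (fam_odd_ne hl2 2 (by decide)).1
    have hne0 := (fam_odd_ne hl2 0 (by decide)).1
    push_cast at hne hne0
    have e2 : ev 2 ∈ Q (l + 2) := by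
      refine fam_unscale hne (fam_of_eq (h.em l _ hP.2) ?_)
      apply fam_ext <;> simp [-Matrix.smul_cons, fam_ev, fam_emv0, fam_emv1, fam_emv2, fam_emv3, fam_emv4, fam_emv5]
    refine ⟨?_, e2⟩
    refine fam_unscale hne0 (fam_of_eq (add_mem (h.em l _ hP.1)
      (Submodule.smul_mem _ (2 * Complex.I) e2)) ?_)
    apply fam_ext <;> simp [-Matrix.smul_cons, fam_ev, fam_emv0, fam_emv1, fam_emv2, fam_emv3, fam_emv4, fam_emv5]

theorem Fam.e12_of_e1 (h : Fam Q) {κ : ℤ} {v : V6} (hv : v ∈ Q κ) (h1 : v 1 ≠ 0) :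
    ∀ l : ℤ, Odd l → ev 1 ∈ Q l ∧ ev 2 ∈ Q l := by
  have hκ : Odd κ := by
    rcases Int.even_or_odd κ with hκ | hκ
    · exact absurd ((h.par κ v hv).2 hκ).1 h1
    · exact hκ
  have hne0 := (fam_odd_ne hκ 0 (by decide)).1
  push_cast at hne0
  rw [zero_add] at hne0
  have hw := (h.comp hv).2.1
  have h2 : emv (κ - 2) (epv κ (v 1 • ev 1 + v 2 • ev 2)) ∈ Q κ := by
    simpa using h.em (κ - 2) _ (h.ep κ _ hw)
  have e2 : ev 2 ∈ Q κ := by
    refine fam_unscale (c := 4 * Complex.I * κ * v 1) ?_ (fam_of_eq (add_mem h2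
      (Submodule.smul_mem _ ((κ : ℂ) * (κ - 2)) hw)) ?_)
    · exact mul_ne_zero (mul_ne_zero (mul_ne_zero (by norm_num) Complex.I_ne_zero) hne0) h1
    · apply fam_ext <;> simp [-Matrix.smul_cons, fam_ev, fam_epv0, fam_epv1, fam_epv2, fam_epv3, fam_epv4, fam_epv5, fam_emv0, fam_emv1, fam_emv2, fam_emv3, fam_emv4, fam_emv5] <;> ring
  have e1 : ev 1 ∈ Q κ := by
    refine fam_unscale h1 (fam_of_eq (sub_mem hw (Submodule.smul_mem _ (v 2) e2)) ?_)
    rw [add_sub_cancel_right]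
  exact famgena_e12_step h ⟨e1, e2⟩ hκ

theorem Fam.e2_all (h : Fam Q) {κ : ℤ} {v : V6} (hv : v ∈ Q κ) (h1 : v 1 = 0) (h2 : v 2 ≠ 0) :
    ∀ l : ℤ, Odd l → ev 2 ∈ Q l := by
  have hκ : Odd κ := by
    rcases Int.even_or_odd κ with hκ | hκ
    · exact absurd ((h.par κ v hv).2 hκ).2.1 h2
    · exact hκ
  have hw := (h.comp hv).2.1
  rw [h1, zero_smul, zero_add] at hw
  have h0 := fam_unscale h2 hw
  have key := fam_step (P := fun l => ev 2 ∈ Q l) (κ := κ) h0 (fun l hl hP => ?_)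
    (fun l hl hP => ?_)
  · intro l hl
    exact key l (hl.sub_odd hκ)
  · have hl2 : Odd l := by simpa using hl.add_odd hκ
    have hne := (fam_odd_ne hl2 2 (by decide)).2
    push_cast at hne
    refine fam_unscale hne (fam_of_eq (h.ep l _ hP) ?_)
    apply fam_ext <;> simp [-Matrix.smul_cons, fam_ev, fam_epv0, fam_epv1, fam_epv2, fam_epv3, fam_epv4, fam_epv5]
  · have hl2 : Odd l := by simpa using hl.add_odd hκ
    have hne := (fam_odd_ne hl2 2 (by decide)).1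
    push_cast at hne
    refine fam_unscale hne (fam_of_eq (h.em l _ hP) ?_)
    apply fam_ext <;> simp [-Matrix.smul_cons, fam_ev, fam_emv0, fam_emv1, fam_emv2, fam_emv3, fam_emv4, fam_emv5]

end SoCo
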