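import Pool.Agent.H.MP_0f3f77_al.QfDef

/-!
Classification of the closed `M_3`-invariant subspaces between `Sp 0 ⊓ W` and `W`.

`fam_of`, proof.  `S` is closed and invariant under `rot θ`, `dg 2 2`, and under the operators
`D 0 0, D 1 1, D 0 1, D 0 2, D 1 2, dop Jm` (`opg_mem`).
For `f` of weight `κ`, `E± f = (D00 - D11) f ± i (dop Jm f + 2 D01 f)` has weight `κ ∓ 2` and
`V± f = D02 f ± i D12 f` has weight `κ ∓ 1`: `act (rot θ) (dop X f) = dop (R X R⁻¹) (act (rot θ) f)`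
and `R (H ± i (E_01 + E_10)) R⁻¹ = e^{∓ 2 i θ} (...)`, `R (E_02 ± i E_12) R⁻¹ = e^{∓ i θ} (...)`
(`R E_02 R⁻¹ = cos θ E_02 + sin θ E_12`, `R E_12 R⁻¹ = -sin θ E_02 + cos θ E_12`,
`R H R⁻¹ = cos 2θ H + sin 2θ S`, `R S R⁻¹ = -sin 2θ H + cos 2θ S`, `S = E_01 + E_10 = Jm + 2 E_01`).
The effect on `qv` is `epv, emv, vpv, vmv` by `q_D00, q_D11, q_D01, q_D02, q_D12` and
`dop Jm f = i κ f` (`J_wt`); parity: `q_parity`; `dlv`: `q_dg0`, `q_dg1` with `s = t = 2`
(`dg 2 2 = dg 2 1 * dg 1 2`; it commutes with `rot θ`).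

`mem_of_fam`: if `f ∈ W` and `qv (pk κ f) ∈ Qf S κ` for all `κ`: choose `s ∈ S` of weight `κ` with
the same `qv`; `g = pk κ f - s` has weight `κ` and `qv g = 0`, so `g ∈ Sp 0` (all
`qv (act (rot θ) g) = 0`), `g ∈ W`, hence `g ∈ S`, `pk κ f ∈ S` for all `κ` and `f ∈ S`
(`pk_dense`).

`classify`: `fam_class` for `Qf S` gives `i`; `S = W ⊓ Sp i` by `mem_Sp_iff`, `mem_of_fam`, and
`q_parity` (`pk_wt`), `pk_mem`.
`realize`: `fam_top` for `Qf W`: the vector `qv (pk κ f)` with `cc ν 1 (pk κ f) ≠ 0` exists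
by `ker_iff` because `cc ν 1 f ≠ 0`.  The `f ∈ W` of weight `κ` with `qv f = v` is in `Sp i` by
`mem_Sp_iff`, `pk_id`, `pk_ne` (`Cond i l 0` holds).
-/

open scoped Topology ContDiff
open MeasureTheory

noncomputable section

namespace SoCo

theorem famof_Hm : (Hm : Mat) = !![1, 0, 0, 0; 0, -1, 0, 0; 0, 0, 0, 0; 0, 0, 0, 0] := by
  ext i j
  fin_cases i <;> fin_cases j <;> simp [Hm, Eij]

theorem famof_Sm : ((Eij 0 1 + Eij 1 0) : Mat) = !![0, 1, 0, 0; 1, 0, 0, 0; 0, 0, 0, 0; 0, 0, 0, 0] := by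
  ext i j
  fin_cases i <;> fin_cases j <;> simp [Hm, Eij]

theorem famof_E02 : ((Eij 0 2) : Mat) = !![0, 0, 1, 0; 0, 0, 0, 0; 0, 0, 0, 0; 0, 0, 0, 0] := by
  ext i j
  fin_cases i <;> fin_cases j <;> simp [Hm, Eij]

theorem famof_E12 : ((Eij 1 2) : Mat) = !![0, 0, 0, 0; 0, 0, 1, 0; 0, 0, 0, 0; 0, 0, 0, 0] := by
  ext i j
  fin_cases i <;> fin_cases j <;> simp [Hm, Eij]

theorem famof_act {κ : ℤ} {f : Isp} (h : Wt κ f) (θ : ℝ) (X Y Z : Mat) (a b : ℝ)
    (hX : rotM θ * X * rotM (-θ) = a • Y + b • Z) : act (rot θ) (dop X f) =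
      Complex.exp ((κ * θ : ℝ) * Complex.I) • ((a : ℂ) • dop Y f + (b : ℂ) • dop Z f) := by
  rw [act_dop, h θ, map_smul, ← dop_smul, ← dop_smul, ← dop_add, ← hX]
  rfl

theorem famof_wt (n : ℤ) (X Y : Mat)
    (hX : ∀ θ : ℝ, rotM θ * X * rotM (-θ) = Real.cos (n * θ) • X + Real.sin (n * θ) • Y)
    (hY : ∀ θ : ℝ, rotM θ * Y * rotM (-θ) = (-Real.sin (n * θ)) • X + Real.cos (n * θ) • Y)
    {κ : ℤ} {f : Isp} (h : Wt κ f) : Wt (κ - n) (dop X f + Complex.I • dop Y f) ∧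
      Wt (κ + n) (dop X f - Complex.I • dop Y f) := by
  constructor
  · intro θ
    have e : Complex.exp (((κ - n : ℤ) * θ : ℝ) * Complex.I) =
        Complex.exp ((κ * θ : ℝ) * Complex.I) *
          ((Real.cos (n * θ) : ℂ) - (Real.sin (n * θ) : ℂ) * Complex.I) := by
      have e1 : (((κ - n : ℤ) * θ : ℝ) : ℂ) * Complex.I = ((κ * θ : ℝ) : ℂ) * Complex.I +
          (-((n * θ : ℝ) : ℂ)) * Complex.I := by
        push_cast
        ring
      have e0 : Complex.exp ((-((n * θ : ℝ) : ℂ)) * Complex.I) =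
          (Real.cos (n * θ) : ℂ) - (Real.sin (n * θ) : ℂ) * Complex.I := by
        rw [Complex.exp_mul_I, Complex.cos_neg, Complex.sin_neg, Complex.ofReal_cos,
          Complex.ofReal_sin]
        ring
      rw [e1, Complex.exp_add, e0]
    rw [map_add, map_smul, famof_act h θ X X Y _ _ (hX θ), famof_act h θ Y X Y _ _ (hY θ), e]
    ext x a b i
    simp only [Isp.add_app, Isp.smul_app, Pi.add_apply, Pi.smul_apply, smul_eq_mul]
    generalize Complex.exp ((κ * θ : ℝ) * Complex.I) = u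
    push_cast
    linear_combination (u * Complex.sin (n * θ) * dop Y f x a b i) * Complex.I_sq
  · intro θ
    have e : Complex.exp (((κ + n : ℤ) * θ : ℝ) * Complex.I) =
        Complex.exp ((κ * θ : ℝ) * Complex.I) *
          ((Real.cos (n * θ) : ℂ) + (Real.sin (n * θ) : ℂ) * Complex.I) := by
      have e1 : (((κ + n : ℤ) * θ : ℝ) : ℂ) * Complex.I = ((κ * θ : ℝ) : ℂ) * Complex.I +
          ((n * θ : ℝ) : ℂ) * Complex.I := by
        push_cast
        ring
      have e0 : Complex.exp (((n * θ : ℝ) : ℂ) * Complex.I) =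
          (Real.cos (n * θ) : ℂ) + (Real.sin (n * θ) : ℂ) * Complex.I := by
        rw [Complex.exp_mul_I, Complex.ofReal_cos, Complex.ofReal_sin]
      rw [e1, Complex.exp_add, e0]
    rw [map_sub, map_smul, famof_act h θ X X Y _ _ (hX θ), famof_act h θ Y X Y _ _ (hY θ), e]
    ext x a b i
    simp only [Isp.add_app, Isp.sub_app, Isp.smul_app, Pi.add_apply, Pi.sub_apply, Pi.smul_apply,
      smul_eq_mul]
    generalize Complex.exp ((κ * θ : ℝ) * Complex.I) = u
    push_cast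
    linear_combination (u * Complex.sin (n * θ) * dop Y f x a b i) * Complex.I_sq

theorem famof_rotH (θ : ℝ) : rotM θ * Hm * rotM (-θ) =
    Real.cos ((2 : ℤ) * θ) • Hm + Real.sin ((2 : ℤ) * θ) • (Eij 0 1 + Eij 1 0) := by
  rw [famof_Hm, famof_Sm]
  have e2 : ((2 : ℤ) : ℝ) = 2 := by norm_num
  rw [e2, Real.cos_two_mul', Real.sin_two_mul]
  ext i j
  fin_cases i <;> fin_cases j <;>
    simp [rotM, Matrix.mul_apply, Fin.sum_univ_four] <;> ring

theorem famof_rotS (θ : ℝ) : rotM θ * (Eij 0 1 + Eij 1 0) * rotM (-θ) =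
    (-Real.sin ((2 : ℤ) * θ)) • Hm + Real.cos ((2 : ℤ) * θ) • (Eij 0 1 + Eij 1 0) := by
  rw [famof_Hm, famof_Sm]
  have e2 : ((2 : ℤ) : ℝ) = 2 := by norm_num
  rw [e2, Real.cos_two_mul', Real.sin_two_mul]
  ext i j
  fin_cases i <;> fin_cases j <;>
    simp [rotM, Matrix.mul_apply, Fin.sum_univ_four] <;> ring

theorem famof_rot02 (θ : ℝ) : rotM θ * Eij 0 2 * rotM (-θ) =
    Real.cos ((1 : ℤ) * θ) • Eij 0 2 + Real.sin ((1 : ℤ) * θ) • Eij 1 2 := by
  rw [famof_E02, famof_E12]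
  have e2 : ((1 : ℤ) : ℝ) = 1 := by norm_num
  rw [e2, one_mul]
  ext i j
  fin_cases i <;> fin_cases j <;>
    simp [rotM, Matrix.mul_apply, Fin.sum_univ_four]

theorem famof_rot12 (θ : ℝ) : rotM θ * Eij 1 2 * rotM (-θ) =
    (-Real.sin ((1 : ℤ) * θ)) • Eij 0 2 + Real.cos ((1 : ℤ) * θ) • Eij 1 2 := by
  rw [famof_E02, famof_E12]
  have e2 : ((1 : ℤ) : ℝ) = 1 := by norm_num
  rw [e2, one_mul]
  ext i j
  fin_cases i <;> fin_cases j <;>
    simp [rotM, Matrix.mul_apply, Fin.sum_univ_four]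

theorem famof_dopH (f : Isp) : dop Hm f = D 0 0 f - D 1 1 f := by
  unfold Hm D
  rw [dop_sub]

theorem famof_dopS (f : Isp) : dop (Eij 0 1 + Eij 1 0) f = dop Jm f + (2 : ℂ) • D 0 1 f := by
  have e : (Eij 0 1 + Eij 1 0 : Mat) = Jm + (2 : ℝ) • Eij 0 1 := by
    unfold Jm
    module
  rw [e, dop_add, dop_smul]
  unfold D
  norm_num

/-- The values of the functionals, for the operators in the definition of `Fam`. -/
theorem famof_pm (ν : ℝ) {κ : ℤ} {f : Isp} (h : Wt κ f) {v : V6} (hv : ∀ m, qv ν m f = v m) :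
    (∀ m, qv ν m (dop Hm f + Complex.I • dop (Eij 0 1 + Eij 1 0) f) = epv κ v m) ∧
    (∀ m, qv ν m (dop Hm f - Complex.I • dop (Eij 0 1 + Eij 1 0) f) = emv κ v m) ∧
    (∀ m, qv ν m (dop (Eij 0 2) f + Complex.I • dop (Eij 1 2) f) = vpv κ v m) ∧
    (∀ m, qv ν m (dop (Eij 0 2) f - Complex.I • dop (Eij 1 2) f) = vmv κ v m) := by
  have v0 : cc ν 1 f = v 0 := hv 0
  have v1 : cc ν 2 f = v 1 := hv 1
  have v2 : dd ν 1 f = v 2 := hv 2
  have v3 : dd ν 2 f = v 3 := hv 3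
  have v4 : ee ν 1 f = v 4 := hv 4
  have v5 : ee ν 2 f = v 5 := hv 5
  have hJ := J_wt κ f h
  obtain ⟨a1, a2, a3⟩ := q_D00 ν 1 f (Or.inl rfl)
  obtain ⟨a4, a5, a6⟩ := q_D00 ν 2 f (Or.inr rfl)
  obtain ⟨b1, b2, b3⟩ := q_D11 ν 1 f (Or.inl rfl)
  obtain ⟨b4, b5, b6⟩ := q_D11 ν 2 f (Or.inr rfl)
  obtain ⟨c1, c2, c3⟩ := q_D01 ν 1 f (Or.inl rfl)
  obtain ⟨c4, c5, c6⟩ := q_D01 ν 2 f (Or.inr rfl)
  obtain ⟨d1, d2, d3⟩ := q_D02 ν 1 f (Or.inl rfl)
  obtain ⟨d4, d5, d6⟩ := q_D02 ν 2 f (Or.inr rfl)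
  obtain ⟨e1, e2, e3⟩ := q_D12 ν 1 f (Or.inl rfl)
  obtain ⟨e4, e5, e6⟩ := q_D12 ν 2 f (Or.inr rfl)
  rw [hJ] at e2 e3 e5 e6
  have n21 : ((2 : Fin 4) = 1) = False := by simp
  have n12 : ((1 : Fin 4) = 2) = False := by simp
  simp only [n21, n12, if_true, if_false, map_smul, smul_eq_mul] at *
  have hI := Complex.I_mul_I
  refine ⟨fun m => ?_, fun m => ?_, fun m => ?_, fun m => ?_⟩
  · rw [famof_dopH, famof_dopS, hJ]
    fin_cases m
    · change cc ν 1 _ = (1 - κ) * v 0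
      simp only [map_add, map_sub, map_smul, smul_eq_mul, a1, b1, c1, v0]
      linear_combination (κ * v 0) * hI
    · change cc ν 2 _ = -κ * v 1
      simp only [map_add, map_sub, map_smul, smul_eq_mul, a4, b4, c4, v1]
      linear_combination (κ * v 1) * hI
    · change dd ν 1 _ = (2 - κ) * v 2 + 2 * Complex.I * v 1
      simp only [map_add, map_sub, map_smul, smul_eq_mul, a2, b2, c2, v2, v1]
      linear_combination (κ * v 2) * hI
    · change dd ν 2 _ = (1 - κ) * v 3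
      simp only [map_add, map_sub, map_smul, smul_eq_mul, a5, b5, c5, v3]
      linear_combination (κ * v 3) * hI
    · change ee ν 1 _ = (3 - κ) * v 4 + 2 * Complex.I * v 3
      simp only [map_add, map_sub, map_smul, smul_eq_mul, a3, b3, c3, v4, v3]
      linear_combination (κ * v 4) * hI
    · change ee ν 2 _ = (2 - κ) * v 5
      simp only [map_add, map_sub, map_smul, smul_eq_mul, a6, b6, c6, v5]
      linear_combination (κ * v 5) * hI
  · rw [famof_dopH, famof_dopS, hJ]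
    fin_cases m
    · change cc ν 1 _ = (1 + κ) * v 0
      simp only [map_add, map_sub, map_smul, smul_eq_mul, a1, b1, c1, v0]
      linear_combination (-κ * v 0) * hI
    · change cc ν 2 _ = κ * v 1
      simp only [map_add, map_sub, map_smul, smul_eq_mul, a4, b4, c4, v1]
      linear_combination (-κ * v 1) * hI
    · change dd ν 1 _ = (2 + κ) * v 2 - 2 * Complex.I * v 1
      simp only [map_add, map_sub, map_smul, smul_eq_mul, a2, b2, c2, v2, v1]
      linear_combination (-κ * v 2) * hI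
    · change dd ν 2 _ = (1 + κ) * v 3
      simp only [map_add, map_sub, map_smul, smul_eq_mul, a5, b5, c5, v3]
      linear_combination (-κ * v 3) * hI
    · change ee ν 1 _ = (3 + κ) * v 4 - 2 * Complex.I * v 3
      simp only [map_add, map_sub, map_smul, smul_eq_mul, a3, b3, c3, v4, v3]
      linear_combination (-κ * v 4) * hI
    · change ee ν 2 _ = (2 + κ) * v 5
      simp only [map_add, map_sub, map_smul, smul_eq_mul, a6, b6, c6, v5]
      linear_combination (-κ * v 5) * hI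
  · change qv ν m (D 0 2 f + Complex.I • D 1 2 f) = _
    fin_cases m
    · change cc ν 1 _ = 0
      simp only [map_add, map_sub, map_smul, smul_eq_mul, d1, e1]
      ring
    · change cc ν 2 _ = -Complex.I * v 0
      simp only [map_add, map_sub, map_smul, smul_eq_mul, d4, e4, v0]
      ring
    · change dd ν 1 _ = -κ * v 0
      simp only [map_add, map_sub, map_smul, smul_eq_mul, d2, e2, v0]
      linear_combination (κ * v 0) * hI
    · change dd ν 2 _ = (1 - κ) * v 1 - Complex.I * v 2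
      simp only [map_add, map_sub, map_smul, smul_eq_mul, d5, e5, v1, v2]
      linear_combination (κ * v 1) * hI
    · change ee ν 1 _ = (1 - κ) * v 2 + Complex.I * v 1
      simp only [map_add, map_sub, map_smul, smul_eq_mul, d3, e3, v1, v2]
      linear_combination (κ * v 2) * hI
    · change ee ν 2 _ = (2 - κ) * v 3 - Complex.I * v 4
      simp only [map_add, map_sub, map_smul, smul_eq_mul, d6, e6, v3, v4]
      linear_combination (κ * v 3) * hI
  · change qv ν m (D 0 2 f - Complex.I • D 1 2 f) = _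
    fin_cases m
    · change cc ν 1 _ = 0
      simp only [map_add, map_sub, map_smul, smul_eq_mul, d1, e1]
      ring
    · change cc ν 2 _ = Complex.I * v 0
      simp only [map_add, map_sub, map_smul, smul_eq_mul, d4, e4, v0]
      ring
    · change dd ν 1 _ = κ * v 0
      simp only [map_add, map_sub, map_smul, smul_eq_mul, d2, e2, v0]
      linear_combination (-κ * v 0) * hI
    · change dd ν 2 _ = (1 + κ) * v 1 + Complex.I * v 2
      simp only [map_add, map_sub, map_smul, smul_eq_mul, d5, e5, v1, v2]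
      linear_combination (-κ * v 1) * hI
    · change ee ν 1 _ = (1 + κ) * v 2 - Complex.I * v 1
      simp only [map_add, map_sub, map_smul, smul_eq_mul, d3, e3, v1, v2]
      linear_combination (-κ * v 2) * hI
    · change ee ν 2 _ = (2 + κ) * v 3 + Complex.I * v 4
      simp only [map_add, map_sub, map_smul, smul_eq_mul, d6, e6, v3, v4]
      linear_combination (-κ * v 3) * hI

theorem famof_mem (S : Submodule ℂ Isp) (hS : IsClosed (S : Set Isp)) (hi : M3inv S) :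
    (∀ f ∈ S, dop Hm f ∈ S) ∧ (∀ f ∈ S, dop (Eij 0 1 + Eij 1 0) f ∈ S) ∧
    (∀ f ∈ S, dop (Eij 0 2) f ∈ S) ∧ (∀ f ∈ S, dop (Eij 1 2) f ∈ S) := by
  have h00 := opg_mem opg_dg0 S hS fun t f hf => hi _ (isM3_dg _ _ _ _) f hf
  have h11 := opg_mem opg_dg1 S hS fun t f hf => hi _ (isM3_dg _ _ _ _) f hf
  have h01 := opg_mem opg_up S hS fun t f hf => hi _ (isM3_up _) f hf
  have hJ := opg_mem opg_rot S hS fun t f hf => hi _ (isM3_rot _) f hf
  have h02 := opg_mem (opg_vn (1, 0)) S hS fun t f hf => hi _ (isM3_vn _) f hf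
  have h12 := opg_mem (opg_vn (0, 1)) S hS fun t f hf => hi _ (isM3_vn _) f hf
  refine ⟨fun f hf => ?_, fun f hf => ?_, fun f hf => ?_, fun f hf => ?_⟩
  · rw [famof_dopH]
    exact S.sub_mem (h00 f hf) (h11 f hf)
  · rw [famof_dopS]
    exact S.add_mem (hJ f hf) (S.smul_mem _ (h01 f hf))
  · have h := h02 f hf
    simpa using h
  · have h := h12 f hf
    simpa using h

theorem famof_dg_rot (θ : ℝ) (f : Isp) :
    act (rot θ) (act (dg 2 1 two_ne_zero one_ne_zero) (act (dg 1 2 one_ne_zero two_ne_zero) f)) =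
    act (dg 2 1 two_ne_zero one_ne_zero) (act (dg 1 2 one_ne_zero two_ne_zero)
      (act (rot θ) f)) := by
  rw [← act_mul, ← act_mul, ← act_mul, ← act_mul]
  congr 2
  apply Units.ext
  rw [Units.val_mul, Units.val_mul, Units.val_mul, Units.val_mul]
  change rotM θ * dgM 2 1 * dgM 1 2 = dgM 2 1 * dgM 1 2 * rotM θ
  ext i j
  fin_cases i <;> fin_cases j <;>
    simp [rotM, dgM, Matrix.mul_apply, Fin.sum_univ_four] <;> ring

theorem fam_of (ν : ℝ) (S : Submodule ℂ Isp) (hS : IsClosed (S : Set Isp)) (hi : M3inv S) :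
    Fam (Qf ν S) := by
  obtain ⟨mH, mS, m02, m12⟩ := famof_mem S hS hi
  refine ⟨?_, ?_, ?_, ?_, ?_, ?_⟩
  · rintro κ v ⟨f, hf, hw, hv⟩
    obtain ⟨h1, h2⟩ := q_parity ν κ f hw
    simp only [hv] at h1 h2
    exact ⟨h1, h2⟩
  · rintro κ v ⟨f, hf, hw, hv⟩
    refine ⟨act (dg 2 1 two_ne_zero one_ne_zero) (act (dg 1 2 one_ne_zero two_ne_zero) f),
      hi _ (isM3_dg _ _ _ _) _ (hi _ (isM3_dg _ _ _ _) _ hf), ?_, ?_⟩
    · intro θ
      rw [famof_dg_rot, hw θ, map_smul, map_smul]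
    · have v0 : cc ν 1 f = v 0 := hv 0
      have v1 : cc ν 2 f = v 1 := hv 1
      have v2 : dd ν 1 f = v 2 := hv 2
      have v3 : dd ν 2 f = v 3 := hv 3
      have v4 : ee ν 1 f = v 4 := hv 4
      have v5 : ee ν 2 f = v 5 := hv 5
      obtain ⟨a1, a2, a3⟩ := q_dg0 ν 2 two_ne_zero 1 (Or.inl rfl)
        (act (dg 1 2 one_ne_zero two_ne_zero) f)
      obtain ⟨a4, a5, a6⟩ := q_dg0 ν 2 two_ne_zero 2 (Or.inr rfl)
        (act (dg 1 2 one_ne_zero two_ne_zero) f)
      obtain ⟨b1, b2, b3⟩ := q_dg1 ν 2 two_ne_zero 1 (Or.inl rfl) f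
      obtain ⟨b4, b5, b6⟩ := q_dg1 ν 2 two_ne_zero 2 (Or.inr rfl) f
      have n21 : ((2 : Fin 4) = 1) = False := by simp
      have e1 : (2 : ℝ) / (2 : ℝ) = 1 := by norm_num
      have e2 : |(2 : ℝ)| = 2 := by norm_num
      simp only [n21, if_true, if_false, e1, e2, Complex.ofReal_one, Complex.ofReal_ofNat] at *
      intro m
      fin_cases m
      · change cc ν 1 _ = 2 * v 0
        rw [a1, b1, v0]
        ring
      · change cc ν 2 _ = 4 * v 1
        rw [a4, b4, v1]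
        ring
      · change dd ν 1 _ = 4 * v 2
        rw [a2, b2, v2]
        ring
      · change dd ν 2 _ = 8 * v 3
        rw [a5, b5, v3]
        ring
      · change ee ν 1 _ = 8 * v 4
        rw [a3, b3, v4]
        ring
      · change ee ν 2 _ = 16 * v 5
        rw [a6, b6, v5]
        ring
  · rintro κ v ⟨f, hf, hw, hv⟩
    exact ⟨_, S.add_mem (mH f hf) (S.smul_mem _ (mS f hf)),
      (famof_wt 2 Hm (Eij 0 1 + Eij 1 0) famof_rotH famof_rotS hw).1, (famof_pm ν hw hv).1⟩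
  · rintro κ v ⟨f, hf, hw, hv⟩
    exact ⟨_, S.sub_mem (mH f hf) (S.smul_mem _ (mS f hf)),
      (famof_wt 2 Hm (Eij 0 1 + Eij 1 0) famof_rotH famof_rotS hw).2, (famof_pm ν hw hv).2.1⟩
  · rintro κ v ⟨f, hf, hw, hv⟩
    exact ⟨_, S.add_mem (m02 f hf) (S.smul_mem _ (m12 f hf)),
      (famof_wt 1 (Eij 0 2) (Eij 1 2) famof_rot02 famof_rot12 hw).1, (famof_pm ν hw hv).2.2.1⟩
  · rintro κ v ⟨f, hf, hw, hv⟩
    exact ⟨_, S.sub_mem (m02 f hf) (S.smul_mem _ (m12 f hf)),
      (famof_wt 1 (Eij 0 2) (Eij 1 2) famof_rot02 famof_rot12 hw).2, (famof_pm ν hw hv).2.2.2⟩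

end SoCo
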