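import Pool.Agent.H.MP_0f3f77_al.Qdef

/-!
The six functionals and their behaviour under the Lie algebra.

Write `D jk = D j k`, `L^{ab}_i = La ν a b i`, `[E_jk, E_lm]` from `Matrix` products;
`dop_bracket` gives `D X (D Y f) = D Y (D X f) + D [X,Y] f`.
`c_i = L^{00}_i`, `d_i = -L^{00}_i ∘ D20 - iν L^{01}_i`,
`e_i = 1/2 L^{00}_i ∘ D20^2 + iν L^{01}_i ∘ D20 - ν^2/2 L^{11}_i`.
(`L^{10} = L^{01}` by the symmetry of `f`.)

Commutators with `D20`: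
`D20 D03 = D03 D20 + D23`, `D20 D23 = D23 D20`, `D20 D13 = D13 D20`, `D20 D21 = D21 D20`,
`D20 D01 = D01 D20 + D21`, `D20 D02 = D02 D20 + D22 - D00`, `D20 D12 = D12 D20 - D10`,
`D20 D10 = D10 D20`, `D20 D00 = D00 D20 + D20`, `D20 D11 = D11 D20`,
`D20 (D22 - D00) = (D22 - D00) D20 - 2 D20`.

Computations (`g = D20 f`; `M_y = My`, `M_z = Mz`; `δ_{i1}` etc.):
* `D23`, `D13`: immediate.
* `D03`: `c_i(D03 f) = 0`; `d_i = -L00(D03 g + D23 f) - iν L01(D03 f) = -iν L00 f + iν L00 f = 0`;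
  `D20^2 D03 = D03 D20^2 + 2 D23 D20`: `e_i = iν L00 g + iν(-L00 g + iν L01 f) + ν^2 L01 f = 0`.
* `D00`: `c_i`; `d_i(D00 f) = -L00(D00 g + g) - 2 iν L01 f = -2 L00 g - 2 iν L01 f = 2 d_i`;
  `D20^2 D00 = D00 D20^2 + 2 D20^2`: `e_i = 3/2 L00(D20 g) + iν (2 + 1) L01 g - 3 ν^2/2 L11 f`.
* `D11`: commutes with `D20`, `L(D11 f) = L f - δ_{i1} L f`.
* `D01`: `c_i = 0`; `d_i(D01 f) = -L00(D01 g + D21 f) + iν M_y00 f
   = -(iν M_y00 f - δ_{i1} L00_2 f) + iν M_y00 f = δ_{i1} c_2 f`;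
  `D20^2 D01 = D01 D20^2 + 2 D21 D20`:
  `e_i = (iν M_y00 g - δ_{i1} L00_2 g) + iν(-M_y00 g + iν M_y01 f - δ_{i1} L01_2 f) + ν^2 M_y01 f
   = δ_{i1} (-L00_2 g - iν L01_2 f) = δ_{i1} d_2 f`.
* `D02`: `c_i = 0`;
  `d_i(D02 f) = -L00(D02 g + D22 f - D00 f) + iν M_z00 f
   = -(iν M_z00 f + L00 f - δ_{i2} L00 f) + L00 f + iν M_z00 f = δ_{i2} c_2 f`;
  `D20^2 D02 = D02 D20^2 + 2 (D22 - D00) D20 - 2 D20`:
  `e_i = [iν M_z00 g + L00 g - δ_{i2} L00 g - L00 g] - L00 g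
    + iν [-M_z00 g + iν M_z01 f + L01 f - δ_{i2} L01 f - 2 L01 f] + ν^2 M_z01 f
   = d_i f + δ_{i2} d_2 f`.
* `D12`: with `D10 = dop Jm + D01`: `c_i(D12 f) = -δ_{i2} c_1 f`;
  `d_i(D12 f) = -L00(D12 g - D10 f) - iν L01(D12 f) = δ_{i2} L00_1 g + iν δ_{i2} L01_1 f + c_i(D10 f)
   = -δ_{i2} d_1 f + c_i(J f)` (as `c_i(D01 f) = 0`);
  `D20^2 D12 = D12 D20^2 - 2 D10 D20`, `D10 D20 = D20 D10`:
  `e_i(D12 f) = -1/2 δ_{i2} L00_1(D20 g) - L00(D20 D10 f) + iν(-δ_{i2} L01_1 g - L01(D10 f))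
    + ν^2/2 δ_{i2} L11_1 f = -δ_{i2} e_1 f + d_i(D10 f) = -δ_{i2} e_1 f + d_i(J f) + δ_{i1} c_2 f`.
-/

open scoped Topology ContDiff
open MeasureTheory

noncomputable section

namespace SoCo

variable (ν : ℝ) (i : Fin 4) (f : Isp)

theorem qa_E20_mul (a b : Fin 4) : Eij 2 0 * Eij a b = if a = 0 then Eij 2 b else 0 := by
  unfold Eij
  split_ifs with h
  · subst h
    rw [Matrix.single_mul_single_same, one_mul]
  · exact Matrix.single_mul_single_of_ne _ _ _ _ (Ne.symm h) _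

theorem qa_mul_E20 (a b : Fin 4) : Eij a b * Eij 2 0 = if b = 2 then Eij a 0 else 0 := by
  unfold Eij
  split_ifs with h
  · subst h
    rw [Matrix.single_mul_single_same, one_mul]
  · exact Matrix.single_mul_single_of_ne _ _ _ _ h _

theorem qa_dop_zero : dop 0 f = 0 := by
  have h := dop_sub 0 0 f
  rw [sub_self, sub_self] at h
  exact h

theorem qa_comm (a b : Fin 4) : D 2 0 (D a b f) = D a b (D 2 0 f) +
    ((if a = 0 then D 2 b f else 0) - (if b = 2 then D a 0 f else 0)) := by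
  unfold D
  rw [dop_bracket, qa_E20_mul, qa_mul_E20, dop_sub]
  congr 2
  · split_ifs
    · rfl
    · exact qa_dop_zero f
  · split_ifs
    · rfl
    · exact qa_dop_zero f

theorem qa_c23 : D 2 0 (D 2 3 f) = D 2 3 (D 2 0 f) := by
  have h := qa_comm f 2 3
  simpa using h

theorem qa_c13 : D 2 0 (D 1 3 f) = D 1 3 (D 2 0 f) := by
  have h := qa_comm f 1 3
  simpa using h

theorem qa_c03 : D 2 0 (D 0 3 f) = D 0 3 (D 2 0 f) + D 2 3 f := by
  have h := qa_comm f 0 3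
  simpa using h

theorem qa_c00 : D 2 0 (D 0 0 f) = D 0 0 (D 2 0 f) + D 2 0 f := by
  have h := qa_comm f 0 0
  simpa using h

theorem qa_c11 : D 2 0 (D 1 1 f) = D 1 1 (D 2 0 f) := by
  have h := qa_comm f 1 1
  simpa using h

theorem qa_c01 : D 2 0 (D 0 1 f) = D 0 1 (D 2 0 f) + D 2 1 f := by
  have h := qa_comm f 0 1
  simpa using h

theorem qa_c21 : D 2 0 (D 2 1 f) = D 2 1 (D 2 0 f) := by
  have h := qa_comm f 2 1
  simpa using h

theorem qa_c02 : D 2 0 (D 0 2 f) = D 0 2 (D 2 0 f) + (D 2 2 f - D 0 0 f) := by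
  have h := qa_comm f 0 2
  simpa using h

theorem qa_c22 : D 2 0 (D 2 2 f) = D 2 2 (D 2 0 f) - D 2 0 f := by
  have h := qa_comm f 2 2
  simpa [sub_eq_add_neg] using h

theorem qa_c12 : D 2 0 (D 1 2 f) = D 1 2 (D 2 0 f) - D 1 0 f := by
  have h := qa_comm f 1 2
  simpa [sub_eq_add_neg] using h

theorem qa_c10 : D 2 0 (D 1 0 f) = D 1 0 (D 2 0 f) := by
  have h := qa_comm f 1 0
  simpa using h

theorem qa_La_symm (a b : Fin 2) : La ν a b i f = La ν b a i f := by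
  rw [La_eq, La_eq]
  congr 1
  funext p
  exact (isI f).symm _ _ _ _

theorem qa_My_symm (a b : Fin 2) : My ν a b i f = My ν b a i f := by
  unfold My
  congr 1
  funext p
  congr 1
  exact (isI f).symm _ _ _ _

theorem qa_Mz_symm (a b : Fin 2) : Mz ν a b i f = Mz ν b a i f := by
  unfold Mz
  congr 1
  funext p
  congr 1
  exact (isI f).symm _ _ _ _

theorem q_D23 (hi : i = 1 ∨ i = 2) : cc ν i (D 2 3 f) = (Complex.I * ν) * cc ν i f ∧
    dd ν i (D 2 3 f) = (Complex.I * ν) * dd ν i f ∧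
    ee ν i (D 2 3 f) = (Complex.I * ν) * ee ν i f := by
  have e23 := fun a b g => La_D23 ν a b i g hi
  refine ⟨?_, ?_, ?_⟩
  · rw [cc_eq, cc_eq, e23]
  · rw [dd_eq, dd_eq, qa_c23, e23, e23]
    ring
  · rw [ee_eq, ee_eq, qa_c23, qa_c23, e23, e23, e23]
    ring

theorem q_D13 (hi : i = 1 ∨ i = 2) : cc ν i (D 1 3 f) = 0 ∧ dd ν i (D 1 3 f) = 0 ∧
    ee ν i (D 1 3 f) = 0 := by
  have e13 := fun a b g => La_D13 ν a b i g hi
  refine ⟨?_, ?_, ?_⟩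
  · rw [cc_eq, e13]
  · rw [dd_eq, qa_c13, e13, e13]
    ring
  · rw [ee_eq, qa_c13, qa_c13, e13, e13, e13]
    ring

theorem q_D03 (hi : i = 1 ∨ i = 2) : cc ν i (D 0 3 f) = 0 ∧ dd ν i (D 0 3 f) = 0 ∧
    ee ν i (D 0 3 f) = 0 := by
  have e23 := fun a b g => La_D23 ν a b i g hi
  have e03 := fun a b g => La_D03 ν a b i g hi
  have hI : Complex.I * Complex.I = -1 := Complex.I_mul_I
  refine ⟨?_, ?_, ?_⟩
  · rw [cc_eq, e03]
    simp
  · rw [dd_eq, qa_c03, map_add, e23, e03, e03]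
    simp
  · rw [ee_eq, qa_c03, map_add, qa_c03, qa_c23]
    simp only [map_add, e23, e03]
    rw [qa_La_symm ν i f 1 0]
    simp only [if_true, zero_ne_one, if_false]
    linear_combination ((ν : ℂ) ^ 2 * La ν 0 1 i f) * hI

theorem q_D00 (hi : i = 1 ∨ i = 2) : cc ν i (D 0 0 f) = cc ν i f ∧
    dd ν i (D 0 0 f) = 2 * dd ν i f ∧ ee ν i (D 0 0 f) = 3 * ee ν i f := by
  have e00 := fun a b g => La_D00 ν a b i g hi
  refine ⟨?_, ?_, ?_⟩
  · rw [cc_eq, cc_eq, e00]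
    simp
  · rw [dd_eq, dd_eq, qa_c00, map_add, e00, e00]
    simp only [Fin.val_zero, Fin.val_one, Nat.cast_zero, Nat.cast_one]
    ring
  · rw [ee_eq, ee_eq, qa_c00, map_add, qa_c00]
    simp only [map_add, e00, Fin.val_zero, Fin.val_one, Nat.cast_zero, Nat.cast_one]
    ring

theorem q_D11 (hi : i = 1 ∨ i = 2) :
    cc ν i (D 1 1 f) = cc ν i f - (if i = 1 then cc ν i f else 0) ∧
    dd ν i (D 1 1 f) = dd ν i f - (if i = 1 then dd ν i f else 0) ∧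
    ee ν i (D 1 1 f) = ee ν i f - (if i = 1 then ee ν i f else 0) := by
  have e11 := fun a b g => La_D11 ν a b i g hi
  refine ⟨?_, ?_, ?_⟩
  · rw [cc_eq, cc_eq, e11]
    rcases hi with rfl | rfl <;> simp
  · rw [dd_eq, dd_eq, qa_c11, e11, e11]
    rcases hi with rfl | rfl
    · simp
    · simp
  · rw [ee_eq, ee_eq, qa_c11, qa_c11, e11, e11, e11]
    rcases hi with rfl | rfl
    · simp
    · simp

end SoCo
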