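import Pool.Agent.H.MP_0f3f77_al.Qdef
import Pool.Agent.H.MP_0f3f77_al.QA

/-!
The six functionals and their behaviour under the Lie algebra.

Write `D jk = D j k`, `L^{ab}_i = La ν a b i`, `[E_jk, E_lm]` from `Matrix` products;
`dop_bracket` gives `D X (D Y f) = D Y (D X f) + D [X,Y] f`.
`c_i = L^{00}_i`, `d_i = -L^{00}_i ∘ D20 - iν L^{01}_i`,
`e_i = 1/2 L^{00}_i ∘ D20^2 + iν L^{01}_i ∘ D20 - ν^2/2 L^{11}_i`.
(`L^{10} = L^{01}` by the symmetry of `f`.)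

Commutators with `D20`:
`D20 D03 = D03 D20 + D23`, `D20 D23 = D23 D20`, `D20 D13 = D13 D20`, `D20 D21 = D21 D20`,
`D20 D01 = D01 D20 + D21`, `D20 D02 = D02 D20 + D22 - D00`, `D20 D12 = D12 D20 - D10`,
`D20 D10 = D10 D20`, `D20 D00 = D00 D20 + D20`, `D20 D11 = D11 D20`,
`D20 (D22 - D00) = (D22 - D00) D20 - 2 D20`.

Computations (`g = D20 f`; `M_y = My`, `M_z = Mz`; `δ_{i1}` etc.):
* `D23`, `D13`: immediate.
* `D03`: `c_i(D03 f) = 0`; `d_i = -L00(D03 g + D23 f) - iν L01(D03 f) = -iν L00 f + iν L00 f = 0`;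
  `D20^2 D03 = D03 D20^2 + 2 D23 D20`: `e_i = iν L00 g + iν(-L00 g + iν L01 f) + ν^2 L01 f = 0`.
* `D00`: `c_i`; `d_i(D00 f) = -L00(D00 g + g) - 2 iν L01 f = -2 L00 g - 2 iν L01 f = 2 d_i`;
  `D20^2 D00 = D00 D20^2 + 2 D20^2`: `e_i = 3/2 L00(D20 g) + iν (2 + 1) L01 g - 3 ν^2/2 L11 f`.
* `D11`: commutes with `D20`, `L(D11 f) = L f - δ_{i1} L f`.
* `D01`: `c_i = 0`; `d_i(D01 f) = -L00(D01 g + D21 f) + iν M_y00 f
   = -(iν M_y00 f - δ_{i1} L00_2 f) + iν M_y00 f = δ_{i1} c_2 f`;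
  `D20^2 D01 = D01 D20^2 + 2 D21 D20`:
  `e_i = (iν M_y00 g - δ_{i1} L00_2 g) + iν(-M_y00 g + iν M_y01 f - δ_{i1} L01_2 f) + ν^2 M_y01 f
   = δ_{i1} (-L00_2 g - iν L01_2 f) = δ_{i1} d_2 f`.
* `D02`: `c_i = 0`;
  `d_i(D02 f) = -L00(D02 g + D22 f - D00 f) + iν M_z00 f
   = -(iν M_z00 f + L00 f - δ_{i2} L00 f) + L00 f + iν M_z00 f = δ_{i2} c_2 f`;
  `D20^2 D02 = D02 D20^2 + 2 (D22 - D00) D20 - 2 D20`:
  `e_i = [iν M_z00 g + L00 g - δ_{i2} L00 g - L00 g] - L00 g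
    + iν [-M_z00 g + iν M_z01 f + L01 f - δ_{i2} L01 f - 2 L01 f] + ν^2 M_z01 f
   = d_i f + δ_{i2} d_2 f`.
* `D12`: with `D10 = dop Jm + D01`: `c_i(D12 f) = -δ_{i2} c_1 f`;
  `d_i(D12 f) = -L00(D12 g - D10 f) - iν L01(D12 f) = δ_{i2} L00_1 g + iν δ_{i2} L01_1 f + c_i(D10 f)
   = -δ_{i2} d_1 f + c_i(J f)` (as `c_i(D01 f) = 0`);
  `D20^2 D12 = D12 D20^2 - 2 D10 D20`, `D10 D20 = D20 D10`:
  `e_i(D12 f) = -1/2 δ_{i2} L00_1(D20 g) - L00(D20 D10 f) + iν(-δ_{i2} L01_1 g - L01(D10 f))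
    + ν^2/2 δ_{i2} L11_1 f = -δ_{i2} e_1 f + d_i(D10 f) = -δ_{i2} e_1 f + d_i(J f) + δ_{i1} c_2 f`.
-/

open scoped Topology ContDiff
open MeasureTheory

noncomputable section

namespace SoCo

variable (ν : ℝ) (i : Fin 4) (f : Isp)

theorem q_D01 (hi : i = 1 ∨ i = 2) : cc ν i (D 0 1 f) = 0 ∧
    dd ν i (D 0 1 f) = (if i = 1 then cc ν 2 f else 0) ∧
    ee ν i (D 0 1 f) = (if i = 1 then dd ν 2 f else 0) := by
  have e01 := fun a b g => La_D01 ν a b i g hi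
  have e21 := fun a b g => La_D21 ν a b i g hi
  have hI : Complex.I * Complex.I = -1 := Complex.I_mul_I
  refine ⟨?_, ?_, ?_⟩
  · rw [cc_eq, e01]
    simp
  · rw [dd_eq, qa_c01, map_add, cc_eq]
    simp only [e01, e21, if_true, zero_ne_one, if_false]
    split_ifs <;> ring
  · rw [ee_eq, qa_c01, map_add, qa_c01, qa_c21, dd_eq]
    simp only [map_add, e01, e21, if_true, zero_ne_one, if_false]
    rw [qa_My_symm ν i f 1 0]
    split_ifs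
    · linear_combination ((ν : ℂ) ^ 2 * My ν 0 1 i f) * hI
    · linear_combination ((ν : ℂ) ^ 2 * My ν 0 1 i f) * hI

theorem q_D02 (hi : i = 1 ∨ i = 2) : cc ν i (D 0 2 f) = 0 ∧
    dd ν i (D 0 2 f) = (if i = 2 then cc ν 2 f else 0) ∧
    ee ν i (D 0 2 f) = dd ν i f + (if i = 2 then dd ν 2 f else 0) := by
  have e02 := fun a b g => La_D02 ν a b i g hi
  have e22 := fun a b g => La_D22 ν a b i g hi
  have e00 := fun a b g => La_D00 ν a b i g hi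
  have hI : Complex.I * Complex.I = -1 := Complex.I_mul_I
  refine ⟨?_, ?_, ?_⟩
  · rw [cc_eq, e02]
    simp
  · rw [dd_eq, qa_c02, map_add, map_sub, cc_eq]
    simp only [e02, e22, e00, if_true, zero_ne_one, if_false, Fin.val_zero, Fin.val_one,
      Nat.cast_zero, Nat.cast_one]
    split_ifs <;> ring
  · rw [ee_eq, qa_c02, map_add, qa_c02, map_sub (D 2 0), qa_c22, qa_c00, dd_eq, dd_eq]
    simp only [map_add, map_sub, e02, e22, e00, if_true, zero_ne_one, if_false, Fin.val_zero,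
      Fin.val_one, Nat.cast_zero, Nat.cast_one]
    rw [qa_Mz_symm ν i f 1 0]
    split_ifs
    · linear_combination ((ν : ℂ) ^ 2 * Mz ν 0 1 i f) * hI
    · linear_combination ((ν : ℂ) ^ 2 * Mz ν 0 1 i f) * hI

theorem qb_D10 : D 1 0 f = dop Jm f + D 0 1 f := by
  have h : dop Jm f = D 1 0 f - D 0 1 f := by
    unfold Jm D
    rw [dop_sub]
  rw [h, sub_add_cancel]

theorem q_D12 (hi : i = 1 ∨ i = 2) : cc ν i (D 1 2 f) = -(if i = 2 then cc ν 1 f else 0) ∧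
    dd ν i (D 1 2 f) = cc ν i (dop Jm f) - (if i = 2 then dd ν 1 f else 0) ∧
    ee ν i (D 1 2 f) = dd ν i (dop Jm f) + (if i = 1 then cc ν 2 f else 0) -
      (if i = 2 then ee ν 1 f else 0) := by
  have e12 := fun a b g => La_D12 ν a b i g hi
  have hq := q_D01 ν i f hi
  have h10c : La ν 0 0 i (D 1 0 f) = cc ν i (dop Jm f) := by
    rw [qb_D10, map_add, ← cc_eq, ← cc_eq, hq.1, add_zero]
  have h10d : -La ν 0 0 i (D 2 0 (D 1 0 f)) - (Complex.I * ν) * La ν 0 1 i (D 1 0 f) =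
      dd ν i (dop Jm f) + (if i = 1 then cc ν 2 f else 0) := by
    rw [← dd_eq, qb_D10, map_add, hq.2.1]
  refine ⟨?_, ?_, ?_⟩
  · rw [cc_eq, cc_eq, e12]
  · rw [dd_eq, qa_c12, map_sub, dd_eq ν 1, h10c]
    simp only [e12]
    split_ifs <;> ring
  · rw [← h10d, ee_eq, qa_c12, map_sub (D 2 0), qa_c12, ee_eq ν 1, ← qa_c10]
    simp only [map_sub, e12]
    split_ifs <;> ring

end SoCo
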