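import Pool.Agent.H.MP_0f3f77_al.SliceDecay

/-!
Restriction of elements of `Isp` to the slices `pt t`, and their decay.

`slice_decay`, proof.  Fix `t`, `p = (y, z)`, let `v = (0, y, z, 1)`, `r = sqrt (1 + y^2 + z^2)`,
`x0 = (1, 0, t, 0)`.  With `A = !![1, 0; 0, r⁻¹]` one has `f x = rho A⁻¹ (f (rmul x A))`
for all `x`, so for all `p'`:
`f (pt t p') a b k = r^(-3 + a + b) * f (x0, r⁻¹ • v') a b k` (`v' = (0, p'.1, p'.2, 1)`).
The map `p' ↦ (x0, r⁻¹ • v')` is affine, with linear part of norm `≤ r⁻¹`.  So the `j`-th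
derivative at `p` is bounded by `r^(-3+a+b) r^(-j) ‖iteratedFDeriv ℝ j f (x0, r⁻¹ • v)‖`
(`ContinuousLinearMap.iteratedFDeriv_comp_right` for the linear part and
`iteratedFDeriv_comp_add_left/right` for the translation, `..._comp_left` for the coordinate
functional).  By `deriv_bound` this is at most
`r^(-3+a+b-j) * 32 (sz x')^8 (2 sz x')^j pn j f`, `x' = (x0, r⁻¹ • v)`,
`‖x'‖ ≤ 1 + |t|`, `gram x' = (1 + t^2) - (t z / r)^2 ≥ 1`, so `sz x' ≤ 16 (1 + |t|)`.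
Finally `r^2 ≥ (1 + ‖p‖)^2 / 2` and the exponent is negative, so
`r^(-3+a+b-j) ≤ 2^(3+j) (1 + ‖p‖)^(-3+a+b-j)`.
-/

open scoped Topology ContDiff
open MeasureTheory

noncomputable section

namespace SoCo

theorem sl_sy (f : Isp) (a b : Fin 2) (k : Fin 4) :
    Sy (-3 + ((a : ℕ) : ℤ) + ((b : ℕ) : ℤ)) (sl f a b k) := by
  refine ⟨?_, fun j => ?_⟩
  · have h1 := smooth_slice f a b k
    have h2 : ContDiff ℝ ∞ (fun p : ℝ × ℝ => ((0 : ℝ), p)) := by fun_prop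
    exact h1.comp h2
  · obtain ⟨C, _, hC⟩ := slice_decay j
    refine ⟨C * pn j f, fun p => ?_⟩
    have h1 := hC f 0 p a b k
    rw [abs_zero, add_zero, one_pow, mul_one] at h1
    calc ‖iteratedFDeriv ℝ j (sl f a b k) p‖
        ≤ C * (1 + ‖p‖) ^ (-3 + ((a : ℕ) : ℤ) + ((b : ℕ) : ℤ) - j) * pn j f := h1
      _ = C * pn j f * (1 + ‖p‖) ^ (-3 + ((a : ℕ) : ℤ) + ((b : ℕ) : ℤ) - j) := by ring

theorem sl_sy' (f : Isp) (a b : Fin 2) (k : Fin 4) : Sy (-1) (sl f a b k) := by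
  refine (sl_sy f a b k).mono ?_
  fin_cases a <;> fin_cases b <;> simp

end SoCo
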