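import Pool.Agent.H.MP_0f3f77_al.CovDeriv
import Pool.Agent.H.MP_0f3f77_al.SliceSy

/-!
The Lie algebra action on slices.

Let `x = pt 0 p`.  (i) Tangential directions: by the chain rule
`(fderiv ℝ f x (0, (0, h, 0, 0))) a b i = h * dy (sl f a b i) p` and
`(fderiv ℝ f x (0, (0, 0, h, 0))) a b i = h * dz (sl f a b i) p`.
(ii) `cov_deriv`: differentiate `f (rmul x (1 + s B)) = rho (1 + s B) (f x)` at `s = 0`:
`(fderiv ℝ f x (rmul x B)) a b i = -3 (tr B) f x a b i + ∑ c, B c a * f x c b i +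
∑ d, B d b * f x a d i`  (`d/ds det (1 + s B) = tr B`).
Then use `dop_app`: `dop X f x a b i = -(fderiv f x (lmul X x)) a b i - ∑ k, X k i f x a b k`,
with `X = Eij j k`: `lmul X x = (x_a(k) e_j)_a` and the last sum is `f x a b j` if `i = k`, else `0`.
At `x = pt 0 p = (e_0, (0, y, z, 1))`:
`D 0 1`: `lmul X x = (0, y e_0) = y • (0, x 0) = y • rmul x B`, `B = E_{01}` (`B 0 1 = 1`);
`D 0 2`: `z • (0, x 0)`; `D 0 3`: `(0, x 0)`; `D 1 2`: `(0, z e_1)`; `D 1 3`: `(0, e_1)`;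
`D 2 3`: `(0, e_2)`; `D 2 1`: `(0, y e_2)`; `D 0 0`: `(x 0, 0) = rmul x E_{00}`;
`D 1 1`: `(0, y e_1)`; `D 2 2`: `(0, z e_2)`.
`sl f a b 0 = 0` by the annihilation property with `x 0 = e_0`.
For `pt t p`: `D 2 3`: `lmul X x = (0, e_2)`, `D 2 0`: `(e_2, 0)`.
-/

open scoped Topology ContDiff
open MeasureTheory

noncomputable section

namespace SoCo

theorem slicedop_lmul (j k : Fin 4) (x : E) :
    lmul (Eij j k) x = fun a i => if i = j then x a k else 0 := by
  funext a i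
  simp only [lmul, Eij, Matrix.single_apply, ite_mul, one_mul, zero_mul]
  by_cases h : i = j
  · subst h
    simp
  · have h' : ¬ j = i := fun e => h e.symm
    simp [h, h']

theorem slicedop_D (f : Isp) (x : E) (hx : x ∈ Om) (j k : Fin 4) (a b : Fin 2) (i : Fin 4) :
    D j k f x a b i = -(fderiv ℝ (f : E → Fv) x (fun a i => if i = j then x a k else 0)) a b i -
      (if i = k then f x a b j else 0) := by
  have h := dop_app (Eij j k) f x hx a b i
  rw [slicedop_lmul] at h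
  refine h.trans ?_
  congr 1
  simp only [Eij, Matrix.single_apply]
  by_cases hi : i = k
  · subst hi
    simp [apply_ite]
  · have h' : ¬ k = i := fun e => hi e.symm
    simp [hi, h']

/-- The direction of a tangent vector of the slice. -/
theorem slicedop_tan (f : Isp) (t : ℝ) (a b : Fin 2) (i : Fin 4) (p v : ℝ × ℝ) :
    (fderiv ℝ (f : E → Fv) (pt t p) ![![0, 0, 0, 0], ![0, v.1, v.2, 0]]) a b i =
      fderiv ℝ (fun p : ℝ × ℝ => f (pt t p) a b i) p v := by
  have h1 := covderiv_curve f (pt t p) ![![0, 0, 0, 0], ![0, v.1, v.2, 0]] (pt_mem t p) a b i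
  have hc : ContDiff ℝ ∞ (fun p : ℝ × ℝ => f (pt t p) a b i) :=
    (smooth_slice f a b i).comp (contDiff_const.prodMk contDiff_id)
  have hd : DifferentiableAt ℝ (fun p : ℝ × ℝ => f (pt t p) a b i) p :=
    (hc.differentiable (by simp)) p
  have h2 : HasDerivAt (fun s : ℝ => p + s • v) v 0 := by
    simpa using ((hasDerivAt_id (0 : ℝ)).smul_const v).const_add p
  have h3 : HasDerivAt (fun s : ℝ => (fun p : ℝ × ℝ => f (pt t p) a b i) (p + s • v))
      (fderiv ℝ (fun p : ℝ × ℝ => f (pt t p) a b i) p v) 0 := by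
    have h5 : HasFDerivAt (fun p : ℝ × ℝ => f (pt t p) a b i)
        (fderiv ℝ (fun p : ℝ × ℝ => f (pt t p) a b i) p) (p + (0 : ℝ) • v) := by
      simpa using hd.hasFDerivAt
    exact h5.comp_hasDerivAt 0 h2
  have h4 : ∀ s : ℝ, pt t p + s • (![![0, 0, 0, 0], ![0, v.1, v.2, 0]] : E) =
      pt t (p + s • v) := by
    intro s
    funext a i
    have ha : a = 0 ∨ a = 1 := by omega
    have hi : i = 0 ∨ i = 1 ∨ i = 2 ∨ i = 3 := by omega
    rcases ha with rfl | rfl <;> rcases hi with rfl | rfl | rfl | rfl <;>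
      simp [pt]
  simp only [h4] at h1
  exact h1.unique h3

/-- The direction `c • rmul x B`. -/
theorem slicedop_cov (f : Isp) (x : E) (hx : x ∈ Om) (c : ℝ) (B : Mat2) (v : E)
    (hv : v = c • rmul x B) (a b : Fin 2) (i : Fin 4) :
    (fderiv ℝ (f : E → Fv) x v) a b i = (c : ℂ) *
      (-3 * ((B 0 0 + B 1 1 : ℝ) : ℂ) * f x a b i + ∑ c, (B c a : ℂ) * f x c b i +
        ∑ d, (B d b : ℂ) * f x a d i) := by
  rw [hv, map_smul, ← cov_deriv f x hx B a b i]
  simp

theorem sl_zero (f : Isp) (a b : Fin 2) (p : ℝ × ℝ) : sl f a b 0 p = 0 := by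
  have h := (isI f).ann (pt 0 p) a b 0
  simpa [Fin.sum_univ_four, pt, sl] using h

theorem slicedop_up (f : Isp) (a b : Fin 2) (i k : Fin 4) (p : ℝ × ℝ)
    (c : ℝ) (hc : ∀ a', pt 0 p a' k = if a' = 1 then c else 0) :
    sl (D 0 k f) a b i p = -(c : ℂ) *
      ((if a = 1 then sl f 0 b i p else 0) + (if b = 1 then sl f a 0 i p else 0)) := by
  have h0 : f (pt 0 p) a b 0 = 0 := sl_zero f a b p
  have h1 := slicedop_D f (pt 0 p) (pt_mem 0 p) 0 k a b i
  have h2 := slicedop_cov f (pt 0 p) (pt_mem 0 p) c !![0, 1; 0, 0]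
    (fun a i => if i = 0 then pt 0 p a k else 0) (by
      funext a' i'
      have ha : a' = 0 ∨ a' = 1 := by omega
      have hi : i' = 0 ∨ i' = 1 ∨ i' = 2 ∨ i' = 3 := by omega
      rw [hc]
      rcases ha with rfl | rfl <;> rcases hi with rfl | rfl | rfl | rfl <;>
        simp [pt, rmul_app]) a b i
  change D 0 k f (pt 0 p) a b i = _
  rw [h1, h2, h0, ite_self, sub_zero]
  have ha : a = 0 ∨ a = 1 := by omega
  have hb : b = 0 ∨ b = 1 := by omega
  rcases ha with rfl | rfl <;> rcases hb with rfl | rfl <;>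
    simp [Fin.sum_univ_two, sl]

theorem sl_D01 (f : Isp) (a b : Fin 2) (i : Fin 4) (hi : i = 1 ∨ i = 2) (p : ℝ × ℝ) :
    sl (D 0 1 f) a b i p = -(p.1 : ℂ) *
      ((if a = 1 then sl f 0 b i p else 0) + (if b = 1 then sl f a 0 i p else 0)) := by
  refine slicedop_up f a b i 1 p p.1 ?_
  intro a'
  have ha : a' = 0 ∨ a' = 1 := by omega
  rcases ha with rfl | rfl <;> simp [pt]

theorem sl_D02 (f : Isp) (a b : Fin 2) (i : Fin 4) (hi : i = 1 ∨ i = 2) (p : ℝ × ℝ) :
    sl (D 0 2 f) a b i p = -(p.2 : ℂ) *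
      ((if a = 1 then sl f 0 b i p else 0) + (if b = 1 then sl f a 0 i p else 0)) := by
  refine slicedop_up f a b i 2 p p.2 ?_
  intro a'
  have ha : a' = 0 ∨ a' = 1 := by omega
  rcases ha with rfl | rfl <;> simp [pt]

theorem sl_D03 (f : Isp) (a b : Fin 2) (i : Fin 4) (hi : i = 1 ∨ i = 2) (p : ℝ × ℝ) :
    sl (D 0 3 f) a b i p = -
      ((if a = 1 then sl f 0 b i p else 0) + (if b = 1 then sl f a 0 i p else 0)) := by
  have h := slicedop_up f a b i 3 p 1 (by
    intro a'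
    have ha : a' = 0 ∨ a' = 1 := by omega
    rcases ha with rfl | rfl <;> simp [pt])
  rw [h]
  simp

/-- A tangential operator. -/
theorem slicedop_low (f : Isp) (a b : Fin 2) (i j k : Fin 4) (p : ℝ × ℝ) (v : ℝ × ℝ)
    (hv : (fun a i => if i = j then pt 0 p a k else 0) =
      (![![0, 0, 0, 0], ![0, v.1, v.2, 0]] : E)) :
    sl (D j k f) a b i p = -(fderiv ℝ (sl f a b i) p v) - (if i = k then sl f a b j p else 0) := by
  have h1 := slicedop_D f (pt 0 p) (pt_mem 0 p) j k a b i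
  have h2 := slicedop_tan f 0 a b i p v
  change D j k f (pt 0 p) a b i = _
  rw [h1, hv, h2]
  rfl

theorem slicedop_v1 (f : Isp) (a b : Fin 2) (i : Fin 4) (p : ℝ × ℝ) (c : ℝ) :
    fderiv ℝ (sl f a b i) p (c, 0) = (c : ℂ) * dy (sl f a b i) p := by
  have : ((c, 0) : ℝ × ℝ) = c • ((1, 0) : ℝ × ℝ) := by simp
  rw [this, map_smul]
  simp [dy]

theorem slicedop_v2 (f : Isp) (a b : Fin 2) (i : Fin 4) (p : ℝ × ℝ) (c : ℝ) :
    fderiv ℝ (sl f a b i) p (0, c) = (c : ℂ) * dz (sl f a b i) p := by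
  have : ((0, c) : ℝ × ℝ) = c • ((0, 1) : ℝ × ℝ) := by simp
  rw [this, map_smul]
  simp [dz]

theorem sl_D12 (f : Isp) (a b : Fin 2) (i : Fin 4) (hi : i = 1 ∨ i = 2) (p : ℝ × ℝ) :
    sl (D 1 2 f) a b i p = -(p.2 : ℂ) * dy (sl f a b i) p -
      (if i = 2 then sl f a b 1 p else 0) := by
  have h := slicedop_low f a b i 1 2 p (p.2, 0) (by
    funext a' i'
    have ha : a' = 0 ∨ a' = 1 := by omega
    have hi : i' = 0 ∨ i' = 1 ∨ i' = 2 ∨ i' = 3 := by omega
    rcases ha with rfl | rfl <;> rcases hi with rfl | rfl | rfl | rfl <;> simp [pt])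
  rw [h, slicedop_v1]
  ring

theorem sl_D13 (f : Isp) (a b : Fin 2) (i : Fin 4) (hi : i = 1 ∨ i = 2) (p : ℝ × ℝ) :
    sl (D 1 3 f) a b i p = -dy (sl f a b i) p := by
  have h := slicedop_low f a b i 1 3 p (1, 0) (by
    funext a' i'
    have ha : a' = 0 ∨ a' = 1 := by omega
    have hi : i' = 0 ∨ i' = 1 ∨ i' = 2 ∨ i' = 3 := by omega
    rcases ha with rfl | rfl <;> rcases hi with rfl | rfl | rfl | rfl <;> simp [pt])
  rw [h, slicedop_v1]
  rcases hi with rfl | rfl <;> simp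

theorem sl_D23 (f : Isp) (a b : Fin 2) (i : Fin 4) (hi : i = 1 ∨ i = 2) (p : ℝ × ℝ) :
    sl (D 2 3 f) a b i p = -dz (sl f a b i) p := by
  have h := slicedop_low f a b i 2 3 p (0, 1) (by
    funext a' i'
    have ha : a' = 0 ∨ a' = 1 := by omega
    have hi : i' = 0 ∨ i' = 1 ∨ i' = 2 ∨ i' = 3 := by omega
    rcases ha with rfl | rfl <;> rcases hi with rfl | rfl | rfl | rfl <;> simp [pt])
  rw [h, slicedop_v2]
  rcases hi with rfl | rfl <;> simp

theorem sl_D21 (f : Isp) (a b : Fin 2) (i : Fin 4) (hi : i = 1 ∨ i = 2) (p : ℝ × ℝ) :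
    sl (D 2 1 f) a b i p = -(p.1 : ℂ) * dz (sl f a b i) p -
      (if i = 1 then sl f a b 2 p else 0) := by
  have h := slicedop_low f a b i 2 1 p (0, p.1) (by
    funext a' i'
    have ha : a' = 0 ∨ a' = 1 := by omega
    have hi : i' = 0 ∨ i' = 1 ∨ i' = 2 ∨ i' = 3 := by omega
    rcases ha with rfl | rfl <;> rcases hi with rfl | rfl | rfl | rfl <;> simp [pt])
  rw [h, slicedop_v2]
  ring

theorem sl_D00 (f : Isp) (a b : Fin 2) (i : Fin 4) (hi : i = 1 ∨ i = 2) (p : ℝ × ℝ) :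
    sl (D 0 0 f) a b i p = (1 + ((a : ℕ) : ℂ) + ((b : ℕ) : ℂ)) * sl f a b i p := by
  have h0 : f (pt 0 p) a b 0 = 0 := sl_zero f a b p
  have h1 := slicedop_D f (pt 0 p) (pt_mem 0 p) 0 0 a b i
  have h2 := slicedop_cov f (pt 0 p) (pt_mem 0 p) 1 !![1, 0; 0, 0]
    (fun a i => if i = 0 then pt 0 p a 0 else 0) (by
      funext a' i'
      have ha : a' = 0 ∨ a' = 1 := by omega
      have hi : i' = 0 ∨ i' = 1 ∨ i' = 2 ∨ i' = 3 := by omega
      rcases ha with rfl | rfl <;> rcases hi with rfl | rfl | rfl | rfl <;>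
        simp [pt, rmul_app]) a b i
  change D 0 0 f (pt 0 p) a b i = _ * f (pt 0 p) a b i
  rw [h1, h2, h0, ite_self, sub_zero]
  have ha : a = 0 ∨ a = 1 := by omega
  have hb : b = 0 ∨ b = 1 := by omega
  rcases ha with rfl | rfl <;> rcases hb with rfl | rfl <;>
    simp [Fin.sum_univ_two, -mul_eq_mul_right_iff] <;> ring

theorem sl_D11 (f : Isp) (a b : Fin 2) (i : Fin 4) (hi : i = 1 ∨ i = 2) (p : ℝ × ℝ) :
    sl (D 1 1 f) a b i p = -(p.1 : ℂ) * dy (sl f a b i) p -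
      (if i = 1 then sl f a b 1 p else 0) := by
  have h := slicedop_low f a b i 1 1 p (p.1, 0) (by
    funext a' i'
    have ha : a' = 0 ∨ a' = 1 := by omega
    have hi : i' = 0 ∨ i' = 1 ∨ i' = 2 ∨ i' = 3 := by omega
    rcases ha with rfl | rfl <;> rcases hi with rfl | rfl | rfl | rfl <;> simp [pt])
  rw [h, slicedop_v1]
  ring

theorem sl_D22 (f : Isp) (a b : Fin 2) (i : Fin 4) (hi : i = 1 ∨ i = 2) (p : ℝ × ℝ) :
    sl (D 2 2 f) a b i p = -(p.2 : ℂ) * dz (sl f a b i) p -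
      (if i = 2 then sl f a b 2 p else 0) := by
  have h := slicedop_low f a b i 2 2 p (0, p.2) (by
    funext a' i'
    have ha : a' = 0 ∨ a' = 1 := by omega
    have hi : i' = 0 ∨ i' = 1 ∨ i' = 2 ∨ i' = 3 := by omega
    rcases ha with rfl | rfl <;> rcases hi with rfl | rfl | rfl | rfl <;> simp [pt])
  rw [h, slicedop_v2]
  ring

end SoCo
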