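import Pool.Agent.H.MP_0f3f77_al.CovDeriv
import Pool.Agent.H.MP_0f3f77_al.SliceSy
import Pool.Agent.H.MP_0f3f77_al.SliceDop

/-!
The Lie algebra action on slices.

Let `x = pt 0 p`.  (i) Tangential directions: by the chain rule
`(fderiv ℝ f x (0, (0, h, 0, 0))) a b i = h * dy (sl f a b i) p` and
`(fderiv ℝ f x (0, (0, 0, h, 0))) a b i = h * dz (sl f a b i) p`.
(ii) `cov_deriv`: differentiate `f (rmul x (1 + s B)) = rho (1 + s B) (f x)` at `s = 0`:
`(fderiv ℝ f x (rmul x B)) a b i = -3 (tr B) f x a b i + ∑ c, B c a * f x c b i +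
∑ d, B d b * f x a d i`  (`d/ds det (1 + s B) = tr B`).
Then use `dop_app`: `dop X f x a b i = -(fderiv f x (lmul X x)) a b i - ∑ k, X k i f x a b k`,
with `X = Eij j k`: `lmul X x = (x_a(k) e_j)_a` and the last sum is `f x a b j` if `i = k`, else `0`.
At `x = pt 0 p = (e_0, (0, y, z, 1))`:
`D 0 1`: `lmul X x = (0, y e_0) = y • (0, x 0) = y • rmul x B`, `B = E_{01}` (`B 0 1 = 1`);
`D 0 2`: `z • (0, x 0)`; `D 0 3`: `(0, x 0)`; `D 1 2`: `(0, z e_1)`; `D 1 3`: `(0, e_1)`;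
`D 2 3`: `(0, e_2)`; `D 2 1`: `(0, y e_2)`; `D 0 0`: `(x 0, 0) = rmul x E_{00}`;
`D 1 1`: `(0, y e_1)`; `D 2 2`: `(0, z e_2)`.
`sl f a b 0 = 0` by the annihilation property with `x 0 = e_0`.
For `pt t p`: `D 2 3`: `lmul X x = (0, e_2)`, `D 2 0`: `(e_2, 0)`.
-/

open scoped Topology ContDiff
open MeasureTheory

noncomputable section

namespace SoCo

/-- `D 2 3` on the slices `pt t`. -/
theorem slt_D23 (f : Isp) (t : ℝ) (a b : Fin 2) (i : Fin 4) (hi : i = 1 ∨ i = 2) (p : ℝ × ℝ) :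
    D 2 3 f (pt t p) a b i = -dz (fun p => f (pt t p) a b i) p := by
  have h1 := slicedop_D f (pt t p) (pt_mem t p) 2 3 a b i
  have h2 := slicedop_tan f t a b i p (0, 1)
  have hv : (fun a i => if i = 2 then pt t p a 3 else 0) =
      (![![0, 0, 0, 0], ![0, (0 : ℝ), 1, 0]] : E) := by
    funext a' i'
    have ha : a' = 0 ∨ a' = 1 := by omega
    have hi : i' = 0 ∨ i' = 1 ∨ i' = 2 ∨ i' = 3 := by omega
    rcases ha with rfl | rfl <;> rcases hi with rfl | rfl | rfl | rfl <;> simp [pt]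
  rw [h1, hv, h2]
  rcases hi with rfl | rfl <;> simp [dz]

/-- `D 2 0` is the derivative in `t`. -/
theorem slt_D20 (f : Isp) (t : ℝ) (a b : Fin 2) (i : Fin 4) (hi : i = 1 ∨ i = 2) (p : ℝ × ℝ) :
    HasDerivAt (fun t => f (pt t p) a b i) (-(D 2 0 f (pt t p) a b i)) t := by
  have h1 := slicedop_D f (pt t p) (pt_mem t p) 2 0 a b i
  have h2 := covderiv_curve f (pt t p) ![![0, 0, 1, 0], ![0, 0, 0, 0]] (pt_mem t p) a b i
  have hv : (fun a i => if i = 2 then pt t p a 0 else 0) =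
      (![![0, 0, 1, 0], ![0, 0, 0, 0]] : E) := by
    funext a' i'
    have ha : a' = 0 ∨ a' = 1 := by omega
    have hi : i' = 0 ∨ i' = 1 ∨ i' = 2 ∨ i' = 3 := by omega
    rcases ha with rfl | rfl <;> rcases hi with rfl | rfl | rfl | rfl <;> simp [pt]
  have h3 : -(D 2 0 f (pt t p) a b i) =
      (fderiv ℝ (f : E → Fv) (pt t p) ![![0, 0, 1, 0], ![0, 0, 0, 0]]) a b i := by
    rw [h1, hv]
    rcases hi with rfl | rfl <;> simp
  rw [h3]
  have h4 : ∀ s : ℝ, pt t p + s • (![![0, 0, 1, 0], ![0, 0, 0, 0]] : E) = pt (t + s) p := by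
    intro s
    funext a i
    have ha : a = 0 ∨ a = 1 := by omega
    have hi : i = 0 ∨ i = 1 ∨ i = 2 ∨ i = 3 := by omega
    rcases ha with rfl | rfl <;> rcases hi with rfl | rfl | rfl | rfl <;>
      simp [pt]
  simp only [h4] at h2
  have h5 := HasDerivAt.comp_sub_const t t (f := fun s => f (pt (t + s) p) a b i) (by simpa using h2)
  simpa using h5

end SoCo
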