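import Pool.Agent.H.MP_0f3f77_al.QA
import Pool.Agent.H.MP_0f3f77_al.QB
import Pool.Agent.H.MP_0f3f77_al.SliceT

/-!
The function `Fh ν g a b k t = ∫_p (D8 g)(pt t p)_{ab,k} e^{iν p.2}`, `D8 = (D 2 3)^8`.

`slt_D8`: iterate `slt_D23` (`(-1)^8 = 1`).
`D8_decay`: `slice_decay` with `j = 8` (the eighth derivative in the direction `(0,1)`).
`Fh_deriv`: differentiation under the integral sign (`hasDerivAt_integral_of_dominated_loc_of_deriv_le`),
`slt_D20`, `D 2 0` commutes with `D8` (`dop_bracket`, `[E_20, E_23] = 0`), domination by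
`D8_decay` for `D 2 0 g`, uniformly for `|t - t0| < 1`.
`Fh_zero`: definition of `La` and `Lf`.
-/

open scoped Topology ContDiff
open MeasureTheory

noncomputable section

namespace SoCo

/-- The eighth power of `D 2 3`. -/
def D8 : Isp →L[ℂ] Isp := (dopL (Eij 2 3)) ^ 8

theorem fhdef_iter (g : Isp) : D8 g = (D 2 3)^[8] g := by
  have h : (⇑D8 : Isp → Isp) = (⇑(dopL (Eij 2 3)))^[8] := by
    unfold D8
    exact FunLike.coe_pow_eq_iterate _ _
  rw [h]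
  rfl

theorem fhdef_dz_smul (c : ℂ) (φ : ℝ × ℝ → ℂ) (p : ℝ × ℝ) :
    dz (c • φ) p = c * dz φ p := by
  unfold dz
  rw [fderiv_const_smul_field]
  rfl

theorem fhdef_slt (g : Isp) (t : ℝ) (a b : Fin 2) (i : Fin 4) (hi : i = 1 ∨ i = 2) (n : ℕ) :
    (fun p => (D 2 3)^[n] g (pt t p) a b i) =
      ((-1 : ℂ) ^ n) • (dz^[n] (fun p => g (pt t p) a b i)) := by
  induction n with
  | zero => simp
  | succ n ih =>
    funext p
    rw [Function.iterate_succ_apply', slt_D23 _ t a b i hi p, ih, fhdef_dz_smul,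
      Pi.smul_apply, Function.iterate_succ_apply', smul_eq_mul, pow_succ]
    ring

theorem slt_D8 (g : Isp) (t : ℝ) (a b : Fin 2) (i : Fin 4) (hi : i = 1 ∨ i = 2) (p : ℝ × ℝ) :
    D8 g (pt t p) a b i = (dz^[8] (fun p => g (pt t p) a b i)) p := by
  have h := congrFun (fhdef_slt g t a b i hi 8) p
  have h8 : ((-1 : ℂ)) ^ 8 = 1 := by norm_num
  rw [fhdef_iter]
  rw [h8, one_smul] at h
  exact h

theorem fhdef_smooth (g : Isp) (t : ℝ) (a b : Fin 2) (k : Fin 4) :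
    ContDiff ℝ ∞ (fun p : ℝ × ℝ => g (pt t p) a b k) :=
  (smooth_slice g a b k).comp (contDiff_const.prodMk contDiff_id)

theorem fhdef_dz_iter (φ : ℝ × ℝ → ℂ) (hφ : ContDiff ℝ ∞ φ) (n : ℕ) (p : ℝ × ℝ) :
    (dz^[n] φ) p = iteratedFDeriv ℝ n φ p (fun _ => ((0 : ℝ), (1 : ℝ))) := by
  induction n generalizing p with
  | zero => simp
  | succ n ih =>
    rw [Function.iterate_succ_apply']
    have h1 : dz^[n] φ = fun q => iteratedFDeriv ℝ n φ q (fun _ => ((0 : ℝ), (1 : ℝ))) :=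
      funext ih
    rw [h1, iteratedFDeriv_succ_apply_left]
    unfold dz
    have hd : DifferentiableAt ℝ (iteratedFDeriv ℝ n φ) p :=
      (hφ.differentiable_iteratedFDeriv (m := n) (by exact_mod_cast WithTop.coe_lt_top _)) p
    have h2 : HasFDerivAt (fun q => iteratedFDeriv ℝ n φ q (fun _ => ((0 : ℝ), (1 : ℝ))))
        ((ContinuousMultilinearMap.apply ℝ (fun _ : Fin n => ℝ × ℝ) ℂ
          (fun _ => ((0 : ℝ), (1 : ℝ)))).comp (fderiv ℝ (iteratedFDeriv ℝ n φ) p)) p :=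
      (ContinuousMultilinearMap.apply ℝ (fun _ : Fin n => ℝ × ℝ) ℂ
          (fun _ => ((0 : ℝ), (1 : ℝ)))).hasFDerivAt.comp p hd.hasFDerivAt
    rw [h2.fderiv]
    rfl

theorem D8_decay : ∃ (C : ℝ) (N m : ℕ), 0 ≤ C ∧ ∀ (g : Isp) (t : ℝ) (p : ℝ × ℝ) (a b : Fin 2)
    (i : Fin 4), (i = 1 ∨ i = 2) →
    ‖D8 g (pt t p) a b i‖ ≤ C * (1 + |t|) ^ N * (1 + ‖p‖) ^ (-9 : ℤ) * pn m g := by
  obtain ⟨C, hC, h⟩ := slice_decay 8
  refine ⟨C, 8 + 8, 8, hC, ?_⟩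
  intro g t p a b i hi
  rw [slt_D8 g t a b i hi p, fhdef_dz_iter _ (fhdef_smooth g t a b i)]
  refine (ContinuousMultilinearMap.le_opNorm _ _).trans ?_
  have h1 : ∏ _i : Fin 8, ‖((0 : ℝ), (1 : ℝ))‖ = 1 := by
    simp [Prod.norm_def]
  rw [h1, mul_one]
  refine (h g t p a b i).trans ?_
  have hp : (1 : ℝ) ≤ 1 + ‖p‖ := by
    have := norm_nonneg p
    linarith
  have ha : ((a : ℕ) : ℤ) ≤ 1 := by
    have := a.2
    omega
  have hb : ((b : ℕ) : ℤ) ≤ 1 := by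
    have := b.2
    omega
  have h2 : (1 + ‖p‖) ^ (-3 + ((a : ℕ) : ℤ) + ((b : ℕ) : ℤ) - ((8 : ℕ) : ℤ)) ≤
      (1 + ‖p‖) ^ (-9 : ℤ) := by
    refine zpow_le_zpow_right₀ hp ?_
    push_cast
    omega
  have h3 : 0 ≤ C * (1 + |t|) ^ (8 + 8) := by positivity
  exact mul_le_mul_of_nonneg_right (mul_le_mul_of_nonneg_left h2 h3) (apply_nonneg _ _)

theorem D8_comm20 (g : Isp) : D 2 0 (D8 g) = D8 (D 2 0 g) := by
  rw [fhdef_iter, fhdef_iter]
  have h : Function.Commute (D 2 0 : Isp → Isp) (D 2 3) := fun f => qa_c23 f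
  exact (h.iterate_right 8) g

theorem fhdef_rot23 (θ : ℝ) :
    ((rot θ : GL (Fin 4) ℝ) : Mat) * Eij 2 3 * (((rot θ)⁻¹ : GL (Fin 4) ℝ) : Mat) = Eij 2 3 := by
  have h1 : ((rot θ : GL (Fin 4) ℝ) : Mat) * Eij 2 3 = Eij 2 3 := by
    change rotM θ * Eij 2 3 = Eij 2 3
    ext i j
    fin_cases i <;> fin_cases j <;>
      simp [rotM, Eij, Matrix.mul_apply, Matrix.single_apply]
  have h2 : Eij 2 3 * (((rot θ)⁻¹ : GL (Fin 4) ℝ) : Mat) = Eij 2 3 := by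
    change Eij 2 3 * rotM (-θ) = Eij 2 3
    ext i j
    fin_cases i <;> fin_cases j <;>
      simp [rotM, Eij, Matrix.mul_apply, Matrix.single_apply]
  rw [h1, h2]

theorem D8_rot (θ : ℝ) (g : Isp) : act (rot θ) (D8 g) = D8 (act (rot θ) g) := by
  rw [fhdef_iter, fhdef_iter]
  have h : Function.Commute (act (rot θ) : Isp → Isp) (D 2 3) := by
    intro f
    unfold D
    rw [act_dop, fhdef_rot23]
  exact (h.iterate_right 8) g

theorem fhdef_eig (T : Isp →L[ℂ] ℂ) (c : ℂ) (h : ∀ f, T (D 2 3 f) = c * T f) (g : Isp) :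
    T (D8 g) = c ^ 8 * T g := by
  rw [fhdef_iter]
  have key : ∀ n : ℕ, T ((D 2 3)^[n] g) = c ^ n * T g := by
    intro n
    induction n with
    | zero => simp
    | succ n ih =>
      rw [Function.iterate_succ_apply', h, ih, pow_succ]
      ring
  exact key 8

theorem q_D8 (ν : ℝ) (m : Fin 6) (g : Isp) :
    (![cc ν 1, cc ν 2, dd ν 1, dd ν 2, ee ν 1, ee ν 2] m) (D8 g) =
      (Complex.I * ν) ^ 8 * (![cc ν 1, cc ν 2, dd ν 1, dd ν 2, ee ν 1, ee ν 2] m) g := by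
  fin_cases m
  · exact fhdef_eig (cc ν 1) _ (fun f => (q_D23 ν 1 f (Or.inl rfl)).1) g
  · exact fhdef_eig (cc ν 2) _ (fun f => (q_D23 ν 2 f (Or.inr rfl)).1) g
  · exact fhdef_eig (dd ν 1) _ (fun f => (q_D23 ν 1 f (Or.inl rfl)).2.1) g
  · exact fhdef_eig (dd ν 2) _ (fun f => (q_D23 ν 2 f (Or.inr rfl)).2.1) g
  · exact fhdef_eig (ee ν 1) _ (fun f => (q_D23 ν 1 f (Or.inl rfl)).2.2) g
  · exact fhdef_eig (ee ν 2) _ (fun f => (q_D23 ν 2 f (Or.inr rfl)).2.2) g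

/-- The Fourier integral over the slice `pt t`. -/
def Fh (ν : ℝ) (g : Isp) (a b : Fin 2) (k : Fin 4) (t : ℝ) : ℂ :=
  ∫ p : ℝ × ℝ, D8 g (pt t p) a b k * Complex.exp (Complex.I * ν * p.2)

/-- The value at `0`, for `k = 1, 2` (for `k = 3` an extra term would appear, because there
`D 2 3` does not act by `-dz` only). -/
theorem Fh_zero (ν : ℝ) (hν : ν ≠ 0) (g : Isp) (a b : Fin 2) (k : Fin 4)
    (hk : k = 1 ∨ k = 2) :
    Fh ν g a b k 0 = (Complex.I * ν) ^ 8 * La ν a b k g := by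
  have hI : (Complex.I * (ν : ℂ)) ^ 8 ≠ 0 :=
    pow_ne_zero _ (mul_ne_zero Complex.I_ne_zero (Complex.ofReal_ne_zero.mpr hν))
  rw [La_eq]
  unfold Lf
  rw [mul_inv_cancel_left₀ hI]
  unfold Fh
  refine integral_congr_ae (Filter.Eventually.of_forall fun p => ?_)
  change D8 g (pt 0 p) a b k * _ = _
  rw [slt_D8 g 0 a b k hk p]
  rfl

end SoCo
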