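import Pool.Agent.H.MP_0f3f77_al.FhDef

/-!
The function `Fh ν g a b k t = ∫_p (D8 g)(pt t p)_{ab,k} e^{iν p.2}`, `D8 = (D 2 3)^8`.

`slt_D8`: iterate `slt_D23` (`(-1)^8 = 1`).
`D8_decay`: `slice_decay` with `j = 8` (the eighth derivative in the direction `(0,1)`).
`Fh_deriv`: differentiation under the integral sign (`hasDerivAt_integral_of_dominated_loc_of_deriv_le`),
`slt_D20`, `D 2 0` commutes with `D8` (`dop_bracket`, `[E_20, E_23] = 0`), domination by
`D8_decay` for `D 2 0 g`, uniformly for `|t - t0| < 1`.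
`Fh_zero`: definition of `La` and `Lf`.
-/

open scoped Topology ContDiff
open MeasureTheory

noncomputable section

namespace SoCo

theorem fhderiv_int : Integrable (fun p : ℝ × ℝ => (1 + ‖p‖) ^ (-9 : ℤ)) := by
  have h : Integrable (fun p : ℝ × ℝ => (1 + ‖p‖) ^ (-(9 : ℝ))) :=
    integrable_one_add_norm (by simp; norm_num)
  refine h.congr (Filter.Eventually.of_forall fun p => ?_)
  change (1 + ‖p‖) ^ (-(9 : ℝ)) = (1 + ‖p‖) ^ (-9 : ℤ)
  rw [← Real.rpow_intCast]
  norm_num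

theorem fhderiv_exp (ν : ℝ) (y : ℝ) : ‖Complex.exp (Complex.I * ν * y)‖ = 1 := by
  have h : Complex.I * (ν : ℂ) * (y : ℂ) = ((ν * y : ℝ) : ℂ) * Complex.I := by
    push_cast
    ring
  rw [h, Complex.norm_exp_ofReal_mul_I]

theorem fhderiv_cont (ν : ℝ) (g : Isp) (a b : Fin 2) (k : Fin 4) (t : ℝ) :
    Continuous (fun p : ℝ × ℝ => D8 g (pt t p) a b k * Complex.exp (Complex.I * ν * p.2)) := by
  have h1 : Continuous (fun p : ℝ × ℝ => D8 g (pt t p) a b k) :=
    (fhdef_smooth (D8 g) t a b k).continuous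
  have h2 : Continuous (fun p : ℝ × ℝ => Complex.exp (Complex.I * ν * p.2)) := by fun_prop
  exact h1.mul h2

theorem Fh_deriv (ν : ℝ) (g : Isp) (a b : Fin 2) (k : Fin 4) (hk : k = 1 ∨ k = 2) (t : ℝ) :
    HasDerivAt (Fh ν g a b k) (-Fh ν (D 2 0 g) a b k t) t := by
  obtain ⟨C, N, m, hC, hdec⟩ := D8_decay
  have hbd : ∀ (f : Isp) (s : ℝ) (p : ℝ × ℝ), |s| ≤ |t| + 1 →
      ‖D8 f (pt s p) a b k * Complex.exp (Complex.I * ν * p.2)‖ ≤
        C * (2 + |t|) ^ N * pn m f * (1 + ‖p‖) ^ (-9 : ℤ) := by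
    intro f s p hs
    rw [norm_mul, fhderiv_exp, mul_one]
    refine (hdec f s p a b k hk).trans ?_
    have h1 : (1 + |s|) ^ N ≤ (2 + |t|) ^ N :=
      pow_le_pow_left₀ (by positivity) (by linarith) N
    have h2 : 0 ≤ (1 + ‖p‖) ^ (-9 : ℤ) := zpow_nonneg (by positivity) _
    have h3 : 0 ≤ pn m f := apply_nonneg _ _
    calc C * (1 + |s|) ^ N * (1 + ‖p‖) ^ (-9 : ℤ) * pn m f
        ≤ C * (2 + |t|) ^ N * (1 + ‖p‖) ^ (-9 : ℤ) * pn m f := by
          gcongr
      _ = _ := by ring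
  have hs : Metric.ball t 1 ∈ 𝓝 t := Metric.ball_mem_nhds t one_pos
  have hball : ∀ s ∈ Metric.ball t 1, |s| ≤ |t| + 1 := by
    intro s hs
    rw [Metric.mem_ball, Real.dist_eq] at hs
    have h1 : |s| ≤ |s - t| + |t| := by
      have := abs_add_le (s - t) t
      simpa using this
    linarith
  have key := hasDerivAt_integral_of_dominated_loc_of_deriv_le (μ := (volume : Measure (ℝ × ℝ)))
    (F := fun (s : ℝ) (p : ℝ × ℝ) => D8 g (pt s p) a b k * Complex.exp (Complex.I * ν * p.2))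
    (F' := fun (s : ℝ) (p : ℝ × ℝ) =>
      -(D8 (D 2 0 g) (pt s p) a b k * Complex.exp (Complex.I * ν * p.2)))
    (x₀ := t) (s := Metric.ball t 1)
    (bound := fun p => C * (2 + |t|) ^ N * pn m (D 2 0 g) * (1 + ‖p‖) ^ (-9 : ℤ)) hs
    (Filter.Eventually.of_forall fun s => (fhderiv_cont ν g a b k s).aestronglyMeasurable)
    (Integrable.mono' (fhderiv_int.const_mul (C * (2 + |t|) ^ N * pn m g))
      (fhderiv_cont ν g a b k t).aestronglyMeasurable
      (Filter.Eventually.of_forall fun p => hbd g t p (by linarith)))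
    (fhderiv_cont ν (D 2 0 g) a b k t).neg.aestronglyMeasurable
    (Filter.Eventually.of_forall fun p s hs => by
      rw [norm_neg]
      exact hbd (D 2 0 g) s p (hball s hs))
    (fhderiv_int.const_mul _)
    (Filter.Eventually.of_forall fun p s hs => by
      have h1 := (slt_D20 (D8 g) s a b k hk p).mul_const (Complex.exp (Complex.I * ν * p.2))
      rw [D8_comm20, neg_mul] at h1
      exact h1)
  have h2 := key.2
  rw [integral_neg] at h2
  exact h2

end SoCo
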