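import Mathlib

/-!
Fourier inversion on the line, the plane and `ℝ × ℝ × ℝ`, with the normalization `e^{i ξ·u}`.

Proofs.  Transfer to `EuclideanSpace ℝ (Fin n)` by the volume preserving equivalence
(`EuclideanSpace.volume_preserving_measurableEquiv` / `EuclideanSpace.volume_preserving_symm...`
and `MeasurableEquiv.finTwoArrow` etc., `volume_preserving_finTwoArrow`), and use
`MeasureTheory.Integrable.fourierInv_fourier_eq` (or `Continuous.fourierInv_fourier_eq`) after the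
substitution `ξ → 2π ξ`; or iterate the one-dimensional statement.
`four1`: `∫_u e^{-iτu} ... `: directly from Fourier inversion on `ℝ`.
`four_inj2`: the Fourier transform of `φ` vanishes outside `0`, hence everywhere (it is
continuous, or: almost everywhere), so it is integrable and inversion gives `φ = 0`.
-/

open scoped Topology ContDiff
open MeasureTheory

noncomputable section

namespace SoCo

open scoped FourierTransform RealInnerProductSpace in
/-- inversion on a Euclidean space -/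
theorem four3_gen {V : Type*} [NormedAddCommGroup V] [InnerProductSpace ℝ V] [MeasurableSpace V]
    [BorelSpace V] [FiniteDimensional ℝ V] (φ : V → ℂ) (hc : Continuous φ) (hi : Integrable φ)
    (hk : Integrable (fun u : V => ∫ η : V, Complex.exp (-(Complex.I * ((⟪η, u⟫ : ℝ) : ℂ))) * φ η))
    (ξ : V) :
    ∫ u : V, Complex.exp (Complex.I * ((⟪ξ, u⟫ : ℝ) : ℂ)) *
      (∫ η : V, Complex.exp (-(Complex.I * ((⟪η, u⟫ : ℝ) : ℂ))) * φ η) =
      (2 * Real.pi) ^ (Module.finrank ℝ V) * φ ξ := by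
  have hpi : (2 * Real.pi : ℝ) ≠ 0 := by positivity
  have h1 : ∀ w : V, 𝓕 φ w =
      ∫ η : V, Complex.exp (-(Complex.I * ((⟪η, (2 * Real.pi) • w⟫ : ℝ) : ℂ))) * φ η := by
    intro w
    rw [Real.fourier_eq']
    refine integral_congr_ae (Filter.Eventually.of_forall fun v => ?_)
    show Complex.exp ((((-2 * Real.pi * ⟪v, w⟫ : ℝ)) : ℂ) * Complex.I) • φ v =
      Complex.exp (-(Complex.I * ((⟪v, (2 * Real.pi) • w⟫ : ℝ) : ℂ))) * φ v
    rw [smul_eq_mul, real_inner_smul_right]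
    congr 2
    push_cast
    ring
  have h2 : Integrable (𝓕 φ) := by
    have h3 := (integrable_comp_smul_iff volume
      (fun u : V => ∫ η : V, Complex.exp (-(Complex.I * ((⟪η, u⟫ : ℝ) : ℂ))) * φ η) hpi).2 hk
    refine h3.congr (Filter.Eventually.of_forall fun w => ?_)
    exact (h1 w).symm
  have h4 := congrFun (hc.fourierInv_fourier_eq hi h2) ξ
  rw [Real.fourierInv_eq'] at h4
  have h5 : ∫ w : V, Complex.exp ((((2 * Real.pi * ⟪w, ξ⟫ : ℝ)) : ℂ) * Complex.I) • 𝓕 φ w =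
      ∫ w : V, (fun u : V => Complex.exp (Complex.I * ((⟪ξ, u⟫ : ℝ) : ℂ)) *
        (∫ η : V, Complex.exp (-(Complex.I * ((⟪η, u⟫ : ℝ) : ℂ))) * φ η)) ((2 * Real.pi) • w) := by
    refine integral_congr_ae (Filter.Eventually.of_forall fun w => ?_)
    show Complex.exp ((((2 * Real.pi * ⟪w, ξ⟫ : ℝ)) : ℂ) * Complex.I) • 𝓕 φ w =
      Complex.exp (Complex.I * ((⟪ξ, (2 * Real.pi) • w⟫ : ℝ) : ℂ)) *
        (∫ η : V, Complex.exp (-(Complex.I * ((⟪η, (2 * Real.pi) • w⟫ : ℝ) : ℂ))) * φ η)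
    rw [h1 w, smul_eq_mul]
    congr 2
    rw [real_inner_smul_right, real_inner_comm]
    push_cast
    ring
  rw [h5, Measure.integral_comp_smul volume (fun u : V => Complex.exp (Complex.I * ((⟪ξ, u⟫ : ℝ) : ℂ)) *
        (∫ η : V, Complex.exp (-(Complex.I * ((⟪η, u⟫ : ℝ) : ℂ))) * φ η)) (2 * Real.pi)] at h4
  have h6 : |((2 * Real.pi : ℝ) ^ Module.finrank ℝ V)⁻¹| = ((2 * Real.pi : ℝ) ^ Module.finrank ℝ V)⁻¹ :=
    abs_of_nonneg (by positivity)
  rw [h6] at h4
  rw [← h4, Complex.real_smul]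
  have h7 : ((2 : ℂ) * (Real.pi : ℂ)) ^ Module.finrank ℝ V ≠ 0 := by
    apply pow_ne_zero
    exact_mod_cast hpi
  push_cast
  field_simp

/-- the Euclidean model of `ℝ × ℝ × ℝ` -/
abbrev four3_E : Type := WithLp 2 (ℝ × WithLp 2 (ℝ × ℝ))

/-- coordinates -/
def four3_e : four3_E → ℝ × ℝ × ℝ := fun x => (x.fst, x.snd.fst, x.snd.snd)

def four3_h : four3_E ≃ₜ ℝ × ℝ × ℝ where
  toFun := four3_e
  invFun := fun p => WithLp.toLp 2 (p.1, WithLp.toLp 2 (p.2.1, p.2.2))
  left_inv := fun _ => rfl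
  right_inv := fun _ => rfl
  continuous_toFun := by
    unfold four3_e
    fun_prop
  continuous_invFun := by
    fun_prop

theorem four3_mp : MeasurePreserving four3_e := by
  have h1 : MeasurePreserving (@WithLp.ofLp 2 (ℝ × WithLp 2 (ℝ × ℝ))) :=
    WithLp.volume_preserving_ofLp ℝ (WithLp 2 (ℝ × ℝ))
  have h2 : MeasurePreserving (Prod.map (id : ℝ → ℝ) (@WithLp.ofLp 2 (ℝ × ℝ))) :=
    (MeasurePreserving.id volume).prod (WithLp.volume_preserving_ofLp ℝ ℝ)
  exact h2.comp h1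

/-- Fourier inversion on `ℝ × ℝ × ℝ`. -/
theorem four3 (φ : ℝ × ℝ × ℝ → ℂ) (hc : Continuous φ) (hi : Integrable φ) (ξ : ℝ × ℝ × ℝ)
    (hk : Integrable (fun u : ℝ × ℝ × ℝ => ∫ η : ℝ × ℝ × ℝ,
      Complex.exp (-(Complex.I * (η.1 * u.1 + η.2.1 * u.2.1 + η.2.2 * u.2.2))) * φ η)) :
    ∫ u : ℝ × ℝ × ℝ, Complex.exp (Complex.I * (ξ.1 * u.1 + ξ.2.1 * u.2.1 + ξ.2.2 * u.2.2)) *
      (∫ η : ℝ × ℝ × ℝ,
        Complex.exp (-(Complex.I * (η.1 * u.1 + η.2.1 * u.2.1 + η.2.2 * u.2.2))) * φ η) =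
      (2 * Real.pi) ^ 3 * φ ξ := by
  have hemb : MeasurableEmbedding four3_e := four3_h.measurableEmbedding
  have hin : ∀ x y : four3_E, ((inner ℝ x y : ℝ) : ℂ) = (((four3_e x).1 : ℝ) : ℂ) * ((four3_e y).1 : ℝ)
      + ((four3_e x).2.1 : ℝ) * ((four3_e y).2.1 : ℝ) + ((four3_e x).2.2 : ℝ) * ((four3_e y).2.2 : ℝ) := by
    intro x y
    rw [WithLp.prod_inner_apply, WithLp.prod_inner_apply]
    simp only [four3_e]
    show (((y.fst * x.fst : ℝ) + (y.snd.fst * x.snd.fst + y.snd.snd * x.snd.snd) : ℝ) : ℂ) = _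
    push_cast
    ring
  have hc' : Continuous (φ ∘ four3_e) := hc.comp four3_h.continuous
  have hi' : Integrable (φ ∘ four3_e) := (four3_mp.integrable_comp_emb hemb).2 hi
  have hinner : ∀ u : four3_E, (∫ η : four3_E,
      Complex.exp (-(Complex.I * ((inner ℝ η u : ℝ) : ℂ))) * (φ ∘ four3_e) η) =
      ∫ η : ℝ × ℝ × ℝ, Complex.exp (-(Complex.I * (η.1 * (four3_e u).1 + η.2.1 * (four3_e u).2.1
        + η.2.2 * (four3_e u).2.2))) * φ η := by
    intro u
    rw [← four3_mp.integral_comp hemb]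
    refine integral_congr_ae (Filter.Eventually.of_forall fun η => ?_)
    show Complex.exp (-(Complex.I * ((inner ℝ η u : ℝ) : ℂ))) * φ (four3_e η) = _
    rw [hin]
  have hk' : Integrable (fun u : four3_E => ∫ η : four3_E,
      Complex.exp (-(Complex.I * ((inner ℝ η u : ℝ) : ℂ))) * (φ ∘ four3_e) η) := by
    have h3 := (four3_mp.integrable_comp_emb hemb).2 hk
    refine h3.congr (Filter.Eventually.of_forall fun u => ?_)
    exact (hinner u).symm
  have hmain := four3_gen (φ ∘ four3_e) hc' hi' hk' (four3_h.symm ξ)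
  have hξ : four3_e (four3_h.symm ξ) = ξ := four3_h.apply_symm_apply ξ
  have hfin : Module.finrank ℝ four3_E = 3 := by
    have e1 : Module.finrank ℝ four3_E = Module.finrank ℝ (ℝ × WithLp 2 (ℝ × ℝ)) :=
      (WithLp.linearEquiv 2 ℝ (ℝ × WithLp 2 (ℝ × ℝ))).finrank_eq
    have e2 : Module.finrank ℝ (WithLp 2 (ℝ × ℝ)) = Module.finrank ℝ (ℝ × ℝ) :=
      (WithLp.linearEquiv 2 ℝ (ℝ × ℝ)).finrank_eq
    rw [e1, Module.finrank_prod, e2, Module.finrank_prod]
    simp
  rw [hfin] at hmain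
  have hr : (φ ∘ four3_e) (four3_h.symm ξ) = φ ξ := by
    show φ (four3_e (four3_h.symm ξ)) = φ ξ
    rw [hξ]
  rw [hr] at hmain
  rw [← hmain, ← four3_mp.integral_comp hemb]
  refine integral_congr_ae (Filter.Eventually.of_forall fun u => ?_)
  show Complex.exp (Complex.I * (ξ.1 * (four3_e u).1 + ξ.2.1 * (four3_e u).2.1
    + ξ.2.2 * (four3_e u).2.2)) * (∫ η : ℝ × ℝ × ℝ,
        Complex.exp (-(Complex.I * (η.1 * (four3_e u).1 + η.2.1 * (four3_e u).2.1
          + η.2.2 * (four3_e u).2.2))) * φ η) =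
    Complex.exp (Complex.I * ((inner ℝ (four3_h.symm ξ) u : ℝ) : ℂ)) *
      (∫ η : four3_E, Complex.exp (-(Complex.I * ((inner ℝ η u : ℝ) : ℂ))) * (φ ∘ four3_e) η)
  rw [hinner u, hin, hξ]

end SoCo
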