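import Pool.Agent.H.MP_0f3f77_al.Proj

/-!
Weights of the rotation group and the projectors `pk κ`.

Proofs.  `rot (2π + θ) = rot θ`.  `ig_pk`: the integrand is continuous in `θ`
(`act_cont_orbit`, `cont_rot`) and the measure is finite, the seminorms of a continuous function
on the compact interval are bounded.
`pk_wt`: `act (rot s) (pk κ f) = isum (e^{-iκθ} / (2π) act (rot (s + θ)) f)` (`isum_map` for
`actL`); evaluate at every point (`isum_app`) and substitute `θ → θ - s`, using periodicity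
(`Function.Periodic.intervalIntegral_add_eq`).
`pk_id`, `pk_ne`: evaluate pointwise; `∫_0^{2π} e^{i(κ-l)θ} dθ = 0` or `2π`.
`pk_mem`: `isum_mem`.  `pk_clm`: `isum_clm`.
Commutation with a continuous operator `T` commuting with all `act (rot θ)`: `isum_map`.
Continuity of `pkI κ`: `pn_isum_le` and `act_bound` (`gs (rot θ)` is bounded).
-/

open scoped Topology ContDiff
open MeasureTheory

noncomputable section

namespace SoCo

theorem pkwt_rotM_per (θ : ℝ) : rotM (θ + 2 * Real.pi) = rotM θ := by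
  simp only [rotM, Real.cos_add_two_pi, Real.sin_add_two_pi]

theorem pkwt_rot_per (θ : ℝ) : rot (θ + 2 * Real.pi) = rot θ := Units.ext (pkwt_rotM_per θ)

theorem pkwt_app (κ : ℤ) (f : Isp) (x : E) (a b : Fin 2) (i : Fin 4) :
    pk κ f x a b i = ∫ θ in (0 : ℝ)..(2 * Real.pi), ((((2 * Real.pi)⁻¹ : ℝ) : ℂ) *
      Complex.exp ((-(κ * θ) : ℝ) * Complex.I)) * act (rot θ) f x a b i := by
  rw [pk_eq, isum_app (ig_pk κ f), intervalIntegral.integral_of_le (by positivity)]
  rfl

theorem pk_wt (κ : ℤ) (f : Isp) : Wt κ (pk κ f) := by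
  intro s
  ext x a b i
  have h1 : act (rot s) (pk κ f) = isum (volume.restrict (Set.Ioc 0 (2 * Real.pi)))
      (fun u => actL (rot s) (pkf κ f u)) := by
    rw [← isum_map (ig_pk κ f) (actL (rot s))]
    rfl
  have h2 : act (rot s) (pk κ f) x a b i = ∫ θ in (0 : ℝ)..(2 * Real.pi),
      ((((2 * Real.pi)⁻¹ : ℝ) : ℂ) *
      Complex.exp ((-(κ * θ) : ℝ) * Complex.I)) * act (rot (θ + s)) f x a b i := by
    rw [h1, isum_app ((ig_pk κ f).map (actL (rot s))),
      intervalIntegral.integral_of_le (by positivity)]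
    refine integral_congr_ae (Filter.Eventually.of_forall fun θ => ?_)
    simp only [actL_app, pkf, map_smul]
    rw [← act_mul, ← rot_add, add_comm s θ]
    rfl
  rw [h2, Isp.smul_app, Pi.smul_apply, Pi.smul_apply, Pi.smul_apply, pkwt_app, smul_eq_mul,
    ← intervalIntegral.integral_const_mul]
  set H : ℝ → ℂ := fun θ => Complex.exp ((κ * s : ℝ) * Complex.I) *
    (((((2 * Real.pi)⁻¹ : ℝ) : ℂ) *
      Complex.exp ((-(κ * θ) : ℝ) * Complex.I)) * act (rot θ) f x a b i) with hH
  have hper : Function.Periodic H (2 * Real.pi) := by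
    intro θ
    simp only [hH, pkwt_rot_per]
    congr 3
    have e1 : ((-(κ * (θ + 2 * Real.pi)) : ℝ) : ℂ) * Complex.I =
        ((-(κ * θ) : ℝ) : ℂ) * Complex.I + ((-κ : ℤ) : ℂ) * (2 * Real.pi * Complex.I) := by
      push_cast
      ring
    rw [e1, Complex.exp_add, Complex.exp_int_mul_two_pi_mul_I, mul_one]
  have h3 : ∀ θ : ℝ, ((((2 * Real.pi)⁻¹ : ℝ) : ℂ) *
      Complex.exp ((-(κ * θ) : ℝ) * Complex.I)) * act (rot (θ + s)) f x a b i = H (θ + s) := by
    intro θ
    simp only [hH]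
    have e2 : Complex.exp ((-(κ * θ) : ℝ) * Complex.I) = Complex.exp ((κ * s : ℝ) * Complex.I) *
        Complex.exp ((-(κ * (θ + s)) : ℝ) * Complex.I) := by
      rw [← Complex.exp_add]
      congr 1
      push_cast
      ring
    rw [e2]
    ring
  simp only [h3]
  rw [intervalIntegral.integral_comp_add_right (f := H) s, zero_add, add_comm (2 * Real.pi) s,
    hper.intervalIntegral_add_eq s 0, zero_add]

theorem pk_id (κ : ℤ) (f : Isp) (h : Wt κ f) : pk κ f = f := by
  ext x a b i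
  rw [pkwt_app]
  have h1 : ∀ θ : ℝ, ((((2 * Real.pi)⁻¹ : ℝ) : ℂ) *
      Complex.exp ((-(κ * θ) : ℝ) * Complex.I)) * act (rot θ) f x a b i =
      (((2 * Real.pi)⁻¹ : ℝ) : ℂ) * f x a b i := by
    intro θ
    rw [h θ, Isp.smul_app, Pi.smul_apply, Pi.smul_apply, Pi.smul_apply, smul_eq_mul]
    have e2 : Complex.exp ((-(κ * θ) : ℝ) * Complex.I) * Complex.exp ((κ * θ : ℝ) * Complex.I)
        = 1 := by
      rw [← Complex.exp_add, ← Complex.exp_zero]
      congr 1
      push_cast
      ring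
    linear_combination (((2 * Real.pi)⁻¹ : ℝ) : ℂ) * f x a b i * e2
  simp only [h1]
  rw [intervalIntegral.integral_const, sub_zero, Complex.real_smul, ← mul_assoc,
    ← Complex.ofReal_mul, mul_inv_cancel₀ (by positivity), Complex.ofReal_one, one_mul]

theorem pk_ne (κ l : ℤ) (hl : l ≠ κ) (f : Isp) (h : Wt κ f) : pk l f = 0 := by
  ext x a b i
  rw [pkwt_app]
  have hc : ((κ - l : ℤ) : ℂ) * Complex.I ≠ 0 := by
    refine mul_ne_zero ?_ Complex.I_ne_zero
    exact_mod_cast sub_ne_zero.2 hl.symm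
  have h1 : ∀ θ : ℝ, ((((2 * Real.pi)⁻¹ : ℝ) : ℂ) *
      Complex.exp ((-(l * θ) : ℝ) * Complex.I)) * act (rot θ) f x a b i =
      ((((2 * Real.pi)⁻¹ : ℝ) : ℂ) * f x a b i) *
        Complex.exp (((κ - l : ℤ) : ℂ) * Complex.I * θ) := by
    intro θ
    rw [h θ, Isp.smul_app, Pi.smul_apply, Pi.smul_apply, Pi.smul_apply, smul_eq_mul]
    have e2 : Complex.exp ((-(l * θ) : ℝ) * Complex.I) * Complex.exp ((κ * θ : ℝ) * Complex.I)
        = Complex.exp (((κ - l : ℤ) : ℂ) * Complex.I * θ) := by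
      rw [← Complex.exp_add]
      congr 1
      push_cast
      ring
    linear_combination (((2 * Real.pi)⁻¹ : ℝ) : ℂ) * f x a b i * e2
  simp only [h1]
  rw [intervalIntegral.integral_const_mul, integral_exp_mul_complex hc]
  have e3 : ((κ - l : ℤ) : ℂ) * Complex.I * ((2 * Real.pi : ℝ) : ℂ) =
      ((κ - l : ℤ) : ℂ) * (2 * Real.pi * Complex.I) := by
    push_cast
    ring
  rw [e3, Complex.exp_int_mul_two_pi_mul_I, Complex.ofReal_zero, mul_zero, Complex.exp_zero,
    sub_self, zero_div, mul_zero]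
  rfl

end SoCo
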