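import Pool.Agent.H.MP_0f3f77_al.KerIff
import Pool.Agent.H.MP_0f3f77_al.PkWt

/-!
The weight components determine an element.

`ker_iff`, proof.  Let `φ θ = T (act (rot θ) f)`, continuous and `2π`-periodic.  By `pk_clm` its
Fourier coefficients are the numbers `T (pk κ f)`.  If all of them are zero, then `φ = 0`
(regard `φ` as a continuous function on `AddCircle (2π)`; its Fourier coefficients
`fourierCoeff φ κ` are all zero, hence summable, and `has_pointwise_sum_fourier_series_of_summable`
gives `φ = 0`; or use `span_fourier_closure_eq_top`).  The converse is clear from `pk_clm`.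
`pk_dense`, proof.  Suppose `f ∉ S`.  By the Hahn-Banach theorem (`S` closed, `Isp` locally convex:
`geometric_hahn_banach_closed_point` over `ℝ` and a passage to complex functionals, or
`RCLike.geometric_hahn_banach_...`) there is a continuous linear `T : Isp →L[ℂ] ℂ` with `T = 0` on
`S` and `T f ≠ 0`.  Then `T (pk κ f) = 0` for all `κ`, so by `ker_iff` `T (act (rot 0) f) = T f = 0`,
a contradiction.
-/

open scoped Topology ContDiff
open MeasureTheory

noncomputable section

namespace SoCo

theorem exists_functional (S : Submodule ℂ Isp) (hS : IsClosed (S : Set Isp)) (f : Isp)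
    (hf : f ∉ S) : ∃ T : Isp →L[ℂ] ℂ, (∀ g ∈ S, T g = 0) ∧ T f ≠ 0 := by
  have hconv : Convex ℝ (S : Set Isp) := (S.restrictScalars ℝ).convex
  obtain ⟨T, u, h1, h2⟩ := RCLike.geometric_hahn_banach_closed_point (𝕜 := ℂ) hconv hS hf
  refine ⟨T, ?_, ?_⟩
  · intro g hg
    by_contra hne
    have h3 := h1 (((u : ℂ) * (T g)⁻¹) • g) (S.smul_mem _ hg)
    rw [map_smul, smul_eq_mul, mul_assoc, inv_mul_cancel₀ hne, mul_one] at h3
    have h4 : RCLike.re (u : ℂ) = u := Complex.ofReal_re u
    rw [h4] at h3
    exact lt_irrefl _ h3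
  · intro h3
    have h4 := h1 0 S.zero_mem
    rw [map_zero, map_zero] at h4
    rw [h3, map_zero] at h2
    exact lt_irrefl _ (h4.trans h2)

theorem pk_dense (S : Submodule ℂ Isp) (hS : IsClosed (S : Set Isp)) (f : Isp)
    (h : ∀ κ, pk κ f ∈ S) : f ∈ S := by
  by_contra hf
  obtain ⟨T, h1, h2⟩ := exists_functional S hS f hf
  have h3 := (ker_iff f T).1 (fun κ => h1 _ (h κ)) 0
  rw [rot_zero, act_one] at h3
  exact h2 h3

end SoCo
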