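import Pool.Agent.H.MP_0f3f77_al.Base

/-!
Algebra of left and right multiplication, Gram determinant, pull-back of elements of `Isp`.
-/

open scoped Topology ContDiff
open MeasureTheory

noncomputable section

namespace SoCo

theorem rmul_app (x : E) (A : Mat2) (a : Fin 2) (i : Fin 4) :
    rmul x A a i = A 0 a * x 0 i + A 1 a * x 1 i := by
  simp [rmul, Fin.sum_univ_two]

theorem lmul_app (m : Mat) (x : E) (a : Fin 2) (i : Fin 4) :
    lmul m x a i = ∑ j, m i j * x a j := rfl

theorem rmul_one (x : E) : rmul x 1 = x := by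
  funext a i
  fin_cases a <;> simp [rmul_app]

theorem rmul_mul (x : E) (A B : Mat2) : rmul x (A * B) = rmul (rmul x A) B := by
  funext a i
  simp only [rmul_app, Matrix.mul_apply, Fin.sum_univ_two]
  ring

theorem lmul_one (x : E) : lmul 1 x = x := by
  funext a i
  simp [lmul, Matrix.one_apply]

theorem lmul_mul (m n : Mat) (x : E) : lmul (m * n) x = lmul m (lmul n x) := by
  funext a i
  simp only [lmul, Matrix.mul_apply, Finset.mul_sum, Finset.sum_mul]
  rw [Finset.sum_comm]
  refine Finset.sum_congr rfl fun j _ => Finset.sum_congr rfl fun k _ => ?_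
  ring

theorem lmul_rmul (m : Mat) (x : E) (A : Mat2) : lmul m (rmul x A) = rmul (lmul m x) A := by
  funext a i
  simp only [rmul_app, lmul, Finset.mul_sum]
  rw [← Finset.sum_add_distrib]
  refine Finset.sum_congr rfl fun j _ => ?_
  ring

theorem gram_rmul (x : E) (A : Mat2) : gram (rmul x A) = A.det ^ 2 * gram x := by
  simp only [gram, rmul_app, Matrix.det_fin_two, Fin.sum_univ_four]
  ring

/-- Lagrange's identity. -/
theorem gram_eq (x : E) : gram x =
    (x 0 0 * x 1 1 - x 0 1 * x 1 0) ^ 2 + (x 0 0 * x 1 2 - x 0 2 * x 1 0) ^ 2 +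
    (x 0 0 * x 1 3 - x 0 3 * x 1 0) ^ 2 + (x 0 1 * x 1 2 - x 0 2 * x 1 1) ^ 2 +
    (x 0 1 * x 1 3 - x 0 3 * x 1 1) ^ 2 + (x 0 2 * x 1 3 - x 0 3 * x 1 2) ^ 2 := by
  simp only [gram, Fin.sum_univ_four]
  ring

theorem gram_nonneg (x : E) : 0 ≤ gram x := by
  rw [gram_eq]; positivity

theorem mem_Om_iff (x : E) : x ∈ Om ↔ gram x ≠ 0 := Iff.rfl

theorem gram_pos (x : E) (hx : x ∈ Om) : 0 < gram x :=
  lt_of_le_of_ne (gram_nonneg x) (Ne.symm hx)

/-- `x` is in `Om` exactly if the two vectors are linearly independent. -/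
theorem mem_Om_iff_li (x : E) : x ∈ Om ↔ ∀ s t : ℝ, (∀ i, s * x 0 i + t * x 1 i = 0) →
    s = 0 ∧ t = 0 := by
  rw [mem_Om_iff]
  have hg : gram x = (∑ i, x 0 i * x 0 i) * (∑ i, x 1 i * x 1 i) - (∑ i, x 0 i * x 1 i) ^ 2 := rfl
  set a := ∑ i, x 0 i * x 0 i with ha
  set b := ∑ i, x 0 i * x 1 i with hb
  set c := ∑ i, x 1 i * x 1 i with hc
  constructor
  · intro h s t hst
    have h1 : s * a + t * b = 0 := by
      have h2 : ∑ i, x 0 i * (s * x 0 i + t * x 1 i) = s * a + t * b := by
        rw [ha, hb, Finset.mul_sum, Finset.mul_sum, ← Finset.sum_add_distrib]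
        exact Finset.sum_congr rfl fun i _ => by ring
      rw [← h2]
      exact Finset.sum_eq_zero fun i _ => by rw [hst i, mul_zero]
    have h3 : s * b + t * c = 0 := by
      have h2 : ∑ i, x 1 i * (s * x 0 i + t * x 1 i) = s * b + t * c := by
        rw [hb, hc, Finset.mul_sum, Finset.mul_sum, ← Finset.sum_add_distrib]
        exact Finset.sum_congr rfl fun i _ => by ring
      rw [← h2]
      exact Finset.sum_eq_zero fun i _ => by rw [hst i, mul_zero]
    constructor
    · have h4 : s * gram x = 0 := by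
        rw [hg]
        linear_combination c * h1 - b * h3
      exact (mul_eq_zero.1 h4).resolve_right h
    · have h4 : t * gram x = 0 := by
        rw [hg]
        linear_combination a * h3 - b * h1
      exact (mul_eq_zero.1 h4).resolve_right h
  · intro h h0
    rw [hg] at h0
    have h1 : ∑ i, (c * x 0 i + -b * x 1 i) * (c * x 0 i + -b * x 1 i) = 0 := by
      have h2 : ∑ i, (c * x 0 i + -b * x 1 i) * (c * x 0 i + -b * x 1 i) =
          c ^ 2 * a - 2 * b * c * b + b ^ 2 * c := by
        conv_rhs => rw [ha]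
        have e1 : ∀ i, (c * x 0 i + -b * x 1 i) * (c * x 0 i + -b * x 1 i) =
            c ^ 2 * (x 0 i * x 0 i) - 2 * b * c * (x 0 i * x 1 i) + b ^ 2 * (x 1 i * x 1 i) :=
          fun i => by ring
        rw [Finset.sum_congr rfl fun i _ => e1 i, Finset.sum_add_distrib, Finset.sum_sub_distrib,
          ← Finset.mul_sum, ← Finset.mul_sum, ← Finset.mul_sum, ← hb, ← hc]
      rw [h2]
      linear_combination c * h0
    have h2 : ∀ i, c * x 0 i + -b * x 1 i = 0 := by
      intro i
      have h3 := (Finset.sum_eq_zero_iff_of_nonneg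
        (fun i _ => mul_self_nonneg (c * x 0 i + -b * x 1 i))).1 h1 i (Finset.mem_univ i)
      exact mul_self_eq_zero.1 h3
    obtain ⟨hc0, -⟩ := h c (-b) h2
    rw [hc] at hc0
    have h3 : ∀ i, x 1 i = 0 := by
      intro i
      have h4 := (Finset.sum_eq_zero_iff_of_nonneg
        (fun i _ => mul_self_nonneg (x 1 i))).1 hc0 i (Finset.mem_univ i)
      exact mul_self_eq_zero.1 h4
    obtain ⟨-, h5⟩ := h 0 1 (fun i => by rw [h3 i]; ring)
    exact one_ne_zero h5

theorem rmul_mem_Om (x : E) (A : Mat2) (hA : A.det ≠ 0) : rmul x A ∈ Om ↔ x ∈ Om := by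
  rw [mem_Om_iff, mem_Om_iff, gram_rmul]
  have : A.det ^ 2 ≠ 0 := pow_ne_zero 2 hA
  constructor
  · intro h hx; exact h (by rw [hx, mul_zero])
  · intro h; exact mul_ne_zero this h

theorem geo_lmul (m : Mat) (x : E) (h : lmul m x ∈ Om) : x ∈ Om := by
  rw [mem_Om_iff_li] at h ⊢
  intro s t hst
  apply h s t
  intro i
  rw [lmul_app, lmul_app, Finset.mul_sum, Finset.mul_sum, ← Finset.sum_add_distrib]
  refine Finset.sum_eq_zero fun j _ => ?_
  linear_combination m i j * hst j

theorem lmul_mem_Om (m : Mat) (hm : IsUnit m.det) (x : E) : lmul m x ∈ Om ↔ x ∈ Om := by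
  constructor
  · exact geo_lmul m x
  · intro h
    apply geo_lmul m⁻¹
    rw [← lmul_mul, Matrix.nonsing_inv_mul m hm, lmul_one]
    exact h

/-- Pull-back of a function by a matrix. -/
def pull (m : Mat) (f : E → Fv) : E → Fv :=
  fun x a b i => ∑ k, (m k i : ℂ) * f (lmul m x) a b k

theorem pull_one (f : E → Fv) : pull 1 f = f := by
  funext x a b i
  simp [pull, lmul_one, Matrix.one_apply, apply_ite]

theorem pull_mul (m n : Mat) (f : E → Fv) : pull (m * n) f = pull n (pull m f) := by
  funext x a b i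
  simp only [pull, Matrix.mul_apply, lmul_mul, Complex.ofReal_sum, Complex.ofReal_mul,
    Finset.mul_sum, Finset.sum_mul]
  rw [Finset.sum_comm]
  refine Finset.sum_congr rfl fun j _ => Finset.sum_congr rfl fun k _ => ?_
  ring

theorem isI_pull (m : Mat) (hm : IsUnit m.det) (f : E → Fv) (h : IsI f) : IsI (pull m f) := by
  refine ⟨?_, ?_, ?_, ?_, ?_⟩
  · have h1 : ContDiff ℝ ∞ (fun x : E => lmul m x) := by
      unfold lmul
      fun_prop
    have h2 : ContDiffOn ℝ ∞ (fun x : E => f (lmul m x)) Om :=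
      h.smooth.comp h1.contDiffOn fun x hx => (lmul_mem_Om m hm x).2 hx
    have h3 : ContDiff ℝ ∞ (fun v : Fv => (fun a b i => ∑ k, (m k i : ℂ) * v a b k : Fv)) := by
      fun_prop
    exact h3.comp_contDiffOn h2
  · intro x hx
    have h1 : lmul m x ∉ Om := fun h2 => hx ((lmul_mem_Om m hm x).1 h2)
    funext a b i
    unfold pull
    rw [h.zero_off _ h1]
    simp
  · intro x a b i
    unfold pull
    exact Finset.sum_congr rfl fun k _ => by rw [h.symm]
  · intro x a b c
    unfold pull
    have h1 := h.ann (lmul m x) a b c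
    rw [← h1]
    simp only [Finset.sum_mul]
    rw [Finset.sum_comm]
    refine Finset.sum_congr rfl fun k _ => ?_
    rw [lmul_app]
    push_cast
    rw [Finset.mul_sum]
    exact Finset.sum_congr rfl fun i _ => by ring
  · intro x A hA
    funext a b i
    unfold pull
    rw [lmul_rmul, h.cov _ A hA]
    unfold rho
    simp only [Finset.mul_sum]
    rw [Finset.sum_comm]
    refine Finset.sum_congr rfl fun c _ => ?_
    rw [Finset.sum_comm]
    refine Finset.sum_congr rfl fun d _ => ?_
    exact Finset.sum_congr rfl fun k _ => by ring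

end SoCo
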