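import Pool.Agent.H.MP_0f3f77_al.JtDecay

/-!
The operator `Gt ν b f = ∫_u un(u) Jt ν b f u`.

`ig_Gt`: continuity in `u` by `act_cont`, `cont_un`, `Jt_cont`; `pn n (act (un u) g) ≤
C (gs (un u))^N pn n g`, `gs (un u) ≤ 9 (1 + ‖u‖)`, and `Jt_decay` with `M = N + 4`
(`(1 + ‖u‖)^(-4)` is integrable on `R3`, `integrable_one_add_norm`).
`Gt_bound`: `pn_isum_le` and the same bounds.
-/

open scoped Topology ContDiff
open MeasureTheory

noncomputable section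

namespace SoCo

theorem gt_norm (u : R3) : |u.1| + |u.2.1| + |u.2.2| ≤ 3 * ‖u‖ := by
  have h1 : |u.1| ≤ ‖u‖ := norm_fst_le u
  have h2 : |u.2.1| ≤ ‖u‖ := (norm_fst_le u.2).trans (norm_snd_le u)
  have h3 : |u.2.2| ≤ ‖u‖ := (norm_snd_le u.2).trans (norm_snd_le u)
  linarith

theorem gs_un (u : R3) : gs (un u) ≤ 9 * (1 + ‖u‖) := by
  have h : gs (un u) = 9 + 2 * (|u.1| + |u.2.1| + |u.2.2|) := by
    unfold gs
    change 1 + ∑ i, ∑ j, |unM u i j| + ∑ i, ∑ j, |unM (-u) i j| = _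
    simp [unM, Fin.sum_univ_four]
    ring
  rw [h]
  have := gt_norm u
  have := norm_nonneg u
  linarith

/-- The pointwise bound. -/
theorem gt_pt (ν : ℝ) (b : R3 → ℂ) (hb : CB ν b) (n : ℕ) :
    ∃ (C : ℝ) (m : ℕ), 0 ≤ C ∧ ∀ (f : Isp) (u : R3),
      pn n (act (un u) (Jt ν b f u)) ≤ (1 + ‖u‖) ^ (-(4 : ℝ)) * (C * pn m f) := by
  obtain ⟨C1, N, hC1, h1⟩ := act_bound n
  obtain ⟨C2, m, hC2, h2⟩ := Jt_decay ν (N + 4) b hb n
  refine ⟨C1 * 9 ^ N * C2, m, by positivity, fun f u => ?_⟩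
  have hu : 0 < 1 + ‖u‖ := by positivity
  have hr : (1 + ‖u‖) ^ (-(4 : ℝ)) = ((1 + ‖u‖) ^ 4)⁻¹ := by
    rw [Real.rpow_neg hu.le]
    congr 1
    exact_mod_cast Real.rpow_natCast (1 + ‖u‖) 4
  rw [hr, ← div_eq_inv_mul, le_div_iff₀ (by positivity)]
  have a1 := h1 (un u) (Jt ν b f u)
  have a2 := h2 f u
  have hp : 0 ≤ pn n (Jt ν b f u) := apply_nonneg _ _
  have hg : gs (un u) ^ N ≤ (9 * (1 + ‖u‖)) ^ N :=
    pow_le_pow_left₀ (by have := gs_ge_one (un u); linarith) (gs_un u) N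
  calc pn n (act (un u) (Jt ν b f u)) * (1 + ‖u‖) ^ 4
      ≤ (C1 * gs (un u) ^ N * pn n (Jt ν b f u)) * (1 + ‖u‖) ^ 4 :=
        mul_le_mul_of_nonneg_right a1 (by positivity)
    _ ≤ (C1 * (9 * (1 + ‖u‖)) ^ N * pn n (Jt ν b f u)) * (1 + ‖u‖) ^ 4 := by
        refine mul_le_mul_of_nonneg_right (mul_le_mul_of_nonneg_right
          (mul_le_mul_of_nonneg_left hg hC1) hp) (by positivity)
    _ = C1 * 9 ^ N * ((1 + ‖u‖) ^ (N + 4) * pn n (Jt ν b f u)) := by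
        rw [mul_pow, pow_add]
        ring
    _ ≤ C1 * 9 ^ N * (C2 * pn m f) := mul_le_mul_of_nonneg_left a2 (by positivity)
    _ = C1 * 9 ^ N * C2 * pn m f := by ring

theorem gt_haar : (volume : Measure R3).IsAddHaarMeasure := by
  have h2 : (volume : Measure (ℝ × ℝ)).IsAddHaarMeasure := by
    rw [Measure.volume_eq_prod]; infer_instance
  change (volume : Measure (ℝ × ℝ × ℝ)).IsAddHaarMeasure
  rw [Measure.volume_eq_prod]; infer_instance

theorem gt_int : Integrable (fun u : R3 => (1 + ‖u‖) ^ (-(4 : ℝ))) := by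
  have := gt_haar
  refine integrable_one_add_norm ?_
  have h : Module.finrank ℝ R3 = 3 := by
    simp [R3]
  rw [h]
  norm_num

theorem ig_Gt (ν : ℝ) (b : R3 → ℂ) (hb : CB ν b) (f : Isp) :
    Ig volume (fun u : R3 => act (un u) (Jt ν b f u)) := by
  have h1 : Continuous (fun u : R3 => (un u, Jt ν b f u)) :=
    cont_un.prodMk (Jt_cont ν b hb f)
  have hc : Continuous (fun u : R3 => act (un u) (Jt ν b f u)) :=
    Continuous.comp (g := fun p : GL (Fin 4) ℝ × Isp => act p.1 p.2)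
      (f := fun u : R3 => (un u, Jt ν b f u)) act_cont h1
  refine ⟨hc, fun n => ?_⟩
  obtain ⟨C, m, hC, h⟩ := gt_pt ν b hb n
  refine (gt_int.mul_const (C * pn m f)).mono'
    ((withSeminorms_pn.continuous_seminorm n).comp hc).aestronglyMeasurable ?_
  refine Filter.Eventually.of_forall fun u => ?_
  rw [Real.norm_of_nonneg (apply_nonneg _ _)]
  exact h f u

def Gt (ν : ℝ) (b : R3 → ℂ) (f : Isp) : Isp :=
  isum volume (fun u : R3 => act (un u) (Jt ν b f u))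

theorem Gt_bound (ν : ℝ) (b : R3 → ℂ) (hb : CB ν b) (n : ℕ) :
    ∃ (C : ℝ) (m : ℕ), 0 ≤ C ∧ ∀ f : Isp, pn n (Gt ν b f) ≤ C * pn m f := by
  obtain ⟨C, m, hC, h⟩ := gt_pt ν b hb n
  refine ⟨(∫ u : R3, (1 + ‖u‖) ^ (-(4 : ℝ))) * C, m,
    mul_nonneg (integral_nonneg fun u => by positivity) hC, fun f => ?_⟩
  refine (pn_isum_le (ig_Gt ν b hb f) n).trans ?_
  rw [mul_assoc, ← integral_mul_const]
  exact integral_mono ((ig_Gt ν b hb f).int n) (gt_int.mul_const _) fun u => h f u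

/-- `Gt` as a linear map. -/
def GtI (ν : ℝ) (b : R3 → ℂ) (hb : CB ν b) : Isp →ₗ[ℂ] Isp where
  toFun f := Gt ν b f
  map_add' f g := by
    unfold Gt
    rw [← isum_add (ig_Gt ν b hb f) (ig_Gt ν b hb g)]
    congr 1
    funext u
    rw [Jt_add ν b hb, map_add]
  map_smul' c f := by
    unfold Gt
    rw [RingHom.id_apply, ← isum_smul (ig_Gt ν b hb f) c]
    congr 1
    funext u
    rw [Jt_smul ν b hb, map_smul]

/-- `Gt` as a continuous linear map. -/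
def GtL (ν : ℝ) (b : R3 → ℂ) (hb : CB ν b) : Isp →L[ℂ] Isp :=
  ⟨GtI ν b hb, cont_of_bounds (GtI ν b hb) fun n => by
    obtain ⟨C, m, -, h⟩ := Gt_bound ν b hb n
    exact ⟨m, C, h⟩⟩

theorem GtL_app (ν : ℝ) (b : R3 → ℂ) (hb : CB ν b) (f : Isp) : GtL ν b hb f = Gt ν b f := rfl

theorem Gt_mem (ν : ℝ) (b : R3 → ℂ) (hb : CB ν b) (W : Submodule ℂ Isp)
    (hW : IsClosed (W : Set Isp)) (hg : ∀ g, ∀ f ∈ W, act g f ∈ W) (f : Isp) (hf : f ∈ W) :
    Gt ν b f ∈ W := by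
  exact isum_mem _ _ (ig_Gt ν b hb f) W hW fun u => hg _ _ (Jt_mem ν b hb W hW hg f hf u)

end SoCo
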