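import Pool.Agent.H.MP_0f3f77_al.Gt
import Pool.Agent.H.MP_0f3f77_al.Bump
import Pool.Agent.H.MP_0f3f77_al.Four3

/-!
`Gt ν b f` is congruent to `(2π)^3 b(ξ0) f` modulo the span of all `α v - ψ(α) v`.

Proof of `gt_cong`.  Let `ξ0 = (0, 0, ν)`.  Let `E τ u = e^{i (1-τ) ν u_3}`,
`D u = u_1 D03 + u_2 D13 + u_3 D23`.  Put
`Y_k = isum (over (τ, u) ∈ [0,1] × R3) (u_k E τ u • act (un (τ • u)) (Jt ν b f u))`, `k = 1, 2, 3`
(measure `(volume.restrict (Set.Icc 0 1)).prod volume` on `ℝ × R3`; continuity of the integrand by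
`act_cont, cont_un, Jt_cont`; integrability as in `ig_Gt`).  `Y_k ∈ W` by `isum_mem`.
By `isum_map` for the continuous operators `D03`, `D13`, `D23 - iν`, the right side
`D03 Y_1 + D13 Y_2 + (D23 Y_3 - iν Y_3)` is the integral of
`E τ u • (D u - iν u_3) (act (un (τ • u)) (Jt ν b f u))`, whose value at `x, a, b, i` is the
`τ`-derivative of `E τ u * (act (un (τ • u)) (Jt ν b f u)) x a b i` (`opg_point` for
`opg_un u`; `act (un (τ u))` commutes with `D u` by `act_dop`).  So (`isum_app`, Fubini,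
fundamental theorem of calculus) the value of the right side at `x, a, b, i` is
`∫_u (act (un u) (Jt ν b f u)) x a b i - ∫_u e^{iν u_3} (Jt ν b f u) x a b i`.
The first integral is `Gt ν b f x a b i`; the second one is `(2π)^3 b(ξ0) f x a b i` by `four3`
applied to `φ η = b η * sact ν η f x a b i` (continuous with compact support; its transform
`u ↦ Jt ν b f u x a b i` is integrable by `Jt_decay` with `M = 4` and `value_bound`),
because `sact ν ξ0 f = f`.
-/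

open scoped Topology ContDiff
open MeasureTheory

noncomputable section

namespace SoCo

/-- The exponential factor. -/
def gtcong_E (ν τ : ℝ) (u : R3) : ℂ := Complex.exp (Complex.I * ((1 - τ) * ν * u.2.2 : ℝ))

theorem gtcong_E_norm (ν τ : ℝ) (u : R3) : ‖gtcong_E ν τ u‖ = 1 := by
  unfold gtcong_E
  rw [mul_comm, Complex.norm_exp_ofReal_mul_I]

/-- The integrand. -/
def gtcong_F (ν : ℝ) (b : R3 → ℂ) (f : Isp) (c : R3 → ℝ) (q : ℝ × R3) : Isp :=
  ((c q.2 : ℂ) * gtcong_E ν q.1 q.2) • act (un (q.1 • q.2)) (Jt ν b f q.2)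

/-- The measure. -/
def gtcong_mu : Measure (ℝ × R3) := (volume.restrict (Set.Icc (0 : ℝ) 1)).prod volume

theorem gtcong_cont (ν : ℝ) (b : R3 → ℂ) (hb : CB ν b) (f : Isp) (c : R3 → ℝ)
    (hc : Continuous c) : Continuous (gtcong_F ν b f c) := by
  have h0 : Continuous fun q : ℝ × R3 => ((c q.2 : ℂ) * gtcong_E ν q.1 q.2) := by
    unfold gtcong_E
    fun_prop
  have h1 : Continuous fun q : ℝ × R3 => (un (q.1 • q.2), Jt ν b f q.2) := by
    refine Continuous.prodMk (cont_un.comp ?_) ((Jt_cont ν b hb f).comp continuous_snd)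
    fun_prop
  have h2 : Continuous fun q : ℝ × R3 => act (un (q.1 • q.2)) (Jt ν b f q.2) :=
    act_cont.comp h1
  exact h0.smul h2

theorem gtcong_int_aux : Integrable (fun u : R3 => (1 + ‖u‖) ^ (-4 : ℝ)) := by
  have : (volume : Measure (ℝ × ℝ)).IsAddHaarMeasure :=
    Measure.prod.instIsAddHaarMeasure volume volume
  have : (volume : Measure R3).IsAddHaarMeasure :=
    Measure.prod.instIsAddHaarMeasure volume volume
  refine integrable_one_add_norm ?_
  simp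
  norm_num

theorem gtcong_rpow (r : ℝ) (hr : 0 < r) : r ^ (-4 : ℝ) = (r ^ 4)⁻¹ := by
  rw [Real.rpow_neg hr.le]
  norm_num

theorem gtcong_real (cu T R C G P C' p Q : ℝ) (N : ℕ) (hR : 0 < R) (hT : 0 ≤ T) (hG0 : 0 ≤ G)
    (hC : 0 ≤ C) (h0 : 0 ≤ cu) (h1 : cu ≤ R)
    (h2 : G ≤ 9 * (T * R)) (h3 : R ^ (N + 5) * P ≤ C' * p) (hP0 : 0 ≤ P)
    (hQ : Q ≤ C * G ^ N * P) :
    cu * Q ≤ T ^ N * (C * 9 ^ N * C' * p * (R ^ 4)⁻¹) := by
  have h4 : P ≤ C' * p * (R ^ (N + 5))⁻¹ := by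
    rw [← div_eq_mul_inv, le_div_iff₀ (by positivity), mul_comm]
    exact h3
  have h5 : G ^ N ≤ (9 * (T * R)) ^ N := pow_le_pow_left₀ hG0 h2 N
  have h6 : C * G ^ N * P ≤ C * (9 * (T * R)) ^ N * (C' * p * (R ^ (N + 5))⁻¹) :=
    mul_le_mul (mul_le_mul_of_nonneg_left h5 hC) h4 hP0 (by positivity)
  have h7 : 0 ≤ C * G ^ N * P := by positivity
  calc cu * Q ≤ cu * (C * G ^ N * P) := mul_le_mul_of_nonneg_left hQ h0
    _ ≤ R * (C * G ^ N * P) := mul_le_mul_of_nonneg_right h1 h7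
    _ ≤ R * (C * (9 * (T * R)) ^ N * (C' * p * (R ^ (N + 5))⁻¹)) :=
      mul_le_mul_of_nonneg_left h6 hR.le
    _ = T ^ N * (C * 9 ^ N * C' * p * (R ^ 4)⁻¹) := by
      have h8 : (R ^ (N + 5))⁻¹ * R ^ N * R = (R ^ 4)⁻¹ := by
        rw [pow_add]
        field_simp
      rw [mul_pow, mul_pow, ← h8]
      ring

theorem gtcong_ig (ν : ℝ) (b : R3 → ℂ) (hb : CB ν b) (f : Isp) (c : R3 → ℝ)
    (hc : Continuous c) (hc1 : ∀ u, |c u| ≤ ‖u‖) : Ig gtcong_mu (gtcong_F ν b f c) := by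
  refine ⟨gtcong_cont ν b hb f c hc, fun n => ?_⟩
  obtain ⟨C, N, hC, hact⟩ := act_bound n
  obtain ⟨C', m, hC', hdec⟩ := Jt_decay ν (N + 5) b hb n
  have h1 : Integrable (fun τ : ℝ => (1 + |τ|) ^ N) (volume.restrict (Set.Icc (0 : ℝ) 1)) := by
    have : ContinuousOn (fun τ : ℝ => (1 + |τ|) ^ N) (Set.Icc (0 : ℝ) 1) := by fun_prop
    exact this.integrableOn_compact isCompact_Icc
  have h2 : Integrable (fun u : R3 => (C * 9 ^ N * C' * pn m f) * (1 + ‖u‖) ^ (-4 : ℝ)) :=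
    gtcong_int_aux.const_mul _
  have h3 := h1.mul_prod h2
  refine h3.mono' ((continuous_pn n).comp
    (gtcong_cont ν b hb f c hc)).aestronglyMeasurable ?_
  refine Filter.Eventually.of_forall fun q => ?_
  have hp : 0 ≤ pn n (gtcong_F ν b f c q) := apply_nonneg _ _
  rw [Real.norm_of_nonneg hp]
  unfold gtcong_F
  rw [map_smul_eq_mul, norm_mul, gtcong_E_norm, mul_one, Complex.norm_real, Real.norm_eq_abs]
  have e1 := hact (un (q.1 • q.2)) (Jt ν b f q.2)
  have e2 := gs_un (q.1 • q.2)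
  have e3 : 1 + ‖q.1 • q.2‖ ≤ (1 + |q.1|) * (1 + ‖q.2‖) := by
    rw [norm_smul, Real.norm_eq_abs]
    nlinarith [abs_nonneg q.1, norm_nonneg q.2]
  have e4 : gs (un (q.1 • q.2)) ≤ 9 * ((1 + |q.1|) * (1 + ‖q.2‖)) :=
    e2.trans (mul_le_mul_of_nonneg_left e3 (by norm_num))
  have e5 : 0 ≤ gs (un (q.1 • q.2)) := zero_le_one.trans (gs_ge_one _)
  have e6 := hdec f q.2
  have e7 : 0 ≤ pn n (Jt ν b f q.2) := apply_nonneg _ _
  have e8 : |c q.2| ≤ 1 + ‖q.2‖ := (hc1 q.2).trans (by linarith)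
  have hq : 0 < 1 + ‖q.2‖ := by positivity
  have hq0 : 0 ≤ 1 + |q.1| := by positivity
  rw [gtcong_rpow _ hq]
  exact gtcong_real _ _ _ _ _ _ _ _ _ N hq hq0 e5 hC (abs_nonneg _) e8 e4 e6 e7 e1

theorem gtcong_ig_J (ν : ℝ) (b : R3 → ℂ) (hb : CB ν b) (f : Isp) :
    Ig volume (Jt ν b f) := by
  refine ⟨Jt_cont ν b hb f, fun n => ?_⟩
  obtain ⟨C', m, hC', hdec⟩ := Jt_decay ν 4 b hb n
  refine (gtcong_int_aux.const_mul (C' * pn m f)).mono'
    ((continuous_pn n).comp (Jt_cont ν b hb f)).aestronglyMeasurable ?_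
  refine Filter.Eventually.of_forall fun u => ?_
  have hp : 0 ≤ pn n (Jt ν b f u) := apply_nonneg _ _
  have hq : 0 < 1 + ‖u‖ := by positivity
  rw [Real.norm_of_nonneg hp, gtcong_rpow _ hq, ← div_eq_mul_inv, le_div_iff₀ (by positivity),
    mul_comm]
  exact hdec f u

/-- The generator. -/
def gtcong_X (u : R3) : Mat := u.1 • Eij 0 3 + u.2.1 • Eij 1 3 + u.2.2 • Eij 2 3

theorem gtcong_X_eq (u : R3) :
    gtcong_X u = !![0, 0, 0, u.1; 0, 0, 0, u.2.1; 0, 0, 0, u.2.2; 0, 0, 0, 0] := by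
  ext i j
  fin_cases i <;> fin_cases j <;> simp [gtcong_X, Eij]

theorem gtcong_conj (v u : R3) :
    ((un v : GL (Fin 4) ℝ) : Mat) * gtcong_X u * (((un v)⁻¹ : GL (Fin 4) ℝ) : Mat)
      = gtcong_X u := by
  show unM v * gtcong_X u * unM (-v) = gtcong_X u
  rw [gtcong_X_eq]
  ext i j
  fin_cases i <;> fin_cases j <;> simp [unM, Matrix.mul_apply, Fin.sum_univ_four]

theorem gtcong_dop_X (u : R3) (g : Isp) :
    dop (gtcong_X u) g = (u.1 : ℂ) • D 0 3 g + (u.2.1 : ℂ) • D 1 3 g + (u.2.2 : ℂ) • D 2 3 g := by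
  rw [gtcong_X, dop_add, dop_add, dop_smul, dop_smul, dop_smul]
  rfl

theorem gtcong_deriv (ν : ℝ) (b : R3 → ℂ) (f : Isp) (x : E) (a c : Fin 2) (i : Fin 4) (u : R3)
    (τ : ℝ) :
    HasDerivAt (fun τ => gtcong_E ν τ u * act (un (τ • u)) (Jt ν b f u) x a c i)
      (gtcong_E ν τ u * ((dop (gtcong_X u) (act (un (τ • u)) (Jt ν b f u))) x a c i -
        Complex.I * ν * u.2.2 * act (un (τ • u)) (Jt ν b f u) x a c i)) τ := by
  have h1 := opg_point (opg_un u) (Jt ν b f u) x a c i τ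
  have h2 : act (un (τ • u)) (dop (gtcong_X u) (Jt ν b f u))
      = dop (gtcong_X u) (act (un (τ • u)) (Jt ν b f u)) := by
    rw [act_dop, gtcong_conj]
  have h3 : HasDerivAt (fun τ : ℝ => gtcong_E ν τ u)
      (gtcong_E ν τ u * (-(Complex.I * ν * u.2.2))) τ := by
    unfold gtcong_E
    have h4 : HasDerivAt (fun τ : ℝ => (1 - τ) * ν * u.2.2) (-1 * ν * u.2.2) τ :=
      (((hasDerivAt_id τ).const_sub 1).mul_const ν).mul_const u.2.2
    have h5 := (h4.ofReal_comp.const_mul Complex.I).cexp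
    refine h5.congr_deriv ?_
    push_cast
    ring
  have h6 := h3.mul h1
  refine h6.congr_deriv ?_
  change gtcong_E ν τ u * (-(Complex.I * ν * u.2.2)) * act (un (τ • u)) (Jt ν b f u) x a c i +
    gtcong_E ν τ u * act (un (τ • u)) (dop (gtcong_X u) (Jt ν b f u)) x a c i = _
  rw [h2]
  ring

/-- The integrand at a point. -/
def gtcong_psi (ν : ℝ) (b : R3 → ℂ) (f : Isp) (x : E) (a c : Fin 2) (i : Fin 4)
    (q : ℝ × R3) : ℂ :=
  gtcong_E ν q.1 q.2 * ((dop (gtcong_X q.2) (act (un (q.1 • q.2)) (Jt ν b f q.2))) x a c i -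
        Complex.I * ν * q.2.2.2 * act (un (q.1 • q.2)) (Jt ν b f q.2) x a c i)

/-- The three coordinates. -/
def gtcong_c1 (u : R3) : ℝ := u.1
/-- The three coordinates. -/
def gtcong_c2 (u : R3) : ℝ := u.2.1
/-- The three coordinates. -/
def gtcong_c3 (u : R3) : ℝ := u.2.2

theorem gtcong_c1_cont : Continuous gtcong_c1 := by unfold gtcong_c1; fun_prop
theorem gtcong_c2_cont : Continuous gtcong_c2 := by unfold gtcong_c2; fun_prop
theorem gtcong_c3_cont : Continuous gtcong_c3 := by unfold gtcong_c3; fun_prop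

theorem gtcong_c1_le (u : R3) : |gtcong_c1 u| ≤ ‖u‖ := norm_fst_le u
theorem gtcong_c2_le (u : R3) : |gtcong_c2 u| ≤ ‖u‖ := (norm_fst_le u.2).trans (norm_snd_le u)
theorem gtcong_c3_le (u : R3) : |gtcong_c3 u| ≤ ‖u‖ := (norm_snd_le u.2).trans (norm_snd_le u)

theorem gtcong_psi_eq (ν : ℝ) (b : R3 → ℂ) (f : Isp) (x : E) (a c : Fin 2) (i : Fin 4)
    (q : ℝ × R3) : gtcong_psi ν b f x a c i q =
      (D 0 3 (gtcong_F ν b f gtcong_c1 q)) x a c i + (D 1 3 (gtcong_F ν b f gtcong_c2 q)) x a c i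
      + ((D 2 3 (gtcong_F ν b f gtcong_c3 q)) x a c i
        - (Complex.I * ν) * (gtcong_F ν b f gtcong_c3 q) x a c i) := by
  unfold gtcong_psi gtcong_F
  rw [gtcong_dop_X]
  simp only [map_smul, Isp.smul_app, Isp.add_app, Pi.add_apply, Pi.smul_apply, smul_eq_mul,
    gtcong_c1, gtcong_c2, gtcong_c3]
  ring

theorem gt_cong (ν : ℝ) (hν : ν ≠ 0) (b : R3 → ℂ) (hb : CB ν b) (W : Submodule ℂ Isp)
    (hW : IsClosed (W : Set Isp)) (hg : ∀ g, ∀ f ∈ W, act g f ∈ W) (f : Isp) (hf : f ∈ W) :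
    ∃ y1 ∈ W, ∃ y2 ∈ W, ∃ y3 ∈ W,
      Gt ν b f - ((2 * Real.pi) ^ 3 * b (0, 0, ν) : ℂ) • f =
        D 0 3 y1 + D 1 3 y2 + (D 2 3 y3 - (Complex.I * ν) • y3) := by
  have I1 := gtcong_ig ν b hb f gtcong_c1 gtcong_c1_cont gtcong_c1_le
  have I2 := gtcong_ig ν b hb f gtcong_c2 gtcong_c2_cont gtcong_c2_le
  have I3 := gtcong_ig ν b hb f gtcong_c3 gtcong_c3_cont gtcong_c3_le
  have hmem : ∀ c : R3 → ℝ, ∀ q, gtcong_F ν b f c q ∈ W := fun c q =>
    W.smul_mem _ (hg _ _ (Jt_mem ν b hb W hW hg f hf q.2))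
  refine ⟨isum gtcong_mu (gtcong_F ν b f gtcong_c1), isum_mem _ _ I1 W hW (hmem _),
    isum gtcong_mu (gtcong_F ν b f gtcong_c2), isum_mem _ _ I2 W hW (hmem _),
    isum gtcong_mu (gtcong_F ν b f gtcong_c3), isum_mem _ _ I3 W hW (hmem _), ?_⟩
  ext x a c i
  have D1 : (D 0 3 (isum gtcong_mu (gtcong_F ν b f gtcong_c1))) x a c i =
      ∫ q, (D 0 3 (gtcong_F ν b f gtcong_c1 q)) x a c i ∂gtcong_mu := by
    have := isum_map I1 (dopL (Eij 0 3))
    rw [show D 0 3 (isum gtcong_mu (gtcong_F ν b f gtcong_c1)) = _ from this,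
      isum_app (I1.map (dopL (Eij 0 3)))]
    rfl
  have D2 : (D 1 3 (isum gtcong_mu (gtcong_F ν b f gtcong_c2))) x a c i =
      ∫ q, (D 1 3 (gtcong_F ν b f gtcong_c2 q)) x a c i ∂gtcong_mu := by
    have := isum_map I2 (dopL (Eij 1 3))
    rw [show D 1 3 (isum gtcong_mu (gtcong_F ν b f gtcong_c2)) = _ from this,
      isum_app (I2.map (dopL (Eij 1 3)))]
    rfl
  have D3 : (D 2 3 (isum gtcong_mu (gtcong_F ν b f gtcong_c3))) x a c i =
      ∫ q, (D 2 3 (gtcong_F ν b f gtcong_c3 q)) x a c i ∂gtcong_mu := by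
    have := isum_map I3 (dopL (Eij 2 3))
    rw [show D 2 3 (isum gtcong_mu (gtcong_F ν b f gtcong_c3)) = _ from this,
      isum_app (I3.map (dopL (Eij 2 3)))]
    rfl
  have T1 : Integrable (fun q => (D 0 3 (gtcong_F ν b f gtcong_c1 q)) x a c i) gtcong_mu :=
    (I1.map (dopL (Eij 0 3))).app_int x a c i
  have T2 : Integrable (fun q => (D 1 3 (gtcong_F ν b f gtcong_c2 q)) x a c i) gtcong_mu :=
    (I2.map (dopL (Eij 1 3))).app_int x a c i
  have T3 : Integrable (fun q => (D 2 3 (gtcong_F ν b f gtcong_c3 q)) x a c i) gtcong_mu :=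
    (I3.map (dopL (Eij 2 3))).app_int x a c i
  have T4 : Integrable (fun q => (gtcong_F ν b f gtcong_c3 q) x a c i) gtcong_mu :=
    I3.app_int x a c i
  have hpsi : (fun q => gtcong_psi ν b f x a c i q) = fun q =>
      (D 0 3 (gtcong_F ν b f gtcong_c1 q)) x a c i + (D 1 3 (gtcong_F ν b f gtcong_c2 q)) x a c i
      + ((D 2 3 (gtcong_F ν b f gtcong_c3 q)) x a c i
        - (Complex.I * ν) * (gtcong_F ν b f gtcong_c3 q) x a c i) :=
    funext fun q => gtcong_psi_eq ν b f x a c i q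
  have Tpsi : Integrable (fun q => gtcong_psi ν b f x a c i q) gtcong_mu := by
    rw [hpsi]
    exact (T1.add T2).add (T3.sub (T4.const_mul _))
  have key : ∀ (F1 F2 F3 F4 : ℝ × R3 → ℂ) (k : ℂ), Integrable F1 gtcong_mu →
      Integrable F2 gtcong_mu → Integrable F3 gtcong_mu → Integrable F4 gtcong_mu →
      ∫ q, (F1 q + F2 q + (F3 q - k * F4 q)) ∂gtcong_mu = ∫ q, F1 q ∂gtcong_mu +
        ∫ q, F2 q ∂gtcong_mu + (∫ q, F3 q ∂gtcong_mu - k * ∫ q, F4 q ∂gtcong_mu) := by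
    intro F1 F2 F3 F4 k H1 H2 H3 H4
    have e1 : ∫ q, (F1 q + F2 q + (F3 q - k * F4 q)) ∂gtcong_mu =
        ∫ q, (F1 q + F2 q) ∂gtcong_mu + ∫ q, (F3 q - k * F4 q) ∂gtcong_mu :=
      integral_add (H1.add H2) (H3.sub (H4.const_mul k))
    have e2 : ∫ q, (F1 q + F2 q) ∂gtcong_mu = ∫ q, F1 q ∂gtcong_mu + ∫ q, F2 q ∂gtcong_mu :=
      integral_add H1 H2
    have e3 : ∫ q, (F3 q - k * F4 q) ∂gtcong_mu =
        ∫ q, F3 q ∂gtcong_mu - ∫ q, k * F4 q ∂gtcong_mu :=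
      integral_sub H3 (H4.const_mul k)
    rw [e1, e2, e3, integral_const_mul]
  have S1 : ∫ q, gtcong_psi ν b f x a c i q ∂gtcong_mu =
      ∫ q, (D 0 3 (gtcong_F ν b f gtcong_c1 q)) x a c i ∂gtcong_mu +
      ∫ q, (D 1 3 (gtcong_F ν b f gtcong_c2 q)) x a c i ∂gtcong_mu +
      (∫ q, (D 2 3 (gtcong_F ν b f gtcong_c3 q)) x a c i ∂gtcong_mu -
        (Complex.I * ν) * ∫ q, (gtcong_F ν b f gtcong_c3 q) x a c i ∂gtcong_mu) := by
    refine (congrArg (fun h : ℝ × R3 → ℂ => ∫ q, h q ∂gtcong_mu) hpsi).trans ?_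
    exact key _ _ _ _ _ T1 T2 T3 T4
  -- Fubini
  have hJ := gtcong_ig_J ν b hb f
  have S2 : ∫ q, gtcong_psi ν b f x a c i q ∂gtcong_mu =
      ∫ u : R3, ∫ τ in Set.Icc (0 : ℝ) 1, gtcong_psi ν b f x a c i (τ, u) :=
    integral_prod_symm _ Tpsi
  have S3 : ∀ᵐ u : R3, ∫ τ in Set.Icc (0 : ℝ) 1, gtcong_psi ν b f x a c i (τ, u) =
      act (un u) (Jt ν b f u) x a c i -
        Complex.exp (Complex.I * ((0 : ℝ) * u.1 + (0 : ℝ) * u.2.1 + ν * u.2.2)) *
          Jt ν b f u x a c i := by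
    filter_upwards [Tpsi.prod_left_ae] with u hu
    rw [integral_Icc_eq_integral_Ioc, ← intervalIntegral.integral_of_le zero_le_one]
    have h1 : IntervalIntegrable (fun τ => gtcong_psi ν b f x a c i (τ, u)) volume 0 1 := by
      rw [intervalIntegrable_iff_integrableOn_Icc_of_le zero_le_one]
      exact hu
    have h2 := intervalIntegral.integral_eq_sub_of_hasDerivAt
      (f := fun τ => gtcong_E ν τ u * act (un (τ • u)) (Jt ν b f u) x a c i)
      (f' := fun τ => gtcong_psi ν b f x a c i (τ, u))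
      (fun τ _ => gtcong_deriv ν b f x a c i u τ) h1
    refine h2.trans ?_
    show gtcong_E ν 1 u * act (un ((1 : ℝ) • u)) (Jt ν b f u) x a c i -
      gtcong_E ν 0 u * act (un ((0 : ℝ) • u)) (Jt ν b f u) x a c i = _
    rw [one_smul, zero_smul, un_zero, act_one]
    unfold gtcong_E
    congr 1
    · simp
    · congr 2
      push_cast
      ring
  have G1 : Integrable (fun u : R3 => act (un u) (Jt ν b f u) x a c i) :=
    (ig_Gt ν b hb f).app_int x a c i
  have G2 : Integrable (fun u : R3 => Jt ν b f u x a c i) := hJ.app_int x a c i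
  have G3 : Integrable (fun u : R3 =>
      Complex.exp (Complex.I * ((0 : ℝ) * u.1 + (0 : ℝ) * u.2.1 + ν * u.2.2)) *
          Jt ν b f u x a c i) := by
    refine G2.norm.mono' ?_ ?_
    · refine AEStronglyMeasurable.mul ?_ G2.aestronglyMeasurable
      have : Continuous fun u : R3 =>
        Complex.exp (Complex.I * ((0 : ℝ) * u.1 + (0 : ℝ) * u.2.1 + ν * u.2.2)) := by fun_prop
      exact this.aestronglyMeasurable
    · refine Filter.Eventually.of_forall fun u => ?_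
      rw [norm_mul, Complex.norm_exp]
      simp
  have S4 : ∫ q, gtcong_psi ν b f x a c i q ∂gtcong_mu =
      Gt ν b f x a c i - ∫ u : R3,
        Complex.exp (Complex.I * ((0 : ℝ) * u.1 + (0 : ℝ) * u.2.1 + ν * u.2.2)) *
          Jt ν b f u x a c i := by
    rw [S2, integral_congr_ae S3, integral_sub G1 G3]
    congr 1
    exact (isum_app (ig_Gt ν b hb f) x a c i).symm
  -- Fourier inversion
  have hφ := ig_bs ν b hb (fun _ => 1) continuous_const f
  have hφ1 : (fun η : R3 => b η * sact ν η f x a c i) =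
      fun η => evL x a c i (((fun _ => (1 : ℂ)) η * b η) • sact ν η f) := by
    funext η
    rw [map_smul, evL_app, smul_eq_mul, one_mul]
  have P1 : Continuous (fun η : R3 => b η * sact ν η f x a c i) := by
    rw [hφ1]
    exact (evL x a c i).continuous.comp hφ.cont
  have P2 : Integrable (fun η : R3 => b η * sact ν η f x a c i) := by
    rw [hφ1]
    exact hφ.clm_int (evL x a c i)
  have P3 : ∀ u : R3, ∫ η : R3,
      Complex.exp (-(Complex.I * (η.1 * u.1 + η.2.1 * u.2.1 + η.2.2 * u.2.2))) *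
        (b η * sact ν η f x a c i) = Jt ν b f u x a c i := by
    intro u
    rw [Jt, isum_app (ig_Jt ν b hb f u)]
    refine integral_congr_ae (Filter.Eventually.of_forall fun η => ?_)
    show _ = (ex u η * b η) * sact ν η f x a c i
    unfold ex
    ring
  have P4 := four3 (fun η : R3 => b η * sact ν η f x a c i) P1 P2 (0, 0, ν)
    (by simp only [P3]; exact G2)
  simp only [P3, sact_xi ν hν] at P4
  rw [P4] at S4
  show Gt ν b f x a c i - ((2 * Real.pi) ^ 3 * b (0, 0, ν) : ℂ) * f x a c i =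
    (D 0 3 (isum gtcong_mu (gtcong_F ν b f gtcong_c1))) x a c i +
    (D 1 3 (isum gtcong_mu (gtcong_F ν b f gtcong_c2))) x a c i +
    ((D 2 3 (isum gtcong_mu (gtcong_F ν b f gtcong_c3))) x a c i -
      (Complex.I * ν) * (isum gtcong_mu (gtcong_F ν b f gtcong_c3)) x a c i)
  rw [D1, D2, D3, isum_app I3, ← S1, S4]
  ring

end SoCo
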