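import Pool.Agent.H.MP_0f3f77_al.Gt

/-!
The operator `Gt ν b f = ∫_u un(u) Jt ν b f u`.

`ig_Gt`: continuity in `u` by `act_cont`, `cont_un`, `Jt_cont`; `pn n (act (un u) g) ≤
C (gs (un u))^N pn n g`, `gs (un u) ≤ 9 (1 + ‖u‖)`, and `Jt_decay` with `M = N + 4`
(`(1 + ‖u‖)^(-4)` is integrable on `R3`, `integrable_one_add_norm`).
`Gt_bound`: `pn_isum_le` and the same bounds.
-/

open scoped Topology ContDiff
open MeasureTheory

noncomputable section

namespace SoCo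

/-- The rotation of `R3`. -/
def gtrot_S (θ : ℝ) : R3 →ₗ[ℝ] R3 where
  toFun u := (Real.cos θ * u.1 - Real.sin θ * u.2.1, Real.sin θ * u.1 + Real.cos θ * u.2.1, u.2.2)
  map_add' u v := by
    ext
    · simp only [Prod.fst_add, Prod.snd_add]
      ring
    · simp only [Prod.fst_add, Prod.snd_add]
      ring
    · simp only [Prod.snd_add]
  map_smul' c u := by
    ext
    · simp only [Prod.smul_fst, Prod.smul_snd, smul_eq_mul, RingHom.id_apply]
      ring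
    · simp only [Prod.smul_fst, Prod.smul_snd, smul_eq_mul, RingHom.id_apply]
      ring
    · simp only [Prod.smul_snd, RingHom.id_apply]

theorem gtrot_S_app (θ : ℝ) (u : R3) : gtrot_S θ u =
    (Real.cos θ * u.1 - Real.sin θ * u.2.1, Real.sin θ * u.1 + Real.cos θ * u.2.1, u.2.2) := rfl

theorem gtrot_S_inv (θ : ℝ) (u : R3) : gtrot_S (-θ) (gtrot_S θ u) = u := by
  have h := Real.sin_sq_add_cos_sq θ
  simp only [gtrot_S_app, Real.cos_neg, Real.sin_neg]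
  ext
  · simp only
    linear_combination u.1 * h
  · simp only
    linear_combination u.2.1 * h
  · simp only

theorem gtrot_S_inv' (θ : ℝ) (u : R3) : gtrot_S θ (gtrot_S (-θ) u) = u := by
  have h := gtrot_S_inv (-θ) u
  rwa [neg_neg] at h

/-- The rotation as an equivalence. -/
def gtrot_L (θ : ℝ) : R3 ≃L[ℝ] R3 :=
  (LinearEquiv.ofLinearMap (gtrot_S θ) (gtrot_S (-θ)) (LinearMap.ext (gtrot_S_inv' θ))
    (LinearMap.ext (gtrot_S_inv θ))).toContinuousLinearEquiv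

theorem gtrot_L_app (θ : ℝ) (u : R3) : gtrot_L θ u =
    (Real.cos θ * u.1 - Real.sin θ * u.2.1, Real.sin θ * u.1 + Real.cos θ * u.2.1, u.2.2) := rfl

theorem gtrot_L_inv (θ : ℝ) (u : R3) : gtrot_L (-θ) (gtrot_L θ u) = u := gtrot_S_inv θ u

theorem gtrot_mp (θ : ℝ) : MeasurePreserving (gtrot_L θ) volume volume := by
  have hm : Measurable (gtrot_S θ) := (gtrot_L θ).continuous.measurable
  have hdet : LinearMap.det (gtrot_S θ) ≠ 0 :=
    (LinearEquiv.isUnit_det' (gtrot_L θ).toLinearEquiv).ne_zero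
  have hH2 : (volume : Measure (ℝ × ℝ)).IsAddHaarMeasure := by
    rw [Measure.volume_eq_prod]
    infer_instance
  have hH : (volume : Measure R3).IsAddHaarMeasure := by
    rw [Measure.volume_eq_prod]
    infer_instance
  have h := Measure.map_linearMap_addHaar_eq_smul_addHaar (volume : Measure R3) hdet
  refine ⟨(gtrot_L θ).continuous.measurable, ?_⟩
  change Measure.map (gtrot_S θ) volume = volume
  have hBo : IsOpen {u : R3 | u.1 ^ 2 + u.2.1 ^ 2 + u.2.2 ^ 2 < 1} :=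
    isOpen_lt (by fun_prop) continuous_const
  have hBpos : volume {u : R3 | u.1 ^ 2 + u.2.1 ^ 2 + u.2.2 ^ 2 < 1} ≠ 0 :=
    (hBo.measure_pos volume ⟨0, by simp⟩).ne'
  have hBfin : volume {u : R3 | u.1 ^ 2 + u.2.1 ^ 2 + u.2.2 ^ 2 < 1} ≠ ⊤ := by
    refine (Bornology.IsBounded.measure_lt_top ?_).ne
    refine (Metric.isBounded_closedBall (x := (0 : R3)) (r := 1)).subset ?_
    intro u hu
    have hu' : u.1 ^ 2 + u.2.1 ^ 2 + u.2.2 ^ 2 < 1 := hu
    rw [mem_closedBall_zero_iff, Prod.norm_def, Prod.norm_def]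
    refine max_le ?_ (max_le ?_ ?_)
    · rw [Real.norm_eq_abs]
      exact abs_le.2 ⟨by nlinarith [sq_nonneg u.2.1, sq_nonneg u.2.2],
        by nlinarith [sq_nonneg u.2.1, sq_nonneg u.2.2]⟩
    · rw [Real.norm_eq_abs]
      exact abs_le.2 ⟨by nlinarith [sq_nonneg u.1, sq_nonneg u.2.2],
        by nlinarith [sq_nonneg u.1, sq_nonneg u.2.2]⟩
    · rw [Real.norm_eq_abs]
      exact abs_le.2 ⟨by nlinarith [sq_nonneg u.1, sq_nonneg u.2.1],
        by nlinarith [sq_nonneg u.1, sq_nonneg u.2.1]⟩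
  have hpre : gtrot_S θ ⁻¹' {u : R3 | u.1 ^ 2 + u.2.1 ^ 2 + u.2.2 ^ 2 < 1} =
      {u : R3 | u.1 ^ 2 + u.2.1 ^ 2 + u.2.2 ^ 2 < 1} := by
    ext u
    have hs := Real.sin_sq_add_cos_sq θ
    have he : (Real.cos θ * u.1 - Real.sin θ * u.2.1) ^ 2 +
        (Real.sin θ * u.1 + Real.cos θ * u.2.1) ^ 2 + u.2.2 ^ 2 =
        u.1 ^ 2 + u.2.1 ^ 2 + u.2.2 ^ 2 := by
      linear_combination (u.1 ^ 2 + u.2.1 ^ 2) * hs
    change (Real.cos θ * u.1 - Real.sin θ * u.2.1) ^ 2 +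
        (Real.sin θ * u.1 + Real.cos θ * u.2.1) ^ 2 + u.2.2 ^ 2 < 1 ↔
        u.1 ^ 2 + u.2.1 ^ 2 + u.2.2 ^ 2 < 1
    rw [he]
  have h2 : volume {u : R3 | u.1 ^ 2 + u.2.1 ^ 2 + u.2.2 ^ 2 < 1} =
      ENNReal.ofReal |(LinearMap.det (gtrot_S θ))⁻¹| *
        volume {u : R3 | u.1 ^ 2 + u.2.1 ^ 2 + u.2.2 ^ 2 < 1} := by
    have h3 := congrArg (fun μ : Measure R3 => μ {u : R3 | u.1 ^ 2 + u.2.1 ^ 2 + u.2.2 ^ 2 < 1}) h
    change Measure.map (gtrot_S θ) volume {u : R3 | u.1 ^ 2 + u.2.1 ^ 2 + u.2.2 ^ 2 < 1} =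
      (ENNReal.ofReal |(LinearMap.det (gtrot_S θ))⁻¹| • (volume : Measure R3))
        {u : R3 | u.1 ^ 2 + u.2.1 ^ 2 + u.2.2 ^ 2 < 1} at h3
    rw [Measure.map_apply hm hBo.measurableSet, hpre, Measure.smul_apply, smul_eq_mul] at h3
    exact h3
  have hc : ENNReal.ofReal |(LinearMap.det (gtrot_S θ))⁻¹| = 1 := by
    have h4 : 1 * volume {u : R3 | u.1 ^ 2 + u.2.1 ^ 2 + u.2.2 ^ 2 < 1} =
        ENNReal.ofReal |(LinearMap.det (gtrot_S θ))⁻¹| *
        volume {u : R3 | u.1 ^ 2 + u.2.1 ^ 2 + u.2.2 ^ 2 < 1} := by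
      rw [one_mul]
      exact h2
    exact ((ENNReal.mul_left_inj hBpos hBfin).1 h4).symm
  rw [h, hc, one_smul]

theorem gtrot_isum (L : R3 ≃L[ℝ] R3) (hL : MeasurePreserving L volume volume) (Φ : R3 → Isp)
    (h : Ig volume Φ) : isum volume (fun u => Φ (L u)) = isum volume Φ := by
  have h' : Ig volume (fun u => Φ (L u)) := by
    refine ⟨h.cont.comp L.continuous, fun n => ?_⟩
    exact (hL.integrable_comp (h.int n).aestronglyMeasurable).2 (h.int n)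
  apply iota_inj
  intro n
  rw [iota_isum volume _ h', iota_isum volume _ h]
  exact hL.integral_comp L.toHomeomorph.measurableEmbedding (fun u => iota n (Φ u))

theorem gtrot_CB (ν : ℝ) (b : R3 → ℂ) (hb : CB ν b) (θ : ℝ) :
    CB ν (fun η => b (gtrot_L θ η)) := by
  refine ⟨hb.smooth.comp (gtrot_L θ).contDiff, ?_, ?_⟩
  · exact hb.cs.comp_homeomorph (gtrot_L θ).toHomeomorph
  · intro η hη
    have h1 : tsupport (b ∘ (gtrot_L θ).toHomeomorph) =
        (gtrot_L θ).toHomeomorph ⁻¹' tsupport b := tsupport_comp_eq_preimage b _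
    have h2 : η ∈ tsupport (b ∘ (gtrot_L θ).toHomeomorph) := hη
    rw [h1] at h2
    have h3 : gtrot_L θ η ∈ UU ν := hb.sub h2
    exact h3

theorem gtrot_un (θ : ℝ) (u : R3) : rot θ * un u = un (gtrot_L θ u) * rot θ := by
  apply Units.ext
  change rotM θ * unM u = unM (gtrot_L θ u) * rotM θ
  rw [gtrot_L_app]
  ext i j
  fin_cases i <;> fin_cases j <;>
    simp [rotM, unM, Matrix.mul_apply, Fin.sum_univ_four, sub_eq_add_neg]

theorem gtrot_sG (ν : ℝ) (hν : ν ≠ 0) (θ : ℝ) (η : R3) (h : η.2.2 ≠ 0)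
    (h' : (gtrot_L θ η).2.2 ≠ 0) :
    rot θ * sG ν hν η h = sG ν hν (gtrot_L θ η) h' * rot θ := by
  apply Units.ext
  change rotM θ * sMi ν η = sMi ν (gtrot_L θ η) * rotM θ
  have hs := Real.sin_sq_add_cos_sq θ
  rw [gtrot_L_app]
  ext i j
  fin_cases i <;> fin_cases j <;>
    simp [rotM, sMi, Matrix.mul_apply, Fin.sum_univ_four]
  · field_simp
    linear_combination η.1 * hs
  · field_simp
    linear_combination η.2.1 * hs

theorem gtrot_sact (ν : ℝ) (θ : ℝ) (η : R3) (h : η ∈ UU ν) (f : Isp) :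
    act (rot θ) (sact ν η f) = sact ν (gtrot_L θ η) (act (rot θ) f) := by
  have h' : gtrot_L θ η ∈ UU ν := h
  rw [sact_eq h, sact_eq h', ← act_mul, ← act_mul, gtrot_sG]

theorem gtrot_ex (θ : ℝ) (u η : R3) : ex (gtrot_L θ u) (gtrot_L θ η) = ex u η := by
  unfold ex
  congr 1
  rw [gtrot_L_app, gtrot_L_app]
  have hs : ((Real.sin θ : ℝ) : ℂ) ^ 2 + ((Real.cos θ : ℝ) : ℂ) ^ 2 = 1 := by
    rw [← Complex.ofReal_pow, ← Complex.ofReal_pow, ← Complex.ofReal_add,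
      Real.sin_sq_add_cos_sq, Complex.ofReal_one]
  push_cast [-Complex.ofReal_cos, -Complex.ofReal_sin]
  linear_combination (-Complex.I * ((η.1 : ℂ) * u.1 + (η.2.1 : ℂ) * u.2.1)) * hs

/-- Covariance under rotations: `rot θ * un u = un (R u) * rot θ`,
`rot θ * s_η = s_{η R⁻¹} * rot θ`; substitute `u → R⁻¹ u`, `η → η R` (measure preserving). -/
theorem Gt_rot (ν : ℝ) (b : R3 → ℂ) (hb : CB ν b) (θ : ℝ) : ∃ b' : R3 → ℂ, CB ν b' ∧
    ∀ f : Isp, act (rot θ) (Gt ν b f) = Gt ν b' (act (rot θ) f) := by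
  refine ⟨fun η => b (gtrot_L (-θ) η), gtrot_CB ν b hb (-θ), fun f => ?_⟩
  have hb' := gtrot_CB ν b hb (-θ)
  have hJ : ∀ u, act (rot θ) (Jt ν b f u) =
      Jt ν (fun η => b (gtrot_L (-θ) η)) (act (rot θ) f) (gtrot_L θ u) := by
    intro u
    have h1 := isum_map (ig_Jt ν b hb f u) (actL (rot θ))
    rw [actL_app] at h1
    unfold Jt
    rw [h1, ← gtrot_isum (gtrot_L θ) (gtrot_mp θ) _ (ig_Jt ν _ hb' (act (rot θ) f)
      (gtrot_L θ u))]
    congr 1
    funext η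
    rw [gtrot_L_inv, gtrot_ex, actL_app, map_smul]
    by_cases hη : η ∈ UU ν
    · rw [gtrot_sact ν θ η hη]
    · have h0 : b η = 0 := image_eq_zero_of_notMem_tsupport fun hh => hη (hb.sub hh)
      rw [h0, mul_zero, zero_smul, zero_smul]
  have h2 := isum_map (ig_Gt ν b hb f) (actL (rot θ))
  rw [actL_app] at h2
  unfold Gt
  rw [h2, ← gtrot_isum (gtrot_L θ) (gtrot_mp θ) _ (ig_Gt ν _ hb' (act (rot θ) f))]
  congr 1
  funext u
  rw [actL_app, ← act_mul, gtrot_un, act_mul, hJ]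

end SoCo
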