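import Pool.Agent.H.MP_0f3f77_al.Subs

/-!
The nine subspaces are invariant under `M_3`; see the explanation in `Subs`.
-/

open scoped Topology ContDiff
open MeasureTheory

noncomputable section

namespace SoCo

theorem invvn_vn_inv (p : ℝ × ℝ) : (((vn p)⁻¹ : GL (Fin 4) ℝ) : Mat) = vnM (-p) := rfl

theorem invvn_rot_inv (θ : ℝ) : (((rot θ)⁻¹ : GL (Fin 4) ℝ) : Mat) = rotM (-θ) := rfl

theorem invvn_X (a b : ℝ) : a • Eij 0 2 + b • Eij 1 2 =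
    !![0, 0, a, 0; 0, 0, b, 0; 0, 0, 0, 0; 0, 0, 0, 0] := by
  ext i j
  fin_cases i <;> fin_cases j <;> simp [Eij, Matrix.single_apply]

theorem invvn_Jm : Jm = !![0, -1, 0, 0; 1, 0, 0, 0; 0, 0, 0, 0; 0, 0, 0, 0] := by
  ext i j
  fin_cases i <;> fin_cases j <;> simp [Jm, Eij, Matrix.single_apply]

theorem invvn_E02 : Eij 0 2 = !![0, 0, 1, 0; 0, 0, 0, 0; 0, 0, 0, 0; 0, 0, 0, 0] := by
  ext i j
  fin_cases i <;> fin_cases j <;> simp [Eij, Matrix.single_apply]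

theorem invvn_E12 : Eij 1 2 = !![0, 0, 0, 0; 0, 0, 1, 0; 0, 0, 0, 0; 0, 0, 0, 0] := by
  ext i j
  fin_cases i <;> fin_cases j <;> simp [Eij, Matrix.single_apply]

theorem invvn_conj_vn (p q : ℝ × ℝ) : ((vn q : GL (Fin 4) ℝ) : Mat) *
    (p.1 • Eij 0 2 + p.2 • Eij 1 2) * (((vn q)⁻¹ : GL (Fin 4) ℝ) : Mat) =
    p.1 • Eij 0 2 + p.2 • Eij 1 2 := by
  rw [invvn_vn_inv, invvn_X]
  change vnM q * _ * _ = _
  ext i j
  fin_cases i <;> fin_cases j <;>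
    simp [vnM, Matrix.mul_apply, Fin.sum_univ_four]

theorem invvn_conj_rot (p : ℝ × ℝ) (θ : ℝ) : ((rot θ : GL (Fin 4) ℝ) : Mat) *
    (p.1 • Eij 0 2 + p.2 • Eij 1 2) * (((rot θ)⁻¹ : GL (Fin 4) ℝ) : Mat) =
    (Real.cos θ * p.1 - Real.sin θ * p.2) • Eij 0 2 +
      (Real.sin θ * p.1 + Real.cos θ * p.2) • Eij 1 2 := by
  rw [invvn_rot_inv, invvn_X, invvn_X]
  change rotM θ * _ * _ = _
  ext i j
  fin_cases i <;> fin_cases j <;>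
    simp [rotM, Matrix.mul_apply, Fin.sum_univ_four] <;> ring

theorem invvn_conj_J (θ : ℝ) : ((rot θ : GL (Fin 4) ℝ) : Mat) * Jm *
    (((rot θ)⁻¹ : GL (Fin 4) ℝ) : Mat) = Jm := by
  rw [invvn_rot_inv, invvn_Jm]
  change rotM θ * _ * _ = _
  have h := Real.sin_sq_add_cos_sq θ
  ext i j
  fin_cases i <;> fin_cases j <;>
    simp [rotM, Matrix.mul_apply, Fin.sum_univ_four] <;> nlinarith

theorem invvn_rot_J (θ : ℝ) (g : Isp) : act (rot θ) (dop Jm g) = dop Jm (act (rot θ) g) := by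
  rw [act_dop, invvn_conj_J]

/-- The action of `V_3` on the functionals: `q_D02`, `q_D12` along the group, see `Subs`, (2).
For `f : Isp` put `φ m s θ = qv ν m (act (rot θ) (act (vn (s • p)) f))` and
`α = cos θ p.1 - sin θ p.2`, `β = sin θ p.1 + cos θ p.2`.  Here
`rot θ * vn (s p) = vn (s (α, β)) * rot θ`, `act (rot θ) (v f) = (α D02 + β D12) (act (rot θ) f)`
for `v = p.1 D02 + p.2 D12` (`act_dop`), and `opg_clm` for `opg_vn`. -/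
theorem hasDeriv_vn (ν : ℝ) (p : ℝ × ℝ) (f : Isp) (T : Isp →L[ℂ] ℂ) (θ s : ℝ) :
    HasDerivAt (fun s : ℝ => T (act (rot θ) (act (vn (s • p)) f)))
      (((Real.cos θ * p.1 - Real.sin θ * p.2 : ℝ) : ℂ) *
        T (D 0 2 (act (rot θ) (act (vn (s • p)) f))) +
      ((Real.sin θ * p.1 + Real.cos θ * p.2 : ℝ) : ℂ) *
        T (D 1 2 (act (rot θ) (act (vn (s • p)) f)))) s := by
  have h := opg_clm (opg_vn p) f (T.comp (actL (rot θ))) s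
  simp only [ContinuousLinearMap.comp_apply, actL_app] at h
  rw [act_dop, invvn_conj_vn, act_dop, invvn_conj_rot, dop_add, dop_smul, dop_smul, map_add,
    map_smul, map_smul] at h
  exact h

/-- If `f ∈ KK T`, then also `dop Jm f ∈ KK T` (differentiate in `θ`, `opg_clm` for `opg_rot`). -/
theorem KK_J (T : Isp →L[ℂ] ℂ) (f : Isp) (h : f ∈ KK T) : dop Jm f ∈ KK T := by
  intro θ
  have h1 := opg_clm opg_rot f T θ
  have h2 : (fun t => T (act (rot t) f)) = fun _ => (0 : ℂ) := by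
    funext t
    exact h t
  rw [h2] at h1
  exact h1.unique (hasDerivAt_const θ (0 : ℂ))

theorem invvn_step (T : Isp →L[ℂ] ℂ) (p : ℝ × ℝ) (f : Isp) (hf : f ∈ KK T)
    (h : ∀ s θ : ℝ, T (D 0 2 (act (rot θ) (act (vn (s • p)) f))) = 0 ∧
      T (D 1 2 (act (rot θ) (act (vn (s • p)) f))) = 0) (s : ℝ) :
    act (vn (s • p)) f ∈ KK T := by
  intro θ
  have h1 : ∀ s : ℝ, HasDerivAt (fun s : ℝ => T (act (rot θ) (act (vn (s • p)) f))) 0 s := by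
    intro s
    have h2 := hasDeriv_vn 0 p f T θ s
    rw [(h s θ).1, (h s θ).2, mul_zero, mul_zero, add_zero] at h2
    exact h2
  have h3 := is_const_of_deriv_eq_zero (fun s => (h1 s).differentiableAt)
    (fun s => (h1 s).deriv) s 0
  rw [h3, zero_smul, vn_zero, act_one]
  exact hf θ

/-- The values on `J`. -/
theorem invvn_J {T : Isp →L[ℂ] ℂ} {g : Isp} (h : g ∈ KK T) (θ : ℝ) :
    T (dop Jm (act (rot θ) g)) = 0 := by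
  rw [← invvn_rot_J]
  exact KK_J T g h θ

theorem invvn_JJ {T : Isp →L[ℂ] ℂ} {g : Isp} (h : g ∈ KK T) (θ : ℝ) :
    T (dop Jm (dop Jm (act (rot θ) g))) = 0 := by
  rw [← invvn_rot_J, ← invvn_rot_J]
  exact KK_J T _ (KK_J T g h) θ

theorem invvn_c1 (ν : ℝ) (p : ℝ × ℝ) (f : Isp) (hf : f ∈ KK (cc ν 1)) (s : ℝ) :
    act (vn (s • p)) f ∈ KK (cc ν 1) := by
  refine invvn_step _ p f hf (fun s θ => ⟨?_, ?_⟩) s
  · exact (q_D02 ν 1 _ (Or.inl rfl)).1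
  · rw [(q_D12 ν 1 _ (Or.inl rfl)).1]
    simp

theorem invvn_c2 (ν : ℝ) (p : ℝ × ℝ) (f : Isp) (hf : f ∈ KK (cc ν 2))
    (h1 : ∀ s : ℝ, act (vn (s • p)) f ∈ KK (cc ν 1)) (s : ℝ) :
    act (vn (s • p)) f ∈ KK (cc ν 2) := by
  refine invvn_step _ p f hf (fun s θ => ⟨?_, ?_⟩) s
  · exact (q_D02 ν 2 _ (Or.inr rfl)).1
  · rw [(q_D12 ν 2 _ (Or.inr rfl)).1, if_pos rfl, h1 s θ, neg_zero]

theorem invvn_d1 (ν : ℝ) (p : ℝ × ℝ) (f : Isp) (hf : f ∈ KK (dd ν 1))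
    (h1 : ∀ s : ℝ, act (vn (s • p)) f ∈ KK (cc ν 1)) (s : ℝ) :
    act (vn (s • p)) f ∈ KK (dd ν 1) := by
  refine invvn_step _ p f hf (fun s θ => ⟨?_, ?_⟩) s
  · rw [(q_D02 ν 1 _ (Or.inl rfl)).2.1]
    simp
  · rw [(q_D12 ν 1 _ (Or.inl rfl)).2.1, invvn_J (h1 s) θ]
    simp

theorem invvn_d2 (ν : ℝ) (p : ℝ × ℝ) (f : Isp) (hf : f ∈ KK (dd ν 2))
    (h1 : ∀ s : ℝ, act (vn (s • p)) f ∈ KK (cc ν 2))
    (h2 : ∀ s : ℝ, act (vn (s • p)) f ∈ KK (dd ν 1)) (s : ℝ) :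
    act (vn (s • p)) f ∈ KK (dd ν 2) := by
  refine invvn_step _ p f hf (fun s θ => ⟨?_, ?_⟩) s
  · rw [(q_D02 ν 2 _ (Or.inr rfl)).2.1, if_pos rfl, h1 s θ]
  · rw [(q_D12 ν 2 _ (Or.inr rfl)).2.1, if_pos rfl, invvn_J (h1 s) θ, h2 s θ, sub_zero]

theorem invvn_e1 (ν : ℝ) (p : ℝ × ℝ) (f : Isp) (hf : f ∈ KK (ee ν 1))
    (h1 : ∀ s : ℝ, act (vn (s • p)) f ∈ KK (cc ν 2))
    (h2 : ∀ s : ℝ, act (vn (s • p)) f ∈ KK (dd ν 1)) (s : ℝ) :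
    act (vn (s • p)) f ∈ KK (ee ν 1) := by
  refine invvn_step _ p f hf (fun s θ => ⟨?_, ?_⟩) s
  · rw [(q_D02 ν 1 _ (Or.inl rfl)).2.2, h2 s θ]
    simp
  · rw [(q_D12 ν 1 _ (Or.inl rfl)).2.2, if_pos rfl, invvn_J (h2 s) θ, h1 s θ]
    simp

theorem invvn_e2 (ν : ℝ) (p : ℝ × ℝ) (f : Isp) (hf : f ∈ KK (ee ν 2))
    (h1 : ∀ s : ℝ, act (vn (s • p)) f ∈ KK (dd ν 2))
    (h2 : ∀ s : ℝ, act (vn (s • p)) f ∈ KK (ee ν 1)) (s : ℝ) :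
    act (vn (s • p)) f ∈ KK (ee ν 2) := by
  refine invvn_step _ p f hf (fun s θ => ⟨?_, ?_⟩) s
  · rw [(q_D02 ν 2 _ (Or.inr rfl)).2.2, if_pos rfl, h1 s θ, add_zero]
  · rw [(q_D12 ν 2 _ (Or.inr rfl)).2.2, if_pos rfl, invvn_J (h1 s) θ, h2 s θ]
    simp

theorem invvn_J02 (g : Isp) : dop Jm (D 0 2 g) = D 0 2 (dop Jm g) + D 1 2 g := by
  have h : Jm * Eij 0 2 - Eij 0 2 * Jm = Eij 1 2 := by
    rw [invvn_Jm, invvn_E02, invvn_E12]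
    ext i j
    fin_cases i <;> fin_cases j <;> simp
  unfold D
  rw [dop_bracket, h]

theorem invvn_J12 (g : Isp) : dop Jm (D 1 2 g) = D 1 2 (dop Jm g) - D 0 2 g := by
  have h : Jm * Eij 1 2 - Eij 1 2 * Jm = (-1 : ℝ) • Eij 0 2 := by
    rw [invvn_Jm, invvn_E02, invvn_E12]
    ext i j
    fin_cases i <;> fin_cases j <;> simp
  unfold D
  rw [dop_bracket, h, dop_smul]
  simp [sub_eq_add_neg]

theorem invvn_lD (ν : ℝ) (p : ℝ × ℝ) (f : Isp) (hf : f ∈ KK (lD ν))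
    (h1 : ∀ s : ℝ, act (vn (s • p)) f ∈ KK (cc ν 2)) (s : ℝ) :
    act (vn (s • p)) f ∈ KK (lD ν) := by
  refine invvn_step _ p f hf (fun s θ => ⟨?_, ?_⟩) s
  · rw [lD_eq, invvn_J02, map_add, (q_D02 ν 1 _ (Or.inl rfl)).2.2,
      (q_D02 ν 2 _ (Or.inr rfl)).2.1, (q_D12 ν 2 _ (Or.inr rfl)).2.1, if_pos rfl, if_pos rfl,
      invvn_J (h1 s) θ]
    simp
  · rw [lD_eq, invvn_J12, map_sub, (q_D12 ν 1 _ (Or.inl rfl)).2.2,
      (q_D12 ν 2 _ (Or.inr rfl)).2.1, (q_D02 ν 2 _ (Or.inr rfl)).2.1, if_pos rfl, if_pos rfl,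
      if_pos rfl, invvn_JJ (h1 s) θ, h1 s θ]
    simp

theorem invvn_main (ν : ℝ) (i : Fin 9) (p : ℝ × ℝ) (f : Isp) (hf : f ∈ Sp ν i) (s : ℝ) :
    act (vn (s • p)) f ∈ Sp ν i := by
  fin_cases i
  · obtain ⟨⟨⟨⟨⟨h0, h1⟩, h2⟩, h3⟩, h4⟩, h5⟩ := hf
    have k0 := invvn_c1 ν p f h0
    have k1 := invvn_c2 ν p f h1 k0
    have k2 := invvn_d1 ν p f h2 k0
    have k3 := invvn_d2 ν p f h3 k1 k2
    have k4 := invvn_e1 ν p f h4 k1 k2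
    have k5 := invvn_e2 ν p f h5 k3 k4
    exact ⟨⟨⟨⟨⟨k0 s, k1 s⟩, k2 s⟩, k3 s⟩, k4 s⟩, k5 s⟩
  · obtain ⟨⟨⟨⟨h0, h1⟩, h2⟩, h3⟩, h4⟩ := hf
    have k0 := invvn_c1 ν p f h0
    have k1 := invvn_c2 ν p f h1 k0
    have k2 := invvn_d1 ν p f h2 k0
    have k3 := invvn_d2 ν p f h3 k1 k2
    have k4 := invvn_e1 ν p f h4 k1 k2
    exact ⟨⟨⟨⟨k0 s, k1 s⟩, k2 s⟩, k3 s⟩, k4 s⟩
  · obtain ⟨⟨⟨h0, h1⟩, h2⟩, h3⟩ := hf
    have k0 := invvn_c1 ν p f h0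
    have k1 := invvn_c2 ν p f h1 k0
    have k2 := invvn_d1 ν p f h2 k0
    have k3 := invvn_d2 ν p f h3 k1 k2
    exact ⟨⟨⟨k0 s, k1 s⟩, k2 s⟩, k3 s⟩
  · obtain ⟨⟨⟨h0, h1⟩, h2⟩, h3⟩ := hf
    have k0 := invvn_c1 ν p f h0
    have k1 := invvn_c2 ν p f h1 k0
    have k2 := invvn_d1 ν p f h2 k0
    have k3 := invvn_lD ν p f h3 k1
    exact ⟨⟨⟨k0 s, k1 s⟩, k2 s⟩, k3 s⟩
  · obtain ⟨⟨h0, h1⟩, h2⟩ := hf
    have k0 := invvn_c1 ν p f h0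
    have k1 := invvn_c2 ν p f h1 k0
    have k2 := invvn_d1 ν p f h2 k0
    exact ⟨⟨k0 s, k1 s⟩, k2 s⟩
  · obtain ⟨⟨h0, h1⟩, h2⟩ := hf
    have k0 := invvn_c1 ν p f h0
    have k1 := invvn_c2 ν p f h1 k0
    have k2 := invvn_lD ν p f h2 k1
    exact ⟨⟨k0 s, k1 s⟩, k2 s⟩
  · obtain ⟨h0, h1⟩ := hf
    have k0 := invvn_c1 ν p f h0
    have k1 := invvn_c2 ν p f h1 k0
    exact ⟨k0 s, k1 s⟩
  · exact invvn_c1 ν p f hf s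
  · exact Submodule.mem_top

theorem Sp_inv_vn (ν : ℝ) (i : Fin 9) (p : ℝ × ℝ) : ∀ f ∈ Sp ν i, act (vn p) f ∈ Sp ν i := by
  intro f hf
  have h := invvn_main ν i p f hf 1
  rwa [one_smul] at h

end SoCo
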