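import Pool.Agent.H.MP_0f3f77_al.InvTri
import Pool.Agent.H.MP_0f3f77_al.InvVn

/-!
The nine subspaces are invariant under `M_3`; see the explanation in `Subs`.
-/

open scoped Topology ContDiff
open MeasureTheory

noncomputable section

namespace SoCo

theorem inv_KK_rot (T : Isp →L[ℂ] ℂ) (θ : ℝ) (f : Isp) (h : f ∈ KK T) :
    act (rot θ) f ∈ KK T := by
  intro φ
  rw [← act_mul, ← rot_add]
  exact h (φ + θ)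

theorem inv_Sp_rot (ν : ℝ) (i : Fin 9) (θ : ℝ) (f : Isp) (hf : f ∈ Sp ν i) :
    act (rot θ) f ∈ Sp ν i := by
  fin_cases i
  · obtain ⟨⟨⟨⟨⟨h0, h1⟩, h2⟩, h3⟩, h4⟩, h5⟩ := hf
    exact ⟨⟨⟨⟨⟨inv_KK_rot _ θ f h0, inv_KK_rot _ θ f h1⟩, inv_KK_rot _ θ f h2⟩,
      inv_KK_rot _ θ f h3⟩, inv_KK_rot _ θ f h4⟩, inv_KK_rot _ θ f h5⟩
  · obtain ⟨⟨⟨⟨h0, h1⟩, h2⟩, h3⟩, h4⟩ := hf
    exact ⟨⟨⟨⟨inv_KK_rot _ θ f h0, inv_KK_rot _ θ f h1⟩, inv_KK_rot _ θ f h2⟩,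
      inv_KK_rot _ θ f h3⟩, inv_KK_rot _ θ f h4⟩
  · obtain ⟨⟨⟨h0, h1⟩, h2⟩, h3⟩ := hf
    exact ⟨⟨⟨inv_KK_rot _ θ f h0, inv_KK_rot _ θ f h1⟩, inv_KK_rot _ θ f h2⟩,
      inv_KK_rot _ θ f h3⟩
  · obtain ⟨⟨⟨h0, h1⟩, h2⟩, h3⟩ := hf
    exact ⟨⟨⟨inv_KK_rot _ θ f h0, inv_KK_rot _ θ f h1⟩, inv_KK_rot _ θ f h2⟩,
      inv_KK_rot _ θ f h3⟩
  · obtain ⟨⟨h0, h1⟩, h2⟩ := hf
    exact ⟨⟨inv_KK_rot _ θ f h0, inv_KK_rot _ θ f h1⟩, inv_KK_rot _ θ f h2⟩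
  · obtain ⟨⟨h0, h1⟩, h2⟩ := hf
    exact ⟨⟨inv_KK_rot _ θ f h0, inv_KK_rot _ θ f h1⟩, inv_KK_rot _ θ f h2⟩
  · obtain ⟨h0, h1⟩ := hf
    exact ⟨inv_KK_rot _ θ f h0, inv_KK_rot _ θ f h1⟩
  · exact inv_KK_rot _ θ f hf
  · exact Submodule.mem_top

theorem Sp_inv (ν : ℝ) (i : Fin 9) : M3inv (Sp ν i) := by
  intro g hg f hf
  obtain ⟨s, t, hs, ht, r, θ, h⟩ := m3_decomp g hg
  have h2 : act g f = act (vn ((g : Mat) 0 2, (g : Mat) 1 2))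
      (act (dg s 1 hs one_ne_zero * (dg 1 t one_ne_zero ht * up r)) (act (rot θ) f)) := by
    rw [← act_mul, ← act_mul]
    simp only [mul_assoc]
    exact congrArg (fun x => act x f) h
  rw [h2]
  exact Sp_inv_vn ν i _ _ (Sp_inv_tri ν i s t hs ht r _ (inv_Sp_rot ν i θ f hf))

end SoCo
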