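import Pool.Agent.H.MP_0f3f77_al.M3Decomp

/-!
The nine subspaces are invariant under `M_3`; see the explanation in `Subs`.
-/

open scoped Topology ContDiff
open MeasureTheory

noncomputable section

namespace SoCo

theorem invtri_mat (θ s t : ℝ) (hs : s ≠ 0) (ht : t ≠ 0) (r : ℝ) :
    ((rot θ * (dg s 1 hs one_ne_zero * (dg 1 t one_ne_zero ht * up r)) : GL (Fin 4) ℝ) : Mat) =
      !![Real.cos θ * s, Real.cos θ * (s * r) - Real.sin θ * t, 0, 0;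
        Real.sin θ * s, Real.sin θ * (s * r) + Real.cos θ * t, 0, 0; 0, 0, 1, 0; 0, 0, 0, 1] := by
  change rotM θ * (dgM s 1 * (dgM 1 t * upM r)) = _
  ext i j
  fin_cases i <;> fin_cases j <;>
    simp [rotM, dgM, upM, Matrix.mul_apply, Fin.sum_univ_four] <;> ring

/-- `R_θ b = b' R_θ'`. -/
theorem invtri_decomp (θ s t : ℝ) (hs : s ≠ 0) (ht : t ≠ 0) (r : ℝ) :
    ∃ (s' t' : ℝ) (hs' : s' ≠ 0) (ht' : t' ≠ 0) (r' θ' : ℝ),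
      rot θ * (dg s 1 hs one_ne_zero * (dg 1 t one_ne_zero ht * up r)) =
        dg s' 1 hs' one_ne_zero * (dg 1 t' one_ne_zero ht' * up r') * rot θ' := by
  obtain ⟨s', t', hs', ht', r', θ', h⟩ := m3_decomp
    (rot θ * (dg s 1 hs one_ne_zero * (dg 1 t one_ne_zero ht * up r))) (by
      intro i j hij
      rw [invtri_mat]
      fin_cases i <;> fin_cases j <;> simp at hij ⊢)
  refine ⟨s', t', hs', ht', r', θ', ?_⟩
  have h2 : ((((rot θ * (dg s 1 hs one_ne_zero * (dg 1 t one_ne_zero ht * up r)) :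
      GL (Fin 4) ℝ) : Mat) 0 2, ((rot θ * (dg s 1 hs one_ne_zero *
      (dg 1 t one_ne_zero ht * up r)) : GL (Fin 4) ℝ) : Mat) 1 2) : ℝ × ℝ) = 0 := by
    rw [invtri_mat]
    rfl
  rw [h2, vn_zero, one_mul] at h
  rw [h]
  simp only [mul_assoc]

variable (ν : ℝ) (s t : ℝ) (hs : s ≠ 0) (ht : t ≠ 0) (r : ℝ) (f : Isp)

theorem invtri_c1 (h : cc ν 1 f = 0) :
    cc ν 1 (act (dg s 1 hs one_ne_zero * (dg 1 t one_ne_zero ht * up r)) f) = 0 := by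
  rw [act_mul, act_mul, (q_dg0 ν s hs 1 (Or.inl rfl) _).1, (q_dg1 ν t ht 1 (Or.inl rfl) _).1,
    (q_up ν r f).1, h, mul_zero, mul_zero]

theorem invtri_c2 (h : cc ν 2 f = 0) :
    cc ν 2 (act (dg s 1 hs one_ne_zero * (dg 1 t one_ne_zero ht * up r)) f) = 0 := by
  rw [act_mul, act_mul, (q_dg0 ν s hs 2 (Or.inr rfl) _).1, (q_dg1 ν t ht 2 (Or.inr rfl) _).1,
    (q_up ν r f).2.1, h, mul_zero, mul_zero]

theorem invtri_d1 (h : dd ν 1 f = 0) (h' : cc ν 2 f = 0) :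
    dd ν 1 (act (dg s 1 hs one_ne_zero * (dg 1 t one_ne_zero ht * up r)) f) = 0 := by
  rw [act_mul, act_mul, (q_dg0 ν s hs 1 (Or.inl rfl) _).2.1,
    (q_dg1 ν t ht 1 (Or.inl rfl) _).2.1, (q_up ν r f).2.2.1, h, h', mul_zero, add_zero,
    mul_zero, mul_zero]

theorem invtri_d2 (h : dd ν 2 f = 0) :
    dd ν 2 (act (dg s 1 hs one_ne_zero * (dg 1 t one_ne_zero ht * up r)) f) = 0 := by
  rw [act_mul, act_mul, (q_dg0 ν s hs 2 (Or.inr rfl) _).2.1,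
    (q_dg1 ν t ht 2 (Or.inr rfl) _).2.1, (q_up ν r f).2.2.2.1, h, mul_zero, mul_zero]

theorem invtri_e1 (h : ee ν 1 f = 0) (h' : dd ν 2 f = 0) :
    ee ν 1 (act (dg s 1 hs one_ne_zero * (dg 1 t one_ne_zero ht * up r)) f) = 0 := by
  rw [act_mul, act_mul, (q_dg0 ν s hs 1 (Or.inl rfl) _).2.2,
    (q_dg1 ν t ht 1 (Or.inl rfl) _).2.2, (q_up ν r f).2.2.2.2.1, h, h', mul_zero, add_zero,
    mul_zero, mul_zero]

theorem invtri_e2 (h : ee ν 2 f = 0) :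
    ee ν 2 (act (dg s 1 hs one_ne_zero * (dg 1 t one_ne_zero ht * up r)) f) = 0 := by
  rw [act_mul, act_mul, (q_dg0 ν s hs 2 (Or.inr rfl) _).2.2,
    (q_dg1 ν t ht 2 (Or.inr rfl) _).2.2, (q_up ν r f).2.2.2.2.2, h, mul_zero, mul_zero]

theorem invtri_lD (h : lD ν f = 0) :
    lD ν (act (dg s 1 hs one_ne_zero * (dg 1 t one_ne_zero ht * up r)) f) = 0 := by
  rw [act_mul, act_mul, lD_dg0 ν s hs, lD_dg1 ν t ht, lD_up ν r, h, mul_zero, mul_zero]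

/-- The general principle. -/
theorem invtri_KK (T : Isp →L[ℂ] ℂ)
    (h : ∀ (s t : ℝ) (hs : s ≠ 0) (ht : t ≠ 0) (r θ : ℝ),
      T (act (dg s 1 hs one_ne_zero * (dg 1 t one_ne_zero ht * up r)) (act (rot θ) f)) = 0) :
    act (dg s 1 hs one_ne_zero * (dg 1 t one_ne_zero ht * up r)) f ∈ KK T := by
  intro θ
  obtain ⟨s', t', hs', ht', r', θ', h1⟩ := invtri_decomp θ s t hs ht r
  rw [← act_mul, h1, act_mul]
  exact h s' t' hs' ht' r' θ'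

/-- Upper triangular part.  See `Subs`, (1). -/
theorem Sp_inv_tri (ν : ℝ) (i : Fin 9) (s t : ℝ) (hs : s ≠ 0) (ht : t ≠ 0) (r : ℝ) :
    ∀ f ∈ Sp ν i, act (dg s 1 hs one_ne_zero * (dg 1 t one_ne_zero ht * up r)) f ∈ Sp ν i := by
  intro f hf
  have hc1 : f ∈ KK (cc ν 1) →
      act (dg s 1 hs one_ne_zero * (dg 1 t one_ne_zero ht * up r)) f ∈ KK (cc ν 1) :=
    fun h => invtri_KK s t hs ht r f _ fun s t hs ht r θ => invtri_c1 ν s t hs ht r _ (h θ)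
  have hc2 : f ∈ KK (cc ν 2) →
      act (dg s 1 hs one_ne_zero * (dg 1 t one_ne_zero ht * up r)) f ∈ KK (cc ν 2) :=
    fun h => invtri_KK s t hs ht r f _ fun s t hs ht r θ => invtri_c2 ν s t hs ht r _ (h θ)
  have hd1 : f ∈ KK (dd ν 1) → f ∈ KK (cc ν 2) →
      act (dg s 1 hs one_ne_zero * (dg 1 t one_ne_zero ht * up r)) f ∈ KK (dd ν 1) :=
    fun h h' => invtri_KK s t hs ht r f _ fun s t hs ht r θ =>
      invtri_d1 ν s t hs ht r _ (h θ) (h' θ)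
  have hd2 : f ∈ KK (dd ν 2) →
      act (dg s 1 hs one_ne_zero * (dg 1 t one_ne_zero ht * up r)) f ∈ KK (dd ν 2) :=
    fun h => invtri_KK s t hs ht r f _ fun s t hs ht r θ => invtri_d2 ν s t hs ht r _ (h θ)
  have he1 : f ∈ KK (ee ν 1) → f ∈ KK (dd ν 2) →
      act (dg s 1 hs one_ne_zero * (dg 1 t one_ne_zero ht * up r)) f ∈ KK (ee ν 1) :=
    fun h h' => invtri_KK s t hs ht r f _ fun s t hs ht r θ =>
      invtri_e1 ν s t hs ht r _ (h θ) (h' θ)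
  have he2 : f ∈ KK (ee ν 2) →
      act (dg s 1 hs one_ne_zero * (dg 1 t one_ne_zero ht * up r)) f ∈ KK (ee ν 2) :=
    fun h => invtri_KK s t hs ht r f _ fun s t hs ht r θ => invtri_e2 ν s t hs ht r _ (h θ)
  have hlD : f ∈ KK (lD ν) →
      act (dg s 1 hs one_ne_zero * (dg 1 t one_ne_zero ht * up r)) f ∈ KK (lD ν) :=
    fun h => invtri_KK s t hs ht r f _ fun s t hs ht r θ => invtri_lD ν s t hs ht r _ (h θ)
  fin_cases i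
  · obtain ⟨⟨⟨⟨⟨h0, h1⟩, h2⟩, h3⟩, h4⟩, h5⟩ := hf
    exact ⟨⟨⟨⟨⟨hc1 h0, hc2 h1⟩, hd1 h2 h1⟩, hd2 h3⟩, he1 h4 h3⟩, he2 h5⟩
  · obtain ⟨⟨⟨⟨h0, h1⟩, h2⟩, h3⟩, h4⟩ := hf
    exact ⟨⟨⟨⟨hc1 h0, hc2 h1⟩, hd1 h2 h1⟩, hd2 h3⟩, he1 h4 h3⟩
  · obtain ⟨⟨⟨h0, h1⟩, h2⟩, h3⟩ := hf
    exact ⟨⟨⟨hc1 h0, hc2 h1⟩, hd1 h2 h1⟩, hd2 h3⟩
  · obtain ⟨⟨⟨h0, h1⟩, h2⟩, h3⟩ := hf
    exact ⟨⟨⟨hc1 h0, hc2 h1⟩, hd1 h2 h1⟩, hlD h3⟩
  · obtain ⟨⟨h0, h1⟩, h2⟩ := hf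
    exact ⟨⟨hc1 h0, hc2 h1⟩, hd1 h2 h1⟩
  · obtain ⟨⟨h0, h1⟩, h2⟩ := hf
    exact ⟨⟨hc1 h0, hc2 h1⟩, hlD h2⟩
  · obtain ⟨h0, h1⟩ := hf
    exact ⟨hc1 h0, hc2 h1⟩
  · exact hc1 hf
  · exact Submodule.mem_top

end SoCo
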