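import Pool.Agent.H.MP_0f3f77_al.Rep

/-!
`piR` is irreducible.

Proof.  `IsIrred piR` is `Covers piR ⊥ ⊤`.  `⊥` is closed (`T2Space`: `piR.V` embeds in the Hausdorff
space `Isp` by `toI`) and invariant, `⊤` too; `⊥ < ⊤` because `PiS ≠ ⊥` (`PiS_ne`).
If `X` is a closed invariant submodule of `piR.V`, its image `σ = X.map toI` in `Isp` is closed
(`PiS` is closed, `isClosed_PiS`, `toI` is a closed embedding) and `Ginv` (`toI_act`).  If `X ≠ ⊥`
then `σ ≠ ⊥`, so `PiS ≤ σ` by `PiS_min`, hence `X = ⊤`.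
-/

open scoped Topology ContDiff
open MeasureTheory

noncomputable section

namespace SoCo

theorem irredpi_isClosedEmbedding_toI : Topology.IsClosedEmbedding toI := by
  refine ⟨toI_emb, ?_⟩
  have h : Set.range toI = (PiS : Set Isp) := by
    ext f
    constructor
    · rintro ⟨v, rfl⟩
      exact toI_mem v
    · intro hf
      exact toI_surj f hf
  rw [h]
  exact isClosed_PiS

theorem irredpi_t2 : T2Space piR.V := toI_emb.t2Space

theorem irredpi_isSub_bot : IsSub piR ⊥ := by
  have := irredpi_t2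
  refine ⟨?_, ?_⟩
  · rw [Submodule.bot_coe]
    exact isClosed_singleton
  · intro g v hv
    rw [Submodule.mem_bot] at hv ⊢
    rw [hv, map_zero]

theorem irredpi_isSub_top : IsSub piR ⊤ := by
  refine ⟨?_, ?_⟩
  · rw [Submodule.top_coe]
    exact isClosed_univ
  · intro g v _
    exact Submodule.mem_top

theorem irredpi_bot_lt_top : (⊥ : Submodule ℂ piR.V) < ⊤ := by
  rw [bot_lt_iff_ne_bot]
  intro h
  apply PiS_ne
  rw [Submodule.eq_bot_iff]
  intro f hf
  obtain ⟨v, rfl⟩ := toI_surj f hf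
  have hv : v ∈ (⊤ : Submodule ℂ piR.V) := Submodule.mem_top
  rw [h, Submodule.mem_bot] at hv
  rw [hv, map_zero]

theorem isIrred_piR : IsIrred piR := by
  refine ⟨irredpi_isSub_bot, irredpi_isSub_top, irredpi_bot_lt_top, ?_⟩
  intro X hX _ _
  by_cases hb : X = ⊥
  · exact Or.inl hb
  · right
    let σ : Submodule ℂ Isp := X.map (toI : piR.V →ₗ[ℂ] Isp)
    have hmem : ∀ f : Isp, f ∈ σ ↔ ∃ v ∈ X, toI v = f := by
      intro f
      exact Submodule.mem_map
    have hc : IsClosed (σ : Set Isp) := by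
      have h1 : (σ : Set Isp) = toI '' (X : Set piR.V) := by
        ext f
        exact hmem f
      rw [h1]
      exact irredpi_isClosedEmbedding_toI.isClosedMap _ hX.1
    have hg : Ginv σ := by
      intro g f hf
      obtain ⟨v, hv, rfl⟩ := (hmem f).1 hf
      rw [← toI_act]
      exact (hmem _).2 ⟨_, hX.2 g v hv, rfl⟩
    have hne : σ ≠ ⊥ := by
      intro h
      apply hb
      rw [Submodule.eq_bot_iff]
      intro v hv
      have h2 : toI v ∈ σ := (hmem _).2 ⟨v, hv, rfl⟩
      rw [h, Submodule.mem_bot] at h2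
      apply toI_inj
      rw [h2, map_zero]
    have hle := PiS_min σ hc hg hne
    rw [eq_top_iff]
    intro v _
    obtain ⟨w, hw, hwv⟩ := (hmem _).1 (hle (toI_mem v))
    rw [← toI_inj hwv]
    exact hw

end SoCo
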