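import Pool.Agent.H.MP_0f3f77_al.Complete

/-!
Integrals of continuous functions with values in `Isp`.

Existence (`exists_isum`), proof.  Let `Z n = ∫ u, iota n (Φ u) ∂μ` in the Banach space `Bn n`
(the integrand is continuous, hence strongly measurable, and its norm is integrable).
Let `S` be a closed submodule of `Isp` containing all `Φ u`.
`Z n` lies in the closure of `iota n '' S` (the integral of a function with values in the closed
real subspace `closure (iota n '' S)`: e.g. `integral_mem` for closed convex sets in the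
probability case, or: if not, a continuous real-linear (complex-linear) functional vanishes on
that closed subspace but not at `Z n`, `geometric_hahn_banach`, contradiction with
`ContinuousLinearMap.integral_comp_comm`).
For each `n` choose `F n ∈ S` with `‖iota n (F n) - Z n‖ < 1 / (n + 1)`.  The restriction map
`Bn m → Bn n` for `n ≤ m` (forget the higher components) is a continuous linear map of norm ≤ 1
taking `iota m f` to `iota n f` and `Z m` to `Z n` (`ContinuousLinearMap.integral_comp_comm`).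
So `pn n (F k - F l) ≤ 1/(k+1) + 1/(l+1)` for `k, l ≥ n`: the sequence is Cauchy; by
`complete_Isp` it converges to some `f : Isp`, which lies in `S` (closed, `tendsto_iff`), and
`iota n f = lim iota n (F k) = Z n`.
-/

open scoped Topology ContDiff
open MeasureTheory

noncomputable section

namespace SoCo

variable {P : Type} [TopologicalSpace P] [SecondCountableTopology P] [MeasurableSpace P]
  [BorelSpace P]

/-- Continuous functions with integrable seminorms. -/
structure Ig (μ : Measure P) (Φ : P → Isp) : Prop where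
  cont : Continuous Φ
  int : ∀ n, Integrable (fun u => pn n (Φ u)) μ



section gen

variable {B B' : Type} [NormedAddCommGroup B] [NormedSpace ℂ B] [NormedSpace ℝ B]
  [CompleteSpace B]
  [NormedAddCommGroup B'] [NormedSpace ℂ B'] [NormedSpace ℝ B'] [CompleteSpace B']

/-- integrability in a normed space -/
def IntG {B : Type} [NormedAddCommGroup B] (μ : Measure P) (g : P → B) : Prop :=
  Integrable g μ

omit [NormedSpace ℂ B] [NormedSpace ℝ B] [CompleteSpace B] in
theorem isumG_int (μ : Measure P) (Φ : P → Isp) (hc : Continuous Φ) (L : Isp → B)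
    (hL : Continuous L) (hi : Integrable (fun u => ‖L (Φ u)‖) μ) :
    IntG μ (fun u => L (Φ u)) :=
  (integrable_norm_iff (hL.comp hc).aestronglyMeasurable).1 hi

/-- the integral lies in the closure of the image of a submodule -/
theorem isumG_closure (μ : Measure P) (Φ : P → Isp) (hc : Continuous Φ) (L : Isp →ₗ[ℂ] B)
    (hL : Continuous L) (hi : Integrable (fun u => ‖L (Φ u)‖) μ) (S : Submodule ℂ Isp)
    (hΦ : ∀ u, Φ u ∈ S) (ε : ℝ) (hε : 0 < ε) :
    ∃ F : Isp, F ∈ S ∧ ‖L F - ∫ u, L (Φ u) ∂μ‖ < ε := by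
  let T : Submodule ℂ B := (S.map L).topologicalClosure
  have hTc : IsClosed (T : Set B) := (S.map L).isClosed_topologicalClosure
  have : CompleteSpace T := hTc.completeSpace_coe
  have hmem : ∀ u, L (Φ u) ∈ T := fun u =>
    (S.map L).le_topologicalClosure ⟨Φ u, hΦ u, rfl⟩
  let Ψ : P → T := fun u => ⟨L (Φ u), hmem u⟩
  have hcont : Continuous Ψ := (hL.comp hc).subtype_mk _
  have hint : Integrable Ψ μ := (integrable_norm_iff hcont.aestronglyMeasurable).1 hi
  have h1 := (T.subtypeL).integral_comp_comm hint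
  have h2 : (∫ u, L (Φ u) ∂μ) = T.subtypeL (∫ u, Ψ u ∂μ) := h1
  have h3 : (∫ u, L (Φ u) ∂μ) ∈ closure (L '' (S : Set Isp)) := by
    have : (∫ u, L (Φ u) ∂μ) ∈ T := by
      rw [h2]
      exact (∫ u, Ψ u ∂μ).2
    exact this
  obtain ⟨_, ⟨F, hFS, rfl⟩, hd⟩ := Metric.mem_closure_iff.1 h3 ε hε
  refine ⟨F, hFS, ?_⟩
  rwa [dist_comm, dist_eq_norm] at hd

omit [TopologicalSpace P] [SecondCountableTopology P] [BorelSpace P] in
theorem isumG_comp (μ : Measure P) (g : P → B) (hg : IntG μ g) (R : B →ₗ[ℂ] B')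
    (hR : ∀ x, ‖R x‖ ≤ ‖x‖) : R (∫ u, g u ∂μ) = ∫ u, R (g u) ∂μ := by
  let R' : B →L[ℂ] B' := LinearMap.mkContinuous R 1 (fun x => by rw [one_mul]; exact hR x)
  exact (R'.integral_comp_comm hg).symm

omit [NormedSpace ℂ B] [NormedSpace ℝ B] [CompleteSpace B] in
theorem isumG_unique (a : ℕ → B) (x y : B)
    (hx : Filter.Tendsto (fun k => ‖a k - x‖) Filter.atTop (𝓝 0))
    (hy : ∀ ε : ℝ, 0 < ε → ∃ N : ℕ, ∀ k, N ≤ k → ‖a k - y‖ < ε) : x = y := by
  have h1 : Filter.Tendsto a Filter.atTop (𝓝 x) := tendsto_iff_norm_sub_tendsto_zero.2 hx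
  have h3 : Filter.Tendsto a Filter.atTop (𝓝 y) := by
    rw [Metric.tendsto_atTop]
    intro ε hε
    obtain ⟨N, hN⟩ := hy ε hε
    refine ⟨N, fun k hk => ?_⟩
    rw [dist_eq_norm]
    exact hN k hk
  exact tendsto_nhds_unique h1 h3

/-- the integral in a normed space -/
def IntV {B : Type} [NormedAddCommGroup B] [NormedSpace ℝ B] (μ : Measure P) (g : P → B) : B :=
  ∫ u, g u ∂μ

end gen

theorem exists_isumG (B : ℕ → Type) [∀ n, NormedAddCommGroup (B n)] [∀ n, NormedSpace ℂ (B n)]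
    [∀ n, NormedSpace ℝ (B n)] [∀ n, CompleteSpace (B n)] (L : ∀ n, Isp →ₗ[ℂ] B n)
    (hLc : ∀ n, Continuous (L n)) (hpn : ∀ n f, pn n f = ‖L n f‖)
    (R : ∀ n m : ℕ, n ≤ m → (B m →ₗ[ℂ] B n))
    (hR : ∀ n m (hnm : n ≤ m) f, R n m hnm (L m f) = L n f)
    (hRn : ∀ n m (hnm : n ≤ m) x, ‖R n m hnm x‖ ≤ ‖x‖)
    (μ : Measure P) (Φ : P → Isp) (h : Ig μ Φ) (S : Submodule ℂ Isp)
    (hS : IsClosed (S : Set Isp)) (hΦ : ∀ u, Φ u ∈ S) :
    ∃ F : Isp, F ∈ S ∧ ∀ n, L n F = IntV μ (fun u => L n (Φ u)) := by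
  have hi : ∀ n, Integrable (fun u => ‖L n (Φ u)‖) μ := by
    intro n
    have h1 := h.int n
    simp only [hpn] at h1
    exact h1
  have hI : ∀ n, IntG μ (fun u => L n (Φ u)) := fun n =>
    isumG_int μ Φ h.cont (L n) (hLc n) (hi n)
  have hZ : ∀ n m (hnm : n ≤ m), R n m hnm (∫ u, L m (Φ u) ∂μ) = ∫ u, L n (Φ u) ∂μ := by
    intro n m hnm
    rw [isumG_comp μ (fun u => L m (Φ u)) (hI m) (R n m hnm) (hRn n m hnm)]
    simp only [hR]
  have hF : ∀ n : ℕ, ∃ F : Isp, F ∈ S ∧
      ‖L n F - ∫ u, L n (Φ u) ∂μ‖ < 1 / ((n : ℝ) + 1) := fun n =>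
    isumG_closure μ Φ h.cont (L n) (hLc n) (hi n) S hΦ (1 / ((n : ℝ) + 1)) (by positivity)
  choose F hFS hFd using hF
  have hle : ∀ {n k : ℕ}, n ≤ k → ‖L n (F k) - ∫ u, L n (Φ u) ∂μ‖ ≤ 1 / ((k : ℝ) + 1) := by
    intro n k hnk
    have h1 : L n (F k) - ∫ u, L n (Φ u) ∂μ =
        R n k hnk (L k (F k) - ∫ u, L k (Φ u) ∂μ) := by
      rw [map_sub, hZ, hR]
    rw [h1]
    exact (hRn n k hnk _).trans (hFd k).le
  have hlim : ∀ ε : ℝ, 0 < ε → ∃ N : ℕ, ∀ k, N ≤ k → 1 / ((k : ℝ) + 1) < ε := by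
    intro ε hε
    obtain ⟨N, hN⟩ := exists_nat_one_div_lt hε
    refine ⟨N, fun k hk => lt_of_le_of_lt ?_ hN⟩
    have h1 : (N : ℝ) ≤ k := by exact_mod_cast hk
    exact one_div_le_one_div_of_le (by positivity) (by linarith)
  obtain ⟨f, hf⟩ := complete_Isp F (by
    intro n ε hε
    obtain ⟨N, hN⟩ := hlim (ε / 2) (by linarith)
    refine ⟨max N n, fun k l hk hl => ?_⟩
    have hk1 := hle (n := n) (k := k) ((le_max_right N n).trans hk)
    have hl1 := hle (n := n) (k := l) ((le_max_right N n).trans hl)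
    have hk2 := hN k ((le_max_left N n).trans hk)
    have hl2 := hN l ((le_max_left N n).trans hl)
    rw [hpn, map_sub]
    have h1 : L n (F k) - L n (F l) = (L n (F k) - ∫ u, L n (Φ u) ∂μ) -
        (L n (F l) - ∫ u, L n (Φ u) ∂μ) := by abel
    rw [h1]
    have h2 := norm_sub_le (L n (F k) - ∫ u, L n (Φ u) ∂μ)
      (L n (F l) - ∫ u, L n (Φ u) ∂μ)
    linarith)
  refine ⟨f, ?_, fun n => ?_⟩
  · exact hS.mem_of_tendsto ((tendsto_iff F f).2 hf) (Filter.Eventually.of_forall hFS)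
  · refine isumG_unique (fun k => L n (F k)) (L n f) (∫ u, L n (Φ u) ∂μ) ?_ ?_
    · have h2 := hf n
      simp only [hpn, map_sub] at h2
      exact h2
    · intro ε hε
      obtain ⟨N, hN⟩ := hlim ε hε
      exact ⟨max N n, fun k hk =>
        lt_of_le_of_lt (hle ((le_max_right N n).trans hk)) (hN k ((le_max_left N n).trans hk))⟩

/-- forget the higher components -/
def isumR {n m : ℕ} (h : n ≤ m) : Bn m →ₗ[ℂ] Bn n :=
  LinearMap.pi fun j : Fin (n + 1) =>
    (LinearMap.proj (Fin.castLE (Nat.succ_le_succ h) j) :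
      Bn m →ₗ[ℂ] C(Sc, E [×(j : ℕ)]→L[ℝ] Fv))

theorem isumR_iota {n m : ℕ} (h : n ≤ m) (f : Isp) : isumR h (iota m f) = iota n f := rfl

theorem isumR_norm {n m : ℕ} (h : n ≤ m) (x : Bn m) : ‖isumR h x‖ ≤ ‖x‖ := by
  rw [pi_norm_le_iff_of_nonneg (norm_nonneg x)]
  intro j
  exact norm_le_pi_norm x (Fin.castLE (Nat.succ_le_succ h) j)

theorem exists_isum (μ : Measure P) (Φ : P → Isp) (h : Ig μ Φ) (S : Submodule ℂ Isp)
    (hS : IsClosed (S : Set Isp)) (hΦ : ∀ u, Φ u ∈ S) :
    ∃ F : Isp, F ∈ S ∧ ∀ n, iota n F = ∫ u, iota n (Φ u) ∂μ :=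
  exists_isumG Bn iota continuous_iota pn_eq (fun _ _ hnm => isumR hnm)
    (fun _ _ hnm f => isumR_iota hnm f) (fun _ _ hnm x => isumR_norm hnm x) μ Φ h S hS hΦ

open Classical in
/-- The integral of an `Isp`-valued function. -/
def isum (μ : Measure P) (Φ : P → Isp) : Isp :=
  if h : Ig μ Φ then (exists_isum μ Φ h ⊤ isClosed_univ (fun _ => trivial)).choose else 0

theorem iota_isum (μ : Measure P) (Φ : P → Isp) (h : Ig μ Φ) (n : ℕ) :
    iota n (isum μ Φ) = ∫ u, iota n (Φ u) ∂μ := by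
  rw [isum, dif_pos h]
  exact (exists_isum μ Φ h ⊤ isClosed_univ (fun _ => trivial)).choose_spec.2 n

theorem iota_inj (f g : Isp) (h : ∀ n, iota n f = iota n g) : f = g := by
  have h1 : Filter.Tendsto (fun _ : ℕ => f) Filter.atTop (𝓝 g) := by
    rw [tendsto_iff]
    intro n
    have h2 : pn n (f - g) = 0 := by
      rw [pn_eq, map_sub, h n, sub_self]
      exact norm_zero (E := Bn n)
    rw [h2]
    exact tendsto_const_nhds
  exact tendsto_nhds_unique tendsto_const_nhds h1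

theorem isum_mem (μ : Measure P) (Φ : P → Isp) (h : Ig μ Φ) (S : Submodule ℂ Isp)
    (hS : IsClosed (S : Set Isp)) (hΦ : ∀ u, Φ u ∈ S) : isum μ Φ ∈ S := by
  obtain ⟨F, hF, hF2⟩ := exists_isum μ Φ h S hS hΦ
  have : isum μ Φ = F := iota_inj _ _ fun n => by rw [iota_isum μ Φ h, hF2]
  rw [this]; exact hF

end SoCo
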