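import Pool.Agent.H.MP_0f3f77_al.SCont

/-!
The Fourier transform `Jt ν b f` of `η ↦ b η • sact ν η f` and its rapid decay.

`Jt_ibp`, proof.  Evaluate at `x, a, b, i` (`isum_app`).  For the function
`F η = b η * sact ν η f x a b i` (differentiable in the direction `k` everywhere: on `UU ν` by
`sact_deriv`, and `F = 0` near points outside `tsupport b`), integration by parts in the variable
`k` (compact support; e.g. `integral_mul_fderiv_eq_neg_fderiv_mul_of_integrable`, or Fubini and
the one-dimensional version) gives `∫ e^{-iη·u} ∂_k F = i u_k ∫ e^{-iη·u} F`, and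
`∂_k F = (∂_k b) sact ν η f + b * (formula of sact_deriv)`.
So for `k = 0`: `b0 = ∂_0 b`, `b1 = -b/ν`, `b2 = b3 = 0`; `k = 1`: `b0 = ∂_1 b`, `b2 = -b/ν`;
`k = 2`: `b0 = ∂_2 b`, `b1 = b η_1/(ν η_3)`, `b2 = b η_2/(ν η_3)`, `b3 = -b/η_3`
(smooth because `η_3 ≠ 0` on a neighbourhood of the support: `contDiff` from
`contDiffOn` on the open set `UU ν` and vanishing off `tsupport b`).

`Jt_decay`, proof.  Induction on `M` for all `b`.  `M = 0`: `pn_isum_le`, `sact_bound` with
`K = tsupport b`: `pn n (Jt ν b f u) ≤ (∫ |b|) C pn n f`.  Step: `1 + ‖u‖ ≤ 1 + ∑ |u_k|` and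
`|u_k| pn n (Jt ν b f u) = pn n ((i u_k) • Jt ν b f u)` is bounded by `Jt_ibp` and the induction
hypothesis for `b0, ..., b3`, together with `dop_bound` for `D 2 j f`.

`Jt_cont`: `Jt ν b f u - Jt ν b f u' = isum ((e^{-iη·u} - e^{-iη·u'}) b η • sact ν η f)`,
`|e^{-iη·u} - e^{-iη·u'}| ≤ 3 ‖η‖ ‖u - u'‖`, `pn_isum_le`.
-/

open scoped Topology ContDiff
open MeasureTheory

noncomputable section

namespace SoCo

/-- The exponential `e^{-iη·u}`. -/
def ex (u η : R3) : ℂ := Complex.exp (-(Complex.I * (η.1 * u.1 + η.2.1 * u.2.1 + η.2.2 * u.2.2)))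

theorem ig_Jt (ν : ℝ) (b : R3 → ℂ) (hb : CB ν b) (f : Isp) (u : R3) :
    Ig volume (fun η : R3 => (ex u η * b η) • sact ν η f) :=
  ig_bs ν b hb (ex u) (by unfold ex; fun_prop) f

/-- The Fourier transform of `η ↦ b η • sact ν η f`. -/
def Jt (ν : ℝ) (b : R3 → ℂ) (f : Isp) (u : R3) : Isp :=
  isum volume (fun η : R3 => (ex u η * b η) • sact ν η f)

theorem Jt_add (ν : ℝ) (b : R3 → ℂ) (hb : CB ν b) (f g : Isp) (u : R3) :
    Jt ν b (f + g) u = Jt ν b f u + Jt ν b g u := by
  have h := isum_add (ig_Jt ν b hb f u) (ig_Jt ν b hb g u)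
  rw [Jt, Jt, Jt, ← h]
  congr 1
  funext η
  rw [map_add, smul_add]

theorem Jt_smul (ν : ℝ) (b : R3 → ℂ) (hb : CB ν b) (c : ℂ) (f : Isp) (u : R3) :
    Jt ν b (c • f) u = c • Jt ν b f u := by
  have h := isum_smul (ig_Jt ν b hb f u) c
  rw [Jt, Jt, ← h]
  congr 1
  funext η
  rw [map_smul, smul_comm]

theorem jt_norm_ex (u η : R3) : ‖ex u η‖ = 1 := by
  have h : ex u η =
      Complex.exp (((-(η.1 * u.1 + η.2.1 * u.2.1 + η.2.2 * u.2.2) : ℝ) : ℂ) * Complex.I) := by
    rw [ex]
    congr 1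
    push_cast
    ring
  rw [h, Complex.norm_exp_ofReal_mul_I]

theorem Jt_cont (ν : ℝ) (b : R3 → ℂ) (hb : CB ν b) (f : Isp) : Continuous (Jt ν b f) := by
  rw [continuous_iff_continuousAt]
  intro u0
  rw [ContinuousAt, tendsto_iff]
  intro n
  have hI : ∀ u : R3, Ig volume (fun η : R3 => ((ex u η - ex u0 η) * b η) • sact ν η f) :=
    fun u => ig_bs ν b hb (fun η => ex u η - ex u0 η) (by unfold ex; fun_prop) f
  have h1 : Ig volume (fun η : R3 => ((1 : ℂ) * b η) • sact ν η f) :=
    ig_bs ν b hb (fun _ => 1) continuous_const f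
  have hle : ∀ u, pn n (Jt ν b f u - Jt ν b f u0) ≤
      ∫ η, pn n (((ex u η - ex u0 η) * b η) • sact ν η f) := by
    intro u
    have hd : Jt ν b f u - Jt ν b f u0 =
        isum volume (fun η : R3 => ((ex u η - ex u0 η) * b η) • sact ν η f) := by
      rw [sub_eq_iff_eq_add, Jt, Jt, ← isum_add (hI u) (ig_Jt ν b hb f u0)]
      congr 1
      funext η
      rw [← add_smul]
      congr 1
      ring
    rw [hd]
    exact pn_isum_le (hI u) n
  have hlim : Filter.Tendsto
      (fun u : R3 => ∫ η, pn n (((ex u η - ex u0 η) * b η) • sact ν η f)) (𝓝 u0) (𝓝 0) := by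
    have hdom := tendsto_integral_filter_of_dominated_convergence (μ := volume) (l := 𝓝 u0)
      (F := fun (u : R3) (η : R3) => pn n (((ex u η - ex u0 η) * b η) • sact ν η f))
      (f := fun _ => (0 : ℝ)) (fun η => 2 * pn n (((1 : ℂ) * b η) • sact ν η f))
      (Filter.Eventually.of_forall fun u => ((hI u).int n).aestronglyMeasurable)
      (Filter.Eventually.of_forall fun u => Filter.Eventually.of_forall fun η => by
        rw [Real.norm_of_nonneg (apply_nonneg _ _), mul_smul, map_smul_eq_mul, one_mul]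
        have h2 : ‖ex u η - ex u0 η‖ ≤ 2 := by
          refine (norm_sub_le _ _).trans ?_
          rw [jt_norm_ex, jt_norm_ex]
          norm_num
        exact mul_le_mul_of_nonneg_right h2 (apply_nonneg _ _))
      ((h1.int n).const_mul 2)
      (Filter.Eventually.of_forall fun η => by
        have hc : Continuous (fun u : R3 => ‖ex u η - ex u0 η‖ * pn n (b η • sact ν η f)) := by
          unfold ex; fun_prop
        have h3 := hc.tendsto u0
        simp only [sub_self, norm_zero, zero_mul] at h3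
        refine h3.congr fun u => ?_
        rw [mul_smul]
        exact (map_smul_eq_mul (pn n) (ex u η - ex u0 η) (b η • sact ν η f)).symm)
    simpa using hdom
  exact squeeze_zero (fun u => apply_nonneg _ _) hle hlim

theorem Jt_mem (ν : ℝ) (b : R3 → ℂ) (hb : CB ν b) (W : Submodule ℂ Isp)
    (hW : IsClosed (W : Set Isp)) (hg : ∀ g, ∀ f ∈ W, act g f ∈ W) (f : Isp) (hf : f ∈ W)
    (u : R3) : Jt ν b f u ∈ W := by
  refine isum_mem volume _ (ig_Jt ν b hb f u) W hW fun η => ?_
  refine W.smul_mem _ ?_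
  rw [sact]
  split_ifs with h
  · exact hg _ f hf
  · exact W.zero_mem

end SoCo
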