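import Pool.Agent.H.MP_0f3f77_al.JtIbp

/-!
The Fourier transform `Jt ν b f` of `η ↦ b η • sact ν η f` and its rapid decay.

`Jt_ibp`, proof.  Evaluate at `x, a, b, i` (`isum_app`).  For the function
`F η = b η * sact ν η f x a b i` (differentiable in the direction `k` everywhere: on `UU ν` by
`sact_deriv`, and `F = 0` near points outside `tsupport b`), integration by parts in the variable
`k` (compact support; e.g. `integral_mul_fderiv_eq_neg_fderiv_mul_of_integrable`, or Fubini and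
the one-dimensional version) gives `∫ e^{-iη·u} ∂_k F = i u_k ∫ e^{-iη·u} F`, and
`∂_k F = (∂_k b) sact ν η f + b * (formula of sact_deriv)`.
So for `k = 0`: `b0 = ∂_0 b`, `b1 = -b/ν`, `b2 = b3 = 0`; `k = 1`: `b0 = ∂_1 b`, `b2 = -b/ν`;
`k = 2`: `b0 = ∂_2 b`, `b1 = b η_1/(ν η_3)`, `b2 = b η_2/(ν η_3)`, `b3 = -b/η_3`
(smooth because `η_3 ≠ 0` on a neighbourhood of the support: `contDiff` from
`contDiffOn` on the open set `UU ν` and vanishing off `tsupport b`).

`Jt_decay`, proof.  Induction on `M` for all `b`.  `M = 0`: `pn_isum_le`, `sact_bound` with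
`K = tsupport b`: `pn n (Jt ν b f u) ≤ (∫ |b|) C pn n f`.  Step: `1 + ‖u‖ ≤ 1 + ∑ |u_k|` and
`|u_k| pn n (Jt ν b f u) = pn n ((i u_k) • Jt ν b f u)` is bounded by `Jt_ibp` and the induction
hypothesis for `b0, ..., b3`, together with `dop_bound` for `D 2 j f`.

`Jt_cont`: `Jt ν b f u - Jt ν b f u' = isum ((e^{-iη·u} - e^{-iη·u'}) b η • sact ν η f)`,
`|e^{-iη·u} - e^{-iη·u'}| ≤ 3 ‖η‖ ‖u - u'‖`, `pn_isum_le`.
-/

open scoped Topology ContDiff
open MeasureTheory

noncomputable section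

namespace SoCo

/-- Decay of order `M` for a family of operators. -/
def jtdecay_P (M n : ℕ) (T : Isp → R3 → Isp) : Prop :=
  ∃ (C : ℝ) (m : ℕ), 0 ≤ C ∧ ∀ (f : Isp) (u : R3),
    (1 + ‖u‖) ^ M * pn n (T f u) ≤ C * pn m f

theorem jtdecay_P_add {M n : ℕ} {S T : Isp → R3 → Isp} (hS : jtdecay_P M n S)
    (hT : jtdecay_P M n T) : jtdecay_P M n (fun f u => S f u + T f u) := by
  obtain ⟨C, m, hC, h⟩ := hS
  obtain ⟨C', m', hC', h'⟩ := hT
  refine ⟨C + C', max m m', by positivity, fun f u => ?_⟩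
  have h1 : pn n (S f u + T f u) ≤ pn n (S f u) + pn n (T f u) := map_add_le_add _ _ _
  have h2 : 0 ≤ (1 + ‖u‖) ^ M := by positivity
  have h3 := mul_le_mul_of_nonneg_left h1 h2
  have h4 := h f u
  have h5 := h' f u
  have h6 : C * pn m f ≤ C * pn (max m m') f :=
    mul_le_mul_of_nonneg_left (pn_mono (le_max_left _ _) f) hC
  have h7 : C' * pn m' f ≤ C' * pn (max m m') f :=
    mul_le_mul_of_nonneg_left (pn_mono (le_max_right _ _) f) hC'
  nlinarith [h3, h4, h5, h6, h7]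

theorem jtdecay_P_D {M n : ℕ} {T : Isp → R3 → Isp} (hT : jtdecay_P M n T) (j k : Fin 4) :
    jtdecay_P M n (fun f u => T (D j k f) u) := by
  obtain ⟨C, m, hC, h⟩ := hT
  obtain ⟨C', hC', h'⟩ := dop_bound m
  have hs : 0 ≤ ∑ i, ∑ l, |Eij j k i l| :=
    Finset.sum_nonneg fun i _ => Finset.sum_nonneg fun l _ => abs_nonneg _
  refine ⟨C * (C' * (∑ i, ∑ l, |Eij j k i l|)), m + 1, by positivity, fun f u => ?_⟩
  refine (h (D j k f) u).trans ?_
  have h1 := mul_le_mul_of_nonneg_left (h' (Eij j k) f) hC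
  rw [mul_assoc]
  exact h1

theorem jtdecay_ex (u η : R3) : ‖ex u η‖ = 1 := by
  unfold ex
  rw [Complex.norm_exp]
  have : (-(Complex.I * ((η.1 : ℂ) * u.1 + η.2.1 * u.2.1 + η.2.2 * u.2.2))).re = 0 := by
    simp
  rw [this, Real.exp_zero]

theorem jtdecay_zero (ν : ℝ) (b : R3 → ℂ) (hb : CB ν b) (n : ℕ) :
    jtdecay_P 0 n (fun f u => Jt ν b f u) := by
  obtain ⟨C, hC, h⟩ := sact_bound ν n (tsupport b) hb.cs hb.sub
  have hbi : Integrable (fun η : R3 => ‖b η‖) :=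
    (hb.smooth.continuous.integrable_of_hasCompactSupport hb.cs).norm
  refine ⟨(∫ η : R3, ‖b η‖) * C, n, mul_nonneg (integral_nonneg fun _ => norm_nonneg _) hC,
    fun f u => ?_⟩
  rw [pow_zero, one_mul]
  refine (pn_isum_le (ig_Jt ν b hb f u) n).trans ?_
  rw [mul_assoc, ← integral_mul_const]
  refine integral_mono ((ig_Jt ν b hb f u).int n) (hbi.mul_const _) fun η => ?_
  show pn n ((ex u η * b η) • sact ν η f) ≤ ‖b η‖ * (C * pn n f)
  rw [map_smul_eq_mul, norm_mul, jtdecay_ex, one_mul]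
  by_cases hη : η ∈ tsupport b
  · exact mul_le_mul_of_nonneg_left (h η hη f) (norm_nonneg _)
  · rw [image_eq_zero_of_notMem_tsupport hη, norm_zero, zero_mul, zero_mul]

theorem jtdecay_norm (u : R3) : ‖u‖ ≤ |co u 0| + |co u 1| + |co u 2| := by
  have h0 : co u 0 = u.1 := rfl
  have h1 : co u 1 = u.2.1 := rfl
  have h2 : co u 2 = u.2.2 := rfl
  rw [h0, h1, h2, Prod.norm_def, Prod.norm_def]
  have a0 := abs_nonneg u.1
  have a1 := abs_nonneg u.2.1
  have a2 := abs_nonneg u.2.2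
  simp only [Real.norm_eq_abs]
  refine max_le (by linarith) (max_le (by linarith) (by linarith))

theorem Jt_decay (ν : ℝ) (M : ℕ) : ∀ (b : R3 → ℂ), CB ν b → ∀ n : ℕ,
    ∃ (C : ℝ) (m : ℕ), 0 ≤ C ∧ ∀ (f : Isp) (u : R3),
      (1 + ‖u‖) ^ M * pn n (Jt ν b f u) ≤ C * pn m f := by
  induction M with
  | zero =>
    intro b hb n
    exact jtdecay_zero ν b hb n
  | succ M ih =>
    intro b hb n
    have key : ∀ k : Fin 3, jtdecay_P M n
        (fun f u => (Complex.I * (co u k : ℂ)) • Jt ν b f u) := by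
      intro k
      obtain ⟨b0, b1, b2, b3, h0, h1, h2, h3, h⟩ := Jt_ibp ν b hb k
      have e : (fun (f : Isp) (u : R3) => (Complex.I * (co u k : ℂ)) • Jt ν b f u) =
          fun f u => Jt ν b0 f u + Jt ν b1 (D 2 0 f) u + Jt ν b2 (D 2 1 f) u +
            Jt ν b3 (D 2 2 f) u := by
        funext f u
        exact h f u
      rw [e]
      have i0 : jtdecay_P M n (fun f u => Jt ν b0 f u) := ih b0 h0 n
      have i1 : jtdecay_P M n (fun f u => Jt ν b1 f u) := ih b1 h1 n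
      have i2 : jtdecay_P M n (fun f u => Jt ν b2 f u) := ih b2 h2 n
      have i3 : jtdecay_P M n (fun f u => Jt ν b3 f u) := ih b3 h3 n
      exact jtdecay_P_add (jtdecay_P_add (jtdecay_P_add i0 (jtdecay_P_D i1 2 0))
        (jtdecay_P_D i2 2 1)) (jtdecay_P_D i3 2 2)
    obtain ⟨C, m, hC, h⟩ := ih b hb n
    obtain ⟨C0, m0, hC0, h0⟩ := key 0
    obtain ⟨C1, m1, hC1, h1⟩ := key 1
    obtain ⟨C2, m2, hC2, h2⟩ := key 2
    refine ⟨C + C0 + C1 + C2, m + m0 + m1 + m2, by positivity, fun f u => ?_⟩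
    have hk : ∀ k : Fin 3, pn n ((Complex.I * (co u k : ℂ)) • Jt ν b f u) =
        |co u k| * pn n (Jt ν b f u) := by
      intro k
      rw [map_smul_eq_mul, norm_mul, Complex.norm_I, one_mul, Complex.norm_real,
        Real.norm_eq_abs]
    have g := h f u
    have g0 := h0 f u
    have g1 := h1 f u
    have g2 := h2 f u
    simp only at g0 g1 g2
    rw [hk] at g0 g1 g2
    have l : C * pn m f ≤ C * pn (m + m0 + m1 + m2) f :=
      mul_le_mul_of_nonneg_left (pn_mono (by omega) f) hC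
    have l0 : C0 * pn m0 f ≤ C0 * pn (m + m0 + m1 + m2) f :=
      mul_le_mul_of_nonneg_left (pn_mono (by omega) f) hC0
    have l1 : C1 * pn m1 f ≤ C1 * pn (m + m0 + m1 + m2) f :=
      mul_le_mul_of_nonneg_left (pn_mono (by omega) f) hC1
    have l2 : C2 * pn m2 f ≤ C2 * pn (m + m0 + m1 + m2) f :=
      mul_le_mul_of_nonneg_left (pn_mono (by omega) f) hC2
    have hp : 0 ≤ pn n (Jt ν b f u) := apply_nonneg _ _
    have hu : 0 ≤ (1 + ‖u‖) ^ M := by positivity
    have hn := jtdecay_norm u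
    have hn' : (1 + ‖u‖) ^ (M + 1) * pn n (Jt ν b f u) ≤
        (1 + ‖u‖) ^ M * ((1 + (|co u 0| + |co u 1| + |co u 2|)) * pn n (Jt ν b f u)) := by
      rw [pow_succ, mul_assoc]
      exact mul_le_mul_of_nonneg_left (mul_le_mul_of_nonneg_right (by linarith) hp) hu
    refine hn'.trans ?_
    have e : (1 + ‖u‖) ^ M * ((1 + (|co u 0| + |co u 1| + |co u 2|)) * pn n (Jt ν b f u)) =
        (1 + ‖u‖) ^ M * pn n (Jt ν b f u) + (1 + ‖u‖) ^ M * (|co u 0| * pn n (Jt ν b f u)) +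
        (1 + ‖u‖) ^ M * (|co u 1| * pn n (Jt ν b f u)) +
        (1 + ‖u‖) ^ M * (|co u 2| * pn n (Jt ν b f u)) := by ring
    rw [e]
    linarith

end SoCo
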