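import Pool.Agent.H.MP_0f3f77_al.SEta

/-!
The family of group elements `s_η`, with inverse matrix `sM ν η` (third row `η / ν`).
The parameter `η` is in `UU ν = {η_3 / ν > 0}`.

`sact_deriv`, proof.  For `η ∈ UU ν` let `M = sM ν η` and `M' = ∂_k M = (1/ν) E_{2k}`;
`M + ε M' = (1 + ε Z) M` with `Z = M' M⁻¹`: for `k = 0, 1`, `Z = (1/ν) E_{2k}`; for `k = 2`,
`Z = (1/η_3) E_22 - (η_1/(ν η_3)) E_20 - (η_2/(ν η_3)) E_21`.
Direct computation as in `opg_point`: for `x ∈ Om`,
`sact ν η f x a b i = ∑ k, M k i f (lmul M x) a b k`, the derivative in the direction `M'` is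
`∑ k, M' k i f(Mx)_k + ∑ k, M k i (fderiv f (Mx) (M' x))_k`, with `M' = Z M`:
`∑_k (Z M)_{k i} f_k = ∑_l M_{l i} ∑_k Z_{k l} f_k`, `M' x = Z (M x)`; so it is
`-(sact ν η (dop Z f)) x a b i`.

`sact_cont`: `act_cont_orbit` and the continuity of `η ↦ sG ν η` on `UU ν` (in `GL`, continuity of
the matrix and of the inverse matrix, `Units.continuous_iff` or `Units.isEmbedding...`).
`sact_bound`: `act_bound`, `gs (s_η)` is bounded on compact subsets of `UU ν`.
`ig_bs`: `η ↦ (e η * b η) • sact ν η f` is continuous on `UU ν` and vanishes outside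
`tsupport b ⊆ UU ν`, hence continuous; its seminorms are continuous with compact support.
-/

open scoped Topology ContDiff
open MeasureTheory

noncomputable section

namespace SoCo

theorem sderiv_mem_Om (ν : ℝ) (η : R3) (hη : η ∈ UU ν) (x : E) :
    lmul (sM ν η) x ∈ Om ↔ x ∈ Om := by
  refine lmul_mem_Om _ ?_ x
  have h := congrArg Matrix.det (sM_mul ν (UU_ne hη).1 η (UU_ne hη).2)
  rw [Matrix.det_mul, Matrix.det_one] at h
  exact IsUnit.of_mul_eq_one _ h

theorem sderiv_app (ν : ℝ) (η : R3) (hη : η ∈ UU ν) (f : Isp) (x : E) (a b : Fin 2)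
    (i : Fin 4) :
    sact ν η f x a b i = ∑ k, (sM ν η k i : ℂ) * f (lmul (sM ν η) x) a b k := by
  rw [sact_eq hη, act_app]
  rfl

theorem sderiv_lmul_add (M N : Mat) (s : ℝ) (x : E) :
    lmul (M + s • N) x = lmul M x + s • lmul N x := by
  funext a i
  simp only [lmul, Matrix.add_apply, Matrix.smul_apply, Pi.add_apply, Pi.smul_apply, smul_eq_mul,
    Finset.mul_sum, ← Finset.sum_add_distrib]
  refine Finset.sum_congr rfl fun j _ => ?_
  ring

theorem sderiv_isOpen_UU (ν : ℝ) : IsOpen (UU ν) := by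
  have : Continuous (fun η : R3 => η.2.2 / ν) := by fun_prop
  exact isOpen_lt continuous_const this

theorem sderiv_gen (ν : ℝ) (f : Isp) (η : R3) (hη : η ∈ UU ν) (d : R3) (Z : Mat)
    (hZ : ∀ s : ℝ, sM ν (η + s • d) = sM ν η + s • (Z * sM ν η)) (x : E) (a b : Fin 2)
    (i : Fin 4) :
    HasDerivAt (fun s : ℝ => sact ν (η + s • d) f x a b i)
      (-(sact ν η (dop Z f) x a b i)) 0 := by
  by_cases hx : x ∈ Om
  · have hev : (fun s : ℝ => sact ν (η + s • d) f x a b i) =ᶠ[𝓝 0]
        fun s : ℝ => ∑ k, ((sM ν η k i : ℂ) + (s : ℂ) * ((Z * sM ν η) k i : ℂ)) *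
          f (lmul (sM ν η) x + s • lmul (Z * sM ν η) x) a b k := by
      have hc : Continuous (fun s : ℝ => η + s • d) := by fun_prop
      have hmem : ∀ᶠ s in 𝓝 (0 : ℝ), η + s • d ∈ UU ν := by
        refine hc.continuousAt.eventually_mem ((sderiv_isOpen_UU ν).mem_nhds ?_)
        simpa using hη
      filter_upwards [hmem] with s hs
      rw [sderiv_app ν _ hs, hZ s, sderiv_lmul_add]
      refine Finset.sum_congr rfl fun k _ => ?_
      simp only [Matrix.add_apply, Matrix.smul_apply, smul_eq_mul, Complex.ofReal_add,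
        Complex.ofReal_mul]
    refine HasDerivAt.congr_of_eventuallyEq ?_ hev
    have hy : lmul (sM ν η) x ∈ Om := (sderiv_mem_Om ν η hη x).mpr hx
    have hcurve : HasDerivAt (fun s : ℝ => lmul (sM ν η) x + s • lmul (Z * sM ν η) x)
        (lmul (Z * sM ν η) x) 0 := by
      have h1 : HasDerivAt (fun s : ℝ => s • lmul (Z * sM ν η) x)
          ((1 : ℝ) • lmul (Z * sM ν η) x) 0 := (hasDerivAt_id (0 : ℝ)).smul_const _
      rw [one_smul] at h1
      exact h1.const_add _
    have hfd : HasFDerivAt (f : E → Fv) (fderiv ℝ (f : E → Fv) (lmul (sM ν η) x))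
        (lmul (sM ν η) x + (0 : ℝ) • lmul (Z * sM ν η) x) := by
      rw [zero_smul, add_zero]
      exact (f.diffAt _ hy).hasFDerivAt
    have hcomp := hfd.comp_hasDerivAt (0 : ℝ) hcurve
    have hco : ∀ k, HasDerivAt
        (fun s : ℝ => f (lmul (sM ν η) x + s • lmul (Z * sM ν η) x) a b k)
        ((fderiv ℝ (f : E → Fv) (lmul (sM ν η) x) (lmul (Z * sM ν η) x)) a b k) 0 := by
      intro k
      have h1 := (hasDerivAt_pi.mp hcomp) a
      have h2 := (hasDerivAt_pi.mp h1) b
      exact (hasDerivAt_pi.mp h2) k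
    have hcf : ∀ k, HasDerivAt
        (fun s : ℝ => (sM ν η k i : ℂ) + (s : ℂ) * ((Z * sM ν η) k i : ℂ))
        ((Z * sM ν η) k i : ℂ) 0 := by
      intro k
      have h1 : HasDerivAt (fun s : ℝ => (s : ℂ)) 1 0 := Complex.ofRealCLM.hasDerivAt
      have h2 := h1.mul_const ((Z * sM ν η) k i : ℂ)
      rw [one_mul] at h2
      exact h2.const_add _
    have hsum := HasDerivAt.fun_sum (u := Finset.univ) (fun k _ => (hcf k).mul (hco k))
    refine hsum.congr_deriv ?_
    rw [sderiv_app ν η hη]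
    simp only [zero_smul, add_zero, Complex.ofReal_zero, zero_mul]
    simp only [dop_app Z f _ hy]
    rw [← lmul_mul]
    simp only [Matrix.mul_apply, Complex.ofReal_sum, Complex.ofReal_mul, Complex.ofReal_add,
      Fin.sum_univ_four]
    ring
  · have h0 : ∀ (g : Isp) , g x = 0 := fun g => (isI g).zero_off x hx
    simp only [h0, Pi.zero_apply, neg_zero]
    exact hasDerivAt_const _ _

theorem sact_deriv (ν : ℝ) (f : Isp) (η : R3) (hη : η ∈ UU ν) (x : E) (a b : Fin 2)
    (i : Fin 4) :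
    HasDerivAt (fun s : ℝ => sact ν (η + s • e3 0) f x a b i)
      (-((ν⁻¹ : ℝ) : ℂ) * sact ν η (D 2 0 f) x a b i) 0 ∧
    HasDerivAt (fun s : ℝ => sact ν (η + s • e3 1) f x a b i)
      (-((ν⁻¹ : ℝ) : ℂ) * sact ν η (D 2 1 f) x a b i) 0 ∧
    HasDerivAt (fun s : ℝ => sact ν (η + s • e3 2) f x a b i)
      (((η.1 / (ν * η.2.2) : ℝ) : ℂ) * sact ν η (D 2 0 f) x a b i +
        ((η.2.1 / (ν * η.2.2) : ℝ) : ℂ) * sact ν η (D 2 1 f) x a b i -
        ((η.2.2⁻¹ : ℝ) : ℂ) * sact ν η (D 2 2 f) x a b i) 0 := by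
  have hν := (UU_ne hη).1
  have hη3 := (UU_ne hη).2
  refine ⟨?_, ?_, ?_⟩
  · have h := sderiv_gen ν f η hη (e3 0) (ν⁻¹ • Eij 2 0) (by
      intro s
      ext i j
      fin_cases i <;> fin_cases j <;>
        simp [sM, e3, Eij, Matrix.mul_apply, Matrix.single_apply] <;> ring)
      x a b i
    refine h.congr_deriv ?_
    rw [dop_smul, map_smul]
    simp only [Isp.smul_app, Pi.smul_apply, smul_eq_mul, D]
    ring
  · have h := sderiv_gen ν f η hη (e3 1) (ν⁻¹ • Eij 2 1) (by
      intro s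
      ext i j
      fin_cases i <;> fin_cases j <;>
        simp [sM, e3, Eij, Matrix.mul_apply, Matrix.single_apply] <;> ring)
      x a b i
    refine h.congr_deriv ?_
    rw [dop_smul, map_smul]
    simp only [Isp.smul_app, Pi.smul_apply, smul_eq_mul, D]
    ring
  · have h := sderiv_gen ν f η hη (e3 2) (η.2.2⁻¹ • Eij 2 2 - (η.1 / (ν * η.2.2)) • Eij 2 0 -
        (η.2.1 / (ν * η.2.2)) • Eij 2 1) (by
      intro s
      ext i j
      fin_cases i <;> fin_cases j <;>
        simp [sM, e3, Eij, Matrix.mul_apply, Fin.sum_univ_four, Matrix.single_apply] <;>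
        first | (field_simp; done) | (field_simp; ring1) | (field_simp; simp))
      x a b i
    refine h.congr_deriv ?_
    rw [dop_sub, dop_sub, dop_smul, dop_smul, dop_smul, map_sub, map_sub, map_smul, map_smul,
      map_smul]
    simp only [Isp.smul_app, Isp.sub_app, Pi.sub_apply, Pi.smul_apply, smul_eq_mul, D]
    ring

end SoCo
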