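import Pool.Agent.H.MP_0f3f77_al.Jt
import Pool.Agent.H.MP_0f3f77_al.SDeriv

/-!
The Fourier transform `Jt ν b f` of `η ↦ b η • sact ν η f` and its rapid decay.

`Jt_ibp`, proof.  Evaluate at `x, a, b, i` (`isum_app`).  For the function
`F η = b η * sact ν η f x a b i` (differentiable in the direction `k` everywhere: on `UU ν` by
`sact_deriv`, and `F = 0` near points outside `tsupport b`), integration by parts in the variable
`k` (compact support; e.g. `integral_mul_fderiv_eq_neg_fderiv_mul_of_integrable`, or Fubini and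
the one-dimensional version) gives `∫ e^{-iη·u} ∂_k F = i u_k ∫ e^{-iη·u} F`, and
`∂_k F = (∂_k b) sact ν η f + b * (formula of sact_deriv)`.
So for `k = 0`: `b0 = ∂_0 b`, `b1 = -b/ν`, `b2 = b3 = 0`; `k = 1`: `b0 = ∂_1 b`, `b2 = -b/ν`;
`k = 2`: `b0 = ∂_2 b`, `b1 = b η_1/(ν η_3)`, `b2 = b η_2/(ν η_3)`, `b3 = -b/η_3`
(smooth because `η_3 ≠ 0` on a neighbourhood of the support: `contDiff` from
`contDiffOn` on the open set `UU ν` and vanishing off `tsupport b`).

`Jt_decay`, proof.  Induction on `M` for all `b`.  `M = 0`: `pn_isum_le`, `sact_bound` with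
`K = tsupport b`: `pn n (Jt ν b f u) ≤ (∫ |b|) C pn n f`.  Step: `1 + ‖u‖ ≤ 1 + ∑ |u_k|` and
`|u_k| pn n (Jt ν b f u) = pn n ((i u_k) • Jt ν b f u)` is bounded by `Jt_ibp` and the induction
hypothesis for `b0, ..., b3`, together with `dop_bound` for `D 2 j f`.

`Jt_cont`: `Jt ν b f u - Jt ν b f u' = isum ((e^{-iη·u} - e^{-iη·u'}) b η • sact ν η f)`,
`|e^{-iη·u} - e^{-iη·u'}| ≤ 3 ‖η‖ ‖u - u'‖`, `pn_isum_le`.
-/

open scoped Topology ContDiff
open MeasureTheory

noncomputable section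

namespace SoCo

theorem jtibp_isOpen_UU (ν : ℝ) : IsOpen (UU ν) := by
  have : Continuous (fun η : R3 => η.2.2 / ν) := by fun_prop
  exact isOpen_lt continuous_const this

theorem jtibp_cb_mul {ν : ℝ} {b : R3 → ℂ} (hb : CB ν b) (c : R3 → ℂ)
    (hc : ContDiffOn ℝ ∞ c (UU ν)) : CB ν (fun η => b η * c η) := by
  have hsub : tsupport (fun η => b η * c η) ⊆ tsupport b :=
    closure_mono fun η hη hη0 => hη (by simp only [hη0, zero_mul])
  refine ⟨?_, hb.cs.of_isClosed_subset (isClosed_tsupport _) hsub, hsub.trans hb.sub⟩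
  rw [contDiff_iff_contDiffAt]
  intro η
  by_cases hη : η ∈ tsupport b
  · have h1 : ContDiffAt ℝ ∞ c η := hc.contDiffAt ((jtibp_isOpen_UU ν).mem_nhds (hb.sub hη))
    exact hb.smooth.contDiffAt.mul h1
  · have h0 : (fun η => b η * c η) =ᶠ[𝓝 η] fun _ => (0 : ℂ) := by
      have h2 : (tsupport b)ᶜ ∈ 𝓝 η := (isClosed_tsupport b).isOpen_compl.mem_nhds hη
      filter_upwards [h2] with y hy
      rw [image_eq_zero_of_notMem_tsupport hy, zero_mul]
    exact contDiffAt_const.congr_of_eventuallyEq h0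

theorem jtibp_cb_deriv {ν : ℝ} {b : R3 → ℂ} (hb : CB ν b) (d : R3) :
    CB ν (fun η => fderiv ℝ b η d) := by
  refine ⟨?_, hb.cs.fderiv_apply ℝ d, (tsupport_fderiv_apply_subset ℝ d).trans hb.sub⟩
  exact (hb.smooth.fderiv_right (m := ∞) (by simp)).clm_apply contDiff_const

theorem jtibp_ex (u d : R3) (η : R3) :
    HasLineDerivAt ℝ (ex u)
      (-(Complex.I * ((d.1 * u.1 + d.2.1 * u.2.1 + d.2.2 * u.2.2 : ℝ) : ℂ)) * ex u η) η d := by
  have h1 : HasDerivAt (fun s : ℝ => -(Complex.I * (((η.1 + s * d.1 : ℝ) : ℂ) * u.1 +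
      ((η.2.1 + s * d.2.1 : ℝ) : ℂ) * u.2.1 + ((η.2.2 + s * d.2.2 : ℝ) : ℂ) * u.2.2)))
      (-(Complex.I * ((d.1 * u.1 + d.2.1 * u.2.1 + d.2.2 * u.2.2 : ℝ) : ℂ))) 0 := by
    have hc : ∀ p q : ℝ, HasDerivAt (fun s : ℝ => ((p + s * q : ℝ) : ℂ)) (q : ℂ) 0 := by
      intro p q
      have h2 : HasDerivAt (fun s : ℝ => p + s * q) q 0 := by
        have h3 := ((hasDerivAt_id (0 : ℝ)).mul_const q).const_add p
        rw [one_mul] at h3
        exact h3
      exact h2.ofReal_comp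
    have h4 := ((((hc η.1 d.1).mul_const (u.1 : ℂ)).add ((hc η.2.1 d.2.1).mul_const (u.2.1 : ℂ))).add
      ((hc η.2.2 d.2.2).mul_const (u.2.2 : ℂ))).const_mul Complex.I
    refine h4.neg.congr_deriv ?_
    push_cast
    ring
  have h5 := h1.cexp
  have h6 : (fun s : ℝ => ex u (η + s • d)) = (fun s : ℝ => Complex.exp
      (-(Complex.I * (((η.1 + s * d.1 : ℝ) : ℂ) * u.1 +
      ((η.2.1 + s * d.2.1 : ℝ) : ℂ) * u.2.1 + ((η.2.2 + s * d.2.2 : ℝ) : ℂ) * u.2.2)))) := by
    funext s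
    simp [ex]
  unfold HasLineDerivAt
  rw [h6]
  refine h5.congr_deriv ?_
  rw [mul_comm]
  congr 1
  simp [ex]

theorem jtibp_line {ν : ℝ} {b : R3 → ℂ} (hb : CB ν b) (d : R3) (c1 c2 c3 : R3 → ℂ) (f : Isp)
    (x : E) (p q : Fin 2) (i : Fin 4)
    (hder : ∀ η ∈ UU ν, HasDerivAt (fun s : ℝ => sact ν (η + s • d) f x p q i)
      (c1 η * sact ν η (D 2 0 f) x p q i + c2 η * sact ν η (D 2 1 f) x p q i +
        c3 η * sact ν η (D 2 2 f) x p q i) 0) (η : R3) :
    HasLineDerivAt ℝ (fun η => b η * sact ν η f x p q i)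
      (fderiv ℝ b η d * sact ν η f x p q i + b η * c1 η * sact ν η (D 2 0 f) x p q i +
        b η * c2 η * sact ν η (D 2 1 f) x p q i + b η * c3 η * sact ν η (D 2 2 f) x p q i)
      η d := by
  unfold HasLineDerivAt
  by_cases hη : η ∈ tsupport b
  · have hU := hb.sub hη
    have h1 : HasDerivAt (fun s : ℝ => b (η + s • d)) (fderiv ℝ b η d) 0 := by
      have hd : DifferentiableAt ℝ b η := (hb.smooth.differentiable (by simp)) η
      exact hd.hasFDerivAt.hasLineDerivAt d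
    have h2 := h1.mul (hder η hU)
    refine h2.congr_deriv ?_
    simp only [zero_smul, add_zero]
    ring
  · have hnb : (tsupport b)ᶜ ∈ 𝓝 η := (isClosed_tsupport b).isOpen_compl.mem_nhds hη
    have hc : Continuous (fun s : ℝ => η + s • d) := by fun_prop
    have hev : (fun s : ℝ => b (η + s • d) * sact ν (η + s • d) f x p q i) =ᶠ[𝓝 0]
        fun _ => (0 : ℂ) := by
      have hmem : ∀ᶠ s in 𝓝 (0 : ℝ), η + s • d ∈ (tsupport b)ᶜ := by
        refine hc.continuousAt.eventually_mem ?_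
        simpa using hnb
      filter_upwards [hmem] with s hs
      rw [image_eq_zero_of_notMem_tsupport hs, zero_mul]
    have hb0 : b η = 0 := image_eq_zero_of_notMem_tsupport hη
    have hf0 : fderiv ℝ b η d = 0 :=
      image_eq_zero_of_notMem_tsupport (f := fun η => fderiv ℝ b η d)
        (fun h => hη (tsupport_fderiv_apply_subset ℝ d h))
    refine HasDerivAt.congr_of_eventuallyEq ?_ hev
    rw [hb0, hf0]
    simp only [zero_mul, add_zero]
    exact hasDerivAt_const _ _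

theorem jtibp_main {ν : ℝ} {b : R3 → ℂ} (hb : CB ν b) (d : R3) (c1 c2 c3 : R3 → ℂ)
    (hc1 : ContDiffOn ℝ ∞ c1 (UU ν)) (hc2 : ContDiffOn ℝ ∞ c2 (UU ν))
    (hc3 : ContDiffOn ℝ ∞ c3 (UU ν))
    (hder : ∀ (f : Isp) (x : E) (p q : Fin 2) (i : Fin 4), ∀ η ∈ UU ν,
      HasDerivAt (fun s : ℝ => sact ν (η + s • d) f x p q i)
      (c1 η * sact ν η (D 2 0 f) x p q i + c2 η * sact ν η (D 2 1 f) x p q i +
        c3 η * sact ν η (D 2 2 f) x p q i) 0) :
    ∃ b0 b1 b2 b3 : R3 → ℂ, CB ν b0 ∧ CB ν b1 ∧ CB ν b2 ∧ CB ν b3 ∧ ∀ (f : Isp) (u : R3),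
      (Complex.I * ((d.1 * u.1 + d.2.1 * u.2.1 + d.2.2 * u.2.2 : ℝ) : ℂ)) • Jt ν b f u =
        Jt ν b0 f u + Jt ν b1 (D 2 0 f) u + Jt ν b2 (D 2 1 f) u + Jt ν b3 (D 2 2 f) u := by
  have haar2 : (volume : Measure (ℝ × ℝ)).IsAddHaarMeasure :=
    inferInstanceAs (((volume : Measure ℝ).prod (volume : Measure ℝ)).IsAddHaarMeasure)
  have haar3 : (volume : Measure R3).IsAddHaarMeasure :=
    inferInstanceAs (((volume : Measure ℝ).prod (volume : Measure (ℝ × ℝ))).IsAddHaarMeasure)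
  have H0 := jtibp_cb_deriv hb d
  have H1 := jtibp_cb_mul hb c1 hc1
  have H2 := jtibp_cb_mul hb c2 hc2
  have H3 := jtibp_cb_mul hb c3 hc3
  refine ⟨_, _, _, _, H0, H1, H2, H3, fun f u => ?_⟩
  ext x p q i
  have hJ : ∀ (β : R3 → ℂ) (hβ : CB ν β) (g : Isp), Jt ν β g u x p q i =
      ∫ η, ex u η * β η * sact ν η g x p q i := by
    intro β hβ g
    rw [Jt, isum_app (ig_Jt ν β hβ g u)]
    rfl
  have hI : ∀ (β : R3 → ℂ) (hβ : CB ν β) (g : Isp),
      Integrable (fun η : R3 => ex u η * β η * sact ν η g x p q i) := by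
    intro β hβ g
    exact (ig_Jt ν β hβ g u).app_int x p q i
  have I0 := hI _ H0 f
  have I1 := hI _ H1 (D 2 0 f)
  have I2 := hI _ H2 (D 2 1 f)
  have I3 := hI _ H3 (D 2 2 f)
  have I := hI _ hb f
  have key := integral_bilinear_hasLineDerivAt_right_eq_neg_left_of_integrable
    (μ := (volume : Measure R3)) (B := ContinuousLinearMap.mul ℝ ℂ) (v := d)
    (f := ex u)
    (f' := fun η => -(Complex.I * ((d.1 * u.1 + d.2.1 * u.2.1 + d.2.2 * u.2.2 : ℝ) : ℂ)) * ex u η)
    (g := fun η => b η * sact ν η f x p q i)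
    (g' := fun η => fderiv ℝ b η d * sact ν η f x p q i +
      b η * c1 η * sact ν η (D 2 0 f) x p q i +
      b η * c2 η * sact ν η (D 2 1 f) x p q i + b η * c3 η * sact ν η (D 2 2 f) x p q i)
    (by
      simp only [ContinuousLinearMap.mul_apply']
      refine (I.const_mul (-(Complex.I *
        ((d.1 * u.1 + d.2.1 * u.2.1 + d.2.2 * u.2.2 : ℝ) : ℂ)))).congr ?_
      refine Filter.Eventually.of_forall fun η => ?_
      simp only []
      ring)
    (by
      simp only [ContinuousLinearMap.mul_apply']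
      refine (((I0.add I1).add I2).add I3).congr ?_
      refine Filter.Eventually.of_forall fun η => ?_
      simp only [Pi.add_apply]
      ring)
    (by
      simp only [ContinuousLinearMap.mul_apply']
      refine I.congr ?_
      refine Filter.Eventually.of_forall fun η => ?_
      simp only []
      ring)
    (fun η _ => jtibp_ex u d η)
    (fun η _ => jtibp_line hb d c1 c2 c3 f x p q i (hder f x p q i) η)
  simp only [ContinuousLinearMap.mul_apply'] at key
  simp only [Isp.add_app, Isp.smul_app, Pi.add_apply, Pi.smul_apply, smul_eq_mul]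
  rw [hJ _ H0, hJ _ H1, hJ _ H2, hJ _ H3, hJ _ hb]
  have J01 := integral_add I0 I1
  have J02 := integral_add (I0.add I1) I2
  have J03 := integral_add ((I0.add I1).add I2) I3
  simp only [Pi.add_apply] at J01 J02 J03
  rw [← J01, ← J02, ← J03]
  rw [← integral_const_mul]
  rw [← integral_neg] at key
  refine Eq.trans ?_ (key.symm.trans ?_)
  · refine integral_congr_ae (Filter.Eventually.of_forall fun η => ?_)
    simp only []
    ring
  · refine integral_congr_ae (Filter.Eventually.of_forall fun η => ?_)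
    simp only [Pi.add_apply]
    ring

theorem Jt_ibp (ν : ℝ) (b : R3 → ℂ) (hb : CB ν b) (k : Fin 3) :
    ∃ b0 b1 b2 b3 : R3 → ℂ, CB ν b0 ∧ CB ν b1 ∧ CB ν b2 ∧ CB ν b3 ∧ ∀ (f : Isp) (u : R3),
      (Complex.I * (co u k : ℂ)) • Jt ν b f u =
        Jt ν b0 f u + Jt ν b1 (D 2 0 f) u + Jt ν b2 (D 2 1 f) u + Jt ν b3 (D 2 2 f) u := by
  have hne : ∀ η ∈ UU ν, η.2.2 ≠ 0 := fun η hη => (UU_ne hη).2
  fin_cases k
  · obtain ⟨b0, b1, b2, b3, h0, h1, h2, h3, h⟩ := jtibp_main hb (e3 0)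
      (fun _ => -((ν⁻¹ : ℝ) : ℂ)) (fun _ => 0) (fun _ => 0) contDiffOn_const contDiffOn_const
      contDiffOn_const (by
        intro f x p q i η hη
        refine (sact_deriv ν f η hη x p q i).1.congr_deriv ?_
        ring)
    refine ⟨b0, b1, b2, b3, h0, h1, h2, h3, fun f u => ?_⟩
    rw [← h f u]
    congr 3
    simp [e3, co]
  · obtain ⟨b0, b1, b2, b3, h0, h1, h2, h3, h⟩ := jtibp_main hb (e3 1)
      (fun _ => 0) (fun _ => -((ν⁻¹ : ℝ) : ℂ)) (fun _ => 0) contDiffOn_const contDiffOn_const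
      contDiffOn_const (by
        intro f x p q i η hη
        refine (sact_deriv ν f η hη x p q i).2.1.congr_deriv ?_
        ring)
    refine ⟨b0, b1, b2, b3, h0, h1, h2, h3, fun f u => ?_⟩
    rw [← h f u]
    congr 3
    simp [e3, co]
  · have hof : ContDiff ℝ ∞ (fun r : ℝ => (r : ℂ)) := Complex.ofRealCLM.contDiff
    have hr1 : ContDiffOn ℝ ∞ (fun η : R3 => η.1 / (ν * η.2.2)) (UU ν) := by
      refine ContDiffOn.div (by fun_prop) (by fun_prop) fun η hη => ?_
      exact mul_ne_zero (UU_ne hη).1 (UU_ne hη).2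
    have hr2 : ContDiffOn ℝ ∞ (fun η : R3 => η.2.1 / (ν * η.2.2)) (UU ν) := by
      refine ContDiffOn.div (by fun_prop) (by fun_prop) fun η hη => ?_
      exact mul_ne_zero (UU_ne hη).1 (UU_ne hη).2
    have hr3 : ContDiffOn ℝ ∞ (fun η : R3 => -η.2.2⁻¹) (UU ν) := by
      refine ContDiffOn.neg (ContDiffOn.inv (by fun_prop) hne)
    obtain ⟨b0, b1, b2, b3, h0, h1, h2, h3, h⟩ := jtibp_main hb (e3 2)
      (fun η => ((η.1 / (ν * η.2.2) : ℝ) : ℂ)) (fun η => ((η.2.1 / (ν * η.2.2) : ℝ) : ℂ))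
      (fun η => ((-η.2.2⁻¹ : ℝ) : ℂ)) (hof.comp_contDiffOn hr1) (hof.comp_contDiffOn hr2)
      (hof.comp_contDiffOn hr3) (by
        intro f x p q i η hη
        refine (sact_deriv ν f η hη x p q i).2.2.congr_deriv ?_
        push_cast
        ring)
    refine ⟨b0, b1, b2, b3, h0, h1, h2, h3, fun f u => ?_⟩
    rw [← h f u]
    congr 3
    simp [e3, co]

end SoCo
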