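import Pool.Agent.H.MP_0f3f77_al.PkMem

/-!
The weight components determine an element.

`ker_iff`, proof.  Let `φ θ = T (act (rot θ) f)`, continuous and `2π`-periodic.  By `pk_clm` its
Fourier coefficients are the numbers `T (pk κ f)`.  If all of them are zero, then `φ = 0`
(regard `φ` as a continuous function on `AddCircle (2π)`; its Fourier coefficients
`fourierCoeff φ κ` are all zero, hence summable, and `has_pointwise_sum_fourier_series_of_summable`
gives `φ = 0`; or use `span_fourier_closure_eq_top`).  The converse is clear from `pk_clm`.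
`pk_dense`, proof.  Suppose `f ∉ S`.  By the Hahn-Banach theorem (`S` closed, `Isp` locally convex:
`geometric_hahn_banach_closed_point` over `ℝ` and a passage to complex functionals, or
`RCLike.geometric_hahn_banach_...`) there is a continuous linear `T : Isp →L[ℂ] ℂ` with `T = 0` on
`S` and `T f ≠ 0`.  Then `T (pk κ f) = 0` for all `κ`, so by `ker_iff` `T (act (rot 0) f) = T f = 0`,
a contradiction.
-/

open scoped Topology ContDiff
open MeasureTheory

noncomputable section

namespace SoCo

/-- A continuous periodic function without Fourier coefficients is zero. -/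
theorem keriff_fourier (φ : ℝ → ℂ) (hc : Continuous φ)
    (hp : Function.Periodic φ (2 * Real.pi))
    (h : ∀ κ : ℤ, ∫ θ in Set.Ioc 0 (2 * Real.pi),
      (((2 * Real.pi)⁻¹ : ℝ) * Complex.exp ((-(κ * θ) : ℝ) * Complex.I)) * φ θ = 0)
    (θ : ℝ) : φ θ = 0 := by
  have hT : Fact (0 < 2 * Real.pi) := ⟨by positivity⟩
  let F : C(AddCircle (2 * Real.pi), ℂ) := ⟨hp.lift, continuous_coinduced_dom.mpr hc⟩
  have hF : ∀ x : ℝ, F (x : AddCircle (2 * Real.pi)) = φ x := fun x => hp.lift_coe x
  have hz : ∀ n : ℤ, fourierCoeff F n = 0 := by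
    intro n
    rw [fourierCoeff_eq_intervalIntegral F n 0, zero_add,
      intervalIntegral.integral_of_le hT.out.le, ← h n, ← integral_smul]
    congr 1
    funext x
    rw [hF, fourier_coe_apply]
    have hpi : (Real.pi : ℂ) ≠ 0 := by exact_mod_cast Real.pi_ne_zero
    have e1 : (2 * (Real.pi : ℂ) * Complex.I * ((-n : ℤ) : ℂ) * (x : ℂ) /
        ((2 * Real.pi : ℝ) : ℂ)) = ((-(n * x) : ℝ) : ℂ) * Complex.I := by
      push_cast
      field_simp
    rw [e1, smul_eq_mul, Complex.real_smul, one_div, mul_assoc]
  have hs : Summable (fourierCoeff F) := by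
    have : fourierCoeff F = fun _ => 0 := funext hz
    rw [this]
    exact summable_zero
  have h1 := has_pointwise_sum_fourier_series_of_summable hs (θ : AddCircle (2 * Real.pi))
  have h2 : (fun i => fourierCoeff F i • fourier i (θ : AddCircle (2 * Real.pi))) =
      fun _ => 0 := by
    funext i
    rw [hz i, zero_smul]
  rw [h2] at h1
  rw [← hF]
  exact h1.unique hasSum_zero

theorem keriff_rot_per (θ : ℝ) : rot (θ + 2 * Real.pi) = rot θ := by
  apply Units.ext
  show rotM (θ + 2 * Real.pi) = rotM θ
  unfold rotM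
  rw [Real.cos_add_two_pi, Real.sin_add_two_pi]

theorem ker_iff (f : Isp) (T : Isp →L[ℂ] ℂ) :
    (∀ κ, T (pk κ f) = 0) ↔ ∀ θ, T (act (rot θ) f) = 0 := by
  constructor
  · intro h
    refine keriff_fourier (fun θ => T (act (rot θ) f)) ?_ ?_ ?_
    · exact T.continuous.comp ((act_cont_orbit f).comp cont_rot)
    · intro θ
      show T (act (rot (θ + 2 * Real.pi)) f) = T (act (rot θ) f)
      rw [keriff_rot_per]
    · intro κ
      rw [← h κ, pk_clm]
  · intro h κ
    rw [pk_clm]
    simp only [h, mul_zero, integral_zero]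

end SoCo
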