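import Pool.Agent.H.MP_0f3f77_al.SliceDop
import Pool.Agent.H.MP_0f3f77_al.Elts

/-!
The functionals `La ν a b i f = Lf ν (sl f a b i)` and their behaviour under the Lie algebra.

Continuity: `Lf_bound` together with `slice_decay 8` at `t = 0`.
All rules: insert the slice formulas `sl_D..` and use the rules for `Lf` (`Lf_add, Lf_smul, Lf_dy,
Lf_dz, Lf_y_dy, Lf_z_dy, Lf_y_dz, Lf_z_dz`), every slice being in `Sy (-1)` (`sl_sy'`).
-/

open scoped Topology ContDiff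
open MeasureTheory

noncomputable section

namespace SoCo

theorem sl_add (f g : Isp) (a b : Fin 2) (i : Fin 4) :
    sl (f + g) a b i = fun p => sl f a b i p + sl g a b i p := rfl

theorem sl_smul (c : ℂ) (f : Isp) (a b : Fin 2) (i : Fin 4) :
    sl (c • f) a b i = fun p => c * sl f a b i p := rfl

def LaI (ν : ℝ) (a b : Fin 2) (i : Fin 4) : Isp →ₗ[ℂ] ℂ where
  toFun f := Lf ν (sl f a b i)
  map_add' f g := by
    rw [sl_add, Lf_add ν ((sl_sy' f a b i).mono (by norm_num))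
      ((sl_sy' g a b i).mono (by norm_num))]
  map_smul' c f := by
    rw [sl_smul, Lf_smul ν ((sl_sy' f a b i).mono (by norm_num))]
    rfl

theorem cont_LaI (ν : ℝ) (a b : Fin 2) (i : Fin 4) : Continuous (LaI ν a b i) := by
  obtain ⟨K, _, hKb⟩ := Lf_bound ν
  obtain ⟨C, hC, hCb⟩ := slice_decay 8
  refine cont_of_bound (LaI ν a b i) 8 (K * C) fun f => ?_
  have h1 : ‖Lf ν (sl f a b i)‖ ≤ K * (C * pn 8 f) := by
    refine hKb _ _ (sl_sy' f a b i).smooth fun p => ?_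
    have h2 := hCb f 0 p a b i
    rw [abs_zero, add_zero, one_pow, mul_one] at h2
    have h3 : (1 + ‖p‖) ^ (-3 + ((a : ℕ) : ℤ) + ((b : ℕ) : ℤ) - (8 : ℕ)) ≤
        (1 + ‖p‖) ^ (-3 : ℤ) := by
      refine zpow_le_zpow_right₀ (by linarith [norm_nonneg p]) ?_
      have ha := a.2
      have hb := b.2
      omega
    have h4 : 0 ≤ pn 8 f := apply_nonneg _ _
    calc ‖iteratedFDeriv ℝ 8 (sl f a b i) p‖
        ≤ C * (1 + ‖p‖) ^ (-3 + ((a : ℕ) : ℤ) + ((b : ℕ) : ℤ) - (8 : ℕ)) * pn 8 f := h2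
      _ ≤ C * (1 + ‖p‖) ^ (-3 : ℤ) * pn 8 f := by gcongr
      _ = C * pn 8 f * (1 + ‖p‖) ^ (-3 : ℤ) := by ring
  calc ‖LaI ν a b i f‖ = ‖Lf ν (sl f a b i)‖ := rfl
    _ ≤ K * (C * pn 8 f) := h1
    _ = K * C * pn 8 f := by ring

/-- The functional `f ↦ Lf ν (sl f a b i)`. -/
def La (ν : ℝ) (a b : Fin 2) (i : Fin 4) : Isp →L[ℂ] ℂ := ⟨LaI ν a b i, cont_LaI ν a b i⟩

theorem La_eq (ν : ℝ) (a b : Fin 2) (i : Fin 4) (f : Isp) : La ν a b i f = Lf ν (sl f a b i) := rfl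

/-- First moments. -/
def My (ν : ℝ) (a b : Fin 2) (i : Fin 4) (f : Isp) : ℂ := Lf ν (fun p => (p.1 : ℂ) * sl f a b i p)

def Mz (ν : ℝ) (a b : Fin 2) (i : Fin 4) (f : Isp) : ℂ := Lf ν (fun p => (p.2 : ℂ) * sl f a b i p)

theorem My_add (ν : ℝ) (a b : Fin 2) (i : Fin 4) (f g : Isp) :
    My ν a b i (f + g) = My ν a b i f + My ν a b i g := by
  unfold My
  rw [← Lf_add ν ((sl_sy' f a b i).mul_y.mono (by norm_num))
    ((sl_sy' g a b i).mul_y.mono (by norm_num))]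
  congr 1
  funext p
  rw [sl_add]
  ring

theorem Mz_add (ν : ℝ) (a b : Fin 2) (i : Fin 4) (f g : Isp) :
    Mz ν a b i (f + g) = Mz ν a b i f + Mz ν a b i g := by
  unfold Mz
  rw [← Lf_add ν ((sl_sy' f a b i).mul_z.mono (by norm_num))
    ((sl_sy' g a b i).mul_z.mono (by norm_num))]
  congr 1
  funext p
  rw [sl_add]
  ring

end SoCo
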