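import Pool.Agent.H.MP_0f3f77_al.LaDef

/-!
The functionals `La ν a b i f = Lf ν (sl f a b i)` and their behaviour under the Lie algebra.

Continuity: `Lf_bound` together with `slice_decay 8` at `t = 0`.
All rules: insert the slice formulas `sl_D..` and use the rules for `Lf` (`Lf_add, Lf_smul, Lf_dy,
Lf_dz, Lf_y_dy, Lf_z_dy, Lf_y_dz, Lf_z_dz`), every slice being in `Sy (-1)` (`sl_sy'`).
-/

open scoped Topology ContDiff
open MeasureTheory

noncomputable section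

namespace SoCo

theorem lr_neg (ν : ℝ) {φ : ℝ × ℝ → ℂ} (h : Sy 5 φ) : Lf ν (fun p => -φ p) = -Lf ν φ := by
  have h1 := Lf_smul ν h (-1)
  simpa only [neg_mul, one_mul] using h1

theorem lr_sy_neg {m : ℤ} {φ : ℝ × ℝ → ℂ} (h : Sy m φ) : Sy m (fun p => -φ p) := by
  have h1 := h.smul (-1)
  simpa only [neg_mul, one_mul] using h1

theorem lr_comb (ν : ℝ) {φ ψ : ℝ × ℝ → ℂ} (h : Sy 5 φ) (h' : Sy 5 ψ) :
    Lf ν (fun p => -φ p - ψ p) = -Lf ν φ - Lf ν ψ := by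
  have h1 := Lf_add ν (lr_sy_neg h) (lr_sy_neg h')
  rw [lr_neg ν h, lr_neg ν h'] at h1
  simpa only [sub_eq_add_neg] using h1

theorem lr_sy_if (c : Prop) [Decidable c] {m : ℤ} {φ : ℝ × ℝ → ℂ} (h : Sy m φ) :
    Sy m (fun p => if c then φ p else 0) := by
  split_ifs
  · exact h
  · have h1 := h.smul 0
    simpa only [zero_mul] using h1

theorem lr_Lf_if (ν : ℝ) (c : Prop) [Decidable c] {φ : ℝ × ℝ → ℂ} (h : Sy 5 φ) :
    Lf ν (fun p => if c then φ p else 0) = if c then Lf ν φ else 0 := by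
  split_ifs
  · rfl
  · have h1 := Lf_smul ν h 0
    simpa only [zero_mul] using h1

variable (ν : ℝ) (a b : Fin 2) (i : Fin 4) (f : Isp)

theorem lr_5 : Sy 5 (sl f a b i) := (sl_sy' f a b i).mono (by norm_num)

theorem lr_4 : Sy 4 (sl f a b i) := (sl_sy' f a b i).mono (by norm_num)

theorem lr_y5 : Sy 5 (fun p => (p.1 : ℂ) * sl f a b i p) :=
  (sl_sy' f a b i).mul_y.mono (by norm_num)

theorem lr_z5 : Sy 5 (fun p => (p.2 : ℂ) * sl f a b i p) :=
  (sl_sy' f a b i).mul_z.mono (by norm_num)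

theorem lr_dy5 : Sy 5 (dy (sl f a b i)) := (sl_sy' f a b i).der_y.mono (by norm_num)

theorem lr_dz5 : Sy 5 (dz (sl f a b i)) := (sl_sy' f a b i).der_z.mono (by norm_num)

theorem lr_ydy5 : Sy 5 (fun p => (p.1 : ℂ) * dy (sl f a b i) p) :=
  (sl_sy' f a b i).der_y.mul_y.mono (by norm_num)

theorem lr_zdy5 : Sy 5 (fun p => (p.2 : ℂ) * dy (sl f a b i) p) :=
  (sl_sy' f a b i).der_y.mul_z.mono (by norm_num)

theorem lr_ydz5 : Sy 5 (fun p => (p.1 : ℂ) * dz (sl f a b i) p) :=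
  (sl_sy' f a b i).der_z.mul_y.mono (by norm_num)

theorem lr_zdz5 : Sy 5 (fun p => (p.2 : ℂ) * dz (sl f a b i) p) :=
  (sl_sy' f a b i).der_z.mul_z.mono (by norm_num)

theorem La_zero : La ν a b 0 f = 0 := by
  rw [La_eq]
  have h : sl f a b 0 = fun p => 0 * sl f a b 0 p := by
    funext p
    rw [sl_zero, mul_zero]
  rw [h, Lf_smul ν (lr_5 a b 0 f) 0, zero_mul]

theorem La_D01 (hi : i = 1 ∨ i = 2) : La ν a b i (D 0 1 f) =
    -((if a = 1 then My ν 0 b i f else 0) + (if b = 1 then My ν a 0 i f else 0)) := by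
  rw [La_eq]
  have h : sl (D 0 1 f) a b i = fun p =>
      -(if a = 1 then (p.1 : ℂ) * sl f 0 b i p else 0) -
        (if b = 1 then (p.1 : ℂ) * sl f a 0 i p else 0) := by
    funext p
    rw [sl_D01 f a b i hi]
    split_ifs <;> ring
  rw [h, lr_comb ν (lr_sy_if _ (lr_y5 0 b i f)) (lr_sy_if _ (lr_y5 a 0 i f)),
    lr_Lf_if ν _ (lr_y5 0 b i f), lr_Lf_if ν _ (lr_y5 a 0 i f)]
  unfold My
  ring

theorem La_D02 (hi : i = 1 ∨ i = 2) : La ν a b i (D 0 2 f) =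
    -((if a = 1 then Mz ν 0 b i f else 0) + (if b = 1 then Mz ν a 0 i f else 0)) := by
  rw [La_eq]
  have h : sl (D 0 2 f) a b i = fun p =>
      -(if a = 1 then (p.2 : ℂ) * sl f 0 b i p else 0) -
        (if b = 1 then (p.2 : ℂ) * sl f a 0 i p else 0) := by
    funext p
    rw [sl_D02 f a b i hi]
    split_ifs <;> ring
  rw [h, lr_comb ν (lr_sy_if _ (lr_z5 0 b i f)) (lr_sy_if _ (lr_z5 a 0 i f)),
    lr_Lf_if ν _ (lr_z5 0 b i f), lr_Lf_if ν _ (lr_z5 a 0 i f)]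
  unfold Mz
  ring

theorem La_D03 (hi : i = 1 ∨ i = 2) : La ν a b i (D 0 3 f) =
    -((if a = 1 then La ν 0 b i f else 0) + (if b = 1 then La ν a 0 i f else 0)) := by
  rw [La_eq]
  have h : sl (D 0 3 f) a b i = fun p =>
      -(if a = 1 then sl f 0 b i p else 0) - (if b = 1 then sl f a 0 i p else 0) := by
    funext p
    rw [sl_D03 f a b i hi]
    split_ifs <;> ring
  rw [h, lr_comb ν (lr_sy_if _ (lr_5 0 b i f)) (lr_sy_if _ (lr_5 a 0 i f)),
    lr_Lf_if ν _ (lr_5 0 b i f), lr_Lf_if ν _ (lr_5 a 0 i f)]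
  simp only [La_eq]
  ring

theorem La_D12 (hi : i = 1 ∨ i = 2) : La ν a b i (D 1 2 f) =
    -(if i = 2 then La ν a b 1 f else 0) := by
  rw [La_eq]
  have h : sl (D 1 2 f) a b i = fun p => -((p.2 : ℂ) * dy (sl f a b i) p) -
      (if i = 2 then sl f a b 1 p else 0) := by
    funext p
    rw [sl_D12 f a b i hi]
    ring
  rw [h, lr_comb ν (lr_zdy5 a b i f) (lr_sy_if _ (lr_5 a b 1 f)), Lf_z_dy ν (lr_4 a b i f),
    lr_Lf_if ν _ (lr_5 a b 1 f)]
  simp only [La_eq]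
  ring

theorem La_D13 (hi : i = 1 ∨ i = 2) : La ν a b i (D 1 3 f) = 0 := by
  rw [La_eq]
  have h : sl (D 1 3 f) a b i = fun p => -(dy (sl f a b i) p) := by
    funext p
    rw [sl_D13 f a b i hi]
  rw [h, lr_neg ν (lr_dy5 a b i f), Lf_dy ν (lr_5 a b i f), neg_zero]

theorem La_D23 (hi : i = 1 ∨ i = 2) : La ν a b i (D 2 3 f) = (Complex.I * ν) * La ν a b i f := by
  rw [La_eq]
  have h : sl (D 2 3 f) a b i = fun p => -(dz (sl f a b i) p) := by
    funext p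
    rw [sl_D23 f a b i hi]
  rw [h, lr_neg ν (lr_dz5 a b i f), Lf_dz ν (lr_5 a b i f), La_eq]
  ring

theorem La_D21 (hi : i = 1 ∨ i = 2) : La ν a b i (D 2 1 f) =
    (Complex.I * ν) * My ν a b i f - (if i = 1 then La ν a b 2 f else 0) := by
  rw [La_eq]
  have h : sl (D 2 1 f) a b i = fun p => -((p.1 : ℂ) * dz (sl f a b i) p) -
      (if i = 1 then sl f a b 2 p else 0) := by
    funext p
    rw [sl_D21 f a b i hi]
    ring
  rw [h, lr_comb ν (lr_ydz5 a b i f) (lr_sy_if _ (lr_5 a b 2 f)), Lf_y_dz ν (lr_4 a b i f),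
    lr_Lf_if ν _ (lr_5 a b 2 f)]
  simp only [La_eq, My]
  ring

theorem La_D00 (hi : i = 1 ∨ i = 2) : La ν a b i (D 0 0 f) =
    (1 + ((a : ℕ) : ℂ) + ((b : ℕ) : ℂ)) * La ν a b i f := by
  rw [La_eq]
  have h : sl (D 0 0 f) a b i = fun p =>
      (1 + ((a : ℕ) : ℂ) + ((b : ℕ) : ℂ)) * sl f a b i p := by
    funext p
    rw [sl_D00 f a b i hi]
  rw [h, Lf_smul ν (lr_5 a b i f), La_eq]

theorem La_D11 (hi : i = 1 ∨ i = 2) : La ν a b i (D 1 1 f) =
    La ν a b i f - (if i = 1 then La ν a b 1 f else 0) := by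
  rw [La_eq]
  have h : sl (D 1 1 f) a b i = fun p => -((p.1 : ℂ) * dy (sl f a b i) p) -
      (if i = 1 then sl f a b 1 p else 0) := by
    funext p
    rw [sl_D11 f a b i hi]
    ring
  rw [h, lr_comb ν (lr_ydy5 a b i f) (lr_sy_if _ (lr_5 a b 1 f)), Lf_y_dy ν (lr_4 a b i f),
    lr_Lf_if ν _ (lr_5 a b 1 f)]
  simp only [La_eq]
  ring

theorem La_D22 (hi : i = 1 ∨ i = 2) : La ν a b i (D 2 2 f) =
    (Complex.I * ν) * Mz ν a b i f + La ν a b i f - (if i = 2 then La ν a b 2 f else 0) := by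
  rw [La_eq]
  have h : sl (D 2 2 f) a b i = fun p => -((p.2 : ℂ) * dz (sl f a b i) p) -
      (if i = 2 then sl f a b 2 p else 0) := by
    funext p
    rw [sl_D22 f a b i hi]
    ring
  rw [h, lr_comb ν (lr_zdz5 a b i f) (lr_sy_if _ (lr_5 a b 2 f)), Lf_z_dz ν (lr_4 a b i f),
    lr_Lf_if ν _ (lr_5 a b 2 f)]
  simp only [La_eq, Mz]
  ring

end SoCo
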