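import Mathlib

namespace SoCo

/-- The order of the nine subspaces. -/
def le9 : Fin 9 → Fin 9 → Bool
  | 0, _ => true
  | 1, j => decide (1 ≤ j)
  | 2, j => decide (j = 2 ∨ j = 4 ∨ 6 ≤ j)
  | 3, j => decide (3 ≤ j)
  | 4, j => decide (j = 4 ∨ 6 ≤ j)
  | 5, j => decide (5 ≤ j)
  | 6, j => decide (6 ≤ j)
  | 7, j => decide (7 ≤ j)
  | 8, j => decide (8 ≤ j)

end SoCo
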