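import Pool.Agent.H.MP_0f3f77_al.Subs

/-!
The nine subspaces are invariant under `M_3`; see the explanation in `Subs`.
-/

open scoped Topology ContDiff
open MeasureTheory

noncomputable section

namespace SoCo

theorem m3decomp_real (a b c d : ℝ) (h : a * d - b * c ≠ 0) : ∃ (s t : ℝ) (_ : s ≠ 0)
    (_ : t ≠ 0) (r θ : ℝ), s * (Real.cos θ + r * Real.sin θ) = a ∧
      s * (-Real.sin θ + r * Real.cos θ) = b ∧ t * Real.sin θ = c ∧ t * Real.cos θ = d := by
  set z : ℂ := ⟨d, c⟩ with hz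
  have hz0 : z ≠ 0 := by
    intro h0
    have h1 : d = 0 := congrArg Complex.re h0
    have h2 : c = 0 := congrArg Complex.im h0
    apply h
    rw [h1, h2]
    ring
  have ht : ‖z‖ ≠ 0 := norm_ne_zero_iff.2 hz0
  have hc : ‖z‖ * Real.cos z.arg = d := by
    rw [Complex.cos_arg hz0]
    field_simp
    rfl
  have hs : ‖z‖ * Real.sin z.arg = c := by
    rw [Complex.sin_arg]
    field_simp
    rfl
  have hcs : Real.sin z.arg ^ 2 + Real.cos z.arg ^ 2 = 1 := Real.sin_sq_add_cos_sq _
  set C := Real.cos z.arg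
  set S := Real.sin z.arg
  have hs0 : a * C - b * S ≠ 0 := by
    intro h0
    apply h
    rw [← hc, ← hs]
    linear_combination ‖z‖ * h0
  refine ⟨a * C - b * S, ‖z‖, hs0, ht, (a * S + b * C) / (a * C - b * S), z.arg, ?_, ?_, hs, hc⟩
  · have h1 : (a * C - b * S) * (C + (a * S + b * C) / (a * C - b * S) * S) =
        (a * C - b * S) * C + (a * S + b * C) * S := by
      field_simp
    rw [h1]
    linear_combination a * hcs
  · have h1 : (a * C - b * S) * (-S + (a * S + b * C) / (a * C - b * S) * C) =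
        -(a * C - b * S) * S + (a * S + b * C) * C := by
      field_simp
      try ring
    rw [h1]
    linear_combination b * hcs

/-- Decomposition of `M_3`.  `A = b R_θ` for the upper left block `A` of `g`, `b` upper
triangular (choose `θ` such that the second row of `A R_θ⁻¹` is `(0, t)`),
`b = (s, s r; 0, t)`. -/
theorem m3_decomp (g : GL (Fin 4) ℝ) (hg : IsM3 g) : ∃ (s t : ℝ) (hs : s ≠ 0) (ht : t ≠ 0)
    (r θ : ℝ), g = vn ((g : Mat) 0 2, (g : Mat) 1 2) *
      (dg s 1 hs one_ne_zero * (dg 1 t one_ne_zero ht * (up r * rot θ))) := by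
  have hA : (g : Mat) = !![(g : Mat) 0 0, (g : Mat) 0 1, (g : Mat) 0 2, 0;
      (g : Mat) 1 0, (g : Mat) 1 1, (g : Mat) 1 2, 0; 0, 0, 1, 0; 0, 0, 0, 1] := by
    have h03 := hg 0 3 (by simp)
    have h13 := hg 1 3 (by simp)
    have h20 := hg 2 0 (by simp)
    have h21 := hg 2 1 (by simp)
    have h22 := hg 2 2 (by simp)
    have h23 := hg 2 3 (by simp)
    have h30 := hg 3 0 (by simp)
    have h31 := hg 3 1 (by simp)
    have h32 := hg 3 2 (by simp)
    have h33 := hg 3 3 (by simp)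
    ext i j
    fin_cases i <;> fin_cases j <;>
      simp [h03, h13, h20, h21, h22, h23, h30, h31, h32, h33]
  have hdet : (g : Mat) 0 0 * (g : Mat) 1 1 - (g : Mat) 0 1 * (g : Mat) 1 0 ≠ 0 := by
    have h1 := (isUnit_det_GL g).ne_zero
    have h2 : (g : Mat).det = (g : Mat) 0 0 * (g : Mat) 1 1 - (g : Mat) 0 1 * (g : Mat) 1 0 := by
      conv_lhs => rw [hA]
      have e : Fin.succAbove (1 : Fin 4) (2 : Fin 3) = 3 := by decide
      simp [Matrix.det_succ_row_zero, Fin.sum_univ_succ, e]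
      ring
    rwa [h2] at h1
  obtain ⟨s, t, hs, ht, r, θ, e1, e2, e3, e4⟩ := m3decomp_real _ _ _ _ hdet
  refine ⟨s, t, hs, ht, r, θ, ?_⟩
  apply Units.ext
  rw [Units.val_mul, Units.val_mul, Units.val_mul, Units.val_mul]
  change (g : Mat) = vnM ((g : Mat) 0 2, (g : Mat) 1 2) * (dgM s 1 * (dgM 1 t *
    (upM r * rotM θ)))
  conv_lhs => rw [hA]
  rw [← e1, ← e2, ← e3, ← e4]
  ext i j
  fin_cases i <;> fin_cases j <;>
    simp [vnM, dgM, upM, rotM, Matrix.mul_apply, Fin.sum_univ_four]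

end SoCo
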