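import Pool.Agent.H.MP_0f3f77_al.Defs2
import Pool.Agent.H.MP_0f3f77_al.Le9

/-!
A representation with exactly nine closed invariant subspaces, ordered by `le9`: the socle and
co-socle filtrations.

Covering pairs: `0<1, 1<2, 1<3, 2<4, 3<4, 3<5, 4<6, 5<6, 6<7, 7<8` (`cov9`, by `decide` from
`le9`).  For fixed `i` a finite set of subspaces covering `U i` has supremum `U j` with
`j ∈ semi9 i`: `0: {0,1}`, `1: {1,2,3,4}`, `2: {2,4}`, `3: {3,4,5,6}`, `4: {4,6}`, `5: {5,6}`,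
`6: {6,7}`, `7: {7,8}`, `8: {8}` (using `U 4 = U 2 ⊔ U 3`, `U 6 = U 4 ⊔ U 5`).
Socle filtration: `U 0, U 1, U 4, U 6, U 7, U 8`; co-socle filtration: `U 8, U 7, U 6, U 3, U 1, U 0`.
-/

open scoped Topology
open Filter

noncomputable section

namespace SoCo

/-- The hypotheses. -/
structure Nine {G : Type} [Group G] (σ : TRep G) (U : Fin 9 → Submodule ℂ σ.V) : Prop where
  sub : ∀ S, IsSub σ S ↔ ∃ i, S = U i
  le : ∀ i j, U i ≤ U j ↔ le9 i j = true
  four : U 4 = U 2 ⊔ U 3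
  six : U 6 = U 4 ⊔ U 5
  bot : U 0 = ⊥
  top : U 8 = ⊤

variable {G : Type} [Group G] {σ : TRep G} {U : Fin 9 → Submodule ℂ σ.V}

theorem nine_inj (h : Nine σ U) {i j : Fin 9} (hij : U i = U j) : i = j := by
  have h1 := (h.le i j).mp hij.le
  have h2 := (h.le j i).mp hij.ge
  revert i j
  have key : ∀ i j : Fin 9, le9 i j = true → le9 j i = true → i = j := by decide
  intro i j _ h1 h2
  exact key i j h1 h2

theorem Nine.covers (h : Nine σ U) (i j : Fin 9) : Covers σ (U i) (U j) ↔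
    (i, j) ∈ ([(0, 1), (1, 2), (1, 3), (2, 4), (3, 4), (3, 5), (4, 6), (5, 6), (6, 7), (7, 8)] :
      List (Fin 9 × Fin 9)) := by
  have key : ∀ i j : Fin 9, (le9 i j = true ∧ le9 j i = false ∧
      ∀ k, le9 i k = true → le9 k j = true → k = i ∨ k = j) ↔
    (i, j) ∈ ([(0, 1), (1, 2), (1, 3), (2, 4), (3, 4), (3, 5), (4, 6), (5, 6), (6, 7), (7, 8)] :
      List (Fin 9 × Fin 9)) := by decide
  rw [← key]
  constructor
  · rintro ⟨_, _, h3, h4⟩
    refine ⟨(h.le i j).mp h3.le, ?_, fun k hk1 hk2 => ?_⟩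
    · have := fun h5 => h3.not_ge ((h.le j i).mpr h5)
      simpa using this
    · rcases h4 (U k) ((h.sub _).mpr ⟨k, rfl⟩) ((h.le i k).mpr hk1) ((h.le k j).mpr hk2) with h5 | h5
      · exact Or.inl (nine_inj h h5)
      · exact Or.inr (nine_inj h h5)
  · rintro ⟨h1, h2, h3⟩
    refine ⟨(h.sub _).mpr ⟨i, rfl⟩, (h.sub _).mpr ⟨j, rfl⟩, ?_, fun X hX h4 h5 => ?_⟩
    · refine lt_of_le_not_ge ((h.le i j).mpr h1) fun h4 => ?_
      have h5 := (h.le j i).mp h4
      rw [h2] at h5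
      exact absurd h5 (by decide)
    · obtain ⟨k, rfl⟩ := (h.sub X).mp hX
      rcases h3 k ((h.le i k).mp h4) ((h.le k j).mp h5) with h6 | h6
      · exact Or.inl (congrArg U h6)
      · exact Or.inr (congrArg U h6)

/-- The supremum in the lattice. -/
def nine_sup (a b : Fin 9) : Fin 9 :=
  if le9 a b then b else if le9 b a then a else if (a, b) = (2, 3) ∨ (a, b) = (3, 2) then 4 else 6

theorem nine_sup_eq (h : Nine σ U) (a b : Fin 9) : U a ⊔ U b = U (nine_sup a b) := by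
  have key : ∀ a b : Fin 9, (le9 a b = true ∧ nine_sup a b = b) ∨
      (le9 b a = true ∧ nine_sup a b = a) ∨ (a = 2 ∧ b = 3 ∧ nine_sup a b = 4) ∨
      (a = 3 ∧ b = 2 ∧ nine_sup a b = 4) ∨ (a = 4 ∧ b = 5 ∧ nine_sup a b = 6) ∨
      (a = 5 ∧ b = 4 ∧ nine_sup a b = 6) ∨ (a = 2 ∧ b = 5 ∧ nine_sup a b = 6) ∨
      (a = 5 ∧ b = 2 ∧ nine_sup a b = 6) := by decide
  have h25 : U 2 ⊔ U 5 = U 6 := by
    have h35 : U 3 ≤ U 5 := (h.le 3 5).mpr (by decide)
    rw [h.six, h.four, sup_assoc, sup_eq_right.mpr h35]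
  rcases key a b with ⟨h1, h2⟩ | ⟨h1, h2⟩ | ⟨h1, h2, h3⟩ | ⟨h1, h2, h3⟩ | ⟨h1, h2, h3⟩ |
    ⟨h1, h2, h3⟩ | ⟨h1, h2, h3⟩ | ⟨h1, h2, h3⟩
  · rw [h2]; exact sup_eq_right.mpr ((h.le a b).mpr h1)
  · rw [h2]; exact sup_eq_left.mpr ((h.le b a).mpr h1)
  · rw [h3, h1, h2, h.four]
  · rw [h3, h1, h2, h.four, sup_comm]
  · rw [h3, h1, h2, h.six]
  · rw [h3, h1, h2, h.six, sup_comm]
  · rw [h3, h1, h2, h25]
  · rw [h3, h1, h2, sup_comm, h25]

theorem nine_refl : ∀ i : Fin 9,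
    (i, i) ∈ ([(0, 0), (0, 1), (1, 1), (1, 2), (1, 3), (1, 4), (2, 2), (2, 4), (3, 3), (3, 4),
      (3, 5), (3, 6), (4, 4), (4, 6), (5, 5), (5, 6), (6, 6), (6, 7), (7, 7), (7, 8), (8, 8)] :
      List (Fin 9 × Fin 9)) := by
  decide

theorem nine_step : ∀ i a j : Fin 9,
    (i, a) ∈ ([(0, 1), (1, 2), (1, 3), (2, 4), (3, 4), (3, 5), (4, 6), (5, 6), (6, 7), (7, 8)] :
      List (Fin 9 × Fin 9)) →
    (i, j) ∈ ([(0, 0), (0, 1), (1, 1), (1, 2), (1, 3), (1, 4), (2, 2), (2, 4), (3, 3), (3, 4),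
      (3, 5), (3, 6), (4, 4), (4, 6), (5, 5), (5, 6), (6, 6), (6, 7), (7, 7), (7, 8), (8, 8)] :
      List (Fin 9 × Fin 9)) →
    (i, nine_sup a j) ∈ ([(0, 0), (0, 1), (1, 1), (1, 2), (1, 3), (1, 4), (2, 2), (2, 4), (3, 3),
      (3, 4), (3, 5), (3, 6), (4, 4), (4, 6), (5, 5), (5, 6), (6, 6), (6, 7), (7, 7), (7, 8),
      (8, 8)] : List (Fin 9 × Fin 9)) := by
  decide +kernel

theorem Nine.semi (h : Nine σ U) (i j : Fin 9) : SemiOver σ (U i) (U j) ↔
    (i, j) ∈ ([(0, 0), (0, 1), (1, 1), (1, 2), (1, 3), (1, 4), (2, 2), (2, 4), (3, 3), (3, 4),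
      (3, 5), (3, 6), (4, 4), (4, 6), (5, 5), (5, 6), (6, 6), (6, 7), (7, 7), (7, 8), (8, 8)] :
      List (Fin 9 × Fin 9)) := by
  classical
  constructor
  · rintro ⟨_, _, S, hS, hj⟩
    have key : ∀ S : Finset (Submodule ℂ σ.V), (∀ X ∈ S, Covers σ (U i) X) →
        ∃ k : Fin 9, U i ⊔ S.sup id = U k ∧
          (i, k) ∈ ([(0, 0), (0, 1), (1, 1), (1, 2), (1, 3), (1, 4), (2, 2), (2, 4), (3, 3),
            (3, 4), (3, 5), (3, 6), (4, 4), (4, 6), (5, 5), (5, 6), (6, 6), (6, 7), (7, 7),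
            (7, 8), (8, 8)] : List (Fin 9 × Fin 9)) := by
      intro S
      induction S using Finset.induction_on with
      | empty =>
        intro _
        exact ⟨i, by rw [Finset.sup_empty, sup_bot_eq], nine_refl i⟩
      | insert X S hX ih =>
        intro hS
        obtain ⟨k, hk1, hk2⟩ := ih fun Y hY => hS Y (Finset.mem_insert_of_mem hY)
        have h1 := hS X (Finset.mem_insert_self _ _)
        obtain ⟨a, rfl⟩ := (h.sub X).mp h1.2.1
        refine ⟨nine_sup a k, ?_, nine_step i a k ((h.covers i a).mp h1) hk2⟩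
        rw [Finset.sup_insert, id_eq, sup_left_comm, hk1, nine_sup_eq h]
    obtain ⟨k, hk1, hk2⟩ := key S hS
    rw [← hj] at hk1
    rw [nine_inj h hk1]
    exact hk2
  · intro hm
    have key : ∀ i j : Fin 9,
      (i, j) ∈ ([(0, 0), (0, 1), (1, 1), (1, 2), (1, 3), (1, 4), (2, 2), (2, 4), (3, 3), (3, 4),
        (3, 5), (3, 6), (4, 4), (4, 6), (5, 5), (5, 6), (6, 6), (6, 7), (7, 7), (7, 8), (8, 8)] :
        List (Fin 9 × Fin 9)) → i = j ∨ (i, j) ∈ ([(0, 1), (1, 2), (1, 3), (2, 4), (3, 4),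
        (3, 5), (4, 6), (5, 6), (6, 7), (7, 8)] : List (Fin 9 × Fin 9)) ∨ (i = 1 ∧ j = 4) ∨
        (i = 3 ∧ j = 6) := by decide
    refine ⟨(h.sub _).mpr ⟨i, rfl⟩, (h.sub _).mpr ⟨j, rfl⟩, ?_⟩
    rcases key i j hm with h1 | h1 | ⟨h1, h2⟩ | ⟨h1, h2⟩
    · refine ⟨∅, fun X hX => absurd hX (Finset.notMem_empty _), ?_⟩
      rw [Finset.sup_empty, sup_bot_eq, h1]
    · have h2 := (h.covers i j).mpr h1
      refine ⟨{U j}, fun X hX => ?_, ?_⟩
      · rw [Finset.mem_singleton.mp hX]; exact h2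
      · rw [Finset.sup_singleton, id_eq, sup_eq_right.mpr h2.2.2.1.le]
    · subst h1 h2
      have h2 := (h.covers 1 2).mpr (by decide)
      have h3 := (h.covers 1 3).mpr (by decide)
      refine ⟨{U 2, U 3}, fun X hX => ?_, ?_⟩
      · rcases Finset.mem_insert.mp hX with h4 | h4
        · rw [h4]; exact h2
        · rw [Finset.mem_singleton.mp h4]; exact h3
      · rw [Finset.sup_insert, Finset.sup_singleton, id_eq, id_eq, ← sup_assoc,
          sup_eq_right.mpr h2.2.2.1.le, h.four]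
    · subst h1 h2
      have h2 := (h.covers 3 4).mpr (by decide)
      have h3 := (h.covers 3 5).mpr (by decide)
      refine ⟨{U 4, U 5}, fun X hX => ?_, ?_⟩
      · rcases Finset.mem_insert.mp hX with h4 | h4
        · rw [h4]; exact h2
        · rw [Finset.mem_singleton.mp h4]; exact h3
      · rw [Finset.sup_insert, Finset.sup_singleton, id_eq, id_eq, ← sup_assoc,
          sup_eq_right.mpr h2.2.2.1.le, h.six]

/-- The socle filtration. -/
def FF (U : Fin 9 → Submodule ℂ σ.V) : ℕ → Submodule ℂ σ.V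
  | 0 => U 0
  | 1 => U 1
  | 2 => U 4
  | 3 => U 6
  | 4 => U 7
  | _ => U 8

/-- The co-socle filtration. -/
def GG (U : Fin 9 → Submodule ℂ σ.V) : ℕ → Submodule ℂ σ.V
  | 0 => U 8
  | 1 => U 7
  | 2 => U 6
  | 3 => U 3
  | 4 => U 1
  | _ => U 0

theorem nine_lt (h : Nine σ U) {i j : Fin 9} (h1 : le9 i j = true) (h2 : le9 j i = false) :
    U i < U j := by
  refine lt_of_le_not_ge ((h.le i j).mpr h1) fun h4 => ?_
  have h5 := (h.le j i).mp h4
  rw [h2] at h5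
  exact absurd h5 (by decide)

theorem nine_soc (h : Nine σ U) (i j : Fin 9)
    (h1 : ∀ k : Fin 9, (i, k) ∈ ([(0, 0), (0, 1), (1, 1), (1, 2), (1, 3), (1, 4), (2, 2), (2, 4),
      (3, 3), (3, 4), (3, 5), (3, 6), (4, 4), (4, 6), (5, 5), (5, 6), (6, 6), (6, 7), (7, 7),
      (7, 8), (8, 8)] : List (Fin 9 × Fin 9)) → le9 k j = true) :
    ∀ W, SemiOver σ (U i) W → W ≤ U j := by
  intro W hW
  obtain ⟨k, rfl⟩ := (h.sub W).mp hW.2.1
  exact (h.le k j).mpr (h1 k ((h.semi i k).mp hW))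

theorem nine_cosoc (h : Nine σ U) (i j : Fin 9)
    (h1 : ∀ k : Fin 9, (k, i) ∈ ([(0, 0), (0, 1), (1, 1), (1, 2), (1, 3), (1, 4), (2, 2), (2, 4),
      (3, 3), (3, 4), (3, 5), (3, 6), (4, 4), (4, 6), (5, 5), (5, 6), (6, 6), (6, 7), (7, 7),
      (7, 8), (8, 8)] : List (Fin 9 × Fin 9)) → le9 j k = true) :
    ∀ W, SemiOver σ W (U i) → U j ≤ W := by
  intro W hW
  obtain ⟨k, rfl⟩ := (h.sub W).mp hW.1
  exact (h.le j k).mpr (h1 k ((h.semi k i).mp hW))

theorem Nine.socle (h : Nine σ U) : SocleFilt σ 5 (FF U) := by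
  refine ⟨h.bot, h.top, fun k hk => ?_⟩
  interval_cases k
  · exact ⟨nine_lt h (i := 0) (j := 1) (by decide) (by decide), (h.semi 0 1).mpr (by decide),
      nine_soc h 0 1 (by decide)⟩
  · exact ⟨nine_lt h (i := 1) (j := 4) (by decide) (by decide), (h.semi 1 4).mpr (by decide),
      nine_soc h 1 4 (by decide)⟩
  · exact ⟨nine_lt h (i := 4) (j := 6) (by decide) (by decide), (h.semi 4 6).mpr (by decide),
      nine_soc h 4 6 (by decide)⟩
  · exact ⟨nine_lt h (i := 6) (j := 7) (by decide) (by decide), (h.semi 6 7).mpr (by decide),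
      nine_soc h 6 7 (by decide)⟩
  · exact ⟨nine_lt h (i := 7) (j := 8) (by decide) (by decide), (h.semi 7 8).mpr (by decide),
      nine_soc h 7 8 (by decide)⟩

theorem Nine.cosocle (h : Nine σ U) : CosocleFilt σ 5 (GG U) := by
  refine ⟨h.top, h.bot, fun k hk => ?_⟩
  interval_cases k
  · exact ⟨nine_lt h (i := 7) (j := 8) (by decide) (by decide), (h.semi 7 8).mpr (by decide),
      nine_cosoc h 8 7 (by decide)⟩
  · exact ⟨nine_lt h (i := 6) (j := 7) (by decide) (by decide), (h.semi 6 7).mpr (by decide),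
      nine_cosoc h 7 6 (by decide)⟩
  · exact ⟨nine_lt h (i := 3) (j := 6) (by decide) (by decide), (h.semi 3 6).mpr (by decide),
      nine_cosoc h 6 3 (by decide)⟩
  · exact ⟨nine_lt h (i := 1) (j := 3) (by decide) (by decide), (h.semi 1 3).mpr (by decide),
      nine_cosoc h 3 1 (by decide)⟩
  · exact ⟨nine_lt h (i := 0) (j := 1) (by decide) (by decide), (h.semi 0 1).mpr (by decide),
      nine_cosoc h 1 0 (by decide)⟩

theorem Nine.ne (h : Nine σ U) : FF U 2 ≠ GG U 3 := by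
  intro h1
  exact absurd (nine_inj h (i := 4) (j := 3) h1) (by decide)

theorem Nine.len2 (h : Nine σ U) : HasLen σ (FF U 1) (FF U 2) 2 := by
  refine ⟨fun k => match k with
    | 0 => U 1
    | 1 => U 2
    | _ => U 4, rfl, rfl, fun k hk => ?_⟩
  interval_cases k
  · exact (h.covers 1 2).mpr (by decide)
  · exact (h.covers 2 4).mpr (by decide)

theorem Nine.len1 (h : Nine σ U) : Covers σ (FF U 3) (FF U 4) :=
  (h.covers 6 7).mpr (by decide)

end SoCo
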