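import Pool.Agent.H.MP_0f3f77_al.PhiIso

/-!
Transport of the notions of `Defs2` along an isomorphism.  For `i : TIso σ σ'` the map
`W ↦ W.map i.e` is an order isomorphism of the lattices of submodules
(`Submodule.orderIsoMapComap`) which preserves `IsSub`, hence all the notions.
-/

open scoped Topology
open Filter

noncomputable section

namespace SoCo

variable {G : Type} [Group G] {σ σ' : TRep G}

/-- The image of a submodule. -/
def TIso.im (i : TIso σ σ') (W : Submodule ℂ σ.V) : Submodule ℂ σ'.V :=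
  W.map (i.e.toLinearEquiv : σ.V →ₗ[ℂ] σ'.V)

/-- The inverse isomorphism. -/
def TIso.symm (i : TIso σ σ') : TIso σ' σ where
  e := i.e.symm
  comm g v := by
    apply i.e.injective
    rw [i.comm]
    simp

theorem TIso.mem_im (i : TIso σ σ') (W : Submodule ℂ σ.V) (v : σ'.V) :
    v ∈ i.im W ↔ i.e.symm v ∈ W := by
  unfold TIso.im
  rw [Submodule.mem_map]
  constructor
  · rintro ⟨w, hw, rfl⟩
    change i.e.symm (i.e w) ∈ W
    rwa [ContinuousLinearEquiv.symm_apply_apply]
  · intro h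
    exact ⟨i.e.symm v, h, i.e.apply_symm_apply v⟩

theorem TIso.im_symm_im (i : TIso σ σ') (W : Submodule ℂ σ.V) : i.symm.im (i.im W) = W := by
  ext v
  rw [TIso.mem_im, TIso.mem_im]
  change i.e.symm (i.e v) ∈ W ↔ v ∈ W
  rw [ContinuousLinearEquiv.symm_apply_apply]

theorem TIso.im_im_symm (i : TIso σ σ') (W : Submodule ℂ σ'.V) : i.im (i.symm.im W) = W := by
  ext v
  rw [TIso.mem_im, TIso.mem_im]
  change i.e (i.e.symm v) ∈ W ↔ v ∈ W
  rw [ContinuousLinearEquiv.apply_symm_apply]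

theorem TIso.im_mono (i : TIso σ σ') {W U : Submodule ℂ σ.V} (h : W ≤ U) : i.im W ≤ i.im U := by
  intro v hv
  rw [TIso.mem_im] at hv ⊢
  exact h hv

theorem TIso.im_le (i : TIso σ σ') (W U : Submodule ℂ σ.V) : i.im W ≤ i.im U ↔ W ≤ U := by
  constructor
  · intro h
    have := i.symm.im_mono h
    rwa [i.im_symm_im, i.im_symm_im] at this
  · exact i.im_mono

theorem TIso.im_inj (i : TIso σ σ') : Function.Injective i.im := by
  intro W U h
  rw [← i.im_symm_im W, h, i.im_symm_im]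

theorem TIso.im_lt (i : TIso σ σ') (W U : Submodule ℂ σ.V) : i.im W < i.im U ↔ W < U := by
  rw [lt_iff_le_not_ge, lt_iff_le_not_ge, i.im_le, i.im_le]

theorem TIso.isSub_mp (i : TIso σ σ') (W : Submodule ℂ σ.V) (h : IsSub σ W) :
    IsSub σ' (i.im W) := by
  obtain ⟨h1, h2⟩ := h
  refine ⟨?_, ?_⟩
  · have h3 : ((i.im W : Submodule ℂ σ'.V) : Set σ'.V) = i.e.symm ⁻¹' (W : Set σ.V) := by
      ext v
      exact i.mem_im W v
    rw [h3]
    exact h1.preimage i.e.symm.continuous
  · intro g v hv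
    rw [TIso.mem_im] at hv ⊢
    have h4 := i.symm.comm g v
    change i.e.symm (σ'.act g v) = σ.act g (i.e.symm v) at h4
    rw [h4]
    exact h2 g _ hv

theorem TIso.isSub (i : TIso σ σ') (W : Submodule ℂ σ.V) :
    IsSub σ' (i.im W) ↔ IsSub σ W := by
  constructor
  · intro h
    have := i.symm.isSub_mp _ h
    rwa [i.im_symm_im] at this
  · exact i.isSub_mp W

theorem TIso.covers (i : TIso σ σ') (W U : Submodule ℂ σ.V) :
    Covers σ' (i.im W) (i.im U) ↔ Covers σ W U := by
  unfold Covers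
  rw [i.isSub, i.isSub, i.im_lt]
  refine and_congr_right fun _ => and_congr_right fun _ => and_congr_right fun _ => ?_
  constructor
  · intro h X hX h1 h2
    rcases h (i.im X) ((i.isSub X).mpr hX) (i.im_mono h1) (i.im_mono h2) with h3 | h3
    · exact Or.inl (i.im_inj h3)
    · exact Or.inr (i.im_inj h3)
  · intro h X hX h1 h2
    have e := i.im_im_symm X
    rw [← e] at hX h1 h2 ⊢
    rw [i.isSub] at hX
    rw [i.im_le] at h1 h2
    rcases h _ hX h1 h2 with h3 | h3
    · left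
      rw [h3]
    · right
      rw [h3]

theorem TIso.hasLen_mp (i : TIso σ σ') (W U : Submodule ℂ σ.V) (n : ℕ) (h : HasLen σ W U n) :
    HasLen σ' (i.im W) (i.im U) n := by
  obtain ⟨c, h0, hn, hc⟩ := h
  refine ⟨fun k => i.im (c k), congrArg i.im h0, congrArg i.im hn, fun k hk => ?_⟩
  exact (i.covers _ _).mpr (hc k hk)

theorem TIso.hasLen (i : TIso σ σ') (W U : Submodule ℂ σ.V) (n : ℕ) :
    HasLen σ' (i.im W) (i.im U) n ↔ HasLen σ W U n := by
  constructor
  · intro h
    have := i.symm.hasLen_mp _ _ n h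
    rwa [i.im_symm_im, i.im_symm_im] at this
  · exact i.hasLen_mp W U n

theorem TIso.im_sup (i : TIso σ σ') (W U : Submodule ℂ σ.V) :
    i.im (W ⊔ U) = i.im W ⊔ i.im U :=
  Submodule.map_sup _ _ _

theorem TIso.im_bot (i : TIso σ σ') : i.im ⊥ = ⊥ := Submodule.map_bot _

theorem TIso.im_top (i : TIso σ σ') : i.im ⊤ = ⊤ := by
  ext v
  rw [i.mem_im]
  simp

theorem TIso.semiOver_mp (i : TIso σ σ') (W U : Submodule ℂ σ.V) (h : SemiOver σ W U) :
    SemiOver σ' (i.im W) (i.im U) := by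
  classical
  obtain ⟨h1, h2, S, hS, hU⟩ := h
  refine ⟨(i.isSub W).mpr h1, (i.isSub U).mpr h2, S.image i.im, ?_, ?_⟩
  · intro X hX
    obtain ⟨Y, hY, rfl⟩ := Finset.mem_image.mp hX
    exact (i.covers _ _).mpr (hS Y hY)
  · rw [hU, i.im_sup, Finset.sup_image]
    congr 1
    clear hS hU
    induction S using Finset.induction_on with
    | empty => exact i.im_bot
    | insert a s ha ih =>
      rw [Finset.sup_insert, Finset.sup_insert, i.im_sup, ih]
      rfl

theorem TIso.semiOver (i : TIso σ σ') (W U : Submodule ℂ σ.V) :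
    SemiOver σ' (i.im W) (i.im U) ↔ SemiOver σ W U := by
  constructor
  · intro h
    have := i.symm.semiOver_mp _ _ h
    rwa [i.im_symm_im, i.im_symm_im] at this
  · exact i.semiOver_mp W U

theorem TIso.socle (i : TIso σ σ') (p : ℕ) (F : ℕ → Submodule ℂ σ.V) (h : SocleFilt σ p F) :
    SocleFilt σ' p (fun k => i.im (F k)) := by
  obtain ⟨h0, hp, hk⟩ := h
  refine ⟨(congrArg i.im h0).trans i.im_bot, (congrArg i.im hp).trans i.im_top, fun k hk' => ?_⟩
  obtain ⟨h1, h2, h3⟩ := hk k hk'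
  refine ⟨(i.im_lt _ _).mpr h1, (i.semiOver _ _).mpr h2, fun U hU => ?_⟩
  have e := i.im_im_symm U
  rw [← e] at hU ⊢
  rw [i.semiOver] at hU
  exact i.im_mono (h3 _ hU)

theorem TIso.cosocle (i : TIso σ σ') (p : ℕ) (F : ℕ → Submodule ℂ σ.V)
    (h : CosocleFilt σ p F) : CosocleFilt σ' p (fun k => i.im (F k)) := by
  obtain ⟨h0, hp, hk⟩ := h
  refine ⟨(congrArg i.im h0).trans i.im_top, (congrArg i.im hp).trans i.im_bot, fun k hk' => ?_⟩
  obtain ⟨h1, h2, h3⟩ := hk k hk'
  refine ⟨(i.im_lt _ _).mpr h1, (i.semiOver _ _).mpr h2, fun U hU => ?_⟩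
  have e := i.im_im_symm U
  rw [← e] at hU ⊢
  rw [i.semiOver] at hU
  exact i.im_mono (h3 _ hU)

end SoCo
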