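import Pool.Agent.H.MP_0f3f77_al.RadPi
import Pool.Agent.H.MP_0f3f77_al.Transport
import Pool.Agent.H.MP_0f3f77_al.Nine

/-!
Assembly.
-/

open scoped Topology ContDiff
open MeasureTheory

noncomputable section

namespace SoCo

theorem nine_psi (ν : ℝ) (hν : ν ≠ 0) : Nine (psiR ν) (U9 ν) where
  sub := psi_sub_iff ν hν
  le := U9_le_iff ν hν
  four := U9_four ν hν
  six := U9_six ν hν
  bot := U9_zero ν hν
  top := U9_eight ν

theorem main (ν : ℝ) (hν : ν ≠ 0) :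
    Nontrivial (Der ν 2 1 piR).V ∧ Subsingleton (Der ν 1 2 piR).V ∧
    Subsingleton (Der ν 0 3 piR).V ∧
    ∃ F G : ℕ → Submodule ℂ (Der ν 2 1 piR).V,
      SocleFilt (Der ν 2 1 piR) 5 F ∧ CosocleFilt (Der ν 2 1 piR) 5 G ∧ F 2 ≠ G 3 ∧
      HasLen (Der ν 2 1 piR) (F 1) (F 2) 2 ∧ HasLen (Der ν 2 1 piR) (F 3) (F 4) 1 := by
  obtain ⟨i⟩ := phi_iso (psiR ν) 4 (rad_psi ν hν)
  have i' : TIso (psiR ν) (Der ν 2 1 piR) := i
  have h9 := nine_psi ν hν
  have hs2 : Subsingleton (Psi ν (m := 1) (psiR ν)).V :=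
    psi_subsingleton_of_top ν (psiR ν) (psiSpan_psi ν hν)
  have hs3 : Subsingleton (Der ν 1 2 piR).V := phi_subsingleton _ hs2
  have hs4 : Subsingleton (Der ν 0 3 piR).V :=
    phi_subsingleton _ (psi_subsingleton ν (m := 0) _ hs2)
  have hlen2 : HasLen (Der ν 2 1 piR) (i'.im (FF (U9 ν) 1)) (i'.im (FF (U9 ν) 2)) 2 :=
    (i'.hasLen _ _ 2).mpr h9.len2
  refine ⟨?_, hs3, hs4, fun k => i'.im (FF (U9 ν) k), fun k => i'.im (GG (U9 ν) k),
    i'.socle 5 _ h9.socle, i'.cosocle 5 _ h9.cosocle, fun h => h9.ne (i'.im_inj h), hlen2, ?_⟩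
  · obtain ⟨c, h0, h2, hc⟩ := hlen2
    have h01 := (hc 0 (by norm_num)).2.2.1
    rw [← not_subsingleton_iff_nontrivial]
    intro hsub
    exact h01.ne (Subsingleton.elim _ _)
  · refine ⟨fun k => i'.im (FF (U9 ν) (3 + k)), rfl, rfl, ?_⟩
    intro k hk
    have : k = 0 := by omega
    subst this
    exact (i'.covers _ _).mpr h9.len1

end SoCo
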