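import Pool.Agent.H.MP_0f3f77_al.Subs

/-!
Membership in the nine subspaces in terms of weight components.

Proof.  For each functional `T`, `f ∈ KK T ↔ ∀ κ, T (pk κ f) = 0` (`ker_iff`), and
`lD ν (pk κ f) = qv ν 4 (pk κ f) + κ i qv ν 3 (pk κ f)` by `lD_eq`, `J_wt`, `pk_wt`.
-/

open scoped Topology ContDiff
open MeasureTheory

noncomputable section

namespace SoCo

theorem memsp_KK (T : Isp →L[ℂ] ℂ) (f : Isp) : f ∈ KK T ↔ ∀ κ, T (pk κ f) = 0 := by
  rw [mem_KK, ker_iff]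

theorem memsp_lD (ν : ℝ) (κ : ℤ) (f : Isp) : lD ν (pk κ f) =
    qv ν 4 (pk κ f) + κ * Complex.I * qv ν 3 (pk κ f) := by
  rw [lD_eq, J_wt κ _ (pk_wt κ f), map_smul, smul_eq_mul]
  rfl

/-- Membership in `Sp ν i` in terms of weight components. -/
theorem mem_Sp_iff (ν : ℝ) (i : Fin 9) (f : Isp) :
    f ∈ Sp ν i ↔ ∀ κ, Cond i κ (fun m => qv ν m (pk κ f)) := by
  fin_cases i <;>
    simp only [Sp, Cond, Submodule.mem_inf, memsp_KK, memsp_lD, forall_and, and_assoc,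
      Submodule.mem_top, implies_true]

end SoCo
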