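import Pool.Agent.H.MP_0f3f77_al.MemSp
import Pool.Agent.H.MP_0f3f77_al.Inv
import Pool.Agent.H.MP_0f3f77_al.Le9

/-!
`GL_4`-invariance and the family of subspaces of `ℂ^6` of a subspace of `Isp` (definitions only).
-/

open scoped Topology ContDiff
open MeasureTheory

noncomputable section

namespace SoCo

/-- Invariance under `GL_4`. -/
def Ginv (W : Submodule ℂ Isp) : Prop := ∀ g, ∀ f ∈ W, act g f ∈ W

/-- The family of subspaces of `ℂ^6` of a subspace of `Isp`. -/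
def Qf (ν : ℝ) (S : Submodule ℂ Isp) (κ : ℤ) : Submodule ℂ V6 where
  carrier := {v | ∃ f ∈ S, Wt κ f ∧ ∀ m, qv ν m f = v m}
  add_mem' := by
    rintro v w ⟨f, hf, h1, h2⟩ ⟨g, hg, h3, h4⟩
    refine ⟨f + g, S.add_mem hf hg, ?_, ?_⟩
    · intro θ; rw [map_add, h1 θ, h3 θ, smul_add]
    · intro m; rw [map_add, h2, h4]; rfl
  zero_mem' := ⟨0, S.zero_mem, fun θ => by simp, fun m => by simp⟩
  smul_mem' := by
    rintro c v ⟨f, hf, h1, h2⟩
    refine ⟨c • f, S.smul_mem c hf, ?_, ?_⟩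
    · intro θ; rw [map_smul, h1 θ, smul_comm]
    · intro m; rw [map_smul, h2]; rfl

end SoCo
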