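import Pool.Agent.H.MP_0f3f77_al.StarAll
import Pool.Agent.H.MP_0f3f77_al.GtCong
import Pool.Agent.H.MP_0f3f77_al.QfDef

/-!
`Gt ν b (D8 f) = 0` for `f ∈ N = Sp ν 0`, and its consequences.

`star_all`, proof.  Let `G = Gt ν b (D8 f)`.  For every `θ`, `act (rot θ) G = Gt ν b' (D8 f')` with
`f' = act (rot θ) f` (`Gt_rot`, `D8_rot`), and the six functionals vanish at `f'`; so by
`star_slice` `act (rot θ) G (pt l w) a c i = 0` for `i = 1, 2`, hence for `i = 0` and `i = 3` by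
the annihilation property at `pt l w` (`x_0 = (1,0,l,0)`: `v_0 = -l v_2`;
`x_1 = (0, y, z, 1)`: `v_3 = -y v_1 - z v_2`).  So `G` vanishes at `lmul (rotM (-θ)) (pt l w)` and,
by covariance, at `rmul (lmul (rotM (-θ)) (pt l w)) A` for every invertible `A`.
Every `x ∈ Om` with `m(x) := x 1 3 * x 0 0 - x 0 3 * x 1 0 ≠ 0` is of this form: if
`λ = x_1(3) x_0 - x_0(3) x_1` (fourth coordinate `0`, first coordinate `m(x) ≠ 0`) and `μ` is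
a combination of `x_0, x_1` with fourth coordinate `1`, choose `θ` and `ρ > 0` with
`rot θ (λ_0, λ_1) = (ρ, 0)`, replace `λ` by `λ/ρ` and subtract a multiple of `λ` from `μ`.
(The condition with `λ_1` in place of `λ_0` is not needed.)
The set `{x ∈ Om | m(x) ≠ 0}` is dense in `Om`: for `x ∈ Om` with `m(x) = 0` consider
`x + t (e_0, e_3)`; `m` of it is `t^2 + t (x_0(0) + x_1(3)) + 0`, nonzero for small `t ≠ 0`.
`G` is continuous on `Om`, so `G = 0` on `Om`, and `G = 0` outside.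

`N_eq` (the space `N ∩ W` is the span of all `α v - ψ(α) v`), proof: `f ∈ Sp 0 ⊓ W`, `b` from
`exists_bump`.  `F = D8 f ∈ W`.  `Gt ν b F = 0` by `star_all`, so `gt_cong` for `F` gives
`F ∈ (V - ψ) W := D03 W + D13 W + (D23 - iν) W`; and
`D8 f - (iν)^8 f = (D23 - iν) (∑_{j<8} (iν)^(7-j) D23^j f)`, so `(iν)^8 f ∈ (V - ψ) W`.
`W` is invariant under `D23` (`opg_mem`).

`Rop`: `Gt ν b ∘ D8`; `q (Rop f) = (2π)^3 (iν)^8 q f` by `gt_cong` with `W = ⊤`, `q_D23`, `q_D13`,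
`q_D03` and `q_D8`.
-/

open scoped Topology ContDiff
open MeasureTheory

noncomputable section

namespace SoCo

theorem neq_D8_app (f : Isp) : D8 f =
    D 2 3 (D 2 3 (D 2 3 (D 2 3 (D 2 3 (D 2 3 (D 2 3 (D 2 3 f))))))) := by
  simp only [D8, pow_succ, pow_zero, one_mul, ContinuousLinearMap.mul_apply]
  rfl

theorem neq_pow (c : ℂ) (f : Isp) (W : Submodule ℂ Isp) (hW : ∀ g ∈ W, D 2 3 g ∈ W)
    (hf : f ∈ W) : ∃ y ∈ W, D8 f = (D 2 3 y - c • y) + c ^ 8 • f := by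
  have h1 := hW _ hf
  have h2 := hW _ h1
  have h3 := hW _ h2
  have h4 := hW _ h3
  have h5 := hW _ h4
  have h6 := hW _ h5
  have h7 := hW _ h6
  refine ⟨c ^ 7 • f + c ^ 6 • D 2 3 f + c ^ 5 • D 2 3 (D 2 3 f) +
    c ^ 4 • D 2 3 (D 2 3 (D 2 3 f)) + c ^ 3 • D 2 3 (D 2 3 (D 2 3 (D 2 3 f))) +
    c ^ 2 • D 2 3 (D 2 3 (D 2 3 (D 2 3 (D 2 3 f)))) +
    c • D 2 3 (D 2 3 (D 2 3 (D 2 3 (D 2 3 (D 2 3 f))))) +
    D 2 3 (D 2 3 (D 2 3 (D 2 3 (D 2 3 (D 2 3 (D 2 3 f)))))), ?_, ?_⟩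
  · exact W.add_mem (W.add_mem (W.add_mem (W.add_mem (W.add_mem (W.add_mem (W.add_mem
      (W.smul_mem _ hf) (W.smul_mem _ h1)) (W.smul_mem _ h2)) (W.smul_mem _ h3))
      (W.smul_mem _ h4)) (W.smul_mem _ h5)) (W.smul_mem _ h6)) h7
  · rw [neq_D8_app]
    simp only [map_add, map_smul]
    module

theorem N_eq (ν : ℝ) (hν : ν ≠ 0) (W : Submodule ℂ Isp) (hW : IsClosed (W : Set Isp))
    (hg : Ginv W) (f : Isp) (hf : f ∈ Sp ν 0) (hfW : f ∈ W) :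
    ∃ y1 ∈ W, ∃ y2 ∈ W, ∃ y3 ∈ W,
      f = D 0 3 y1 + D 1 3 y2 + (D 2 3 y3 - (Complex.I * ν) • y3) := by
  obtain ⟨γ, hγ, -⟩ := exists_opg (Eij 2 3)
  have hD : ∀ g ∈ W, D 2 3 g ∈ W := opg_mem hγ W hW fun t f hf => hg (γ t) f hf
  obtain ⟨b, hb, hb1⟩ := exists_bump ν hν
  set c : ℂ := Complex.I * ν with hc
  obtain ⟨y, hyW, hy⟩ := neq_pow c f W hD hfW
  have hFW : D8 f ∈ W := by
    rw [neq_D8_app]
    exact hD _ (hD _ (hD _ (hD _ (hD _ (hD _ (hD _ (hD _ hfW)))))))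
  obtain ⟨y1, h1, y2, h2, y3, h3, h⟩ := gt_cong ν hν b hb W hW hg (D8 f) hFW
  rw [star_all ν hν b hb f hf, hb1, mul_one, zero_sub, ← hc] at h
  set p : ℂ := (2 * Real.pi) ^ 3 with hp
  have hp0 : p ≠ 0 := by
    rw [hp]
    have : (Real.pi : ℂ) ≠ 0 := by exact_mod_cast Real.pi_ne_zero
    exact pow_ne_zero 3 (mul_ne_zero two_ne_zero this)
  have hc0 : c ≠ 0 := by
    rw [hc]
    exact mul_ne_zero Complex.I_ne_zero (by exact_mod_cast hν)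
  have hk : p * c ^ 8 ≠ 0 := mul_ne_zero hp0 (pow_ne_zero 8 hc0)
  refine ⟨-(p * c ^ 8)⁻¹ • y1, W.smul_mem _ h1, -(p * c ^ 8)⁻¹ • y2, W.smul_mem _ h2,
    -(p * c ^ 8)⁻¹ • (y3 + p • y), W.smul_mem _ (W.add_mem h3 (W.smul_mem _ hyW)), ?_⟩
  have e1 : D 0 3 (-(p * c ^ 8)⁻¹ • y1) + D 1 3 (-(p * c ^ 8)⁻¹ • y2) +
      (D 2 3 (-(p * c ^ 8)⁻¹ • (y3 + p • y)) - c • (-(p * c ^ 8)⁻¹ • (y3 + p • y))) =
      -(p * c ^ 8)⁻¹ • ((D 0 3 y1 + D 1 3 y2 + (D 2 3 y3 - c • y3)) +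
        p • (D 2 3 y - c • y)) := by
    simp only [map_add, map_smul]
    module
  have e2 : D 2 3 y - c • y = D8 f - c ^ 8 • f := by
    rw [hy]
    abel
  rw [e1, ← h, e2]
  have e3 : -(p • D8 f) + p • (D8 f - c ^ 8 • f) = (-(p * c ^ 8)) • f := by module
  rw [e3, smul_smul, neg_mul_neg, inv_mul_cancel₀ hk, one_smul]

end SoCo
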