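import Pool.Agent.H.MP_0f3f77_al.Subs

/-!
The nine subspaces are invariant under `M_3`; see the explanation in `Subs`.
-/

open scoped Topology ContDiff
open MeasureTheory

noncomputable section

namespace SoCo

theorem nun_mem (ν : ℝ) (f : Isp) : f ∈ Sp ν 0 ↔ ∀ θ : ℝ, ∀ i : Fin 4, (i = 1 ∨ i = 2) →
    cc ν i (act (rot θ) f) = 0 ∧ dd ν i (act (rot θ) f) = 0 ∧ ee ν i (act (rot θ) f) = 0 := by
  have h : f ∈ Sp ν 0 ↔ (((((∀ θ, cc ν 1 (act (rot θ) f) = 0) ∧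
      ∀ θ, cc ν 2 (act (rot θ) f) = 0) ∧ ∀ θ, dd ν 1 (act (rot θ) f) = 0) ∧
      ∀ θ, dd ν 2 (act (rot θ) f) = 0) ∧ ∀ θ, ee ν 1 (act (rot θ) f) = 0) ∧
      ∀ θ, ee ν 2 (act (rot θ) f) = 0 := Iff.rfl
  rw [h]
  constructor
  · rintro ⟨⟨⟨⟨⟨h1, h2⟩, h3⟩, h4⟩, h5⟩, h6⟩ θ i (rfl | rfl)
    · exact ⟨h1 θ, h3 θ, h5 θ⟩
    · exact ⟨h2 θ, h4 θ, h6 θ⟩
  · intro h
    exact ⟨⟨⟨⟨⟨fun θ => (h θ 1 (Or.inl rfl)).1, fun θ => (h θ 2 (Or.inr rfl)).1⟩,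
      fun θ => (h θ 1 (Or.inl rfl)).2.1⟩, fun θ => (h θ 2 (Or.inr rfl)).2.1⟩,
      fun θ => (h θ 1 (Or.inl rfl)).2.2⟩, fun θ => (h θ 2 (Or.inr rfl)).2.2⟩

theorem nun_rot_un (θ : ℝ) (u : R3) : rot θ * un u =
    un (Real.cos θ * u.1 - Real.sin θ * u.2.1, Real.sin θ * u.1 + Real.cos θ * u.2.1, u.2.2) *
      rot θ := by
  apply Units.ext
  rw [Units.val_mul, Units.val_mul]
  change rotM θ * unM u = unM _ * rotM θ
  ext i j
  fin_cases i <;> fin_cases j <;>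
    simp [rotM, unM, Matrix.mul_apply, Fin.sum_univ_four] <;> ring

/-- `N` is invariant under `V_4` and the Lie algebra of `V_4` acts through `ψ`:
`rot θ un(u) rot(-θ) = un(R u)` with the same third coordinate, and `q_un`. -/
theorem N_un (ν : ℝ) (u : R3) : ∀ f ∈ Sp ν 0, act (un u) f ∈ Sp ν 0 := by
  intro f hf
  rw [nun_mem] at hf ⊢
  intro θ i hi
  rw [← act_mul, nun_rot_un, act_mul]
  obtain ⟨h1, h2, h3⟩ := q_un ν
    (Real.cos θ * u.1 - Real.sin θ * u.2.1, Real.sin θ * u.1 + Real.cos θ * u.2.1, u.2.2) i hi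
    (act (rot θ) f)
  obtain ⟨g1, g2, g3⟩ := hf θ i hi
  rw [h1, h2, h3, g1, g2, g3]
  simp

theorem nun_E03 : Eij 0 3 = !![0, 0, 0, 1; 0, 0, 0, 0; 0, 0, 0, 0; 0, 0, 0, 0] := by
  ext i j
  fin_cases i <;> fin_cases j <;> simp [Eij, Matrix.single_apply]

theorem nun_E13 : Eij 1 3 = !![0, 0, 0, 0; 0, 0, 0, 1; 0, 0, 0, 0; 0, 0, 0, 0] := by
  ext i j
  fin_cases i <;> fin_cases j <;> simp [Eij, Matrix.single_apply]

theorem nun_E23 : Eij 2 3 = !![0, 0, 0, 0; 0, 0, 0, 0; 0, 0, 0, 1; 0, 0, 0, 0] := by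
  ext i j
  fin_cases i <;> fin_cases j <;> simp [Eij, Matrix.single_apply]

theorem nun_D03 (θ : ℝ) (f : Isp) : act (rot θ) (D 0 3 f) =
    (Real.cos θ : ℂ) • D 0 3 (act (rot θ) f) + (Real.sin θ : ℂ) • D 1 3 (act (rot θ) f) := by
  unfold D
  rw [act_dop, ← dop_smul, ← dop_smul, ← dop_add]
  congr 2
  change rotM θ * Eij 0 3 * rotM (-θ) = _
  ext i j
  fin_cases i <;> fin_cases j <;>
    simp [rotM, nun_E03, nun_E13, nun_E23, Matrix.mul_apply, Fin.sum_univ_four]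

theorem nun_D13 (θ : ℝ) (f : Isp) : act (rot θ) (D 1 3 f) =
    ((-Real.sin θ : ℝ) : ℂ) • D 0 3 (act (rot θ) f) +
      (Real.cos θ : ℂ) • D 1 3 (act (rot θ) f) := by
  unfold D
  rw [act_dop, ← dop_smul, ← dop_smul, ← dop_add]
  congr 2
  change rotM θ * Eij 1 3 * rotM (-θ) = _
  ext i j
  fin_cases i <;> fin_cases j <;>
    simp [rotM, nun_E03, nun_E13, nun_E23, Matrix.mul_apply, Fin.sum_univ_four]

theorem nun_D23 (θ : ℝ) (f : Isp) : act (rot θ) (D 2 3 f) = D 2 3 (act (rot θ) f) := by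
  unfold D
  rw [act_dop]
  congr 2
  change rotM θ * Eij 2 3 * rotM (-θ) = _
  ext i j
  fin_cases i <;> fin_cases j <;>
    simp [rotM, nun_E03, nun_E13, nun_E23, Matrix.mul_apply, Fin.sum_univ_four]

theorem N_quot (ν : ℝ) (f : Isp) : D 0 3 f ∈ Sp ν 0 ∧ D 1 3 f ∈ Sp ν 0 ∧
    D 2 3 f - (Complex.I * ν) • f ∈ Sp ν 0 := by
  refine ⟨(nun_mem ν _).2 fun θ i hi => ?_, (nun_mem ν _).2 fun θ i hi => ?_,
    (nun_mem ν _).2 fun θ i hi => ?_⟩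
  · obtain ⟨a1, a2, a3⟩ := q_D03 ν i (act (rot θ) f) hi
    obtain ⟨b1, b2, b3⟩ := q_D13 ν i (act (rot θ) f) hi
    rw [nun_D03]
    simp only [map_add, map_smul, a1, a2, a3, b1, b2, b3, smul_zero, add_zero, and_self]
  · obtain ⟨a1, a2, a3⟩ := q_D03 ν i (act (rot θ) f) hi
    obtain ⟨b1, b2, b3⟩ := q_D13 ν i (act (rot θ) f) hi
    rw [nun_D13]
    simp only [map_add, map_smul, a1, a2, a3, b1, b2, b3, smul_zero, add_zero, and_self]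
  · obtain ⟨a1, a2, a3⟩ := q_D23 ν i (act (rot θ) f) hi
    simp only [map_sub, map_smul, nun_D23, a1, a2, a3, smul_eq_mul, sub_self, and_self]

end SoCo
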