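import Pool.Agent.H.MP_0f3f77_al.Ops

/-!
A nonzero element of `Isp`.

Proof.  For `x ∈ Om` put `f x a b i = x a 0 * x b 0 * (gram x)⁻¹ ^ 2 * cr x i` with
`cr x = (x 0 1 * x 1 2 - x 0 2 * x 1 1, x 0 2 * x 1 0 - x 0 0 * x 1 2, x 0 0 * x 1 1 - x 0 1 * x 1 0, 0)`
(cross product of the first three coordinates), and `f x = 0` outside `Om` (there `gram x = 0`,
and `0⁻¹ = 0`, so no case distinction is needed).
Smooth on `Om`; symmetric; `∑ i, cr x i * x c i = 0`; covariance:
`(rmul x A) a 0 = ∑ c, A c a * x c 0`, `gram (rmul x A) = det A ^ 2 * gram x`,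
`cr (rmul x A) = det A • cr x`, and `(det A)^(-4) * det A = (det A)^(-3)`.
At the standard pair the value with `a = b = 0`, `i = 2` is `1`.
-/

open scoped Topology ContDiff
open MeasureTheory

noncomputable section

namespace SoCo

/-- The cross product of the first three coordinates. -/
def nonzero_cr (x : E) : Fin 4 → ℝ :=
  ![x 0 1 * x 1 2 - x 0 2 * x 1 1, x 0 2 * x 1 0 - x 0 0 * x 1 2,
    x 0 0 * x 1 1 - x 0 1 * x 1 0, 0]

/-- The real values. -/
def nonzero_val (x : E) (a b : Fin 2) (i : Fin 4) : ℝ :=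
  x a 0 * x b 0 * (gram x)⁻¹ ^ 2 * nonzero_cr x i

theorem nonzero_gram (x : E) (A : Mat2) : gram (rmul x A) = A.det ^ 2 * gram x := by
  simp only [gram, rmul, Matrix.det_fin_two, Fin.sum_univ_two, Fin.sum_univ_four]
  ring

theorem nonzero_cr_rmul (x : E) (A : Mat2) (i : Fin 4) :
    nonzero_cr (rmul x A) i = A.det * nonzero_cr x i := by
  fin_cases i <;>
    simp [nonzero_cr, rmul, Matrix.det_fin_two, Fin.sum_univ_two] <;> ring

theorem nonzero_ann (x : E) (c : Fin 2) : ∑ i, nonzero_cr x i * x c i = 0 := by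
  fin_cases c <;> simp [nonzero_cr, Fin.sum_univ_four] <;> ring

theorem nonzero_smooth (a b : Fin 2) (i : Fin 4) :
    ContDiffOn ℝ ∞ (fun x : E => nonzero_val x a b i) Om := by
  have hg : ContDiff ℝ ∞ (fun x : E => gram x) := by
    unfold gram
    fun_prop
  have hi : ContDiffOn ℝ ∞ (fun x : E => (gram x)⁻¹) Om :=
    hg.contDiffOn.inv fun x hx => hx
  have hc : ContDiff ℝ ∞ (fun x : E => nonzero_cr x i) := by
    fin_cases i <;> simp [nonzero_cr] <;> fun_prop
  have ha : ContDiff ℝ ∞ (fun x : E => x a 0 * x b 0) := by fun_prop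
  exact (ha.contDiffOn.mul (hi.pow 2)).mul hc.contDiffOn

theorem nonzero_isI : IsI (fun x a b i => ((nonzero_val x a b i : ℝ) : ℂ)) := by
  refine ⟨?_, ?_, ?_, ?_, ?_⟩
  · rw [contDiffOn_pi]
    intro a
    rw [contDiffOn_pi]
    intro b
    rw [contDiffOn_pi]
    intro i
    exact Complex.ofRealCLM.contDiff.comp_contDiffOn (nonzero_smooth a b i)
  · intro x hx
    have h0 : gram x = 0 := by
      by_contra h
      exact hx h
    funext a b i
    simp [nonzero_val, h0]
  · intro x a b i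
    simp only [nonzero_val]
    rw [mul_comm (x a 0) (x b 0)]
  · intro x a b c
    have h := nonzero_ann x c
    have h2 : ∑ i, nonzero_val x a b i * x c i = 0 := by
      simp only [nonzero_val]
      have : ∀ i, x a 0 * x b 0 * (gram x)⁻¹ ^ 2 * nonzero_cr x i * x c i =
          x a 0 * x b 0 * (gram x)⁻¹ ^ 2 * (nonzero_cr x i * x c i) := fun i => by ring
      simp only [this]
      rw [← Finset.mul_sum, h, mul_zero]
    exact_mod_cast congrArg (fun r : ℝ => (r : ℂ)) h2
  · intro x A hA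
    funext a b i
    have h1 : nonzero_val (rmul x A) a b i =
        (A.det)⁻¹ ^ 3 * ∑ c, ∑ d, A c a * A d b * nonzero_val x c d i := by
      simp only [nonzero_val]
      rw [nonzero_gram, nonzero_cr_rmul, mul_inv]
      simp only [rmul, Fin.sum_univ_two]
      field_simp
    rw [rho]
    simp only [h1]
    push_cast
    rfl

theorem exists_ne_zero : ∃ f : Isp, f ≠ 0 := by
  refine ⟨mkI _ nonzero_isI, ?_⟩
  intro h
  have h1 : mkI _ nonzero_isI (fun a i => if (a : ℕ) = (i : ℕ) then (1 : ℝ) else 0) 0 0 2 = 0 := by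
    rw [h]
    rfl
  rw [mkI_app] at h1
  have h2 : nonzero_val (fun a i => if (a : ℕ) = (i : ℕ) then (1 : ℝ) else 0) 0 0 2 = 1 := by
    simp [nonzero_val, nonzero_cr, gram, Fin.sum_univ_four]
  rw [h2] at h1
  simp at h1

end SoCo
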