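import Pool.Agent.H.MP_0f3f77_al.DopBound
import Pool.Agent.H.MP_0f3f77_al.ActCont

/-!
One-parameter groups.

`opg_point`, proof.  Let `m t = (γ t)⁻¹` (matrix), `m' = -m γ' m = -m (γ X) m = -(X * m)`
(derivative of the inverse: from `γ t * m t = 1`, or `HasDerivAt.ringInverse`/`hasFDerivAt_ringInverse`,
or use `m t = γ (-t)` together with `γ (-t) * X = X * γ (-t)`).
For `x ∈ Om`, `act (γ t) f x a b i = ∑ k, (m t) k i * f (lmul (m t) x) a b k`; by the product rule
and the chain rule its derivative is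
`-∑ k, (X * m) k i * f (m x) a b k - ∑ k, m k i * (fderiv f (m x) (lmul X (lmul m x))) a b k`,
and this is `act (γ t) (dop X f) x a b i` (`dop_app` at `lmul m x ∈ Om`, because
`∑ k, m k i * ∑ l, X l k * f_l = ∑ l, (X * m) l i * f_l`).
For `x ∉ Om` everything is `0`.

`opg_top`, proof.  Put `c s = act (γ s) (dop X f)`, a continuous function of `s`
(`act_cont_orbit`, `h.cont`).  For `t > 0`, `act (γ t) f - f = isum (volume.restrict (Set.Ioc 0 t)) c`
(evaluate at every `x`: `isum_app`, `opg_point` and the fundamental theorem of calculus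
`intervalIntegral.integral_eq_sub_of_hasDerivAt`).  Hence
`t⁻¹ • (act (γ t) f - f) - dop X f = isum (volume.restrict (Set.Ioc 0 t)) (t⁻¹ • (c s - c 0))`,
so by `pn_isum_le` its `pn n` is at most `sup_{0 < s ≤ t} pn n (c s - c 0) → 0`.
Same for `t < 0` with `Set.Ioc t 0` (or apply the case `t > 0` to the group `γ (-t)` and `-X`).

`opg_clm`: `T (act (γ (t + s)) f) - T (act (γ t) f) = (T ∘ act (γ t)) (act (γ s) f - f)` and
`opg_top`.
-/

open scoped Topology ContDiff
open MeasureTheory

noncomputable section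

namespace SoCo

/-- `γ` is a one-parameter group with generator `X`. -/
structure Opg (γ : ℝ → GL (Fin 4) ℝ) (X : Mat) : Prop where
  cont : Continuous γ
  add : ∀ s t, γ (s + t) = γ s * γ t
  deriv : ∀ t i j, HasDerivAt (fun t => ((γ t : GL (Fin 4) ℝ) : Mat) i j)
    ((((γ t : GL (Fin 4) ℝ) : Mat) * X) i j) t

theorem Opg.zero {γ : ℝ → GL (Fin 4) ℝ} {X : Mat} (h : Opg γ X) : γ 0 = 1 := by
  have := h.add 0 0
  rw [add_zero] at this
  exact mul_left_cancel (a := γ 0) (by rw [mul_one]; exact this.symm)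

end SoCo
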