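import Pool.Agent.H.MP_0f3f77_al.Opg

/-!
One-parameter groups.

`opg_point`, proof.  Let `m t = (γ t)⁻¹` (matrix), `m' = -m γ' m = -m (γ X) m = -(X * m)`
(derivative of the inverse: from `γ t * m t = 1`, or `HasDerivAt.ringInverse`/`hasFDerivAt_ringInverse`,
or use `m t = γ (-t)` together with `γ (-t) * X = X * γ (-t)`).
For `x ∈ Om`, `act (γ t) f x a b i = ∑ k, (m t) k i * f (lmul (m t) x) a b k`; by the product rule
and the chain rule its derivative is
`-∑ k, (X * m) k i * f (m x) a b k - ∑ k, m k i * (fderiv f (m x) (lmul X (lmul m x))) a b k`,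
and this is `act (γ t) (dop X f) x a b i` (`dop_app` at `lmul m x ∈ Om`, because
`∑ k, m k i * ∑ l, X l k * f_l = ∑ l, (X * m) l i * f_l`).
For `x ∉ Om` everything is `0`.

`opg_top`, proof.  Put `c s = act (γ s) (dop X f)`, a continuous function of `s`
(`act_cont_orbit`, `h.cont`).  For `t > 0`, `act (γ t) f - f = isum (volume.restrict (Set.Ioc 0 t)) c`
(evaluate at every `x`: `isum_app`, `opg_point` and the fundamental theorem of calculus
`intervalIntegral.integral_eq_sub_of_hasDerivAt`).  Hence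
`t⁻¹ • (act (γ t) f - f) - dop X f = isum (volume.restrict (Set.Ioc 0 t)) (t⁻¹ • (c s - c 0))`,
so by `pn_isum_le` its `pn n` is at most `sup_{0 < s ≤ t} pn n (c s - c 0) → 0`.
Same for `t < 0` with `Set.Ioc t 0` (or apply the case `t > 0` to the group `γ (-t)` and `-X`).

`opg_clm`: `T (act (γ (t + s)) f) - T (act (γ t) f) = (T ∘ act (γ t)) (act (γ s) f - f)` and
`opg_top`.
-/

open scoped Topology ContDiff
open MeasureTheory

noncomputable section

namespace SoCo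

theorem opgpoint_comm {γ : ℝ → GL (Fin 4) ℝ} {X : Mat} (h : Opg γ X) (t : ℝ) :
    ((γ t : GL (Fin 4) ℝ) : Mat) * X = X * ((γ t : GL (Fin 4) ℝ) : Mat) := by
  ext i j
  have h1 : HasDerivAt (fun s => ((γ (s + t) : GL (Fin 4) ℝ) : Mat) i j)
      ((((γ t : GL (Fin 4) ℝ) : Mat) * X) i j) 0 := by
    have h2 := h.deriv t i j
    have h3 : HasDerivAt (fun s : ℝ => s + t) 1 0 := (hasDerivAt_id (0 : ℝ)).add_const t
    have h4 := HasDerivAt.comp_of_eq (0 : ℝ) h2 h3 (by simp)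
    simpa [Function.comp_def] using h4
  have h5 : HasDerivAt (fun s => ((γ (s + t) : GL (Fin 4) ℝ) : Mat) i j)
      ((X * ((γ t : GL (Fin 4) ℝ) : Mat)) i j) 0 := by
    have h6 : (fun s => ((γ (s + t) : GL (Fin 4) ℝ) : Mat) i j) = fun s =>
        ∑ k, ((γ s : GL (Fin 4) ℝ) : Mat) i k * ((γ t : GL (Fin 4) ℝ) : Mat) k j := by
      funext s
      rw [h.add, Units.val_mul, Matrix.mul_apply]
    rw [h6, Matrix.mul_apply]
    apply HasDerivAt.fun_sum
    intro k _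
    have h7 := (h.deriv 0 i k).mul_const (((γ t : GL (Fin 4) ℝ) : Mat) k j)
    rw [h.zero, Units.val_one, one_mul] at h7
    exact h7
  exact h1.unique h5

theorem opgpoint_inv {γ : ℝ → GL (Fin 4) ℝ} {X : Mat} (h : Opg γ X) (t : ℝ) :
    (γ t)⁻¹ = γ (-t) := by
  rw [inv_eq_iff_mul_eq_one, ← h.add, add_neg_cancel, h.zero]

/-- The derivative of the inverse. -/
theorem opgpoint_deriv {γ : ℝ → GL (Fin 4) ℝ} {X : Mat} (h : Opg γ X) (t : ℝ) (i j : Fin 4) :
    HasDerivAt (fun t => (((γ t)⁻¹ : GL (Fin 4) ℝ) : Mat) i j)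
      (-(X * (((γ t)⁻¹ : GL (Fin 4) ℝ) : Mat)) i j) t := by
  have e : (fun t => (((γ t)⁻¹ : GL (Fin 4) ℝ) : Mat) i j) =
      fun t => ((γ (-t) : GL (Fin 4) ℝ) : Mat) i j := by
    funext s
    rw [opgpoint_inv h]
  rw [e, opgpoint_inv h, ← opgpoint_comm h (-t)]
  have h1 := h.deriv (-t) i j
  have h2 : HasDerivAt (fun s : ℝ => -s) (-1) t := hasDerivAt_neg t
  have h3 := HasDerivAt.comp_of_eq t h1 h2 rfl
  simpa [Function.comp_def] using h3

theorem opg_point {γ : ℝ → GL (Fin 4) ℝ} {X : Mat} (h : Opg γ X) (f : Isp) (x : E)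
    (a b : Fin 2) (i : Fin 4) (t : ℝ) :
    HasDerivAt (fun t => act (γ t) f x a b i) (act (γ t) (dop X f) x a b i) t := by
  by_cases hx : x ∈ Om
  · have hm : ∀ s, lmul (((γ s)⁻¹ : GL (Fin 4) ℝ) : Mat) x ∈ Om := fun s =>
      (lmul_mem_Om _ (isUnit_det_GL _) x).2 hx
    have hc : HasDerivAt (fun s => lmul (((γ s)⁻¹ : GL (Fin 4) ℝ) : Mat) x)
        (-(lmul X (lmul (((γ t)⁻¹ : GL (Fin 4) ℝ) : Mat) x))) t := by
      rw [← lmul_mul]
      refine hasDerivAt_pi.2 fun c => hasDerivAt_pi.2 fun j => ?_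
      have e1 : (-(lmul (X * (((γ t)⁻¹ : GL (Fin 4) ℝ) : Mat)) x)) c j =
          ∑ l, -(X * (((γ t)⁻¹ : GL (Fin 4) ℝ) : Mat)) j l * x c l := by
        simp only [Pi.neg_apply, lmul_app, neg_mul, Finset.sum_neg_distrib]
      rw [e1]
      simp only [lmul_app]
      exact HasDerivAt.fun_sum fun l _ => (opgpoint_deriv h t j l).mul_const _
    have hf : HasDerivAt (fun s => (f : E → Fv) (lmul (((γ s)⁻¹ : GL (Fin 4) ℝ) : Mat) x))
        (fderiv ℝ (f : E → Fv) (lmul (((γ t)⁻¹ : GL (Fin 4) ℝ) : Mat) x)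
          (-(lmul X (lmul (((γ t)⁻¹ : GL (Fin 4) ℝ) : Mat) x)))) t :=
      HasFDerivAt.comp_hasDerivAt t (f.diffAt _ (hm t)).hasFDerivAt hc
    have hfk : ∀ k, HasDerivAt (fun s => f (lmul (((γ s)⁻¹ : GL (Fin 4) ℝ) : Mat) x) a b k)
        (-(fderiv ℝ (f : E → Fv) (lmul (((γ t)⁻¹ : GL (Fin 4) ℝ) : Mat) x)
          (lmul X (lmul (((γ t)⁻¹ : GL (Fin 4) ℝ) : Mat) x))) a b k) t := by
      intro k
      have h1 := hasDerivAt_pi.1 (hasDerivAt_pi.1 (hasDerivAt_pi.1 hf a) b) k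
      rw [map_neg] at h1
      exact h1
    have hmk : ∀ k, HasDerivAt (fun s => (((((γ s)⁻¹ : GL (Fin 4) ℝ) : Mat) k i : ℝ) : ℂ))
        (((-(X * (((γ t)⁻¹ : GL (Fin 4) ℝ) : Mat)) k i : ℝ) : ℂ)) t := fun k =>
      (opgpoint_deriv h t k i).ofReal_comp
    have hs : HasDerivAt (fun s => act (γ s) f x a b i)
        (∑ k, ((((-(X * (((γ t)⁻¹ : GL (Fin 4) ℝ) : Mat)) k i : ℝ) : ℂ)) *
            f (lmul (((γ t)⁻¹ : GL (Fin 4) ℝ) : Mat) x) a b k +
          (((((γ t)⁻¹ : GL (Fin 4) ℝ) : Mat) k i : ℝ) : ℂ) *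
            (-(fderiv ℝ (f : E → Fv) (lmul (((γ t)⁻¹ : GL (Fin 4) ℝ) : Mat) x)
              (lmul X (lmul (((γ t)⁻¹ : GL (Fin 4) ℝ) : Mat) x))) a b k))) t := by
      simp only [act_app]
      exact HasDerivAt.fun_sum fun k _ => (hmk k).mul (hfk k)
    convert hs using 1
    rw [act_app]
    simp only [dop_app X f _ (hm t)]
    have e2 : ∑ k, (((((γ t)⁻¹ : GL (Fin 4) ℝ) : Mat) k i : ℝ) : ℂ) *
        ∑ l, ((X l k : ℝ) : ℂ) * f (lmul (((γ t)⁻¹ : GL (Fin 4) ℝ) : Mat) x) a b l =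
        ∑ k, (((X * (((γ t)⁻¹ : GL (Fin 4) ℝ) : Mat)) k i : ℝ) : ℂ) *
          f (lmul (((γ t)⁻¹ : GL (Fin 4) ℝ) : Mat) x) a b k := by
      simp only [Matrix.mul_apply, Complex.ofReal_sum, Complex.ofReal_mul, Finset.mul_sum,
        Finset.sum_mul]
      rw [Finset.sum_comm]
      refine Finset.sum_congr rfl fun k _ => Finset.sum_congr rfl fun l _ => ?_
      ring
    simp only [mul_sub, Finset.sum_sub_distrib, Finset.sum_add_distrib, e2]
    rw [← sub_eq_zero]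
    simp only [Complex.ofReal_neg, neg_mul, Finset.sum_neg_distrib]
    ring
  · have h0 : ∀ (g : GL (Fin 4) ℝ) (f' : Isp), act g f' x a b i = 0 := by
      intro g f'
      rw [(isI (act g f')).zero_off x hx]
      rfl
    simp only [h0]
    exact hasDerivAt_const t 0

end SoCo
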