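import Pool.Agent.H.MP_0f3f77_al.Geo

/-!
The action of the group and of the Lie algebra on `Isp`.
-/

open scoped Topology ContDiff
open MeasureTheory

noncomputable section

namespace SoCo

theorem isUnit_det_GL (g : GL (Fin 4) ℝ) : IsUnit ((g : Mat).det) :=
  (Matrix.isUnit_iff_isUnit_det _).mp g.isUnit

/-- The action of `GL_4(R)` on `Isp`. -/
def act (g : GL (Fin 4) ℝ) : Isp →ₗ[ℂ] Isp where
  toFun f := mkI (pull ((g⁻¹ : GL (Fin 4) ℝ) : Mat) f)
    (isI_pull _ (isUnit_det_GL g⁻¹) _ (isI f))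
  map_add' f h := by
    ext x a b i
    simp only [mkI_app, pull, Isp.add_app, Pi.add_apply, mul_add, Finset.sum_add_distrib]
  map_smul' c f := by
    ext x a b i
    simp only [mkI_app, pull, Isp.smul_app, Pi.smul_apply, smul_eq_mul, Finset.mul_sum,
      RingHom.id_apply]
    refine Finset.sum_congr rfl fun k _ => ?_
    ring

theorem act_app (g : GL (Fin 4) ℝ) (f : Isp) (x : E) (a b : Fin 2) (i : Fin 4) :
    act g f x a b i = ∑ k, (((g⁻¹ : GL (Fin 4) ℝ) : Mat) k i : ℂ) *
      f (lmul ((g⁻¹ : GL (Fin 4) ℝ) : Mat) x) a b k := rfl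

theorem act_coe (g : GL (Fin 4) ℝ) (f : Isp) :
    (act g f : E → Fv) = pull ((g⁻¹ : GL (Fin 4) ℝ) : Mat) f := rfl

theorem act_one (f : Isp) : act 1 f = f := by
  apply Subtype.ext
  change pull _ _ = _
  rw [inv_one, Units.val_one, pull_one]

theorem act_mul (g h : GL (Fin 4) ℝ) (f : Isp) : act (g * h) f = act g (act h f) := by
  apply Subtype.ext
  change pull _ _ = pull _ (pull _ _)
  rw [mul_inv_rev, Units.val_mul, pull_mul]

/-- The operator of the Lie algebra element `X`, on functions. -/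
def dopFun (X : Mat) (f : E → Fv) : E → Fv :=
  Om.indicator fun x a b i =>
    -(fderiv ℝ f x (lmul X x)) a b i - ∑ k, (X k i : ℂ) * f x a b k

/-- The derivative along a line, componentwise. -/
theorem ops_line {f : E → Fv} (h : ContDiffOn ℝ ∞ f Om) {x : E} (hx : x ∈ Om) (v : E)
    (a b : Fin 2) (i : Fin 4) :
    HasDerivAt (fun t : ℝ => f (x + t • v) a b i) ((fderiv ℝ f x v) a b i) 0 := by
  have h1 : HasFDerivAt f (fderiv ℝ f x) x :=
    ((h.contDiffAt (isOpen_Om.mem_nhds hx)).differentiableAt (by simp)).hasFDerivAt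
  have h2 : HasDerivAt (fun t : ℝ => x + t • v) v 0 := by
    have h3 := ((hasDerivAt_id (0 : ℝ)).smul_const v).const_add x
    simpa using h3
  have h3 : HasDerivAt (fun t : ℝ => f (x + t • v)) (fderiv ℝ f x v) 0 :=
    HasFDerivAt.comp_hasDerivAt_of_eq (0 : ℝ) h1 h2 (by simp)
  exact hasDerivAt_pi.1 (hasDerivAt_pi.1 (hasDerivAt_pi.1 h3 a) b) i

theorem ops_coord (x v : E) (c : Fin 2) (i : Fin 4) :
    HasDerivAt (fun t : ℝ => (((x + t • v) c i : ℝ) : ℂ)) ((v c i : ℝ) : ℂ) 0 := by
  have h1 : HasDerivAt (fun t : ℝ => (x + t • v) c i) (v c i) 0 := by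
    have h2 := ((hasDerivAt_id (0 : ℝ)).mul_const (v c i)).const_add (x c i)
    simpa using h2
  exact h1.ofReal_comp

theorem ops_rmul_line (x v : E) (t : ℝ) (A : Mat2) :
    rmul (x + t • v) A = rmul x A + t • rmul v A := by
  funext a i
  simp only [rmul_app, Pi.add_apply, Pi.smul_apply, smul_eq_mul]
  ring

theorem ops_lmul_contDiff (X : Mat) : ContDiff ℝ ∞ (fun x : E => lmul X x) := by
  unfold lmul
  fun_prop

theorem isI_dop (X : Mat) (f : E → Fv) (h : IsI f) : IsI (dopFun X f) := by
  have hoff : ∀ x, x ∉ Om → dopFun X f x = 0 := by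
    intro x hx
    rw [dopFun, Set.indicator_of_notMem hx]
  have hon : ∀ x, x ∈ Om → ∀ a b i, dopFun X f x a b i =
      -(fderiv ℝ f x (lmul X x)) a b i - ∑ k, (X k i : ℂ) * f x a b k := by
    intro x hx a b i
    rw [dopFun, Set.indicator_of_mem hx]
  refine ⟨?_, hoff, ?_, ?_, ?_⟩
  · have h1 : ContDiffOn ℝ ∞ (fun x => fderiv ℝ f x (lmul X x)) Om :=
      (h.smooth.fderiv_of_isOpen isOpen_Om (by simp)).clm_apply
        (ops_lmul_contDiff X).contDiffOn
    have h2 : ContDiffOn ℝ ∞ (fun (x : E) a b i =>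
        -(fderiv ℝ f x (lmul X x)) a b i - ∑ k, (X k i : ℂ) * f x a b k) Om := by
      rw [contDiffOn_pi]
      intro a
      rw [contDiffOn_pi]
      intro b
      rw [contDiffOn_pi]
      intro i
      apply ContDiffOn.sub
      · apply ContDiffOn.neg
        exact contDiffOn_pi.1 (contDiffOn_pi.1 (contDiffOn_pi.1 h1 a) b) i
      · apply ContDiffOn.sum
        intro k _
        apply contDiffOn_const.mul
        exact contDiffOn_pi.1 (contDiffOn_pi.1 (contDiffOn_pi.1 h.smooth a) b) k
    apply h2.congr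
    intro x hx
    funext a b i
    exact hon x hx a b i
  · intro x a b i
    by_cases hx : x ∈ Om
    · rw [hon x hx, hon x hx]
      have h1 := ops_line h.smooth hx (lmul X x) a b i
      have h2 := ops_line h.smooth hx (lmul X x) b a i
      have h3 : (fun t : ℝ => f (x + t • lmul X x) a b i) =
          fun t : ℝ => f (x + t • lmul X x) b a i := by
        funext t
        exact h.symm _ a b i
      rw [h3] at h1
      rw [h1.unique h2]
      congr 1
      refine Finset.sum_congr rfl fun k _ => ?_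
      rw [h.symm]
    · rw [hoff x hx]
      rfl
  · intro x a b c
    by_cases hx : x ∈ Om
    · have h1 : HasDerivAt (fun t : ℝ => ∑ i, f (x + t • lmul X x) a b i *
          (((x + t • lmul X x) c i : ℝ) : ℂ))
          (∑ i, ((fderiv ℝ f x (lmul X x)) a b i * (((x + (0 : ℝ) • lmul X x) c i : ℝ) : ℂ) +
            f (x + (0 : ℝ) • lmul X x) a b i * ((lmul X x c i : ℝ) : ℂ))) 0 :=
        HasDerivAt.fun_sum fun i _ =>
          (ops_line h.smooth hx (lmul X x) a b i).mul (ops_coord x (lmul X x) c i)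
      have h2 : (fun t : ℝ => ∑ i, f (x + t • lmul X x) a b i *
          (((x + t • lmul X x) c i : ℝ) : ℂ)) = fun _ => 0 := by
        funext t
        exact h.ann _ a b c
      rw [h2] at h1
      have h3 := h1.unique (hasDerivAt_const (0 : ℝ) (0 : ℂ))
      simp only [zero_smul, add_zero, Finset.sum_add_distrib] at h3
      have h4 : ∑ i, f x a b i * ((lmul X x c i : ℝ) : ℂ) =
          ∑ i, (∑ k, (X k i : ℂ) * f x a b k) * (x c i : ℂ) := by
        simp only [lmul, Complex.ofReal_sum, Complex.ofReal_mul, Finset.mul_sum, Finset.sum_mul]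
        rw [Finset.sum_comm]
        refine Finset.sum_congr rfl fun i _ => Finset.sum_congr rfl fun k _ => ?_
        ring
      have h5 : ∑ i, dopFun X f x a b i * (x c i : ℂ) =
          -(∑ i, (fderiv ℝ f x (lmul X x)) a b i * (x c i : ℂ)) -
            ∑ i, (∑ k, (X k i : ℂ) * f x a b k) * (x c i : ℂ) := by
        rw [← Finset.sum_neg_distrib, ← Finset.sum_sub_distrib]
        refine Finset.sum_congr rfl fun i _ => ?_
        rw [hon x hx]
        ring
      rw [h5, ← h4]
      linear_combination -h3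
    · simp [hoff x hx]
  · intro x A hA
    by_cases hx : x ∈ Om
    · have hx' : rmul x A ∈ Om := (rmul_mem_Om x A hA).2 hx
      funext a b i
      have h1 := ops_line h.smooth hx' (rmul (lmul X x) A) a b i
      have h2 : (fun t : ℝ => f (rmul x A + t • rmul (lmul X x) A) a b i) =
          fun t : ℝ => (((A.det)⁻¹ ^ 3 : ℝ) : ℂ) *
            ∑ c, ∑ d, (A c a : ℂ) * (A d b : ℂ) * f (x + t • lmul X x) c d i := by
        funext t
        rw [← ops_rmul_line, h.cov _ A hA]
        rfl
      have h3 : HasDerivAt (fun t : ℝ => (((A.det)⁻¹ ^ 3 : ℝ) : ℂ) *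
            ∑ c, ∑ d, (A c a : ℂ) * (A d b : ℂ) * f (x + t • lmul X x) c d i)
          ((((A.det)⁻¹ ^ 3 : ℝ) : ℂ) *
            ∑ c, ∑ d, (A c a : ℂ) * (A d b : ℂ) * (fderiv ℝ f x (lmul X x)) c d i) 0 :=
        HasDerivAt.const_mul _ (HasDerivAt.fun_sum fun c _ => HasDerivAt.fun_sum fun d _ =>
          (ops_line h.smooth hx (lmul X x) c d i).const_mul _)
      rw [h2] at h1
      have h4 := h1.unique h3
      have h5 : ∀ k, f (rmul x A) a b k = (((A.det)⁻¹ ^ 3 : ℝ) : ℂ) *
          ∑ c, ∑ d, (A c a : ℂ) * (A d b : ℂ) * f x c d k := by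
        intro k
        rw [h.cov x A hA]
        rfl
      rw [hon _ hx', lmul_rmul, h4]
      simp only [h5]
      change _ = (((A.det)⁻¹ ^ 3 : ℝ) : ℂ) *
          ∑ c, ∑ d, (A c a : ℂ) * (A d b : ℂ) * dopFun X f x c d i
      simp only [hon x hx, Fin.sum_univ_two, Fin.sum_univ_four]
      ring
    · have hx' : rmul x A ∉ Om := fun h' => hx ((rmul_mem_Om x A hA).1 h')
      rw [hoff x hx, hoff _ hx']
      funext a b i
      simp [rho]

theorem Isp.diffAt (f : Isp) (x : E) (hx : x ∈ Om) : DifferentiableAt ℝ (f : E → Fv) x :=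
  (f.contDiffAt x hx).differentiableAt (by simp)

/-- The action of the Lie algebra on `Isp`. -/
def dop (X : Mat) : Isp →ₗ[ℂ] Isp where
  toFun f := mkI (dopFun X f) (isI_dop X _ (isI f))
  map_add' f h := by
    ext x a b i
    by_cases hx : x ∈ Om
    · simp only [mkI_app, Isp.add_app, Pi.add_apply, dopFun, Set.indicator_of_mem hx, mul_add,
        Finset.sum_add_distrib, Isp.coe_add]
      rw [fderiv_add (f.diffAt x hx) (h.diffAt x hx)]
      simp only [ContinuousLinearMap.add_apply, Pi.add_apply]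
      ring
    · simp only [mkI_app, Isp.add_app, Pi.add_apply, dopFun, Set.indicator_of_notMem hx]
      simp
  map_smul' c f := by
    ext x a b i
    by_cases hx : x ∈ Om
    · simp only [mkI_app, Isp.smul_app, Pi.smul_apply, dopFun, Set.indicator_of_mem hx,
        Isp.coe_smul, RingHom.id_apply, smul_eq_mul]
      rw [fderiv_const_smul (f.diffAt x hx)]
      simp only [ContinuousLinearMap.smul_apply, Pi.smul_apply, smul_eq_mul, mul_sub,
        Finset.mul_sum, mul_neg]
      congr 1
      refine Finset.sum_congr rfl fun k _ => ?_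
      ring
    · simp only [mkI_app, Isp.smul_app, Pi.smul_apply, dopFun, Set.indicator_of_notMem hx]
      simp

theorem dop_app (X : Mat) (f : Isp) (x : E) (hx : x ∈ Om) (a b : Fin 2) (i : Fin 4) :
    dop X f x a b i = -(fderiv ℝ (f : E → Fv) x (lmul X x)) a b i -
      ∑ k, (X k i : ℂ) * f x a b k := by
  change dopFun X f x a b i = _
  rw [dopFun, Set.indicator_of_mem hx]

/-- The elementary matrix. -/
def Eij (j k : Fin 4) : Mat := Matrix.single j k 1

/-- The operators of the elementary matrices. -/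
def D (j k : Fin 4) : Isp →ₗ[ℂ] Isp := dop (Eij j k)

/-- The gauge of a pair of vectors. -/
def sz (x : E) : ℝ := 4 * (1 + ‖x‖) * (1 + (gram x)⁻¹)

/-- The size of a group element. -/
def gs (g : GL (Fin 4) ℝ) : ℝ :=
  1 + ∑ i, ∑ j, |(g : Mat) i j| + ∑ i, ∑ j, |((g⁻¹ : GL (Fin 4) ℝ) : Mat) i j|

end SoCo
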