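import Pool.Agent.H.MP_0f3f77_al.Defs2

/-!
If `radSpan σ l = 0` for some `l`, then `Φ(σ)` is isomorphic to `σ`.

`phi_iso`, proof.  `e v = (mk v)_l`, compatible, continuous (`continuous_pi`, `Submodule.mkQL`).
Inverse: for a compatible sequence `y`, `y l0 ∈ σ.V ⧸ radSpan σ l0 = σ.V ⧸ ⊥ ≅ σ.V`
(`Submodule.quotEquivOfEqBot`; the quotient map by `⊥` is a continuous open bijection, so the
inverse is continuous).  For `l ≤ l0` the component `y l` is the image of `y l0`; for `l ≥ l0` also
`radSpan σ l = ⊥` and the maps `factor` between these quotients are injective, so `y l = mk v`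
for the same `v`.
Equivariance: by `quotOp_mk`.
-/

open scoped Topology
open Filter

noncomputable section

namespace SoCo

/-- Isomorphisms of representations. -/
structure TIso {G : Type} [Group G] (σ σ' : TRep G) where
  e : σ.V ≃L[ℂ] σ'.V
  comm : ∀ g v, e (σ.act g v) = σ'.act g (e v)

theorem phiiso_anti {m : ℕ} (σ : TRep (Mir m)) {k l : ℕ} (h : k ≤ l) :
    radSpan σ l ≤ radSpan σ k := by
  induction l, h using Nat.le_induction with
  | base => exact le_rfl
  | succ n _ ih => exact (radSpan_succ_le σ n).trans ih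

theorem phiiso_comp {m : ℕ} (σ : TRep (Mir m)) (l0 : ℕ) (h : radSpan σ l0 = ⊥)
    (y : (l : ℕ) → σ.V ⧸ radSpan σ l) (hy : y ∈ limSub σ) (w : σ.V)
    (hw : y l0 = Submodule.Quotient.mk w) (l : ℕ) : y l = Submodule.Quotient.mk w := by
  rcases le_total l l0 with hl | hl
  · have key : ∀ k l, l + k = l0 → y l = Submodule.Quotient.mk w := by
      intro k
      induction k with
      | zero =>
        intro l hl
        rw [add_zero] at hl
        subst hl
        exact hw
      | succ k ih =>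
        intro l hl
        have h1 := hy l
        rw [← h1, ih (l + 1) (by omega)]
        rfl
    exact key (l0 - l) l (by omega)
  · induction l, hl using Nat.le_induction with
    | base => exact hw
    | succ n hn ih =>
      obtain ⟨w', hw'⟩ := Submodule.Quotient.mk_surjective _ (y (n + 1))
      have h1 := hy n
      rw [← hw', ih] at h1
      have h2 : (Submodule.Quotient.mk w' : σ.V ⧸ radSpan σ n) = Submodule.Quotient.mk w := h1
      rw [Submodule.Quotient.eq] at h2
      have h3 := phiiso_anti σ hn h2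
      rw [h, Submodule.mem_bot, sub_eq_zero] at h3
      rw [← hw', h3]

theorem phi_iso {m : ℕ} (σ : TRep (Mir m)) (l0 : ℕ) (h : radSpan σ l0 = ⊥) :
    Nonempty (TIso σ (Phi σ)) := by
  have hk : radSpan σ l0 ≤ LinearMap.ker (ContinuousLinearMap.id ℂ σ.V : σ.V →ₗ[ℂ] σ.V) := by
    rw [h]
    exact bot_le
  let g : (Phi σ).V →L[ℂ] σ.V :=
    ((radSpan σ l0).liftQL (ContinuousLinearMap.id ℂ σ.V) hk).comp
      ((ContinuousLinearMap.proj l0).comp (limSub σ).subtypeL)
  let f : σ.V →L[ℂ] (Phi σ).V :=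
    (ContinuousLinearMap.pi fun l => (radSpan σ l).mkQL).codRestrict (limSub σ) (by
      intro v l
      rfl)
  have hg : ∀ (y : (Phi σ).V) (w : σ.V), y.1 l0 = Submodule.Quotient.mk w → g y = w := by
    intro y w hw
    change (radSpan σ l0).liftQL (ContinuousLinearMap.id ℂ σ.V) hk (y.1 l0) = w
    rw [hw]
    rfl
  have hgf : ∀ v, g (f v) = v := fun v => hg (f v) v rfl
  have hfg : ∀ y, f (g y) = y := by
    intro y
    obtain ⟨w, hw⟩ := Submodule.Quotient.mk_surjective _ (y.1 l0)
    rw [hg y w hw.symm]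
    apply Subtype.ext
    funext l
    exact (phiiso_comp σ l0 h y.1 y.2 w hw.symm l).symm
  refine ⟨⟨ContinuousLinearEquiv.equivOfInverse f g hgf hfg, ?_⟩⟩
  intro a v
  rfl

theorem phi_subsingleton {m : ℕ} (σ : TRep (Mir m)) (h : Subsingleton σ.V) :
    Subsingleton (Phi σ).V := by
  refine ⟨fun a b => ?_⟩
  apply Subtype.ext
  funext l
  obtain ⟨v, hv⟩ := Submodule.Quotient.mk_surjective _ (a.1 l)
  obtain ⟨w, hw⟩ := Submodule.Quotient.mk_surjective _ (b.1 l)
  rw [← hv, ← hw, Subsingleton.elim v w]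

theorem psi_subsingleton (ν : ℝ) {m : ℕ} (σ : TRep (Mir (m + 1))) (h : Subsingleton σ.V) :
    Subsingleton (Psi ν σ).V := by
  refine ⟨fun a b => ?_⟩
  obtain ⟨v, hv⟩ := Submodule.Quotient.mk_surjective (psiSpan ν σ) a
  obtain ⟨w, hw⟩ := Submodule.Quotient.mk_surjective (psiSpan ν σ) b
  rw [← hv, ← hw, Subsingleton.elim v w]

theorem psi_subsingleton_of_top (ν : ℝ) {m : ℕ} (σ : TRep (Mir (m + 1)))
    (h : psiSpan ν σ = ⊤) : Subsingleton (Psi ν σ).V := by
  refine ⟨fun a b => ?_⟩
  obtain ⟨v, hv⟩ := Submodule.Quotient.mk_surjective (psiSpan ν σ) a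
  obtain ⟨w, hw⟩ := Submodule.Quotient.mk_surjective (psiSpan ν σ) b
  rw [← hv, ← hw]
  exact (Submodule.Quotient.eq (psiSpan ν σ)).mpr (by rw [h]; exact Submodule.mem_top)

end SoCo
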