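import Pool.Agent.H.MP_0f3f77_al.StarAll
import Pool.Agent.H.MP_0f3f77_al.GtCong
import Pool.Agent.H.MP_0f3f77_al.QfDef

/-!
`Gt ν b (D8 f) = 0` for `f ∈ N = Sp ν 0`, and its consequences.

`Rop`: `Gt ν b ∘ D8`; `q (Rop f) = (2π)^3 (iν)^8 q f` by `gt_cong` with `W = ⊤`, `q_D23`, `q_D13`,
`q_D03` and `q_D8`.
-/

open scoped Topology ContDiff
open MeasureTheory

noncomputable section

namespace SoCo

theorem rop_D8_mem (σ : Submodule ℂ Isp) (hσ : IsClosed (σ : Set Isp)) (hg : Ginv σ) (f : Isp)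
    (hf : f ∈ σ) : D8 f ∈ σ := by
  obtain ⟨γ, hγ, -⟩ := exists_opg (Eij 2 3)
  have hstep : ∀ f ∈ σ, dopL (Eij 2 3) f ∈ σ := fun f hf => by
    rw [dopL_app]
    exact opg_mem hγ σ hσ (fun t f hf => hg _ f hf) f hf
  have hpow : ∀ n : ℕ, ∀ f ∈ σ, ((dopL (Eij 2 3)) ^ n) f ∈ σ := by
    intro n
    induction n with
    | zero => intro f hf; simpa using hf
    | succ n ih =>
      intro f hf
      rw [pow_succ]
      exact ih _ (hstep f hf)
  exact hpow 8 f hf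

/-- The operator used for the irreducibility. -/
theorem exists_Rop (ν : ℝ) (hν : ν ≠ 0) : ∃ R : Isp →L[ℂ] Isp,
    (∀ f ∈ Sp ν 0, R f = 0) ∧
    (∀ σ : Submodule ℂ Isp, IsClosed (σ : Set Isp) → Ginv σ → ∀ f ∈ σ, R f ∈ σ) ∧
    (∀ f, cc ν 1 (R f) = ((2 * Real.pi) ^ 3 * (Complex.I * ν) ^ 8) * cc ν 1 f) := by
  obtain ⟨b, hb, hb1⟩ := exists_bump ν hν
  refine ⟨(GtL ν b hb).comp D8, ?_, ?_, ?_⟩
  · intro f hf
    rw [ContinuousLinearMap.comp_apply, GtL_app]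
    exact star_all ν hν b hb f hf
  · intro σ hσ hg f hf
    rw [ContinuousLinearMap.comp_apply, GtL_app]
    exact Gt_mem ν b hb σ hσ hg _ (rop_D8_mem σ hσ hg f hf)
  · intro f
    rw [ContinuousLinearMap.comp_apply, GtL_app]
    obtain ⟨y1, -, y2, -, y3, -, h⟩ := gt_cong ν hν b hb ⊤ isClosed_univ
      (fun _ _ _ => Submodule.mem_top) (D8 f) Submodule.mem_top
    have h1 := congrArg (cc ν 1) h
    rw [map_sub, map_smul, map_add, map_add, map_sub, map_smul,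
      (q_D03 ν 1 y1 (Or.inl rfl)).1, (q_D13 ν 1 y2 (Or.inl rfl)).1,
      (q_D23 ν 1 y3 (Or.inl rfl)).1, hb1] at h1
    have h2 : cc ν 1 (D8 f) = (Complex.I * ν) ^ 8 * cc ν 1 f := q_D8 ν 0 f
    rw [h2] at h1
    simp only [smul_eq_mul] at h1
    linear_combination h1

end SoCo
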