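import Pool.Agent.H.MP_0f3f77_al.RMem
import Pool.Agent.H.MP_0f3f77_al.Rop
import Pool.Agent.H.MP_0f3f77_al.Nonzero

/-!
`Gt ν b (D8 f) = 0` for `f ∈ N = Sp ν 0`, and its consequences.

`star_all`, proof.  Let `G = Gt ν b (D8 f)`.  For every `θ`, `act (rot θ) G = Gt ν b' (D8 f')` with
`f' = act (rot θ) f` (`Gt_rot`, `D8_rot`), and the six functionals vanish at `f'`; so by
`star_slice` `act (rot θ) G (pt l w) a c i = 0` for `i = 1, 2`, hence for `i = 0` and `i = 3` by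
the annihilation property at `pt l w` (`x_0 = (1,0,l,0)`: `v_0 = -l v_2`;
`x_1 = (0, y, z, 1)`: `v_3 = -y v_1 - z v_2`).  So `G` vanishes at `lmul (rotM (-θ)) (pt l w)` and,
by covariance, at `rmul (lmul (rotM (-θ)) (pt l w)) A` for every invertible `A`.
Every `x ∈ Om` with `m(x) := x 1 3 * x 0 0 - x 0 3 * x 1 0 ≠ 0` is of this form: if
`λ = x_1(3) x_0 - x_0(3) x_1` (fourth coordinate `0`, first coordinate `m(x) ≠ 0`) and `μ` is
a combination of `x_0, x_1` with fourth coordinate `1`, choose `θ` and `ρ > 0` with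
`rot θ (λ_0, λ_1) = (ρ, 0)`, replace `λ` by `λ/ρ` and subtract a multiple of `λ` from `μ`.
(The condition with `λ_1` in place of `λ_0` is not needed.)
The set `{x ∈ Om | m(x) ≠ 0}` is dense in `Om`: for `x ∈ Om` with `m(x) = 0` consider
`x + t (e_0, e_3)`; `m` of it is `t^2 + t (x_0(0) + x_1(3)) + 0`, nonzero for small `t ≠ 0`.
`G` is continuous on `Om`, so `G = 0` on `Om`, and `G = 0` outside.

`N_eq` (the space `N ∩ W` is the span of all `α v - ψ(α) v`), proof: `f ∈ Sp 0 ⊓ W`, `b` from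
`exists_bump`.  `F = D8 f ∈ W`.  `Gt ν b F = 0` by `star_all`, so `gt_cong` for `F` gives
`F ∈ (V - ψ) W := D03 W + D13 W + (D23 - iν) W`; and
`D8 f - (iν)^8 f = (D23 - iν) (∑_{j<8} (iν)^(7-j) D23^j f)`, so `(iν)^8 f ∈ (V - ψ) W`.
`W` is invariant under `D23` (`opg_mem`).

`Rop`: `Gt ν b ∘ D8`; `q (Rop f) = (2π)^3 (iν)^8 q f` by `gt_cong` with `W = ⊤`, `q_D23`, `q_D13`,
`q_D03` and `q_D8`.
-/

open scoped Topology ContDiff
open MeasureTheory

noncomputable section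

namespace SoCo

/-- The intersection of all nonzero closed invariant subspaces. -/
def PiS : Submodule ℂ Isp :=
  sInf {σ | IsClosed (σ : Set Isp) ∧ Ginv σ ∧ σ ≠ ⊥}

theorem isClosed_PiS : IsClosed (PiS : Set Isp) := by
  rw [PiS, Submodule.coe_sInf]
  exact isClosed_biInter fun σ hσ => hσ.1

theorem ginv_PiS : Ginv PiS := by
  intro g f hf
  rw [PiS, Submodule.mem_sInf] at hf ⊢
  exact fun σ hσ => hσ.2.1 g f (hf σ hσ)

/-- Proof: `exists_ne_zero` and `cc_ne` for `⊤` give `f` with `cc 1 1 f ≠ 0`; `R f ∈ PiS` by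
`R_mem`, `cc 1 1 (R f) ≠ 0`. -/
theorem PiS_ne : PiS ≠ ⊥ := by
  obtain ⟨R, hR, hR2, hR3⟩ := exists_Rop 1 one_ne_zero
  obtain ⟨f0, hf0⟩ := exists_ne_zero
  have htop : (⊤ : Submodule ℂ Isp) ≠ ⊥ := by
    intro h
    exact hf0 ((Submodule.mem_bot ℂ).1 (h ▸ Submodule.mem_top))
  obtain ⟨f, -, hf⟩ := cc_ne 1 one_ne_zero ⊤ isClosed_univ (fun g f _ => Submodule.mem_top) htop
  have h1 : R f ∈ PiS := by
    rw [PiS, Submodule.mem_sInf]
    exact fun σ hσ => R_mem 1 one_ne_zero R hR hR2 σ hσ.1 hσ.2.1 hσ.2.2 f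
  intro h
  rw [h, Submodule.mem_bot] at h1
  have h2 := hR3 f
  rw [h1, map_zero] at h2
  refine mul_ne_zero (mul_ne_zero (pow_ne_zero _ ?_) (pow_ne_zero _ ?_)) hf h2.symm
  · exact mul_ne_zero two_ne_zero (by exact_mod_cast Real.pi_ne_zero)
  · exact mul_ne_zero Complex.I_ne_zero (by norm_num)

theorem PiS_min (σ : Submodule ℂ Isp) (hc : IsClosed (σ : Set Isp)) (hg : Ginv σ) (h : σ ≠ ⊥) :
    PiS ≤ σ := sInf_le ⟨hc, hg, h⟩

end SoCo
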