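import Pool.Agent.H.MP_0f3f77_al.Proj

/-!
Weights of the rotation group and the projectors `pk κ`.

Proofs.  `rot (2π + θ) = rot θ`.  `ig_pk`: the integrand is continuous in `θ`
(`act_cont_orbit`, `cont_rot`) and the measure is finite, the seminorms of a continuous function
on the compact interval are bounded.
`pk_wt`: `act (rot s) (pk κ f) = isum (e^{-iκθ} / (2π) act (rot (s + θ)) f)` (`isum_map` for
`actL`); evaluate at every point (`isum_app`) and substitute `θ → θ - s`, using periodicity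
(`Function.Periodic.intervalIntegral_add_eq`).
`pk_id`, `pk_ne`: evaluate pointwise; `∫_0^{2π} e^{i(κ-l)θ} dθ = 0` or `2π`.
`pk_mem`: `isum_mem`.  `pk_clm`: `isum_clm`.
Commutation with a continuous operator `T` commuting with all `act (rot θ)`: `isum_map`.
Continuity of `pkI κ`: `pn_isum_le` and `act_bound` (`gs (rot θ)` is bounded).
-/

open scoped Topology ContDiff
open MeasureTheory

noncomputable section

namespace SoCo

theorem pk_mem (κ : ℤ) (S : Submodule ℂ Isp) (hS : IsClosed (S : Set Isp))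
    (hrot : ∀ θ, ∀ f ∈ S, act (rot θ) f ∈ S) (f : Isp) (hf : f ∈ S) : pk κ f ∈ S := by
  rw [pk_eq]
  exact isum_mem _ _ (ig_pk κ f) S hS fun u => S.smul_mem _ (hrot u f hf)

theorem pk_clm (κ : ℤ) (f : Isp) (T : Isp →L[ℂ] ℂ) :
    T (pk κ f) = ∫ θ in Set.Ioc 0 (2 * Real.pi),
      (((2 * Real.pi)⁻¹ : ℝ) * Complex.exp ((-(κ * θ) : ℝ) * Complex.I)) *
        T (act (rot θ) f) := by
  rw [pk_eq, isum_clm (ig_pk κ f) T]
  refine integral_congr_ae (Filter.Eventually.of_forall fun θ => ?_)
  simp only [pkf, map_smul, smul_eq_mul]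

theorem pk_comm (κ : ℤ) (T : Isp →L[ℂ] Isp) (hT : ∀ θ f, T (act (rot θ) f) = act (rot θ) (T f))
    (f : Isp) : T (pk κ f) = pk κ (T f) := by
  rw [pk_eq, pk_eq, isum_map (ig_pk κ f) T]
  congr 1
  funext θ
  simp only [pkf, map_smul, hT]

/-- The generator of the rotations on weight vectors. -/
theorem J_wt (κ : ℤ) (f : Isp) (h : Wt κ f) : dop Jm f = ((κ : ℂ) * Complex.I) • f := by
  ext x a b i
  have h1 := opg_point opg_rot f x a b i 0
  rw [rot_zero, act_one] at h1
  have h2 : HasDerivAt (fun t : ℝ => act (rot t) f x a b i)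
      (((κ : ℂ) * Complex.I) * f x a b i) 0 := by
    have h3 : (fun t : ℝ => act (rot t) f x a b i) =
        fun t : ℝ => Complex.exp ((κ : ℂ) * Complex.I * (t : ℂ)) * f x a b i := by
      funext t
      rw [h t, Isp.smul_app, Pi.smul_apply, Pi.smul_apply, Pi.smul_apply, smul_eq_mul]
      congr 2
      push_cast
      ring
    rw [h3]
    have h4 : HasDerivAt (fun t : ℝ => (κ : ℂ) * Complex.I * (t : ℂ)) ((κ : ℂ) * Complex.I) 0 := by
      simpa using (Complex.ofRealCLM.hasDerivAt (x := (0 : ℝ))).const_mul ((κ : ℂ) * Complex.I)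
    have h5 := (h4.cexp).mul_const (f x a b i)
    simpa using h5
  rw [h1.unique h2]
  rfl

end SoCo
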