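import Pool.Agent.H.MP_0f3f77_al.Elts

/-!
Weights of the rotation group and the projectors `pk κ`.

Proofs.  `rot (2π + θ) = rot θ`.  `ig_pk`: the integrand is continuous in `θ`
(`act_cont_orbit`, `cont_rot`) and the measure is finite, the seminorms of a continuous function
on the compact interval are bounded.
`pk_wt`: `act (rot s) (pk κ f) = isum (e^{-iκθ} / (2π) act (rot (s + θ)) f)` (`isum_map` for
`actL`); evaluate at every point (`isum_app`) and substitute `θ → θ - s`, using periodicity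
(`Function.Periodic.intervalIntegral_add_eq`).
`pk_id`, `pk_ne`: evaluate pointwise; `∫_0^{2π} e^{i(κ-l)θ} dθ = 0` or `2π`.
`pk_mem`: `isum_mem`.  `pk_clm`: `isum_clm`.
Commutation with a continuous operator `T` commuting with all `act (rot θ)`: `isum_map`.
Continuity of `pkI κ`: `pn_isum_le` and `act_bound` (`gs (rot θ)` is bounded).
-/

open scoped Topology ContDiff
open MeasureTheory

noncomputable section

namespace SoCo

/-- `f` has weight `κ`. -/
def Wt (κ : ℤ) (f : Isp) : Prop :=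
  ∀ θ : ℝ, act (rot θ) f = Complex.exp ((κ * θ : ℝ) * Complex.I) • f

/-- The integrand of the projector. -/
def pkf (κ : ℤ) (f : Isp) (θ : ℝ) : Isp :=
  (((2 * Real.pi)⁻¹ : ℝ) * Complex.exp ((-(κ * θ) : ℝ) * Complex.I)) • act (rot θ) f

theorem proj_cont_pkf (κ : ℤ) (f : Isp) : Continuous (pkf κ f) := by
  have h1 : Continuous fun θ : ℝ => act (rot θ) f := (act_cont_orbit f).comp cont_rot
  have h2 : Continuous fun θ : ℝ => ((((2 * Real.pi)⁻¹ : ℝ) : ℂ) *
      Complex.exp ((-(κ * θ) : ℝ) * Complex.I)) := by fun_prop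
  exact h2.smul h1

theorem ig_pk (κ : ℤ) (f : Isp) : Ig (volume.restrict (Set.Ioc 0 (2 * Real.pi))) (pkf κ f) := by
  refine ⟨proj_cont_pkf κ f, fun n => ?_⟩
  exact ((continuous_pn n).comp (proj_cont_pkf κ f)).integrableOn_Ioc

/-- The projector to the weight `κ`. -/
def pkI (κ : ℤ) : Isp →ₗ[ℂ] Isp where
  toFun f := isum (volume.restrict (Set.Ioc 0 (2 * Real.pi))) (pkf κ f)
  map_add' f g := by
    rw [← isum_add (ig_pk κ f) (ig_pk κ g)]
    congr 1
    funext θ
    simp only [pkf, map_add, smul_add]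
  map_smul' c f := by
    rw [RingHom.id_apply, ← isum_smul (ig_pk κ f) c]
    congr 1
    funext θ
    simp only [pkf, map_smul]
    rw [smul_comm]

theorem proj_norm_scal (κ : ℤ) (θ : ℝ) : ‖((((2 * Real.pi)⁻¹ : ℝ) : ℂ) *
    Complex.exp ((-(κ * θ) : ℝ) * Complex.I))‖ = (2 * Real.pi)⁻¹ := by
  rw [norm_mul, Complex.norm_exp_ofReal_mul_I, mul_one, Complex.norm_real, Real.norm_eq_abs,
    abs_of_nonneg (by positivity)]

theorem cont_pkI (κ : ℤ) : Continuous (pkI κ) := by
  refine cont_of_bounds (pkI κ) fun n => ?_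
  obtain ⟨C, N, hC, h⟩ := act_bound n
  obtain ⟨B, hB⟩ := (isCompact_Icc (a := (0 : ℝ)) (b := 2 * Real.pi)).exists_bound_of_continuousOn
    ((continuous_gs.comp cont_rot).continuousOn)
  have hpi : 0 < 2 * Real.pi := by positivity
  have hB0 : 0 ≤ B := (norm_nonneg _).trans (hB 0 ⟨le_rfl, hpi.le⟩)
  refine ⟨n, C * B ^ N, fun f => ?_⟩
  have h1 : pn n (pkI κ f) ≤ ∫ u in Set.Ioc 0 (2 * Real.pi), pn n (pkf κ f u) :=
    pn_isum_le (ig_pk κ f) n
  have h2 : ∀ u ∈ Set.Ioc 0 (2 * Real.pi), ‖pn n (pkf κ f u)‖ ≤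
      (2 * Real.pi)⁻¹ * (C * B ^ N * pn n f) := by
    intro u hu
    rw [Real.norm_eq_abs, abs_of_nonneg (apply_nonneg _ _), pkf, map_smul_eq_mul,
      proj_norm_scal]
    refine mul_le_mul_of_nonneg_left ((h (rot u) f).trans ?_) (by positivity)
    refine mul_le_mul_of_nonneg_right ?_ (apply_nonneg _ _)
    refine mul_le_mul_of_nonneg_left ?_ hC
    refine pow_le_pow_left₀ (zero_le_one.trans (gs_ge_one _)) ?_ N
    exact (le_abs_self _).trans (hB u ⟨hu.1.le, hu.2⟩)
  have h3 := norm_setIntegral_le_of_norm_le_const (μ := volume)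
    (s := Set.Ioc 0 (2 * Real.pi)) measure_Ioc_lt_top h2
  refine h1.trans ((le_abs_self _).trans ?_)
  rw [← Real.norm_eq_abs]
  refine h3.trans (le_of_eq ?_)
  rw [Real.volume_real_Ioc_of_le hpi.le, sub_zero]
  field_simp

/-- The projector to the weight `κ`, a continuous operator. -/
def pk (κ : ℤ) : Isp →L[ℂ] Isp := ⟨pkI κ, cont_pkI κ⟩

theorem pk_eq (κ : ℤ) (f : Isp) :
    pk κ f = isum (volume.restrict (Set.Ioc 0 (2 * Real.pi))) (pkf κ f) := rfl

end SoCo
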