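import Pool.Agent.H.MP_0f3f77_al.Classify

/-!
Classification of the closed `M_3`-invariant subspaces between `Sp 0 ⊓ W` and `W`.

`fam_of`, proof.  `S` is closed and invariant under `rot θ`, `dg 2 2`, and under the operators
`D 0 0, D 1 1, D 0 1, D 0 2, D 1 2, dop Jm` (`opg_mem`).
For `f` of weight `κ`, `E± f = (D00 - D11) f ± i (dop Jm f + 2 D01 f)` has weight `κ ∓ 2` and
`V± f = D02 f ± i D12 f` has weight `κ ∓ 1`: `act (rot θ) (dop X f) = dop (R X R⁻¹) (act (rot θ) f)`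
and `R (H ± i (E_01 + E_10)) R⁻¹ = e^{∓ 2 i θ} (...)`, `R (E_02 ± i E_12) R⁻¹ = e^{∓ i θ} (...)`
(`R E_02 R⁻¹ = cos θ E_02 + sin θ E_12`, `R E_12 R⁻¹ = -sin θ E_02 + cos θ E_12`,
`R H R⁻¹ = cos 2θ H + sin 2θ S`, `R S R⁻¹ = -sin 2θ H + cos 2θ S`, `S = E_01 + E_10 = Jm + 2 E_01`).
The effect on `qv` is `epv, emv, vpv, vmv` by `q_D00, q_D11, q_D01, q_D02, q_D12` and
`dop Jm f = i κ f` (`J_wt`); parity: `q_parity`; `dlv`: `q_dg0`, `q_dg1` with `s = t = 2`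
(`dg 2 2 = dg 2 1 * dg 1 2`; it commutes with `rot θ`).

`mem_of_fam`: if `f ∈ W` and `qv (pk κ f) ∈ Qf S κ` for all `κ`: choose `s ∈ S` of weight `κ` with
the same `qv`; `g = pk κ f - s` has weight `κ` and `qv g = 0`, so `g ∈ Sp 0` (all
`qv (act (rot θ) g) = 0`), `g ∈ W`, hence `g ∈ S`, `pk κ f ∈ S` for all `κ` and `f ∈ S`
(`pk_dense`).

`classify`: `fam_class` for `Qf S` gives `i`; `S = W ⊓ Sp i` by `mem_Sp_iff`, `mem_of_fam`, and
`q_parity` (`pk_wt`), `pk_mem`.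
`realize`: `fam_top` for `Qf W`: the vector `qv (pk κ f)` with `cc ν 1 (pk κ f) ≠ 0` exists
by `ker_iff` because `cc ν 1 f ≠ 0`.  The `f ∈ W` of weight `κ` with `qv f = v` is in `Sp i` by
`mem_Sp_iff`, `pk_id`, `pk_ne` (`Cond i l 0` holds).
-/

open scoped Topology ContDiff
open MeasureTheory

noncomputable section

namespace SoCo

theorem realize_vec (i j : Fin 9) (h : le9 i j = false) :
    ∃ (κ : ℤ) (v : V6), ParC κ v ∧ Cond i κ v ∧ ¬ Cond j κ v := by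
  have hodd : ¬ Odd (0 : ℤ) := by decide
  have heven : ¬ Even (1 : ℤ) := by decide
  have pa : ParC 0 ![1, 0, 0, 0, 0, 0] := ⟨fun h => absurd h hodd, fun _ => by simp⟩
  have pb : ParC 0 ![0, 0, 0, 1, 0, 0] := ⟨fun h => absurd h hodd, fun _ => by simp⟩
  have pc : ParC 0 ![0, 0, 0, 0, 1, 0] := ⟨fun h => absurd h hodd, fun _ => by simp⟩
  have pd : ParC 1 ![0, 1, 0, 0, 0, 0] := ⟨fun _ => by simp, fun h => absurd h heven⟩
  have pe : ParC 1 ![0, 0, 1, 0, 0, 0] := ⟨fun _ => by simp, fun h => absurd h heven⟩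
  have pg : ParC 1 ![0, 0, 0, 0, 0, 1] := ⟨fun _ => by simp, fun h => absurd h heven⟩
  fin_cases i <;> fin_cases j <;> first
    | (exfalso; revert h; decide)
    | (refine ⟨0, _, pa, ?_, ?_⟩ <;> simp [Cond]; done)
    | (refine ⟨0, _, pb, ?_, ?_⟩ <;> simp [Cond]; done)
    | (refine ⟨0, _, pc, ?_, ?_⟩ <;> simp [Cond]; done)
    | (refine ⟨1, _, pd, ?_, ?_⟩ <;> simp [Cond]; done)
    | (refine ⟨1, _, pe, ?_, ?_⟩ <;> simp [Cond]; done)
    | (refine ⟨1, _, pg, ?_, ?_⟩ <;> simp [Cond])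

theorem realize_zero (i : Fin 9) (κ : ℤ) : Cond i κ 0 := by
  fin_cases i <;> simp [Cond]

theorem realize_mono (i j : Fin 9) (h : le9 i j = true) (κ : ℤ) (v : V6) (hc : Cond i κ v) :
    Cond j κ v := by
  fin_cases i <;> fin_cases j <;> first
    | (exfalso; revert h; decide)
    | (simp only [Cond] at hc ⊢; try simp_all)

theorem realize (ν : ℝ) (W : Submodule ℂ Isp) (hW : IsClosed (W : Set Isp)) (hWg : Ginv W)
    (hne : ∃ f ∈ W, cc ν 1 f ≠ 0) (i : Fin 9) (κ : ℤ) (v : V6) (hp : ParC κ v)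
    (hc : Cond i κ v) : ∃ f ∈ W ⊓ Sp ν i, Wt κ f ∧ ∀ m, qv ν m f = v m := by
  have hM : M3inv W := fun g _ f hf => hWg g f hf
  have hfam := fam_of ν W hW hM
  obtain ⟨f, hf, hf0⟩ := hne
  obtain ⟨l, hl⟩ : ∃ l, cc ν 1 (pk l f) ≠ 0 := by
    by_contra hcon
    push Not at hcon
    have h1 := (ker_iff f (cc ν 1)).1 hcon 0
    rw [rot_zero, act_one] at h1
    exact hf0 h1
  have hmem : (fun m => qv ν m (pk l f)) ∈ Qf ν W l :=
    ⟨pk l f, pk_mem l W hW (fun θ g hg => hWg (rot θ) g hg) f hf, pk_wt l f, fun m => rfl⟩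
  have h0 : (fun m => qv ν m (pk l f)) 0 ≠ 0 := hl
  obtain ⟨g, hg, hgw, hgv⟩ := (fam_top hfam hmem h0 κ v).2 hp
  refine ⟨g, ⟨hg, ?_⟩, hgw, hgv⟩
  refine (mem_Sp_iff ν i g).2 ?_
  intro s
  by_cases hs : s = κ
  · subst hs
    have e : (fun m => qv ν m (pk s g)) = v := by
      funext m
      rw [pk_id s g hgw, hgv m]
    rw [e]
    exact hc
  · have e : (fun m => qv ν m (pk s g)) = 0 := by
      funext m
      rw [pk_ne κ s hs g hgw, map_zero]
      rfl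
    rw [e]
    exact realize_zero i s

/-- `≤` is immediate from the definition of `Sp` except `3 ≤ 4`, `5 ≤ 6`, which are clear too;
for the strictness use `realize` with suitable vectors of `ℂ^6`
(`κ = 0`: `(1,0,0,0,0,0)`, `(0,0,0,1,0,0)`, `(0,0,0,0,1,0)`; `κ = 1`: `(0,1,0,0,0,0)`,
`(0,0,1,0,0,0)`, `(0,0,0,0,0,1)`). -/
theorem sp_le_iff (ν : ℝ) (W : Submodule ℂ Isp) (hW : IsClosed (W : Set Isp)) (hWg : Ginv W)
    (hne : ∃ f ∈ W, cc ν 1 f ≠ 0) (i j : Fin 9) :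
    W ⊓ Sp ν i ≤ W ⊓ Sp ν j ↔ le9 i j = true := by
  constructor
  · intro hle
    by_contra hcon
    have h : le9 i j = false := by
      revert hcon
      cases le9 i j <;> simp
    obtain ⟨κ, v, hp, hci, hcj⟩ := realize_vec i j h
    obtain ⟨f, hf, hfw, hfv⟩ := realize ν W hW hWg hne i κ v hp hci
    apply hcj
    have h2 := (mem_Sp_iff ν j f).1 (hle hf).2 κ
    have e : (fun m => qv ν m (pk κ f)) = v := by
      funext m
      rw [pk_id κ f hfw, hfv m]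
    rw [e] at h2
    exact h2
  · intro h f hf
    refine ⟨hf.1, ?_⟩
    refine (mem_Sp_iff ν j f).2 ?_
    intro κ
    exact realize_mono i j h κ _ ((mem_Sp_iff ν i f).1 hf.2 κ)

end SoCo
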