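import Pool.Agent.H.MP_0f3f77_al.QfDef

/-!
Classification of the closed `M_3`-invariant subspaces between `Sp 0 ⊓ W` and `W`.

`fam_of`, proof.  `S` is closed and invariant under `rot θ`, `dg 2 2`, and under the operators
`D 0 0, D 1 1, D 0 1, D 0 2, D 1 2, dop Jm` (`opg_mem`).
For `f` of weight `κ`, `E± f = (D00 - D11) f ± i (dop Jm f + 2 D01 f)` has weight `κ ∓ 2` and
`V± f = D02 f ± i D12 f` has weight `κ ∓ 1`: `act (rot θ) (dop X f) = dop (R X R⁻¹) (act (rot θ) f)`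
and `R (H ± i (E_01 + E_10)) R⁻¹ = e^{∓ 2 i θ} (...)`, `R (E_02 ± i E_12) R⁻¹ = e^{∓ i θ} (...)`
(`R E_02 R⁻¹ = cos θ E_02 + sin θ E_12`, `R E_12 R⁻¹ = -sin θ E_02 + cos θ E_12`,
`R H R⁻¹ = cos 2θ H + sin 2θ S`, `R S R⁻¹ = -sin 2θ H + cos 2θ S`, `S = E_01 + E_10 = Jm + 2 E_01`).
The effect on `qv` is `epv, emv, vpv, vmv` by `q_D00, q_D11, q_D01, q_D02, q_D12` and
`dop Jm f = i κ f` (`J_wt`); parity: `q_parity`; `dlv`: `q_dg0`, `q_dg1` with `s = t = 2`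
(`dg 2 2 = dg 2 1 * dg 1 2`; it commutes with `rot θ`).

`mem_of_fam`: if `f ∈ W` and `qv (pk κ f) ∈ Qf S κ` for all `κ`: choose `s ∈ S` of weight `κ` with
the same `qv`; `g = pk κ f - s` has weight `κ` and `qv g = 0`, so `g ∈ Sp 0` (all
`qv (act (rot θ) g) = 0`), `g ∈ W`, hence `g ∈ S`, `pk κ f ∈ S` for all `κ` and `f ∈ S`
(`pk_dense`).

`classify`: `fam_class` for `Qf S` gives `i`; `S = W ⊓ Sp i` by `mem_Sp_iff`, `mem_of_fam`, and
`q_parity` (`pk_wt`), `pk_mem`.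
`realize`: `fam_top` for `Qf W`: the vector `qv (pk κ f)` with `cc ν 1 (pk κ f) ≠ 0` exists
by `ker_iff` because `cc ν 1 f ≠ 0`.  The `f ∈ W` of weight `κ` with `qv f = v` is in `Sp i` by
`mem_Sp_iff`, `pk_id`, `pk_ne` (`Cond i l 0` holds).
-/

open scoped Topology ContDiff
open MeasureTheory

noncomputable section

namespace SoCo

/-- The symmetric generator `E_01 + E_10`. -/
def supc_S : Mat := Jm + (2 : ℝ) • Eij 0 1

theorem supc_Jm_eq : Jm = !![0, -1, 0, 0; 1, 0, 0, 0; 0, 0, 0, 0; 0, 0, 0, 0] := by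
  ext i j
  fin_cases i <;> fin_cases j <;> simp [Jm, Eij]

theorem supc_Hm_eq : Hm = !![1, 0, 0, 0; 0, -1, 0, 0; 0, 0, 0, 0; 0, 0, 0, 0] := by
  ext i j
  fin_cases i <;> fin_cases j <;> simp [Hm, Eij]

theorem supc_S_eq : supc_S = !![0, 1, 0, 0; 1, 0, 0, 0; 0, 0, 0, 0; 0, 0, 0, 0] := by
  ext i j
  fin_cases i <;> fin_cases j <;> simp [supc_S, Jm, Eij]
  norm_num

theorem supc_conj_J (θ : ℝ) : rotM θ * Jm * rotM (-θ) = Jm := by
  rw [supc_Jm_eq]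
  ext i j
  fin_cases i <;> fin_cases j <;>
    simp [rotM, Matrix.mul_apply, Fin.sum_univ_four] <;>
    nlinarith [Real.sin_sq_add_cos_sq θ]

theorem supc_conj_H (θ : ℝ) : rotM θ * Hm * rotM (-θ) =
    Real.cos (2 * θ) • Hm + Real.sin (2 * θ) • supc_S := by
  rw [supc_Hm_eq, supc_S_eq]
  ext i j
  fin_cases i <;> fin_cases j <;>
    simp [rotM, Matrix.mul_apply, Fin.sum_univ_four,
      Real.cos_two_mul, Real.sin_two_mul] <;>
    nlinarith [Real.sin_sq_add_cos_sq θ]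

theorem supc_conj_S (θ : ℝ) : rotM θ * supc_S * rotM (-θ) =
    (-Real.sin (2 * θ)) • Hm + Real.cos (2 * θ) • supc_S := by
  rw [supc_Hm_eq, supc_S_eq]
  ext i j
  fin_cases i <;> fin_cases j <;>
    simp [rotM, Matrix.mul_apply, Fin.sum_univ_four,
      Real.cos_two_mul, Real.sin_two_mul] <;>
    nlinarith [Real.sin_sq_add_cos_sq θ]

/-- `E+`. -/
def supc_Ep (f : Isp) : Isp := dop Hm f + Complex.I • dop supc_S f

/-- `E-`. -/
def supc_Em (f : Isp) : Isp := dop Hm f - Complex.I • dop supc_S f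

theorem supc_exp (t : ℝ) : Complex.exp (((t : ℝ) : ℂ) * Complex.I)
    = (Real.cos t : ℂ) + (Real.sin t : ℂ) * Complex.I := by
  rw [Complex.exp_mul_I, Complex.ofReal_cos, Complex.ofReal_sin]

theorem supc_rotH (θ : ℝ) (f : Isp) : act (rot θ) (dop Hm f) =
    (Real.cos (2 * θ) : ℂ) • dop Hm (act (rot θ) f)
      + (Real.sin (2 * θ) : ℂ) • dop supc_S (act (rot θ) f) := by
  have h : ((rot θ : GL (Fin 4) ℝ) : Mat) * Hm * (((rot θ)⁻¹ : GL (Fin 4) ℝ) : Mat)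
      = Real.cos (2 * θ) • Hm + Real.sin (2 * θ) • supc_S := supc_conj_H θ
  rw [act_dop, h, dop_add, dop_smul, dop_smul]

theorem supc_rotS (θ : ℝ) (f : Isp) : act (rot θ) (dop supc_S f) =
    (-(Real.sin (2 * θ) : ℂ)) • dop Hm (act (rot θ) f)
      + (Real.cos (2 * θ) : ℂ) • dop supc_S (act (rot θ) f) := by
  have h : ((rot θ : GL (Fin 4) ℝ) : Mat) * supc_S * (((rot θ)⁻¹ : GL (Fin 4) ℝ) : Mat)
      = (-Real.sin (2 * θ)) • Hm + Real.cos (2 * θ) • supc_S := supc_conj_S θ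
  rw [act_dop, h, dop_add, dop_smul, dop_smul, Complex.ofReal_neg]

theorem supc_rotJ (θ : ℝ) (f : Isp) : act (rot θ) (dop Jm f) = dop Jm (act (rot θ) f) := by
  have h : ((rot θ : GL (Fin 4) ℝ) : Mat) * Jm * (((rot θ)⁻¹ : GL (Fin 4) ℝ) : Mat)
      = Jm := supc_conj_J θ
  rw [act_dop, h]

theorem supc_alg1 (c s : ℂ) (a b : Isp) :
    (c • a + s • b) + Complex.I • ((-s) • a + c • b)
      = (c + -s * Complex.I) • (a + Complex.I • b) := by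
  have hI := Complex.I_mul_I
  match_scalars
  · ring
  · linear_combination s * hI

theorem supc_alg2 (c s : ℂ) (a b : Isp) :
    (c • a + s • b) - Complex.I • ((-s) • a + c • b)
      = (c + s * Complex.I) • (a - Complex.I • b) := by
  have hI := Complex.I_mul_I
  match_scalars
  · ring
  · linear_combination s * hI

theorem supc_rotEp (θ : ℝ) (f : Isp) : act (rot θ) (supc_Ep f) =
    Complex.exp (((-(2 * θ) : ℝ) : ℂ) * Complex.I) • supc_Ep (act (rot θ) f) := by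
  rw [supc_Ep, supc_Ep, map_add, map_smul, supc_rotH, supc_rotS, supc_exp, Real.cos_neg,
    Real.sin_neg, Complex.ofReal_neg]
  exact supc_alg1 _ _ _ _

theorem supc_rotEm (θ : ℝ) (f : Isp) : act (rot θ) (supc_Em f) =
    Complex.exp (((2 * θ : ℝ) : ℂ) * Complex.I) • supc_Em (act (rot θ) f) := by
  rw [supc_Em, supc_Em, map_sub, map_smul, supc_rotH, supc_rotS, supc_exp]
  exact supc_alg2 _ _ _ _

theorem supc_Em_wt (κ : ℤ) (f : Isp) (h : Wt κ f) : Wt (κ + 2) (supc_Em f) := by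
  intro θ
  have h1 : supc_Em (act (rot θ) f)
      = Complex.exp (((κ * θ : ℝ) : ℂ) * Complex.I) • supc_Em f := by
    rw [h θ, supc_Em, supc_Em, map_smul, map_smul, smul_sub, smul_comm]
  rw [supc_rotEm, h1, smul_smul, ← Complex.exp_add]
  congr 2
  push_cast
  ring

/-- The Casimir operator. -/
def supc_Om : Isp →L[ℂ] Isp :=
  ((dopL Hm + Complex.I • dopL supc_S).comp (dopL Hm - Complex.I • dopL supc_S)) +
    (1 - Complex.I • dopL Jm).comp (1 - Complex.I • dopL Jm)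

theorem supc_Om_eq (f : Isp) : supc_Om f = supc_Ep (supc_Em f) +
    ((f - Complex.I • dop Jm f) - Complex.I • dop Jm (f - Complex.I • dop Jm f)) := rfl

theorem supc_Om_rot (θ : ℝ) (f : Isp) :
    supc_Om (act (rot θ) f) = act (rot θ) (supc_Om f) := by
  have h1 : act (rot θ) (supc_Ep (supc_Em f)) = supc_Ep (supc_Em (act (rot θ) f)) := by
    rw [supc_rotEp, supc_rotEm]
    have h2 : ∀ (c : ℂ) (g : Isp), supc_Ep (c • g) = c • supc_Ep g := by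
      intro c g
      rw [supc_Ep, supc_Ep, map_smul, map_smul, smul_add, smul_comm]
    rw [h2, smul_smul, ← Complex.exp_add]
    have h3 : ((-(2 * θ) : ℝ) : ℂ) * Complex.I + ((2 * θ : ℝ) : ℂ) * Complex.I = 0 := by
      push_cast
      ring
    rw [h3, Complex.exp_zero, one_smul]
  have h4 : ∀ g : Isp, act (rot θ) (g - Complex.I • dop Jm g)
      = act (rot θ) g - Complex.I • dop Jm (act (rot θ) g) := by
    intro g
    rw [map_sub, map_smul, supc_rotJ]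
  rw [supc_Om_eq, supc_Om_eq, map_add, h1, h4, h4]

theorem supc_Om_wt (κ : ℤ) (f : Isp) (h : Wt κ f) :
    supc_Om f = supc_Ep (supc_Em f) + ((1 + (κ : ℂ)) ^ 2) • f := by
  have h1 : f - Complex.I • dop Jm f = (1 + (κ : ℂ)) • f := by
    rw [J_wt κ f h]
    have hI := Complex.I_mul_I
    match_scalars
    linear_combination (-(κ : ℂ)) * hI
  rw [supc_Om_eq, h1, map_smul, smul_comm Complex.I, ← smul_sub, h1, smul_smul, pow_two]

theorem supc_mem_opg {γ : ℝ → GL (Fin 4) ℝ} {X : Mat} (h : Opg γ X) (W : Submodule ℂ Isp)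
    (hW : IsClosed (W : Set Isp)) (hWg : Ginv W) : ∀ f ∈ W, dop X f ∈ W :=
  opg_mem h W hW fun t f hf => hWg _ f hf

theorem supc_mem_J (W : Submodule ℂ Isp) (hW : IsClosed (W : Set Isp)) (hWg : Ginv W) :
    ∀ f ∈ W, dop Jm f ∈ W := supc_mem_opg opg_rot W hW hWg

theorem supc_mem_S (W : Submodule ℂ Isp) (hW : IsClosed (W : Set Isp)) (hWg : Ginv W) :
    ∀ f ∈ W, dop supc_S f ∈ W := by
  intro f hf
  rw [supc_S, dop_add, dop_smul]
  exact W.add_mem (supc_mem_J W hW hWg f hf)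
    (W.smul_mem _ (supc_mem_opg opg_up W hW hWg f hf))

theorem supc_mem_H (W : Submodule ℂ Isp) (hW : IsClosed (W : Set Isp)) (hWg : Ginv W) :
    ∀ f ∈ W, dop Hm f ∈ W := by
  intro f hf
  rw [Hm, dop_sub]
  exact W.sub_mem (supc_mem_opg opg_dg0 W hW hWg f hf) (supc_mem_opg opg_dg1 W hW hWg f hf)

theorem supc_mem_Om (W : Submodule ℂ Isp) (hW : IsClosed (W : Set Isp)) (hWg : Ginv W) :
    ∀ f ∈ W, supc_Om f ∈ W := by
  intro f hf
  have h1 : supc_Em f ∈ W :=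
    W.sub_mem (supc_mem_H W hW hWg f hf) (W.smul_mem _ (supc_mem_S W hW hWg f hf))
  have h2 : supc_Ep (supc_Em f) ∈ W :=
    W.add_mem (supc_mem_H W hW hWg _ h1) (W.smul_mem _ (supc_mem_S W hW hWg _ h1))
  have h3 : ∀ g ∈ W, g - Complex.I • dop Jm g ∈ W := fun g hg =>
    W.sub_mem hg (W.smul_mem _ (supc_mem_J W hW hWg g hg))
  rw [supc_Om_eq]
  exact W.add_mem h2 (h3 _ (h3 f hf))

theorem supc_qv_Em (ν : ℝ) (κ : ℤ) (f : Isp) (h : Wt κ f) (m : Fin 6) :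
    qv ν m (supc_Em f) = emv κ (fun m => qv ν m f) m := by
  have e : supc_Em f = (D 0 0 f - D 1 1 f + (κ : ℂ) • f) - (2 * Complex.I) • D 0 1 f := by
    rw [supc_Em, supc_S, dop_add, dop_smul, J_wt κ f h, Hm, dop_sub]
    have hI := Complex.I_mul_I
    show (D 0 0 f - D 1 1 f) - Complex.I • (((κ : ℂ) * Complex.I) • f + ((2 : ℝ) : ℂ) • D 0 1 f) = _
    push_cast
    match_scalars
    · ring
    · ring
    · linear_combination (-(κ : ℂ)) * hI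
    · ring
  rw [e]
  obtain ⟨a1, a2, a3⟩ := q_D00 ν 1 f (Or.inl rfl)
  obtain ⟨a4, a5, a6⟩ := q_D00 ν 2 f (Or.inr rfl)
  obtain ⟨b1, b2, b3⟩ := q_D11 ν 1 f (Or.inl rfl)
  obtain ⟨b4, b5, b6⟩ := q_D11 ν 2 f (Or.inr rfl)
  obtain ⟨c1, c2, c3⟩ := q_D01 ν 1 f (Or.inl rfl)
  obtain ⟨c4, c5, c6⟩ := q_D01 ν 2 f (Or.inr rfl)
  rw [if_pos rfl] at b1 b2 b3 c2 c3
  rw [if_neg (by decide)] at b4 b5 b6 c5 c6
  fin_cases m
  · show cc ν 1 _ = (1 + (κ : ℂ)) * cc ν 1 f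
    simp only [map_sub, map_add, map_smul, smul_eq_mul, a1, b1, c1]
    ring
  · show cc ν 2 _ = (κ : ℂ) * cc ν 2 f
    simp only [map_sub, map_add, map_smul, smul_eq_mul, a4, b4, c4]
    ring
  · show dd ν 1 _ = (2 + (κ : ℂ)) * dd ν 1 f - 2 * Complex.I * cc ν 2 f
    simp only [map_sub, map_add, map_smul, smul_eq_mul, a2, b2, c2]
    ring
  · show dd ν 2 _ = (1 + (κ : ℂ)) * dd ν 2 f
    simp only [map_sub, map_add, map_smul, smul_eq_mul, a5, b5, c5]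
    ring
  · show ee ν 1 _ = (3 + (κ : ℂ)) * ee ν 1 f - 2 * Complex.I * dd ν 2 f
    simp only [map_sub, map_add, map_smul, smul_eq_mul, a3, b3, c3]
    ring
  · show ee ν 2 _ = (2 + (κ : ℂ)) * ee ν 2 f
    simp only [map_sub, map_add, map_smul, smul_eq_mul, a6, b6, c6]
    ring

theorem supc_qv_Ep (ν : ℝ) (κ : ℤ) (f : Isp) (h : Wt κ f) (m : Fin 6) :
    qv ν m (supc_Ep f) = epv κ (fun m => qv ν m f) m := by
  have e : supc_Ep f = (D 0 0 f - D 1 1 f - (κ : ℂ) • f) + (2 * Complex.I) • D 0 1 f := by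
    rw [supc_Ep, supc_S, dop_add, dop_smul, J_wt κ f h, Hm, dop_sub]
    have hI := Complex.I_mul_I
    show (D 0 0 f - D 1 1 f) + Complex.I • (((κ : ℂ) * Complex.I) • f + ((2 : ℝ) : ℂ) • D 0 1 f) = _
    push_cast
    match_scalars
    · ring
    · ring
    · linear_combination ((κ : ℂ)) * hI
    · ring
  rw [e]
  obtain ⟨a1, a2, a3⟩ := q_D00 ν 1 f (Or.inl rfl)
  obtain ⟨a4, a5, a6⟩ := q_D00 ν 2 f (Or.inr rfl)
  obtain ⟨b1, b2, b3⟩ := q_D11 ν 1 f (Or.inl rfl)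
  obtain ⟨b4, b5, b6⟩ := q_D11 ν 2 f (Or.inr rfl)
  obtain ⟨c1, c2, c3⟩ := q_D01 ν 1 f (Or.inl rfl)
  obtain ⟨c4, c5, c6⟩ := q_D01 ν 2 f (Or.inr rfl)
  rw [if_pos rfl] at b1 b2 b3 c2 c3
  rw [if_neg (by decide)] at b4 b5 b6 c5 c6
  fin_cases m
  · show cc ν 1 _ = (1 - (κ : ℂ)) * cc ν 1 f
    simp only [map_sub, map_add, map_smul, smul_eq_mul, a1, b1, c1]
    ring
  · show cc ν 2 _ = -(κ : ℂ) * cc ν 2 f
    simp only [map_sub, map_add, map_smul, smul_eq_mul, a4, b4, c4]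
    ring
  · show dd ν 1 _ = (2 - (κ : ℂ)) * dd ν 1 f + 2 * Complex.I * cc ν 2 f
    simp only [map_sub, map_add, map_smul, smul_eq_mul, a2, b2, c2]
    ring
  · show dd ν 2 _ = (1 - (κ : ℂ)) * dd ν 2 f
    simp only [map_sub, map_add, map_smul, smul_eq_mul, a5, b5, c5]
    ring
  · show ee ν 1 _ = (3 - (κ : ℂ)) * ee ν 1 f + 2 * Complex.I * dd ν 2 f
    simp only [map_sub, map_add, map_smul, smul_eq_mul, a3, b3, c3]
    ring
  · show ee ν 2 _ = (2 - (κ : ℂ)) * ee ν 2 f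
    simp only [map_sub, map_add, map_smul, smul_eq_mul, a6, b6, c6]
    ring

theorem supc_qv_Om (ν : ℝ) (κ : ℤ) (f : Isp) (h : Wt κ f) (c0 : qv ν 0 f = 0)
    (c1 : qv ν 1 f = 0) (c2 : qv ν 2 f = 0) :
    qv ν 0 (supc_Om f) = 0 ∧ qv ν 1 (supc_Om f) = 0 ∧ qv ν 2 (supc_Om f) = 0 ∧
    qv ν 3 (supc_Om f) = 0 ∧
    qv ν 4 (supc_Om f) = 4 * (qv ν 4 f + κ * Complex.I * qv ν 3 f) := by
  have hw := supc_Em_wt κ f h
  have hE := supc_qv_Ep ν (κ + 2) (supc_Em f) hw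
  have hM := supc_qv_Em ν κ f h
  rw [supc_Om_wt κ f h]
  have hM0 : qv ν 0 (supc_Em f) = (1 + (κ : ℂ)) * qv ν 0 f := hM 0
  have hM1 : qv ν 1 (supc_Em f) = (κ : ℂ) * qv ν 1 f := hM 1
  have hM2 : qv ν 2 (supc_Em f) = (2 + (κ : ℂ)) * qv ν 2 f - 2 * Complex.I * qv ν 1 f := hM 2
  have hM3 : qv ν 3 (supc_Em f) = (1 + (κ : ℂ)) * qv ν 3 f := hM 3
  have hM4 : qv ν 4 (supc_Em f) = (3 + (κ : ℂ)) * qv ν 4 f - 2 * Complex.I * qv ν 3 f := hM 4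
  have hE0 : qv ν 0 (supc_Ep (supc_Em f)) = (1 - ((κ + 2 : ℤ) : ℂ)) * qv ν 0 (supc_Em f) := hE 0
  have hE1 : qv ν 1 (supc_Ep (supc_Em f)) = -((κ + 2 : ℤ) : ℂ) * qv ν 1 (supc_Em f) := hE 1
  have hE2 : qv ν 2 (supc_Ep (supc_Em f)) = (2 - ((κ + 2 : ℤ) : ℂ)) * qv ν 2 (supc_Em f) +
      2 * Complex.I * qv ν 1 (supc_Em f) := hE 2
  have hE3 : qv ν 3 (supc_Ep (supc_Em f)) = (1 - ((κ + 2 : ℤ) : ℂ)) * qv ν 3 (supc_Em f) := hE 3
  have hE4 : qv ν 4 (supc_Ep (supc_Em f)) = (3 - ((κ + 2 : ℤ) : ℂ)) * qv ν 4 (supc_Em f) +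
      2 * Complex.I * qv ν 3 (supc_Em f) := hE 4
  push_cast at hE0 hE1 hE2 hE3 hE4
  simp only [map_add, map_smul, smul_eq_mul, hE0, hE1, hE2, hE3, hE4, hM0, hM1, hM2, hM3, hM4,
    c0, c1, c2]
  refine ⟨?_, ?_, ?_, ?_, ?_⟩ <;> ring

/-- Proof: for `f ∈ W ⊓ Sp 4` put `g = 1/4 Ω f`,
`Ω = E+ E- + (1 - i J)^2` with `E± = (D00 - D11) ± i (dop Jm + 2 D01)`, `J = dop Jm`.  `Ω` commutes
with the rotations (`act_dop`), so `qv (pk κ (Ω f)) = qv (Ω (pk κ f)) =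
epv (κ+2) (emv κ v) + (1 + κ)^2 v` with `v = qv (pk κ f)`, which for `v_0 = v_1 = v_2 = 0` is
`(0,0,0,0,4 (v_4 + iκ v_3), *)`.  Hence `g ∈ W ⊓ Sp 2`, `f - g ∈ W ⊓ Sp 3` (`mem_Sp_iff`). -/
theorem sp4_sup (ν : ℝ) (W : Submodule ℂ Isp) (hW : IsClosed (W : Set Isp)) (hWg : Ginv W) :
    W ⊓ Sp ν 4 = (W ⊓ Sp ν 2) ⊔ (W ⊓ Sp ν 3) := by
  apply le_antisymm
  · rintro f ⟨hfW, hf4⟩
    have hfc := (mem_Sp_iff ν 4 f).mp hf4
    obtain ⟨g, hg⟩ : ∃ g, g = (4 : ℂ)⁻¹ • supc_Om f := ⟨_, rfl⟩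
    have hgW : g ∈ W := by
      rw [hg]
      exact W.smul_mem _ (supc_mem_Om W hW hWg f hfW)
    have hq : ∀ κ, qv ν 0 (pk κ g) = 0 ∧ qv ν 1 (pk κ g) = 0 ∧ qv ν 2 (pk κ g) = 0 ∧
        qv ν 3 (pk κ g) = 0 ∧
        qv ν 4 (pk κ g) = qv ν 4 (pk κ f) + κ * Complex.I * qv ν 3 (pk κ f) := by
      intro κ
      have hc : qv ν 0 (pk κ f) = 0 ∧ qv ν 1 (pk κ f) = 0 ∧ qv ν 2 (pk κ f) = 0 := hfc κ
      obtain ⟨c0, c1, c2⟩ := hc
      have e : pk κ g = (4 : ℂ)⁻¹ • supc_Om (pk κ f) := by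
        rw [hg, map_smul, pk_comm κ supc_Om supc_Om_rot]
      obtain ⟨x0, x1, x2, x3, x4⟩ := supc_qv_Om ν κ (pk κ f) (pk_wt κ f) c0 c1 c2
      rw [e]
      simp only [map_smul, smul_eq_mul, x0, x1, x2, x3, x4]
      refine ⟨?_, ?_, ?_, ?_, ?_⟩ <;> ring
    have hg2 : g ∈ Sp ν 2 := by
      rw [mem_Sp_iff]
      intro κ
      obtain ⟨h0, h1, h2, h3, h4⟩ := hq κ
      exact ⟨h0, h1, h2, h3⟩
    have hg3 : f - g ∈ Sp ν 3 := by
      rw [mem_Sp_iff]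
      intro κ
      obtain ⟨h0, h1, h2, h3, h4⟩ := hq κ
      have hc : qv ν 0 (pk κ f) = 0 ∧ qv ν 1 (pk κ f) = 0 ∧ qv ν 2 (pk κ f) = 0 := hfc κ
      obtain ⟨c0, c1, c2⟩ := hc
      show qv ν 0 (pk κ (f - g)) = 0 ∧ qv ν 1 (pk κ (f - g)) = 0 ∧ qv ν 2 (pk κ (f - g)) = 0 ∧
        qv ν 4 (pk κ (f - g)) + κ * Complex.I * qv ν 3 (pk κ (f - g)) = 0
      simp only [map_sub, h0, h1, h2, h3, h4, c0, c1, c2, sub_self, true_and]
      ring
    rw [Submodule.mem_sup]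
    exact ⟨g, ⟨hgW, hg2⟩, f - g, ⟨W.sub_mem hfW hgW, hg3⟩, add_sub_cancel g f⟩
  · refine sup_le (inf_le_inf_left W ?_) (inf_le_inf_left W ?_)
    · exact inf_le_left
    · exact inf_le_left

end SoCo
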