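import Pool.Agent.H.MP_0f3f77_al.QfDef

/-!
Classification of the closed `M_3`-invariant subspaces between `Sp 0 ⊓ W` and `W`.

`fam_of`, proof.  `S` is closed and invariant under `rot θ`, `dg 2 2`, and under the operators
`D 0 0, D 1 1, D 0 1, D 0 2, D 1 2, dop Jm` (`opg_mem`).
For `f` of weight `κ`, `E± f = (D00 - D11) f ± i (dop Jm f + 2 D01 f)` has weight `κ ∓ 2` and
`V± f = D02 f ± i D12 f` has weight `κ ∓ 1`: `act (rot θ) (dop X f) = dop (R X R⁻¹) (act (rot θ) f)`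
and `R (H ± i (E_01 + E_10)) R⁻¹ = e^{∓ 2 i θ} (...)`, `R (E_02 ± i E_12) R⁻¹ = e^{∓ i θ} (...)`
(`R E_02 R⁻¹ = cos θ E_02 + sin θ E_12`, `R E_12 R⁻¹ = -sin θ E_02 + cos θ E_12`,
`R H R⁻¹ = cos 2θ H + sin 2θ S`, `R S R⁻¹ = -sin 2θ H + cos 2θ S`, `S = E_01 + E_10 = Jm + 2 E_01`).
The effect on `qv` is `epv, emv, vpv, vmv` by `q_D00, q_D11, q_D01, q_D02, q_D12` and
`dop Jm f = i κ f` (`J_wt`); parity: `q_parity`; `dlv`: `q_dg0`, `q_dg1` with `s = t = 2`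
(`dg 2 2 = dg 2 1 * dg 1 2`; it commutes with `rot θ`).

`mem_of_fam`: if `f ∈ W` and `qv (pk κ f) ∈ Qf S κ` for all `κ`: choose `s ∈ S` of weight `κ` with
the same `qv`; `g = pk κ f - s` has weight `κ` and `qv g = 0`, so `g ∈ Sp 0` (all
`qv (act (rot θ) g) = 0`), `g ∈ W`, hence `g ∈ S`, `pk κ f ∈ S` for all `κ` and `f ∈ S`
(`pk_dense`).

`classify`: `fam_class` for `Qf S` gives `i`; `S = W ⊓ Sp i` by `mem_Sp_iff`, `mem_of_fam`, and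
`q_parity` (`pk_wt`), `pk_mem`.
`realize`: `fam_top` for `Qf W`: the vector `qv (pk κ f)` with `cc ν 1 (pk κ f) ≠ 0` exists
by `ker_iff` because `cc ν 1 f ≠ 0`.  The `f ∈ W` of weight `κ` with `qv f = v` is in `Sp i` by
`mem_Sp_iff`, `pk_id`, `pk_ne` (`Cond i l 0` holds).
-/

open scoped Topology ContDiff
open MeasureTheory

noncomputable section

namespace SoCo

/-- The group element `diag(2, 2, 1, 1)`. -/
def supd_dg : GL (Fin 4) ℝ := dg 2 2 two_ne_zero two_ne_zero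

theorem supd_dg_eq : supd_dg = dg 2 1 two_ne_zero one_ne_zero * dg 1 2 one_ne_zero two_ne_zero := by
  refine Units.ext ?_
  show dgM 2 2 = dgM 2 1 * dgM 1 2
  rw [dgM_mul, mul_one, one_mul]

theorem supd_rot (θ : ℝ) : supd_dg * rot θ = rot θ * supd_dg := by
  refine Units.ext ?_
  show dgM 2 2 * rotM θ = rotM θ * dgM 2 2
  ext i j
  fin_cases i <;> fin_cases j <;>
    simp [dgM, rotM, Matrix.mul_apply, Fin.sum_univ_four, mul_comm]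

/-- The operator `act (dg 2 2)`. -/
def supd_dl : Isp →L[ℂ] Isp := actL supd_dg

theorem supd_comm (κ : ℤ) (f : Isp) : supd_dl (pk κ f) = pk κ (supd_dl f) := by
  refine pk_comm κ supd_dl (fun θ f => ?_) f
  show act supd_dg (act (rot θ) f) = act (rot θ) (act supd_dg f)
  rw [← act_mul, ← act_mul, supd_rot]

theorem supd_qv (ν : ℝ) (f : Isp) :
    qv ν 0 (supd_dl f) = 2 * qv ν 0 f ∧ qv ν 1 (supd_dl f) = 4 * qv ν 1 f ∧
    qv ν 2 (supd_dl f) = 4 * qv ν 2 f ∧ qv ν 3 (supd_dl f) = 8 * qv ν 3 f ∧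
    qv ν 4 (supd_dl f) = 8 * qv ν 4 f ∧ qv ν 5 (supd_dl f) = 16 * qv ν 5 f := by
  have h0 : supd_dl f = act (dg 2 1 two_ne_zero one_ne_zero)
      (act (dg 1 2 one_ne_zero two_ne_zero) f) := by
    show act supd_dg f = _
    rw [supd_dg_eq, act_mul]
  rw [h0]
  have a1 := q_dg0 ν 2 two_ne_zero 1 (Or.inl rfl) (act (dg 1 2 one_ne_zero two_ne_zero) f)
  have a2 := q_dg0 ν 2 two_ne_zero 2 (Or.inr rfl) (act (dg 1 2 one_ne_zero two_ne_zero) f)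
  have b1 := q_dg1 ν 2 two_ne_zero 1 (Or.inl rfl) f
  have b2 := q_dg1 ν 2 two_ne_zero 2 (Or.inr rfl) f
  have e1 : ((if (1 : Fin 4) = 1 then (2 : ℝ) / |2| else |2| : ℝ) : ℂ) = 1 := by
    rw [if_pos rfl, abs_of_pos (by norm_num : (0 : ℝ) < 2), div_self two_ne_zero,
      Complex.ofReal_one]
  have e2 : ((if (2 : Fin 4) = 1 then (2 : ℝ) / |2| else |2| : ℝ) : ℂ) = 2 := by
    rw [if_neg (by decide), abs_of_pos (by norm_num : (0 : ℝ) < 2)]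
    norm_num
  rw [e1] at b1
  rw [e2] at b2
  obtain ⟨a11, a12, a13⟩ := a1
  obtain ⟨a21, a22, a23⟩ := a2
  obtain ⟨b11, b12, b13⟩ := b1
  obtain ⟨b21, b22, b23⟩ := b2
  push_cast at a11 a12 a13 a21 a22 a23
  refine ⟨?_, ?_, ?_, ?_, ?_, ?_⟩
  · show cc ν 1 _ = 2 * cc ν 1 f
    rw [a11, b11]; ring
  · show cc ν 2 _ = 4 * cc ν 2 f
    rw [a21, b21]; ring
  · show dd ν 1 _ = 4 * dd ν 1 f
    rw [a12, b12]; ring
  · show dd ν 2 _ = 8 * dd ν 2 f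
    rw [a22, b22]; ring
  · show ee ν 1 _ = 8 * ee ν 1 f
    rw [a13, b13]; ring
  · show ee ν 2 _ = 16 * ee ν 2 f
    rw [a23, b23]; ring

theorem supd_mem (W : Submodule ℂ Isp) (hWg : Ginv W) {f : Isp} (hf : f ∈ W) :
    supd_dl f ∈ W := hWg _ f hf

/-- One factor. -/
def supd_fac (c : ℂ) (f : Isp) : Isp := supd_dl f - c • f

theorem supd_fac_mem (W : Submodule ℂ Isp) (hWg : Ginv W) (c : ℂ) {f : Isp} (hf : f ∈ W) :
    supd_fac c f ∈ W := W.sub_mem (supd_mem W hWg hf) (W.smul_mem c hf)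

theorem supd_fac_pk (κ : ℤ) (c : ℂ) (f : Isp) :
    pk κ (supd_fac c f) = supd_fac c (pk κ f) := by
  rw [supd_fac, supd_fac, map_sub, map_smul, supd_comm]

theorem supd_fac_qv (ν : ℝ) (c : ℂ) (f : Isp) :
    qv ν 0 (supd_fac c f) = (2 - c) * qv ν 0 f ∧ qv ν 1 (supd_fac c f) = (4 - c) * qv ν 1 f ∧
    qv ν 2 (supd_fac c f) = (4 - c) * qv ν 2 f ∧ qv ν 3 (supd_fac c f) = (8 - c) * qv ν 3 f ∧
    qv ν 4 (supd_fac c f) = (8 - c) * qv ν 4 f ∧ qv ν 5 (supd_fac c f) = (16 - c) * qv ν 5 f := by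
  obtain ⟨h0, h1, h2, h3, h4, h5⟩ := supd_qv ν f
  refine ⟨?_, ?_, ?_, ?_, ?_, ?_⟩ <;>
    simp only [supd_fac, map_sub, map_smul, smul_eq_mul, h0, h1, h2, h3, h4, h5] <;> ring

/-- Proof: for `f ∈ W ⊓ Sp 6` put `g = (δ - 2) (δ - 8) (δ - 16) f / ((4-2)(4-8)(4-16))` with
`δ = act (dg 2 2)`; then `qv (pk κ g) = (0, 0, v_2, 0, 0, 0)` where `v = qv (pk κ f)`, so
`g ∈ W ⊓ Sp 5` and `f - g ∈ W ⊓ Sp 4`. -/
theorem sp6_sup (ν : ℝ) (W : Submodule ℂ Isp) (hW : IsClosed (W : Set Isp)) (hWg : Ginv W) :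
    W ⊓ Sp ν 6 = (W ⊓ Sp ν 4) ⊔ (W ⊓ Sp ν 5) := by
  apply le_antisymm
  · rintro f ⟨hfW, hf6⟩
    have hfc := (mem_Sp_iff ν 6 f).mp hf6
    obtain ⟨g, hg⟩ : ∃ g, g = (96 : ℂ)⁻¹ • supd_fac 2 (supd_fac 8 (supd_fac 16 f)) := ⟨_, rfl⟩
    have hgW : g ∈ W := by
      rw [hg]
      exact W.smul_mem _ (supd_fac_mem W hWg _ (supd_fac_mem W hWg _ (supd_fac_mem W hWg _ hfW)))
    have hq : ∀ κ, qv ν 0 (pk κ g) = 0 ∧ qv ν 1 (pk κ g) = 0 ∧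
        qv ν 2 (pk κ g) = qv ν 2 (pk κ f) ∧ qv ν 3 (pk κ g) = 0 ∧ qv ν 4 (pk κ g) = 0 ∧
        qv ν 5 (pk κ g) = 0 := by
      intro κ
      have hc : qv ν 0 (pk κ f) = 0 ∧ qv ν 1 (pk κ f) = 0 := hfc κ
      obtain ⟨c0, c1⟩ := hc
      have e : pk κ g = (96 : ℂ)⁻¹ • supd_fac 2 (supd_fac 8 (supd_fac 16 (pk κ f))) := by
        rw [hg, map_smul, supd_fac_pk, supd_fac_pk, supd_fac_pk]
      obtain ⟨x0, x1, x2, x3, x4, x5⟩ := supd_fac_qv ν 2 (supd_fac 8 (supd_fac 16 (pk κ f)))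
      obtain ⟨y0, y1, y2, y3, y4, y5⟩ := supd_fac_qv ν 8 (supd_fac 16 (pk κ f))
      obtain ⟨z0, z1, z2, z3, z4, z5⟩ := supd_fac_qv ν 16 (pk κ f)
      rw [e]
      simp only [map_smul, smul_eq_mul, x0, x1, x2, x3, x4, x5, y0, y1, y2, y3, y4, y5,
        z0, z1, z2, z3, z4, z5, c0, c1]
      refine ⟨?_, ?_, ?_, ?_, ?_, ?_⟩ <;> ring
    have hg5 : g ∈ Sp ν 5 := by
      rw [mem_Sp_iff]
      intro κ
      obtain ⟨h0, h1, h2, h3, h4, h5⟩ := hq κ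
      show qv ν 0 (pk κ g) = 0 ∧ qv ν 1 (pk κ g) = 0 ∧
        qv ν 4 (pk κ g) + κ * Complex.I * qv ν 3 (pk κ g) = 0
      rw [h0, h1, h3, h4]
      simp
    have hg4 : f - g ∈ Sp ν 4 := by
      rw [mem_Sp_iff]
      intro κ
      obtain ⟨h0, h1, h2, h3, h4, h5⟩ := hq κ
      have hc : qv ν 0 (pk κ f) = 0 ∧ qv ν 1 (pk κ f) = 0 := hfc κ
      obtain ⟨c0, c1⟩ := hc
      show qv ν 0 (pk κ (f - g)) = 0 ∧ qv ν 1 (pk κ (f - g)) = 0 ∧ qv ν 2 (pk κ (f - g)) = 0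
      simp only [map_sub, h0, h1, h2, c0, c1, sub_self, and_self]
    rw [Submodule.mem_sup]
    exact ⟨f - g, ⟨W.sub_mem hfW hgW, hg4⟩, g, ⟨hgW, hg5⟩, sub_add_cancel f g⟩
  · refine sup_le (inf_le_inf_left W ?_) (inf_le_inf_left W ?_)
    · exact inf_le_left
    · exact inf_le_left

end SoCo
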