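import Pool.Agent.H.MP_0f3f77_al.PsiRep
import Pool.Agent.H.MP_0f3f77_al.Realize
import Pool.Agent.H.MP_0f3f77_al.SupC
import Pool.Agent.H.MP_0f3f77_al.SupD
import Pool.Agent.H.MP_0f3f77_al.Curl

/-!
The closed invariant subspaces of `Ψ(π)`.

Write `q = toPsi ν`, a continuous open surjection with kernel `{v | toI v ∈ Sp ν 0}`.
`psi_sub_iff`, proof.  For a submodule `S` of `Ψ(π)` put `S' = (S.comap q).map toI`, a submodule of
`PiS` (in `Isp`) containing `Sp ν 0 ⊓ PiS`.  If `S` is closed then `S.comap q` is closed in `piR.V`,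
and `S'` is closed in `Isp` (`PiS` closed).  If `S` is invariant under `Mir 2`, then `S'` is
`M3inv` (`isM3_iff`, `toPsi_act`, `detChar 2 h ≠ 0`).  By `classify` with `W = PiS`,
`S' = PiS ⊓ Sp ν i`, so `S.comap q = (Sp ν i).comap toI` and `S = U9 ν i` (surjectivity).
Conversely `U9 ν i` is closed: its preimage under the quotient map `q` is `(Sp ν i).comap toI`
(which contains the kernel as `Sp ν 0 ≤ Sp ν i`), closed by `isClosed_Sp`; invariant by `Sp_inv`.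
Order: `U9 i ≤ U9 j` iff `(Sp i).comap toI ≤ (Sp j).comap toI` iff `PiS ⊓ Sp i ≤ PiS ⊓ Sp j`;
`sp_le_iff` with `cc_ne`.
-/

open scoped Topology ContDiff
open MeasureTheory

noncomputable section

namespace SoCo

theorem psipi_le (ν : ℝ) (hν : ν ≠ 0) (i j : Fin 9) :
    PiS ⊓ Sp ν i ≤ PiS ⊓ Sp ν j ↔ le9 i j = true :=
  sp_le_iff ν PiS isClosed_PiS ginv_PiS (cc_ne ν hν PiS isClosed_PiS ginv_PiS PiS_ne) i j

theorem psipi_zero_le (ν : ℝ) (hν : ν ≠ 0) (i : Fin 9) (v : piR.V) (h : toI v ∈ Sp ν 0) :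
    toI v ∈ Sp ν i := by
  have key : ∀ i : Fin 9, le9 0 i = true := by decide
  have h1 := (psipi_le ν hν 0 i).mpr (key i)
  exact (h1 ⟨toI_mem v, h⟩).2

theorem t2_psi (ν : ℝ) (hν : ν ≠ 0) : T2Space (psiR ν).V := by
  have h : IsClosed ((psiSpan ν (m := 2) resR : Submodule ℂ resR.V) : Set resR.V) := by
    have h1 : ((psiSpan ν (m := 2) resR : Submodule ℂ resR.V) : Set resR.V) =
        toI ⁻¹' (Sp ν 0 : Set Isp) := Set.ext fun v => psiSpan_eq ν hν v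
    rw [h1]
    exact (isClosed_Sp ν 0).preimage toI.continuous
  haveI := h
  show T2Space (resR.V ⧸ psiSpan ν (m := 2) resR)
  infer_instance

theorem mem_U9 (ν : ℝ) (hν : ν ≠ 0) (i : Fin 9) (v : piR.V) :
    toPsi ν v ∈ U9 ν i ↔ toI v ∈ Sp ν i := by
  constructor
  · intro h
    obtain ⟨w, hw, hwv⟩ := Submodule.mem_map.mp h
    have hw2 : toI w ∈ Sp ν i := hw
    have hwv2 : toPsi ν w = toPsi ν v := hwv
    have h1 : toPsi ν (v - w) = 0 := by rw [map_sub, hwv2, sub_self]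
    have h2 := psipi_zero_le ν hν i _ ((toPsi_zero ν hν _).mp h1)
    rw [map_sub] at h2
    have h3 := add_mem h2 hw2
    rwa [sub_add_cancel] at h3
  · intro h
    exact Submodule.mem_map.mpr ⟨v, h, rfl⟩

theorem psipi_det (h : Mir 2) : detChar 2 h ≠ 0 := by
  intro h0
  have h1 : detChar 2 (h * h⁻¹) = detChar 2 h * detChar 2 h⁻¹ := map_mul _ _ _
  rw [h0, zero_mul, mul_inv_cancel, map_one] at h1
  exact one_ne_zero h1

theorem psi_sub_iff (ν : ℝ) (hν : ν ≠ 0) (S : Submodule ℂ (psiR ν).V) :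
    IsSub (psiR ν) S ↔ ∃ i, S = U9 ν i := by
  constructor
  · rintro ⟨hc, hinv⟩
    let S' : Submodule ℂ Isp :=
      (S.comap (toPsi ν : piR.V →ₗ[ℂ] (psiR ν).V)).map (toI : piR.V →ₗ[ℂ] Isp)
    have hmem : ∀ v : piR.V, toI v ∈ S' ↔ toPsi ν v ∈ S := by
      intro v
      constructor
      · intro h
        obtain ⟨w, hw, hwv⟩ := Submodule.mem_map.mp h
        have h1 : w = v := toI_inj hwv
        rw [← h1]
        exact hw
      · intro h
        exact Submodule.mem_map.mpr ⟨v, h, rfl⟩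
    have hS'1 : S' ≤ PiS := by
      intro f hf
      obtain ⟨w, hw, hwv⟩ := Submodule.mem_map.mp hf
      rw [← hwv]
      exact toI_mem w
    have hS'0 : Sp ν 0 ⊓ PiS ≤ S' := by
      rintro f ⟨hf0, hfP⟩
      obtain ⟨v, rfl⟩ := toI_surj f hfP
      rw [hmem, (toPsi_zero ν hν v).mpr hf0]
      exact zero_mem _
    have hS'c : IsClosed (S' : Set Isp) := by
      have h1 : (S' : Set Isp) = toI '' (toPsi ν ⁻¹' (S : Set (psiR ν).V)) := by
        ext f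
        constructor
        · intro hf
          obtain ⟨w, hw, hwv⟩ := Submodule.mem_map.mp hf
          exact ⟨w, hw, hwv⟩
        · rintro ⟨w, hw, hwv⟩
          exact Submodule.mem_map.mpr ⟨w, hw, hwv⟩
      rw [h1]
      have h2 : Topology.IsClosedEmbedding toI := isClosed_PiS.isClosedEmbedding_subtypeVal
      exact h2.isClosedMap _ (hc.preimage (toPsi ν).continuous)
    have hS'i : M3inv S' := by
      intro g hg f hf
      obtain ⟨h, rfl⟩ := (isM3_iff g).mp hg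
      obtain ⟨v, rfl⟩ := toI_surj f (hS'1 hf)
      rw [← toI_act, hmem]
      have h1 := hinv h _ ((hmem v).mp hf)
      rw [toPsi_act] at h1
      have h2 := Submodule.smul_mem _ (detChar 2 h)⁻¹ h1
      rwa [smul_smul, inv_mul_cancel₀ (psipi_det h), one_smul] at h2
    obtain ⟨i, hi⟩ := classify ν PiS S' isClosed_PiS ginv_PiS hS'c hS'i hS'0 hS'1
    refine ⟨i, ?_⟩
    ext w
    obtain ⟨v, rfl⟩ := toPsi_surj ν w
    rw [← hmem, mem_U9 ν hν, hi]
    exact ⟨fun h => h.2, fun h => ⟨toI_mem v, h⟩⟩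
  · rintro ⟨i, rfl⟩
    refine ⟨?_, ?_⟩
    · have hq : Topology.IsQuotientMap (toPsi ν) :=
        (toPsi_open ν).isQuotientMap (toPsi ν).continuous (toPsi_surj ν)
      rw [← hq.isClosed_preimage]
      have h1 : toPsi ν ⁻¹' (U9 ν i : Set (psiR ν).V) = toI ⁻¹' (Sp ν i : Set Isp) :=
        Set.ext fun v => mem_U9 ν hν i v
      rw [h1]
      exact (isClosed_Sp ν i).preimage toI.continuous
    · intro h w hw
      obtain ⟨v, rfl⟩ := toPsi_surj ν w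
      rw [toPsi_act]
      refine Submodule.smul_mem _ _ ?_
      rw [mem_U9 ν hν, toI_act]
      exact Sp_inv ν i _ ((isM3_iff _).mpr ⟨h, rfl⟩) _ ((mem_U9 ν hν i v).mp hw)

theorem U9_le_iff (ν : ℝ) (hν : ν ≠ 0) (i j : Fin 9) : U9 ν i ≤ U9 ν j ↔ le9 i j = true := by
  rw [← psipi_le ν hν]
  constructor
  · rintro h f ⟨hfP, hf⟩
    obtain ⟨v, rfl⟩ := toI_surj f hfP
    exact ⟨hfP, (mem_U9 ν hν j v).mp (h ((mem_U9 ν hν i v).mpr hf))⟩
  · intro h w hw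
    obtain ⟨v, rfl⟩ := toPsi_surj ν w
    exact (mem_U9 ν hν j v).mpr (h ⟨toI_mem v, (mem_U9 ν hν i v).mp hw⟩).2

theorem psipi_sup (ν : ℝ) (hν : ν ≠ 0) (i j k : Fin 9)
    (h : PiS ⊓ Sp ν i = (PiS ⊓ Sp ν j) ⊔ (PiS ⊓ Sp ν k)) (hj : le9 j i = true)
    (hk : le9 k i = true) : U9 ν i = U9 ν j ⊔ U9 ν k := by
  refine le_antisymm ?_ (sup_le ((U9_le_iff ν hν j i).mpr hj) ((U9_le_iff ν hν k i).mpr hk))
  intro w hw
  obtain ⟨v, rfl⟩ := toPsi_surj ν w
  have h1 : toI v ∈ PiS ⊓ Sp ν i := ⟨toI_mem v, (mem_U9 ν hν i v).mp hw⟩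
  rw [h] at h1
  obtain ⟨f, hf, g, hg, hfg⟩ := Submodule.mem_sup.mp h1
  obtain ⟨v1, rfl⟩ := toI_surj f hf.1
  obtain ⟨v2, rfl⟩ := toI_surj g hg.1
  rw [← map_add] at hfg
  rw [← toI_inj hfg, map_add]
  exact Submodule.add_mem_sup ((mem_U9 ν hν j v1).mpr hf.2) ((mem_U9 ν hν k v2).mpr hg.2)

theorem U9_four (ν : ℝ) (hν : ν ≠ 0) : U9 ν 4 = U9 ν 2 ⊔ U9 ν 3 :=
  psipi_sup ν hν 4 2 3 (sp4_sup ν PiS isClosed_PiS ginv_PiS) (by decide) (by decide)

theorem U9_six (ν : ℝ) (hν : ν ≠ 0) : U9 ν 6 = U9 ν 4 ⊔ U9 ν 5 :=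
  psipi_sup ν hν 6 4 5 (sp6_sup ν PiS isClosed_PiS ginv_PiS) (by decide) (by decide)

theorem U9_zero (ν : ℝ) (hν : ν ≠ 0) : U9 ν 0 = ⊥ := by
  rw [eq_bot_iff]
  intro w hw
  obtain ⟨v, rfl⟩ := toPsi_surj ν w
  exact (toPsi_zero ν hν v).mpr ((mem_U9 ν hν 0 v).mp hw)

theorem U9_eight (ν : ℝ) : U9 ν 8 = ⊤ := by
  rw [eq_top_iff]
  intro w _
  obtain ⟨v, rfl⟩ := toPsi_surj ν w
  exact Submodule.mem_map.mpr ⟨v, Submodule.mem_top, rfl⟩

end SoCo
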