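import Pool.Agent.H.MP_0f3f77_al.PsiSpanEq

/-!
The representation `Ψ(π)` of `M_3` and its nine subspaces (definitions only).
-/

open scoped Topology ContDiff
open MeasureTheory

noncomputable section

namespace SoCo

/-- The representation `Ψ(π)` of `M_3`. -/
def psiR (ν : ℝ) : TRep (Mir 2) := Psi ν (m := 2) resR

/-- The quotient map `π → Ψ(π)`. -/
def toPsi (ν : ℝ) : piR.V →L[ℂ] (psiR ν).V := (psiSpan ν (m := 2) resR).mkQL

theorem toPsi_surj (ν : ℝ) : Function.Surjective (toPsi ν) := Submodule.mkQ_surjective _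

theorem toPsi_open (ν : ℝ) : IsOpenMap (toPsi ν) :=
  (psiSpan ν (m := 2) resR).isOpenMap_mkQ

theorem toPsi_zero (ν : ℝ) (hν : ν ≠ 0) (v : piR.V) : toPsi ν v = 0 ↔ toI v ∈ Sp ν 0 := by
  rw [← psiSpan_eq ν hν v]
  exact Submodule.Quotient.mk_eq_zero _

theorem toPsi_act (ν : ℝ) (h : Mir 2) (v : piR.V) :
    (psiR ν).act h (toPsi ν v) = detChar 2 h •
      toPsi ν (piR.act ((emb 3 ((h : Mir 2) : GL (Fin 3) ℝ) : Mir 3) : GL (Fin 4) ℝ) v) := rfl

/-- The nine subspaces of `Ψ(π)`. -/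
def U9 (ν : ℝ) (i : Fin 9) : Submodule ℂ (psiR ν).V :=
  ((Sp ν i).comap (toI : piR.V →ₗ[ℂ] Isp)).map (toPsi ν : piR.V →ₗ[ℂ] (psiR ν).V)

end SoCo
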