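import Pool.Agent.H.MP_0f3f77_al.RepM
import Pool.Agent.H.MP_0f3f77_al.NEq
import Pool.Agent.H.MP_0f3f77_al.NUn

/-!
The span defining `Ψ(π)` is `N`.

Proof.  `⊆`: it suffices to consider a generator `y = w - (i ν α_2) v` with
`DerZero (fun t => act (unip (t α)) v) w` in `resR` (`resR.act h v = piR.act h v`).
By `unip_eq`, `toI (act (unip (t α)) v) = act (un (t (α_0, α_1, α_2))) (toI v)`, and
`opg_top` for `opg_un` together with uniqueness of limits in `Isp` (Hausdorff) gives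
`toI w = dop (α_0 E_03 + α_1 E_13 + α_2 E_23) (toI v) = α_0 D03 + α_1 D13 + α_2 D23`
(`dop_add`, `dop_smul`; `DerZero.map toI`).  So
`toI y = α_0 D03 v + α_1 D13 v + α_2 (D23 v - i ν v) ∈ Sp ν 0` by `N_quot`.
`⊇`: `N_eq` for `W = PiS` (`isClosed_PiS`, `ginv_PiS`): `toI v = D03 y1 + D13 y2 + (D23 y3 - iν y3)` with
`y_k ∈ PiS`, `y_k = toI v_k`; `D03 y1 ∈ PiS` (`opg_mem`), so it is `toI w1`, and `w1` is a
generator with `α = (1, 0, 0)`; similarly `α = (0, 1, 0)` and `α = (0, 0, 1)`.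
-/

open scoped Topology ContDiff
open MeasureTheory

noncomputable section

namespace SoCo

/-- The generator of `un (t u)`. -/
def psispan_X (u : R3) : Mat := u.1 • Eij 0 3 + u.2.1 • Eij 1 3 + u.2.2 • Eij 2 3

theorem psispan_dop (u : R3) (f : Isp) : dop (psispan_X u) f =
    (u.1 : ℂ) • D 0 3 f + (u.2.1 : ℂ) • D 1 3 f + (u.2.2 : ℂ) • D 2 3 f := by
  unfold psispan_X
  rw [dop_add, dop_add, dop_smul, dop_smul, dop_smul]
  rfl

theorem psispan_act (α : Fin 3 → ℝ) (t : ℝ) (v : piR.V) :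
    toI (resR.act (unip (t • α)) v) = act (un (t • (α 0, α 1, α 2))) (toI v) := by
  have h1 : toI (resR.act (unip (t • α)) v) =
      act ((unip (t • α) : Mir 3) : GL (Fin 4) ℝ) (toI v) := rfl
  rw [h1, unip_eq]
  rfl

/-- The derivative exists. -/
theorem psispan_gen (α : Fin 3 → ℝ) (v : piR.V) : ∃ w : piR.V,
    toI w = dop (psispan_X (α 0, α 1, α 2)) (toI v) ∧
      DerZero (fun t : ℝ => resR.act (unip (t • α)) v) w := by
  have hmem : dop (psispan_X (α 0, α 1, α 2)) (toI v) ∈ PiS :=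
    opg_mem (opg_un (α 0, α 1, α 2)) PiS isClosed_PiS
      (fun t f hf => ginv_PiS _ f hf) _ (toI_mem v)
  obtain ⟨w, hw⟩ := toI_surj _ hmem
  refine ⟨w, hw, ?_⟩
  have h1 := opg_top (opg_un (α 0, α 1, α 2)) (toI v)
  unfold DerZero at h1 ⊢
  refine toI_emb.tendsto_nhds_iff.mpr ?_
  rw [hw]
  refine h1.congr fun t => ?_
  show _ = toI (((t⁻¹ : ℝ) : ℂ) • (resR.act (unip (t • α)) v - resR.act (unip ((0 : ℝ) • α)) v))
  have h2 : toI (((t⁻¹ : ℝ) : ℂ) • (resR.act (unip (t • α)) v -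
      resR.act (unip ((0 : ℝ) • α)) v)) = ((t⁻¹ : ℝ) : ℂ) • (toI (resR.act (unip (t • α)) v) -
      toI (resR.act (unip ((0 : ℝ) • α)) v)) := by
    rw [← map_sub, ← map_smul]
    rfl
  rw [h2, psispan_act, psispan_act]

/-- The derivative is unique. -/
theorem psispan_uniq (α : Fin 3 → ℝ) (v w : piR.V)
    (h : DerZero (fun t : ℝ => resR.act (unip (t • α)) v) w) :
    toI w = dop (psispan_X (α 0, α 1, α 2)) (toI v) := by
  have h1 := opg_top (opg_un (α 0, α 1, α 2)) (toI v)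
  have h2 : DerZero (fun t : ℝ => toI (resR.act (unip (t • α)) v)) (toI w) := h.map toI
  unfold DerZero at h1 h2
  refine tendsto_nhds_unique h2 (h1.congr fun t => ?_)
  exact congrArg (fun z : Isp => ((t⁻¹ : ℝ) : ℂ) • z)
    (congrArg₂ (fun a b : Isp => a - b) (psispan_act α t v).symm (psispan_act α 0 v).symm)

/-- The span defining `Ψ` is the space `N`.  Proof: `⊆`: `DerZero` along `unip (t α)` identifies
`w` with `α_0 D03 v + α_1 D13 v + α_2 D23 v` (uniqueness of limits, `opg_top` for `opg_un`), then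
`N_quot`.  `⊇`: `N_eq`; each of `D03 y1`, `D13 y2`, `D23 y3 - iν y3` is one of the generators. -/
theorem psiSpan_eq (ν : ℝ) (hν : ν ≠ 0) (v : piR.V) :
    v ∈ psiSpan ν (m := 2) resR ↔ toI v ∈ Sp ν 0 := by
  constructor
  · intro hv
    have hle : psiSpan ν (m := 2) resR ≤ (Sp ν 0).comap (toI : piR.V →ₗ[ℂ] Isp) := by
      refine Submodule.span_le.mpr ?_
      rintro y ⟨α, v, w, hw, rfl⟩
      show toI (w - (((ν * α (Fin.last 2) : ℝ) : ℂ) * Complex.I) • v) ∈ Sp ν 0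
      have h1 := psispan_uniq α v w hw
      rw [psispan_dop] at h1
      have h2 : toI (w - (((ν * α (Fin.last 2) : ℝ) : ℂ) * Complex.I) • v) =
          (α 0 : ℂ) • D 0 3 (toI v) + (α 1 : ℂ) • D 1 3 (toI v) +
            (α 2 : ℂ) • (D 2 3 (toI v) - (Complex.I * ν) • toI v) := by
        have h3 : toI (w - (((ν * α (Fin.last 2) : ℝ) : ℂ) * Complex.I) • v) =
          toI w - (((ν * α 2 : ℝ) : ℂ) * Complex.I) • toI v := by
          rw [← map_smul, ← map_sub]
          rfl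
        rw [h3, h1, smul_sub, smul_smul]
        push_cast
        have h4 : (ν : ℂ) * (α 2 : ℂ) * Complex.I = (α 2 : ℂ) * (Complex.I * ν) := by ring
        rw [h4]
        abel
      rw [h2]
      obtain ⟨n1, n2, n3⟩ := N_quot ν (toI v)
      exact add_mem (add_mem (Submodule.smul_mem _ _ n1) (Submodule.smul_mem _ _ n2))
        (Submodule.smul_mem _ _ n3)
    exact hle hv
  · intro hv
    obtain ⟨y1, hy1, y2, hy2, y3, hy3, hf⟩ :=
      N_eq ν hν PiS isClosed_PiS ginv_PiS (toI v) hv (toI_mem v)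
    obtain ⟨v1, rfl⟩ := toI_surj y1 hy1
    obtain ⟨v2, rfl⟩ := toI_surj y2 hy2
    obtain ⟨v3, rfl⟩ := toI_surj y3 hy3
    obtain ⟨w1, hw1, hd1⟩ := psispan_gen ![1, 0, 0] v1
    obtain ⟨w2, hw2, hd2⟩ := psispan_gen ![0, 1, 0] v2
    obtain ⟨w3, hw3, hd3⟩ := psispan_gen ![0, 0, 1] v3
    have e1 : w1 ∈ psiSpan ν (m := 2) resR := by
      refine Submodule.subset_span ⟨![1, 0, 0], v1, w1, hd1, ?_⟩
      have : (![1, 0, 0] : Fin 3 → ℝ) (Fin.last 2) = 0 := rfl
      rw [this, mul_zero, Complex.ofReal_zero, zero_mul, zero_smul, sub_zero]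
    have e2 : w2 ∈ psiSpan ν (m := 2) resR := by
      refine Submodule.subset_span ⟨![0, 1, 0], v2, w2, hd2, ?_⟩
      have : (![0, 1, 0] : Fin 3 → ℝ) (Fin.last 2) = 0 := rfl
      rw [this, mul_zero, Complex.ofReal_zero, zero_mul, zero_smul, sub_zero]
    have e3 : w3 - ((ν : ℂ) * Complex.I) • v3 ∈ psiSpan ν (m := 2) resR := by
      refine Submodule.subset_span ⟨![0, 0, 1], v3, w3, hd3, ?_⟩
      have : (![0, 0, 1] : Fin 3 → ℝ) (Fin.last 2) = 1 := rfl
      rw [this, mul_one]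
      rfl
    have hv2 : v = w1 + w2 + (w3 - ((ν : ℂ) * Complex.I) • v3) := by
      apply toI_inj
      rw [psispan_dop] at hw1 hw2 hw3
      rw [hf]
      have h3 : toI (w1 + w2 + (w3 - ((ν : ℂ) * Complex.I) • v3)) =
          toI w1 + toI w2 + (toI w3 - ((ν : ℂ) * Complex.I) • toI v3) := by
        rw [← map_smul, ← map_sub, ← map_add, ← map_add]
      rw [h3, hw1, hw2, hw3, mul_comm (ν : ℂ)]
      simp
    rw [hv2]
    exact add_mem (add_mem e1 e2) e3

end SoCo
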