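import Pool.Agent.H.MP_0f3f77_al.Qgrp

/-!
The six functionals under group elements.

Sign matrices (`sl` level, `i = 1, 2`): `s1 = dg (-1) 1`: `s1⁻¹ (pt 0 p) = rmul (pt 0 p) diag(-1, 1)`,
so `sl (act s1 f) a b i p = -(-1)^([a=0]+[b=0]) sl f a b i p`: factor `-1, 1, -1` for
`(a,b) = 00, 01, 11`.  With `act_dop` (`s1⁻¹ E_20 s1 = -E_20`), `cc (s1 f) = -cc f`,
`dd (s1 f) = -L00(D20 s1 f) - iν L01(s1 f) = L00(s1 D20 f) - iν L01 f = dd f`,
`ee (s1 f) = -ee f`.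
`s2 = dg 1 (-1)`: `sl (act s2 f) a b i p = ± sl f a b i (-p.1, p.2)` with sign `-` for `i = 1`,
`+` for `i = 2`; `Lf_refl`; `s2` commutes with `E_20`.
Positive diagonal matrices: `φ s = cc ν i (act (γ s) f)` for `γ = opg_dg0` satisfies `φ' = φ`
(`opg_clm`; `act (γ s) (D00 f) = D00 (act (γ s) f)` by `act_dop`; `q_D00`), so
`φ s = e^s φ 0`; etc.  A general `s ≠ 0` is `± |s|`, and `|s| = exp (log |s|)`.
`up r`: `r ↦ dd ν 1 (act (up r) f)` has derivative `cc ν 2 (act (up r) f) = cc ν 2 f`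
(constant), etc.
`un u`: `t ↦ q (act (un (t u)) f)` has derivative `iν u_3` times itself.
-/

open scoped Topology ContDiff
open MeasureTheory

noncomputable section

namespace SoCo

variable (ν : ℝ)

theorem qdiag_neg_act (X : Mat) (f : Isp) : dop (-X) f = -dop X f := by
  have h := dop_sub 0 X f
  rw [zero_sub] at h
  have h0 : dop (0 : Mat) f = 0 := by
    have h1 := dop_add 0 0 f
    rw [add_zero] at h1
    exact left_eq_add.mp h1
  rw [h, h0, zero_sub]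

theorem qdiag_inv (s t : ℝ) (hs : s ≠ 0) (ht : t ≠ 0) :
    (((dg s t hs ht)⁻¹ : GL (Fin 4) ℝ) : Mat) = dgM s⁻¹ t⁻¹ := rfl

theorem qdiag_val (s t : ℝ) (hs : s ≠ 0) (ht : t ≠ 0) :
    ((dg s t hs ht : GL (Fin 4) ℝ) : Mat) = dgM s t := rfl

theorem qdiag_mul (s t s' t' : ℝ) (hs : s ≠ 0) (ht : t ≠ 0) (hs' : s' ≠ 0) (ht' : t' ≠ 0) :
    dg (s * s') (t * t') (mul_ne_zero hs hs') (mul_ne_zero ht ht') =
      dg s t hs ht * dg s' t' hs' ht' := by
  apply Units.ext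
  exact (dgM_mul s t s' t').symm

/-- The values on the slice of a function moved by a diagonal matrix. -/
theorem qdiag_act (s t : ℝ) (hs : s ≠ 0) (ht : t ≠ 0) (f : Isp) (a b : Fin 2) (i : Fin 4)
    (x : E) : act (dg s t hs ht) f x a b i =
      ((![s⁻¹, t⁻¹, 1, 1] i : ℝ) : ℂ) * f (lmul (dgM s⁻¹ t⁻¹) x) a b i := by
  rw [act_app, qdiag_inv, Fin.sum_univ_four]
  fin_cases i <;> simp [dgM]

theorem qdiag_pt0 (p : ℝ × ℝ) : lmul (dgM (-1)⁻¹ 1⁻¹) (pt 0 p) =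
    rmul (pt 0 p) !![-1, 0; 0, 1] := by
  funext a i
  rw [lmul_app, rmul_app, Fin.sum_univ_four]
  fin_cases a <;> fin_cases i <;> simp [pt, dgM]

theorem qdiag_pt1 (p : ℝ × ℝ) : lmul (dgM 1⁻¹ (-1)⁻¹) (pt 0 p) = pt 0 (-p.1, p.2) := by
  funext a i
  rw [lmul_app, Fin.sum_univ_four]
  fin_cases a <;> fin_cases i <;> simp [pt, dgM]

theorem qdiag_n1 : (-1 : ℝ) ≠ 0 := by norm_num

/-- The sign matrix in the first coordinate. -/
def qdiag_s1 : GL (Fin 4) ℝ := dg (-1) 1 qdiag_n1 one_ne_zero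

/-- The sign matrix in the second coordinate. -/
def qdiag_s2 : GL (Fin 4) ℝ := dg 1 (-1) one_ne_zero qdiag_n1

theorem qdiag_sl1 (f : Isp) (a b : Fin 2) (i : Fin 4) (hi : i = 1 ∨ i = 2) (p : ℝ × ℝ) :
    sl (act qdiag_s1 f) a b i p = (if a = b then -1 else 1) * sl f a b i p := by
  have hdet : (!![-1, 0; 0, 1] : Mat2).det ≠ 0 := by simp [Matrix.det_fin_two]
  have h1 := (isI f).cov (pt 0 p) !![-1, 0; 0, 1] hdet
  rw [sl, sl, qdiag_s1, qdiag_act, qdiag_pt0, h1]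
  simp only [rho, Matrix.det_fin_two, Fin.sum_univ_two]
  rcases hi with rfl | rfl <;> fin_cases a <;> fin_cases b <;> simp <;> ring

theorem qdiag_sl2 (f : Isp) (a b : Fin 2) (i : Fin 4) (hi : i = 1 ∨ i = 2) (p : ℝ × ℝ) :
    sl (act qdiag_s2 f) a b i p = (if i = 1 then -1 else 1) * sl f a b i (-p.1, p.2) := by
  rw [sl, sl, qdiag_s2, qdiag_act, qdiag_pt1]
  rcases hi with rfl | rfl <;> simp

theorem qdiag_La1 (f : Isp) (a b : Fin 2) (i : Fin 4) (hi : i = 1 ∨ i = 2) :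
    La ν a b i (act qdiag_s1 f) = (if a = b then -1 else 1) * La ν a b i f := by
  rw [La_eq, La_eq]
  have h : sl (act qdiag_s1 f) a b i = fun p => (if a = b then -1 else 1) * sl f a b i p :=
    funext fun p => qdiag_sl1 f a b i hi p
  rw [h]
  exact Lf_smul ν ((sl_sy' f a b i).mono (by norm_num)) _

theorem qdiag_La2 (f : Isp) (a b : Fin 2) (i : Fin 4) (hi : i = 1 ∨ i = 2) :
    La ν a b i (act qdiag_s2 f) = (if i = 1 then -1 else 1) * La ν a b i f := by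
  rw [La_eq, La_eq]
  have h : sl (act qdiag_s2 f) a b i =
      fun p => (fun p => (if i = 1 then -1 else 1) * sl f a b i p) (-p.1, p.2) :=
    funext fun p => qdiag_sl2 f a b i hi p
  rw [h, Lf_refl ν (φ := fun p => (if i = 1 then -1 else 1) * sl f a b i p)
    (((sl_sy' f a b i).mono (by norm_num)).smul _)]
  exact Lf_smul ν ((sl_sy' f a b i).mono (by norm_num)) _

theorem qdiag_E20 : Eij 2 0 = !![0, 0, 0, 0; 0, 0, 0, 0; 1, 0, 0, 0; 0, 0, 0, 0] := by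
  ext i j
  fin_cases i <;> fin_cases j <;> simp [Eij, Matrix.single]

theorem qdiag_E00 : Eij 0 0 = !![1, 0, 0, 0; 0, 0, 0, 0; 0, 0, 0, 0; 0, 0, 0, 0] := by
  ext i j
  fin_cases i <;> fin_cases j <;> simp [Eij, Matrix.single]

theorem qdiag_E11 : Eij 1 1 = !![0, 0, 0, 0; 0, 1, 0, 0; 0, 0, 0, 0; 0, 0, 0, 0] := by
  ext i j
  fin_cases i <;> fin_cases j <;> simp [Eij, Matrix.single]

theorem qdiag_D1 (f : Isp) : D 2 0 (act qdiag_s1 f) = -act qdiag_s1 (D 2 0 f) := by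
  rw [D, act_dop, qdiag_s1, qdiag_inv, qdiag_val]
  have h : dgM (-1) 1 * Eij 2 0 * dgM (-1)⁻¹ 1⁻¹ = -Eij 2 0 := by
    rw [qdiag_E20]
    ext i j
    fin_cases i <;> fin_cases j <;>
      simp [dgM, Matrix.mul_apply, Fin.sum_univ_four]
  rw [h, qdiag_neg_act, neg_neg]

theorem qdiag_D2 (f : Isp) : D 2 0 (act qdiag_s2 f) = act qdiag_s2 (D 2 0 f) := by
  rw [D, act_dop, qdiag_s2, qdiag_inv, qdiag_val]
  have h : dgM 1 (-1) * Eij 2 0 * dgM 1⁻¹ (-1)⁻¹ = Eij 2 0 := by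
    rw [qdiag_E20]
    ext i j
    fin_cases i <;> fin_cases j <;>
      simp [dgM, Matrix.mul_apply, Fin.sum_univ_four]
  rw [h]

theorem qdiag_q1 (i : Fin 4) (hi : i = 1 ∨ i = 2) (f : Isp) :
    cc ν i (act qdiag_s1 f) = -cc ν i f ∧ dd ν i (act qdiag_s1 f) = dd ν i f ∧
    ee ν i (act qdiag_s1 f) = -ee ν i f := by
  refine ⟨?_, ?_, ?_⟩
  · rw [cc_eq, cc_eq, qdiag_La1 ν f 0 0 i hi]
    simp
  · rw [dd_eq, dd_eq, qdiag_D1, map_neg, qdiag_La1 ν _ 0 0 i hi, qdiag_La1 ν f 0 1 i hi]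
    simp
  · rw [ee_eq, ee_eq, qdiag_D1, map_neg, map_neg, map_neg, qdiag_D1, map_neg,
      qdiag_La1 ν _ 0 0 i hi, qdiag_La1 ν _ 0 1 i hi, qdiag_La1 ν f 1 1 i hi]
    simp
    ring

theorem qdiag_q2 (i : Fin 4) (hi : i = 1 ∨ i = 2) (f : Isp) :
    cc ν i (act qdiag_s2 f) = (if i = 1 then -1 else 1) * cc ν i f ∧
    dd ν i (act qdiag_s2 f) = (if i = 1 then -1 else 1) * dd ν i f ∧
    ee ν i (act qdiag_s2 f) = (if i = 1 then -1 else 1) * ee ν i f := by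
  refine ⟨?_, ?_, ?_⟩
  · rw [cc_eq, cc_eq, qdiag_La2 ν f 0 0 i hi]
  · rw [dd_eq, dd_eq, qdiag_D2, qdiag_La2 ν _ 0 0 i hi, qdiag_La2 ν f 0 1 i hi]
    ring
  · rw [ee_eq, ee_eq, qdiag_D2, qdiag_D2, qdiag_La2 ν _ 0 0 i hi, qdiag_La2 ν _ 0 1 i hi,
      qdiag_La2 ν f 1 1 i hi]
    ring

/-- The linear differential equation of first order. -/
theorem qdiag_ode (φ : ℝ → ℂ) (c : ℂ) (h : ∀ t, HasDerivAt φ (c * φ t) t) (t : ℝ) :
    φ t = Complex.exp (c * t) * φ 0 := by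
  have h1 : ∀ s : ℝ, HasDerivAt (fun s : ℝ => Complex.exp (-(c * s)) * φ s) 0 s := by
    intro s
    have h2 : HasDerivAt (fun s : ℝ => -(c * (s : ℂ))) (-(c * 1)) s :=
      (((Complex.ofRealCLM.hasDerivAt (x := s)).const_mul c)).neg
    have h3 := (h2.cexp).mul (h s)
    have h7 : Complex.exp (-(c * (s : ℂ))) * -(c * 1) * φ s +
        Complex.exp (-(c * (s : ℂ))) * (c * φ s) = 0 := by ring
    rw [h7] at h3
    exact h3
  have h4 : Complex.exp (-(c * t)) * φ t = Complex.exp (-(c * (0 : ℝ))) * φ 0 := by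
    have := is_const_of_deriv_eq_zero (f := fun s : ℝ => Complex.exp (-(c * s)) * φ s)
      (fun s => (h1 s).differentiableAt) (fun s => (h1 s).deriv) t 0
    exact this
  have h5 : Complex.exp (c * t) * Complex.exp (-(c * t)) = 1 := by
    rw [← Complex.exp_add, add_neg_cancel, Complex.exp_zero]
  have h6 : Complex.exp (-(c * ((0 : ℝ) : ℂ))) = 1 := by simp
  rw [h6, one_mul] at h4
  rw [← h4, ← mul_assoc, h5, one_mul]

theorem qdiag_conj0 (s : ℝ) (hs : s ≠ 0) : dgM s 1 * Eij 0 0 * dgM s⁻¹ 1⁻¹ = Eij 0 0 := by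
  rw [qdiag_E00]
  ext i j
  fin_cases i <;> fin_cases j <;>
    simp [dgM, Matrix.mul_apply, Fin.sum_univ_four, hs]

theorem qdiag_conj1 (s : ℝ) (hs : s ≠ 0) : dgM 1 s * Eij 1 1 * dgM 1⁻¹ s⁻¹ = Eij 1 1 := by
  rw [qdiag_E11]
  ext i j
  fin_cases i <;> fin_cases j <;>
    simp [dgM, Matrix.mul_apply, Fin.sum_univ_four, hs]

theorem qdiag_one : dg 1 1 one_ne_zero one_ne_zero = 1 := Units.ext dgM_one

/-- Positive diagonal matrices, first coordinate. -/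
theorem qdiag_pos0 (T : Isp →L[ℂ] ℂ) (c : ℂ) (hT : ∀ f, T (D 0 0 f) = c * T f) (s : ℝ)
    (f : Isp) : T (act (dg (Real.exp s) 1 (Real.exp_ne_zero s) one_ne_zero) f) =
      Complex.exp (c * s) * T f := by
  have h := qdiag_ode (fun s => T (act (dg (Real.exp s) 1 (Real.exp_ne_zero s) one_ne_zero) f))
    c (fun t => by
      have h1 := opg_clm opg_dg0 f T t
      have h2 : act (dg (Real.exp t) 1 (Real.exp_ne_zero t) one_ne_zero) (dop (Eij 0 0) f) =
          D 0 0 (act (dg (Real.exp t) 1 (Real.exp_ne_zero t) one_ne_zero) f) := by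
        rw [act_dop, qdiag_inv, qdiag_val, qdiag_conj0 _ (Real.exp_ne_zero t)]
        rfl
      rw [h2, hT] at h1
      exact h1) s
  have h3 : dg (Real.exp 0) 1 (Real.exp_ne_zero 0) one_ne_zero = 1 := by
    apply Units.ext
    rw [qdiag_val, Real.exp_zero, dgM_one]
    rfl
  rw [h3, act_one] at h
  exact h

/-- Positive diagonal matrices, second coordinate. -/
theorem qdiag_pos1 (T : Isp →L[ℂ] ℂ) (c : ℂ) (hT : ∀ f, T (D 1 1 f) = c * T f) (s : ℝ)
    (f : Isp) : T (act (dg 1 (Real.exp s) one_ne_zero (Real.exp_ne_zero s)) f) =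
      Complex.exp (c * s) * T f := by
  have h := qdiag_ode (fun s => T (act (dg 1 (Real.exp s) one_ne_zero (Real.exp_ne_zero s)) f))
    c (fun t => by
      have h1 := opg_clm opg_dg1 f T t
      have h2 : act (dg 1 (Real.exp t) one_ne_zero (Real.exp_ne_zero t)) (dop (Eij 1 1) f) =
          D 1 1 (act (dg 1 (Real.exp t) one_ne_zero (Real.exp_ne_zero t)) f) := by
        rw [act_dop, qdiag_inv, qdiag_val, qdiag_conj1 _ (Real.exp_ne_zero t)]
        rfl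
      rw [h2, hT] at h1
      exact h1) s
  have h3 : dg 1 (Real.exp 0) one_ne_zero (Real.exp_ne_zero 0) = 1 := by
    apply Units.ext
    rw [qdiag_val, Real.exp_zero, dgM_one]
    rfl
  rw [h3, act_one] at h
  exact h

theorem qdiag_exp (n : ℕ) (s : ℝ) : Complex.exp ((n : ℂ) * s) = ((Real.exp s : ℝ) : ℂ) ^ n := by
  rw [Complex.exp_nat_mul, Complex.ofReal_exp]

theorem q_dg0 (s : ℝ) (hs : s ≠ 0) (i : Fin 4) (hi : i = 1 ∨ i = 2) (f : Isp) :
    cc ν i (act (dg s 1 hs one_ne_zero) f) = s * cc ν i f ∧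
    dd ν i (act (dg s 1 hs one_ne_zero) f) = (s : ℂ) ^ 2 * dd ν i f ∧
    ee ν i (act (dg s 1 hs one_ne_zero) f) = (s : ℂ) ^ 3 * ee ν i f := by
  have key : ∀ s : ℝ, ∀ hs : s ≠ 0, 0 < s →
      cc ν i (act (dg s 1 hs one_ne_zero) f) = s * cc ν i f ∧
      dd ν i (act (dg s 1 hs one_ne_zero) f) = (s : ℂ) ^ 2 * dd ν i f ∧
      ee ν i (act (dg s 1 hs one_ne_zero) f) = (s : ℂ) ^ 3 * ee ν i f := by
    intro s hs hpos
    obtain ⟨u, rfl⟩ : ∃ u, s = Real.exp u := ⟨Real.log s, (Real.exp_log hpos).symm⟩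
    refine ⟨?_, ?_, ?_⟩
    · have h := qdiag_pos0 (cc ν i) ((1 : ℕ) : ℂ)
        (fun g => by rw [(q_D00 ν i g hi).1]; simp) u f
      rw [qdiag_exp, pow_one] at h
      exact h
    · have h := qdiag_pos0 (dd ν i) ((2 : ℕ) : ℂ)
        (fun g => by rw [(q_D00 ν i g hi).2.1]; simp) u f
      rw [qdiag_exp] at h
      exact h
    · have h := qdiag_pos0 (ee ν i) ((3 : ℕ) : ℂ)
        (fun g => by rw [(q_D00 ν i g hi).2.2]; simp) u f
      rw [qdiag_exp] at h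
      exact h
  rcases lt_or_gt_of_ne hs with h | h
  · have hp : 0 < -s := by linarith
    obtain ⟨k1, k2, k3⟩ := key (-s) hp.ne' hp
    have hg : dg s 1 hs one_ne_zero = qdiag_s1 * dg (-s) 1 hp.ne' one_ne_zero := by
      apply Units.ext
      rw [Units.val_mul, qdiag_s1, qdiag_val, qdiag_val, qdiag_val, dgM_mul]
      congr 1 <;> ring
    rw [hg, act_mul]
    obtain ⟨m1, m2, m3⟩ := qdiag_q1 ν i hi (act (dg (-s) 1 hp.ne' one_ne_zero) f)
    rw [m1, m2, m3, k1, k2, k3]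
    push_cast
    refine ⟨by ring, by ring, by ring⟩
  · exact key s hs h

/-- The factor is `t / |t|` for `i = 1` and `|t|` for `i = 2`. -/
theorem q_dg1 (t : ℝ) (ht : t ≠ 0) (i : Fin 4) (hi : i = 1 ∨ i = 2) (f : Isp) :
    cc ν i (act (dg 1 t one_ne_zero ht) f) =
      ((if i = 1 then t / |t| else |t| : ℝ) : ℂ) * cc ν i f ∧
    dd ν i (act (dg 1 t one_ne_zero ht) f) =
      ((if i = 1 then t / |t| else |t| : ℝ) : ℂ) * dd ν i f ∧
    ee ν i (act (dg 1 t one_ne_zero ht) f) =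
      ((if i = 1 then t / |t| else |t| : ℝ) : ℂ) * ee ν i f := by
  have key : ∀ t : ℝ, ∀ ht : t ≠ 0, 0 < t →
      cc ν i (act (dg 1 t one_ne_zero ht) f) = ((if i = 1 then 1 else t : ℝ) : ℂ) * cc ν i f ∧
      dd ν i (act (dg 1 t one_ne_zero ht) f) = ((if i = 1 then 1 else t : ℝ) : ℂ) * dd ν i f ∧
      ee ν i (act (dg 1 t one_ne_zero ht) f) = ((if i = 1 then 1 else t : ℝ) : ℂ) * ee ν i f := by
    intro t ht hpos
    obtain ⟨u, rfl⟩ : ∃ u, t = Real.exp u := ⟨Real.log t, (Real.exp_log hpos).symm⟩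
    have hfac : Complex.exp (((if i = 1 then 0 else 1 : ℕ) : ℂ) * u) =
        ((if i = 1 then 1 else Real.exp u : ℝ) : ℂ) := by
      rw [qdiag_exp]
      rcases hi with rfl | rfl <;> simp
    refine ⟨?_, ?_, ?_⟩
    · have h := qdiag_pos1 (cc ν i) ((if i = 1 then 0 else 1 : ℕ) : ℂ)
        (fun g => by rw [(q_D11 ν i g hi).1]; rcases hi with rfl | rfl <;> simp) u f
      rw [hfac] at h
      exact h
    · have h := qdiag_pos1 (dd ν i) ((if i = 1 then 0 else 1 : ℕ) : ℂ)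
        (fun g => by rw [(q_D11 ν i g hi).2.1]; rcases hi with rfl | rfl <;> simp) u f
      rw [hfac] at h
      exact h
    · have h := qdiag_pos1 (ee ν i) ((if i = 1 then 0 else 1 : ℕ) : ℂ)
        (fun g => by rw [(q_D11 ν i g hi).2.2]; rcases hi with rfl | rfl <;> simp) u f
      rw [hfac] at h
      exact h
  rcases lt_or_gt_of_ne ht with h | h
  · have hp : 0 < -t := by linarith
    obtain ⟨k1, k2, k3⟩ := key (-t) hp.ne' hp
    have hg : dg 1 t one_ne_zero ht = qdiag_s2 * dg 1 (-t) one_ne_zero hp.ne' := by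
      apply Units.ext
      rw [Units.val_mul, qdiag_s2, qdiag_val, qdiag_val, qdiag_val, dgM_mul]
      congr 1 <;> ring
    rw [hg, act_mul]
    obtain ⟨m1, m2, m3⟩ := qdiag_q2 ν i hi (act (dg 1 (-t) one_ne_zero hp.ne') f)
    rw [m1, m2, m3, k1, k2, k3, abs_of_neg h]
    have h7 : t / -t = -1 := by field_simp
    rw [h7]
    rcases hi with rfl | rfl <;> simp
  · obtain ⟨k1, k2, k3⟩ := key t ht h
    rw [k1, k2, k3, abs_of_pos h, div_self ht]
    exact ⟨rfl, rfl, rfl⟩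

end SoCo
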