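import Pool.Agent.H.MP_0f3f77_al.Qgrp

/-!
The six functionals under group elements.

Sign matrices (`sl` level, `i = 1, 2`): `s1 = dg (-1) 1`: `s1⁻¹ (pt 0 p) = rmul (pt 0 p) diag(-1, 1)`,
so `sl (act s1 f) a b i p = -(-1)^([a=0]+[b=0]) sl f a b i p`: factor `-1, 1, -1` for
`(a,b) = 00, 01, 11`.  With `act_dop` (`s1⁻¹ E_20 s1 = -E_20`), `cc (s1 f) = -cc f`,
`dd (s1 f) = -L00(D20 s1 f) - iν L01(s1 f) = L00(s1 D20 f) - iν L01 f = dd f`,
`ee (s1 f) = -ee f`.
`s2 = dg 1 (-1)`: `sl (act s2 f) a b i p = ± sl f a b i (-p.1, p.2)` with sign `-` for `i = 1`,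
`+` for `i = 2`; `Lf_refl`; `s2` commutes with `E_20`.
Positive diagonal matrices: `φ s = cc ν i (act (γ s) f)` for `γ = opg_dg0` satisfies `φ' = φ`
(`opg_clm`; `act (γ s) (D00 f) = D00 (act (γ s) f)` by `act_dop`; `q_D00`), so
`φ s = e^s φ 0`; etc.  A general `s ≠ 0` is `± |s|`, and `|s| = exp (log |s|)`.
`up r`: `r ↦ dd ν 1 (act (up r) f)` has derivative `cc ν 2 (act (up r) f) = cc ν 2 f`
(constant), etc.
`un u`: `t ↦ q (act (un (t u)) f)` has derivative `iν u_3` times itself.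
-/

open scoped Topology ContDiff
open MeasureTheory

noncomputable section

namespace SoCo

theorem qu_lin (φ : ℝ → ℂ) (c : ℂ) (h : ∀ t, HasDerivAt φ c t) (r : ℝ) :
    φ r = φ 0 + r * c := by
  have h1 : ∀ t : ℝ, HasDerivAt (fun t : ℝ => φ t - (t : ℂ) * c) 0 t := by
    intro t
    have h2 : HasDerivAt (fun t : ℝ => (t : ℂ) * c) (1 * c) t :=
      ((hasDerivAt_id t).ofReal_comp).mul_const c
    have h3 := (h t).sub h2
    rw [one_mul, sub_self] at h3
    exact h3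
  have h4 := is_const_of_deriv_eq_zero (fun t => (h1 t).differentiableAt)
    (fun t => (h1 t).deriv) r 0
  simp only [Complex.ofReal_zero, zero_mul, sub_zero] at h4
  rw [← h4]
  ring

theorem qu_exp (φ : ℝ → ℂ) (c : ℂ) (h : ∀ t, HasDerivAt φ (c * φ t) t) (r : ℝ) :
    φ r = Complex.exp (c * r) * φ 0 := by
  have h1 : ∀ t : ℝ, HasDerivAt (fun t : ℝ => Complex.exp (-(c * t)) * φ t) 0 t := by
    intro t
    have h2 : HasDerivAt (fun t : ℝ => -(c * (t : ℂ))) (-(c * 1)) t :=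
      (((hasDerivAt_id t).ofReal_comp).const_mul c).neg
    have h3 := h2.cexp.mul (h t)
    have h4 : Complex.exp (-(c * (t : ℂ))) * -(c * 1) * φ t +
        Complex.exp (-(c * (t : ℂ))) * (c * φ t) = 0 := by ring
    rw [h4] at h3
    exact h3
  have h4 := is_const_of_deriv_eq_zero (fun t => (h1 t).differentiableAt)
    (fun t => (h1 t).deriv) r 0
  simp only [Complex.ofReal_zero, mul_zero, neg_zero, Complex.exp_zero, one_mul] at h4
  rw [← h4, ← mul_assoc, ← Complex.exp_add, add_neg_cancel, Complex.exp_zero, one_mul]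

theorem qu_up_comm (r : ℝ) :
    ((up r : GL (Fin 4) ℝ) : Mat) * Eij 0 1 * (((up r)⁻¹ : GL (Fin 4) ℝ) : Mat) = Eij 0 1 := by
  change upM r * Eij 0 1 * upM (-r) = Eij 0 1
  have h : Eij 0 1 = !![0, 1, 0, 0; 0, 0, 0, 0; 0, 0, 0, 0; 0, 0, 0, 0] := by
    ext i j
    fin_cases i <;> fin_cases j <;> simp [Eij, Matrix.single]
  rw [h]
  ext i j
  fin_cases i <;> fin_cases j <;> simp [upM, Matrix.mul_apply, Fin.sum_univ_four]

theorem qu_un_comm (u v : R3) :
    ((un v : GL (Fin 4) ℝ) : Mat) * (u.1 • Eij 0 3 + u.2.1 • Eij 1 3 + u.2.2 • Eij 2 3) *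
      (((un v)⁻¹ : GL (Fin 4) ℝ) : Mat) = u.1 • Eij 0 3 + u.2.1 • Eij 1 3 + u.2.2 • Eij 2 3 := by
  change unM v * _ * unM (-v) = _
  have h : u.1 • Eij 0 3 + u.2.1 • Eij 1 3 + u.2.2 • Eij 2 3 =
      !![0, 0, 0, u.1; 0, 0, 0, u.2.1; 0, 0, 0, u.2.2; 0, 0, 0, 0] := by
    ext i j
    fin_cases i <;> fin_cases j <;> simp [Eij, Matrix.single]
  rw [h]
  ext i j
  fin_cases i <;> fin_cases j <;> simp [unM, Matrix.mul_apply, Fin.sum_univ_four]

theorem qu_up_deriv (T : Isp →L[ℂ] ℂ) (f : Isp) (t : ℝ) :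
    HasDerivAt (fun t => T (act (up t) f)) (T (D 0 1 (act (up t) f))) t := by
  have h := opg_clm opg_up f T t
  rw [act_dop, qu_up_comm] at h
  exact h

theorem qu_up_zero (T : Isp →L[ℂ] ℂ) (f : Isp) : T (act (up 0) f) = T f := by
  rw [opg_up.zero, act_one]

variable (ν : ℝ)

theorem q_up (r : ℝ) (f : Isp) :
    cc ν 1 (act (up r) f) = cc ν 1 f ∧ cc ν 2 (act (up r) f) = cc ν 2 f ∧
    dd ν 1 (act (up r) f) = dd ν 1 f + r * cc ν 2 f ∧ dd ν 2 (act (up r) f) = dd ν 2 f ∧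
    ee ν 1 (act (up r) f) = ee ν 1 f + r * dd ν 2 f ∧ ee ν 2 (act (up r) f) = ee ν 2 f := by
  have i1 : (1 : Fin 4) = 1 ∨ (1 : Fin 4) = 2 := Or.inl rfl
  have i2 : (2 : Fin 4) = 1 ∨ (2 : Fin 4) = 2 := Or.inr rfl
  have n21 : ¬ ((2 : Fin 4) = 1) := by decide
  have h1 := fun t => q_D01 ν 1 (act (up t) f) i1
  have h2 := fun t => q_D01 ν 2 (act (up t) f) i2
  have c1 : ∀ r : ℝ, cc ν 1 (act (up r) f) = cc ν 1 f := by
    intro r
    have h := qu_lin (fun t => cc ν 1 (act (up t) f)) 0 (fun t => by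
      have := qu_up_deriv (cc ν 1) f t
      rwa [(h1 t).1] at this) r
    simp only [qu_up_zero, mul_zero, add_zero] at h
    exact h
  have c2 : ∀ r : ℝ, cc ν 2 (act (up r) f) = cc ν 2 f := by
    intro r
    have h := qu_lin (fun t => cc ν 2 (act (up t) f)) 0 (fun t => by
      have := qu_up_deriv (cc ν 2) f t
      rwa [(h2 t).1] at this) r
    simp only [qu_up_zero, mul_zero, add_zero] at h
    exact h
  have d2 : ∀ r : ℝ, dd ν 2 (act (up r) f) = dd ν 2 f := by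
    intro r
    have h := qu_lin (fun t => dd ν 2 (act (up t) f)) 0 (fun t => by
      have := qu_up_deriv (dd ν 2) f t
      rwa [(h2 t).2.1, if_neg n21] at this) r
    simp only [qu_up_zero, mul_zero, add_zero] at h
    exact h
  have e2 : ∀ r : ℝ, ee ν 2 (act (up r) f) = ee ν 2 f := by
    intro r
    have h := qu_lin (fun t => ee ν 2 (act (up t) f)) 0 (fun t => by
      have := qu_up_deriv (ee ν 2) f t
      rwa [(h2 t).2.2, if_neg n21] at this) r
    simp only [qu_up_zero, mul_zero, add_zero] at h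
    exact h
  have d1 : dd ν 1 (act (up r) f) = dd ν 1 f + r * cc ν 2 f := by
    have h := qu_lin (fun t => dd ν 1 (act (up t) f)) (cc ν 2 f) (fun t => by
      have := qu_up_deriv (dd ν 1) f t
      rwa [(h1 t).2.1, if_pos rfl, c2 t] at this) r
    simp only [qu_up_zero] at h
    exact h
  have e1 : ee ν 1 (act (up r) f) = ee ν 1 f + r * dd ν 2 f := by
    have h := qu_lin (fun t => ee ν 1 (act (up t) f)) (dd ν 2 f) (fun t => by
      have := qu_up_deriv (ee ν 1) f t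
      rwa [(h1 t).2.2, if_pos rfl, d2 t] at this) r
    simp only [qu_up_zero] at h
    exact h
  exact ⟨c1 r, c2 r, d1, d2 r, e1, e2 r⟩

theorem qu_un_T (u : R3) (f : Isp) (T : Isp →L[ℂ] ℂ) (h03 : ∀ g, T (D 0 3 g) = 0)
    (h13 : ∀ g, T (D 1 3 g) = 0) (h23 : ∀ g, T (D 2 3 g) = (Complex.I * ν) * T g) :
    T (act (un u) f) = Complex.exp (Complex.I * ν * u.2.2) * T f := by
  have h := qu_exp (fun t => T (act (un (t • u)) f)) (Complex.I * ν * u.2.2) (fun t => by
    have h1 := opg_clm (opg_un u) f T t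
    rw [act_dop, qu_un_comm, dop_add, dop_add, dop_smul, dop_smul, dop_smul, map_add, map_add,
      map_smul, map_smul, map_smul] at h1
    have e03 : T (dop (Eij 0 3) (act (un (t • u)) f)) = 0 := h03 _
    have e13 : T (dop (Eij 1 3) (act (un (t • u)) f)) = 0 := h13 _
    have e23 : T (dop (Eij 2 3) (act (un (t • u)) f)) =
      (Complex.I * ν) * T (act (un (t • u)) f) := h23 _
    rw [e03, e13, e23, smul_zero, smul_zero, zero_add, zero_add, smul_eq_mul] at h1
    have e : (u.2.2 : ℂ) * (Complex.I * ν * T (act (un (t • u)) f)) =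
      Complex.I * ν * u.2.2 * T (act (un (t • u)) f) := by ring
    rw [e] at h1
    exact h1) 1
  simp only [one_smul, Complex.ofReal_one, mul_one, zero_smul, un_zero, act_one] at h
  exact h

theorem q_un (u : R3) (i : Fin 4) (hi : i = 1 ∨ i = 2) (f : Isp) :
    cc ν i (act (un u) f) = Complex.exp (Complex.I * ν * u.2.2) * cc ν i f ∧
    dd ν i (act (un u) f) = Complex.exp (Complex.I * ν * u.2.2) * dd ν i f ∧
    ee ν i (act (un u) f) = Complex.exp (Complex.I * ν * u.2.2) * ee ν i f := by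
  refine ⟨?_, ?_, ?_⟩
  · exact qu_un_T ν u f _ (fun g => (q_D03 ν i g hi).1) (fun g => (q_D13 ν i g hi).1)
      (fun g => (q_D23 ν i g hi).1)
  · exact qu_un_T ν u f _ (fun g => (q_D03 ν i g hi).2.1) (fun g => (q_D13 ν i g hi).2.1)
      (fun g => (q_D23 ν i g hi).2.1)
  · exact qu_un_T ν u f _ (fun g => (q_D03 ν i g hi).2.2) (fun g => (q_D13 ν i g hi).2.2)
      (fun g => (q_D23 ν i g hi).2.2)

end SoCo
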