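import Pool.Agent.H.MP_0f3f77_al.QDiag
import Pool.Agent.H.MP_0f3f77_al.QUp

/-!
The six functionals under group elements.

Sign matrices (`sl` level, `i = 1, 2`): `s1 = dg (-1) 1`: `s1⁻¹ (pt 0 p) = rmul (pt 0 p) diag(-1, 1)`,
so `sl (act s1 f) a b i p = -(-1)^([a=0]+[b=0]) sl f a b i p`: factor `-1, 1, -1` for
`(a,b) = 00, 01, 11`.  With `act_dop` (`s1⁻¹ E_20 s1 = -E_20`), `cc (s1 f) = -cc f`,
`dd (s1 f) = -L00(D20 s1 f) - iν L01(s1 f) = L00(s1 D20 f) - iν L01 f = dd f`,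
`ee (s1 f) = -ee f`.
`s2 = dg 1 (-1)`: `sl (act s2 f) a b i p = ± sl f a b i (-p.1, p.2)` with sign `-` for `i = 1`,
`+` for `i = 2`; `Lf_refl`; `s2` commutes with `E_20`.
Positive diagonal matrices: `φ s = cc ν i (act (γ s) f)` for `γ = opg_dg0` satisfies `φ' = φ`
(`opg_clm`; `act (γ s) (D00 f) = D00 (act (γ s) f)` by `act_dop`; `q_D00`), so
`φ s = e^s φ 0`; etc.  A general `s ≠ 0` is `± |s|`, and `|s| = exp (log |s|)`.
`up r`: `r ↦ dd ν 1 (act (up r) f)` has derivative `cc ν 2 (act (up r) f) = cc ν 2 f`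
(constant), etc.
`un u`: `t ↦ q (act (un (t u)) f)` has derivative `iν u_3` times itself.
-/

open scoped Topology ContDiff
open MeasureTheory

noncomputable section

namespace SoCo

variable (ν : ℝ)

theorem qld_move (g : GL (Fin 4) ℝ) (X Y : Mat) (f : Isp) (h : (g : Mat) * Y = X * (g : Mat)) :
    dop X (act g f) = act g (dop Y f) := by
  rw [act_dop, h, Matrix.mul_assoc, ← Units.val_mul, mul_inv_cancel, Units.val_one,
    Matrix.mul_one]

theorem qld_mat0 (s : ℝ) (hs : s ≠ 0) :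
    dgM s 1 * (s • Jm + (s - s⁻¹) • Eij 0 1) = Jm * dgM s 1 := by
  ext i j
  fin_cases i <;> fin_cases j <;>
    simp [dgM, Jm, Eij, Matrix.mul_apply, Fin.sum_univ_four, Matrix.single_apply]
  field_simp
  ring

theorem qld_mat1 (t : ℝ) (ht : t ≠ 0) :
    dgM 1 t * (t⁻¹ • Jm + (t⁻¹ - t) • Eij 0 1) = Jm * dgM 1 t := by
  ext i j
  fin_cases i <;> fin_cases j <;>
    simp [dgM, Jm, Eij, Matrix.mul_apply, Fin.sum_univ_four, Matrix.single_apply, ht]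
  ring

theorem qld_matu (r : ℝ) :
    upM r * (Jm + r • (Eij 1 1 - Eij 0 0) - (r * r) • Eij 0 1) = Jm * upM r := by
  ext i j
  fin_cases i <;> fin_cases j <;>
    simp [upM, Jm, Eij, Matrix.mul_apply, Fin.sum_univ_four, Matrix.single_apply]

/-- The functional `lD` under upper triangular matrices: by the same method, from
`lD (D00 f) = 3 lD f`, `lD (D11 f) = 0`, `lD (D01 f) = 0`
(`J D00 = D00 J + [J, E_00]`, `[E_10 - E_01, E_00] = E_10 + E_01 = Jm + 2 E_01`,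
`[J, E_11] = -(E_10 + E_01)`, `[J, E_01] = E_11 - E_00`), and for the sign matrices from
`J s_i = - s_i J`. -/
theorem lD_dg0 (s : ℝ) (hs : s ≠ 0) (f : Isp) :
    lD ν (act (dg s 1 hs one_ne_zero) f) = (s : ℂ) ^ 3 * lD ν f := by
  rw [lD_eq, lD_eq, qld_move _ Jm (s • Jm + (s - s⁻¹) • Eij 0 1) f (qld_mat0 s hs),
    (q_dg0 ν s hs 1 (Or.inl rfl) f).2.2, (q_dg0 ν s hs 2 (Or.inr rfl) _).2.1, dop_add, dop_smul,
    dop_smul, map_add, map_smul, map_smul]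
  have h : dd ν 2 (dop (Eij 0 1) f) = 0 := (q_D01 ν 2 f (Or.inr rfl)).2.1.trans (if_neg (by decide))
  rw [h]
  simp only [smul_eq_mul]
  ring

theorem lD_dg1 (t : ℝ) (ht : t ≠ 0) (f : Isp) :
    lD ν (act (dg 1 t one_ne_zero ht) f) = ((t / |t| : ℝ) : ℂ) * lD ν f := by
  rw [lD_eq, lD_eq, qld_move _ Jm (t⁻¹ • Jm + (t⁻¹ - t) • Eij 0 1) f (qld_mat1 t ht),
    (q_dg1 ν t ht 1 (Or.inl rfl) f).2.2, (q_dg1 ν t ht 2 (Or.inr rfl) _).2.1, dop_add, dop_smul,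
    dop_smul, map_add, map_smul, map_smul]
  have h : dd ν 2 (dop (Eij 0 1) f) = 0 := (q_D01 ν 2 f (Or.inr rfl)).2.1.trans (if_neg (by decide))
  have h2 : |t| * t⁻¹ = t / |t| := by
    have h3 : |t| ≠ 0 := abs_ne_zero.2 ht
    field_simp
    exact sq_abs t
  have h4 : ((|t| : ℝ) : ℂ) * ((t⁻¹ : ℝ) : ℂ) = ((t / |t| : ℝ) : ℂ) := by
    rw [← Complex.ofReal_mul, h2]
  rw [h]
  simp only [smul_eq_mul, mul_zero, add_zero, if_true, show ((2 : Fin 4) = 1) = False by decide,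
    if_false]
  rw [← mul_assoc, h4]
  ring

theorem lD_up (r : ℝ) (f : Isp) : lD ν (act (up r) f) = lD ν f := by
  obtain ⟨-, -, -, -, h5, -⟩ := q_up ν r f
  obtain ⟨-, -, -, h4, -, -⟩ := q_up ν r (dop (Jm + r • (Eij 1 1 - Eij 0 0) - (r * r) • Eij 0 1) f)
  rw [lD_eq, lD_eq, qld_move _ Jm (Jm + r • (Eij 1 1 - Eij 0 0) - (r * r) • Eij 0 1) f
    (qld_matu r), h5, h4, dop_sub, dop_add, dop_smul, dop_smul, dop_sub, map_sub, map_add, map_smul,
    map_smul, map_sub]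
  have h : dd ν 2 (dop (Eij 0 1) f) = 0 := (q_D01 ν 2 f (Or.inr rfl)).2.1.trans (if_neg (by decide))
  have h1 : dd ν 2 (dop (Eij 1 1) f) = dd ν 2 f :=
    (q_D11 ν 2 f (Or.inr rfl)).2.1.trans (by rw [if_neg (by decide), sub_zero])
  have h0 : dd ν 2 (dop (Eij 0 0) f) = 2 * dd ν 2 f := (q_D00 ν 2 f (Or.inr rfl)).2.1
  rw [h, h1, h0]
  simp only [smul_eq_mul]
  ring

end SoCo
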