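import Pool.Agent.H.MP_0f3f77_al.QDiag

/-!
The six functionals under group elements.

Sign matrices (`sl` level, `i = 1, 2`): `s1 = dg (-1) 1`: `s1⁻¹ (pt 0 p) = rmul (pt 0 p) diag(-1, 1)`,
so `sl (act s1 f) a b i p = -(-1)^([a=0]+[b=0]) sl f a b i p`: factor `-1, 1, -1` for
`(a,b) = 00, 01, 11`.  With `act_dop` (`s1⁻¹ E_20 s1 = -E_20`), `cc (s1 f) = -cc f`,
`dd (s1 f) = -L00(D20 s1 f) - iν L01(s1 f) = L00(s1 D20 f) - iν L01 f = dd f`,
`ee (s1 f) = -ee f`.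
`s2 = dg 1 (-1)`: `sl (act s2 f) a b i p = ± sl f a b i (-p.1, p.2)` with sign `-` for `i = 1`,
`+` for `i = 2`; `Lf_refl`; `s2` commutes with `E_20`.
Positive diagonal matrices: `φ s = cc ν i (act (γ s) f)` for `γ = opg_dg0` satisfies `φ' = φ`
(`opg_clm`; `act (γ s) (D00 f) = D00 (act (γ s) f)` by `act_dop`; `q_D00`), so
`φ s = e^s φ 0`; etc.  A general `s ≠ 0` is `± |s|`, and `|s| = exp (log |s|)`.
`up r`: `r ↦ dd ν 1 (act (up r) f)` has derivative `cc ν 2 (act (up r) f) = cc ν 2 f`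
(constant), etc.
`un u`: `t ↦ q (act (un (t u)) f)` has derivative `iν u_3` times itself.
-/

open scoped Topology ContDiff
open MeasureTheory

noncomputable section

namespace SoCo

theorem qp_rot_pi : rot Real.pi = dg (-1) 1 (by norm_num) one_ne_zero *
    dg 1 (-1) one_ne_zero (by norm_num) := by
  apply Units.ext
  change rotM Real.pi = dgM (-1) 1 * dgM 1 (-1)
  rw [dgM_mul]
  ext i j
  fin_cases i <;> fin_cases j <;> simp [rotM, dgM]

variable (ν : ℝ)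

/-- Parity: `rot π = dg (-1) (-1)`. -/
theorem q_parity (κ : ℤ) (f : Isp) (h : Wt κ f) :
    (Odd κ → qv ν 0 f = 0 ∧ qv ν 3 f = 0 ∧ qv ν 4 f = 0) ∧
    (Even κ → qv ν 1 f = 0 ∧ qv ν 2 f = 0 ∧ qv ν 5 f = 0) := by
  have i1 : (1 : Fin 4) = 1 ∨ (1 : Fin 4) = 2 := Or.inl rfl
  have i2 : (2 : Fin 4) = 1 ∨ (2 : Fin 4) = 2 := Or.inr rfl
  have n21 : ¬ ((2 : Fin 4) = 1) := by decide
  have hm : (-1 : ℝ) ≠ 0 := by norm_num
  have h0 := h Real.pi
  rw [qp_rot_pi, act_mul] at h0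
  obtain ⟨a1, a3, a5⟩ := q_dg0 ν (-1) hm 1 i1 (act (dg 1 (-1) one_ne_zero hm) f)
  obtain ⟨a2, a4, a6⟩ := q_dg0 ν (-1) hm 2 i2 (act (dg 1 (-1) one_ne_zero hm) f)
  obtain ⟨b1, b3, b5⟩ := q_dg1 ν (-1) hm 1 i1 f
  obtain ⟨b2, b4, b6⟩ := q_dg1 ν (-1) hm 2 i2 f
  rw [h0] at a1 a2 a3 a4 a5 a6
  rw [b1] at a1
  rw [b2] at a2
  rw [b3] at a3
  rw [b4] at a4
  rw [b5] at a5
  rw [b6] at a6
  rw [if_pos rfl] at a1 a3 a5
  rw [if_neg n21] at a2 a4 a6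
  have habs : |(-1 : ℝ)| = 1 := by norm_num
  rw [habs] at a1 a2 a3 a4 a5 a6
  simp only [map_smul, smul_eq_mul] at a1 a2 a3 a4 a5 a6
  push_cast at a1 a2 a3 a4 a5 a6
  have v0 : qv ν 0 f = cc ν 1 f := rfl
  have v1 : qv ν 1 f = cc ν 2 f := rfl
  have v2 : qv ν 2 f = dd ν 1 f := rfl
  have v3 : qv ν 3 f = dd ν 2 f := rfl
  have v4 : qv ν 4 f = ee ν 1 f := rfl
  have v5 : qv ν 5 f = ee ν 2 f := rfl
  rw [v0, v1, v2, v3, v4, v5]
  refine ⟨fun hk => ?_, fun hk => ?_⟩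
  · have he : Complex.exp ((κ : ℂ) * (Real.pi : ℂ) * Complex.I) = -1 := by
      obtain ⟨m, hm⟩ := hk
      rw [hm]
      push_cast
      rw [show (2 * (m : ℂ) + 1) * (Real.pi : ℂ) * Complex.I =
        (m : ℂ) * (2 * Real.pi * Complex.I) + Real.pi * Complex.I by ring, Complex.exp_add,
        Complex.exp_int_mul_two_pi_mul_I, Complex.exp_pi_mul_I, one_mul]
    rw [he] at a1 a4 a5
    refine ⟨?_, ?_, ?_⟩
    · linear_combination (-1 / 2 : ℂ) * a1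
    · linear_combination (-1 / 2 : ℂ) * a4
    · linear_combination (-1 / 2 : ℂ) * a5
  · have he : Complex.exp ((κ : ℂ) * (Real.pi : ℂ) * Complex.I) = 1 := by
      obtain ⟨m, hm⟩ := hk
      rw [hm]
      push_cast
      rw [show ((m : ℂ) + m) * (Real.pi : ℂ) * Complex.I =
        (m : ℂ) * (2 * Real.pi * Complex.I) by ring,
        Complex.exp_int_mul_two_pi_mul_I]
    rw [he] at a2 a3 a6
    refine ⟨?_, ?_, ?_⟩
    · linear_combination (1 / 2 : ℂ) * a2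
    · linear_combination (1 / 2 : ℂ) * a3
    · linear_combination (1 / 2 : ℂ) * a6

end SoCo
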