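import Pool.Agent.H.MP_0f3f77_al.Ops

/-!
Gram-Schmidt: every `x` in `Om` is moved to an orthonormal pair by a right multiplication,
with bounds.

Proof. Let `n0 = sqrt (∑ x_0i^2)`; it is positive because `gram x ≠ 0`.  Put
`s = (∑ x_0i x_1i)`, `h = sqrt (gram x) / n0` and
`A = !![1 / n0, -s / (n0^2 * h); 0, 1 / h]`, `B = !![n0, s / n0; 0, h]`.
Then `rmul x A` is orthonormal (direct computation with `n0^2 = ∑ x_0i^2` and
`h^2 n0^2 = gram x = n0^2 n1^2 - s^2`), `A * B = 1` and `B * A = 1`.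
Bounds: `n0, n1 ≤ 2 ‖x‖` (four coordinates, sup norm), `gram x ≤ n0^2 n1^2`,
`s^2 ≤ n0^2 n1^2` (since `gram x ≥ 0`), `1 / sqrt g ≤ 1 + 1 / g`.
`1 / n0 ≤ n1 / sqrt g ≤ 2 ‖x‖ (1 + 1/g) ≤ sz x`, `1 / h = n0 / sqrt g ≤ sz x`,
`|s| / (n0^2 h) = |s| / (n0 sqrt g) ≤ n1 / sqrt g ≤ sz x`; `n0 ≤ sz x`, `|s| / n0 ≤ n1 ≤ sz x`,
`h ≤ n1 ≤ sz x`.
-/

open scoped Topology ContDiff
open MeasureTheory

noncomputable section

namespace SoCo

theorem sz_ge_one (x : E) : 1 ≤ sz x := by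
  have h1 : 0 ≤ (gram x)⁻¹ := inv_nonneg.mpr (gram_nonneg x)
  have h2 : 0 ≤ ‖x‖ := norm_nonneg x
  unfold sz
  nlinarith [mul_nonneg h2 h1]

theorem qr_alg (x : E) (n r s q : ℝ) (hn : 0 < n) (hr : 0 < r)
    (h1 : ∑ i, x 0 i * x 0 i = n ^ 2) (h2 : ∑ i, x 1 i * x 1 i = q)
    (h3 : ∑ i, x 0 i * x 1 i = s) (h4 : r ^ 2 = n ^ 2 * q - s ^ 2) :
    rmul x !![1 / n, -s / (n * r); 0, n / r] ∈ Sc := by
  have hn' : n ≠ 0 := hn.ne'
  have hr' : r ≠ 0 := hr.ne'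
  have e0 : ∀ i, rmul x !![1 / n, -s / (n * r); 0, n / r] 0 i = 1 / n * x 0 i := by
    intro i
    rw [rmul_app]
    simp
  have e1 : ∀ i, rmul x !![1 / n, -s / (n * r); 0, n / r] 1 i =
      -s / (n * r) * x 0 i + n / r * x 1 i := by
    intro i
    rw [rmul_app]
    simp
  have a1 : ∑ i, (1 / n * x 0 i) * (1 / n * x 0 i) = (1 / n) ^ 2 * n ^ 2 := by
    rw [← h1, Finset.mul_sum]
    exact Finset.sum_congr rfl fun i _ => by ring
  have a2 : ∑ i, (-s / (n * r) * x 0 i + n / r * x 1 i) * (-s / (n * r) * x 0 i + n / r * x 1 i) =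
      (-s / (n * r)) ^ 2 * n ^ 2 + 2 * (-s / (n * r)) * (n / r) * s + (n / r) ^ 2 * q := by
    rw [← h1, ← h2]
    conv_rhs => rw [← h3]
    rw [Finset.mul_sum, Finset.mul_sum, Finset.mul_sum, ← Finset.sum_add_distrib,
      ← Finset.sum_add_distrib]
    rw [h3]
    exact Finset.sum_congr rfl fun i _ => by ring
  have a3 : ∑ i, (1 / n * x 0 i) * (-s / (n * r) * x 0 i + n / r * x 1 i) =
      (1 / n) * (-s / (n * r)) * n ^ 2 + (1 / n) * (n / r) * s := by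
    rw [← h1]
    have : (1 / n) * (n / r) * s = (1 / n) * (n / r) * ∑ i, x 0 i * x 1 i := by rw [h3]
    rw [this, Finset.mul_sum, Finset.mul_sum, ← Finset.sum_add_distrib]
    exact Finset.sum_congr rfl fun i _ => by ring
  refine ⟨?_, ?_, ?_⟩
  · simp only [e0]
    rw [a1]
    field_simp
  · simp only [e1]
    rw [a2]
    field_simp
    linarith
  · simp only [e0, e1]
    rw [a3]
    field_simp
    ring

theorem qr_norm (x : E) (a : Fin 2) : ∑ i, x a i * x a i ≤ 4 * ‖x‖ ^ 2 := by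
  have h : ∀ i, x a i * x a i ≤ ‖x‖ ^ 2 := by
    intro i
    have h1 : |x a i| ≤ ‖x‖ := by
      have h2 : ‖x a i‖ ≤ ‖x a‖ := norm_le_pi_norm (x a) i
      have h3 : ‖x a‖ ≤ ‖x‖ := norm_le_pi_norm x a
      rw [Real.norm_eq_abs] at h2
      exact h2.trans h3
    have h4 : |x a i| ^ 2 ≤ ‖x‖ ^ 2 := pow_le_pow_left₀ (abs_nonneg _) h1 2
    rw [sq_abs] at h4
    nlinarith
  calc ∑ i, x a i * x a i ≤ ∑ _i : Fin 4, ‖x‖ ^ 2 := Finset.sum_le_sum fun i _ => h i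
    _ = 4 * ‖x‖ ^ 2 := by simp

theorem exists_qr (x : E) (hx : x ∈ Om) : ∃ A B : Mat2, A * B = 1 ∧ B * A = 1 ∧
    rmul x A ∈ Sc ∧ (∀ c a, |A c a| ≤ sz x) ∧ (∀ c a, |B c a| ≤ sz x) := by
  have hg : 0 < gram x := gram_pos x hx
  obtain ⟨p, hp⟩ : ∃ p, p = ∑ i, x 0 i * x 0 i := ⟨_, rfl⟩
  obtain ⟨q, hq⟩ : ∃ q, q = ∑ i, x 1 i * x 1 i := ⟨_, rfl⟩
  obtain ⟨s, hs⟩ : ∃ s, s = ∑ i, x 0 i * x 1 i := ⟨_, rfl⟩
  have hgr : gram x = p * q - s ^ 2 := by rw [gram, hp, hq, hs]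
  have hp0 : 0 ≤ p := by
    rw [hp]; exact Finset.sum_nonneg fun i _ => mul_self_nonneg _
  have hq0 : 0 ≤ q := by
    rw [hq]; exact Finset.sum_nonneg fun i _ => mul_self_nonneg _
  have hpq : 0 < p * q := by nlinarith [sq_nonneg s]
  have hp1 : 0 < p := by
    rcases hp0.lt_or_eq with h | h
    · exact h
    · rw [← h, zero_mul] at hpq; exact absurd hpq (lt_irrefl _)
  obtain ⟨n, hn⟩ : ∃ n, n = Real.sqrt p := ⟨_, rfl⟩
  obtain ⟨m, hm⟩ : ∃ m, m = Real.sqrt q := ⟨_, rfl⟩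
  obtain ⟨r, hr⟩ : ∃ r, r = Real.sqrt (gram x) := ⟨_, rfl⟩
  obtain ⟨N, hN⟩ : ∃ N, N = ‖x‖ := ⟨_, rfl⟩
  have hn0 : 0 < n := by rw [hn]; exact Real.sqrt_pos.mpr hp1
  have hm0 : 0 ≤ m := by rw [hm]; exact Real.sqrt_nonneg _
  have hr0 : 0 < r := by rw [hr]; exact Real.sqrt_pos.mpr hg
  have hn2 : n ^ 2 = p := by rw [hn]; exact Real.sq_sqrt hp0
  have hm2 : m ^ 2 = q := by rw [hm]; exact Real.sq_sqrt hq0
  have hr2 : r ^ 2 = gram x := by rw [hr]; exact Real.sq_sqrt hg.le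
  have hN0 : 0 ≤ N := by rw [hN]; exact norm_nonneg x
  have hnN : n ≤ 2 * N := by
    have h := qr_norm x 0
    rw [← hp, ← hN, ← hn2] at h
    exact abs_le_of_sq_le_sq' (by nlinarith) (by linarith) |>.2
  have hmN : m ≤ 2 * N := by
    have h := qr_norm x 1
    rw [← hq, ← hN, ← hm2] at h
    exact abs_le_of_sq_le_sq' (by nlinarith) (by linarith) |>.2
  have hr3 : r ^ 2 = n ^ 2 * q - s ^ 2 := by rw [hr2, hgr, hn2]
  have hrnm : r ≤ n * m := by
    refine (abs_le_of_sq_le_sq' ?_ (by positivity)).2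
    rw [hr3, mul_pow, hm2]
    nlinarith [sq_nonneg s]
  have hsnm : |s| ≤ n * m := by
    refine (abs_le_of_sq_le_sq' ?_ (by positivity)).2
    rw [sq_abs, mul_pow, hm2]
    nlinarith [sq_nonneg r]
  have hu : 1 / r ≤ 1 + (gram x)⁻¹ := by
    rw [← hr2]
    have h1 : (r ^ 2)⁻¹ = (1 / r) ^ 2 := by field_simp
    rw [h1]
    nlinarith [sq_nonneg (1 / r - 1)]
  have hu0 : 0 ≤ 1 / r := by positivity
  have hgi : 0 ≤ (gram x)⁻¹ := inv_nonneg.mpr hg.le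
  have hK1 : ∀ t, t ≤ 2 * N * (1 / r) → t ≤ sz x := by
    intro t ht
    have h1 : 2 * N * (1 / r) ≤ 2 * N * (1 + (gram x)⁻¹) :=
      mul_le_mul_of_nonneg_left hu (by positivity)
    unfold sz
    rw [← hN]
    nlinarith [mul_nonneg hN0 hgi]
  have hK2 : ∀ t, t ≤ 2 * N → t ≤ sz x := by
    intro t ht
    unfold sz
    rw [← hN]
    nlinarith [mul_nonneg hN0 hgi]
  have hK0 : 0 ≤ sz x := (zero_le_one).trans (sz_ge_one x)
  have b1 : m / r ≤ sz x := by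
    apply hK1
    rw [div_eq_mul_one_div]
    exact mul_le_mul_of_nonneg_right hmN hu0
  have b2 : |1 / n| ≤ sz x := by
    rw [abs_of_pos (by positivity)]
    refine le_trans ?_ b1
    rw [div_le_div_iff₀ hn0 hr0]
    linarith
  have b3 : |-s / (n * r)| ≤ sz x := by
    rw [abs_div, abs_neg, abs_of_pos (mul_pos hn0 hr0)]
    refine le_trans ?_ b1
    rw [div_le_div_iff₀ (mul_pos hn0 hr0) hr0]
    have := mul_le_mul_of_nonneg_right hsnm hr0.le
    linarith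
  have b4 : |n / r| ≤ sz x := by
    rw [abs_of_pos (by positivity)]
    apply hK1
    rw [div_eq_mul_one_div]
    exact mul_le_mul_of_nonneg_right hnN hu0
  have c1 : |n| ≤ sz x := by
    rw [abs_of_pos hn0]
    exact hK2 _ hnN
  have c2 : |s / n| ≤ sz x := by
    rw [abs_div, abs_of_pos hn0]
    apply hK2
    refine le_trans ?_ hmN
    rw [div_le_iff₀ hn0]
    linarith
  have c3 : |r / n| ≤ sz x := by
    rw [abs_of_pos (by positivity)]
    apply hK2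
    refine le_trans ?_ hmN
    rw [div_le_iff₀ hn0]
    linarith
  have hn' : n ≠ 0 := hn0.ne'
  have hr' : r ≠ 0 := hr0.ne'
  refine ⟨!![1 / n, -s / (n * r); 0, n / r], !![n, s / n; 0, r / n], ?_, ?_, ?_, ?_, ?_⟩
  · rw [Matrix.mul_fin_two, Matrix.one_fin_two]
    congr 1
    ext i j
    fin_cases i <;> fin_cases j <;> simp <;> (try field_simp) <;> (try ring)
  · rw [Matrix.mul_fin_two, Matrix.one_fin_two]
    congr 1
    ext i j
    fin_cases i <;> fin_cases j <;> simp <;> (try field_simp) <;> (try ring)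
  · exact qr_alg x n r s q hn0 hr0 (by rw [hn2, hp]) hq.symm hs.symm hr3
  · intro c a
    fin_cases c <;> fin_cases a
    · simpa using b2
    · simpa using b3
    · simpa using hK0
    · simpa using b4
  · intro c a
    fin_cases c <;> fin_cases a
    · simpa using c1
    · simpa using c2
    · simpa using hK0
    · simpa using c3

end SoCo
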