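import Pool.Agent.H.MP_0f3f77_al.LaRules

/-!
The six functionals and their behaviour under the Lie algebra.

Write `D jk = D j k`, `L^{ab}_i = La ν a b i`, `[E_jk, E_lm]` from `Matrix` products;
`dop_bracket` gives `D X (D Y f) = D Y (D X f) + D [X,Y] f`.
`c_i = L^{00}_i`, `d_i = -L^{00}_i ∘ D20 - iν L^{01}_i`,
`e_i = 1/2 L^{00}_i ∘ D20^2 + iν L^{01}_i ∘ D20 - ν^2/2 L^{11}_i`.
(`L^{10} = L^{01}` by the symmetry of `f`.)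

Commutators with `D20`:
`D20 D03 = D03 D20 + D23`, `D20 D23 = D23 D20`, `D20 D13 = D13 D20`, `D20 D21 = D21 D20`,
`D20 D01 = D01 D20 + D21`, `D20 D02 = D02 D20 + D22 - D00`, `D20 D12 = D12 D20 - D10`,
`D20 D10 = D10 D20`, `D20 D00 = D00 D20 + D20`, `D20 D11 = D11 D20`,
`D20 (D22 - D00) = (D22 - D00) D20 - 2 D20`.

Computations (`g = D20 f`; `M_y = My`, `M_z = Mz`; `δ_{i1}` etc.):
* `D23`, `D13`: immediate.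
* `D03`: `c_i(D03 f) = 0`; `d_i = -L00(D03 g + D23 f) - iν L01(D03 f) = -iν L00 f + iν L00 f = 0`;
  `D20^2 D03 = D03 D20^2 + 2 D23 D20`: `e_i = iν L00 g + iν(-L00 g + iν L01 f) + ν^2 L01 f = 0`.
* `D00`: `c_i`; `d_i(D00 f) = -L00(D00 g + g) - 2 iν L01 f = -2 L00 g - 2 iν L01 f = 2 d_i`;
  `D20^2 D00 = D00 D20^2 + 2 D20^2`: `e_i = 3/2 L00(D20 g) + iν (2 + 1) L01 g - 3 ν^2/2 L11 f`.
* `D11`: commutes with `D20`, `L(D11 f) = L f - δ_{i1} L f`.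
* `D01`: `c_i = 0`; `d_i(D01 f) = -L00(D01 g + D21 f) + iν M_y00 f
   = -(iν M_y00 f - δ_{i1} L00_2 f) + iν M_y00 f = δ_{i1} c_2 f`;
  `D20^2 D01 = D01 D20^2 + 2 D21 D20`:
  `e_i = (iν M_y00 g - δ_{i1} L00_2 g) + iν(-M_y00 g + iν M_y01 f - δ_{i1} L01_2 f) + ν^2 M_y01 f
   = δ_{i1} (-L00_2 g - iν L01_2 f) = δ_{i1} d_2 f`.
* `D02`: `c_i = 0`;
  `d_i(D02 f) = -L00(D02 g + D22 f - D00 f) + iν M_z00 f
   = -(iν M_z00 f + L00 f - δ_{i2} L00 f) + L00 f + iν M_z00 f = δ_{i2} c_2 f`;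
  `D20^2 D02 = D02 D20^2 + 2 (D22 - D00) D20 - 2 D20`:
  `e_i = [iν M_z00 g + L00 g - δ_{i2} L00 g - L00 g] - L00 g
    + iν [-M_z00 g + iν M_z01 f + L01 f - δ_{i2} L01 f - 2 L01 f] + ν^2 M_z01 f
   = d_i f + δ_{i2} d_2 f`.
* `D12`: with `D10 = dop Jm + D01`: `c_i(D12 f) = -δ_{i2} c_1 f`;
  `d_i(D12 f) = -L00(D12 g - D10 f) - iν L01(D12 f) = δ_{i2} L00_1 g + iν δ_{i2} L01_1 f + c_i(D10 f)
   = -δ_{i2} d_1 f + c_i(J f)` (as `c_i(D01 f) = 0`);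
  `D20^2 D12 = D12 D20^2 - 2 D10 D20`, `D10 D20 = D20 D10`:
  `e_i(D12 f) = -1/2 δ_{i2} L00_1(D20 g) - L00(D20 D10 f) + iν(-δ_{i2} L01_1 g - L01(D10 f))
    + ν^2/2 δ_{i2} L11_1 f = -δ_{i2} e_1 f + d_i(D10 f) = -δ_{i2} e_1 f + d_i(J f) + δ_{i1} c_2 f`.
-/

open scoped Topology ContDiff
open MeasureTheory

noncomputable section

namespace SoCo

/-- Degree 0. -/
def cc (ν : ℝ) (i : Fin 4) : Isp →L[ℂ] ℂ := La ν 0 0 i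

/-- Degree 1. -/
def dd (ν : ℝ) (i : Fin 4) : Isp →L[ℂ] ℂ :=
  -((La ν 0 0 i).comp (dopL (Eij 2 0))) - (Complex.I * ν) • La ν 0 1 i

/-- Degree 2. -/
def ee (ν : ℝ) (i : Fin 4) : Isp →L[ℂ] ℂ :=
  (1 / 2 : ℂ) • ((La ν 0 0 i).comp ((dopL (Eij 2 0)).comp (dopL (Eij 2 0)))) +
    (Complex.I * ν) • ((La ν 0 1 i).comp (dopL (Eij 2 0))) - ((ν : ℂ) ^ 2 / 2) • La ν 1 1 i

theorem cc_eq (ν : ℝ) (i : Fin 4) (f : Isp) : cc ν i f = La ν 0 0 i f := rfl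

theorem dd_eq (ν : ℝ) (i : Fin 4) (f : Isp) :
    dd ν i f = -La ν 0 0 i (D 2 0 f) - (Complex.I * ν) * La ν 0 1 i f := rfl

theorem ee_eq (ν : ℝ) (i : Fin 4) (f : Isp) :
    ee ν i f = (1 / 2 : ℂ) * La ν 0 0 i (D 2 0 (D 2 0 f)) +
      (Complex.I * ν) * La ν 0 1 i (D 2 0 f) - ((ν : ℂ) ^ 2 / 2) * La ν 1 1 i f := rfl

end SoCo
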