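import Pool.Agent.H.MP_0f3f77_al.QA
import Pool.Agent.H.MP_0f3f77_al.QB
import Pool.Agent.H.MP_0f3f77_al.PkMem
import Pool.Agent.H.MP_0f3f77_al.PkWt

/-!
The six functionals under group elements.

Sign matrices (`sl` level, `i = 1, 2`): `s1 = dg (-1) 1`: `s1⁻¹ (pt 0 p) = rmul (pt 0 p) diag(-1, 1)`,
so `sl (act s1 f) a b i p = -(-1)^([a=0]+[b=0]) sl f a b i p`: factor `-1, 1, -1` for
`(a,b) = 00, 01, 11`.  With `act_dop` (`s1⁻¹ E_20 s1 = -E_20`), `cc (s1 f) = -cc f`,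
`dd (s1 f) = -L00(D20 s1 f) - iν L01(s1 f) = L00(s1 D20 f) - iν L01 f = dd f`,
`ee (s1 f) = -ee f`.
`s2 = dg 1 (-1)`: `sl (act s2 f) a b i p = ± sl f a b i (-p.1, p.2)` with sign `-` for `i = 1`,
`+` for `i = 2`; `Lf_refl`; `s2` commutes with `E_20`.
Positive diagonal matrices: `φ s = cc ν i (act (γ s) f)` for `γ = opg_dg0` satisfies `φ' = φ`
(`opg_clm`; `act (γ s) (D00 f) = D00 (act (γ s) f)` by `act_dop`; `q_D00`), so
`φ s = e^s φ 0`; etc.  A general `s ≠ 0` is `± |s|`, and `|s| = exp (log |s|)`.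
`up r`: `r ↦ dd ν 1 (act (up r) f)` has derivative `cc ν 2 (act (up r) f) = cc ν 2 f`
(constant), etc.
`un u`: `t ↦ q (act (un (t u)) f)` has derivative `iν u_3` times itself.
-/

open scoped Topology ContDiff
open MeasureTheory

noncomputable section

namespace SoCo

variable (ν : ℝ)

/-- The six functionals. -/
def qv (ν : ℝ) : Fin 6 → (Isp →L[ℂ] ℂ) :=
  ![cc ν 1, cc ν 2, dd ν 1, dd ν 2, ee ν 1, ee ν 2]

/-- The functional `e_0 + d_1 ∘ J`. -/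
def lD (ν : ℝ) : Isp →L[ℂ] ℂ := ee ν 1 + (dd ν 2).comp (dopL Jm)

theorem lD_eq (f : Isp) : lD ν f = ee ν 1 f + dd ν 2 (dop Jm f) := rfl

end SoCo
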