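import Pool.Agent.H.MP_0f3f77_al.Curl
import Pool.Agent.H.MP_0f3f77_al.Classify

/-!
`Gt ν b (D8 f) = 0` for `f ∈ N = Sp ν 0`, and its consequences.

`star_all`, proof.  Let `G = Gt ν b (D8 f)`.  For every `θ`, `act (rot θ) G = Gt ν b' (D8 f')` with
`f' = act (rot θ) f` (`Gt_rot`, `D8_rot`), and the six functionals vanish at `f'`; so by
`star_slice` `act (rot θ) G (pt l w) a c i = 0` for `i = 1, 2`, hence for `i = 0` and `i = 3` by
the annihilation property at `pt l w` (`x_0 = (1,0,l,0)`: `v_0 = -l v_2`;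
`x_1 = (0, y, z, 1)`: `v_3 = -y v_1 - z v_2`).  So `G` vanishes at `lmul (rotM (-θ)) (pt l w)` and,
by covariance, at `rmul (lmul (rotM (-θ)) (pt l w)) A` for every invertible `A`.
Every `x ∈ Om` with `m(x) := x 1 3 * x 0 0 - x 0 3 * x 1 0 ≠ 0` is of this form: if
`λ = x_1(3) x_0 - x_0(3) x_1` (fourth coordinate `0`, first coordinate `m(x) ≠ 0`) and `μ` is
a combination of `x_0, x_1` with fourth coordinate `1`, choose `θ` and `ρ > 0` with
`rot θ (λ_0, λ_1) = (ρ, 0)`, replace `λ` by `λ/ρ` and subtract a multiple of `λ` from `μ`.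
(The condition with `λ_1` in place of `λ_0` is not needed.)
The set `{x ∈ Om | m(x) ≠ 0}` is dense in `Om`: for `x ∈ Om` with `m(x) = 0` consider
`x + t (e_0, e_3)`; `m` of it is `t^2 + t (x_0(0) + x_1(3)) + 0`, nonzero for small `t ≠ 0`.
`G` is continuous on `Om`, so `G = 0` on `Om`, and `G = 0` outside.

`N_eq` (the space `N ∩ W` is the span of all `α v - ψ(α) v`), proof: `f ∈ Sp 0 ⊓ W`, `b` from
`exists_bump`.  `F = D8 f ∈ W`.  `Gt ν b F = 0` by `star_all`, so `gt_cong` for `F` gives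
`F ∈ (V - ψ) W := D03 W + D13 W + (D23 - iν) W`; and
`D8 f - (iν)^8 f = (D23 - iν) (∑_{j<8} (iν)^(7-j) D23^j f)`, so `(iν)^8 f ∈ (V - ψ) W`.
`W` is invariant under `D23` (`opg_mem`).

`Rop`: `Gt ν b ∘ D8`; `q (Rop f) = (2π)^3 (iν)^8 q f` by `gt_cong` with `W = ⊤`, `q_D23`, `q_D13`,
`q_D03` and `q_D8`.
-/

open scoped Topology ContDiff
open MeasureTheory

noncomputable section

namespace SoCo

/-- Irreducibility, first part: a nonzero closed invariant subspace contains the image of `R`.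
Proof: `cc_ne` gives `f ∈ σ` with `cc ν 1 f ≠ 0`.  Let `S` be the closure of `σ ⊔ Sp ν 0`; it is
closed, contains `Sp ν 0` and is `M_3`-invariant (`Sp_inv`; closure of an invariant
subspace, `Submodule.topologicalClosure`).  By `classify` with `W = ⊤`, `S = ⊤ ⊓ Sp ν i`; as
`cc ν 1` does not vanish on `S`, and `Sp ν i ≤ KK (qv ν 0)` for `i ≠ 8`, `i = 8` and `S = ⊤`.
`R` maps `σ ⊔ Sp ν 0` into the closed subspace `σ`, so by continuity `R` maps `⊤` into `σ`. -/
theorem R_mem (ν : ℝ) (hν : ν ≠ 0) (R : Isp →L[ℂ] Isp) (hR : ∀ f ∈ Sp ν 0, R f = 0)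
    (hR2 : ∀ σ : Submodule ℂ Isp, IsClosed (σ : Set Isp) → Ginv σ → ∀ f ∈ σ, R f ∈ σ)
    (σ : Submodule ℂ Isp) (hc : IsClosed (σ : Set Isp)) (hg : Ginv σ) (h : σ ≠ ⊥) (f : Isp) :
    R f ∈ σ := by
  obtain ⟨f0, hf0, hne⟩ := cc_ne ν hν σ hc hg h
  have hSc : IsClosed (((σ ⊔ Sp ν 0).topologicalClosure : Submodule ℂ Isp) : Set Isp) :=
    Submodule.isClosed_topologicalClosure _
  have hle : σ ⊔ Sp ν 0 ≤ (σ ⊔ Sp ν 0).topologicalClosure :=
    Submodule.le_topologicalClosure _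
  have hinv0 : M3inv (σ ⊔ Sp ν 0) := by
    intro g hgm x hx
    obtain ⟨y, hy, z, hz, rfl⟩ := Submodule.mem_sup.mp hx
    rw [map_add]
    exact Submodule.add_mem_sup (hg g y hy) (Sp_inv ν 0 g hgm z hz)
  have hinv : M3inv (σ ⊔ Sp ν 0).topologicalClosure := by
    intro g hgm x hx
    have hx' : x ∈ closure ((σ ⊔ Sp ν 0 : Submodule ℂ Isp) : Set Isp) := hx
    have h1 : actL g x ∈ closure (actL g '' ((σ ⊔ Sp ν 0 : Submodule ℂ Isp) : Set Isp)) :=
      image_closure_subset_closure_image (actL g).continuous ⟨x, hx', rfl⟩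
    have h2 : closure (actL g '' ((σ ⊔ Sp ν 0 : Submodule ℂ Isp) : Set Isp)) ⊆
        closure ((σ ⊔ Sp ν 0 : Submodule ℂ Isp) : Set Isp) := by
      apply closure_mono
      rintro _ ⟨y, hy, rfl⟩
      exact hinv0 g hgm y hy
    exact h2 h1
  obtain ⟨i, hi⟩ := classify ν ⊤ (σ ⊔ Sp ν 0).topologicalClosure isClosed_univ
    (fun _ _ _ => Submodule.mem_top) hSc hinv
    ((inf_le_left.trans le_sup_right).trans hle) le_top
  rw [top_inf_eq] at hi
  have hf0S : f0 ∈ Sp ν i := by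
    rw [← hi]
    exact hle (Submodule.mem_sup_left hf0)
  have hKK : ¬ f0 ∈ KK (qv ν 0) := by
    intro hk
    have h1 := (mem_KK _ _).mp hk 0
    rw [rot_zero, act_one] at h1
    exact hne h1
  have htop : Sp ν i = ⊤ := by
    fin_cases i
    · exact absurd (by simp only [Sp, Submodule.mem_inf] at hf0S; tauto) hKK
    · exact absurd (by simp only [Sp, Submodule.mem_inf] at hf0S; tauto) hKK
    · exact absurd (by simp only [Sp, Submodule.mem_inf] at hf0S; tauto) hKK
    · exact absurd (by simp only [Sp, Submodule.mem_inf] at hf0S; tauto) hKK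
    · exact absurd (by simp only [Sp, Submodule.mem_inf] at hf0S; tauto) hKK
    · exact absurd (by simp only [Sp, Submodule.mem_inf] at hf0S; tauto) hKK
    · exact absurd (by simp only [Sp, Submodule.mem_inf] at hf0S; tauto) hKK
    · exact absurd (by simpa only [Sp] using hf0S) hKK
    · rfl
  have hfS : f ∈ closure ((σ ⊔ Sp ν 0 : Submodule ℂ Isp) : Set Isp) := by
    have h1 : f ∈ (σ ⊔ Sp ν 0).topologicalClosure := by
      rw [hi, htop]; exact Submodule.mem_top
    exact h1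
  have h1 : R f ∈ closure (R '' ((σ ⊔ Sp ν 0 : Submodule ℂ Isp) : Set Isp)) :=
    image_closure_subset_closure_image R.continuous ⟨f, hfS, rfl⟩
  have h2 : closure (R '' ((σ ⊔ Sp ν 0 : Submodule ℂ Isp) : Set Isp)) ⊆ (σ : Set Isp) := by
    apply closure_minimal _ hc
    rintro _ ⟨x, hx, rfl⟩
    obtain ⟨y, hy, z, hz, rfl⟩ := Submodule.mem_sup.mp hx
    rw [map_add, hR z hz, add_zero]
    exact hR2 σ hc hg y hy
  exact h2 h1

end SoCo
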