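import Pool.Agent.H.MP_0f3f77_al.InvVn

/-!
The nine subspaces are invariant under `M_3`; see the explanation in `Subs`.
-/

open scoped Topology ContDiff
open MeasureTheory

noncomputable section

namespace SoCo

theorem vstep_rot_inv (θ : ℝ) : (((rot θ)⁻¹ : GL (Fin 4) ℝ) : Mat) = rotM (-θ) := rfl

theorem vstep_E02 : Eij 0 2 = !![0, 0, 1, 0; 0, 0, 0, 0; 0, 0, 0, 0; 0, 0, 0, 0] := by
  ext i j
  fin_cases i <;> fin_cases j <;> rfl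

theorem vstep_E12 : Eij 1 2 = !![0, 0, 0, 0; 0, 0, 1, 0; 0, 0, 0, 0; 0, 0, 0, 0] := by
  ext i j
  fin_cases i <;> fin_cases j <;> rfl

theorem vstep_Jm : Jm = !![0, -1, 0, 0; 1, 0, 0, 0; 0, 0, 0, 0; 0, 0, 0, 0] := by
  ext i j
  fin_cases i <;> fin_cases j <;> simp [Jm, Eij]

theorem vstep_conj02 (θ : ℝ) : ((rot θ : GL (Fin 4) ℝ) : Mat) * Eij 0 2 *
    (((rot θ)⁻¹ : GL (Fin 4) ℝ) : Mat) = Real.cos θ • Eij 0 2 + Real.sin θ • Eij 1 2 := by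
  rw [vstep_rot_inv]
  change rotM θ * Eij 0 2 * rotM (-θ) = _
  rw [vstep_E02, vstep_E12]
  ext i j
  fin_cases i <;> fin_cases j <;>
    simp [rotM, Matrix.mul_apply, Fin.sum_univ_four]

theorem vstep_conj12 (θ : ℝ) : ((rot θ : GL (Fin 4) ℝ) : Mat) * Eij 1 2 *
    (((rot θ)⁻¹ : GL (Fin 4) ℝ) : Mat) = (-Real.sin θ) • Eij 0 2 + Real.cos θ • Eij 1 2 := by
  rw [vstep_rot_inv]
  change rotM θ * Eij 1 2 * rotM (-θ) = _
  rw [vstep_E02, vstep_E12]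
  ext i j
  fin_cases i <;> fin_cases j <;>
    simp [rotM, Matrix.mul_apply, Fin.sum_univ_four]

theorem vstep_act02 (θ : ℝ) (f : Isp) : act (rot θ) (D 0 2 f) =
    (Real.cos θ : ℂ) • D 0 2 (act (rot θ) f) + (Real.sin θ : ℂ) • D 1 2 (act (rot θ) f) := by
  unfold D
  rw [act_dop, vstep_conj02, dop_add, dop_smul, dop_smul]

theorem vstep_act12 (θ : ℝ) (f : Isp) : act (rot θ) (D 1 2 f) =
    ((-Real.sin θ : ℝ) : ℂ) • D 0 2 (act (rot θ) f) + (Real.cos θ : ℂ) • D 1 2 (act (rot θ) f) := by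
  unfold D
  rw [act_dop, vstep_conj12, dop_add, dop_smul, dop_smul]

theorem vstep_KK (T : Isp →L[ℂ] ℂ) (f : Isp) (h0 : ∀ θ, T (D 0 2 (act (rot θ) f)) = 0)
    (h1 : ∀ θ, T (D 1 2 (act (rot θ) f)) = 0) : D 0 2 f ∈ KK T ∧ D 1 2 f ∈ KK T := by
  refine ⟨fun θ => ?_, fun θ => ?_⟩
  · rw [vstep_act02, map_add, map_smul, map_smul, h0, h1]
    simp
  · rw [vstep_act12, map_add, map_smul, map_smul, h0, h1]
    simp

theorem vstep_actJ (θ : ℝ) (f : Isp) : act (rot θ) (dop Jm f) = dop Jm (act (rot θ) f) := by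
  rw [act_dop, vstep_rot_inv]
  congr 2
  change rotM θ * Jm * rotM (-θ) = _
  have hs := Real.sin_sq_add_cos_sq θ
  rw [vstep_Jm]
  ext i j
  fin_cases i <;> fin_cases j <;>
    simp [rotM, Matrix.mul_apply, Fin.sum_univ_four] <;> linarith

theorem vstep_J (T : Isp →L[ℂ] ℂ) (f : Isp) (h : f ∈ KK T) (θ : ℝ) :
    T (dop Jm (act (rot θ) f)) = 0 := by
  rw [← vstep_actJ]
  exact KK_J T f h θ

/-- The Lie algebra of `V_3` moves down the chain `Sp 8 → Sp 7 → Sp 4 → Sp 1 → Sp 0`.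
Proof: `act (rot θ) (D02 f) = (cos θ D02 + sin θ D12) (act (rot θ) f)`,
`act (rot θ) (D12 f) = (-sin θ D02 + cos θ D12) (act (rot θ) f)` (`act_dop`), then `q_D02`,
`q_D12` and `KK_J`. -/
theorem v_step (ν : ℝ) (k : Fin 4) (f : Isp)
    (h : f ∈ Sp ν ((![8, 7, 4, 1] : Fin 4 → Fin 9) k)) :
    D 0 2 f ∈ Sp ν ((![7, 4, 1, 0] : Fin 4 → Fin 9) k) ∧
    D 1 2 f ∈ Sp ν ((![7, 4, 1, 0] : Fin 4 → Fin 9) k) := by
  have q0 : D 0 2 f ∈ KK (qv ν 0) ∧ D 1 2 f ∈ KK (qv ν 0) := by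
    refine vstep_KK _ f (fun θ => ?_) (fun θ => ?_)
    · exact (q_D02 ν 1 _ (Or.inl rfl)).1
    · have h1 := (q_D12 ν 1 (act (rot θ) f) (Or.inl rfl)).1
      rw [if_neg (by decide), neg_zero] at h1
      exact h1
  have q1 : f ∈ KK (qv ν 0) → D 0 2 f ∈ KK (qv ν 1) ∧ D 1 2 f ∈ KK (qv ν 1) := by
    intro h0
    refine vstep_KK _ f (fun θ => ?_) (fun θ => ?_)
    · exact (q_D02 ν 2 _ (Or.inr rfl)).1
    · have h1 := (q_D12 ν 2 (act (rot θ) f) (Or.inr rfl)).1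
      have h2 : cc ν 1 (act (rot θ) f) = 0 := h0 θ
      rw [if_pos rfl, h2, neg_zero] at h1
      exact h1
  have q2 : f ∈ KK (qv ν 0) → D 0 2 f ∈ KK (qv ν 2) ∧ D 1 2 f ∈ KK (qv ν 2) := by
    intro h0
    refine vstep_KK _ f (fun θ => ?_) (fun θ => ?_)
    · have h1 := (q_D02 ν 1 (act (rot θ) f) (Or.inl rfl)).2.1
      rw [if_neg (by decide)] at h1
      exact h1
    · have h1 := (q_D12 ν 1 (act (rot θ) f) (Or.inl rfl)).2.1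
      rw [if_neg (by decide), sub_zero] at h1
      have h2 : cc ν 1 (dop Jm (act (rot θ) f)) = 0 := vstep_J _ f h0 θ
      rw [h2] at h1
      exact h1
  have q3 : f ∈ KK (qv ν 1) → f ∈ KK (qv ν 2) →
      D 0 2 f ∈ KK (qv ν 3) ∧ D 1 2 f ∈ KK (qv ν 3) := by
    intro h1' h2'
    refine vstep_KK _ f (fun θ => ?_) (fun θ => ?_)
    · have h1 := (q_D02 ν 2 (act (rot θ) f) (Or.inr rfl)).2.1
      have h2 : cc ν 2 (act (rot θ) f) = 0 := h1' θ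
      rw [if_pos rfl, h2] at h1
      exact h1
    · have h1 := (q_D12 ν 2 (act (rot θ) f) (Or.inr rfl)).2.1
      have h2 : cc ν 2 (dop Jm (act (rot θ) f)) = 0 := vstep_J _ f h1' θ
      have h3 : dd ν 1 (act (rot θ) f) = 0 := h2' θ
      rw [if_pos rfl, h2, h3, sub_zero] at h1
      exact h1
  have q4 : f ∈ KK (qv ν 1) → f ∈ KK (qv ν 2) →
      D 0 2 f ∈ KK (qv ν 4) ∧ D 1 2 f ∈ KK (qv ν 4) := by
    intro h1' h2'
    refine vstep_KK _ f (fun θ => ?_) (fun θ => ?_)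
    · have h1 := (q_D02 ν 1 (act (rot θ) f) (Or.inl rfl)).2.2
      have h2 : dd ν 1 (act (rot θ) f) = 0 := h2' θ
      rw [if_neg (by decide), h2, add_zero] at h1
      exact h1
    · have h1 := (q_D12 ν 1 (act (rot θ) f) (Or.inl rfl)).2.2
      have h2 : dd ν 1 (dop Jm (act (rot θ) f)) = 0 := vstep_J _ f h2' θ
      have h3 : cc ν 2 (act (rot θ) f) = 0 := h1' θ
      rw [if_pos rfl, if_neg (by decide), h2, h3, sub_zero, add_zero] at h1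
      exact h1
  have q5 : f ∈ KK (qv ν 3) → f ∈ KK (qv ν 4) →
      D 0 2 f ∈ KK (qv ν 5) ∧ D 1 2 f ∈ KK (qv ν 5) := by
    intro h3' h4'
    refine vstep_KK _ f (fun θ => ?_) (fun θ => ?_)
    · have h1 := (q_D02 ν 2 (act (rot θ) f) (Or.inr rfl)).2.2
      have h2 : dd ν 2 (act (rot θ) f) = 0 := h3' θ
      rw [if_pos rfl, h2, add_zero] at h1
      exact h1
    · have h1 := (q_D12 ν 2 (act (rot θ) f) (Or.inr rfl)).2.2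
      have h2 : dd ν 2 (dop Jm (act (rot θ) f)) = 0 := vstep_J _ f h3' θ
      have h3 : ee ν 1 (act (rot θ) f) = 0 := h4' θ
      rw [if_neg (by decide), if_pos rfl, h2, h3, sub_zero, add_zero] at h1
      exact h1
  fin_cases k
  · exact q0
  · change f ∈ KK (qv ν 0) at h
    exact ⟨⟨⟨q0.1, (q1 h).1⟩, (q2 h).1⟩, ⟨⟨q0.2, (q1 h).2⟩, (q2 h).2⟩⟩
  · change f ∈ KK (qv ν 0) ⊓ KK (qv ν 1) ⊓ KK (qv ν 2) at h
    obtain ⟨⟨h0, h1⟩, h2⟩ := h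
    exact ⟨⟨⟨⟨⟨q0.1, (q1 h0).1⟩, (q2 h0).1⟩, (q3 h1 h2).1⟩, (q4 h1 h2).1⟩,
      ⟨⟨⟨⟨q0.2, (q1 h0).2⟩, (q2 h0).2⟩, (q3 h1 h2).2⟩, (q4 h1 h2).2⟩⟩
  · change f ∈ KK (qv ν 0) ⊓ KK (qv ν 1) ⊓ KK (qv ν 2) ⊓ KK (qv ν 3) ⊓ KK (qv ν 4) at h
    obtain ⟨⟨⟨⟨h0, h1⟩, h2⟩, h3⟩, h4⟩ := h
    exact ⟨⟨⟨⟨⟨⟨q0.1, (q1 h0).1⟩, (q2 h0).1⟩, (q3 h1 h2).1⟩, (q4 h1 h2).1⟩, (q5 h3 h4).1⟩,
      ⟨⟨⟨⟨⟨q0.2, (q1 h0).2⟩, (q2 h0).2⟩, (q3 h1 h2).2⟩, (q4 h1 h2).2⟩, (q5 h3 h4).2⟩⟩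

end SoCo
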