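import Pool.Agent.H.MP_0f3f77_al.PsiPi
import Pool.Agent.H.MP_0f3f77_al.VStep

/-!
The unipotent radical `V_3` acts nilpotently on `Ψ(π)`.

`der_psi`, proof.  `act (unip (t α)) (toPsi v) = toPsi (act (vn (t (α_0, α_1))) v)` (`toPsi_act`,
`emb_unip_eq`, the determinant is `1`); `opg_top` for `opg_vn` in `Isp`, hence in `piR.V`
(`toI_emb`), hence in the quotient (`DerZero.map`).
`rad_le`: by induction, `radSpan (psiR ν) l ≤ U9 ν (![8, 7, 4, 1, 0] l)`: a generator of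
`radSpan (l+1)` is the `DerZero` derivative of `act (unip (t α)) w`, `w = toPsi v ∈ radSpan l`; by
`der_psi` and uniqueness of limits (`t2_psi`) it is `toPsi v'` with
`toI v' = α_0 D02 (toI v) + α_1 D12 (toI v)`; `v_step`.
`psiSpan_psi`: let `w = toPsi v`, `T` the operator `toPsi v ↦ toPsi v'` with `toI v' = D12 (toI v)`.
`T^4 = 0` by `v_step`.  `w = (T - iν) w'` with `w' = -∑_{j<4} (iν)^(-j-1) T^j w`, and
`(T - iν) w'` is a generator of `psiSpan` (`α = (0, 1)`, `der_psi`).  To avoid `T` on the quotient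
work in `Isp`: `v' = -∑_{j<4} (iν)^(-j-1) D12^j (toI v) ∈ PiS`,
`D12 v' - iν v' = toI v - (iν)^(-4) D12^4 (toI v)` and `D12^4 (toI v) ∈ Sp ν 0`.
-/

open scoped Topology ContDiff
open MeasureTheory

noncomputable section

namespace SoCo

theorem radpi_det (α : Fin 2 → ℝ) : detChar 2 (unip α) = 1 := by
  change ((|Matrix.det (unipM α)| ^ (-(1 / 2) : ℝ) : ℝ) : ℂ) = 1
  have h : Matrix.det (unipM α) = 1 := by
    rw [Matrix.det_of_isUpperTriangular]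
    · apply Finset.prod_eq_one
      intro i _
      refine Fin.lastCases ?_ (fun i => ?_) i
      · exact unipM_ll α
      · rw [unipM_c]
        simp
    · intro i j hij
      revert hij
      refine Fin.lastCases ?_ (fun j => ?_) j
      · intro hij
        exact absurd hij (not_lt.mpr (Fin.le_last _))
      · intro hij
        rw [unipM_c, Matrix.one_apply, if_neg]
        exact (ne_of_lt hij).symm
  rw [h]
  simp

theorem radpi_der (p : ℝ × ℝ) (v v' : piR.V)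
    (h : toI v' = (p.1 : ℂ) • D 0 2 (toI v) + (p.2 : ℂ) • D 1 2 (toI v)) :
    DerZero (fun t : ℝ => piR.act (vn (t • p)) v) v' := by
  have h1 := opg_top (opg_vn p) (toI v)
  rw [dop_add, dop_smul, dop_smul] at h1
  change DerZero _ ((p.1 : ℂ) • D 0 2 (toI v) + (p.2 : ℂ) • D 1 2 (toI v)) at h1
  rw [← h] at h1
  unfold DerZero at h1 ⊢
  rw [toI_emb.tendsto_nhds_iff]
  refine h1.congr (fun t => ?_)
  simp only [Function.comp_apply, map_smul, map_sub, toI_act]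

theorem der_psi (ν : ℝ) (α : Fin 2 → ℝ) (v v' : piR.V)
    (h : toI v' = (α 0 : ℂ) • D 0 2 (toI v) + (α 1 : ℂ) • D 1 2 (toI v)) :
    DerZero (fun t : ℝ => (psiR ν).act (unip (t • α)) (toPsi ν v)) (toPsi ν v') := by
  have h1 := (radpi_der (α 0, α 1) v v' h).map (toPsi ν)
  have h2 : (fun t : ℝ => (psiR ν).act (unip (t • α)) (toPsi ν v)) =
      fun t : ℝ => toPsi ν (piR.act (vn (t • (α 0, α 1))) v) := by
    funext t
    rw [toPsi_act, radpi_det, one_smul, emb_unip_eq]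
    rfl
  rw [h2]
  exact h1

theorem radpi_mem02 (f : Isp) (hf : f ∈ PiS) : D 0 2 f ∈ PiS := by
  have h1 := opg_mem (opg_vn (1, 0)) PiS isClosed_PiS (fun t f hf => ginv_PiS _ f hf) f hf
  have h2 : (1 : ℝ) • Eij 0 2 + (0 : ℝ) • Eij 1 2 = Eij 0 2 := by
    rw [one_smul, zero_smul, add_zero]
  rw [h2] at h1
  exact h1

theorem radpi_mem12 (f : Isp) (hf : f ∈ PiS) : D 1 2 f ∈ PiS := by
  have h1 := opg_mem (opg_vn (0, 1)) PiS isClosed_PiS (fun t f hf => ginv_PiS _ f hf) f hf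
  have h2 : (0 : ℝ) • Eij 0 2 + (1 : ℝ) • Eij 1 2 = Eij 1 2 := by
    rw [one_smul, zero_smul, zero_add]
  rw [h2] at h1
  exact h1

theorem radpi_step (ν : ℝ) (hν : ν ≠ 0) (l : ℕ) (k : Fin 4)
    (ih : radSpan (psiR ν) l ≤ U9 ν ((![8, 7, 4, 1] : Fin 4 → Fin 9) k)) :
    radSpan (psiR ν) (l + 1) ≤ U9 ν ((![7, 4, 1, 0] : Fin 4 → Fin 9) k) := by
  have := t2_psi ν hν
  rw [radSpan, Submodule.span_le]
  rintro w ⟨α, v, hv, hw⟩
  obtain ⟨v0, hv0, rfl⟩ := ih hv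
  have hs := v_step ν k (toI v0) hv0
  obtain ⟨v1, hv1⟩ := toI_surj ((α 0 : ℂ) • D 0 2 (toI v0) + (α 1 : ℂ) • D 1 2 (toI v0))
    (PiS.add_mem (PiS.smul_mem _ (radpi_mem02 _ (toI_mem v0)))
      (PiS.smul_mem _ (radpi_mem12 _ (toI_mem v0))))
  have h1 := der_psi ν α v0 v1 hv1
  have h2 : w = toPsi ν v1 := tendsto_nhds_unique hw h1
  rw [h2]
  refine ⟨v1, ?_, rfl⟩
  change toI v1 ∈ Sp ν _
  rw [hv1]
  exact Submodule.add_mem _ (Submodule.smul_mem _ _ hs.1) (Submodule.smul_mem _ _ hs.2)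

theorem rad_psi (ν : ℝ) (hν : ν ≠ 0) : radSpan (psiR ν) 4 = ⊥ := by
  have h0 : radSpan (psiR ν) 0 ≤ U9 ν 8 := by
    rw [U9_eight]
    exact le_top
  have h1 := radpi_step ν hν 0 0 h0
  have h2 := radpi_step ν hν 1 1 h1
  have h3 := radpi_step ν hν 2 2 h2
  have h4 := radpi_step ν hν 3 3 h3
  rw [eq_bot_iff, ← U9_zero ν hν]
  exact h4

/-- The operator `D12` on `π`. -/
def radpi_T : piR.V →ₗ[ℂ] piR.V :=
  (D 1 2).restrict (p := PiS) (q := PiS) radpi_mem12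

theorem radpi_T_toI (v : piR.V) : toI (radpi_T v) = D 1 2 (toI v) := rfl

theorem psiSpan_psi (ν : ℝ) (hν : ν ≠ 0) : psiSpan ν (m := 1) (psiR ν) = ⊤ := by
  rw [eq_top_iff]
  rintro w -
  obtain ⟨v, rfl⟩ := toPsi_surj ν w
  have h1 := (v_step ν 0 (toI v) (by trivial)).2
  have h2 := (v_step ν 1 (D 1 2 (toI v)) h1).2
  have h3 := (v_step ν 2 (D 1 2 (D 1 2 (toI v))) h2).2
  have h4 := (v_step ν 3 (D 1 2 (D 1 2 (D 1 2 (toI v)))) h3).2
  have h5 : toPsi ν (radpi_T (radpi_T (radpi_T (radpi_T v)))) = 0 := by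
    rw [toPsi_zero ν hν]
    exact h4
  obtain ⟨c, hc⟩ : ∃ c : ℂ, c = ((ν : ℝ) : ℂ) * Complex.I := ⟨_, rfl⟩
  have hc0 : c ≠ 0 := by
    rw [hc]
    exact mul_ne_zero (by exact_mod_cast hν) Complex.I_ne_zero
  obtain ⟨v', hv'⟩ : ∃ v' : piR.V, v' = -(c⁻¹ • v + (c⁻¹) ^ 2 • radpi_T v +
      (c⁻¹) ^ 3 • radpi_T (radpi_T v) + (c⁻¹) ^ 4 • radpi_T (radpi_T (radpi_T v))) := ⟨_, rfl⟩
  have e1 : radpi_T v' - c • v' = v - (c⁻¹) ^ 4 • radpi_T (radpi_T (radpi_T (radpi_T v))) := by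
    rw [hv']
    simp only [map_neg, map_add, map_smul, smul_neg, smul_add, smul_smul]
    have c1 : c * c⁻¹ = 1 := mul_inv_cancel₀ hc0
    have c2 : c * (c⁻¹) ^ 2 = c⁻¹ := by rw [pow_two, ← mul_assoc, c1, one_mul]
    have c3 : c * (c⁻¹) ^ 3 = (c⁻¹) ^ 2 := by rw [pow_succ' (c⁻¹) 2, ← mul_assoc, c1, one_mul]
    have c4 : c * (c⁻¹) ^ 4 = (c⁻¹) ^ 3 := by rw [pow_succ' (c⁻¹) 3, ← mul_assoc, c1, one_mul]
    rw [c1, c2, c3, c4, one_smul]
    abel
  have e2 : toPsi ν v = toPsi ν (radpi_T v') - c • toPsi ν v' := by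
    rw [← map_smul, ← map_sub, e1, map_sub, map_smul, h5, smul_zero, sub_zero]
  rw [e2]
  refine Submodule.subset_span ⟨![0, 1], toPsi ν v', toPsi ν (radpi_T v'), ?_, ?_⟩
  · refine der_psi ν _ v' _ ?_
    rw [radpi_T_toI]
    simp
  · rw [hc]
    congr 2
    simp

end SoCo
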