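import Pool.Agent.H.MP_0f3f77_al.Defs2
import Pool.Agent.H.MP_0f3f77_al.PiS

/-!
The representation `piR` on the intersection of all nonzero closed invariant subspaces of `Isp`
(definitions only).
-/

open scoped Topology ContDiff
open MeasureTheory

noncomputable section

namespace SoCo

/-- A subrepresentation. -/
def TRep.sub {G : Type} [Group G] (σ : TRep G) (W : Submodule ℂ σ.V)
    (hW : ∀ g, ∀ v ∈ W, σ.act g v ∈ W) : TRep G where
  V := W
  act :=
    { toFun := fun g => ((σ.act g).comp W.subtypeL).codRestrict W (fun v => hW g v v.2)
      map_one' := by
        apply ContinuousLinearMap.ext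
        intro v
        apply Subtype.ext
        simp
      map_mul' := by
        intro g h
        apply ContinuousLinearMap.ext
        intro v
        apply Subtype.ext
        simp }

/-- The induced representation. -/
def IspR : TRep (GL (Fin 4) ℝ) where
  V := Isp
  act :=
    { toFun := actL
      map_one' := by
        apply ContinuousLinearMap.ext
        intro f
        exact act_one f
      map_mul' := by
        intro g h
        apply ContinuousLinearMap.ext
        intro f
        exact act_mul g h f }

/-- The irreducible representation of the counterexample. -/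
def piR : TRep (GL (Fin 4) ℝ) := IspR.sub PiS ginv_PiS

/-- The inclusion in `Isp`. -/
def toI : piR.V →L[ℂ] Isp := PiS.subtypeL

theorem toI_inj : Function.Injective toI := Subtype.val_injective

theorem toI_mem (v : piR.V) : toI v ∈ PiS := v.2

theorem toI_surj (f : Isp) (hf : f ∈ PiS) : ∃ v : piR.V, toI v = f := ⟨⟨f, hf⟩, rfl⟩

theorem toI_emb : Topology.IsEmbedding toI := Topology.IsEmbedding.subtypeVal

theorem toI_act (g : GL (Fin 4) ℝ) (v : piR.V) : toI (piR.act g v) = act g (toI v) := rfl

/-- The restriction to `M_4`. -/
def resR : TRep (Mir 3) := piR.res (Mir 3)

end SoCo
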