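import Pool.Agent.H.MP_0f3f77_al.Rep

/-!
Identification of group elements.

`unip_eq`: both sides have the matrix `unM (α 0, α 1, α 2)` (`unipM α`); `Units.ext`, `Matrix.ext`,
`fin_cases`, using `unipM_c`, `unipM_cl`, `unipM_ll` (`3 = Fin.last 3`, `0 = Fin.castSucc 0`, ...), or
`simp [unipM, unM, Fin.lastCases]`, `decide`-style unfolding.
`emb_unip_eq`: the matrix `diagOne (unipM α)` is `vnM (α 0, α 1)`.
`isM3_iff`: a matrix `g` in `GL_4` has the rows 2, 3 and the column 3 of the identity iff
`g = diagOne h` with `h` the upper left `3 x 3` block, `h` invertible (`det g = det h`, or the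
upper left block of `g⁻¹` is its inverse: `g⁻¹` also satisfies `IsM3`) with last row `(0, 0, 1)`.
-/

open scoped Topology ContDiff
open MeasureTheory

noncomputable section

namespace SoCo

theorem unip_eq (α : Fin 3 → ℝ) : ((unip α : Mir 3) : GL (Fin 4) ℝ) = un (α 0, α 1, α 2) := by
  apply Units.ext
  change unipM α = unM (α 0, α 1, α 2)
  ext i j
  refine Fin.lastCases ?_ (fun j => ?_) j
  · refine Fin.lastCases ?_ (fun i => ?_) i
    · rw [unipM_ll]
      rfl
    · rw [unipM_cl]
      fin_cases i <;> rfl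
  · rw [unipM_c]
    fin_cases j <;> fin_cases i <;> simp [unM, Matrix.one_apply, Fin.ext_iff]

theorem emb_unip_eq (α : Fin 2 → ℝ) :
    ((emb 3 ((unip α : Mir 2) : GL (Fin 3) ℝ) : Mir 3) : GL (Fin 4) ℝ) = vn (α 0, α 1) := by
  apply Units.ext
  change diagOne (unipM α) = vnM (α 0, α 1)
  ext i j
  refine Fin.lastCases ?_ (fun j => ?_) j
  · refine Fin.lastCases ?_ (fun i => ?_) i
    · rw [diagOne_ll]
      rfl
    · rw [diagOne_cl]
      fin_cases i <;> rfl
  · refine Fin.lastCases ?_ (fun i => ?_) i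
    · rw [diagOne_lc]
      fin_cases j <;> rfl
    · rw [diagOne_cc]
      refine Fin.lastCases ?_ (fun j => ?_) j
      · refine Fin.lastCases ?_ (fun i => ?_) i
        · rw [unipM_ll]
          rfl
        · rw [unipM_cl]
          fin_cases i <;> rfl
      · rw [unipM_c]
        fin_cases j <;> fin_cases i <;> simp [vnM, Matrix.one_apply, Fin.ext_iff]

/-- The image of `M_3` in `GL_4`. -/
theorem isM3_iff (g : GL (Fin 4) ℝ) :
    IsM3 g ↔ ∃ h : Mir 2, g = ((emb 3 ((h : Mir 2) : GL (Fin 3) ℝ) : Mir 3) : GL (Fin 4) ℝ) := by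
  constructor
  · intro hg
    have hr : ∀ j, (g : Mat) (Fin.last 3) j = (1 : Mat) (Fin.last 3) j := fun j =>
      hg (Fin.last 3) j (Or.inr (Or.inl rfl))
    have hc : ∀ i, (g : Mat) i (Fin.last 3) = (1 : Mat) i (Fin.last 3) := fun i =>
      hg i (Fin.last 3) (Or.inr (Or.inr rfl))
    have hr2 : ∀ j, (g : Mat) 2 j = (1 : Mat) 2 j := fun j => hg 2 j (Or.inl rfl)
    have hmi : (g : Mat) * ((g⁻¹ : GL (Fin 4) ℝ) : Mat) = 1 := by
      rw [← Units.val_mul, mul_inv_cancel, Units.val_one]
    have him : ((g⁻¹ : GL (Fin 4) ℝ) : Mat) * (g : Mat) = 1 := by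
      rw [← Units.val_mul, inv_mul_cancel, Units.val_one]
    let A : Matrix (Fin 3) (Fin 3) ℝ := fun i j => (g : Mat) i.castSucc j.castSucc
    let B : Matrix (Fin 3) (Fin 3) ℝ := fun i j =>
      ((g⁻¹ : GL (Fin 4) ℝ) : Mat) i.castSucc j.castSucc
    have hAB : A * B = 1 := by
      ext i j
      have h1 := congrFun (congrFun hmi i.castSucc) j.castSucc
      rw [Matrix.mul_apply, Fin.sum_univ_castSucc, hc] at h1
      rw [Matrix.mul_apply]
      simp only [Matrix.one_apply, Fin.castSucc_inj] at h1 ⊢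
      rw [← h1]
      simp [A, B, Fin.ext_iff, (Fin.is_lt i).ne]
    have hBA : B * A = 1 := by
      ext i j
      have h1 := congrFun (congrFun him i.castSucc) j.castSucc
      rw [Matrix.mul_apply, Fin.sum_univ_castSucc, hr] at h1
      rw [Matrix.mul_apply]
      simp only [Matrix.one_apply, Fin.castSucc_inj] at h1 ⊢
      rw [← h1]
      simp [A, B, Fin.ext_iff, (Fin.is_lt j).ne']
    refine ⟨⟨⟨A, B, hAB, hBA⟩, ?_⟩, ?_⟩
    · intro j
      change (g : Mat) 2 j.castSucc = _
      rw [hr2]
      fin_cases j <;> simp [Matrix.one_apply, Fin.ext_iff]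
    · apply Units.ext
      change (g : Mat) = diagOne A
      ext i j
      refine Fin.lastCases ?_ (fun j => ?_) j
      · refine Fin.lastCases ?_ (fun i => ?_) i
        · rw [diagOne_ll, hr]
          simp
        · rw [diagOne_cl, hc]
          simp [Matrix.one_apply, Fin.ext_iff, (Fin.is_lt i).ne]
      · refine Fin.lastCases ?_ (fun i => ?_) i
        · rw [diagOne_lc, hr]
          simp [Matrix.one_apply, Fin.ext_iff, (Fin.is_lt j).ne']
        · rw [diagOne_cc]
  · rintro ⟨h, rfl⟩
    have h2 := h.2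
    simp only [Mir, Subgroup.mem_mk, Submonoid.mem_mk, Subsemigroup.mem_mk,
      Set.mem_ofPred_eq] at h2
    intro i j hij
    change diagOne ((h : GL (Fin 3) ℝ) : Matrix (Fin 3) (Fin 3) ℝ) i j = (1 : Mat) i j
    revert hij
    refine Fin.lastCases ?_ (fun j => ?_) j
    · intro _
      refine Fin.lastCases ?_ (fun i => ?_) i
      · rw [diagOne_ll]
        simp
      · rw [diagOne_cl]
        simp [Matrix.one_apply, Fin.ext_iff, (Fin.is_lt i).ne]
    · refine Fin.lastCases ?_ (fun i => ?_) i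
      · intro _
        rw [diagOne_lc]
        simp [Matrix.one_apply, Fin.ext_iff, (Fin.is_lt j).ne']
      · intro hij
        have hi : i = Fin.last 2 := by
          fin_cases i <;> fin_cases j <;> simp_all [Fin.ext_iff]
        rw [diagOne_cc, hi, h2]
        fin_cases j <;> simp [Matrix.one_apply, Fin.ext_iff]

end SoCo
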