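import Pool.Agent.H.MP_0f3f77_al.SEta

/-!
The family of group elements `s_η`, with inverse matrix `sM ν η` (third row `η / ν`).
The parameter `η` is in `UU ν = {η_3 / ν > 0}`.

`sact_deriv`, proof.  For `η ∈ UU ν` let `M = sM ν η` and `M' = ∂_k M = (1/ν) E_{2k}`;
`M + ε M' = (1 + ε Z) M` with `Z = M' M⁻¹`: for `k = 0, 1`, `Z = (1/ν) E_{2k}`; for `k = 2`,
`Z = (1/η_3) E_22 - (η_1/(ν η_3)) E_20 - (η_2/(ν η_3)) E_21`.
Direct computation as in `opg_point`: for `x ∈ Om`,
`sact ν η f x a b i = ∑ k, M k i f (lmul M x) a b k`, the derivative in the direction `M'` is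
`∑ k, M' k i f(Mx)_k + ∑ k, M k i (fderiv f (Mx) (M' x))_k`, with `M' = Z M`:
`∑_k (Z M)_{k i} f_k = ∑_l M_{l i} ∑_k Z_{k l} f_k`, `M' x = Z (M x)`; so it is
`-(sact ν η (dop Z f)) x a b i`.

`sact_cont`: `act_cont_orbit` and the continuity of `η ↦ sG ν η` on `UU ν` (in `GL`, continuity of
the matrix and of the inverse matrix, `Units.continuous_iff` or `Units.isEmbedding...`).
`sact_bound`: `act_bound`, `gs (s_η)` is bounded on compact subsets of `UU ν`.
`ig_bs`: `η ↦ (e η * b η) • sact ν η f` is continuous on `UU ν` and vanishes outside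
`tsupport b ⊆ UU ν`, hence continuous; its seminorms are continuous with compact support.
-/

open scoped Topology ContDiff
open MeasureTheory

noncomputable section

namespace SoCo

theorem scont_isOpen_UU (ν : ℝ) : IsOpen (UU ν) := by
  have : Continuous (fun η : R3 => η.2.2 / ν) := by fun_prop
  exact isOpen_lt continuous_const this

theorem scont_sM (ν : ℝ) (i j : Fin 4) : Continuous (fun η : R3 => sM ν η i j) := by
  fin_cases i <;> fin_cases j <;> simp only [sM] <;> simp <;> fun_prop

theorem scont_sMi (ν : ℝ) (i j : Fin 4) : ContinuousOn (fun η : R3 => sMi ν η i j) (UU ν) := by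
  have h3 : ∀ η ∈ UU ν, η.2.2 ≠ 0 := fun η hη => (UU_ne hη).2
  fin_cases i <;> fin_cases j <;> simp only [sMi] <;> simp <;> fun_prop (disch := assumption)

theorem scont_sG (ν : ℝ) :
    Continuous (fun η : UU ν => sG ν (UU_ne η.2).1 η.1 (UU_ne η.2).2) := by
  rw [Units.continuous_iff]
  constructor
  · refine continuous_pi fun i => continuous_pi fun j => ?_
    have := (scont_sMi ν i j).domRestrict
    exact this
  · refine continuous_pi fun i => continuous_pi fun j => ?_
    exact (scont_sM ν i j).comp (continuous_subtype_val : Continuous fun η : UU ν => (η : R3))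

theorem sact_cont (ν : ℝ) (f : Isp) : ContinuousOn (fun η => sact ν η f) (UU ν) := by
  rw [continuousOn_iff_continuous_domRestrict]
  have h := (act_cont_orbit f).comp (scont_sG ν)
  refine h.congr fun η => ?_
  exact (sact_eq η.2 f).symm

theorem sact_bound (ν : ℝ) (n : ℕ) (K : Set R3) (hK : IsCompact K) (hKU : K ⊆ UU ν) :
    ∃ C : ℝ, 0 ≤ C ∧ ∀ η ∈ K, ∀ f, pn n (sact ν η f) ≤ C * pn n f := by
  obtain ⟨C, N, hC, h⟩ := act_bound n
  have hc : ContinuousOn (fun η : R3 => 1 + ∑ i, ∑ j, |sMi ν η i j| + ∑ i, ∑ j, |sM ν η i j|)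
      (UU ν) := by
    refine ContinuousOn.add (ContinuousOn.add continuousOn_const ?_) ?_
    · exact continuousOn_finsetSum _ fun i _ => continuousOn_finsetSum _ fun j _ =>
        (scont_sMi ν i j).abs
    · exact continuousOn_finsetSum _ fun i _ => continuousOn_finsetSum _ fun j _ =>
        (scont_sM ν i j).continuousOn.abs
  obtain ⟨B, hB⟩ := hK.exists_bound_of_continuousOn (hc.mono hKU)
  refine ⟨C * |B| ^ N, by positivity, fun η hη f => ?_⟩
  have hU := hKU hη
  rw [sact_eq hU]
  refine (h _ f).trans ?_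
  have hgs : gs (sG ν (UU_ne hU).1 η (UU_ne hU).2) =
      1 + ∑ i, ∑ j, |sMi ν η i j| + ∑ i, ∑ j, |sM ν η i j| := rfl
  have h1 : gs (sG ν (UU_ne hU).1 η (UU_ne hU).2) ≤ |B| := by
    rw [hgs]
    exact ((le_abs_self _).trans (hB η hη)).trans (le_abs_self B)
  have h0 : 0 ≤ gs (sG ν (UU_ne hU).1 η (UU_ne hU).2) := zero_le_one.trans (gs_ge_one _)
  have h2 : gs (sG ν (UU_ne hU).1 η (UU_ne hU).2) ^ N ≤ |B| ^ N := pow_le_pow_left₀ h0 h1 N
  have hp : 0 ≤ pn n f := apply_nonneg _ _
  gcongr

theorem ig_bs (ν : ℝ) (b : R3 → ℂ) (hb : CB ν b) (e : R3 → ℂ) (he : Continuous e) (f : Isp) :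
    Ig volume (fun η : R3 => (e η * b η) • sact ν η f) := by
  have hz : ∀ η, η ∉ tsupport b → (e η * b η) • sact ν η f = 0 := by
    intro η hη
    rw [image_eq_zero_of_notMem_tsupport hη, mul_zero, zero_smul]
  have hcont : Continuous (fun η : R3 => (e η * b η) • sact ν η f) := by
    refine continuous_of_tsupport fun η hη => ?_
    have hsub : tsupport (fun η : R3 => (e η * b η) • sact ν η f) ⊆ tsupport b := by
      refine closure_minimal (fun y hy => ?_) (isClosed_tsupport b)
      by_contra hcon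
      exact hy (hz y hcon)
    have hU : η ∈ UU ν := hb.sub (hsub hη)
    have hnh : UU ν ∈ 𝓝 η := (scont_isOpen_UU ν).mem_nhds hU
    have h1 : ContinuousAt (fun η => sact ν η f) η := (sact_cont ν f).continuousAt hnh
    have h2 : ContinuousAt (fun η => e η * b η) η :=
      (he.mul hb.smooth.continuous).continuousAt
    exact h2.smul h1
  refine ⟨hcont, fun n => ?_⟩
  have hc : Continuous (fun η : R3 => pn n ((e η * b η) • sact ν η f)) :=
    (continuous_pn n).comp hcont
  refine hc.integrable_of_hasCompactSupport ?_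
  refine HasCompactSupport.intro hb.cs fun η hη => ?_
  rw [hz η hη, map_zero]

end SoCo
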