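import Pool.Agent.H.MP_0f3f77_al.Elts

/-!
The family of group elements `s_η`, with inverse matrix `sM ν η` (third row `η / ν`).
The parameter `η` is in `UU ν = {η_3 / ν > 0}`.

`sact_deriv`, proof.  For `η ∈ UU ν` let `M = sM ν η` and `M' = ∂_k M = (1/ν) E_{2k}`;
`M + ε M' = (1 + ε Z) M` with `Z = M' M⁻¹`: for `k = 0, 1`, `Z = (1/ν) E_{2k}`; for `k = 2`,
`Z = (1/η_3) E_22 - (η_1/(ν η_3)) E_20 - (η_2/(ν η_3)) E_21`.
Direct computation as in `opg_point`: for `x ∈ Om`,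
`sact ν η f x a b i = ∑ k, M k i f (lmul M x) a b k`, the derivative in the direction `M'` is
`∑ k, M' k i f(Mx)_k + ∑ k, M k i (fderiv f (Mx) (M' x))_k`, with `M' = Z M`:
`∑_k (Z M)_{k i} f_k = ∑_l M_{l i} ∑_k Z_{k l} f_k`, `M' x = Z (M x)`; so it is
`-(sact ν η (dop Z f)) x a b i`.

`sact_cont`: `act_cont_orbit` and the continuity of `η ↦ sG ν η` on `UU ν` (in `GL`, continuity of
the matrix and of the inverse matrix, `Units.continuous_iff` or `Units.isEmbedding...`).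
`sact_bound`: `act_bound`, `gs (s_η)` is bounded on compact subsets of `UU ν`.
`ig_bs`: `η ↦ (e η * b η) • sact ν η f` is continuous on `UU ν` and vanishes outside
`tsupport b ⊆ UU ν`, hence continuous; its seminorms are continuous with compact support.
-/

open scoped Topology ContDiff
open MeasureTheory

noncomputable section

namespace SoCo

/-- The matrix with third row `η / ν`. -/
def sM (ν : ℝ) (η : R3) : Mat :=
  !![1, 0, 0, 0; 0, 1, 0, 0; η.1 / ν, η.2.1 / ν, η.2.2 / ν, 0; 0, 0, 0, 1]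

/-- Its inverse. -/
def sMi (ν : ℝ) (η : R3) : Mat :=
  !![1, 0, 0, 0; 0, 1, 0, 0; -η.1 / η.2.2, -η.2.1 / η.2.2, ν / η.2.2, 0; 0, 0, 0, 1]

theorem sM_mul (ν : ℝ) (hν : ν ≠ 0) (η : R3) (h : η.2.2 ≠ 0) : sM ν η * sMi ν η = 1 := by
  ext i j
  fin_cases i <;> fin_cases j <;>
    simp [sM, sMi, Matrix.mul_apply, Fin.sum_univ_four] <;> field_simp <;> ring

theorem sMi_mul (ν : ℝ) (hν : ν ≠ 0) (η : R3) (h : η.2.2 ≠ 0) : sMi ν η * sM ν η = 1 :=
  mul_eq_one_comm.mp (sM_mul ν hν η h)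

/-- The group element with inverse `sM ν η`. -/
def sG (ν : ℝ) (hν : ν ≠ 0) (η : R3) (h : η.2.2 ≠ 0) : GL (Fin 4) ℝ :=
  ⟨sMi ν η, sM ν η, sMi_mul ν hν η h, sM_mul ν hν η h⟩

open Classical in

/-- The action of `s_η`, extended by zero. -/
def sact (ν : ℝ) (η : R3) : Isp →ₗ[ℂ] Isp :=
  if h : ν ≠ 0 ∧ η.2.2 ≠ 0 then act (sG ν h.1 η h.2) else 0

/-- The domain of frequencies. -/
def UU (ν : ℝ) : Set R3 := {η | 0 < η.2.2 / ν}

theorem UU_ne {ν : ℝ} {η : R3} (h : η ∈ UU ν) : ν ≠ 0 ∧ η.2.2 ≠ 0 := by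
  have h' : 0 < η.2.2 / ν := h
  constructor
  · rintro rfl; simp at h'
  · intro h0; rw [h0] at h'; simp at h'

theorem sact_eq {ν : ℝ} {η : R3} (h : η ∈ UU ν) (f : Isp) :
    sact ν η f = act (sG ν (UU_ne h).1 η (UU_ne h).2) f := by
  rw [sact, dif_pos (UU_ne h)]

/-- Test functions on `UU ν`. -/
structure CB (ν : ℝ) (b : R3 → ℂ) : Prop where
  smooth : ContDiff ℝ ∞ b
  cs : HasCompactSupport b
  sub : tsupport b ⊆ UU ν

/-- The `k`-th coordinate vector of `R3`. -/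
def e3 : Fin 3 → R3 := ![(1, 0, 0), (0, 1, 0), (0, 0, 1)]

/-- The `k`-th coordinate. -/
def co (u : R3) : Fin 3 → ℝ := ![u.1, u.2.1, u.2.2]

end SoCo
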