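import Pool.Agent.H.MP_0f3f77_al.SymL

/-!
The regularized Fourier integral `Lf ν φ = (iν)^(-8) ∫ (∂_z^8 φ) e^{iνz}` on symbols.

Proofs.  For `φ` in `Sy 5`, `ψ = dz^[8] φ` is in `Sy (-3)`, hence continuous with
`‖ψ p‖ ≤ C (1 + ‖p‖)^(-3)`, integrable on the plane (`integrable_one_add_norm`, finrank `2 < 3`).
`Lf_dy`: `dz^[8] (dy φ) = dy ψ`, in `Sy (-4)`, and `∫ (dy ψ) e^{iνz} = 0` by integration by
parts (`integral_mul_fderiv_eq_neg_fderiv_mul_of_integrable` or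
`integral_bilinear_hasLineDerivAt_right_eq_neg_left_of_integrable` in the direction `(1, 0)`; the
derivative of `e^{iνz}` in this direction is `0`).
`Lf_dz`: the same in the direction `(0, 1)`, `∂_z e^{iνz} = iν e^{iνz}`.
`Lf_yz_*`: `dz (y φ) = y dz φ`, `dy (y φ) = φ + y dy φ`, `dz (z φ) = φ + z dz φ`,
`dy (z φ) = z dy φ`, and additivity.
`Lf_eq`: for `φ ∈ Sy (-3)` integrate by parts eight times (each `dz^[k] φ ∈ Sy (-3 - k)` is
integrable): `∫ (dz^[8] φ) e^{iνz} = (-iν)^8 ∫ φ e^{iνz}`.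
-/

open scoped Topology ContDiff
open MeasureTheory

noncomputable section

namespace SoCo

theorem syml2_fst (p : ℝ × ℝ) : HasFDerivAt (fun p : ℝ × ℝ => ((p.1 : ℝ) : ℂ))
    (Complex.ofRealCLM.comp (ContinuousLinearMap.fst ℝ ℝ ℝ)) p :=
  (Complex.ofRealCLM.comp (ContinuousLinearMap.fst ℝ ℝ ℝ)).hasFDerivAt

theorem syml2_snd (p : ℝ × ℝ) : HasFDerivAt (fun p : ℝ × ℝ => ((p.2 : ℝ) : ℂ))
    (Complex.ofRealCLM.comp (ContinuousLinearMap.snd ℝ ℝ ℝ)) p :=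
  (Complex.ofRealCLM.comp (ContinuousLinearMap.snd ℝ ℝ ℝ)).hasFDerivAt

theorem syml2_dy_y {φ : ℝ × ℝ → ℂ} (h : ContDiff ℝ ∞ φ) (p : ℝ × ℝ) :
    dy (fun p => (p.1 : ℂ) * φ p) p = (p.1 : ℂ) * dy φ p + φ p := by
  have h1 := ((h.differentiable (by simp)) p).hasFDerivAt
  have h2 := (syml2_fst p).fun_mul h1
  unfold dy
  rw [h2.fderiv]
  simp

theorem syml2_dz_y {φ : ℝ × ℝ → ℂ} (h : ContDiff ℝ ∞ φ) (p : ℝ × ℝ) :
    dz (fun p => (p.1 : ℂ) * φ p) p = (p.1 : ℂ) * dz φ p := by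
  have h1 := ((h.differentiable (by simp)) p).hasFDerivAt
  have h2 := (syml2_fst p).fun_mul h1
  unfold dz
  rw [h2.fderiv]
  simp

theorem syml2_dy_z {φ : ℝ × ℝ → ℂ} (h : ContDiff ℝ ∞ φ) (p : ℝ × ℝ) :
    dy (fun p => (p.2 : ℂ) * φ p) p = (p.2 : ℂ) * dy φ p := by
  have h1 := ((h.differentiable (by simp)) p).hasFDerivAt
  have h2 := (syml2_snd p).fun_mul h1
  unfold dy
  rw [h2.fderiv]
  simp

theorem syml2_dz_z {φ : ℝ × ℝ → ℂ} (h : ContDiff ℝ ∞ φ) (p : ℝ × ℝ) :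
    dz (fun p => (p.2 : ℂ) * φ p) p = (p.2 : ℂ) * dz φ p + φ p := by
  have h1 := ((h.differentiable (by simp)) p).hasFDerivAt
  have h2 := (syml2_snd p).fun_mul h1
  unfold dz
  rw [h2.fderiv]
  simp

theorem Lf_y_dy (ν : ℝ) {φ : ℝ × ℝ → ℂ} (h : Sy 4 φ) :
    Lf ν (fun p => (p.1 : ℂ) * dy φ p) = -Lf ν φ := by
  have h5 : Sy 5 (fun p : ℝ × ℝ => (p.1 : ℂ) * φ p) := h.mul_y
  have e : (fun p : ℝ × ℝ => (p.1 : ℂ) * dy φ p)
      = fun p => dy (fun p => (p.1 : ℂ) * φ p) p + (-1) * φ p := by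
    funext p
    rw [syml2_dy_y h.smooth]
    ring
  rw [e, Lf_add ν (h5.der_y.mono (by norm_num)) ((h.smul (-1)).mono (by norm_num)),
    Lf_smul ν (h.mono (by norm_num))]
  have : Lf ν (fun p : ℝ × ℝ => dy (fun p => (p.1 : ℂ) * φ p) p) = 0 := Lf_dy ν h5
  rw [this]
  ring

theorem Lf_z_dy (ν : ℝ) {φ : ℝ × ℝ → ℂ} (h : Sy 4 φ) :
    Lf ν (fun p => (p.2 : ℂ) * dy φ p) = 0 := by
  have h5 : Sy 5 (fun p : ℝ × ℝ => (p.2 : ℂ) * φ p) := h.mul_z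
  have e : (fun p : ℝ × ℝ => (p.2 : ℂ) * dy φ p) = dy (fun p => (p.2 : ℂ) * φ p) := by
    funext p
    rw [syml2_dy_z h.smooth]
  rw [e, Lf_dy ν h5]

theorem Lf_y_dz (ν : ℝ) {φ : ℝ × ℝ → ℂ} (h : Sy 4 φ) :
    Lf ν (fun p => (p.1 : ℂ) * dz φ p) =
      -(Complex.I * ν) * Lf ν (fun p => (p.1 : ℂ) * φ p) := by
  have h5 : Sy 5 (fun p : ℝ × ℝ => (p.1 : ℂ) * φ p) := h.mul_y
  have e : (fun p : ℝ × ℝ => (p.1 : ℂ) * dz φ p) = dz (fun p => (p.1 : ℂ) * φ p) := by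
    funext p
    rw [syml2_dz_y h.smooth]
  rw [e, Lf_dz ν h5]

theorem Lf_z_dz (ν : ℝ) {φ : ℝ × ℝ → ℂ} (h : Sy 4 φ) :
    Lf ν (fun p => (p.2 : ℂ) * dz φ p) =
      -Lf ν φ - (Complex.I * ν) * Lf ν (fun p => (p.2 : ℂ) * φ p) := by
  have h5 : Sy 5 (fun p : ℝ × ℝ => (p.2 : ℂ) * φ p) := h.mul_z
  have e : (fun p : ℝ × ℝ => (p.2 : ℂ) * dz φ p)
      = fun p => dz (fun p => (p.2 : ℂ) * φ p) p + (-1) * φ p := by
    funext p
    rw [syml2_dz_z h.smooth]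
    ring
  rw [e, Lf_add ν (h5.der_z.mono (by norm_num)) ((h.smul (-1)).mono (by norm_num)),
    Lf_smul ν (h.mono (by norm_num))]
  have : Lf ν (fun p : ℝ × ℝ => dz (fun p => (p.2 : ℂ) * φ p) p)
      = -(Complex.I * ν) * Lf ν (fun p => (p.2 : ℂ) * φ p) := Lf_dz ν h5
  rw [this]
  ring

theorem syml2_iter_parts (ν : ℝ) {φ : ℝ × ℝ → ℂ} (h : Sy (-3) φ) (k : ℕ) :
    ∫ p : ℝ × ℝ, (dz^[k] φ) p * Complex.exp (Complex.I * ν * p.2)
      = (-(Complex.I * ν)) ^ k * ∫ p : ℝ × ℝ, φ p * Complex.exp (Complex.I * ν * p.2) := by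
  induction k with
  | zero => simp
  | succ k ih =>
    rw [Function.iterate_succ_apply']
    have hk : Sy (-3) (dz^[k] φ) := (h.iter_dz k).mono (by omega)
    rw [syml_parts_z ν hk, ih, pow_succ]
    ring

theorem Lf_eq (ν : ℝ) (hν : ν ≠ 0) {φ : ℝ × ℝ → ℂ} (h : Sy (-3) φ) :
    Lf ν φ = ∫ p : ℝ × ℝ, φ p * Complex.exp (Complex.I * ν * p.2) := by
  unfold Lf
  rw [syml2_iter_parts ν h 8, ← mul_assoc]
  have h1 : (-(Complex.I * (ν : ℂ))) ^ 8 = (Complex.I * ν) ^ 8 := by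
    rw [neg_pow]
    norm_num
  have h2 : (Complex.I * (ν : ℂ)) ^ 8 ≠ 0 := by
    refine pow_ne_zero _ (mul_ne_zero Complex.I_ne_zero ?_)
    exact_mod_cast hν
  rw [h1, inv_mul_cancel₀ h2, one_mul]

/-- The reflection. -/
def syml2_R : (ℝ × ℝ) →L[ℝ] (ℝ × ℝ) :=
  ((-ContinuousLinearMap.fst ℝ ℝ ℝ).prod (ContinuousLinearMap.snd ℝ ℝ ℝ))

theorem syml2_iter_refl {φ : ℝ × ℝ → ℂ} (h : ContDiff ℝ ∞ φ) (k : ℕ) (p : ℝ × ℝ) :
    dz^[k] (fun p => φ (-p.1, p.2)) p = dz^[k] φ (-p.1, p.2) := by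
  induction k generalizing p φ with
  | zero => rfl
  | succ k ih =>
    rw [Function.iterate_succ_apply, Function.iterate_succ_apply]
    have e : dz (fun p : ℝ × ℝ => φ (-p.1, p.2)) = fun p => dz φ (-p.1, p.2) := by
      funext q
      have h1 : HasFDerivAt φ (fderiv ℝ φ (syml2_R q)) (syml2_R q) :=
        ((h.differentiable (by simp)) _).hasFDerivAt
      have h2 := h1.comp q syml2_R.hasFDerivAt
      have h3 : (φ ∘ syml2_R) = fun p : ℝ × ℝ => φ (-p.1, p.2) := by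
        funext p; rfl
      rw [h3] at h2
      unfold dz
      rw [h2.fderiv]
      have h4 : syml2_R (0, 1) = (0, 1) := by
        simp [syml2_R]
      rw [ContinuousLinearMap.comp_apply, h4]
      rfl
    rw [e]
    have h5 : ContDiff ℝ ∞ (dz φ) := by
      unfold dz
      exact (h.fderiv_right (m := ∞) (by simp)).clm_apply contDiff_const
    exact ih h5 p

/-- Reflection in the first variable. -/
theorem Lf_refl (ν : ℝ) {φ : ℝ × ℝ → ℂ} (h : Sy 5 φ) :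
    Lf ν (fun p => φ (-p.1, p.2)) = Lf ν φ := by
  unfold Lf
  simp only [syml2_iter_refl h.smooth]
  congr 1
  have hm : MeasurePreserving (Prod.map (fun x : ℝ => -x) (id : ℝ → ℝ))
      (volume : Measure (ℝ × ℝ)) volume :=
    (Measure.measurePreserving_neg (volume : Measure ℝ)).prod (MeasurePreserving.id volume)
  have he : MeasurableEmbedding (Prod.map (fun x : ℝ => -x) (id : ℝ → ℝ)) :=
    ((MeasurableEquiv.neg ℝ).prodCongr (MeasurableEquiv.refl ℝ)).measurableEmbedding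
  exact hm.integral_comp he (fun p => (dz^[8] φ) p * Complex.exp (Complex.I * ν * p.2))

end SoCo
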