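import Pool.Agent.H.MP_0f3f77_al.TopI
import Pool.Agent.H.MP_0f3f77_al.SymL2

/-!
Restriction of elements of `Isp` to the slices `pt t`, and their decay.

`slice_decay`, proof.  Fix `t`, `p = (y, z)`, let `v = (0, y, z, 1)`, `r = sqrt (1 + y^2 + z^2)`,
`x0 = (1, 0, t, 0)`.  With `A = !![1, 0; 0, r⁻¹]` one has `f x = rho A⁻¹ (f (rmul x A))`
for all `x`, so for all `p'`:
`f (pt t p') a b k = r^(-3 + a + b) * f (x0, r⁻¹ • v') a b k` (`v' = (0, p'.1, p'.2, 1)`).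
The map `p' ↦ (x0, r⁻¹ • v')` is affine, with linear part of norm `≤ r⁻¹`.  So the `j`-th
derivative at `p` is bounded by `r^(-3+a+b) r^(-j) ‖iteratedFDeriv ℝ j f (x0, r⁻¹ • v)‖`
(`ContinuousLinearMap.iteratedFDeriv_comp_right` for the linear part and
`iteratedFDeriv_comp_add_left/right` for the translation, `..._comp_left` for the coordinate
functional).  By `deriv_bound` this is at most
`r^(-3+a+b-j) * 32 (sz x')^8 (2 sz x')^j pn j f`, `x' = (x0, r⁻¹ • v)`,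
`‖x'‖ ≤ 1 + |t|`, `gram x' = (1 + t^2) - (t z / r)^2 ≥ 1`, so `sz x' ≤ 16 (1 + |t|)`.
Finally `r^2 ≥ (1 + ‖p‖)^2 / 2` and the exponent is negative, so
`r^(-3+a+b-j) ≤ 2^(3+j) (1 + ‖p‖)^(-3+a+b-j)`.
-/

open scoped Topology ContDiff
open MeasureTheory

noncomputable section

namespace SoCo

/-- The points of the slices. -/
def pt (t : ℝ) (p : ℝ × ℝ) : E := ![![1, 0, t, 0], ![0, p.1, p.2, 1]]

theorem gram_pt (t : ℝ) (p : ℝ × ℝ) : gram (pt t p) = 1 + t ^ 2 + p.1 ^ 2 * (1 + t ^ 2) + p.2 ^ 2 := by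
  simp [gram, pt, Fin.sum_univ_four]
  ring

theorem pt_mem (t : ℝ) (p : ℝ × ℝ) : pt t p ∈ Om := by
  rw [mem_Om_iff, gram_pt]
  positivity

theorem slice_smooth_pt : ContDiff ℝ ∞ (fun w : ℝ × (ℝ × ℝ) => pt w.1 w.2) := by
  refine contDiff_pi.mpr fun a => contDiff_pi.mpr fun i => ?_
  fin_cases a <;> fin_cases i <;> simp only [pt] <;> simp <;> fun_prop

/-- The slice at `t = 0`. -/
def sl (f : Isp) (a b : Fin 2) (i : Fin 4) : ℝ × ℝ → ℂ := fun p => f (pt 0 p) a b i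

theorem smooth_slice (f : Isp) (a b : Fin 2) (k : Fin 4) :
    ContDiff ℝ ∞ (fun w : ℝ × (ℝ × ℝ) => f (pt w.1 w.2) a b k) := by
  have h1 : ContDiff ℝ ∞ (fun w : ℝ × (ℝ × ℝ) => pt w.1 w.2) := slice_smooth_pt
  have h2 : ContDiff ℝ ∞ (fun w : ℝ × (ℝ × ℝ) => f (pt w.1 w.2)) :=
    (isI f).smooth.comp_contDiff h1 (fun w => pt_mem w.1 w.2)
  exact contDiff_pi.mp (contDiff_pi.mp (contDiff_pi.mp h2 a) b) k

end SoCo
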