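import Pool.Agent.H.MP_0f3f77_al.Slice

/-!
Restriction of elements of `Isp` to the slices `pt t`, and their decay.

`slice_decay`, proof.  Fix `t`, `p = (y, z)`, let `v = (0, y, z, 1)`, `r = sqrt (1 + y^2 + z^2)`,
`x0 = (1, 0, t, 0)`.  With `A = !![1, 0; 0, r⁻¹]` one has `f x = rho A⁻¹ (f (rmul x A))`
for all `x`, so for all `p'`:
`f (pt t p') a b k = r^(-3 + a + b) * f (x0, r⁻¹ • v') a b k` (`v' = (0, p'.1, p'.2, 1)`).
The map `p' ↦ (x0, r⁻¹ • v')` is affine, with linear part of norm `≤ r⁻¹`.  So the `j`-th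
derivative at `p` is bounded by `r^(-3+a+b) r^(-j) ‖iteratedFDeriv ℝ j f (x0, r⁻¹ • v)‖`
(`ContinuousLinearMap.iteratedFDeriv_comp_right` for the linear part and
`iteratedFDeriv_comp_add_left/right` for the translation, `..._comp_left` for the coordinate
functional).  By `deriv_bound` this is at most
`r^(-3+a+b-j) * 32 (sz x')^8 (2 sz x')^j pn j f`, `x' = (x0, r⁻¹ • v)`,
`‖x'‖ ≤ 1 + |t|`, `gram x' = (1 + t^2) - (t z / r)^2 ≥ 1`, so `sz x' ≤ 16 (1 + |t|)`.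
Finally `r^2 ≥ (1 + ‖p‖)^2 / 2` and the exponent is negative, so
`r^(-3+a+b-j) ≤ 2^(3+j) (1 + ‖p‖)^(-3+a+b-j)`.
-/

open scoped Topology ContDiff
open MeasureTheory

noncomputable section

namespace SoCo

theorem slicedecay_comp (f : Isp) (j : ℕ) (q0 : E) (M : (ℝ × ℝ) →L[ℝ] E) (p : ℝ × ℝ)
    (hx : q0 + M p ∈ Om) :
    ‖iteratedFDeriv ℝ j (fun p' => (f : E → Fv) (q0 + M p')) p‖ ≤
      ‖iteratedFDeriv ℝ j (f : E → Fv) (q0 + M p)‖ * ‖M‖ ^ j := by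
  set g : E → Fv := fun y => (f : E → Fv) (q0 + y) with hg
  set s : Set E := {y | q0 + y ∈ Om} with hs
  have hso : IsOpen s := isOpen_Om.preimage (continuous_const.add continuous_id)
  have hgs : ContDiffOn ℝ ∞ g s := by
    refine (isI f).smooth.comp ?_ ?_
    · exact (contDiff_const.add contDiff_id).contDiffOn
    · intro y hy
      exact hy
  have hpre : IsOpen (M ⁻¹' s) := hso.preimage M.continuous
  have h1 := M.iteratedFDerivWithin_comp_right (x := p) (i := j) hgs hso.uniqueDiffOn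
    hpre.uniqueDiffOn hx (by exact_mod_cast le_top)
  rw [iteratedFDerivWithin_of_isOpen j hpre hx, iteratedFDerivWithin_of_isOpen j hso hx] at h1
  have h2 : (g ∘ M) = (fun p' => (f : E → Fv) (q0 + M p')) := rfl
  rw [h2] at h1
  rw [h1]
  refine (ContinuousMultilinearMap.norm_compContinuousLinearMap_le _ _).trans ?_
  rw [iteratedFDeriv_comp_add_left]
  simp

theorem slicedecay_coord (f : Isp) (j : ℕ) (q0 : E) (M : (ℝ × ℝ) →L[ℝ] E) (p : ℝ × ℝ)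
    (hx : q0 + M p ∈ Om) (c : ℝ) (hc : 0 ≤ c) (a b : Fin 2) (k : Fin 4) :
    ‖iteratedFDeriv ℝ j (fun p' => (c : ℂ) * (f : E → Fv) (q0 + M p') a b k) p‖ ≤
      c * (‖iteratedFDeriv ℝ j (f : E → Fv) (q0 + M p)‖ * ‖M‖ ^ j) := by
  set F : ℝ × ℝ → Fv := fun p' => (f : E → Fv) (q0 + M p') with hF
  have hFs : ContDiffAt ℝ ∞ F p := by
    have h1 : ContDiffAt ℝ ∞ (f : E → Fv) (q0 + M p) := f.contDiffAt _ hx
    exact h1.comp p (contDiffAt_const.add M.contDiff.contDiffAt)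
  let L0 : Fv →L[ℝ] ℂ := ((ContinuousLinearMap.proj (R := ℝ) (φ := fun _ : Fin 4 => ℂ) k).comp
    (ContinuousLinearMap.proj (R := ℝ) (φ := fun _ : Fin 2 => Fin 4 → ℂ) b)).comp
    (ContinuousLinearMap.proj (R := ℝ) (φ := fun _ : Fin 2 => Fin 2 → Fin 4 → ℂ) a)
  let L : Fv →L[ℝ] ℂ := c • L0
  have hL0 : ∀ v : Fv, L0 v = v a b k := fun v => rfl
  have hL : ∀ v : Fv, L v = (c : ℂ) * v a b k := fun v => by
    change c • (v a b k) = _
    rw [Complex.real_smul]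
  have hLn : ‖L‖ ≤ c := by
    refine ContinuousLinearMap.opNorm_le_bound _ hc fun v => ?_
    rw [hL, norm_mul, Complex.norm_real, Real.norm_eq_abs, abs_of_nonneg hc]
    refine mul_le_mul_of_nonneg_left ?_ hc
    exact ((norm_le_pi_norm (v a b) k).trans (norm_le_pi_norm (v a) b)).trans (norm_le_pi_norm v a)
  have h2 := L.norm_iteratedFDeriv_comp_left (n := j) hFs (by exact_mod_cast le_top)
  have h3 : (L ∘ F) = (fun p' => (c : ℂ) * (f : E → Fv) (q0 + M p') a b k) := by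
    funext p'
    exact hL _
  rw [h3] at h2
  refine h2.trans ?_
  refine mul_le_mul hLn (slicedecay_comp f j q0 M p hx) (norm_nonneg _) hc

/-- The linear part. -/
def slicedecay_M (c : ℝ) : (ℝ × ℝ) →L[ℝ] E :=
  LinearMap.mkContinuous
    { toFun := fun p => ![![0, 0, 0, 0], ![0, c * p.1, c * p.2, 0]]
      map_add' := by
        intro p q
        funext a i
        fin_cases a <;> fin_cases i <;> simp <;> ring
      map_smul' := by
        intro m p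
        funext a i
        fin_cases a <;> fin_cases i <;> simp <;> ring } |c| (by
    intro p
    change ‖(![![0, 0, 0, 0], ![0, c * p.1, c * p.2, 0]] : E)‖ ≤ _
    rw [pi_norm_le_iff_of_nonneg (by positivity)]
    intro a
    rw [pi_norm_le_iff_of_nonneg (by positivity)]
    intro i
    have h1 : |p.1| ≤ ‖p‖ := norm_fst_le p
    have h2 : |p.2| ≤ ‖p‖ := norm_snd_le p
    fin_cases a <;> fin_cases i <;> simp <;>
      first | positivity | exact mul_le_mul_of_nonneg_left (by assumption) (abs_nonneg _))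

theorem slicedecay_M_app (c : ℝ) (p : ℝ × ℝ) :
    slicedecay_M c p = ![![0, 0, 0, 0], ![0, c * p.1, c * p.2, 0]] := rfl

theorem slicedecay_M_norm (c : ℝ) (hc : 0 ≤ c) : ‖slicedecay_M c‖ ≤ c := by
  refine ContinuousLinearMap.opNorm_le_bound _ hc fun p => ?_
  rw [slicedecay_M_app]
  rw [pi_norm_le_iff_of_nonneg (by positivity)]
  intro a
  rw [pi_norm_le_iff_of_nonneg (by positivity)]
  intro i
  have h1 : |p.1| ≤ ‖p‖ := norm_fst_le p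
  have h2 : |p.2| ≤ ‖p‖ := norm_snd_le p
  have hc' : |c| = c := abs_of_nonneg hc
  fin_cases a <;> fin_cases i <;> simp [hc'] <;>
    first | positivity | exact mul_le_mul_of_nonneg_left (by assumption) hc

/-- The base point. -/
def slicedecay_q (t c : ℝ) : E := ![![1, 0, t, 0], ![0, 0, 0, c]]

theorem slicedecay_qM (t c : ℝ) (p : ℝ × ℝ) :
    slicedecay_q t c + slicedecay_M c p = rmul (pt t p) !![1, 0; 0, c] := by
  funext a i
  rw [slicedecay_M_app]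
  fin_cases a <;> fin_cases i <;> simp [slicedecay_q, rmul_app, pt]

theorem slicedecay_cov (f : Isp) (t r : ℝ) (hr : 0 < r) (p : ℝ × ℝ) (a b : Fin 2) (k : Fin 4) :
    f (pt t p) a b k = (((r ^ 3)⁻¹ * r ^ (a : ℕ) * r ^ (b : ℕ) : ℝ) : ℂ) *
      (f : E → Fv) (slicedecay_q t r⁻¹ + slicedecay_M r⁻¹ p) a b k := by
  rw [slicedecay_qM]
  have hd : (!![1, 0; 0, r⁻¹] : Mat2).det = r⁻¹ := by simp [Matrix.det_fin_two]
  have hd0 : (!![1, 0; 0, r⁻¹] : Mat2).det ≠ 0 := by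
    rw [hd]
    exact inv_ne_zero hr.ne'
  rw [(isI f).cov _ _ hd0]
  unfold rho
  rw [hd]
  have hrc : (r : ℂ) ≠ 0 := by exact_mod_cast hr.ne'
  fin_cases a <;> fin_cases b <;> simp [Fin.sum_univ_two] <;> field_simp

theorem slicedecay_normx (t c : ℝ) (p : ℝ × ℝ) (hc : 0 ≤ c) (h0 : c ≤ 1) (h1 : |c * p.1| ≤ 1)
    (h2 : |c * p.2| ≤ 1) : ‖slicedecay_q t c + slicedecay_M c p‖ ≤ 1 + |t| := by
  have ht : 0 ≤ |t| := abs_nonneg t
  have hc' : |c| = c := abs_of_nonneg hc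
  rw [slicedecay_M_app]
  rw [pi_norm_le_iff_of_nonneg (by positivity)]
  intro a
  rw [pi_norm_le_iff_of_nonneg (by positivity)]
  intro i
  rw [abs_mul, hc'] at h1 h2
  fin_cases a <;> fin_cases i <;> simp [slicedecay_q, hc'] <;> linarith

theorem slicedecay_exp (r n : ℝ) (hn : 0 ≤ n) (hr : 0 < r) (h : 1 + n ≤ 2 * r) (j : ℕ)
    (a b : Fin 2) :
    ((r ^ 3)⁻¹ * r ^ (a : ℕ) * r ^ (b : ℕ)) * (r⁻¹) ^ j ≤
      2 ^ (3 + j) * (1 + n) ^ (-3 + ((a : ℕ) : ℤ) + ((b : ℕ) : ℤ) - j) := by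
  have ha : (a : ℕ) ≤ 1 := by omega
  have hb : (b : ℕ) ≤ 1 := by omega
  obtain ⟨m, hm⟩ : ∃ m : ℕ, m + (a : ℕ) + (b : ℕ) = 3 + j := ⟨3 + j - a - b, by omega⟩
  have e1 : (-3 + ((a : ℕ) : ℤ) + ((b : ℕ) : ℤ) - j) = -(m : ℤ) := by
    have : (m : ℤ) + (a : ℕ) + (b : ℕ) = 3 + j := by exact_mod_cast hm
    linarith
  have e2 : ((r ^ 3)⁻¹ * r ^ (a : ℕ) * r ^ (b : ℕ)) * (r⁻¹) ^ j = (r⁻¹) ^ m := by
    have h3 : r ^ m * r ^ (a : ℕ) * r ^ (b : ℕ) = r ^ 3 * r ^ j := by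
      rw [← pow_add, ← pow_add, ← pow_add, hm]
    have hr' : r ≠ 0 := hr.ne'
    rw [inv_pow, inv_pow]
    field_simp
    linarith [h3]
  rw [e1, e2, zpow_neg, zpow_natCast]
  have h4 : r⁻¹ ≤ 2 * (1 + n)⁻¹ := by
    rw [inv_le_comm₀ hr (by positivity), mul_inv, inv_inv]
    linarith
  calc (r⁻¹) ^ m ≤ (2 * (1 + n)⁻¹) ^ m := pow_le_pow_left₀ (by positivity) h4 m
    _ = 2 ^ m * ((1 + n) ^ m)⁻¹ := by rw [mul_pow, inv_pow]
    _ ≤ 2 ^ (3 + j) * ((1 + n) ^ m)⁻¹ := by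
      refine mul_le_mul_of_nonneg_right ?_ (by positivity)
      exact pow_le_pow_right₀ (by norm_num) (by omega)

theorem slice_decay (j : ℕ) : ∃ C : ℝ, 0 ≤ C ∧
    ∀ (f : Isp) (t : ℝ) (p : ℝ × ℝ) (a b : Fin 2) (k : Fin 4),
    ‖iteratedFDeriv ℝ j (fun p : ℝ × ℝ => f (pt t p) a b k) p‖ ≤
      C * (1 + |t|) ^ (8 + j) * (1 + ‖p‖) ^ (-3 + ((a : ℕ) : ℤ) + ((b : ℕ) : ℤ) - j) * pn j f := by
  refine ⟨32 * 16 ^ 8 * 32 ^ j * 2 ^ (3 + j), by positivity, ?_⟩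
  intro f t p a b k
  set r : ℝ := Real.sqrt (1 + p.1 ^ 2 + p.2 ^ 2) with hr
  have hr2 : r ^ 2 = 1 + p.1 ^ 2 + p.2 ^ 2 := Real.sq_sqrt (by positivity)
  have hr0 : 0 < r := Real.sqrt_pos.2 (by positivity)
  have hn0 : 0 ≤ ‖p‖ := norm_nonneg p
  have hnr : 1 + ‖p‖ ≤ 2 * r := by
    have h1 : ‖p‖ ^ 2 ≤ p.1 ^ 2 + p.2 ^ 2 := by
      rw [Prod.norm_def]
      rcases max_choice ‖p.1‖ ‖p.2‖ with h | h <;> rw [h, Real.norm_eq_abs, sq_abs] <;>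
        nlinarith [sq_nonneg p.1, sq_nonneg p.2]
    have h2 : (1 + ‖p‖) ^ 2 ≤ (2 * r) ^ 2 := by
      rw [mul_pow, hr2]
      nlinarith [sq_nonneg (1 - ‖p‖)]
    exact le_of_sq_le_sq h2 (by positivity)
  have hr1 : 1 ≤ r := by
    refine le_of_sq_le_sq ?_ hr0.le
    rw [hr2]
    nlinarith [sq_nonneg p.1, sq_nonneg p.2]
  have hi1 : r⁻¹ ≤ 1 := inv_le_one_of_one_le₀ hr1
  have hi0 : 0 ≤ r⁻¹ := inv_nonneg.2 hr0.le
  have hp1 : |r⁻¹ * p.1| ≤ 1 := by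
    rw [abs_mul, abs_of_nonneg hi0, inv_mul_le_iff₀ hr0, mul_one]
    refine abs_le_of_sq_le_sq ?_ hr0.le
    rw [hr2]
    nlinarith [sq_nonneg p.1, sq_nonneg p.2]
  have hp2 : |r⁻¹ * p.2| ≤ 1 := by
    rw [abs_mul, abs_of_nonneg hi0, inv_mul_le_iff₀ hr0, mul_one]
    refine abs_le_of_sq_le_sq ?_ hr0.le
    rw [hr2]
    nlinarith [sq_nonneg p.1, sq_nonneg p.2]
  set x : E := slicedecay_q t r⁻¹ + slicedecay_M r⁻¹ p with hx
  have hg : 1 ≤ gram x := by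
    rw [hx, slicedecay_qM, gram_rmul, gram_pt]
    have hd : (!![1, 0; 0, r⁻¹] : Mat2).det = r⁻¹ := by simp [Matrix.det_fin_two]
    rw [hd, inv_pow, ← div_eq_inv_mul, le_div_iff₀ (by positivity), hr2]
    nlinarith [sq_nonneg t, mul_nonneg (sq_nonneg t) (sq_nonneg p.1)]
  have hxO : x ∈ Om := by
    rw [mem_Om_iff]
    linarith
  have hsz : sz x ≤ 16 * (1 + |t|) := by
    have h1 : ‖x‖ ≤ 1 + |t| := slicedecay_normx t r⁻¹ p hi0 hi1 hp1 hp2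
    have h2 : (gram x)⁻¹ ≤ 1 := inv_le_one_of_one_le₀ hg
    have h3 : 0 ≤ (gram x)⁻¹ := inv_nonneg.2 (by linarith)
    have h4 : 0 ≤ ‖x‖ := norm_nonneg x
    have h5 : 0 ≤ |t| := abs_nonneg t
    unfold sz
    calc 4 * (1 + ‖x‖) * (1 + (gram x)⁻¹) ≤ 4 * (1 + (1 + |t|)) * (1 + 1) := by
          gcongr
      _ ≤ 16 * (1 + |t|) := by linarith
  have hsz0 : 0 ≤ sz x := zero_le_one.trans (sz_ge_one x)
  have hfun : (fun p : ℝ × ℝ => f (pt t p) a b k) = fun p' =>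
      (((r ^ 3)⁻¹ * r ^ (a : ℕ) * r ^ (b : ℕ) : ℝ) : ℂ) *
        (f : E → Fv) (slicedecay_q t r⁻¹ + slicedecay_M r⁻¹ p') a b k := by
    funext p'
    exact slicedecay_cov f t r hr0 p' a b k
  rw [hfun]
  have hc0 : 0 ≤ (r ^ 3)⁻¹ * r ^ (a : ℕ) * r ^ (b : ℕ) := by positivity
  have h1 := slicedecay_coord f j (slicedecay_q t r⁻¹) (slicedecay_M r⁻¹) p hxO
    ((r ^ 3)⁻¹ * r ^ (a : ℕ) * r ^ (b : ℕ)) hc0 a b k
  refine h1.trans ?_
  have h2 := deriv_bound f j x hxO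
  have hpn : 0 ≤ pn j f := apply_nonneg _ _
  have h3 : ‖iteratedFDeriv ℝ j (f : E → Fv) x‖ ≤
      32 * (16 * (1 + |t|)) ^ 8 * (2 * (16 * (1 + |t|))) ^ j * pn j f := by
    refine h2.trans ?_
    gcongr
  have h4 : ‖slicedecay_M r⁻¹‖ ^ j ≤ (r⁻¹) ^ j :=
    pow_le_pow_left₀ (norm_nonneg _) (slicedecay_M_norm _ hi0) j
  have h5 := slicedecay_exp r ‖p‖ hn0 hr0 hnr j a b
  have h6 : 0 ≤ 32 * (16 * (1 + |t|)) ^ 8 * (2 * (16 * (1 + |t|))) ^ j * pn j f := by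
    have : 0 ≤ |t| := abs_nonneg t
    positivity
  calc (r ^ 3)⁻¹ * r ^ (a : ℕ) * r ^ (b : ℕ) *
        (‖iteratedFDeriv ℝ j (f : E → Fv) x‖ * ‖slicedecay_M r⁻¹‖ ^ j)
      ≤ (r ^ 3)⁻¹ * r ^ (a : ℕ) * r ^ (b : ℕ) *
        ((32 * (16 * (1 + |t|)) ^ 8 * (2 * (16 * (1 + |t|))) ^ j * pn j f) * (r⁻¹) ^ j) := by
        refine mul_le_mul_of_nonneg_left ?_ hc0
        exact mul_le_mul h3 h4 (by positivity) h6
    _ = ((r ^ 3)⁻¹ * r ^ (a : ℕ) * r ^ (b : ℕ) * (r⁻¹) ^ j) *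
        (32 * (16 * (1 + |t|)) ^ 8 * (2 * (16 * (1 + |t|))) ^ j * pn j f) := by ring
    _ ≤ (2 ^ (3 + j) * (1 + ‖p‖) ^ (-3 + ((a : ℕ) : ℤ) + ((b : ℕ) : ℤ) - j)) *
        (32 * (16 * (1 + |t|)) ^ 8 * (2 * (16 * (1 + |t|))) ^ j * pn j f) :=
        mul_le_mul_of_nonneg_right h5 h6
    _ = 32 * 16 ^ 8 * 32 ^ j * 2 ^ (3 + j) * (1 + |t|) ^ (8 + j) *
        (1 + ‖p‖) ^ (-3 + ((a : ℕ) : ℤ) + ((b : ℕ) : ℤ) - j) * pn j f := by
        have e : (2 * (16 * (1 + |t|))) ^ j = 32 ^ j * (1 + |t|) ^ j := by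
          rw [← mul_pow]
          congr 1
          ring
        rw [e, mul_pow, pow_add (1 + |t|) 8 j]
        ring

end SoCo
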