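import Pool.Agent.H.MP_0f3f77_al.Four2

/-!
The one-dimensional inversion with polynomial factors.

Proof.  Let `κ τ = B2 τ + 2 i B1' τ - B0'' τ`, continuous with compact support.  Integration by parts
(`integral_mul_deriv_eq_deriv_mul_of_integrable`): `u ∫ e^{-iτu} B τ dτ = -i ∫ e^{-iτu} B' τ dτ` for
`B` continuously differentiable with compact support (as `∂_τ e^{-iτu} = -iu e^{-iτu}`).
Hence the inner integral equals `∫ e^{-iτu} κ τ dτ`, and `four1` gives the value `2π κ 0`.
-/

open scoped Topology ContDiff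
open MeasureTheory

noncomputable section

namespace SoCo

/-- Integration by parts against the exponential. -/
theorem star1d_ibp (B : ℝ → ℂ) (h : ContDiff ℝ 1 B) (c : HasCompactSupport B) (u : ℝ) :
    (u : ℂ) * ∫ τ : ℝ, Complex.exp (-(Complex.I * τ * u)) * B τ =
      -Complex.I * ∫ τ : ℝ, Complex.exp (-(Complex.I * τ * u)) * deriv B τ := by
  have he : Continuous (fun τ : ℝ => Complex.exp (-(Complex.I * τ * u))) := by fun_prop
  have hB' : Continuous (deriv B) := h.continuous_deriv le_rfl
  have hu : ∀ τ : ℝ, HasDerivAt (fun τ : ℝ => Complex.exp (-(Complex.I * τ * u)))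
      (Complex.exp (-(Complex.I * τ * u)) * (-(Complex.I * u))) τ := by
    intro τ
    have h1 : HasDerivAt (fun τ : ℝ => -(Complex.I * τ * u)) (-(Complex.I * 1 * u)) τ :=
      ((Complex.ofRealCLM.hasDerivAt.const_mul Complex.I).mul_const (u : ℂ)).neg
    rw [mul_one] at h1
    exact h1.cexp
  have hv : ∀ τ : ℝ, HasDerivAt B (deriv B τ) τ := fun τ =>
    ((h.differentiable (by norm_num)) τ).hasDerivAt
  have key := MeasureTheory.integral_mul_deriv_eq_deriv_mul_of_integrable
    (u := fun τ : ℝ => Complex.exp (-(Complex.I * τ * u))) (v := B)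
    (u' := fun τ : ℝ => Complex.exp (-(Complex.I * τ * u)) * (-(Complex.I * u)))
    (v' := deriv B) (fun τ _ => hu τ) (fun τ _ => hv τ)
    ((he.mul hB').integrable_of_hasCompactSupport c.deriv.mul_left)
    (((he.mul continuous_const).mul h.continuous).integrable_of_hasCompactSupport c.mul_left)
    ((he.mul h.continuous).integrable_of_hasCompactSupport c.mul_left)
  rw [key]
  have h2 : ∀ τ : ℝ, Complex.exp (-(Complex.I * τ * u)) * (-(Complex.I * u)) * B τ =
      (-(Complex.I * u)) * (Complex.exp (-(Complex.I * τ * u)) * B τ) := fun τ => by ring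
  simp only [h2]
  rw [MeasureTheory.integral_const_mul]
  linear_combination ((u : ℂ) * ∫ τ : ℝ, Complex.exp (-(Complex.I * τ * u)) * B τ) *
    Complex.I_mul_I

theorem star_1d (B0 B1 B2 : ℝ → ℂ) (h0 : ContDiff ℝ 2 B0) (h1 : ContDiff ℝ 1 B1)
    (h2 : Continuous B2) (c0 : HasCompactSupport B0) (c1 : HasCompactSupport B1)
    (c2 : HasCompactSupport B2)
    (hk : Integrable (fun u : ℝ => ∫ τ : ℝ, Complex.exp (-(Complex.I * τ * u)) *
      (B2 τ - 2 * u * B1 τ + (u : ℂ) ^ 2 * B0 τ))) :
    ∫ u : ℝ, (∫ τ : ℝ, Complex.exp (-(Complex.I * τ * u)) *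
      (B2 τ - 2 * u * B1 τ + (u : ℂ) ^ 2 * B0 τ)) =
      2 * Real.pi * (B2 0 + 2 * Complex.I * deriv B1 0 - deriv (deriv B0) 0) := by
  have he : ∀ u : ℝ, Continuous (fun τ : ℝ => Complex.exp (-(Complex.I * τ * u))) := by
    intro u
    fun_prop
  have h0' : ContDiff ℝ 1 (deriv B0) := by
    have h3 : ContDiff ℝ (1 + 1) B0 := by
      norm_num
      exact h0
    exact (contDiff_succ_iff_deriv.mp h3).2.2
  have h0'' : Continuous (deriv (deriv B0)) := h0'.continuous_deriv le_rfl
  have h1' : Continuous (deriv B1) := h1.continuous_deriv le_rfl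
  set κ : ℝ → ℂ := fun τ => B2 τ + 2 * Complex.I * deriv B1 τ - deriv (deriv B0) τ with hκ
  have hκc : Continuous κ := by fun_prop
  have hκs : HasCompactSupport κ :=
    (c2.add (c1.deriv.mul_left)).sub c0.deriv.deriv
  have hin : ∀ u : ℝ, (∫ τ : ℝ, Complex.exp (-(Complex.I * τ * u)) *
      (B2 τ - 2 * u * B1 τ + (u : ℂ) ^ 2 * B0 τ)) =
      ∫ τ : ℝ, Complex.exp (-(Complex.I * τ * u)) * κ τ := by
    intro u
    have i2 : Integrable (fun τ : ℝ => Complex.exp (-(Complex.I * τ * u)) * B2 τ) :=
      ((he u).mul h2).integrable_of_hasCompactSupport c2.mul_left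
    have i1 : Integrable (fun τ : ℝ => Complex.exp (-(Complex.I * τ * u)) * B1 τ) :=
      ((he u).mul h1.continuous).integrable_of_hasCompactSupport c1.mul_left
    have i0 : Integrable (fun τ : ℝ => Complex.exp (-(Complex.I * τ * u)) * B0 τ) :=
      ((he u).mul h0.continuous).integrable_of_hasCompactSupport c0.mul_left
    have i1' : Integrable (fun τ : ℝ => Complex.exp (-(Complex.I * τ * u)) * deriv B1 τ) :=
      ((he u).mul h1').integrable_of_hasCompactSupport c1.deriv.mul_left
    have i0' : Integrable (fun τ : ℝ => Complex.exp (-(Complex.I * τ * u)) *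
        deriv (deriv B0) τ) :=
      ((he u).mul h0'').integrable_of_hasCompactSupport c0.deriv.deriv.mul_left
    have e1 : ∀ τ : ℝ, Complex.exp (-(Complex.I * τ * u)) *
        (B2 τ - 2 * u * B1 τ + (u : ℂ) ^ 2 * B0 τ) =
        Complex.exp (-(Complex.I * τ * u)) * B2 τ -
          (2 * u) * (Complex.exp (-(Complex.I * τ * u)) * B1 τ) +
          (u : ℂ) ^ 2 * (Complex.exp (-(Complex.I * τ * u)) * B0 τ) := fun τ => by ring
    have e2 : ∀ τ : ℝ, Complex.exp (-(Complex.I * τ * u)) * κ τ =
        Complex.exp (-(Complex.I * τ * u)) * B2 τ +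
          (2 * Complex.I) * (Complex.exp (-(Complex.I * τ * u)) * deriv B1 τ) -
          Complex.exp (-(Complex.I * τ * u)) * deriv (deriv B0) τ := fun τ => by
      rw [hκ]
      ring
    simp only [e1, e2]
    have a1 := integral_add (f := fun τ : ℝ => Complex.exp (-(Complex.I * τ * u)) * B2 τ -
      (2 * u) * (Complex.exp (-(Complex.I * τ * u)) * B1 τ))
      (g := fun τ : ℝ => (u : ℂ) ^ 2 * (Complex.exp (-(Complex.I * τ * u)) * B0 τ))
      (i2.sub (i1.const_mul _)) (i0.const_mul _)
    have a2 := integral_sub (f := fun τ : ℝ => Complex.exp (-(Complex.I * τ * u)) * B2 τ)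
      (g := fun τ : ℝ => (2 * u) * (Complex.exp (-(Complex.I * τ * u)) * B1 τ))
      i2 (i1.const_mul _)
    have a3 := integral_sub (f := fun τ : ℝ => Complex.exp (-(Complex.I * τ * u)) * B2 τ +
      (2 * Complex.I) * (Complex.exp (-(Complex.I * τ * u)) * deriv B1 τ))
      (g := fun τ : ℝ => Complex.exp (-(Complex.I * τ * u)) * deriv (deriv B0) τ)
      (i2.add (i1'.const_mul _)) i0'
    have a4 := integral_add (f := fun τ : ℝ => Complex.exp (-(Complex.I * τ * u)) * B2 τ)
      (g := fun τ : ℝ => (2 * Complex.I) * (Complex.exp (-(Complex.I * τ * u)) * deriv B1 τ))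
      i2 (i1'.const_mul _)
    rw [a1, a2, a3, a4, integral_const_mul, integral_const_mul, integral_const_mul]
    have k1 := star1d_ibp B1 h1 c1 u
    have k0 := star1d_ibp B0 (h0.of_le (by norm_num)) c0 u
    have k0' := star1d_ibp (deriv B0) h0' c0.deriv u
    linear_combination (-2) * k1 + (u : ℂ) * k0 + (-Complex.I) * k0' +
      (∫ τ : ℝ, Complex.exp (-(Complex.I * τ * u)) * deriv (deriv B0) τ) * Complex.I_mul_I
  have hk' : Integrable (fun u : ℝ => ∫ τ : ℝ, Complex.exp (-(Complex.I * τ * u)) * κ τ) := by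
    refine hk.congr (Filter.Eventually.of_forall fun u => ?_)
    exact hin u
  have h5 := four1 κ hκc (hκc.integrable_of_hasCompactSupport hκs) hk'
  simp only [hin]
  rw [h5]

end SoCo
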