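import Pool.Agent.H.MP_0f3f77_al.QPar
import Pool.Agent.H.MP_0f3f77_al.QUp
import Pool.Agent.H.MP_0f3f77_al.QLD
import Pool.Agent.H.MP_0f3f77_al.FourDense
import Pool.Agent.H.MP_0f3f77_al.FamClass

/-!
The nine closed subspaces of `Isp`.

`isClosed_KK`: an intersection over `θ` of the kernels of the continuous functionals
`T ∘ actL (rot θ)`.  `isClosed_Sp`: finite intersections.  The rest: `fin_cases`, `simp`.
-/

open scoped Topology ContDiff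
open MeasureTheory

noncomputable section

namespace SoCo

/-- The submodule of all `f` with `T (act (rot θ) f) = 0` for all `θ`. -/
def KK (T : Isp →L[ℂ] ℂ) : Submodule ℂ Isp where
  carrier := {f | ∀ θ, T (act (rot θ) f) = 0}
  add_mem' := by intro a b ha hb θ; simp [map_add, ha θ, hb θ]
  zero_mem' := by intro θ; simp
  smul_mem' := by intro c a ha θ; simp [map_smul, ha θ]

theorem mem_KK (T : Isp →L[ℂ] ℂ) (f : Isp) : f ∈ KK T ↔ ∀ θ, T (act (rot θ) f) = 0 := Iff.rfl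

theorem isClosed_KK (T : Isp →L[ℂ] ℂ) : IsClosed (KK T : Set Isp) := by
  have h : (KK T : Set Isp) = ⋂ θ : ℝ, {f : Isp | T (actL (rot θ) f) = 0} := by
    ext f
    simp only [SetLike.mem_coe, mem_KK, Set.mem_iInter]
    exact Iff.rfl
  rw [h]
  refine isClosed_iInter fun θ => ?_
  exact isClosed_eq (T.continuous.comp (actL (rot θ)).continuous) continuous_const

/-- The nine subspaces. -/
def Sp (ν : ℝ) : Fin 9 → Submodule ℂ Isp
  | 0 => KK (qv ν 0) ⊓ KK (qv ν 1) ⊓ KK (qv ν 2) ⊓ KK (qv ν 3) ⊓ KK (qv ν 4) ⊓ KK (qv ν 5)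
  | 1 => KK (qv ν 0) ⊓ KK (qv ν 1) ⊓ KK (qv ν 2) ⊓ KK (qv ν 3) ⊓ KK (qv ν 4)
  | 2 => KK (qv ν 0) ⊓ KK (qv ν 1) ⊓ KK (qv ν 2) ⊓ KK (qv ν 3)
  | 3 => KK (qv ν 0) ⊓ KK (qv ν 1) ⊓ KK (qv ν 2) ⊓ KK (lD ν)
  | 4 => KK (qv ν 0) ⊓ KK (qv ν 1) ⊓ KK (qv ν 2)
  | 5 => KK (qv ν 0) ⊓ KK (qv ν 1) ⊓ KK (lD ν)
  | 6 => KK (qv ν 0) ⊓ KK (qv ν 1)
  | 7 => KK (qv ν 0)
  | 8 => ⊤

theorem isClosed_Sp (ν : ℝ) (i : Fin 9) : IsClosed (Sp ν i : Set Isp) := by
  have hi : ∀ S S' : Submodule ℂ Isp, IsClosed (S : Set Isp) → IsClosed (S' : Set Isp) →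
      IsClosed ((S ⊓ S' : Submodule ℂ Isp) : Set Isp) := by
    intro S S' h h'
    rw [Submodule.coe_inf]
    exact h.inter h'
  have hk := isClosed_KK
  fin_cases i
  · exact hi _ _ (hi _ _ (hi _ _ (hi _ _ (hi _ _ (hk _) (hk _)) (hk _)) (hk _)) (hk _)) (hk _)
  · exact hi _ _ (hi _ _ (hi _ _ (hi _ _ (hk _) (hk _)) (hk _)) (hk _)) (hk _)
  · exact hi _ _ (hi _ _ (hi _ _ (hk _) (hk _)) (hk _)) (hk _)
  · exact hi _ _ (hi _ _ (hi _ _ (hk _) (hk _)) (hk _)) (hk _)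
  · exact hi _ _ (hi _ _ (hk _) (hk _)) (hk _)
  · exact hi _ _ (hi _ _ (hk _) (hk _)) (hk _)
  · exact hi _ _ (hk _) (hk _)
  · exact hk _
  · exact isClosed_univ

/-- The elements of `M_3`, embedded in `GL_4`. -/
def IsM3 (g : GL (Fin 4) ℝ) : Prop :=
  ∀ i j, (i = 2 ∨ i = 3 ∨ j = 3) → (g : Mat) i j = (1 : Mat) i j

/-- Invariance under `M_3`. -/
def M3inv (S : Submodule ℂ Isp) : Prop := ∀ g, IsM3 g → ∀ f ∈ S, act g f ∈ S

theorem isM3_rot (θ : ℝ) : IsM3 (rot θ) := by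
  intro i j h
  change rotM θ i j = (1 : Mat) i j
  fin_cases i <;> fin_cases j <;> simp_all [rotM]

theorem isM3_vn (p : ℝ × ℝ) : IsM3 (vn p) := by
  intro i j h
  change vnM p i j = (1 : Mat) i j
  fin_cases i <;> fin_cases j <;> simp_all [vnM]

theorem isM3_dg (s t : ℝ) (hs : s ≠ 0) (ht : t ≠ 0) : IsM3 (dg s t hs ht) := by
  intro i j h
  change dgM s t i j = (1 : Mat) i j
  fin_cases i <;> fin_cases j <;> simp_all [dgM]

theorem isM3_up (r : ℝ) : IsM3 (up r) := by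
  intro i j h
  change upM r i j = (1 : Mat) i j
  fin_cases i <;> fin_cases j <;> simp_all [upM]

end SoCo
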