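import Pool.Agent.H.MP_0f3f77_al.StarMain
import Pool.Agent.H.MP_0f3f77_al.GtRot
import Pool.Agent.H.MP_0f3f77_al.Subs

/-!
`Gt ν b (D8 f) = 0` for `f ∈ N = Sp ν 0`, and its consequences.

`star_all`, proof.  Let `G = Gt ν b (D8 f)`.  For every `θ`, `act (rot θ) G = Gt ν b' (D8 f')` with
`f' = act (rot θ) f` (`Gt_rot`, `D8_rot`), and the six functionals vanish at `f'`; so by
`star_slice` `act (rot θ) G (pt l w) a c i = 0` for `i = 1, 2`, hence for `i = 0` and `i = 3` by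
the annihilation property at `pt l w` (`x_0 = (1,0,l,0)`: `v_0 = -l v_2`;
`x_1 = (0, y, z, 1)`: `v_3 = -y v_1 - z v_2`).  So `G` vanishes at `lmul (rotM (-θ)) (pt l w)` and,
by covariance, at `rmul (lmul (rotM (-θ)) (pt l w)) A` for every invertible `A`.
Every `x ∈ Om` with `m(x) := x 1 3 * x 0 0 - x 0 3 * x 1 0 ≠ 0` is of this form: if
`λ = x_1(3) x_0 - x_0(3) x_1` (fourth coordinate `0`, first coordinate `m(x) ≠ 0`) and `μ` is
a combination of `x_0, x_1` with fourth coordinate `1`, choose `θ` and `ρ > 0` with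
`rot θ (λ_0, λ_1) = (ρ, 0)`, replace `λ` by `λ/ρ` and subtract a multiple of `λ` from `μ`.
(The condition with `λ_1` in place of `λ_0` is not needed.)
The set `{x ∈ Om | m(x) ≠ 0}` is dense in `Om`: for `x ∈ Om` with `m(x) = 0` consider
`x + t (e_0, e_3)`; `m` of it is `t^2 + t (x_0(0) + x_1(3)) + 0`, nonzero for small `t ≠ 0`.
`G` is continuous on `Om`, so `G = 0` on `Om`, and `G = 0` outside.

`N_eq` (the space `N ∩ W` is the span of all `α v - ψ(α) v`), proof: `f ∈ Sp 0 ⊓ W`, `b` from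
`exists_bump`.  `F = D8 f ∈ W`.  `Gt ν b F = 0` by `star_all`, so `gt_cong` for `F` gives
`F ∈ (V - ψ) W := D03 W + D13 W + (D23 - iν) W`; and
`D8 f - (iν)^8 f = (D23 - iν) (∑_{j<8} (iν)^(7-j) D23^j f)`, so `(iν)^8 f ∈ (V - ψ) W`.
`W` is invariant under `D23` (`opg_mem`).

`Rop`: `Gt ν b ∘ D8`; `q (Rop f) = (2π)^3 (iν)^8 q f` by `gt_cong` with `W = ⊤`, `q_D23`, `q_D13`,
`q_D03` and `q_D8`.
-/

open scoped Topology ContDiff
open MeasureTheory

noncomputable section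

namespace SoCo

theorem starall_vanish (H : Isp) (l : ℝ) (w : ℝ × ℝ)
    (h : ∀ (a c : Fin 2) (i : Fin 4), (i = 1 ∨ i = 2) → H (pt l w) a c i = 0) :
    H (pt l w) = 0 := by
  funext a c i
  have h1 := h a c 1 (Or.inl rfl)
  have h2 := h a c 2 (Or.inr rfl)
  have e0 := (isI H).ann (pt l w) a c 0
  have e1 := (isI H).ann (pt l w) a c 1
  rw [Fin.sum_univ_four, h1, h2] at e0 e1
  simp [pt] at e0 e1
  fin_cases i
  · exact e0
  · exact h1
  · exact h2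
  · exact e1

theorem starall_solve (p0 p1 q0 q1 r0 r1 : ℝ) (hd : p0 * q1 - q0 * p1 ≠ 0) :
    ∃ l z : ℝ, p0 * l + q0 * z = r0 ∧ p1 * l + q1 * z = r1 ∧
      l * (p0 * q1 - q0 * p1) = r0 * q1 - r1 * q0 := by
  set d := p0 * q1 - q0 * p1 with hdd
  refine ⟨(r0 * q1 - r1 * q0) / d, (p0 * r1 - p1 * r0) / d, ?_, ?_, ?_⟩
  · rw [← mul_div_assoc, ← mul_div_assoc, ← add_div, div_eq_iff hd, hdd]
    ring
  · rw [← mul_div_assoc, ← mul_div_assoc, ← add_div, div_eq_iff hd, hdd]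
    ring
  · rw [div_mul_cancel₀ _ hd]

theorem starall_normal (x : E) (hm : x 1 3 * x 0 0 - x 0 3 * x 1 0 ≠ 0) :
    ∃ (θ l : ℝ) (w : ℝ × ℝ) (A : Mat2), A.det ≠ 0 ∧
      lmul (rotM θ) x = rmul (pt l w) A := by
  set z : ℂ := ⟨x 1 3 * x 0 0 - x 0 3 * x 1 0, -(x 1 3 * x 0 1 - x 0 3 * x 1 1)⟩ with hz
  have hz0 : z ≠ 0 := by
    intro h
    have := congrArg Complex.re h
    exact hm this
  have hn : ‖z‖ ≠ 0 := norm_ne_zero_iff.mpr hz0
  have hcos : Real.cos z.arg = (x 1 3 * x 0 0 - x 0 3 * x 1 0) / ‖z‖ := Complex.cos_arg hz0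
  have hsin : Real.sin z.arg = -(x 1 3 * x 0 1 - x 0 3 * x 1 1) / ‖z‖ := Complex.sin_arg z
  have hsq : ‖z‖ ^ 2 = (x 1 3 * x 0 0 - x 0 3 * x 1 0) ^ 2 +
      (x 1 3 * x 0 1 - x 0 3 * x 1 1) ^ 2 := by
    rw [Complex.sq_norm, Complex.normSq_apply]
    simp only [hz]
    ring
  set c := Real.cos z.arg with hc
  set s := Real.sin z.arg with hs
  -- the rotated coordinates
  have hd : (c * x 0 0 - s * x 0 1) * x 1 3 - x 0 3 * (c * x 1 0 - s * x 1 1) = ‖z‖ := by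
    rw [hcos, hsin]
    field_simp
    rw [hsq]
    ring
  have hd' : (c * x 0 0 - s * x 0 1) * x 1 3 - x 0 3 * (c * x 1 0 - s * x 1 1) ≠ 0 := by
    rw [hd]; exact hn
  have hl1 : (s * x 0 0 + c * x 0 1) * x 1 3 - (s * x 1 0 + c * x 1 1) * x 0 3 = 0 := by
    rw [hcos, hsin]
    field_simp
    ring
  obtain ⟨l, z', a0, a1, -⟩ := starall_solve (c * x 0 0 - s * x 0 1) (c * x 1 0 - s * x 1 1)
    (x 0 3) (x 1 3) (x 0 2) (x 1 2) hd'
  obtain ⟨α, y, b0, b1, b2⟩ := starall_solve (c * x 0 0 - s * x 0 1) (c * x 1 0 - s * x 1 1)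
    (x 0 3) (x 1 3) (s * x 0 0 + c * x 0 1) (s * x 1 0 + c * x 1 1) hd'
  rw [hl1] at b2
  have hα : α = 0 := (mul_eq_zero.mp b2).resolve_right hd'
  rw [hα, mul_zero, zero_add] at b0 b1
  refine ⟨z.arg, l, (y, z'), !![c * x 0 0 - s * x 0 1, c * x 1 0 - s * x 1 1; x 0 3, x 1 3],
    ?_, ?_⟩
  · rw [Matrix.det_fin_two_of]
    intro h
    apply hd'
    linarith
  · funext a i
    simp only [lmul, rmul, Fin.sum_univ_four, Fin.sum_univ_two, rotM, ← hc, ← hs, pt]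
    fin_cases a <;> fin_cases i <;> simp
    · ring
    · exact b0.symm
    · exact a0.symm
    · ring
    · exact b1.symm
    · exact a1.symm

theorem starall_zero_of_m (G : Isp)
    (h : ∀ (θ l : ℝ) (w : ℝ × ℝ), act (rot θ) G (pt l w) = 0)
    (x : E) (hm : x 1 3 * x 0 0 - x 0 3 * x 1 0 ≠ 0) : G x = 0 := by
  obtain ⟨θ, l, w, A, hA, hx⟩ := starall_normal x hm
  have h1 : act (rot θ) G (lmul (rotM θ) x) = 0 := by
    rw [hx, (isI (act (rot θ) G)).cov _ A hA, h θ l w]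
    funext a b i
    simp [rho]
  have h2 : G = act (rot (-θ)) (act (rot θ) G) := by
    rw [← act_mul, ← rot_add, neg_add_cancel, rot_zero, act_one]
  rw [h2]
  funext a b i
  rw [act_app]
  have h3 : (((rot (-θ))⁻¹ : GL (Fin 4) ℝ) : Mat) = rotM θ := by
    change rotM (- -θ) = rotM θ
    rw [neg_neg]
  rw [h3, h1]
  simp

theorem starall_zero (G : Isp)
    (h : ∀ (θ l : ℝ) (w : ℝ × ℝ), act (rot θ) G (pt l w) = 0) : G = 0 := by
  apply Isp.ext
  suffices hx : ∀ x, G x = 0 by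
    intro x a b i
    rw [hx x]
    rfl
  intro x
  by_cases hxO : x ∈ Om
  swap
  · exact (isI G).zero_off x hxO
  by_cases hm : x 1 3 * x 0 0 - x 0 3 * x 1 0 ≠ 0
  · exact starall_zero_of_m G h x hm
  push Not at hm
  -- the curve
  let y : ℝ → E := fun t => x + t • ![![1, 0, 0, 0], ![0, 0, 0, 1]]
  have hy : Continuous y := by fun_prop
  have hy0 : y 0 = x := by
    change x + (0 : ℝ) • _ = x
    rw [zero_smul, add_zero]
  have hc : ContinuousAt (fun t => G (y t)) 0 := by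
    have h1 : ContinuousAt (G : E → Fv) (y 0) := by
      rw [hy0]
      exact (G.contDiffAt x hxO).continuousAt
    exact ContinuousAt.comp (f := y) h1 hy.continuousAt
  have hm2 : ∀ t, (y t) 1 3 * (y t) 0 0 - (y t) 0 3 * (y t) 1 0 =
      t * (t + (x 0 0 + x 1 3)) := by
    intro t
    change (x 1 3 + t * 1) * (x 0 0 + t * 1) - (x 0 3 + t * 0) * (x 1 0 + t * 0) = _
    linear_combination hm
  have hev : ∀ᶠ t in 𝓝[≠] (0 : ℝ), G (y t) = 0 := by
    have h1 : ∀ᶠ t in 𝓝[≠] (0 : ℝ), t ≠ 0 := eventually_mem_nhdsWithin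
    have h2 : ∀ᶠ t in 𝓝[≠] (0 : ℝ), t + (x 0 0 + x 1 3) ≠ 0 := by
      by_cases hs : x 0 0 + x 1 3 = 0
      · filter_upwards [h1] with t ht
        rw [hs, add_zero]
        exact ht
      · have h3 : ContinuousAt (fun t : ℝ => t + (x 0 0 + x 1 3)) 0 := by fun_prop
        have h4 : ∀ᶠ t in 𝓝 (0 : ℝ), t + (x 0 0 + x 1 3) ≠ 0 :=
          h3.eventually_ne (by rwa [zero_add])
        exact h4.filter_mono nhdsWithin_le_nhds
    filter_upwards [h1, h2] with t ht ht2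
    apply starall_zero_of_m G h
    rw [hm2]
    exact mul_ne_zero ht ht2
  have hlim : Filter.Tendsto (fun t => G (y t)) (𝓝[≠] (0 : ℝ)) (𝓝 (G (y 0))) :=
    hc.tendsto.mono_left nhdsWithin_le_nhds
  have hlim2 : Filter.Tendsto (fun t => G (y t)) (𝓝[≠] (0 : ℝ)) (𝓝 (0 : Fv)) :=
    (Filter.tendsto_congr' hev).mpr tendsto_const_nhds
  rw [← hy0]
  exact tendsto_nhds_unique hlim hlim2

theorem star_all (ν : ℝ) (hν : ν ≠ 0) (b : R3 → ℂ) (hb : CB ν b) (f : Isp) (hf : f ∈ Sp ν 0) :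
    Gt ν b (D8 f) = 0 := by
  apply starall_zero
  intro θ l w
  obtain ⟨b', hb', hG⟩ := Gt_rot ν b hb θ
  rw [hG, D8_rot]
  apply starall_vanish
  intro a c i hi
  have hq : ∀ m : Fin 6, qv ν m (act (rot θ) f) = 0 := by
    obtain ⟨⟨⟨⟨⟨h0, h1⟩, h2⟩, h3⟩, h4⟩, h5⟩ := hf
    intro m
    fin_cases m
    · exact h0 θ
    · exact h1 θ
    · exact h2 θ
    · exact h3 θ
    · exact h4 θ
    · exact h5 θ
  refine star_slice ν hν b' hb' (act (rot θ) f) ?_ l w a c i hi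
  rintro k (rfl | rfl)
  · exact ⟨hq 0, hq 2, hq 4⟩
  · exact ⟨hq 1, hq 3, hq 5⟩

end SoCo
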