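import Pool.Agent.H.MP_0f3f77_al.StarPt
import Pool.Agent.H.MP_0f3f77_al.FhDef

/-!
The integral over `(u_2, u_3)` for fixed `u_1`.

`star_fub`, proof.  Fix `u_1`.  Insert `Jt` (`isum_app` after `isum_map` for `actL (un u)`, or
evaluate `act (un u) (Jt ...)` directly): the left side is
`∫_{(u_2,u_3)} ∫_η ex u η * b η * (act (un u) (sact ν η (D8 g))) (pt l w) a b i dη`.
Insert `star_point` and `star_exp` (for `η ∈ tsupport b`).  Interchange the integrals (Fubini,
`MeasureTheory.integral_integral_swap`): the integrand is continuous and bounded by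
`C 1_{tsupport b}(η) (1 + |u_1|)^2 (1 + ‖(Y, Z)‖)^(-9)` (`D8_decay`, `|τ|` bounded), and for `η` in
the compact set `tsupport b` the affine map `(u_2, u_3) ↦ (Y, Z)` satisfies
`1 + ‖(u_2,u_3)‖ ≤ C' (1 + |u_1|) (1 + ‖(Y, Z)‖)`, so the integrand is dominated by
`C'' 1_{tsupport b}(η) (1 + ‖(u_2,u_3)‖)^(-3)`.
Inner integral for fixed `η`: the affine substitution `(u_2, u_3) ↦ (Y, Z)` with
`Y = w_1 - u_2`, `Z = (η_2 Y + η_3 (w_2 - u_3 + l u_1)) / ν` has Jacobian `|η_3 / ν|`; first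
substitute `u_3` for fixed `u_2`, then `u_2` (`integral_comp_...`), giving
`|ν/η_3| e^{-iτ u_1} e^{-i(η_2 w_1 + η_3 w_2)} ∑_k S_{ik}(η) shear u_1 (Fh ν g · · k (τ/ν)) a b`.
Finally write the integral over `η = (η_1, η_2, η_3)` as the iterated integral over `η_1` inside,
substitute `η_1 = τ - l η_3` and move the integral over `τ` outside (Fubini again; everything is
continuous with compact support in `η`).
-/

open scoped Topology ContDiff
open MeasureTheory

noncomputable section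

namespace SoCo

/-- The coefficient functions of `τ`. -/
def Ac (ν : ℝ) (b : R3 → ℂ) (l : ℝ) (w : ℝ × ℝ) (i k : Fin 4) (τ : ℝ) : ℂ :=
  ∫ ζ : ℝ × ℝ, b (τ - l * ζ.2, ζ.1, ζ.2) * ((|ν / ζ.2| * Sc2 ν i k (0, ζ.1, ζ.2) : ℝ) : ℂ) *
    Complex.exp (-(Complex.I * (ζ.1 * w.1 + ζ.2 * w.2)))

/-- The vector of the functions `Fh`. -/
def Fhv (ν : ℝ) (g : Isp) (t : ℝ) : Fv := fun a b k => Fh ν g a b k t

end SoCo
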