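import Pool.Agent.H.MP_0f3f77_al.StarDefs

/-!
Integrability in `(u', η)` for fixed `u_1`.

Proof.  The function is continuous in `(u', η)`: it vanishes for `η` outside `tsupport b ⊆ UU ν`,
and on the open set `η ∈ UU ν` it is continuous by `star_point` (continuity of
`(t, p) ↦ D8 g (pt t p) a c k`, `smooth_slice`), so it is continuous everywhere.
Bound for `η ∈ K = tsupport b` (compact in `UU ν`, so `|η|` is bounded and `|η_3|` bounded below):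
by `star_point` and `D8_decay` it is at most `C (1 + |u_1|)^2 (1 + ‖(Y, Z)‖)^(-9)`, with
`u_2 = w_1 - Y`, `u_3 = w_2 + l u_1 - (ν Z - η_2 Y)/η_3`, so
`1 + ‖u'‖ ≤ C' (1 + |u_1|) (1 + ‖(Y, Z)‖)`; hence the bound
`C'' 1_K(η) (1 + ‖u'‖)^(-3)` with `C''` depending on `u_1`, which is integrable on the product
(`integrable_one_add_norm` for the plane, `K` has finite measure; `Integrable.mul_prod` or
`Integrable.prod_mul`, `Integrable.mono'`).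
-/

open scoped Topology ContDiff
open MeasureTheory

noncomputable section

namespace SoCo

theorem starint_lin (ν : ℝ) (b : R3 → ℂ) (hb : CB ν b) (l : ℝ) (w : ℝ × ℝ) (u1 : ℝ) :
    ∃ C : ℝ, 0 ≤ C ∧ ∀ η ∈ tsupport b, ∀ u' : ℝ × ℝ, 1 + ‖u'‖ ≤
      C * (1 + ‖((w.1 - u'.1, (η.2.1 * (w.1 - u'.1) + η.2.2 * (w.2 - u'.2 + l * u1)) / ν) :
        ℝ × ℝ)‖) := by
  have hS : IsCompact (tsupport b) := hb.cs
  obtain ⟨M, hM⟩ := hS.exists_bound_of_continuousOn (f := fun η : R3 => η.2.1)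
    (by fun_prop)
  obtain ⟨M', hM'⟩ := hS.exists_bound_of_continuousOn (f := fun η : R3 => (η.2.2)⁻¹)
    (ContinuousOn.inv₀ (by fun_prop) fun η hη => (UU_ne (hb.sub hη)).2)
  by_cases hne : (tsupport b).Nonempty
  swap
  · refine ⟨0, le_rfl, fun η hη => absurd ⟨η, hη⟩ hne⟩
  obtain ⟨η0, hη0⟩ := hne
  have hM0 : 0 ≤ M := (norm_nonneg _).trans (hM η0 hη0)
  have hM0' : 0 ≤ M' := (norm_nonneg _).trans (hM' η0 hη0)
  refine ⟨1 + |w.1| + |w.2| + |l * u1| + (1 + (|ν| + M) * M'), by positivity, ?_⟩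
  intro η hη u'
  obtain ⟨hν, h3⟩ := UU_ne (hb.sub hη)
  obtain ⟨P1, hP1⟩ : ∃ P1, P1 = w.1 - u'.1 := ⟨_, rfl⟩
  obtain ⟨P2, hP2⟩ : ∃ P2, P2 = (η.2.1 * (w.1 - u'.1) + η.2.2 * (w.2 - u'.2 + l * u1)) / ν :=
    ⟨_, rfl⟩
  rw [← hP2, ← hP1]
  have e1 : u'.1 = w.1 - P1 := by rw [hP1]; ring
  have e2 : u'.2 = w.2 + l * u1 - (ν * P2 - η.2.1 * P1) * (η.2.2)⁻¹ := by
    rw [hP2, hP1]
    field_simp
    ring
  have n1 : |P1| ≤ ‖((P1, P2) : ℝ × ℝ)‖ := norm_fst_le (P1, P2)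
  have n2 : |P2| ≤ ‖((P1, P2) : ℝ × ℝ)‖ := norm_snd_le (P1, P2)
  obtain ⟨R, hR⟩ : ∃ R, R = ‖((P1, P2) : ℝ × ℝ)‖ := ⟨_, rfl⟩
  rw [← hR] at n1 n2 ⊢
  have hR0 : 0 ≤ R := (abs_nonneg _).trans n1
  have a1 : |u'.1| ≤ |w.1| + R := by
    rw [e1]
    exact (abs_sub _ _).trans (by linarith)
  have hη1 : |η.2.1| ≤ M := hM η hη
  have hη2 : |(η.2.2)⁻¹| ≤ M' := hM' η hη
  have a2 : |(ν * P2 - η.2.1 * P1) * (η.2.2)⁻¹| ≤ ((|ν| + M) * R) * M' := by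
    rw [abs_mul]
    refine mul_le_mul ?_ hη2 (abs_nonneg _) (by positivity)
    refine (abs_sub _ _).trans ?_
    rw [abs_mul, abs_mul, add_mul]
    exact add_le_add (mul_le_mul_of_nonneg_left n2 (abs_nonneg _))
      (mul_le_mul hη1 n1 (abs_nonneg _) hM0)
  have a3 : |u'.2| ≤ |w.2| + |l * u1| + ((|ν| + M) * R) * M' := by
    rw [e2]
    refine (abs_sub _ _).trans (add_le_add (abs_add_le _ _) a2)
  have a4 : ‖u'‖ ≤ |u'.1| + |u'.2| := by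
    rw [Prod.norm_def]
    exact max_le (le_add_of_nonneg_right (abs_nonneg _)) (le_add_of_nonneg_left (abs_nonneg _))
  have p1 : 0 ≤ |w.1| := abs_nonneg _
  have p2 : 0 ≤ |w.2| := abs_nonneg _
  have p3 : 0 ≤ |l * u1| := abs_nonneg _
  have p4 : 0 ≤ (|ν| + M) * M' := by positivity
  nlinarith [mul_nonneg p1 hR0, mul_nonneg p2 hR0, mul_nonneg p3 hR0, mul_nonneg p4 hR0]

theorem starint_shear (u : ℝ) (v : Fv) (B : ℝ) (k : Fin 4) (h : ∀ a b, ‖v a b k‖ ≤ B)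
    (a c : Fin 2) : ‖shear u v a c k‖ ≤ (1 + |u|) ^ 2 * B := by
  have hB : 0 ≤ B := (norm_nonneg _).trans (h 0 0)
  have h1 : ‖(if a = 1 then v 0 c k else 0)‖ ≤ B := by
    split_ifs
    · exact h _ _
    · rw [norm_zero]; exact hB
  have h2 : ‖(if c = 1 then v a 0 k else 0)‖ ≤ B := by
    split_ifs
    · exact h _ _
    · rw [norm_zero]; exact hB
  have h3 : ‖(if a = 1 ∧ c = 1 then (u : ℂ) ^ 2 * v 0 0 k else 0)‖ ≤ |u| ^ 2 * B := by
    split_ifs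
    · rw [norm_mul, norm_pow, Complex.norm_real, Real.norm_eq_abs]
      exact mul_le_mul_of_nonneg_left (h _ _) (by positivity)
    · rw [norm_zero]; positivity
  unfold shear
  refine (norm_add_le _ _).trans ?_
  refine (add_le_add (norm_sub_le _ _) h3).trans ?_
  rw [norm_mul, Complex.norm_real, Real.norm_eq_abs]
  have h4 := (norm_add_le (if a = 1 then v 0 c k else 0) (if c = 1 then v a 0 k else 0)).trans
    (add_le_add h1 h2)
  have h5 := mul_le_mul_of_nonneg_left h4 (abs_nonneg u)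
  have h6 := h a c
  nlinarith

theorem starint_shear_cont (u : ℝ) {Y : Type} [TopologicalSpace Y] (v : Y → Fv) (k : Fin 4)
    (h : ∀ a b, Continuous fun y => v y a b k) (a c : Fin 2) :
    Continuous fun y => shear u (v y) a c k := by
  unfold shear
  have h1 : Continuous fun y => (if a = 1 then v y 0 c k else 0) := by
    split_ifs
    · exact h _ _
    · exact continuous_const
  have h2 : Continuous fun y => (if c = 1 then v y a 0 k else 0) := by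
    split_ifs
    · exact h _ _
    · exact continuous_const
  have h3 : Continuous fun y => (if a = 1 ∧ c = 1 then (u : ℂ) ^ 2 * v y 0 0 k else 0) := by
    split_ifs
    · exact continuous_const.mul (h _ _)
    · exact continuous_const
  exact ((h a c).sub (continuous_const.mul (h1.add h2))).add h3

/-- The value in closed form. -/
def starint_K (ν : ℝ) (F : Isp) (l : ℝ) (w : ℝ × ℝ) (u1 : ℝ) (a c : Fin 2) (i : Fin 4)
    (q : (ℝ × ℝ) × R3) : ℂ :=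
  (Sc2 ν i 1 q.2 : ℂ) * shear u1 (F (pt ((q.2.1 + l * q.2.2.2) / ν)
    (w.1 - q.1.1, (q.2.2.1 * (w.1 - q.1.1) + q.2.2.2 * (w.2 - q.1.2 + l * u1)) / ν))) a c 1 +
  (Sc2 ν i 2 q.2 : ℂ) * shear u1 (F (pt ((q.2.1 + l * q.2.2.2) / ν)
    (w.1 - q.1.1, (q.2.2.1 * (w.1 - q.1.1) + q.2.2.2 * (w.2 - q.1.2 + l * u1)) / ν))) a c 2

theorem starint_Sc2_cont (ν : ℝ) (i k : Fin 4) : Continuous (Sc2 ν i k) := by
  unfold Sc2
  split_ifs <;> fun_prop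

theorem starint_K_cont (ν : ℝ) (F : Isp) (l : ℝ) (w : ℝ × ℝ) (u1 : ℝ) (a c : Fin 2)
    (i : Fin 4) : Continuous (starint_K ν F l w u1 a c i) := by
  have h1 : ∀ k a b, Continuous fun q : (ℝ × ℝ) × R3 =>
      F (pt ((q.2.1 + l * q.2.2.2) / ν)
    (w.1 - q.1.1, (q.2.2.1 * (w.1 - q.1.1) + q.2.2.2 * (w.2 - q.1.2 + l * u1)) / ν)) a b k := by
    intro k a b
    have h2 := (smooth_slice F a b k).continuous
    have h3 : Continuous fun q : (ℝ × ℝ) × R3 => (((q.2.1 + l * q.2.2.2) / ν,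
      (w.1 - q.1.1, (q.2.2.1 * (w.1 - q.1.1) + q.2.2.2 * (w.2 - q.1.2 + l * u1)) / ν)) :
        ℝ × (ℝ × ℝ)) := by fun_prop
    exact h2.comp h3
  have h4 : ∀ k, Continuous fun q : (ℝ × ℝ) × R3 => (Sc2 ν i k q.2 : ℂ) := fun k =>
    Complex.continuous_ofReal.comp ((starint_Sc2_cont ν i k).comp continuous_snd)
  exact ((h4 1).mul (starint_shear_cont u1 _ 1 (h1 1) a c)).add
    ((h4 2).mul (starint_shear_cont u1 _ 2 (h1 2) a c))

theorem starint_K_eq (ν : ℝ) (F : Isp) (l : ℝ) (w : ℝ × ℝ) (u1 : ℝ) (a c : Fin 2)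
    (i : Fin 4) (hi : i = 1 ∨ i = 2) (q : (ℝ × ℝ) × R3) (hq : q.2 ∈ UU ν) :
    act (un (u1, q.1)) (sact ν q.2 F) (pt l w) a c i = starint_K ν F l w u1 a c i q :=
  star_point ν F l w (u1, q.1) q.2 hq a c i hi

theorem starint_K_bound (ν : ℝ) (b : R3 → ℂ) (hb : CB ν b) (g : Isp) (l : ℝ) (w : ℝ × ℝ)
    (a c : Fin 2) (i : Fin 4) (u1 : ℝ) :
    ∃ C : ℝ, 0 ≤ C ∧ ∀ q : (ℝ × ℝ) × R3, q.2 ∈ tsupport b →
      ‖starint_K ν (D8 g) l w u1 a c i q‖ ≤ C * (1 + ‖q.1‖) ^ (-3 : ℝ) := by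
  have hS : IsCompact (tsupport b) := hb.cs
  obtain ⟨C1, N, m, hC1, hD⟩ := D8_decay
  obtain ⟨C3, hC3, hlin⟩ := starint_lin ν b hb l w u1
  obtain ⟨T, hT⟩ := hS.exists_bound_of_continuousOn
    (f := fun η : R3 => (1 + |(η.1 + l * η.2.2) / ν|) ^ N) (by fun_prop)
  obtain ⟨S1, hS1⟩ := hS.exists_bound_of_continuousOn (f := fun η : R3 => Sc2 ν i 1 η)
    (starint_Sc2_cont ν i 1).continuousOn
  obtain ⟨S2, hS2⟩ := hS.exists_bound_of_continuousOn (f := fun η : R3 => Sc2 ν i 2 η)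
    (starint_Sc2_cont ν i 2).continuousOn
  by_cases hne : (tsupport b).Nonempty
  swap
  · exact ⟨0, le_rfl, fun q hq => absurd ⟨q.2, hq⟩ hne⟩
  obtain ⟨η0, hη0⟩ := hne
  have hT0 : 0 ≤ T := (norm_nonneg _).trans (hT η0 hη0)
  have hS10 : 0 ≤ S1 := (norm_nonneg _).trans (hS1 η0 hη0)
  have hS20 : 0 ≤ S2 := (norm_nonneg _).trans (hS2 η0 hη0)
  have hp0 : 0 ≤ pn m g := apply_nonneg _ _
  refine ⟨(S1 + S2) * ((1 + |u1|) ^ 2 * (C1 * T * pn m g * C3 ^ 3)), by positivity, ?_⟩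
  intro q hq
  obtain ⟨P, hP⟩ : ∃ P : ℝ × ℝ, P = (w.1 - q.1.1,
    (q.2.2.1 * (w.1 - q.1.1) + q.2.2.2 * (w.2 - q.1.2 + l * u1)) / ν) := ⟨_, rfl⟩
  have hl := hlin q.2 hq q.1
  rw [← hP] at hl
  have hP1 : (0 : ℝ) < 1 + ‖P‖ := by positivity
  have hq1 : (0 : ℝ) < 1 + ‖q.1‖ := by positivity
  have hz : (1 + ‖P‖) ^ (-9 : ℤ) ≤ C3 ^ 3 * (1 + ‖q.1‖) ^ (-3 : ℝ) := by
    have e1 : (1 + ‖q.1‖) ^ (-3 : ℝ) = ((1 + ‖q.1‖) ^ 3)⁻¹ := by
      rw [Real.rpow_neg hq1.le]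
      norm_num
    have e2 : (1 + ‖P‖) ^ (-9 : ℤ) = ((1 + ‖P‖) ^ 9)⁻¹ := by
      rw [zpow_neg]
      norm_cast
    rw [e1, e2, inv_le_iff_one_le_mul₀ (by positivity)]
    have h3 : (1 + ‖q.1‖) ^ 3 ≤ C3 ^ 3 * (1 + ‖P‖) ^ 9 := by
      calc (1 + ‖q.1‖) ^ 3 ≤ (C3 * (1 + ‖P‖)) ^ 3 := by gcongr
        _ = C3 ^ 3 * (1 + ‖P‖) ^ 3 := by ring
        _ ≤ C3 ^ 3 * (1 + ‖P‖) ^ 9 := by
          gcongr
          · linarith [norm_nonneg P]
          · norm_num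
    rw [mul_comm (C3 ^ 3), mul_assoc, ← div_eq_inv_mul, le_div_iff₀ (by positivity), one_mul]
    exact h3
  have hv : ∀ (k : Fin 4), (k = 1 ∨ k = 2) → ∀ a b,
      ‖D8 g (pt ((q.2.1 + l * q.2.2.2) / ν) P) a b k‖ ≤
        C1 * T * pn m g * C3 ^ 3 * (1 + ‖q.1‖) ^ (-3 : ℝ) := by
    intro k hk a b
    refine (hD g _ P a b k hk).trans ?_
    have t1 : (1 + |(q.2.1 + l * q.2.2.2) / ν|) ^ N ≤ T :=
      (Real.le_norm_self _).trans (hT q.2 hq)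
    calc C1 * (1 + |(q.2.1 + l * q.2.2.2) / ν|) ^ N * (1 + ‖P‖) ^ (-9 : ℤ) * pn m g
        ≤ C1 * T * (C3 ^ 3 * (1 + ‖q.1‖) ^ (-3 : ℝ)) * pn m g := by gcongr
      _ = C1 * T * pn m g * C3 ^ 3 * (1 + ‖q.1‖) ^ (-3 : ℝ) := by ring
  have hs : ∀ (k : Fin 4), (k = 1 ∨ k = 2) →
      ‖shear u1 (D8 g (pt ((q.2.1 + l * q.2.2.2) / ν) P)) a c k‖ ≤
        (1 + |u1|) ^ 2 * (C1 * T * pn m g * C3 ^ 3 * (1 + ‖q.1‖) ^ (-3 : ℝ)) := fun k hk =>
    starint_shear u1 _ _ k (hv k hk) a c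
  have hK : starint_K ν (D8 g) l w u1 a c i q =
      (Sc2 ν i 1 q.2 : ℂ) * shear u1 (D8 g (pt ((q.2.1 + l * q.2.2.2) / ν) P)) a c 1 +
      (Sc2 ν i 2 q.2 : ℂ) * shear u1 (D8 g (pt ((q.2.1 + l * q.2.2.2) / ν) P)) a c 2 := by
    rw [hP]
    rfl
  rw [hK]
  refine (norm_add_le _ _).trans ?_
  rw [norm_mul, norm_mul, Complex.norm_real, Complex.norm_real]
  have m1 := mul_le_mul (hS1 q.2 hq) (hs 1 (Or.inl rfl)) (norm_nonneg _) hS10
  have m2 := mul_le_mul (hS2 q.2 hq) (hs 2 (Or.inr rfl)) (norm_nonneg _) hS20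
  refine (add_le_add m1 m2).trans (le_of_eq ?_)
  ring

theorem star_int (ν : ℝ) (hν : ν ≠ 0) (b : R3 → ℂ) (hb : CB ν b) (g : Isp) (l : ℝ) (w : ℝ × ℝ)
    (a c : Fin 2) (i : Fin 4) (hi : i = 1 ∨ i = 2) (u1 : ℝ) :
    Integrable (fun q : (ℝ × ℝ) × R3 => ex (u1, q.1) q.2 * b q.2 *
      act (un (u1, q.1)) (sact ν q.2 (D8 g)) (pt l w) a c i) := by
  have he : (fun q : (ℝ × ℝ) × R3 => ex (u1, q.1) q.2 * b q.2 *
      act (un (u1, q.1)) (sact ν q.2 (D8 g)) (pt l w) a c i) =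
      fun q : (ℝ × ℝ) × R3 => ex (u1, q.1) q.2 * b q.2 * starint_K ν (D8 g) l w u1 a c i q := by
    funext q
    by_cases hq : q.2 ∈ tsupport b
    · rw [starint_K_eq ν (D8 g) l w u1 a c i hi q (hb.sub hq)]
    · rw [image_eq_zero_of_notMem_tsupport hq]
      simp
  rw [he]
  obtain ⟨C, hC, hb1⟩ := starint_K_bound ν b hb g l w a c i u1
  have hcont : Continuous fun q : (ℝ × ℝ) × R3 =>
      ex (u1, q.1) q.2 * b q.2 * starint_K ν (D8 g) l w u1 a c i q := by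
    refine (Continuous.mul ?_ (hb.smooth.continuous.comp continuous_snd)).mul
      (starint_K_cont ν (D8 g) l w u1 a c i)
    unfold ex
    fun_prop
  have hi1 : Integrable (fun u' : ℝ × ℝ => (1 + ‖u'‖) ^ (-3 : ℝ)) := by
    refine integrable_one_add_norm ?_
    simp
    norm_num
  have hi2 : Integrable (fun η : R3 => C * ‖b η‖) :=
    ((hb.smooth.continuous.integrable_of_hasCompactSupport hb.cs).norm).const_mul C
  have hi3 : Integrable (fun q : (ℝ × ℝ) × R3 => (1 + ‖q.1‖) ^ (-3 : ℝ) * (C * ‖b q.2‖)) :=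
    hi1.mul_prod hi2
  refine hi3.mono' hcont.aestronglyMeasurable (Filter.Eventually.of_forall fun q => ?_)
  have hex : ‖ex (u1, q.1) q.2‖ = 1 := by
    unfold ex
    rw [Complex.norm_exp]
    simp
  rw [norm_mul, norm_mul, hex, one_mul]
  by_cases hq : q.2 ∈ tsupport b
  · have h1 := mul_le_mul_of_nonneg_left (hb1 q hq) (norm_nonneg (b q.2))
    refine h1.trans (le_of_eq ?_)
    ring
  · rw [image_eq_zero_of_notMem_tsupport hq]
    simp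

end SoCo
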