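import Pool.Agent.H.MP_0f3f77_al.StarIn
import Pool.Agent.H.MP_0f3f77_al.StarInt
import Pool.Agent.H.MP_0f3f77_al.Gt
import Pool.Agent.H.MP_0f3f77_al.FhDeriv

/-!
The integral over `(u_2, u_3)` for fixed `u_1`.

Proof.  For fixed `u = (u_1, u')`, `act (un u) (Jt ν b (D8 g) u) (pt l w) a c i =
∫_η ex u η * b η * (act (un u) (sact ν η (D8 g))) (pt l w) a c i` (`Jt` is an `isum`; apply
`isum_clm` for the continuous functional `(evL (pt l w) a c i).comp (actL (un u))` with `ig_Jt`).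
So the left side is `∫_{u'} ∫_η`; interchange (`integral_integral_swap`, `star_int`):
`∫_η ∫_{u'}`; the inner integral is `b η` times `star_inner` for `η ∈ UU ν` (for the other `η`,
`b η = 0`).  The result is `∫_{η ∈ R3} G (η_1 + l η_3, η_2, η_3)`-like:
with `ζ = (η_2, η_3)` the integrand is
`b (η_1, ζ) |ν/ζ_2| e^{-i(ζ_1 w_1 + ζ_2 w_2)} Sc2 ν i k (0, ζ_1, ζ_2) * e^{-iτ u_1} shear u_1 (Fhv ν g (τ/ν)) a c k`,
`τ = η_1 + l ζ_2` (`Sc2` does not depend on `η_1`).
Fubini (`integral_prod_symm` or `integral_prod`; the function is continuous with compact support in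
`η`), translate `η_1 = τ - l ζ_2` for fixed `ζ` (`integral_sub_right_eq_self`), interchange again
(continuous with compact support in `(τ, ζ)`), and recognize `Ac ν b l w i k τ`.
-/

open scoped Topology ContDiff
open MeasureTheory

noncomputable section

namespace SoCo

/-- The change of variables. -/
def starfub_e (l : ℝ) : ℝ × (ℝ × ℝ) ≃ₜ R3 where
  toFun q := (q.1 - l * q.2.2, q.2.1, q.2.2)
  invFun η := (η.1 + l * η.2.2, η.2.1, η.2.2)
  left_inv q := by simp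
  right_inv q := by simp
  continuous_toFun := by fun_prop
  continuous_invFun := by fun_prop

/-- Change of variables `τ = η_1 + l η_3` and Fubini. -/
theorem starfub_gen (G : R3 → ℂ) (hG : Continuous G) (hc : HasCompactSupport G) (l : ℝ)
    (e : ℝ → ℂ) (he : Continuous e) :
    Integrable (fun η : R3 => G η * e (η.1 + l * η.2.2)) ∧
    Integrable (fun τ : ℝ => e τ * ∫ ζ : ℝ × ℝ, G (τ - l * ζ.2, ζ.1, ζ.2)) ∧
    ∫ η : R3, G η * e (η.1 + l * η.2.2) =
      ∫ τ : ℝ, e τ * ∫ ζ : ℝ × ℝ, G (τ - l * ζ.2, ζ.1, ζ.2) := by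
  have h1 : Integrable (fun η : R3 => G η * e (η.1 + l * η.2.2)) := by
    refine Continuous.integrable_of_hasCompactSupport (by fun_prop) ?_
    exact hc.mul_right
  have hc2 : HasCompactSupport (fun q : ℝ × (ℝ × ℝ) => G (q.1 - l * q.2.2, q.2.1, q.2.2)) :=
    hc.comp_homeomorph (starfub_e l)
  have h2 : Integrable (fun q : ℝ × (ℝ × ℝ) =>
      G (q.1 - l * q.2.2, q.2.1, q.2.2) * e q.1) (volume.prod volume) := by
    refine Continuous.integrable_of_hasCompactSupport (by fun_prop) ?_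
    exact hc2.mul_right
  have h3 : ∀ τ : ℝ, ∫ ζ : ℝ × ℝ, G (τ - l * ζ.2, ζ.1, ζ.2) * e τ =
      e τ * ∫ ζ : ℝ × ℝ, G (τ - l * ζ.2, ζ.1, ζ.2) := by
    intro τ
    rw [integral_mul_const, mul_comm]
  refine ⟨h1, ?_, ?_⟩
  · have h4 := h2.integral_prod_left
    exact h4.congr (Filter.Eventually.of_forall fun τ => h3 τ)
  · have e1 : ∫ η : R3, G η * e (η.1 + l * η.2.2) =
        ∫ ζ : ℝ × ℝ, ∫ η1 : ℝ, G (η1, ζ.1, ζ.2) * e (η1 + l * ζ.2) := by
      have h1' : Integrable (fun η : ℝ × (ℝ × ℝ) => G η * e (η.1 + l * η.2.2))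
        (volume.prod volume) := h1
      exact integral_prod_symm _ h1'
    have e2 : ∀ ζ : ℝ × ℝ, ∫ η1 : ℝ, G (η1, ζ.1, ζ.2) * e (η1 + l * ζ.2) =
        ∫ τ : ℝ, G (τ - l * ζ.2, ζ.1, ζ.2) * e τ := by
      intro ζ
      rw [← integral_sub_right_eq_self (fun η1 : ℝ => G (η1, ζ.1, ζ.2) * e (η1 + l * ζ.2))
        (l * ζ.2)]
      simp only [sub_add_cancel]
    have e3 : ∫ ζ : ℝ × ℝ, ∫ τ : ℝ, G (τ - l * ζ.2, ζ.1, ζ.2) * e τ =
        ∫ τ : ℝ, ∫ ζ : ℝ × ℝ, G (τ - l * ζ.2, ζ.1, ζ.2) * e τ := by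
      rw [← integral_prod_symm _ h2, integral_prod _ h2]
    rw [e1]
    simp only [e2]
    rw [e3]
    simp only [h3]

/-- The integrand of `Ac`. -/
def starfub_G (ν : ℝ) (b : R3 → ℂ) (w : ℝ × ℝ) (i k : Fin 4) (η : R3) : ℂ :=
  b η * ((|ν / η.2.2| * Sc2 ν i k η : ℝ) : ℂ) *
    Complex.exp (-(Complex.I * (η.2.1 * w.1 + η.2.2 * w.2)))

theorem starfub_Ac (ν : ℝ) (b : R3 → ℂ) (l : ℝ) (w : ℝ × ℝ) (i k : Fin 4) (τ : ℝ) :
    Ac ν b l w i k τ = ∫ ζ : ℝ × ℝ, starfub_G ν b w i k (τ - l * ζ.2, ζ.1, ζ.2) := rfl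

theorem starfub_Sc2 (ν : ℝ) (i k : Fin 4) : Continuous (Sc2 ν i k) := by
  unfold Sc2
  split_ifs <;> fun_prop

theorem starfub_open (ν : ℝ) : IsOpen (UU ν) := by
  have h : Continuous fun η : R3 => η.2.2 / ν := by fun_prop
  exact isOpen_lt continuous_const h

theorem starfub_Gc (ν : ℝ) (b : R3 → ℂ) (hb : CB ν b) (w : ℝ × ℝ) (i k : Fin 4) :
    Continuous (starfub_G ν b w i k) ∧ HasCompactSupport (starfub_G ν b w i k) := by
  have h0 : starfub_G ν b w i k = fun η => b η * (((|ν / η.2.2| * Sc2 ν i k η : ℝ) : ℂ) *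
      Complex.exp (-(Complex.I * (η.2.1 * w.1 + η.2.2 * w.2)))) := by
    funext η
    rw [starfub_G, mul_assoc]
  rw [h0]
  refine ⟨?_, hb.cs.mul_right⟩
  refine continuous_of_tsupport fun η hη => ?_
  have h1 : η ∈ UU ν := hb.sub (tsupport_mul_subset_left hη)
  have h2 : η.2.2 ≠ 0 := (UU_ne h1).2
  have h3 : ContinuousAt (fun η : R3 => |ν / η.2.2| * Sc2 ν i k η) η := by
    refine ContinuousAt.mul ?_ (starfub_Sc2 ν i k).continuousAt
    refine ContinuousAt.abs ?_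
    exact continuousAt_const.div (by fun_prop) h2
  refine hb.smooth.continuous.continuousAt.mul (ContinuousAt.mul ?_ (by fun_prop))
  exact Complex.continuous_ofReal.continuousAt.comp h3

theorem starfub_Fh (ν : ℝ) (g : Isp) (a b : Fin 2) (k : Fin 4) (hk : k = 1 ∨ k = 2) :
    Continuous (fun τ : ℝ => Fh ν g a b k (τ / ν)) := by
  have h1 : Continuous (Fh ν g a b k) :=
    continuous_iff_continuousAt.mpr fun t => (Fh_deriv ν g a b k hk t).continuousAt
  exact h1.comp (by fun_prop)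

theorem starfub_E (ν : ℝ) (g : Isp) (u1 : ℝ) (a c : Fin 2) (k : Fin 4) (hk : k = 1 ∨ k = 2) :
    Continuous (fun τ : ℝ => Complex.exp (-(Complex.I * τ * u1)) *
      shear u1 (Fhv ν g (τ / ν)) a c k) := by
  have h1 : ∀ a b : Fin 2, Continuous (fun τ : ℝ => Fh ν g a b k (τ / ν)) := fun a b =>
    starfub_Fh ν g a b k hk
  refine Continuous.mul (by fun_prop) ?_
  unfold shear Fhv
  have h2 := h1 a c
  have h3 := h1 0 c
  have h4 := h1 a 0
  have h5 := h1 0 0
  split_ifs <;> fun_prop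

theorem star_fub (ν : ℝ) (hν : ν ≠ 0) (b : R3 → ℂ) (hb : CB ν b) (g : Isp) (l : ℝ) (w : ℝ × ℝ)
    (a c : Fin 2) (i : Fin 4) (hi : i = 1 ∨ i = 2) (u1 : ℝ) :
    ∫ u' : ℝ × ℝ, act (un (u1, u')) (Jt ν b (D8 g) (u1, u')) (pt l w) a c i =
      ∫ τ : ℝ, Complex.exp (-(Complex.I * τ * u1)) *
        (Ac ν b l w i 1 τ * shear u1 (Fhv ν g (τ / ν)) a c 1 +
          Ac ν b l w i 2 τ * shear u1 (Fhv ν g (τ / ν)) a c 2) := by
  have e1 : ∀ u' : ℝ × ℝ, act (un (u1, u')) (Jt ν b (D8 g) (u1, u')) (pt l w) a c i =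
      ∫ η : R3, ex (u1, u') η * b η * act (un (u1, u')) (sact ν η (D8 g)) (pt l w) a c i := by
    intro u'
    have h1 := isum_clm (ig_Jt ν b hb (D8 g) (u1, u'))
      ((evL (pt l w) a c i).comp (actL (un (u1, u'))))
    have h2 : ∀ s : Isp, ((evL (pt l w) a c i).comp (actL (un (u1, u')))) s =
        act (un (u1, u')) s (pt l w) a c i := fun s => rfl
    simp only [map_smul, h2] at h1
    exact h1
  have hint := star_int ν hν b hb g l w a c i hi u1
  have e2 : ∫ u' : ℝ × ℝ, act (un (u1, u')) (Jt ν b (D8 g) (u1, u')) (pt l w) a c i =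
      ∫ η : R3, ∫ u' : ℝ × ℝ,
        ex (u1, u') η * b η * act (un (u1, u')) (sact ν η (D8 g)) (pt l w) a c i := by
    simp only [e1]
    exact integral_integral_swap (f := fun (u' : ℝ × ℝ) (η : R3) =>
      ex (u1, u') η * b η * act (un (u1, u')) (sact ν η (D8 g)) (pt l w) a c i) hint
  have e3 : ∀ η : R3, ∫ u' : ℝ × ℝ,
        ex (u1, u') η * b η * act (un (u1, u')) (sact ν η (D8 g)) (pt l w) a c i =
      starfub_G ν b w i 1 η * (Complex.exp (-(Complex.I * ((η.1 + l * η.2.2 : ℝ) : ℂ) * u1)) *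
        shear u1 (Fhv ν g ((η.1 + l * η.2.2) / ν)) a c 1) +
      starfub_G ν b w i 2 η * (Complex.exp (-(Complex.I * ((η.1 + l * η.2.2 : ℝ) : ℂ) * u1)) *
        shear u1 (Fhv ν g ((η.1 + l * η.2.2) / ν)) a c 2) := by
    intro η
    by_cases hη : η ∈ UU ν
    · have h1 : ∫ u' : ℝ × ℝ,
          ex (u1, u') η * b η * act (un (u1, u')) (sact ν η (D8 g)) (pt l w) a c i =
          b η * ∫ u' : ℝ × ℝ,
            ex (u1, u') η * act (un (u1, u')) (sact ν η (D8 g)) (pt l w) a c i := by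
        rw [← integral_const_mul]
        congr 1
        funext u'
        ring
      rw [h1, star_inner ν hν g l w a c i hi u1 η hη]
      unfold starfub_G
      push_cast
      ring
    · have hb0 : b η = 0 := by
        by_contra h0
        exact hη (hb.sub (subset_tsupport b h0))
      unfold starfub_G
      simp only [hb0, mul_zero, zero_mul, integral_zero, add_zero]
  obtain ⟨i1, j1, k1⟩ := starfub_gen (starfub_G ν b w i 1) (starfub_Gc ν b hb w i 1).1
    (starfub_Gc ν b hb w i 1).2 l _ (starfub_E ν g u1 a c 1 (Or.inl rfl))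
  obtain ⟨i2, j2, k2⟩ := starfub_gen (starfub_G ν b w i 2) (starfub_Gc ν b hb w i 2).1
    (starfub_Gc ν b hb w i 2).2 l _ (starfub_E ν g u1 a c 2 (Or.inr rfl))
  rw [e2]
  simp only [e3]
  rw [integral_add i1 i2, k1, k2, ← integral_add j1 j2]
  congr 1
  funext τ
  rw [starfub_Ac, starfub_Ac]
  ring

end SoCo
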