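import Pool.Agent.H.MP_0f3f77_al.StarDefs

/-!
The integral over `u' = (u_2, u_3)` for fixed `u_1` and fixed `η`.

Proof.  Write `F = D8 g`, `τ = η_1 + l η_3`.  By `star_point` and `star_exp` the integrand is
`e^{-iτ u_1} e^{-i(η_2 w_1 + η_3 w_2)} e^{iν Z} ∑_{k=1,2} Sc2 i k η * shear u_1 (F (pt (τ/ν) (Y, Z))) a c k`
with `Y = w_1 - u_2`, `Z = (η_2 Y + η_3 (w_2 - u_3 + l u_1)) / ν`.
Let `Ψ (Y, Z) = e^{iν Z} F (pt (τ/ν) (Y, Z)) a' c' k`, an integrable function of `(Y, Z)`
(`D8_decay`, continuity from `smooth_slice` or `slt_D8`) with integral `Fh ν g a' c' k (τ/ν)`.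
The integral of `Ψ` over `u'` is `|ν/η_3|` times its integral over `(Y, Z)`: by Fubini
(`integral_prod`, the composed function is integrable on the plane, e.g. because
`(u_2, u_3) ↦ (Y, Z)` is an affine isomorphism; or use
`MeasureTheory.integral_comp...`/`Measure.integral_comp_...` for the linear isomorphism with
determinant `(-1) * (-η_3/ν)`, `MeasureTheory.Measure.addHaar_preimage_continuousLinearMap`,
or `integral_image_eq_integral_abs_det_fderiv_smul`): substitute `u_3` for fixed `u_2`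
(`Z = -(η_3/ν) u_3 + const`, `integral_comp_mul_left`, `integral_add_right_eq_self`), then
`u_2 = w_1 - Y` (`integral_sub_left_eq_self`).
`shear` is linear in its argument, so it commutes with the integral.
-/

open scoped Topology ContDiff
open MeasureTheory

noncomputable section

namespace SoCo

/-- The affine substitution. -/
theorem starin_cov (G : ℝ × ℝ → ℂ) (hG : Continuous G) (hi : Integrable G) (r s : ℝ) (hs : s ≠ 0)
    (c : ℝ × ℝ) :
    Integrable (fun u' : ℝ × ℝ => G (c.1 - u'.1, r * (c.1 - u'.1) + s * (c.2 - u'.2))) ∧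
    ∫ u' : ℝ × ℝ, G (c.1 - u'.1, r * (c.1 - u'.1) + s * (c.2 - u'.2)) =
      ((|s⁻¹| : ℝ) : ℂ) * ∫ p : ℝ × ℝ, G p := by
  set f : ℝ × ℝ →ₗ[ℝ] ℝ × ℝ :=
    Matrix.toLin (Module.Basis.finTwoProd ℝ) (Module.Basis.finTwoProd ℝ) !![1, 0; r, s] with hf
  have hfa : ∀ q : ℝ × ℝ, f q = (q.1, r * q.1 + s * q.2) := by
    intro q
    rw [hf, Matrix.toLin_finTwoProd]
    simp
  have hdet : LinearMap.det f = s := by
    rw [hf, LinearMap.det_toLin, Matrix.det_fin_two_of]
    ring
  have hfc : Continuous f := LinearMap.continuous_of_finiteDimensional f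
  have hmap := Measure.map_linearMap_addHaar_eq_smul_addHaar (volume : Measure (ℝ × ℝ))
    (f := f) (by rw [hdet]; exact hs)
  rw [hdet] at hmap
  have h1 : Integrable (fun q => G (f q)) := by
    have h2 : Integrable G (Measure.map f volume) := by
      rw [hmap]
      exact hi.smul_measure ENNReal.ofReal_ne_top
    exact (integrable_map_measure hG.aestronglyMeasurable hfc.measurable.aemeasurable).mp h2
  have h2 : ∫ q, G (f q) = ((|s⁻¹| : ℝ) : ℂ) * ∫ p : ℝ × ℝ, G p := by
    have h3 := integral_map (μ := (volume : Measure (ℝ × ℝ))) hfc.measurable.aemeasurable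
      (f := G) hG.aestronglyMeasurable
    rw [← h3, hmap, integral_smul_measure, ENNReal.toReal_ofReal (abs_nonneg _)]
    exact Complex.real_smul
  have h4 : ∀ u' : ℝ × ℝ, G (c.1 - u'.1, r * (c.1 - u'.1) + s * (c.2 - u'.2)) =
      (fun q => G (f q)) (c - u') := by
    intro u'
    simp only [hfa, Prod.fst_sub, Prod.snd_sub]
  simp only [h4]
  refine ⟨h1.comp_sub_left c, ?_⟩
  rw [integral_sub_left_eq_self (fun q => G (f q)) volume c]
  exact h2

theorem starin_cont (f : Isp) (t : ℝ) (a c : Fin 2) (k : Fin 4) :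
    Continuous (fun p : ℝ × ℝ => f (pt t p) a c k) := by
  have h1 : Continuous (fun w : ℝ × (ℝ × ℝ) => f (pt w.1 w.2) a c k) :=
    (smooth_slice f a c k).continuous
  have h2 : Continuous (fun p : ℝ × ℝ => (t, p)) := by fun_prop
  exact h1.comp h2

theorem starin_contS (f : Isp) (t u1 : ℝ) (a c : Fin 2) (k : Fin 4) :
    Continuous (fun p : ℝ × ℝ => shear u1 (f (pt t p)) a c k) := by
  unfold shear
  refine ((starin_cont f t a c k).sub (continuous_const.mul (Continuous.add ?_ ?_))).add ?_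
  · split_ifs
    · exact starin_cont f t 0 c k
    · exact continuous_const
  · split_ifs
    · exact starin_cont f t a 0 k
    · exact continuous_const
  · split_ifs
    · exact continuous_const.mul (starin_cont f t 0 0 k)
    · exact continuous_const

theorem starin_int (ν : ℝ) (g : Isp) (t : ℝ) (a c : Fin 2) (k : Fin 4) (hk : k = 1 ∨ k = 2) :
    Integrable (fun p : ℝ × ℝ => D8 g (pt t p) a c k * Complex.exp (Complex.I * ν * p.2)) := by
  obtain ⟨C, N, m, hC, hb⟩ := D8_decay
  have hcont : Continuous (fun p : ℝ × ℝ => D8 g (pt t p) a c k) :=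
    starin_cont (D8 g) t a c k
  have hdom : Integrable (fun p : ℝ × ℝ =>
      (C * (1 + |t|) ^ N * pn m g) * (1 + ‖p‖) ^ (-(9 : ℝ))) := by
    refine Integrable.const_mul (integrable_one_add_norm ?_) _
    simp
    norm_num
  refine hdom.mono' (by fun_prop) (Filter.Eventually.of_forall fun p => ?_)
  have h1 : ‖Complex.exp (Complex.I * ν * p.2)‖ = 1 := by
    have h2 : Complex.I * ν * p.2 = ((ν * p.2 : ℝ) : ℂ) * Complex.I := by
      push_cast
      ring
    rw [h2, Complex.norm_exp_ofReal_mul_I]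
  have h3 : (1 + ‖p‖) ^ (-(9 : ℝ)) = (1 + ‖p‖) ^ (-9 : ℤ) := by
    rw [← Real.rpow_intCast]
    norm_num
  rw [norm_mul, h1, mul_one, h3]
  refine (hb g t p a c k hk).trans (le_of_eq ?_)
  ring

theorem starin_shear (ν : ℝ) (g : Isp) (t u1 : ℝ) (a c : Fin 2) (k : Fin 4)
    (hk : k = 1 ∨ k = 2) :
    Integrable (fun p : ℝ × ℝ => Complex.exp (Complex.I * ν * p.2) *
      shear u1 (D8 g (pt t p)) a c k) ∧
    ∫ p : ℝ × ℝ, Complex.exp (Complex.I * ν * p.2) * shear u1 (D8 g (pt t p)) a c k =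
      shear u1 (Fhv ν g t) a c k := by
  set J : Fin 2 → Fin 2 → ℝ × ℝ → ℂ := fun a' c' p =>
    D8 g (pt t p) a' c' k * Complex.exp (Complex.I * ν * p.2) with hJdef
  have hJ : ∀ a' c', Integrable (J a' c') := fun a' c' => starin_int ν g t a' c' k hk
  have e : ∀ p : ℝ × ℝ, Complex.exp (Complex.I * ν * p.2) * shear u1 (D8 g (pt t p)) a c k =
      J a c p - u1 * ((if a = 1 then J 0 c p else 0) + (if c = 1 then J a 0 p else 0)) +
        (if a = 1 ∧ c = 1 then (u1 : ℂ) ^ 2 * J 0 0 p else 0) := by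
    intro p
    simp only [shear, hJdef]
    split_ifs <;> ring
  have i1 : Integrable (fun p => if a = 1 then J 0 c p else 0) := by
    split_ifs
    · exact hJ 0 c
    · exact integrable_zero _ _ _
  have i2 : Integrable (fun p => if c = 1 then J a 0 p else 0) := by
    split_ifs
    · exact hJ a 0
    · exact integrable_zero _ _ _
  have i3 : Integrable (fun p => if a = 1 ∧ c = 1 then (u1 : ℂ) ^ 2 * J 0 0 p else 0) := by
    split_ifs
    · exact (hJ 0 0).const_mul _
    · exact integrable_zero _ _ _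
  have i12 : Integrable (fun p => (u1 : ℂ) * ((if a = 1 then J 0 c p else 0) +
      (if c = 1 then J a 0 p else 0))) := (i1.add i2).const_mul _
  simp only [e]
  refine ⟨((hJ a c).sub i12).add i3, ?_⟩
  have a1 := integral_add (f := fun p => J a c p - (u1 : ℂ) * ((if a = 1 then J 0 c p else 0) +
      (if c = 1 then J a 0 p else 0)))
      (g := fun p => if a = 1 ∧ c = 1 then (u1 : ℂ) ^ 2 * J 0 0 p else 0)
      ((hJ a c).sub i12) i3
  have a2 := integral_sub (f := fun p => J a c p)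
      (g := fun p => (u1 : ℂ) * ((if a = 1 then J 0 c p else 0) +
      (if c = 1 then J a 0 p else 0))) (hJ a c) i12
  have a3 := integral_add (f := fun p => if a = 1 then J 0 c p else 0)
      (g := fun p => if c = 1 then J a 0 p else 0) i1 i2
  have hF : ∀ a' c', ∫ p, J a' c' p = Fhv ν g t a' c' k := fun a' c' => rfl
  rw [a1, a2, integral_const_mul, a3]
  unfold shear
  congr 1
  · congr 1
    congr 1
    congr 1
    · split_ifs
      · exact hF 0 c
      · exact integral_zero _ _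
    · split_ifs
      · exact hF a 0
      · exact integral_zero _ _
  · split_ifs
    · rw [integral_const_mul, hF]
    · exact integral_zero _ _

theorem star_inner (ν : ℝ) (hν : ν ≠ 0) (g : Isp) (l : ℝ) (w : ℝ × ℝ) (a c : Fin 2) (i : Fin 4)
    (hi : i = 1 ∨ i = 2) (u1 : ℝ) (η : R3) (hη : η ∈ UU ν) :
    ∫ u' : ℝ × ℝ, ex (u1, u') η * act (un (u1, u')) (sact ν η (D8 g)) (pt l w) a c i =
      ((|ν / η.2.2| : ℝ) : ℂ) * Complex.exp (-(Complex.I * ((η.1 + l * η.2.2 : ℝ) : ℂ) * u1)) *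
        Complex.exp (-(Complex.I * (η.2.1 * w.1 + η.2.2 * w.2))) *
        ((Sc2 ν i 1 η : ℂ) * shear u1 (Fhv ν g ((η.1 + l * η.2.2) / ν)) a c 1 +
          (Sc2 ν i 2 η : ℂ) * shear u1 (Fhv ν g ((η.1 + l * η.2.2) / ν)) a c 2) := by
  set t : ℝ := (η.1 + l * η.2.2) / ν with ht
  set H : ℝ × ℝ → ℂ := fun p =>
    (Sc2 ν i 1 η : ℂ) * (Complex.exp (Complex.I * ν * p.2) * shear u1 (D8 g (pt t p)) a c 1) +
      (Sc2 ν i 2 η : ℂ) * (Complex.exp (Complex.I * ν * p.2) *
        shear u1 (D8 g (pt t p)) a c 2) with hH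
  obtain ⟨k1, k1'⟩ := starin_shear ν g t u1 a c 1 (Or.inl rfl)
  obtain ⟨k2, k2'⟩ := starin_shear ν g t u1 a c 2 (Or.inr rfl)
  have hHi : Integrable H := (k1.const_mul _).add (k2.const_mul _)
  have hHint : ∫ p, H p = (Sc2 ν i 1 η : ℂ) * shear u1 (Fhv ν g t) a c 1 +
      (Sc2 ν i 2 η : ℂ) * shear u1 (Fhv ν g t) a c 2 := by
    rw [hH, integral_add (k1.const_mul _) (k2.const_mul _), integral_const_mul,
      integral_const_mul, k1', k2']
  have hHc : Continuous H := by
    have hs : ∀ k : Fin 4, Continuous (fun p : ℝ × ℝ => shear u1 (D8 g (pt t p)) a c k) :=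
      fun k => starin_contS (D8 g) t u1 a c k
    have he : Continuous (fun p : ℝ × ℝ => Complex.exp (Complex.I * ν * p.2)) := by fun_prop
    exact (continuous_const.mul (he.mul (hs 1))).add (continuous_const.mul (he.mul (hs 2)))
  have hne : η.2.2 ≠ 0 := (UU_ne hη).2
  obtain ⟨-, hcov⟩ := starin_cov H hHc hHi (η.2.1 / ν) (η.2.2 / ν) (div_ne_zero hne hν)
    (w.1, w.2 + l * u1)
  have hpt : ∀ u' : ℝ × ℝ, ex (u1, u') η *
      act (un (u1, u')) (sact ν η (D8 g)) (pt l w) a c i =
      (Complex.exp (-(Complex.I * ((η.1 + l * η.2.2 : ℝ) : ℂ) * u1)) *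
        Complex.exp (-(Complex.I * (η.2.1 * w.1 + η.2.2 * w.2)))) *
      H (w.1 - u'.1, η.2.1 / ν * (w.1 - u'.1) + η.2.2 / ν * (w.2 + l * u1 - u'.2)) := by
    intro u'
    have hz : (η.2.1 * (w.1 - u'.1) + η.2.2 * (w.2 - u'.2 + l * u1)) / ν =
        η.2.1 / ν * (w.1 - u'.1) + η.2.2 / ν * (w.2 + l * u1 - u'.2) := by
      field_simp
      ring
    rw [star_point ν (D8 g) l w (u1, u') η hη a c i hi, star_exp ν hν l w (u1, u') η]
    simp only [hH]
    rw [hz]
    push_cast
    ring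
  simp only [hpt]
  rw [integral_const_mul, hcov, hHint, inv_div]
  ring

end SoCo
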