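import Pool.Agent.H.MP_0f3f77_al.StarFub
import Pool.Agent.H.MP_0f3f77_al.AcSmooth
import Pool.Agent.H.MP_0f3f77_al.FhDeriv
import Pool.Agent.H.MP_0f3f77_al.Star1d

/-!
`Gt ν b (D8 g)` vanishes at the slice points if the six functionals vanish at `g`.

Proof.  `isum_app`: the value is `∫_{u ∈ R3} act (un u) (Jt ν b (D8 g) u) (pt l w) a c i`, the
integrand is integrable (`ig_Gt`, `Ig.app_int`), so by Fubini (`integral_prod`) it is
`∫_{u_1} k(u_1)`, `k` integrable, `k(u_1)` given by `star_fub`.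
Let `A_k = Ac ν b l w i k`, `F_{ac,k}(τ) = Fh ν g a c k (τ/ν)`, `k = 1, 2`.
(00): `k(u) = ∫ e^{-iτu} ∑ A_k F_{00,k}`: `star_1d` with `B0 = B1 = 0`, `B2 = ∑ A_k F_{00,k}`;
`B2 0 = 0` because `Fh ν g 0 0 k 0 = (iν)^8 cc ν k g = 0`.
(01) and (10) (use the symmetry in `a, c`): `B2 = ∑ A_k F_{01,k}`, `B1 = 1/2 ∑ A_k F_{00,k}`, `B0 = 0`:
the value is `2π ∑ (A_k F_{01,k} + i (A_k F_{00,k})')(0)`; `F_{00,k}' (0) = -ν⁻¹ Fh (D20 g)`,
so with `L = La`: `(iν)^8 ∑ A_k(0) [L01_k g - (i/ν) L00_k (D20 g)] + i A_k'(0) (iν)^8 L00_k g`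
`= (iν)^8 ∑ A_k(0) (i/ν) dd ν k g + 0 = 0`.
(11): `B2 = ∑ A_k F_{11,k}`, `B1 = ∑ A_k F_{01,k}`, `B0 = ∑ A_k F_{00,k}`: `B2 + 2i B1' - B0''` at `0` is
`(iν)^8` times `∑ A_k(0) [L11 - (2i/ν) L01(D20 g) - ν⁻² L00(D20 D20 g)]
 + A_k'(0) [2i L01 + (2/ν) L00 (D20 g)] - A_k''(0) L00
 = ∑ -(2/ν²) A_k(0) ee ν k g - (2/ν) A_k'(0) dd ν k g - A_k''(0) cc ν k g = 0`.
Smoothness of `τ ↦ Fh ν g a c k (τ/ν)`: `Fh_deriv` repeatedly (`C^2`).
-/

open scoped Topology ContDiff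
open MeasureTheory

noncomputable section

namespace SoCo

/-- The scaled Fourier integrals. -/
def starmain_F (ν : ℝ) (g : Isp) (a c : Fin 2) (k : Fin 4) (τ : ℝ) : ℂ := Fh ν g a c k (τ / ν)

theorem starmain_F_deriv (ν : ℝ) (g : Isp) (a c : Fin 2) (k : Fin 4)
    (hk : k = 1 ∨ k = 2) (τ : ℝ) :
    HasDerivAt (starmain_F ν g a c k) (-(ν : ℂ)⁻¹ * starmain_F ν (D 2 0 g) a c k τ) τ := by
  have h1 := Fh_deriv ν g a c k hk (τ / ν)
  have h2 : HasDerivAt (fun τ : ℝ => τ / ν) (1 / ν) τ := (hasDerivAt_id τ).div_const ν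
  have h3 := h1.scomp τ h2
  have e : (1 / ν) • (-Fh ν (D 2 0 g) a c k (τ / ν)) =
      -(ν : ℂ)⁻¹ * starmain_F ν (D 2 0 g) a c k τ := by
    unfold starmain_F
    rw [Complex.real_smul]
    push_cast
    ring
  rw [e] at h3
  exact h3

theorem starmain_F_symm (ν : ℝ) (g : Isp) (a c : Fin 2) (k : Fin 4) (τ : ℝ) :
    starmain_F ν g a c k τ = starmain_F ν g c a k τ := by
  unfold starmain_F Fh
  congr 1
  funext p
  rw [(isI (D8 g)).symm]

theorem starmain_F_zero (ν : ℝ) (hν : ν ≠ 0) (g : Isp) (a c : Fin 2) (k : Fin 4)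
    (hk : k = 1 ∨ k = 2) :
    starmain_F ν g a c k 0 = (Complex.I * ν) ^ 8 * La ν a c k g := by
  unfold starmain_F
  rw [zero_div, Fh_zero ν hν g a c k hk]

theorem starmain_La_symm (ν : ℝ) (hν : ν ≠ 0) (g : Isp) (a c : Fin 2) (k : Fin 4)
    (hk : k = 1 ∨ k = 2) :
    La ν a c k g = La ν c a k g := by
  have h := starmain_F_symm ν g a c k 0
  rw [starmain_F_zero ν hν g a c k hk, starmain_F_zero ν hν g c a k hk] at h
  have h0 : (Complex.I * (ν : ℂ)) ^ 8 ≠ 0 :=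
    pow_ne_zero _ (mul_ne_zero Complex.I_ne_zero (by exact_mod_cast hν))
  exact mul_left_cancel₀ h0 h

/-- The coefficient of the square of the variable. -/
def starmain_X0 (ν : ℝ) (g : Isp) (a c : Fin 2) (k : Fin 4) (τ : ℝ) : ℂ :=
  if a = 1 ∧ c = 1 then starmain_F ν g 0 0 k τ else 0

/-- The coefficient of the variable. -/
def starmain_X1 (ν : ℝ) (g : Isp) (a c : Fin 2) (k : Fin 4) (τ : ℝ) : ℂ :=
  (1 / 2 : ℂ) * ((if a = 1 then starmain_F ν g 0 c k τ else 0) +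
    (if c = 1 then starmain_F ν g a 0 k τ else 0))

theorem starmain_X0_deriv (ν : ℝ) (g : Isp) (a c : Fin 2) (k : Fin 4)
    (hk : k = 1 ∨ k = 2) (τ : ℝ) :
    HasDerivAt (starmain_X0 ν g a c k) (-(ν : ℂ)⁻¹ * starmain_X0 ν (D 2 0 g) a c k τ) τ := by
  unfold starmain_X0
  by_cases h : a = 1 ∧ c = 1
  · simp only [if_pos h]
    exact starmain_F_deriv ν g 0 0 k hk τ
  · simp only [if_neg h, mul_zero]
    exact hasDerivAt_const τ 0

theorem starmain_X1_deriv (ν : ℝ) (g : Isp) (a c : Fin 2) (k : Fin 4)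
    (hk : k = 1 ∨ k = 2) (τ : ℝ) :
    HasDerivAt (starmain_X1 ν g a c k) (-(ν : ℂ)⁻¹ * starmain_X1 ν (D 2 0 g) a c k τ) τ := by
  have h1 : HasDerivAt (fun τ : ℝ => if a = 1 then starmain_F ν g 0 c k τ else 0)
      (-(ν : ℂ)⁻¹ * (if a = 1 then starmain_F ν (D 2 0 g) 0 c k τ else 0)) τ := by
    by_cases h : a = 1
    · simp only [if_pos h]
      exact starmain_F_deriv ν g 0 c k hk τ
    · simp only [if_neg h, mul_zero]
      exact hasDerivAt_const τ 0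
  have h2 : HasDerivAt (fun τ : ℝ => if c = 1 then starmain_F ν g a 0 k τ else 0)
      (-(ν : ℂ)⁻¹ * (if c = 1 then starmain_F ν (D 2 0 g) a 0 k τ else 0)) τ := by
    by_cases h : c = 1
    · simp only [if_pos h]
      exact starmain_F_deriv ν g a 0 k hk τ
    · simp only [if_neg h, mul_zero]
      exact hasDerivAt_const τ 0
  have h3 := (h1.add h2).const_mul (1 / 2 : ℂ)
  refine h3.congr_deriv ?_
  unfold starmain_X1
  ring

/-- Smoothness of a family of functions stable under derivatives. -/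
theorem starmain_smooth (ν : ℝ) (X : Isp → ℝ → ℂ)
    (hX : ∀ g τ, HasDerivAt (X g) (-(ν : ℂ)⁻¹ * X (D 2 0 g) τ) τ) (n : ℕ) :
    ∀ g, ContDiff ℝ n (X g) := by
  have hd : ∀ g, deriv (X g) = fun τ => -(ν : ℂ)⁻¹ * X (D 2 0 g) τ := fun g => by
    funext τ
    exact (hX g τ).deriv
  induction n with
  | zero =>
    intro g
    have h1 : Continuous (X g) :=
      continuous_iff_continuousAt.2 fun τ => (hX g τ).continuousAt
    exact_mod_cast contDiff_zero.2 h1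
  | succ n ih =>
    intro g
    have h1 : ContDiff ℝ ((n : ℕ∞) + 1 : WithTop ℕ∞) (X g) := by
      rw [contDiff_succ_iff_deriv]
      refine ⟨fun τ => (hX g τ).differentiableAt, fun h => by simp at h, ?_⟩
      rw [hd g]
      exact contDiff_const.mul (ih (D 2 0 g))
    exact_mod_cast h1

/-- The sum of the two terms. -/
def starmain_S (A1 A2 X1 X2 : ℝ → ℂ) (τ : ℝ) : ℂ := A1 τ * X1 τ + A2 τ * X2 τ

theorem starmain_S_contDiff {A1 A2 X1 X2 : ℝ → ℂ} {n : ℕ} (h1 : ContDiff ℝ n A1)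
    (h2 : ContDiff ℝ n A2) (h3 : ContDiff ℝ n X1) (h4 : ContDiff ℝ n X2) :
    ContDiff ℝ n (starmain_S A1 A2 X1 X2) := (h1.mul h3).add (h2.mul h4)

theorem starmain_S_supp {A1 A2 X1 X2 : ℝ → ℂ} (h1 : HasCompactSupport A1)
    (h2 : HasCompactSupport A2) : HasCompactSupport (starmain_S A1 A2 X1 X2) :=
  (h1.mul_right).add (h2.mul_right)

theorem starmain_S_deriv {A1 A2 X1 X2 X1' X2' : ℝ → ℂ} (h1 : ContDiff ℝ 1 A1)
    (h2 : ContDiff ℝ 1 A2) (h3 : ∀ τ, HasDerivAt X1 (X1' τ) τ)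
    (h4 : ∀ τ, HasDerivAt X2 (X2' τ) τ) :
    deriv (starmain_S A1 A2 X1 X2) =
      fun τ => starmain_S (deriv A1) (deriv A2) X1 X2 τ + starmain_S A1 A2 X1' X2' τ := by
  funext τ
  have k1 : HasDerivAt A1 (deriv A1 τ) τ := ((h1.differentiable (by norm_num)) τ).hasDerivAt
  have k2 : HasDerivAt A2 (deriv A2 τ) τ := ((h2.differentiable (by norm_num)) τ).hasDerivAt
  have k3 := (k1.mul (h3 τ)).add (k2.mul (h4 τ))
  have k4 := k3.deriv
  refine k4.trans ?_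
  unfold starmain_S
  ring

theorem starmain_S_deriv2 {A1 A2 X1 X2 X1' X2' X1'' X2'' : ℝ → ℂ} (h1 : ContDiff ℝ 2 A1)
    (h2 : ContDiff ℝ 2 A2) (h3 : ∀ τ, HasDerivAt X1 (X1' τ) τ)
    (h4 : ∀ τ, HasDerivAt X2 (X2' τ) τ) (h5 : ∀ τ, HasDerivAt X1' (X1'' τ) τ)
    (h6 : ∀ τ, HasDerivAt X2' (X2'' τ) τ) (τ : ℝ) :
    deriv (deriv (starmain_S A1 A2 X1 X2)) τ =
      starmain_S (deriv (deriv A1)) (deriv (deriv A2)) X1 X2 τ +
      2 * starmain_S (deriv A1) (deriv A2) X1' X2' τ + starmain_S A1 A2 X1'' X2'' τ := by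
  have c1 : ContDiff ℝ 1 A1 := h1.of_le (by norm_num)
  have c2 : ContDiff ℝ 1 A2 := h2.of_le (by norm_num)
  have d1 : ContDiff ℝ 1 (deriv A1) := by
    have h : ContDiff ℝ (1 + 1) A1 := by norm_num; exact h1
    exact (contDiff_succ_iff_deriv.mp h).2.2
  have d2 : ContDiff ℝ 1 (deriv A2) := by
    have h : ContDiff ℝ (1 + 1) A2 := by norm_num; exact h2
    exact (contDiff_succ_iff_deriv.mp h).2.2
  rw [starmain_S_deriv c1 c2 h3 h4]
  have hdiff : ∀ {B1 B2 Y1 Y2 Y1' Y2' : ℝ → ℂ}, ContDiff ℝ 1 B1 → ContDiff ℝ 1 B2 →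
      (∀ τ, HasDerivAt Y1 (Y1' τ) τ) → (∀ τ, HasDerivAt Y2 (Y2' τ) τ) →
      DifferentiableAt ℝ (starmain_S B1 B2 Y1 Y2) τ := by
    intro B1 B2 Y1 Y2 Y1' Y2' a1 a2 a3 a4
    have k1 : HasDerivAt B1 (deriv B1 τ) τ := ((a1.differentiable (by norm_num)) τ).hasDerivAt
    have k2 : HasDerivAt B2 (deriv B2 τ) τ := ((a2.differentiable (by norm_num)) τ).hasDerivAt
    exact ((k1.mul (a3 τ)).add (k2.mul (a4 τ))).differentiableAt
  have e := deriv_add (x := τ) (hdiff d1 d2 h3 h4) (hdiff c1 c2 h5 h6)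
  have e' : deriv (fun τ => starmain_S (deriv A1) (deriv A2) X1 X2 τ +
      starmain_S A1 A2 X1' X2' τ) τ = deriv (starmain_S (deriv A1) (deriv A2) X1 X2) τ +
      deriv (starmain_S A1 A2 X1' X2') τ := e
  rw [e', starmain_S_deriv d1 d2 h3 h4, starmain_S_deriv c1 c2 h5 h6]
  unfold starmain_S
  ring

/-- The algebraic identity at zero. -/
theorem starmain_alg (ν : ℝ) (hν : ν ≠ 0) (g : Isp) (a c : Fin 2) (k : Fin 4)
    (hk : k = 1 ∨ k = 2) (hg : cc ν k g = 0 ∧ dd ν k g = 0 ∧ ee ν k g = 0) (α α' α'' : ℂ) :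
    α * starmain_F ν g a c k 0 +
      2 * Complex.I * (α' * starmain_X1 ν g a c k 0 +
        α * (-(ν : ℂ)⁻¹ * starmain_X1 ν (D 2 0 g) a c k 0)) -
      (α'' * starmain_X0 ν g a c k 0 +
        2 * (α' * (-(ν : ℂ)⁻¹ * starmain_X0 ν (D 2 0 g) a c k 0)) +
        α * (-(ν : ℂ)⁻¹ * (-(ν : ℂ)⁻¹ * starmain_X0 ν (D 2 0 (D 2 0 g)) a c k 0))) = 0 := by
  have hνc : (ν : ℂ) ≠ 0 := by exact_mod_cast hν
  obtain ⟨h1, h2, h3⟩ := hg
  rw [cc_eq] at h1
  rw [dd_eq] at h2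
  rw [ee_eq] at h3
  have s1 := starmain_La_symm ν hν g 1 0 k hk
  have s2 := starmain_La_symm ν hν (D 2 0 g) 1 0 k hk
  have hz : ∀ (g : Isp) (a c : Fin 2), starmain_F ν g a c k 0 =
      (Complex.I * ν) ^ 8 * La ν a c k g := fun g a c => starmain_F_zero ν hν g a c k hk
  have hI := Complex.I_mul_I
  have hinv : (ν : ℂ)⁻¹ * ν = 1 := inv_mul_cancel₀ hνc
  have i2 : La ν 0 0 k (D 2 0 g) = -(Complex.I * ν) * La ν 0 1 k g := by
    linear_combination -h2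
  have i3 : La ν 1 1 k g = 2 * (ν : ℂ)⁻¹ ^ 2 * ((1 / 2 : ℂ) * La ν 0 0 k (D 2 0 (D 2 0 g)) +
      (Complex.I * ν) * La ν 0 1 k (D 2 0 g)) := by
    have : (ν : ℂ)⁻¹ ^ 2 * (ν : ℂ) ^ 2 = 1 := by rw [← mul_pow, hinv, one_pow]
    linear_combination (-2 * (ν : ℂ)⁻¹ ^ 2) * h3 - La ν 1 1 k g * this
  have i4 : La ν 1 1 k g = (ν : ℂ)⁻¹ ^ 2 * La ν 0 0 k (D 2 0 (D 2 0 g)) +
      2 * Complex.I * (ν : ℂ)⁻¹ * La ν 0 1 k (D 2 0 g) := by
    rw [i3]
    linear_combination (2 * Complex.I * (ν : ℂ)⁻¹ * La ν 0 1 k (D 2 0 g)) * hinv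
  unfold starmain_X0 starmain_X1
  fin_cases a <;> fin_cases c
  · simp only [Fin.zero_eta, Fin.isValue, zero_ne_one, and_self, if_false, mul_zero, add_zero,
      sub_zero, hz, h1]
  · simp only [Fin.zero_eta, Fin.mk_one, Fin.isValue, zero_ne_one, false_and, if_false, if_true,
      mul_zero, add_zero, zero_add, sub_zero, hz, h1, i2]
    linear_combination (-(α * (Complex.I * ν) ^ 8 * La ν 0 1 k g * (-(Complex.I ^ 2)))) * hinv +
      (α * (Complex.I * ν) ^ 8 * La ν 0 1 k g) * hI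
  · simp only [Fin.zero_eta, Fin.mk_one, Fin.isValue, zero_ne_one, and_false, if_false, if_true,
      mul_zero, add_zero, zero_add, sub_zero, hz, h1, i2, s1]
    linear_combination (-(α * (Complex.I * ν) ^ 8 * La ν 0 1 k g * (-(Complex.I ^ 2)))) * hinv +
      (α * (Complex.I * ν) ^ 8 * La ν 0 1 k g) * hI
  · simp only [Fin.mk_one, Fin.isValue, and_self, if_true,
      hz, h1, i2, i4, s1, s2]
    linear_combination (-2 * Complex.I * α' * (Complex.I * ν) ^ 8 * La ν 0 1 k g) * hinv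

theorem star_slice (ν : ℝ) (hν : ν ≠ 0) (b : R3 → ℂ) (hb : CB ν b) (g : Isp)
    (hg : ∀ k : Fin 4, (k = 1 ∨ k = 2) → cc ν k g = 0 ∧ dd ν k g = 0 ∧ ee ν k g = 0)
    (l : ℝ) (w : ℝ × ℝ) (a c : Fin 2) (i : Fin 4) (hi : i = 1 ∨ i = 2) :
    Gt ν b (D8 g) (pt l w) a c i = 0 := by
  have hIg := ig_Gt ν b hb (D8 g)
  have hint := hIg.app_int (pt l w) a c i
  have e1 : Gt ν b (D8 g) (pt l w) a c i =
      ∫ u : R3, act (un u) (Jt ν b (D8 g) u) (pt l w) a c i := isum_app hIg (pt l w) a c i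
  have e2 : ∫ u : R3, act (un u) (Jt ν b (D8 g) u) (pt l w) a c i =
      ∫ u1 : ℝ, ∫ u' : ℝ × ℝ, act (un (u1, u')) (Jt ν b (D8 g) (u1, u')) (pt l w) a c i :=
    integral_prod _ hint
  have hk := hint.integral_prod_left
  set A1 : ℝ → ℂ := Ac ν b l w i 1 with hA1
  set A2 : ℝ → ℂ := Ac ν b l w i 2 with hA2
  obtain ⟨cA1, sA1⟩ := Ac_smooth ν hν b hb l w i 1
  obtain ⟨cA2, sA2⟩ := Ac_smooth ν hν b hb l w i 2
  rw [← hA1] at cA1 sA1
  rw [← hA2] at cA2 sA2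
  have cA1' : ContDiff ℝ 2 A1 := cA1.of_le (WithTop.coe_le_coe.2 (le_top : (2 : ℕ∞) ≤ ⊤))
  have cA2' : ContDiff ℝ 2 A2 := cA2.of_le (WithTop.coe_le_coe.2 (le_top : (2 : ℕ∞) ≤ ⊤))
  have h12 : (1 : Fin 4) = 1 ∨ (1 : Fin 4) = 2 := Or.inl rfl
  have h22 : (2 : Fin 4) = 1 ∨ (2 : Fin 4) = 2 := Or.inr rfl
  set B0 := starmain_S A1 A2 (starmain_X0 ν g a c 1) (starmain_X0 ν g a c 2) with hB0
  set B1 := starmain_S A1 A2 (starmain_X1 ν g a c 1) (starmain_X1 ν g a c 2) with hB1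
  set B2 := starmain_S A1 A2 (starmain_F ν g a c 1) (starmain_F ν g a c 2) with hB2
  have hin : ∀ u1 : ℝ,
      (∫ u' : ℝ × ℝ, act (un (u1, u')) (Jt ν b (D8 g) (u1, u')) (pt l w) a c i) =
      ∫ τ : ℝ, Complex.exp (-(Complex.I * τ * u1)) *
        (B2 τ - 2 * u1 * B1 τ + (u1 : ℂ) ^ 2 * B0 τ) := by
    intro u1
    rw [star_fub ν hν b hb g l w a c i hi u1]
    congr 1
    funext τ
    congr 1
    rw [hB0, hB1, hB2]
    unfold starmain_S starmain_X0 starmain_X1 starmain_F shear Fhv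
    split_ifs <;> ring
  have cX0 : ∀ (k : Fin 4), (k = 1 ∨ k = 2) → ContDiff ℝ (2 : ℕ) (starmain_X0 ν g a c k) :=
    fun k hk => starmain_smooth ν (fun g => starmain_X0 ν g a c k)
      (fun g τ => starmain_X0_deriv ν g a c k hk τ) 2 g
  have cX1 : ∀ (k : Fin 4), (k = 1 ∨ k = 2) → ContDiff ℝ (1 : ℕ) (starmain_X1 ν g a c k) :=
    fun k hk => starmain_smooth ν (fun g => starmain_X1 ν g a c k)
      (fun g τ => starmain_X1_deriv ν g a c k hk τ) 1 g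
  have cX2 : ∀ (k : Fin 4), (k = 1 ∨ k = 2) → ContDiff ℝ (0 : ℕ) (starmain_F ν g a c k) :=
    fun k hk => starmain_smooth ν (fun g => starmain_F ν g a c k)
      (fun g τ => starmain_F_deriv ν g a c k hk τ) 0 g
  have cB0 : ContDiff ℝ 2 B0 :=
    starmain_S_contDiff (n := 2) cA1' cA2' (cX0 1 h12) (cX0 2 h22)
  have cB1 : ContDiff ℝ 1 B1 := by
    have h := starmain_S_contDiff (n := 1) (cA1'.of_le (by norm_num)) (cA2'.of_le (by norm_num))
      (cX1 1 h12) (cX1 2 h22)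
    exact_mod_cast h
  have cB2 : Continuous B2 := by
    have h := starmain_S_contDiff (n := 0) (cA1'.of_le (by norm_num)) (cA2'.of_le (by norm_num))
      (cX2 1 h12) (cX2 2 h22)
    exact h.continuous
  have key := star_1d B0 B1 B2 cB0 cB1 cB2 (starmain_S_supp sA1 sA2) (starmain_S_supp sA1 sA2)
    (starmain_S_supp sA1 sA2) (by
      refine hk.congr (Filter.Eventually.of_forall fun u1 => ?_)
      exact hin u1)
  rw [e1, e2]
  simp only [hin]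
  rw [key]
  have d1 : deriv B1 0 = starmain_S (deriv A1) (deriv A2) (starmain_X1 ν g a c 1)
      (starmain_X1 ν g a c 2) 0 + starmain_S A1 A2
      (fun τ => -(ν : ℂ)⁻¹ * starmain_X1 ν (D 2 0 g) a c 1 τ)
      (fun τ => -(ν : ℂ)⁻¹ * starmain_X1 ν (D 2 0 g) a c 2 τ) 0 := by
    rw [hB1, starmain_S_deriv (cA1'.of_le (by norm_num)) (cA2'.of_le (by norm_num))
      (fun τ => starmain_X1_deriv ν g a c 1 h12 τ) (fun τ => starmain_X1_deriv ν g a c 2 h22 τ)]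
  have d0 := starmain_S_deriv2 (τ := 0) cA1' cA2'
    (fun τ => starmain_X0_deriv ν g a c 1 h12 τ) (fun τ => starmain_X0_deriv ν g a c 2 h22 τ)
    (fun τ => (starmain_X0_deriv ν (D 2 0 g) a c 1 h12 τ).const_mul (-(ν : ℂ)⁻¹))
    (fun τ => (starmain_X0_deriv ν (D 2 0 g) a c 2 h22 τ).const_mul (-(ν : ℂ)⁻¹))
  rw [← hB0] at d0
  have a1 := starmain_alg ν hν g a c 1 h12 (hg 1 h12) (A1 0) (deriv A1 0) (deriv (deriv A1) 0)
  have a2 := starmain_alg ν hν g a c 2 h22 (hg 2 h22) (A2 0) (deriv A2 0) (deriv (deriv A2) 0)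
  have tot : B2 0 + 2 * Complex.I * deriv B1 0 - deriv (deriv B0) 0 = 0 := by
    rw [d1, d0, hB2]
    unfold starmain_S
    linear_combination a1 + a2
  rw [tot, mul_zero]

end SoCo
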