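import Pool.Agent.H.MP_0f3f77_al.Jt
import Pool.Agent.H.MP_0f3f77_al.SliceDop

/-!
The values of `act (un u) (sact ν η F)` at the slice points.

Let `x = pt l w`, `i ∈ {1, 2}`.  `(un u)⁻¹` has matrix `unM (-u)`; since `x 0 3 = 0`, `x 1 3 = 1`,
`y := lmul (unM (-u)) x = ((1, 0, l, 0), (-u_1, w_1 - u_2, w_2 - u_3, 1))`, and
`act (un u) G x a b i = G y a b i` because `(unM (-u)) k i = δ_{ki}` for `i ≤ 2`.
`sact ν η F y a b i = ∑ k, (sM ν η) k i F (lmul (sM ν η) y) a b k = [i=1] F_1 + (η_{i+1}/ν) F_2`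
(for `i = 1`: `F_1 + (η_2/ν) F_2`; for `i = 2`: `(η_3/ν) F_2`) at the point
`lmul (sM ν η) y = ((1, 0, τ/ν, 0), (-u_1, w_1 - u_2, (-η_1 u_1 + η_2 (w_1-u_2) + η_3 (w_2-u_3))/ν, 1))`
with `τ = η_1 + l η_3`.  This point is `rmul (pt (τ/ν) (Y, Z)) !![1, -u_1; 0, 1]` with
`Y = w_1 - u_2`, `Z = (η_2 Y + η_3 (w_2 - u_3 + l u_1))/ν`
(check: third coordinate of the second vector: `-u_1 τ/ν + Z`).
The covariance (`det = 1`): `F(rmul x' !![1, -u; 0, 1])_{00} = F_{00}`, `_{01} = F_{01} - u F_{00}`,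
`_{11} = F_{11} - 2 u F_{01} + u^2 F_{00}` at `x'`.
-/

open scoped Topology ContDiff
open MeasureTheory

noncomputable section

namespace SoCo

/-- The values of `F` after the shear by `u`. -/
def shear (u : ℝ) (v : Fv) (a b : Fin 2) (k : Fin 4) : ℂ :=
  v a b k - u * ((if a = 1 then v 0 b k else 0) + (if b = 1 then v a 0 k else 0)) +
    (if a = 1 ∧ b = 1 then (u : ℂ) ^ 2 * v 0 0 k else 0)

/-- The coefficients `S_{ik}`, `i, k ∈ {1, 2}`. -/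
def Sc2 (ν : ℝ) (i k : Fin 4) (η : R3) : ℝ :=
  if k = 1 then (if i = 1 then 1 else 0) else (if i = 1 then η.2.1 / ν else η.2.2 / ν)

theorem starpt_pt (ν : ℝ) (hν : ν ≠ 0) (l : ℝ) (w : ℝ × ℝ) (u η : R3) :
    lmul (sM ν η) (lmul (unM (-u)) (pt l w)) =
      rmul (pt ((η.1 + l * η.2.2) / ν)
        (w.1 - u.2.1, (η.2.1 * (w.1 - u.2.1) + η.2.2 * (w.2 - u.2.2 + l * u.1)) / ν))
        !![1, -u.1; 0, 1] := by
  funext a i
  fin_cases a <;> fin_cases i <;>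
    simp [lmul, rmul, sM, unM, pt, Fin.sum_univ_four, Fin.sum_univ_two] <;> field_simp <;> ring

theorem starpt_rho (u : ℝ) (v : Fv) (a b : Fin 2) (k : Fin 4) :
    rho !![1, -u; 0, 1] v a b k = shear u v a b k := by
  fin_cases a <;> fin_cases b <;>
    simp [rho, shear, Fin.sum_univ_two, Matrix.det_fin_two] <;> ring

theorem star_point (ν : ℝ) (F : Isp) (l : ℝ) (w : ℝ × ℝ) (u η : R3) (hη : η ∈ UU ν)
    (a b : Fin 2) (i : Fin 4) (hi : i = 1 ∨ i = 2) :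
    act (un u) (sact ν η F) (pt l w) a b i =
      (Sc2 ν i 1 η : ℂ) * shear u.1 (F (pt ((η.1 + l * η.2.2) / ν)
        (w.1 - u.2.1, (η.2.1 * (w.1 - u.2.1) + η.2.2 * (w.2 - u.2.2 + l * u.1)) / ν))) a b 1 +
      (Sc2 ν i 2 η : ℂ) * shear u.1 (F (pt ((η.1 + l * η.2.2) / ν)
        (w.1 - u.2.1, (η.2.1 * (w.1 - u.2.1) + η.2.2 * (w.2 - u.2.2 + l * u.1)) / ν))) a b 2 := by
  have h1 : act (un u) (sact ν η F) (pt l w) a b i =
      sact ν η F (lmul (unM (-u)) (pt l w)) a b i := by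
    rw [act_app]
    change ∑ k, ((unM (-u)) k i : ℂ) * sact ν η F (lmul (unM (-u)) (pt l w)) a b k = _
    rcases hi with rfl | rfl <;> simp [unM, Fin.sum_univ_four]
  have h2 : F (lmul (sM ν η) (lmul (unM (-u)) (pt l w))) =
      rho !![1, -u.1; 0, 1] (F (pt ((η.1 + l * η.2.2) / ν)
        (w.1 - u.2.1, (η.2.1 * (w.1 - u.2.1) + η.2.2 * (w.2 - u.2.2 + l * u.1)) / ν))) := by
    rw [starpt_pt ν (UU_ne hη).1]
    exact (isI F).cov _ _ (by simp [Matrix.det_fin_two])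
  rw [h1, sact_eq hη, act_app]
  change ∑ k, ((sM ν η) k i : ℂ) * F (lmul (sM ν η) (lmul (unM (-u)) (pt l w))) a b k = _
  rw [h2]
  simp only [starpt_rho, Fin.sum_univ_four]
  rcases hi with rfl | rfl <;> simp [sM, Sc2]

/-- The exponent in the new variables. -/
theorem star_exp (ν : ℝ) (hν : ν ≠ 0) (l : ℝ) (w : ℝ × ℝ) (u η : R3) :
    ex u η = Complex.exp (-(Complex.I * (η.1 + l * η.2.2) * u.1)) *
      Complex.exp (-(Complex.I * (η.2.1 * w.1 + η.2.2 * w.2))) *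
      Complex.exp (Complex.I * ν *
        ((η.2.1 * (w.1 - u.2.1) + η.2.2 * (w.2 - u.2.2 + l * u.1)) / ν : ℝ)) := by
  have hν' : (ν : ℂ) ≠ 0 := by exact_mod_cast hν
  rw [ex, ← Complex.exp_add, ← Complex.exp_add]
  congr 1
  push_cast
  field_simp
  ring

end SoCo
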