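import Mathlib

/-!
Symbol classes on the plane: `Sy m φ` means that `φ` is smooth and its `j`-th derivative is
`O((1 + |p|)^(m - j))` for every `j`.

Proofs.  `dy`, `dz`: `iteratedFDeriv ℝ j (fun p => fderiv ℝ φ p v)` is the composition of
`iteratedFDeriv ℝ j (fderiv ℝ φ)` with the evaluation at `v` (a continuous linear map of norm
≤ `‖v‖ = 1`), and `‖iteratedFDeriv ℝ j (fderiv ℝ φ) p‖ = ‖iteratedFDeriv ℝ (j + 1) φ p‖`
(`norm_iteratedFDeriv_fderiv`); use `ContinuousLinearMap.norm_iteratedFDeriv_comp_left` or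
`norm_iteratedFDeriv_clm_apply_const`.
Multiplication by the coordinate `p.1` (a continuous linear map, cast to `ℂ`): Leibniz
(`norm_iteratedFDeriv_mul_le` or `ContinuousLinearMap.norm_iteratedFDeriv_le_of_bilinear`), the
derivatives of `p.1` of order `≥ 2` vanish, `|p.1| ≤ 1 + ‖p‖`, and the derivative of order one has
norm `≤ 1`:  `‖D^j (p.1 φ)‖ ≤ (1 + ‖p‖) ‖D^j φ‖ + j ‖D^(j-1) φ‖`.
`mono`: `1 ≤ 1 + ‖p‖` and one may take `C ≥ 0`.
-/

open scoped Topology ContDiff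
open MeasureTheory

noncomputable section

namespace SoCo

structure Sy (m : ℤ) (φ : ℝ × ℝ → ℂ) : Prop where
  smooth : ContDiff ℝ ∞ φ
  bd : ∀ j : ℕ, ∃ C : ℝ, ∀ p, ‖iteratedFDeriv ℝ j φ p‖ ≤ C * (1 + ‖p‖) ^ (m - j)

/-- The derivative in the first variable. -/
def dy (φ : ℝ × ℝ → ℂ) : ℝ × ℝ → ℂ := fun p => fderiv ℝ φ p (1, 0)

/-- The derivative in the second variable. -/
def dz (φ : ℝ × ℝ → ℂ) : ℝ × ℝ → ℂ := fun p => fderiv ℝ φ p (0, 1)

variable {m m' : ℤ} {φ ψ : ℝ × ℝ → ℂ}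

theorem sym_one_le (p : ℝ × ℝ) : (1 : ℝ) ≤ 1 + ‖p‖ := by
  have := norm_nonneg p
  linarith

theorem sym_pos (p : ℝ × ℝ) : (0 : ℝ) < 1 + ‖p‖ := by
  have := norm_nonneg p
  linarith

theorem sym_bd (h : Sy m φ) (j : ℕ) :
    ∃ C : ℝ, 0 ≤ C ∧ ∀ p, ‖iteratedFDeriv ℝ j φ p‖ ≤ C * (1 + ‖p‖) ^ (m - j) := by
  obtain ⟨C, hC⟩ := h.bd j
  refine ⟨|C|, abs_nonneg _, fun p => (hC p).trans ?_⟩
  exact mul_le_mul_of_nonneg_right (le_abs_self _) (zpow_nonneg (sym_pos p).le _)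

theorem Sy.mono (h : Sy m φ) (hm : m ≤ m') : Sy m' φ := by
  refine ⟨h.smooth, fun j => ?_⟩
  obtain ⟨C, h0, hC⟩ := sym_bd h j
  refine ⟨C, fun p => (hC p).trans ?_⟩
  exact mul_le_mul_of_nonneg_left (zpow_le_zpow_right₀ (sym_one_le p) (by omega)) h0

theorem Sy.add (h : Sy m φ) (h' : Sy m ψ) : Sy m (fun p => φ p + ψ p) := by
  refine ⟨h.smooth.add h'.smooth, fun j => ?_⟩
  obtain ⟨C, -, hC⟩ := sym_bd h j
  obtain ⟨C', -, hC'⟩ := sym_bd h' j
  refine ⟨C + C', fun p => ?_⟩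
  have e : iteratedFDeriv ℝ j (fun p => φ p + ψ p) p =
      iteratedFDeriv ℝ j φ p + iteratedFDeriv ℝ j ψ p :=
    fun_iteratedFDeriv_add_apply
      (h.smooth.contDiffAt.of_le (by exact_mod_cast le_top))
      (h'.smooth.contDiffAt.of_le (by exact_mod_cast le_top))
  rw [e, add_mul]
  exact (norm_add_le _ _).trans (add_le_add (hC p) (hC' p))

theorem Sy.smul (h : Sy m φ) (c : ℂ) : Sy m (fun p => c * φ p) := by
  refine ⟨contDiff_const.mul h.smooth, fun j => ?_⟩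
  obtain ⟨C, -, hC⟩ := sym_bd h j
  refine ⟨‖c‖ * C, fun p => ?_⟩
  have e0 : (fun p => c * φ p) = c • φ := rfl
  have e : iteratedFDeriv ℝ j (fun p => c * φ p) p = c • iteratedFDeriv ℝ j φ p := by
    rw [e0]
    exact iteratedFDeriv_const_smul_apply (h.smooth.contDiffAt.of_le (by exact_mod_cast le_top))
  rw [e, norm_smul, mul_assoc]
  exact mul_le_mul_of_nonneg_left (hC p) (norm_nonneg _)

/-- A directional derivative. -/
theorem sym_der (h : Sy m φ) (v : ℝ × ℝ) (hv : ‖v‖ ≤ 1) :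
    Sy (m - 1) (fun p => fderiv ℝ φ p v) := by
  have hs : ContDiff ℝ ∞ (fderiv ℝ φ) := h.smooth.fderiv_right (by simp)
  refine ⟨hs.clm_apply contDiff_const, fun j => ?_⟩
  obtain ⟨C, h0, hC⟩ := sym_bd h (j + 1)
  refine ⟨C, fun p => ?_⟩
  have h1 := norm_iteratedFDeriv_clm_apply_const (n := j) (c := v) (x := p) hs.contDiffAt
    (by exact_mod_cast le_top : ((j : ℕ) : WithTop ℕ∞) ≤ ∞)
  rw [norm_iteratedFDeriv_fderiv] at h1
  have h2 : m - 1 - (j : ℤ) = m - ((j + 1 : ℕ) : ℤ) := by push_cast; ring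
  rw [h2]
  calc _ ≤ ‖v‖ * ‖iteratedFDeriv ℝ (j + 1) φ p‖ := h1
    _ ≤ 1 * ‖iteratedFDeriv ℝ (j + 1) φ p‖ := mul_le_mul_of_nonneg_right hv (norm_nonneg _)
    _ = ‖iteratedFDeriv ℝ (j + 1) φ p‖ := one_mul _
    _ ≤ _ := hC p

theorem Sy.der_y (h : Sy m φ) : Sy (m - 1) (dy φ) := by
  refine sym_der h (1, 0) ?_
  simp [Prod.norm_def]

theorem Sy.der_z (h : Sy m φ) : Sy (m - 1) (dz φ) := by
  refine sym_der h (0, 1) ?_
  simp [Prod.norm_def]

/-- Products of symbols. -/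
theorem sym_mul (h : Sy m φ) (h' : Sy m' ψ) : Sy (m + m') (fun p => φ p * ψ p) := by
  refine ⟨h.smooth.mul h'.smooth, fun j => ?_⟩
  choose C h0 hC using fun i => sym_bd h i
  choose C' h0' hC' using fun i => sym_bd h' i
  refine ⟨∑ i ∈ Finset.range (j + 1), (j.choose i : ℝ) * (C i * C' (j - i)), fun p => ?_⟩
  refine (norm_iteratedFDeriv_mul_le h.smooth h'.smooth p
    (by exact_mod_cast le_top : ((j : ℕ) : WithTop ℕ∞) ≤ ∞)).trans ?_
  rw [Finset.sum_mul]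
  refine Finset.sum_le_sum fun i hi => ?_
  rw [Finset.mem_range] at hi
  rw [mul_assoc, mul_assoc]
  refine mul_le_mul_of_nonneg_left ?_ (Nat.cast_nonneg _)
  have h1 : ((1 : ℝ) + ‖p‖) ^ (m + m' - (j : ℤ)) =
      (1 + ‖p‖) ^ (m - (i : ℤ)) * (1 + ‖p‖) ^ (m' - ((j - i : ℕ) : ℤ)) := by
    rw [← zpow_add₀ (sym_pos p).ne']
    congr 1
    have : ((j - i : ℕ) : ℤ) = (j : ℤ) - i := by omega
    rw [this]
    ring
  rw [h1]
  calc ‖iteratedFDeriv ℝ i φ p‖ * ‖iteratedFDeriv ℝ (j - i) ψ p‖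
      ≤ (C i * (1 + ‖p‖) ^ (m - (i : ℤ))) * (C' (j - i) * (1 + ‖p‖) ^ (m' - ((j - i : ℕ) : ℤ))) :=
        mul_le_mul (hC i p) (hC' (j - i) p) (norm_nonneg _)
          (mul_nonneg (h0 i) (zpow_nonneg (sym_pos p).le _))
    _ = _ := by ring

/-- A linear function of norm at most one. -/
theorem sym_lin (L : ℝ × ℝ →L[ℝ] ℂ) (hL : ‖L‖ ≤ 1) : Sy 1 (fun p => L p) := by
  refine ⟨L.contDiff, fun j => ⟨1, fun p => ?_⟩⟩
  rw [one_mul]
  rcases j with _ | _ | j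
  · rw [norm_iteratedFDeriv_zero]
    have h1 : ‖L p‖ ≤ 1 * ‖p‖ := L.le_of_opNorm_le hL p
    simp only [Nat.cast_zero, sub_zero, zpow_one]
    linarith
  · rw [zero_add, norm_iteratedFDeriv_one]
    have h1 : fderiv ℝ (fun p => L p) p = L := L.fderiv
    rw [h1]
    simpa using hL
  · rw [← norm_iteratedFDeriv_fderiv]
    have h1 : fderiv ℝ (fun p => L p) = fun _ => L := by
      funext y
      exact L.fderiv
    rw [h1, iteratedFDeriv_const_of_ne (by omega)]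
    simp only [Pi.zero_apply, norm_zero]
    exact zpow_nonneg (sym_pos p).le _

theorem Sy.mul_y (h : Sy m φ) : Sy (m + 1) (fun p => (p.1 : ℂ) * φ p) := by
  have hL : Sy 1 (fun p : ℝ × ℝ =>
      (Complex.ofRealCLM.comp (ContinuousLinearMap.fst ℝ ℝ ℝ)) p) := by
    apply sym_lin
    refine ContinuousLinearMap.opNorm_le_bound _ zero_le_one fun p => ?_
    rw [one_mul]
    change ‖((p.1 : ℝ) : ℂ)‖ ≤ ‖p‖
    rw [Complex.norm_real]
    exact norm_fst_le p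
  have h2 := sym_mul hL h
  rw [add_comm] at h2
  exact h2

theorem Sy.mul_z (h : Sy m φ) : Sy (m + 1) (fun p => (p.2 : ℂ) * φ p) := by
  have hL : Sy 1 (fun p : ℝ × ℝ =>
      (Complex.ofRealCLM.comp (ContinuousLinearMap.snd ℝ ℝ ℝ)) p) := by
    apply sym_lin
    refine ContinuousLinearMap.opNorm_le_bound _ zero_le_one fun p => ?_
    rw [one_mul]
    change ‖((p.2 : ℝ) : ℂ)‖ ≤ ‖p‖
    rw [Complex.norm_real]
    exact norm_snd_le p
  have h2 := sym_mul hL h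
  rw [add_comm] at h2
  exact h2

theorem sym_snd (h : Sy m φ) (p v w : ℝ × ℝ) :
    fderiv ℝ (fun p => fderiv ℝ φ p v) p w = fderiv ℝ (fderiv ℝ φ) p w v := by
  have hs : ContDiff ℝ ∞ (fderiv ℝ φ) := h.smooth.fderiv_right (by simp)
  have hd : HasFDerivAt (fderiv ℝ φ) (fderiv ℝ (fderiv ℝ φ) p) p :=
    ((hs.differentiable (by simp)) p).hasFDerivAt
  have h1 := ((ContinuousLinearMap.apply ℝ ℂ v).hasFDerivAt
    (x := fderiv ℝ φ p)).comp p hd
  have h2 : HasFDerivAt (fun p => fderiv ℝ φ p v)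
      ((ContinuousLinearMap.apply ℝ ℂ v).comp (fderiv ℝ (fderiv ℝ φ) p)) p := h1
  rw [h2.fderiv]
  rfl

theorem dy_dz_comm (h : Sy m φ) : dy (dz φ) = dz (dy φ) := by
  funext p
  have h1 : dy (dz φ) p = fderiv ℝ (fderiv ℝ φ) p (1, 0) (0, 1) := sym_snd h p (0, 1) (1, 0)
  have h2 : dz (dy φ) p = fderiv ℝ (fderiv ℝ φ) p (0, 1) (1, 0) := sym_snd h p (1, 0) (0, 1)
  rw [h1, h2]
  have h3 : IsSymmSndFDerivAt ℝ φ p :=
    h.smooth.contDiffAt.isSymmSndFDerivAt (by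
      rw [minSmoothness_of_isRCLikeNormedField]
      exact WithTop.coe_le_coe.mpr (le_top : (2 : ℕ∞) ≤ ⊤))
  exact h3 (1, 0) (0, 1)

end SoCo
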