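import Pool.Agent.H.MP_0f3f77_al.Sym

/-!
The regularized Fourier integral `Lf ν φ = (iν)^(-8) ∫ (∂_z^8 φ) e^{iνz}` on symbols.

Proofs.  For `φ` in `Sy 5`, `ψ = dz^[8] φ` is in `Sy (-3)`, hence continuous with
`‖ψ p‖ ≤ C (1 + ‖p‖)^(-3)`, integrable on the plane (`integrable_one_add_norm`, finrank `2 < 3`).
`Lf_dy`: `dz^[8] (dy φ) = dy ψ`, in `Sy (-4)`, and `∫ (dy ψ) e^{iνz} = 0` by integration by
parts (`integral_mul_fderiv_eq_neg_fderiv_mul_of_integrable` or
`integral_bilinear_hasLineDerivAt_right_eq_neg_left_of_integrable` in the direction `(1, 0)`; the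
derivative of `e^{iνz}` in this direction is `0`).
`Lf_dz`: the same in the direction `(0, 1)`, `∂_z e^{iνz} = iν e^{iνz}`.
`Lf_yz_*`: `dz (y φ) = y dz φ`, `dy (y φ) = φ + y dy φ`, `dz (z φ) = φ + z dz φ`,
`dy (z φ) = z dy φ`, and additivity.
`Lf_eq`: for `φ ∈ Sy (-3)` integrate by parts eight times (each `dz^[k] φ ∈ Sy (-3 - k)` is
integrable): `∫ (dz^[8] φ) e^{iνz} = (-iν)^8 ∫ φ e^{iνz}`.
-/

open scoped Topology ContDiff
open MeasureTheory

noncomputable section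

namespace SoCo

/-- The regularized Fourier integral. -/
def Lf (ν : ℝ) (φ : ℝ × ℝ → ℂ) : ℂ :=
  ((Complex.I * ν) ^ 8)⁻¹ * ∫ p : ℝ × ℝ, (dz^[8] φ) p * Complex.exp (Complex.I * ν * p.2)

theorem Sy.iter_dz {m : ℤ} {φ : ℝ × ℝ → ℂ} (h : Sy m φ) (k : ℕ) : Sy (m - k) (dz^[k] φ) := by
  induction k with
  | zero => simpa using h
  | succ k ih =>
    rw [Function.iterate_succ_apply']
    have := ih.der_z
    rwa [show m - (k : ℤ) - 1 = m - ((k + 1 : ℕ) : ℤ) by push_cast; ring] at this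

theorem syml_integrable_one : Integrable (fun p : ℝ × ℝ => (1 + ‖p‖) ^ (-3 : ℤ)) := by
  have h1 : Integrable (fun p : ℝ × ℝ => (1 + ‖p‖) ^ (-(3 : ℝ))) volume :=
    integrable_one_add_norm (by simp; norm_num)
  refine h1.congr (Filter.Eventually.of_forall fun p => ?_)
  have : (-(3 : ℝ)) = ((-3 : ℤ) : ℝ) := by norm_num
  simp only [this]
  rw [Real.rpow_intCast]

theorem syml_integrable {φ : ℝ × ℝ → ℂ} (hc : Continuous φ) {C : ℝ}
    (h : ∀ p, ‖φ p‖ ≤ C * (1 + ‖p‖) ^ (-3 : ℤ)) : Integrable φ :=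
  (syml_integrable_one.const_mul C).mono' hc.aestronglyMeasurable
    (Filter.Eventually.of_forall h)

theorem Sy.integrable {φ : ℝ × ℝ → ℂ} (h : Sy (-3) φ) : Integrable φ := by
  obtain ⟨C, hC⟩ := h.bd 0
  refine syml_integrable h.smooth.continuous (C := C) fun p => ?_
  have := hC p
  rw [norm_iteratedFDeriv_zero] at this
  simpa using this

/-- The phase. -/
def syml_e (ν : ℝ) : ℝ × ℝ → ℂ := fun p => Complex.exp (Complex.I * ν * p.2)

theorem syml_norm_e (ν : ℝ) (p : ℝ × ℝ) : ‖syml_e ν p‖ = 1 := by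
  unfold syml_e
  have : Complex.I * ν * p.2 = ((ν * p.2 : ℝ) : ℂ) * Complex.I := by
    push_cast; ring
  rw [this, Complex.norm_exp_ofReal_mul_I]

theorem syml_hasFDerivAt_e (ν : ℝ) (p : ℝ × ℝ) :
    HasFDerivAt (syml_e ν) (syml_e ν p • ((Complex.I * ν) •
      (Complex.ofRealCLM.comp (ContinuousLinearMap.snd ℝ ℝ ℝ)))) p := by
  have h1 : HasFDerivAt (fun p : ℝ × ℝ => ((p.2 : ℝ) : ℂ))
      (Complex.ofRealCLM.comp (ContinuousLinearMap.snd ℝ ℝ ℝ)) p :=
    (Complex.ofRealCLM.comp (ContinuousLinearMap.snd ℝ ℝ ℝ)).hasFDerivAt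
  exact (h1.const_mul (Complex.I * ν)).cexp

theorem syml_fderiv_e_fst (ν : ℝ) (p : ℝ × ℝ) : fderiv ℝ (syml_e ν) p (1, 0) = 0 := by
  rw [(syml_hasFDerivAt_e ν p).fderiv]
  simp

theorem syml_fderiv_e_snd (ν : ℝ) (p : ℝ × ℝ) :
    fderiv ℝ (syml_e ν) p (0, 1) = Complex.I * ν * syml_e ν p := by
  rw [(syml_hasFDerivAt_e ν p).fderiv]
  simp
  ring

theorem syml_continuous_e (ν : ℝ) : Continuous (syml_e ν) := by
  unfold syml_e
  fun_prop

theorem syml_integrable_e (ν : ℝ) {φ : ℝ × ℝ → ℂ} (h : Integrable φ) :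
    Integrable (fun p => syml_e ν p * φ p) := by
  refine h.bdd_mul (c := 1) (syml_continuous_e ν).aestronglyMeasurable ?_
  exact Filter.Eventually.of_forall fun p => (syml_norm_e ν p).le

/-- Integration by parts in the second variable. -/
theorem syml_parts_z (ν : ℝ) {ψ : ℝ × ℝ → ℂ} (h : Sy (-3) ψ) :
    ∫ p : ℝ × ℝ, dz ψ p * Complex.exp (Complex.I * ν * p.2)
      = -(Complex.I * ν) * ∫ p : ℝ × ℝ, ψ p * Complex.exp (Complex.I * ν * p.2) := by
  have hi := h.integrable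
  have hi' : Integrable (dz ψ) := (h.der_z.mono (by norm_num)).integrable
  have key := integral_mul_fderiv_eq_neg_fderiv_mul_of_integrable (μ := (volume : Measure (ℝ × ℝ)))
    (f := syml_e ν) (g := ψ) (v := (0, 1))
    (by
      simp only [syml_fderiv_e_snd]
      have := (syml_integrable_e ν hi).const_mul (Complex.I * ν)
      simpa only [mul_assoc] using this)
    (syml_integrable_e ν hi') (syml_integrable_e ν hi)
    (fun x _ => (syml_hasFDerivAt_e ν x).differentiableAt)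
    (fun x _ => (h.smooth.differentiable (by simp)) x)
  have e1 : ∀ p : ℝ × ℝ, dz ψ p * Complex.exp (Complex.I * ν * p.2)
      = syml_e ν p * fderiv ℝ ψ p (0, 1) := fun p => mul_comm _ _
  have e2 : ∀ p : ℝ × ℝ, fderiv ℝ (syml_e ν) p (0, 1) * ψ p
      = (Complex.I * ν) * (ψ p * Complex.exp (Complex.I * ν * p.2)) := by
    intro p
    rw [syml_fderiv_e_snd, syml_e]
    ring
  simp only [e1]
  rw [key]
  simp only [e2]
  rw [integral_const_mul]
  ring

/-- Integration by parts in the first variable. -/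
theorem syml_parts_y (ν : ℝ) {ψ : ℝ × ℝ → ℂ} (h : Sy (-3) ψ) :
    ∫ p : ℝ × ℝ, dy ψ p * Complex.exp (Complex.I * ν * p.2) = 0 := by
  have hi := h.integrable
  have hi' : Integrable (dy ψ) := (h.der_y.mono (by norm_num)).integrable
  have key := integral_mul_fderiv_eq_neg_fderiv_mul_of_integrable (μ := (volume : Measure (ℝ × ℝ)))
    (f := syml_e ν) (g := ψ) (v := (1, 0))
    (by
      simp only [syml_fderiv_e_fst, zero_mul]
      exact integrable_zero _ _ _)
    (syml_integrable_e ν hi') (syml_integrable_e ν hi)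
    (fun x _ => (syml_hasFDerivAt_e ν x).differentiableAt)
    (fun x _ => (h.smooth.differentiable (by simp)) x)
  have e1 : ∀ p : ℝ × ℝ, dy ψ p * Complex.exp (Complex.I * ν * p.2)
      = syml_e ν p * fderiv ℝ ψ p (1, 0) := fun p => mul_comm _ _
  simp only [e1]
  rw [key]
  simp [syml_fderiv_e_fst]

theorem syml_iter_add {m : ℤ} {φ ψ : ℝ × ℝ → ℂ} (h : Sy m φ) (h' : Sy m ψ) (k : ℕ) :
    dz^[k] (fun p => φ p + ψ p) = fun p => dz^[k] φ p + dz^[k] ψ p := by
  induction k with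
  | zero => rfl
  | succ k ih =>
    rw [Function.iterate_succ_apply', Function.iterate_succ_apply', Function.iterate_succ_apply', ih]
    funext p
    have h1 := ((h.iter_dz k).smooth.differentiable (by simp)) p
    have h2 := ((h'.iter_dz k).smooth.differentiable (by simp)) p
    simp only [dz]
    rw [fderiv_fun_add h1 h2]
    rfl

theorem syml_iter_smul {m : ℤ} {φ : ℝ × ℝ → ℂ} (h : Sy m φ) (c : ℂ) (k : ℕ) :
    dz^[k] (fun p => c * φ p) = fun p => c * dz^[k] φ p := by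
  induction k with
  | zero => rfl
  | succ k ih =>
    rw [Function.iterate_succ_apply', Function.iterate_succ_apply', ih]
    funext p
    have h1 := ((h.iter_dz k).smooth.differentiable (by simp)) p
    simp only [dz]
    rw [fderiv_const_mul h1]
    rfl

theorem syml_iter_dy {m : ℤ} {φ : ℝ × ℝ → ℂ} (h : Sy m φ) (k : ℕ) :
    dz^[k] (dy φ) = dy (dz^[k] φ) := by
  induction k with
  | zero => rfl
  | succ k ih =>
    rw [Function.iterate_succ_apply', Function.iterate_succ_apply', ih,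
      dy_dz_comm (h.iter_dz k)]

theorem syml_int8 (ν : ℝ) {φ : ℝ × ℝ → ℂ} (h : Sy 5 φ) :
    Integrable (fun p : ℝ × ℝ => (dz^[8] φ) p * Complex.exp (Complex.I * ν * p.2)) := by
  have h8 : Sy (-3) (dz^[8] φ) := by
    have := h.iter_dz 8
    norm_num at this
    exact this
  have := syml_integrable_e ν h8.integrable
  refine this.congr (Filter.Eventually.of_forall fun p => ?_)
  exact mul_comm _ _

theorem Lf_add (ν : ℝ) {φ ψ : ℝ × ℝ → ℂ} (h : Sy 5 φ) (h' : Sy 5 ψ) :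
    Lf ν (fun p => φ p + ψ p) = Lf ν φ + Lf ν ψ := by
  unfold Lf
  rw [syml_iter_add h h' 8]
  simp only [add_mul]
  rw [integral_add (syml_int8 ν h) (syml_int8 ν h'), mul_add]

theorem Lf_smul (ν : ℝ) {φ : ℝ × ℝ → ℂ} (h : Sy 5 φ) (c : ℂ) :
    Lf ν (fun p => c * φ p) = c * Lf ν φ := by
  unfold Lf
  rw [syml_iter_smul h c 8]
  simp only [mul_assoc]
  rw [integral_const_mul]
  ring

theorem Lf_dy (ν : ℝ) {φ : ℝ × ℝ → ℂ} (h : Sy 5 φ) : Lf ν (dy φ) = 0 := by
  have h8 : Sy (-3) (dz^[8] φ) := by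
    have := h.iter_dz 8
    norm_num at this
    exact this
  unfold Lf
  rw [syml_iter_dy h 8, syml_parts_y ν h8, mul_zero]

theorem Lf_dz (ν : ℝ) {φ : ℝ × ℝ → ℂ} (h : Sy 5 φ) :
    Lf ν (dz φ) = -(Complex.I * ν) * Lf ν φ := by
  have h8 : Sy (-3) (dz^[8] φ) := by
    have := h.iter_dz 8
    norm_num at this
    exact this
  unfold Lf
  have : dz^[8] (dz φ) = dz (dz^[8] φ) := by
    rw [← Function.iterate_succ_apply, Function.iterate_succ_apply']
  rw [this, syml_parts_z ν h8]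
  ring

theorem syml_iter_eq {φ : ℝ × ℝ → ℂ} (h : ContDiff ℝ ∞ φ) (k : ℕ) (p : ℝ × ℝ) :
    dz^[k] φ p = iteratedFDeriv ℝ k φ p (fun _ => (0, 1)) := by
  induction k generalizing p with
  | zero => simp
  | succ k ih =>
    rw [Function.iterate_succ_apply']
    have e1 : dz^[k] φ = fun p => iteratedFDeriv ℝ k φ p (fun _ => (0, 1)) := by
      funext p; exact ih p
    rw [e1, dz, iteratedFDeriv_succ_apply_left]
    have hd : DifferentiableAt ℝ (iteratedFDeriv ℝ k φ) p :=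
      (h.differentiable_iteratedFDeriv (m := k) (by exact_mod_cast ENat.natCast_lt_top k)) p
    have h2 : HasFDerivAt (fun p => iteratedFDeriv ℝ k φ p (fun _ => ((0, 1) : ℝ × ℝ)))
        ((ContinuousMultilinearMap.apply ℝ (fun _ : Fin k => ℝ × ℝ) ℂ (fun _ => (0, 1))).comp
          (fderiv ℝ (iteratedFDeriv ℝ k φ) p)) p :=
      (ContinuousMultilinearMap.apply ℝ (fun _ : Fin k => ℝ × ℝ) ℂ
        (fun _ => (0, 1))).hasFDerivAt.comp p hd.hasFDerivAt
    rw [h2.fderiv]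
    rfl

/-- A bound for `Lf`. -/
theorem Lf_bound (ν : ℝ) : ∃ K : ℝ, 0 ≤ K ∧ ∀ (φ : ℝ × ℝ → ℂ) (C : ℝ), ContDiff ℝ ∞ φ →
    (∀ p, ‖iteratedFDeriv ℝ 8 φ p‖ ≤ C * (1 + ‖p‖) ^ (-3 : ℤ)) → ‖Lf ν φ‖ ≤ K * C := by
  refine ⟨‖((Complex.I * ν) ^ 8)⁻¹‖ * ∫ p : ℝ × ℝ, (1 + ‖p‖) ^ (-3 : ℤ), ?_, ?_⟩
  · refine mul_nonneg (norm_nonneg _) (integral_nonneg fun p => ?_)
    simp only [Pi.zero_apply]
    positivity
  intro φ C hφ hb
  unfold Lf
  rw [norm_mul, mul_assoc]
  refine mul_le_mul_of_nonneg_left ?_ (norm_nonneg _)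
  have h1 : ‖∫ p : ℝ × ℝ, (dz^[8] φ) p * Complex.exp (Complex.I * ν * p.2)‖
      ≤ ∫ p : ℝ × ℝ, C * (1 + ‖p‖) ^ (-3 : ℤ) := by
    refine norm_integral_le_of_norm_le (syml_integrable_one.const_mul C)
      (Filter.Eventually.of_forall fun p => ?_)
    rw [norm_mul]
    have h2 := syml_norm_e ν p
    unfold syml_e at h2
    rw [h2, mul_one, syml_iter_eq hφ]
    refine le_trans (ContinuousMultilinearMap.le_opNorm _ _) ?_
    have h3 : ‖((0, 1) : ℝ × ℝ)‖ = 1 := by simp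
    simp only [h3, Finset.prod_const_one, mul_one]
    exact hb p
  rw [integral_const_mul] at h1
  linarith

end SoCo
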