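import Pool.Agent.H.MP_0f3f77_al.DerivBound

/-!
`Isp` is Hausdorff and locally convex; evaluations are continuous.

Proofs.  Hausdorff: `WithSeminorms.separating_iff_T1` (or `T1_of_separating`) for
`withSeminorms_pn`; if `pn n f = 0` for all `n`, then `f x = 0` on `Sc` (from `norm_deriv_le` with
`j = 0` and `norm_iteratedFDeriv_zero`), so `f = 0` by `eq_zero_of_Sc`.
A T1 topological group is T2.
Locally convex: `WithSeminorms.toLocallyConvexSpace` (over `ℝ` or `ℂ`; restrict scalars if
necessary: `LocallyConvexSpace ℝ Isp` with the real module structure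
`Module.complexToReal`).
Continuity of the evaluation `evL x`: `value_bound` and
`WithSeminorms.continuous_of_isBounded`/`Seminorm.cont_withSeminorms_normedSpace` or
`LinearMap.continuous_of_...`.
-/

open scoped Topology ContDiff
open MeasureTheory

noncomputable section

namespace SoCo

instance instT2Isp : T2Space Isp := by
  have h1 : T1Space Isp := by
    refine withSeminorms_pn.T1_of_separating fun f hf => ?_
    by_contra hcon
    push Not at hcon
    refine hf (eq_zero_of_Sc f fun x hx => ?_)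
    have h2 := norm_deriv_le f (le_refl 0) x hx
    rw [norm_iteratedFDeriv_zero, hcon 0] at h2
    exact norm_le_zero_iff.mp h2
  infer_instance

instance instLCIsp : LocallyConvexSpace ℝ Isp := withSeminorms_pn.toLocallyConvexSpace

/-- A linear map from `Isp` to a normed space bounded by one of the seminorms is continuous. -/
theorem cont_of_bound {Y : Type} [NormedAddCommGroup Y] [NormedSpace ℂ Y] (T : Isp →ₗ[ℂ] Y)
    (n : ℕ) (C : ℝ) (h : ∀ f, ‖T f‖ ≤ C * pn n f) : Continuous T := by
  refine WithSeminorms.continuous_normedSpace_rng Y withSeminorms_pn T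
    ⟨{n}, C.toNNReal, fun f => ?_⟩
  rw [Finset.sup_singleton]
  show ‖T f‖ ≤ (C.toNNReal : ℝ) * pn n f
  exact (h f).trans (mul_le_mul_of_nonneg_right C.le_coe_toNNReal (apply_nonneg _ _))

theorem topi_sup_le (s : Finset ℕ) (f : Isp) :
    s.sup (pn : ℕ → Seminorm ℂ Isp) f ≤ pn (s.sup id) f := by
  have h : s.sup (pn : ℕ → Seminorm ℂ Isp) ≤ pn (s.sup id) := by
    refine Finset.sup_le fun i hi => ?_
    intro g
    exact pn_mono (Finset.le_sup (f := id) hi) g
  exact h f

theorem topi_bound (q : Seminorm ℂ Isp) (hq : Continuous q) :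
    ∃ (n : ℕ) (C : ℝ), 0 ≤ C ∧ ∀ f, q f ≤ C * pn n f := by
  obtain ⟨s, C, -, hC⟩ := Seminorm.bound_of_continuous withSeminorms_pn q hq
  refine ⟨s.sup id, C, C.2, fun f => ?_⟩
  have h1 : q f ≤ (C : ℝ) * s.sup (pn : ℕ → Seminorm ℂ Isp) f := hC f
  exact h1.trans (mul_le_mul_of_nonneg_left (topi_sup_le s f) C.2)

/-- Conversely. -/
theorem bound_of_cont {Y : Type} [NormedAddCommGroup Y] [NormedSpace ℂ Y] (T : Isp →L[ℂ] Y) :
    ∃ (n : ℕ) (C : ℝ), 0 ≤ C ∧ ∀ f, ‖T f‖ ≤ C * pn n f :=
  topi_bound ((normSeminorm ℂ Y).comp (T : Isp →ₗ[ℂ] Y)) (continuous_norm.comp T.continuous)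

theorem continuous_pn (n : ℕ) : Continuous (pn n) := withSeminorms_pn.continuous_seminorm n

/-- A linear endomorphism of `Isp` with seminorm bounds is continuous. -/
theorem cont_of_bounds (T : Isp →ₗ[ℂ] Isp)
    (h : ∀ n, ∃ (m : ℕ) (C : ℝ), ∀ f, pn n (T f) ≤ C * pn m f) : Continuous T := by
  refine WithSeminorms.continuous_of_isBounded withSeminorms_pn withSeminorms_pn T
    (Seminorm.IsBounded.of_real fun n => ?_)
  obtain ⟨m, C, hC⟩ := h n
  refine ⟨{m}, C, fun f => ?_⟩
  rw [Finset.sup_singleton]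
  exact hC f

/-- Conversely. -/
theorem bounds_of_cont (T : Isp →L[ℂ] Isp) (n : ℕ) :
    ∃ (m : ℕ) (C : ℝ), 0 ≤ C ∧ ∀ f, pn n (T f) ≤ C * pn m f := by
  have hc : Continuous fun f => pn n (T f) := (continuous_pn n).comp T.continuous
  have hq : Continuous ((pn n).comp (T : Isp →ₗ[ℂ] Isp)) := hc
  obtain ⟨m, C, hC, h⟩ := topi_bound ((pn n).comp (T : Isp →ₗ[ℂ] Isp)) hq
  refine ⟨m, C, hC, fun f => ?_⟩
  have h1 := h f
  rw [Seminorm.comp_apply] at h1
  exact h1

/-- Convergence in `Isp`. -/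
theorem tendsto_iff {ι : Type} {l : Filter ι} (u : ι → Isp) (f : Isp) :
    Filter.Tendsto u l (𝓝 f) ↔ ∀ n, Filter.Tendsto (fun k => pn n (u k - f)) l (𝓝 0) := by
  rw [withSeminorms_pn.tendsto_nhds]
  refine forall_congr' fun n => ?_
  rw [Metric.tendsto_nhds]
  refine forall_congr' fun ε => forall_congr' fun _ => ?_
  refine Filter.eventually_congr (Filter.Eventually.of_forall fun k => ?_)
  rw [Real.dist_eq, sub_zero, abs_of_nonneg (apply_nonneg _ _)]

theorem continuous_iota (n : ℕ) : Continuous (iota n) :=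
  cont_of_bound (Y := Bn n) (iota n) n 1 (fun f => by rw [one_mul, pn_eq])

/-- The evaluation at a point, a coordinate. -/
def evI (x : E) (a b : Fin 2) (i : Fin 4) : Isp →ₗ[ℂ] ℂ where
  toFun f := f x a b i
  map_add' f g := rfl
  map_smul' c f := rfl

theorem continuous_evI (x : E) (a b : Fin 2) (i : Fin 4) : Continuous (evI x a b i) := by
  refine cont_of_bound (evI x a b i) 0 (32 * (sz x) ^ 8) fun f => ?_
  have h1 : ‖evI x a b i f‖ ≤ ‖f x‖ :=
    (norm_le_pi_norm (f x a b) i).trans ((norm_le_pi_norm (f x a) b).trans (norm_le_pi_norm (f x) a))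
  by_cases hx : x ∈ Om
  · exact h1.trans (value_bound f x hx)
  · refine h1.trans ?_
    rw [(isI f).zero_off x hx, norm_zero]
    have h2 : (0 : ℝ) ≤ (sz x) ^ 8 := Even.pow_nonneg (by decide) _
    exact mul_nonneg (mul_nonneg (by norm_num) h2) (apply_nonneg _ _)

/-- The evaluation as a continuous functional. -/
def evL (x : E) (a b : Fin 2) (i : Fin 4) : Isp →L[ℂ] ℂ :=
  ⟨evI x a b i, continuous_evI x a b i⟩

@[simp] theorem evL_app (x : E) (a b : Fin 2) (i : Fin 4) (f : Isp) :
    evL x a b i f = f x a b i := rfl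

end SoCo
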