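import Pool.Agent.H.MP_0f3f77_al.Defs2
import Pool.Agent.H.MP_0f3f77_al.DerGL

/-!
Translation of the bundled definitions of `Defs`, `Defs2` to the unbundled ones of `DerGL`.
-/

open scoped Topology
open Filter

noncomputable section

namespace SoCo

/-- The map `s` is the representation `σ` of `S`, on `S`. -/
def Agr {G : Type} [Group G] {S : Subgroup G} (σ : TRep S) (s : G → σ.V → σ.V) : Prop :=
  ∀ g (h : g ∈ S) v, s g v = σ.act ⟨g, h⟩ v

open Classical in
/-- Extension of a representation of `S`. -/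
def TRep.ext {G : Type} [Group G] {S : Subgroup G} (σ : TRep S) : G → σ.V → σ.V :=
  fun g v => if h : g ∈ S then σ.act ⟨g, h⟩ v else v

theorem agr_ext {G : Type} [Group G] {S : Subgroup G} (σ : TRep S) : Agr σ σ.ext := by
  intro g h v
  simp [TRep.ext, h]

theorem agr_res {G : Type} [Group G] (π : TRep G) (S : Subgroup G) :
    Agr (π.res S) (fun g v => π.act g v) := by
  intro g h v
  rfl

theorem mem_mir {m : ℕ} (g : GL (Fin (m + 1)) ℝ) : g ∈ DerGL.Mir m ↔ g ∈ Mir m := Iff.rfl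

theorem exp_sq_zero {n : ℕ} (N : Matrix (Fin n) (Fin n) ℝ) (h : N * N = 0) :
    NormedSpace.exp N = 1 + N := by
  rw [NormedSpace.exp_eq_tsum ℝ]
  simp only
  rw [tsum_eq_sum (s := Finset.range 2)]
  · simp [Finset.sum_range_succ]
  · intro b hb
    have hb' : 2 ≤ b := by
      simp only [Finset.mem_range, not_lt] at hb
      exact hb
    obtain ⟨c, rfl⟩ := Nat.exists_eq_add_of_le hb'
    rw [pow_add, pow_two, h, zero_mul, smul_zero]

theorem sub_one_sq {m : ℕ} (α : Fin m → ℝ) : (unipM α - 1) * (unipM α - 1) = 0 := by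
  ext i j
  rw [Matrix.mul_apply, Fin.sum_univ_castSucc]
  refine Fin.lastCases ?_ (fun i => ?_) i <;> refine Fin.lastCases ?_ (fun j => ?_) j <;>
    simp [Matrix.one_apply, Fin.ext_iff]

theorem smul_sub_one {m : ℕ} (t : ℝ) (α : Fin m → ℝ) :
    t • (unipM α - 1) = unipM (t • α) - 1 := by
  ext i j
  refine Fin.lastCases ?_ (fun i => ?_) i <;> refine Fin.lastCases ?_ (fun j => ?_) j <;>
    simp [Matrix.one_apply, Fin.ext_iff, (Fin.is_lt _).ne, (Fin.is_lt _).ne']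

theorem exp_unip {m : ℕ} (t : ℝ) (α : Fin m → ℝ) :
    NormedSpace.exp (t • (unipM α - 1)) = unipM (t • α) := by
  rw [smul_sub_one, exp_sq_zero _ (sub_one_sq _)]
  abel

theorem inRad_unip {m : ℕ} (α : Fin m → ℝ) : DerGL.InRad (unipM α - 1) := by
  intro i j
  refine Fin.lastCases ?_ (fun i => ?_) i <;> refine Fin.lastCases ?_ (fun j => ?_) j <;>
    simp [Matrix.one_apply, Fin.ext_iff, (Fin.is_lt _).ne, (Fin.is_lt _).ne']

theorem exists_of_inRad {m : ℕ} {X : Matrix (Fin (m + 1)) (Fin (m + 1)) ℝ}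
    (h : DerGL.InRad X) : X = unipM (fun i => X i.castSucc (Fin.last m)) - 1 := by
  ext i j
  refine Fin.lastCases ?_ (fun i => ?_) i <;> refine Fin.lastCases ?_ (fun j => ?_) j
  · have h1 : X (Fin.last m) (Fin.last m) = 0 := by
      by_contra h2
      exact (h _ _ h2).1 rfl
    simp [h1]
  · have h1 : X (Fin.last m) j.castSucc = 0 := by
      by_contra h2
      exact (h _ _ h2).1 rfl
    simp [h1]
  · simp [Fin.ext_iff, (Fin.is_lt _).ne]
  · have h1 : X i.castSucc j.castSucc = 0 := by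
      by_contra h2
      have := (h _ _ h2).2
      simp [Fin.ext_iff, (Fin.is_lt _).ne] at this
    simp [h1]

theorem lieAct_iff {m : ℕ} {σ : TRep (Mir m)} {s : GL (Fin (m + 1)) ℝ → σ.V → σ.V}
    (hs : Agr σ s) (α : Fin m → ℝ) (v w : σ.V) :
    DerGL.LieAct s (unipM α - 1) v w ↔ DerZero (fun t : ℝ => σ.act (unip (t • α)) v) w := by
  have key : ∀ γ : ℝ → GL (Fin (m + 1)) ℝ,
      (∀ t, (γ t : Matrix (Fin (m + 1)) (Fin (m + 1)) ℝ) =
        NormedSpace.exp (t • (unipM α - 1))) →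
      (fun t => s (γ t) v) = fun t : ℝ => σ.act (unip (t • α)) v := by
    intro γ hγ
    funext t
    have e : γ t = (unip (t • α) : Mir m) := by
      apply Units.ext
      rw [hγ t, exp_unip]
      rfl
    rw [e, hs _ (unip (t • α) : Mir m).2]
  constructor
  · intro h
    have h1 := h (fun t => ((unip (t • α) : Mir m) : GL (Fin (m + 1)) ℝ)) (by
      intro t
      rw [exp_unip]
      rfl)
    rw [key _ (by intro t; rw [exp_unip]; rfl)] at h1
    exact h1
  · intro h γ hγ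
    rw [key γ hγ]
    exact h

theorem tr_psiSpan (ν : ℝ) {m : ℕ} {σ : TRep (Mir (m + 1))}
    {s : GL (Fin (m + 2)) ℝ → σ.V → σ.V} (hs : Agr σ s) :
    DerGL.psiSpan ν s = psiSpan ν σ := by
  unfold DerGL.psiSpan psiSpan
  congr 1
  ext y
  constructor
  · rintro ⟨X, v, w, hX, hw, rfl⟩
    rw [exists_of_inRad hX] at hw ⊢
    rw [lieAct_iff hs] at hw
    refine ⟨_, v, w, hw, ?_⟩
    simp [Fin.ext_iff]
  · rintro ⟨α, v, w, hw, rfl⟩
    refine ⟨unipM α - 1, v, w, inRad_unip α, (lieAct_iff hs α v w).2 hw, ?_⟩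
    simp [Fin.ext_iff]

theorem tr_radSpan {m : ℕ} {σ : TRep (Mir m)}
    {s : GL (Fin (m + 1)) ℝ → σ.V → σ.V} (hs : Agr σ s) (l : ℕ) :
    DerGL.radSpan s l = radSpan σ l := by
  induction l with
  | zero => rfl
  | succ l ih =>
    have e : DerGL.radSpan s (l + 1) = Submodule.span ℂ
      {w | ∃ (X : Matrix (Fin (m + 1)) (Fin (m + 1)) ℝ) (v : σ.V),
      DerGL.InRad X ∧ v ∈ DerGL.radSpan s l ∧ DerGL.LieAct s X v w} := rfl
    rw [e, ih, radSpan]
    congr 1
    ext y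
    constructor
    · rintro ⟨X, v, hX, hv, hw⟩
      rw [exists_of_inRad hX, lieAct_iff hs] at hw
      exact ⟨_, v, hv, hw⟩
    · rintro ⟨α, v, hv, hw⟩
      exact ⟨unipM α - 1, v, inRad_unip α, hv, (lieAct_iff hs α v y).2 hw⟩

theorem isPsi_Psi (ν : ℝ) {m : ℕ} (σ : TRep (Mir (m + 1)))
    {s : GL (Fin (m + 2)) ℝ → σ.V → σ.V} (hs : Agr σ s) :
    DerGL.IsPsi ν s (Psi ν σ).ext := by
  refine ⟨(psiSpan ν σ).mkQL, ?_, ?_, ?_⟩
  · exact Submodule.isQuotientMap_mkQL _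
  · intro v
    rw [tr_psiSpan ν hs]
    exact Submodule.Quotient.mk_eq_zero _
  · intro h hh g hg v
    have hg' : g = ((emb (m + 1) h : Mir (m + 1)) : GL (Fin (m + 2)) ℝ) := by
      apply Units.ext
      rw [hg]
      rfl
    rw [agr_ext (Psi ν σ) h hh, hg', hs _ (emb (m + 1) h : Mir (m + 1)).2]
    rfl

theorem isPhi_Phi {m : ℕ} (σ : TRep (Mir m))
    {s : GL (Fin (m + 1)) ℝ → σ.V → σ.V} (hs : Agr σ s) :
    DerGL.IsPhi s (Phi σ).ext := by
  unfold DerGL.IsPhi
  have e : DerGL.radSpan s = radSpan σ := funext (tr_radSpan hs)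
  rw [e]
  refine ⟨fun l => (ContinuousLinearMap.proj l).comp (limSub σ).subtypeL, ?_, ?_, ?_, ?_⟩
  · intro x l v h
    have h1 := x.2 l
    have h2 : x.1 (l + 1) = Submodule.Quotient.mk v := h
    rw [h2] at h1
    exact h1.symm
  · intro y hy
    refine ⟨⟨y, ?_⟩, fun l => rfl, ?_⟩
    · intro l
      obtain ⟨v, hv⟩ := Submodule.Quotient.mk_surjective _ (y (l + 1))
      have h1 := hy l v hv.symm
      rw [h1, ← hv]
      rfl
    · intro z hz
      apply Subtype.ext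
      funext l
      exact hz l
  · exact Topology.IsInducing.subtypeVal
  · intro g hg x l v h
    rw [agr_ext (Phi σ) g hg]
    change quotOp (radSpan σ l) (σ.act ⟨g, hg⟩) (radSpan_inv σ l _) (x.1 l) = _
    have h2 : x.1 l = Submodule.Quotient.mk v := h
    rw [h2, hs g hg]
    rfl

theorem isPsiN_PsiN (ν : ℝ) (m k : ℕ) (σ : TRep (Mir (m + k)))
    {s : GL (Fin (m + k + 1)) ℝ → σ.V → σ.V} (hs : Agr σ s) :
    DerGL.IsPsiN ν m k (TopModuleCat.of ℂ σ.V) s (TopModuleCat.of ℂ (PsiN ν m k σ).V)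
      (PsiN ν m k σ).ext := by
  induction k with
  | zero =>
    refine ⟨ContinuousLinearEquiv.refl ℂ σ.V, ?_⟩
    intro g hg v
    exact (hs g hg v).trans (agr_ext σ g hg v).symm
  | succ k ih =>
    refine ⟨TopModuleCat.of ℂ (Psi ν σ).V, (Psi ν σ).ext, isPsi_Psi ν σ hs, ?_⟩
    exact ih (Psi ν σ) (agr_ext _)

theorem isDer_Der (ν : ℝ) (m k : ℕ) (π : TRep (GL (Fin (m + k + 1)) ℝ)) :
    DerGL.IsDer ν m k (V := TopModuleCat.of ℂ π.V) (D := TopModuleCat.of ℂ (Der ν m k π).V)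
      (fun g v => π.act g v) (Der ν m k π).ext :=
  ⟨TopModuleCat.of ℂ (PsiN ν m k (π.res (Mir (m + k)))).V, _,
    isPsiN_PsiN ν m k (π.res (Mir (m + k))) (agr_res π _), isPhi_Phi _ (agr_ext _)⟩

end SoCo
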