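import Pool.Agent.H.MP_0f3f77_al.TrA

/-!
Translation of the bundled definitions of `Defs`, `Defs2` to the unbundled ones of `DerGL`:
lengths, filtrations, Casselman-Wallach representations.
-/

open scoped Topology
open Filter

noncomputable section

namespace SoCo

section

variable {G : Type} [Group G] {S : Subgroup G} {σ : TRep S} {s : G → σ.V → σ.V}

theorem isSub_tr {T : Set G} (hT : ∀ g, g ∈ T ↔ g ∈ S) (hs : Agr σ s) (U : Submodule ℂ σ.V) :
    DerGL.IsSub T s U ↔ IsSub σ U := by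
  constructor
  · rintro ⟨h1, h2⟩
    refine ⟨h1, fun g v hv => ?_⟩
    have h3 := h2 g ((hT g).2 g.2) v hv
    rw [hs g g.2] at h3
    exact h3
  · rintro ⟨h1, h2⟩
    refine ⟨h1, fun g hg v hv => ?_⟩
    rw [hs g ((hT g).1 hg)]
    exact h2 _ v hv

theorem covers_tr {T : Set G} (hT : ∀ g, g ∈ T ↔ g ∈ S) (hs : Agr σ s)
    (W U : Submodule ℂ σ.V) : DerGL.Covers T s W U ↔ Covers σ W U := by
  unfold DerGL.Covers Covers
  simp only [isSub_tr hT hs]

theorem hasLen_tr {T : Set G} (hT : ∀ g, g ∈ T ↔ g ∈ S) (hs : Agr σ s)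
    (W U : Submodule ℂ σ.V) (n : ℕ) : DerGL.HasLen T s W U n ↔ HasLen σ W U n := by
  unfold DerGL.HasLen HasLen
  simp only [covers_tr hT hs]

theorem semiOver_tr {T : Set G} (hT : ∀ g, g ∈ T ↔ g ∈ S) (hs : Agr σ s)
    (W U : Submodule ℂ σ.V) : DerGL.SemiOver T s W U ↔ SemiOver σ W U := by
  unfold DerGL.SemiOver SemiOver
  simp only [covers_tr hT hs, isSub_tr hT hs]

theorem socleFilt_tr {T : Set G} (hT : ∀ g, g ∈ T ↔ g ∈ S) (hs : Agr σ s) (p : ℕ)
    (F : ℕ → Submodule ℂ σ.V) : DerGL.SocleFilt T s p F ↔ SocleFilt σ p F := by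
  unfold DerGL.SocleFilt SocleFilt
  simp only [semiOver_tr hT hs]

theorem cosocleFilt_tr {T : Set G} (hT : ∀ g, g ∈ T ↔ g ∈ S) (hs : Agr σ s) (p : ℕ)
    (F : ℕ → Submodule ℂ σ.V) : DerGL.CosocleFilt T s p F ↔ CosocleFilt σ p F := by
  unfold DerGL.CosocleFilt CosocleFilt
  simp only [semiOver_tr hT hs]

end

section

variable {G : Type} [Group G] (π : TRep G)

theorem isSub_univ (U : Submodule ℂ π.V) :
    DerGL.IsSub Set.univ (fun g v => π.act g v) U ↔ IsSub π U := by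
  unfold DerGL.IsSub IsSub
  simp

theorem covers_univ (W U : Submodule ℂ π.V) :
    DerGL.Covers Set.univ (fun g v => π.act g v) W U ↔ Covers π W U := by
  unfold DerGL.Covers Covers
  simp only [isSub_univ]

theorem hasLen_univ (W U : Submodule ℂ π.V) (n : ℕ) :
    DerGL.HasLen Set.univ (fun g v => π.act g v) W U n ↔ HasLen π W U n := by
  unfold DerGL.HasLen HasLen
  simp only [covers_univ]

end

theorem isAdm_tr {n : ℕ} (π : TRep (GL (Fin n) ℝ))
    (h : ∀ (W : Type) [AddCommGroup W] [Module ℂ W] [FiniteDimensional ℂ W]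
    (τ : GL (Fin n) ℝ → W →ₗ[ℂ] W) (E : Submodule ℂ (W →ₗ[ℂ] π.V)),
    (∀ T ∈ E, ∀ k : GL (Fin n) ℝ,
      (k : Matrix (Fin n) (Fin n) ℝ) * (k : Matrix (Fin n) (Fin n) ℝ).transpose = 1 →
      ∀ w, π.act k (T w) = T (τ k w)) → FiniteDimensional ℂ E) :
    DerGL.IsAdmissible (fun g v => π.act g v) := by
  intro d τ E hE
  let Φ : (Fin d → π.V) ≃ₗ[ℂ] ((Fin d → ℂ) →ₗ[ℂ] π.V) := (Pi.basisFun ℂ (Fin d)).constr ℂ
  have h1 := h (Fin d → ℂ) (fun g => Matrix.toLin' (τ g)) (E.map Φ.toLinearMap) (by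
    intro T hT k hk w
    obtain ⟨T', hT', rfl⟩ := hT
    have e : (π.act k).toLinearMap.comp (Φ T') = (Φ T').comp (Matrix.toLin' (τ k)) := by
      apply (Pi.basisFun ℂ (Fin d)).ext
      intro j
      have e1 := hE T' hT' k hk j
      have e2 : ∀ i, (Φ T') (Pi.basisFun ℂ (Fin d) i) = T' i := fun i =>
        Module.Basis.constr_basis (Pi.basisFun ℂ (Fin d)) ℂ T' i
      have e3 : (Matrix.toLin' (τ k)) (Pi.basisFun ℂ (Fin d) j) =
          ∑ i, τ k i j • Pi.basisFun ℂ (Fin d) i := by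
        ext i
        simp [Finset.sum_apply, Pi.single_apply]
      change π.act k ((Φ T') (Pi.basisFun ℂ (Fin d) j)) = (Φ T') _
      rw [e2, e3, map_sum]
      simp only [map_smul, e2]
      exact e1
    exact congrArg (fun f => f w) e)
  exact Module.Finite.equiv (Φ.submoduleMap E).symm

theorem isCW_tr {n : ℕ} (π : TRep (GL (Fin n) ℝ)) (h : IsCW π) :
    DerGL.IsCW (fun g v => π.act g v) := by
  refine ⟨⟨fun g v w => map_add _ _ _, fun g c v => map_smul _ _ _, fun v => ?_,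
    fun g h v => ?_⟩, ⟨inferInstance, inferInstance, h.t2, h.fc, h.lc, h.complete⟩,
    ⟨h.cont, fun X v => ?_⟩, h.growth, isAdm_tr π h.admissible, ?_⟩
  · simp
  · simp
  · obtain ⟨w, hw⟩ := h.smooth X v
    exact ⟨w, fun γ hγ => hw γ hγ⟩
  · obtain ⟨l, hl⟩ := h.finlen
    exact ⟨l, (hasLen_univ π ⊥ ⊤ l).2 hl⟩

theorem isIrred_tr {n : ℕ} (π : TRep (GL (Fin n) ℝ)) (h : IsIrred π) :
    DerGL.IsIrred Set.univ (fun g v => π.act g v) := (covers_univ π ⊥ ⊤).2 h

end SoCo
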