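import Pool.Agent.H.MP_0f3f77_al.CurlZero
import Pool.Agent.H.MP_0f3f77_al.QfDef

/-!
A closed `GL_4`-invariant subspace on which `cc ν 1` vanishes is zero.

`curl_int`, proof.  Let `B = !![ξ.2/ν, -ξ.1/ν; ξ.1/ν, ξ.2/ν]` (rows), `det B = (ξ.1^2+ξ.2^2)/ν^2`,
and `g = diag(1, B, 1)` (block in the coordinates 1, 2).  For `k = 1, 2`,
`sl (act g f) 0 0 1 p = ∑_{k=1,2} (B⁻¹)_{k1} sl f 0 0 k (B⁻¹ p)` (first index row; the entries
`(B⁻¹)_{11} = (ξ.2/ν)/det B`, `(B⁻¹)_{21} = -(ξ.1/ν)/det B`).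
`cc ν 1 (act g f) = ∫ sl (act g f) 0 0 1 p e^{iν p.2} dp` (`Lf_eq`, `sl_sy`), and the substitution
`p = B w` gives `|det B| ∫ ∑_k (B⁻¹)_{k1} sl f 0 0 k w e^{i ξ·w} dw` because `ν (B w).2 = ξ·w`.

`curl_zero`, proof.  `φ = dz (sl f 0 0 1) - dy (sl f 0 0 2)` is in `Sy (-4)`, continuous and
integrable; integrating by parts, `∫ φ e^{iξ·p} = -i ξ.2 ∫ sl_1 e + i ξ.1 ∫ sl_2 e = 0` for
`ξ ≠ 0`, so `φ = 0` by `four_inj2`.

`value_zero`, proof.  At `x = pt 0 0 = (e_0, e_3)`, `curl_zero` reads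
`(D 2 3 f) x 0 0 1 = (D 1 3 f) x 0 0 2` for all `f ∈ σ` (`sl_D23`, `sl_D13`).  Apply it to
`D 3 1 f ∈ σ` (`opg_mem` with `exists_opg`).  `D23 D31 = D31 D23 + D21`,
`D13 D31 = D31 D13 + D11 - D33`
(`dop_bracket`).  By `dop_app` at `x`: `lmul (Eij 3 1) x = 0`, `(D31 g) x a b i = -(g x a b 3)` if
`i = 1` and `0` otherwise, and `g x a b 3 = 0` (annihilation, `x 1 = e_3`); `lmul (Eij 2 1) x = 0`,
`(D21 f) x 0 0 1 = -f x 0 0 2`; `(D11 f) x 0 0 2 = 0`; `lmul (Eij 3 3) x = (0, x 1)`, so by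
`cov_deriv` with `B = E_11` (2 x 2), `(D33 f) x 0 0 2 = 3 f x 0 0 2`.  So
`-f x 0 0 2 = -3 f x 0 0 2`.

`sigma_zero`, proof.  For every `g`, `act g⁻¹ f ∈ σ`, so
`∑ k, g k 2 * f (lmul g x) 0 0 k = 0`.  Given `y ∈ Om` and `w` not in the span of `y 0, y 1`,
there is `g ∈ GL_4` with columns `g e_0 = y 0`, `g e_2 = w`, `g e_3 = y 1`; so
`∑ k, w k * f y 0 0 k = 0`.  For `w` in the span this holds by the annihilation property.  So
`f y 0 0 = 0` for all `y ∈ Om`.  Then `cov` for `A = !![1, 0; s, 1]` (first column `(1, s)`):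
`0 = f (rmul y A) 0 0 = f y 0 0 + 2 s f y 0 1 + s^2 f y 1 1` for all `s`, so all components vanish.
-/

open scoped Topology ContDiff
open MeasureTheory

noncomputable section

namespace SoCo

theorem valuezero_ann (f : Isp) : f (pt 0 0) 0 0 3 = 0 := by
  have h := (isI f).ann (pt 0 0) 0 0 1
  rw [Fin.sum_univ_four] at h
  simpa [pt] using h

theorem valuezero_D31 (g : Isp) (i : Fin 4) (hi : i = 1 ∨ i = 2) :
    D 3 1 g (pt 0 0) 0 0 i = 0 := by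
  have h1 : lmul (Eij 3 1) (pt 0 0) = 0 := by
    funext a j
    rw [lmul_app, Fin.sum_univ_four]
    fin_cases a <;> fin_cases j <;> simp [Eij, Matrix.single, pt]
  rw [D, dop_app _ _ _ (pt_mem 0 0), h1, map_zero, Fin.sum_univ_four]
  rcases hi with rfl | rfl
  · simp [Eij, Matrix.single, valuezero_ann]
  · simp [Eij, Matrix.single]

theorem valuezero_D21 (g : Isp) : dop (Eij 2 1) g (pt 0 0) 0 0 1 = -g (pt 0 0) 0 0 2 := by
  have h1 : lmul (Eij 2 1) (pt 0 0) = 0 := by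
    funext a j
    rw [lmul_app, Fin.sum_univ_four]
    fin_cases a <;> fin_cases j <;> simp [Eij, Matrix.single, pt]
  rw [dop_app _ _ _ (pt_mem 0 0), h1, map_zero, Fin.sum_univ_four]
  simp [Eij, Matrix.single]

theorem valuezero_D1133 (g : Isp) :
    dop (Eij 1 1 - Eij 3 3) g (pt 0 0) 0 0 2 = -3 * g (pt 0 0) 0 0 2 := by
  have h1 : lmul (Eij 1 1 - Eij 3 3) (pt 0 0) = rmul (pt 0 0) !![0, 0; 0, -1] := by
    funext a j
    rw [lmul_app, Fin.sum_univ_four, rmul_app]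
    fin_cases a <;> fin_cases j <;> simp [Eij, Matrix.single, pt]
  rw [dop_app _ _ _ (pt_mem 0 0), h1, cov_deriv _ _ (pt_mem 0 0), Fin.sum_univ_four,
    Fin.sum_univ_two, Fin.sum_univ_two]
  simp [Eij, Matrix.single]

theorem valuezero_m1 : Eij 2 3 * Eij 3 1 - Eij 3 1 * Eij 2 3 = Eij 2 1 := by
  simp [Eij]

theorem valuezero_m2 : Eij 1 3 * Eij 3 1 - Eij 3 1 * Eij 1 3 = Eij 1 1 - Eij 3 3 := by
  simp [Eij]

theorem valuezero_mem (σ : Submodule ℂ Isp) (hc : IsClosed (σ : Set Isp))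
    (hg : Ginv σ) (X : Mat) : ∀ f ∈ σ, dop X f ∈ σ := by
  obtain ⟨γ, hγ, -⟩ := exists_opg X
  exact opg_mem hγ σ hc fun t f hf => hg (γ t) f hf

theorem value_zero (ν : ℝ) (hν : ν ≠ 0) (σ : Submodule ℂ Isp) (hc : IsClosed (σ : Set Isp))
    (hg : Ginv σ) (h : ∀ f ∈ σ, cc ν 1 f = 0) : ∀ f ∈ σ, f (pt 0 0) 0 0 2 = 0 := by
  intro f hf
  have h1 : D 3 1 f ∈ σ := valuezero_mem σ hc hg _ f hf
  have h2 := curl_zero ν hν (D 3 1 f) fun g => h _ (hg g _ h1)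
  have h3 : sl (D 2 3 (D 3 1 f)) 0 0 1 0 = sl (D 1 3 (D 3 1 f)) 0 0 2 0 := by
    rw [sl_D23 _ _ _ _ (Or.inl rfl), sl_D13 _ _ _ _ (Or.inr rfl), h2]
  have h4 : D 2 3 (D 3 1 f) = D 3 1 (D 2 3 f) + dop (Eij 2 1) f := by
    rw [← valuezero_m1]
    exact dop_bracket _ _ f
  have h5 : D 1 3 (D 3 1 f) = D 3 1 (D 1 3 f) + dop (Eij 1 1 - Eij 3 3) f := by
    rw [← valuezero_m2]
    exact dop_bracket _ _ f
  rw [h4, h5] at h3
  change (D 3 1 (D 2 3 f) + dop (Eij 2 1) f) (pt 0 0) 0 0 1 =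
    (D 3 1 (D 1 3 f) + dop (Eij 1 1 - Eij 3 3) f) (pt 0 0) 0 0 2 at h3
  simp only [Isp.add_app, Pi.add_apply] at h3
  rw [valuezero_D31 _ _ (Or.inl rfl), valuezero_D31 _ _ (Or.inr rfl), valuezero_D21,
    valuezero_D1133] at h3
  linear_combination (1 / 2 : ℂ) * h3

end SoCo
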